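import Pool.Agent.NVB.Lm

/-!
# Laws with an atom at zero: `D(q, μ) ≤ 0` bounds the resampling rate from below
-/

set_option autoImplicit false

namespace Pool.Agent.NVB

open MeasureTheory ProbabilityTheory Filter Topology
open scoped Classical ENNReal

variable {κ : ℝ} {μ : ℝ} {q : Measure (Set.Icc (0 : ℝ) κ)} [IsProbabilityMeasure q]

theorem cD_form (hκ : 0 < κ) (hμ : 0 < μ) (hD : DD μ q ≤ 0) :
    mean q * ((∫ w : Set.Icc (0 : ℝ) κ, ((w : ℝ) / (μ + w)) ^ 2 ∂q) -
        (∫ w : Set.Icc (0 : ℝ) κ, (w : ℝ) / (μ + w) ∂q) ^ 2) ≤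
      μ * ((∫ w : Set.Icc (0 : ℝ) κ, (w : ℝ) / (μ + w) ∂q) -
        (∫ w : Set.Icc (0 : ℝ) κ, ((w : ℝ) / (μ + w)) ^ 2 ∂q)) := by
  set m := mean q with hm
  have hpos : ∀ w ∈ Set.Icc (0 : ℝ) κ, 0 < μ + w := fun w hw => by linarith [hw.1]
  have j1 : Integrable (fun w : Set.Icc (0 : ℝ) κ => (w : ℝ) / (μ + w)) q :=
    cont_int (f := fun w => w / (μ + w)) (ContinuousOn.div (by fun_prop) (by fun_prop)
      fun w hw => (hpos w hw).ne')
  have j2 : Integrable (fun w : Set.Icc (0 : ℝ) κ => ((w : ℝ) / (μ + w)) ^ 2) q :=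
    cont_int (f := fun w => (w / (μ + w)) ^ 2) ((ContinuousOn.div (by fun_prop) (by fun_prop)
      fun w hw => (hpos w hw).ne').pow 2)
  set y := ∫ w : Set.Icc (0 : ℝ) κ, (w : ℝ) / (μ + w) ∂q with hy
  set G := ∫ w : Set.Icc (0 : ℝ) κ, ((w : ℝ) / (μ + w)) ^ 2 ∂q with hG
  have hc0 : 0 ≤ cD μ q := by
    rw [cD_eq le_rfl hκ hμ]
    exact div_nonneg (by linarith) (sq_nonneg _)
  have hA0 := h1_pos (q := q) le_rfl hκ hμ zero_le_one le_rfl
  have X1 : ∀ w : ℝ, X μ q 1 w = μ + w := by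
    intro w
    unfold X
    ring
  have eA : h1 μ q 1 = (1 - y) / μ := by
    unfold h1
    simp only [X1]
    have e1 : ∀ w : Set.Icc (0 : ℝ) κ, 1 / (μ + (w : ℝ)) =
        1 / μ + -(1 / μ) * ((w : ℝ) / (μ + w)) := by
      intro w
      have := (hpos w w.2).ne'
      field_simp
      ring
    rw [integral_congr_ae (Eventually.of_forall e1), integral_add (integrable_const _)
      (j1.const_mul _), integral_const_mul]
    simp only [integral_const, probReal_univ, one_smul]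
    rw [← hy]
    field_simp
    ring
  have eI : ∫ w : Set.Icc (0 : ℝ) κ, ((w : ℝ) - m) / (μ + w) ^ 2 ∂q =
      (-m + (μ + 2 * m) * y - (μ + m) * G) / μ ^ 2 := by
    have e1 : ∀ w : Set.Icc (0 : ℝ) κ, ((w : ℝ) - m) / (μ + w) ^ 2 =
        (-m / μ ^ 2 + ((μ + 2 * m) / μ ^ 2) * ((w : ℝ) / (μ + w))) +
          (-(μ + m) / μ ^ 2) * ((w : ℝ) / (μ + w)) ^ 2 := by
      intro w
      have := (hpos w w.2).ne'
      field_simp
      ring
    have k1 : Integrable (fun w : Set.Icc (0 : ℝ) κ => -m / μ ^ 2 +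
        ((μ + 2 * m) / μ ^ 2) * ((w : ℝ) / (μ + w))) q :=
      (integrable_const _).add (j1.const_mul _)
    rw [integral_congr_ae (Eventually.of_forall e1), integral_add k1 (j2.const_mul _),
      integral_add (integrable_const _) (j1.const_mul _), integral_const_mul, integral_const_mul]
    simp only [integral_const, probReal_univ, one_smul]
    rw [← hy, ← hG]
    ring
  have hc : cD μ q = m + (∫ w : Set.Icc (0 : ℝ) κ, ((w : ℝ) - m) / (μ + w) ^ 2 ∂q) /
      h1 μ q 1 ^ 2 := by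
    unfold cD
    simp only [X1]
    rw [← hm]
  rw [hc, eI] at hc0
  have hA2 : 0 < h1 μ q 1 ^ 2 := pow_pos hA0 2
  have h3 : 0 ≤ m * h1 μ q 1 ^ 2 + (-m + (μ + 2 * m) * y - (μ + m) * G) / μ ^ 2 := by
    have := mul_nonneg hc0 hA2.le
    rw [add_mul, div_mul_cancel₀ _ hA2.ne'] at this
    exact this
  have h4 : 0 ≤ m * (1 - y) ^ 2 + (-m + (μ + 2 * m) * y - (μ + m) * G) := by
    have := mul_nonneg h3 (sq_nonneg μ)
    rw [eA] at this
    have e2 : (m * ((1 - y) / μ) ^ 2 + (-m + (μ + 2 * m) * y - (μ + m) * G) / μ ^ 2) * μ ^ 2 =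
        m * (1 - y) ^ 2 + (-m + (μ + 2 * m) * y - (μ + m) * G) := by
      field_simp
    rwa [e2] at this
  linarith

/-- if `q` has the mass `a` at zero and `D(q, μ) ≤ 0`, then `a m² ≤ μ (μ + κ)` -/
theorem atom_mu (hκ : 0 < κ) (hμ : 0 < μ) (hm : 0 < mean q) (hD : DD μ q ≤ 0) :
    q.real {w : Set.Icc (0 : ℝ) κ | (w : ℝ) = 0} * mean q ^ 2 ≤ μ * (μ + κ) := by
  have h0 := cD_form hκ hμ hD
  set m := mean q with hmd
  set a := q.real {w : Set.Icc (0 : ℝ) κ | (w : ℝ) = 0} with ha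
  have hpos : ∀ w ∈ Set.Icc (0 : ℝ) κ, 0 < μ + w := fun w hw => by linarith [hw.1]
  have j1 : Integrable (fun w : Set.Icc (0 : ℝ) κ => (w : ℝ) / (μ + w)) q :=
    cont_int (f := fun w => w / (μ + w)) (ContinuousOn.div (by fun_prop) (by fun_prop)
      fun w hw => (hpos w hw).ne')
  have j2 : Integrable (fun w : Set.Icc (0 : ℝ) κ => ((w : ℝ) / (μ + w)) ^ 2) q :=
    cont_int (f := fun w => (w / (μ + w)) ^ 2) ((ContinuousOn.div (by fun_prop) (by fun_prop)
      fun w hw => (hpos w hw).ne').pow 2)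
  set y := ∫ w : Set.Icc (0 : ℝ) κ, (w : ℝ) / (μ + w) ∂q with hy
  set G := ∫ w : Set.Icc (0 : ℝ) κ, ((w : ℝ) / (μ + w)) ^ 2 ∂q with hG
  have hms : MeasurableSet {w : Set.Icc (0 : ℝ) κ | (w : ℝ) = 0} :=
    measurable_subtype_coe (measurableSet_singleton (0 : ℝ))
  have ha0 : 0 ≤ a := measureReal_nonneg
  have ha1 : a ≤ 1 := measureReal_le_one
  set s := {w : Set.Icc (0 : ℝ) κ | (w : ℝ) = 0}ᶜ with hs
  have hss : MeasurableSet s := hms.compl
  have hb : ∫ w, s.indicator (fun _ => (1 : ℝ)) w ∂q = 1 - a := by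
    rw [integral_indicator_const _ hss, smul_eq_mul, mul_one, hs, measureReal_compl hms,
      probReal_univ]
  have jb : Integrable (s.indicator (fun _ => (1 : ℝ))) q :=
    (integrable_const (1 : ℝ)).indicator hss
  -- the mean
  have hm1 : m ≤ κ * (1 - a) := by
    rw [← hb, ← integral_const_mul]
    refine integral_mono integrable_val (jb.const_mul _) fun w => ?_
    beta_reduce
    by_cases hw : (w : ℝ) = 0
    · rw [hw]
      exact mul_nonneg hκ.le (Set.indicator_nonneg (fun _ _ => zero_le_one) w)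
    · rw [Set.indicator_of_mem (by simpa [hs] using hw)]
      linarith [w.2.2]
  have h1a : 0 < 1 - a := by
    by_contra h
    rw [not_lt] at h
    have := mul_nonpos_of_nonneg_of_nonpos hκ.le h
    linarith
  -- the inequality of Cauchy and Schwarz
  have h2 : 0 ≤ (1 - a) * ((1 - a) * G - y ^ 2) := by
    have e1 : ∀ w : Set.Icc (0 : ℝ) κ, ((1 - a) * ((w : ℝ) / (μ + w)) -
        y * s.indicator (fun _ => (1 : ℝ)) w) ^ 2 =
        ((1 - a) ^ 2 * ((w : ℝ) / (μ + w)) ^ 2 + (-(2 * (1 - a) * y)) * ((w : ℝ) / (μ + w))) +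
          y ^ 2 * s.indicator (fun _ => (1 : ℝ)) w := by
      intro w
      by_cases hw : (w : ℝ) = 0
      · rw [Set.indicator_of_notMem (by simpa [hs] using hw), hw]
        simp
      · rw [Set.indicator_of_mem (by simpa [hs] using hw)]
        ring
    have k1 : Integrable (fun w : Set.Icc (0 : ℝ) κ => (1 - a) ^ 2 * ((w : ℝ) / (μ + w)) ^ 2 +
        (-(2 * (1 - a) * y)) * ((w : ℝ) / (μ + w))) q :=
      (j2.const_mul _).add (j1.const_mul _)
    have h3 : 0 ≤ ∫ w : Set.Icc (0 : ℝ) κ, ((1 - a) * ((w : ℝ) / (μ + w)) -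
        y * s.indicator (fun _ => (1 : ℝ)) w) ^ 2 ∂q := integral_nonneg fun w => sq_nonneg _
    rw [integral_congr_ae (Eventually.of_forall e1), integral_add k1 (jb.const_mul _),
      integral_add (j2.const_mul _) (j1.const_mul _), integral_const_mul, integral_const_mul,
      integral_const_mul, hb, ← hy, ← hG] at h3
    linarith
  have h3 : y ^ 2 ≤ (1 - a) * G := by
    have := nonneg_of_mul_nonneg_right h2 h1a
    linarith
  -- the lower bound of `y`
  have hy1 : m / (μ + κ) ≤ y := by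
    have e1 : m / (μ + κ) = ∫ w : Set.Icc (0 : ℝ) κ, (w : ℝ) / (μ + κ) ∂q := by
      rw [integral_div]
      rfl
    rw [e1]
    refine integral_mono (integrable_val.div_const _) j1 fun w => ?_
    beta_reduce
    have h5 := hpos w w.2
    have h6 := w.2.1
    have h7 := w.2.2
    gcongr
  have hμκ : 0 < μ + κ := by linarith
  have hy0 : 0 < y := lt_of_lt_of_le (div_pos hm hμκ) hy1
  have hG0 : 0 ≤ G := integral_nonneg fun w => sq_nonneg _
  have h4 : m * (a * G) ≤ μ * y := by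
    have h5 : m * (a * G) ≤ m * (G - y ^ 2) := by
      apply mul_le_mul_of_nonneg_left _ hm.le
      linarith
    have h6 : μ * (y - G) ≤ μ * y := by
      apply mul_le_mul_of_nonneg_left _ hμ.le
      linarith
    linarith
  have h5 : y ^ 2 ≤ G := by
    have : (1 - a) * G ≤ 1 * G := by
      apply mul_le_mul_of_nonneg_right _ hG0
      linarith
    linarith
  have h6 : m * a * y ≤ μ := by
    have e1 : m * (a * y ^ 2) ≤ m * (a * G) := by gcongr
    have e2 : y * (m * a * y) ≤ y * μ := by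
      have : y * (m * a * y) = m * (a * y ^ 2) := by ring
      rw [this]
      linarith
    exact le_of_mul_le_mul_left e2 hy0
  have h7 : m * a * (m / (μ + κ)) ≤ μ := by
    refine le_trans ?_ h6
    gcongr
  have h8 : m * a * (m / (μ + κ)) = a * m ^ 2 / (μ + κ) := by ring
  rw [h8, div_le_iff₀ hμκ] at h7
  exact h7

/-- the bound of `κ / μ` -/
theorem atom_B {B η : ℝ} (hB : 0 < B) (hη : 0 < η) (hκ : 0 < κ) (hμ : 0 < μ)
    (hm : η * κ ≤ mean q)
    (h : κ ≤ B * μ ∨ 1 ≤ B * q.real {w : Set.Icc (0 : ℝ) κ | (w : ℝ) = 0})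
    (hD : DD μ q ≤ 0) : κ ≤ (B + 1 + 2 * B / η ^ 2) * μ := by
  have h0 : 0 < 2 * B / η ^ 2 * μ := by positivity
  have h0' : 0 < B * μ := by positivity
  rcases h with h | h
  · linarith
  by_cases hk : κ ≤ μ
  · linarith
  rw [not_le] at hk
  have hm0 : 0 < mean q := lt_of_lt_of_le (by positivity) hm
  have h1 := atom_mu hκ hμ hm0 hD
  set a := q.real {w : Set.Icc (0 : ℝ) κ | (w : ℝ) = 0} with ha
  have ha0 : 0 ≤ a := measureReal_nonneg
  have h2 : a * (η * κ) ^ 2 ≤ μ * (2 * κ) := by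
    have e1 : (η * κ) ^ 2 ≤ mean q ^ 2 := by gcongr
    have e2 : a * (η * κ) ^ 2 ≤ a * mean q ^ 2 := by gcongr
    have e3 : μ * (μ + κ) ≤ μ * (2 * κ) := by
      apply mul_le_mul_of_nonneg_left _ hμ.le
      linarith
    linarith
  have h3 : a * η ^ 2 * κ ≤ 2 * μ := by
    have e1 : κ * (a * η ^ 2 * κ) ≤ κ * (2 * μ) := by
      have e2 : κ * (a * η ^ 2 * κ) = a * (η * κ) ^ 2 := by ring
      rw [e2]
      linarith
    exact le_of_mul_le_mul_left e1 hκ
  have h4 : η ^ 2 * κ ≤ 2 * B * μ := by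
    have e1 : 1 * (η ^ 2 * κ) ≤ B * a * (η ^ 2 * κ) := by gcongr
    have e2 := mul_le_mul_of_nonneg_left h3 hB.le
    linarith
  have h5 : κ ≤ 2 * B / η ^ 2 * μ := by
    rw [div_mul_eq_mul_div, le_div_iff₀ (by positivity)]
    linarith
  linarith

end Pool.Agent.NVB
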