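import Pool.Agent.NVB.Walk
import Mathlib.Probability.StrongLaw
import Mathlib.Probability.Independence.InfinitePi

/-!
# The clock of one edge
-/

set_option autoImplicit false

namespace Pool.Agent.NVB

open MeasureTheory ProbabilityTheory Filter Topology
open scoped Classical ENNReal

variable {lo κ : ℝ}

/-- put an element in front of a sequence -/
def cns {α : Type} (a : α) (c : ℕ → α) : ℕ → α := fun n => Nat.casesOn n a c

/-- the clock which is left after the time `s` -/
noncomputable def sft (c : Clock lo κ) (s : ℝ) : Clock lo κ := fun k =>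
  if k = 0 then (ringTime c (rings c s + 1) - s, (c (rings c s)).2) else c (rings c s + k)

/-- clocks with infinitely many rings and positive waiting times -/
def Gd (c : Clock lo κ) : Prop := (∀ j, 0 < (c j).1) ∧ ∀ t, ∃ n, t < ringTime c (n + 1)

theorem ringTime_cns (a : ℝ × Set.Icc lo κ) (c : Clock lo κ) (n : ℕ) :
    ringTime (cns a c) (n + 1) = a.1 + ringTime c n := by
  unfold ringTime
  rw [Finset.sum_range_succ', add_comm]
  rfl

theorem rings_cns_lt {a : ℝ × Set.Icc lo κ} {c : Clock lo κ} {s : ℝ} (h : s < a.1) :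
    rings (cns a c) s = 0 := by
  unfold rings
  rw [Nat.sInf_eq_zero]
  left
  change s < ringTime (cns a c) (0 + 1)
  rw [ringTime_cns]
  simpa [ringTime] using h

theorem sInf_add_nat {A : Set ℕ} (N : ℕ) (hA : A.Nonempty) (h : ∀ n ∈ A, N ≤ n) :
    sInf A = N + sInf {n | N + n ∈ A} := by
  have h1 : {n | N + n ∈ A}.Nonempty := by
    obtain ⟨n, hn⟩ := hA
    exact ⟨n - N, by
      change N + (n - N) ∈ A
      rwa [Nat.add_sub_cancel' (h n hn)]⟩
  apply le_antisymm
  · exact Nat.sInf_le (Nat.sInf_mem h1)
  · have h2 := Nat.sInf_mem hA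
    have h3 := h _ h2
    have h4 : sInf A - N ∈ {n | N + n ∈ A} := by
      change N + (sInf A - N) ∈ A
      rwa [Nat.add_sub_cancel' h3]
    have h5 := Nat.sInf_le h4
    omega

theorem rings_cns_ge {a : ℝ × Set.Icc lo κ} {c : Clock lo κ} {s : ℝ} (h : a.1 ≤ s)
    (hc : ∃ n, s - a.1 < ringTime c (n + 1)) :
    rings (cns a c) s = 1 + rings c (s - a.1) := by
  unfold rings
  obtain ⟨n, hn⟩ := hc
  rw [sInf_add_nat 1]
  · congr 2
    ext m
    change s < ringTime (cns a c) (1 + m + 1) ↔ s - a.1 < ringTime c (m + 1)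
    rw [ringTime_cns, add_comm 1 m]
    constructor <;> intro h <;> linarith
  · refine ⟨n + 1, ?_⟩
    change s < ringTime (cns a c) (n + 1 + 1)
    rw [ringTime_cns]
    linarith
  · intro m hm
    rcases Nat.eq_zero_or_pos m with h0 | h0
    · subst h0
      change s < ringTime (cns a c) (0 + 1) at hm
      rw [ringTime_cns] at hm
      simp [ringTime] at hm
      linarith
    · exact h0

theorem val_cns_lt {a : ℝ × Set.Icc lo κ} {c : Clock lo κ} {s : ℝ} (h : s < a.1)
    (v : Set.Icc lo κ) : val v (cns a c) s = v := by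
  unfold val
  rw [if_pos (rings_cns_lt h)]

theorem sft_cns_lt {a : ℝ × Set.Icc lo κ} {c : Clock lo κ} {s : ℝ} (h : s < a.1) :
    sft (cns a c) s = cns (a.1 - s, a.2) c := by
  funext k
  unfold sft
  rw [rings_cns_lt h, ringTime_cns]
  cases k with
  | zero => simp [ringTime, cns]
  | succ k => simp [cns]

theorem val_cns_ge {a : ℝ × Set.Icc lo κ} {c : Clock lo κ} {s : ℝ} (h : a.1 ≤ s)
    (hc : ∃ n, s - a.1 < ringTime c (n + 1)) (v : Set.Icc lo κ) :
    val v (cns a c) s = val a.2 c (s - a.1) := by
  unfold val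
  rw [rings_cns_ge h hc, if_neg (by omega)]
  generalize rings c (s - a.1) = N
  cases N with
  | zero => simp [cns]
  | succ N =>
    rw [if_neg (by omega)]
    have h1 : 1 + (N + 1) - 1 = N + 1 := by omega
    rw [h1]
    rfl

theorem sft_cns_ge {a : ℝ × Set.Icc lo κ} {c : Clock lo κ} {s : ℝ} (h : a.1 ≤ s)
    (hc : ∃ n, s - a.1 < ringTime c (n + 1)) :
    sft (cns a c) s = sft c (s - a.1) := by
  funext k
  unfold sft
  rw [rings_cns_ge h hc, ringTime_cns]
  generalize rings c (s - a.1) = N
  have h1 : 1 + N = N + 1 := by omega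
  rw [h1]
  cases k with
  | zero =>
    rw [if_pos rfl, if_pos rfl]
    refine Prod.ext ?_ rfl
    change a.1 + ringTime c (N + 1) - s = ringTime c (N + 1) - (s - a.1)
    ring
  | succ k =>
    rw [if_neg (by omega), if_neg (by omega)]
    have h2 : N + 1 + (k + 1) = (N + (k + 1)) + 1 := by omega
    rw [h2]
    rfl

theorem ringTime_sft (c : Clock lo κ) (s : ℝ) (n : ℕ) :
    ringTime (sft c s) (n + 1) = ringTime c (rings c s + n + 1) - s := by
  induction n with
  | zero => simp [ringTime, sft]
  | succ n ih =>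
    have h1 : ringTime (sft c s) (n + 1 + 1) = ringTime (sft c s) (n + 1) + (sft c s (n + 1)).1 :=
      Finset.sum_range_succ _ _
    have h2 : ringTime c (rings c s + (n + 1) + 1) =
        ringTime c (rings c s + n + 1) + (c (rings c s + (n + 1))).1 :=
      Finset.sum_range_succ _ _
    rw [h1, h2, ih]
    unfold sft
    rw [if_neg (by omega)]
    ring

theorem rings_add {c : Clock lo κ} (hc : ∀ t, ∃ n, t < ringTime c (n + 1)) (s : ℝ) {t : ℝ}
    (ht : 0 ≤ t) : rings c (s + t) = rings c s + rings (sft c s) t := by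
  have h0 : rings (sft c s) t = sInf {n | rings c s + n ∈ {n : ℕ | s + t < ringTime c (n + 1)}} := by
    unfold rings
    congr 1
    ext n
    change t < ringTime (sft c s) (n + 1) ↔ s + t < ringTime c (rings c s + n + 1)
    rw [ringTime_sft]
    constructor <;> intro h <;> linarith
  rw [h0]
  refine sInf_add_nat _ (hc (s + t)) fun n hn => ?_
  by_contra h
  have h1 := Nat.notMem_of_lt_sInf (not_le.1 h)
  apply h1
  have h2 : s + t < ringTime c (n + 1) := hn
  change s < ringTime c (n + 1)
  linarith

/-- the flow property -/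
theorem val_add {c : Clock lo κ} (hc : ∀ t, ∃ n, t < ringTime c (n + 1)) (s : ℝ) {t : ℝ}
    (ht : 0 ≤ t) (v : Set.Icc lo κ) : val v c (s + t) = val (val v c s) (sft c s) t := by
  unfold val
  rw [rings_add hc s ht]
  have hs : ∀ M, (sft c s M).2 = (c (rings c s + M)).2 := by
    intro M
    unfold sft
    cases M with
    | zero => simp
    | succ M => rw [if_neg (by omega)]
  rw [hs]
  generalize rings (sft c s) t = M
  generalize rings c s = N
  cases M with
  | zero => simp
  | succ M =>
    rw [if_neg (by omega), if_neg (by omega)]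
    congr 2

theorem sft_good {c : Clock lo κ} (hc : ∀ t, ∃ n, t < ringTime c (n + 1)) (s : ℝ) :
    ∀ t, ∃ n, t < ringTime (sft c s) (n + 1) := by
  intro t
  by_contra h
  push Not at h
  obtain ⟨n, hn⟩ := hc (s + t)
  have h1 := h (n - rings c s)
  rw [ringTime_sft] at h1
  by_cases h2 : rings c s ≤ n
  · have h3 : rings c s + (n - rings c s) = n := by omega
    rw [h3] at h1
    linarith
  · have h4 := Nat.notMem_of_lt_sInf (not_le.1 h2)
    have h5 : ringTime c (n + 1) ≤ s := not_lt.1 h4
    have h6 : n - rings c s = 0 := by omega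
    rw [h6, add_zero] at h1
    have h7 : s < ringTime c (rings c s + 1) := Nat.sInf_mem (hc s)
    linarith

end Pool.Agent.NVB
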