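import Pool.Agent.NVB.Mean

/-!
# Comparison of the expected displacements for two biases
-/

set_option autoImplicit false

namespace Pool.Agent.NVB

open MeasureTheory ProbabilityTheory Filter Topology
open scoped Classical ENNReal

variable {d : ℕ} {lo κ : ℝ} {μ : ℝ} {q : Measure (Set.Icc lo κ)} [IsProbabilityMeasure q]

theorem K_eq (l : ℝ) (f : Env d lo κ → ℝ) (η : Env d lo κ) :
    K l f η = f η + ∑ y : Dir d, p l y * (acc y η * (((vec y 0 : ℤ) : ℝ) +
      (f (sh (vec y) η) - f η))) := by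
  have h : f η = ∑ y : Dir d, p l y * f η := by rw [← Finset.sum_mul, sum_p, one_mul]
  rw [show f η + ∑ y : Dir d, p l y * (acc y η * (((vec y 0 : ℤ) : ℝ) +
      (f (sh (vec y) η) - f η))) = (∑ y : Dir d, p l y * f η) + ∑ y : Dir d, p l y *
      (acc y η * (((vec y 0 : ℤ) : ℝ) + (f (sh (vec y) η) - f η))) by rw [← h],
    ← Finset.sum_add_distrib]
  unfold K
  exact Finset.sum_congr rfl fun y _ => by ring

theorem K_sub (l : ℝ) (f g : Env d lo κ → ℝ) (η : Env d lo κ) :
    K l f η - K l g η = Kh l (fun η => f η - g η) η := by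
  unfold K Kh
  rw [← Finset.sum_sub_distrib]
  exact Finset.sum_congr rfl fun y _ => by ring

/-- the effect of a change of the bias in one attempt -/
theorem K_diff (hlo : 0 ≤ lo) (hκ : 0 < κ) {l l' : ℝ} (hl : 0 ≤ l) (hll : l ≤ l')
    {f : Env d lo κ → ℝ} (hf : ∀ η η', |f η' - f η| ≤ 1 / 3) (η : Env d lo κ) :
    2 / 3 * (p l' (plus d) - p l (plus d)) * acc (plus d) η -
      1 / 3 * ∑ y ∈ Finset.univ.erase (plus d), (p l y - p l' y) * acc y η ≤
      K l' f η - K l f η := by
  have h0 : ∀ y : Dir d, 0 ≤ acc y η := fun y =>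
    (div_nonneg hlo hκ.le).trans (le_acc hκ y η)
  have h1 : K l' f η - K l f η = ∑ y : Dir d, (p l' y - p l y) * (acc y η *
      (((vec y 0 : ℤ) : ℝ) + (f (sh (vec y) η) - f η))) := by
    rw [K_eq, K_eq, add_sub_add_left_eq_sub, ← Finset.sum_sub_distrib]
    exact Finset.sum_congr rfl fun y _ => by ring
  rw [h1, ← Finset.add_sum_erase Finset.univ _ (Finset.mem_univ (plus d))]
  have h2 : 2 / 3 * (p l' (plus d) - p l (plus d)) * acc (plus d) η ≤
      (p l' (plus d) - p l (plus d)) * (acc (plus d) η *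
      (((vec (plus d) 0 : ℤ) : ℝ) + (f (sh (vec (plus d)) η) - f η))) := by
    have g1 : 0 ≤ p l' (plus d) - p l (plus d) := by
      rw [p_plus_eq]
      exact Finset.sum_nonneg fun y hy => by
        have := p_anti hl hll (Finset.ne_of_mem_erase hy)
        linarith
    have g2 : 2 / 3 ≤ ((vec (plus d) 0 : ℤ) : ℝ) + (f (sh (vec (plus d)) η) - f η) := by
      have g3 := (abs_le.1 (hf η (sh (vec (plus d)) η))).1
      rw [vec_plus]
      push_cast
      linarith
    calc 2 / 3 * (p l' (plus d) - p l (plus d)) * acc (plus d) η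
        = (p l' (plus d) - p l (plus d)) * (acc (plus d) η * (2 / 3)) := by ring
      _ ≤ _ := mul_le_mul_of_nonneg_left (mul_le_mul_of_nonneg_left g2 (h0 _)) g1
  have h3 : -(1 / 3 * ∑ y ∈ Finset.univ.erase (plus d), (p l y - p l' y) * acc y η) ≤
      ∑ y ∈ Finset.univ.erase (plus d), (p l' y - p l y) * (acc y η *
      (((vec y 0 : ℤ) : ℝ) + (f (sh (vec y) η) - f η))) := by
    rw [Finset.mul_sum, ← Finset.sum_neg_distrib]
    refine Finset.sum_le_sum fun y hy => ?_
    have hy' := Finset.ne_of_mem_erase hy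
    have g1 : 0 ≤ p l y - p l' y := by
      have := p_anti hl hll hy'
      linarith
    have g2 : ((vec y 0 : ℤ) : ℝ) + (f (sh (vec y) η) - f η) ≤ 1 / 3 := by
      have g3 := (abs_le.1 (hf η (sh (vec y) η))).2
      have g4 : ((vec y 0 : ℤ) : ℝ) ≤ 0 := by exact_mod_cast vec_nonpos hy'
      linarith
    have g5 : (p l y - p l' y) * (acc y η * (((vec y 0 : ℤ) : ℝ) +
        (f (sh (vec y) η) - f η))) ≤ (p l y - p l' y) * (acc y η * (1 / 3)) :=
      mul_le_mul_of_nonneg_left (mul_le_mul_of_nonneg_left g2 (h0 _)) g1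
    have g6 : (p l' y - p l y) * (acc y η * (((vec y 0 : ℤ) : ℝ) + (f (sh (vec y) η) - f η))) =
        -((p l y - p l' y) * (acc y η * (((vec y 0 : ℤ) : ℝ) + (f (sh (vec y) η) - f η)))) := by
      ring
    rw [g6]
    have g7 : 1 / 3 * ((p l y - p l' y) * acc y η) = (p l y - p l' y) * (acc y η * (1 / 3)) := by
      ring
    rw [g7]
    linarith
  linarith

/-- the gain per attempt -/
noncomputable def gain (d : ℕ) (lo κ μ : ℝ) (q : Measure (Set.Icc lo κ)) (l l' : ℝ) : ℝ :=
  (p l' (plus d) - p l (plus d)) * ((2 * (lo / κ + (1 - κ / (κ + μ)) * mt q) -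
    (lo / κ + 5 / 4 * mt q)) / 3)

theorem Bf_diff (hlo : 0 ≤ lo) (hκ : 0 < κ) (hlκ : lo ≤ κ) (hμ : 0 < μ) (h : 5 * (κ - lo) ≤ μ)
    {l l' : ℝ} (hl : 0 ≤ l) (hll : l ≤ l') (k : ℕ) {f : Env d lo κ → ℝ} (hg : Good f)
    (hf : ∀ η η', |f η' - f η| ≤ 1 / 3) :
    gain d lo κ μ q l l' ≤ Bf μ q l k (G μ q fun η => K l' f η - K l f η) := by
  have g0 : Good (fun η : Env d lo κ => 2 / 3 * (p l' (plus d) - p l (plus d)) * acc (plus d) η) :=
    (Good.acc _).const_mul _
  have g1 : Good (fun η : Env d lo κ => ∑ y ∈ Finset.univ.erase (plus d),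
      (p l y - p l' y) * acc y η) := Good.sum _ fun y _ => (Good.acc y).const_mul _
  have g2 : Good (fun η : Env d lo κ => (-(1 / 3)) * ∑ y ∈ Finset.univ.erase (plus d),
      (p l y - p l' y) * acc y η) := g1.const_mul _
  have g3 : Good (fun η : Env d lo κ => K l' f η - K l f η) := (hg.K l').sub (hg.K l)
  have h1 : Bf μ q l k (G μ q fun η : Env d lo κ =>
      2 / 3 * (p l' (plus d) - p l (plus d)) * acc (plus d) η +
        (-(1 / 3)) * ∑ y ∈ Finset.univ.erase (plus d), (p l y - p l' y) * acc y η) ≤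
      Bf μ q l k (G μ q fun η => K l' f η - K l f η) := by
    refine Bf_mono hlo hκ hμ l k ((g0.add g2).G hκ hμ) (g3.G hκ hμ)
      (G_mono hκ hμ (g0.add g2) g3 fun η => ?_)
    have := K_diff hlo hκ hl hll hf η
    linarith
  refine le_trans ?_ h1
  rw [G_add hκ hμ g0 g2, Bf_add hκ hμ l k (g0.G hκ hμ) (g2.G hκ hμ), G_const_mul, Bf_const_mul,
    G_const_mul, Bf_const_mul, G_sum hκ hμ _ fun y _ => (Good.acc y).const_mul _,
    Bf_sum hκ hμ l k _ fun y _ => ((Good.acc y).const_mul _).G hκ hμ]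
  have h2 : ∀ y ∈ Finset.univ.erase (plus d),
      Bf μ q l k (G μ q fun η : Env d lo κ => (p l y - p l' y) * acc y η) ≤
        (p l y - p l' y) * (lo / κ + 5 / 4 * mt q) := by
    intro y hy
    rw [G_const_mul, Bf_const_mul]
    refine mul_le_mul_of_nonneg_left (Bf_acc_le hlo hκ hlκ hμ h l k y) ?_
    have := p_anti hl hll (Finset.ne_of_mem_erase hy)
    linarith
  have h3 := Finset.sum_le_sum h2
  rw [← Finset.sum_mul, ← p_plus_eq] at h3
  have h4 := le_Bf_acc (q := q) (d := d) hlo hκ hμ l k (plus d)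
  have h5 : 0 ≤ p l' (plus d) - p l (plus d) := by
    rw [p_plus_eq]
    exact Finset.sum_nonneg fun y hy => by
      have := p_anti hl hll (Finset.ne_of_mem_erase hy)
      linarith
  have h6 := mul_le_mul_of_nonneg_left h4 h5
  unfold gain
  nlinarith

/-- the difference of the expected displacements -/
theorem Bf_Φ (hlo : 0 ≤ lo) (hκ : 0 < κ) (hlκ : lo ≤ κ) (hμ : 0 < μ) (h : 5 * (κ - lo) ≤ μ)
    {l l' : ℝ} (hl : 0 ≤ l) (hll : l ≤ l') (n k : ℕ) :
    n * gain d lo κ μ q l l' ≤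
      Bf μ q l k (fun η : Env d lo κ => Φ μ q l' n η - Φ μ q l n η) := by
  induction n generalizing k with
  | zero =>
    have : (fun η : Env d lo κ => Φ μ q l' 0 η - Φ μ q l 0 η) = fun _ => 0 := by
      funext η
      unfold Φ
      ring
    rw [this, Bf_const hκ hμ]
    simp
  | succ n ih =>
    have g := Good.Φ (d := d) (q := q) hκ hμ l n
    have g' := Good.Φ (d := d) (q := q) hκ hμ l' n
    have h1 : (fun η : Env d lo κ => Φ μ q l' (n + 1) η - Φ μ q l (n + 1) η) =
        fun η => G μ q (fun η => K l' (Φ μ q l' n) η - K l (Φ μ q l' n) η) η +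
          G μ q (Kh l fun η => Φ μ q l' n η - Φ μ q l n η) η := by
      have h2 : (Kh l fun η : Env d lo κ => Φ μ q l' n η - Φ μ q l n η) =
          fun η => K l (Φ μ q l' n) η - K l (Φ μ q l n) η := by
        funext η
        rw [K_sub]
      rw [h2, G_sub hκ hμ (g'.K l') (g'.K l), G_sub hκ hμ (g'.K l) (g.K l)]
      funext η
      change G μ q (K l' (Φ μ q l' n)) η - G μ q (K l (Φ μ q l n)) η = _
      ring
    rw [h1, Bf_add hκ hμ l k (((g'.K l').sub (g'.K l)).G hκ hμ) (((g'.sub g).Kh l).G hκ hμ)]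
    have h3 := Bf_diff (q := q) (d := d) hlo hκ hlκ hμ h hl hll k g'
      fun η η' => osc_Φ hlo hκ hlκ hμ h l' n η η'
    have h4 := ih (k + 1)
    change _ ≤ Bf μ q l k (G μ q (Kh l fun η => Φ μ q l' n η - Φ μ q l n η)) at h4
    push_cast
    linarith

/-- the gain is positive -/
theorem gain_pos (hlo : 0 ≤ lo) (hκ : 0 < κ) (hlκ : lo ≤ κ) (hμ : 0 < μ) (h : 5 * (κ - lo) ≤ μ)
    {l l' : ℝ} (hl : 0 ≤ l) (hll : l < l') (hm : 0 < mean q) : 0 < gain d lo κ μ q l l' := by
  unfold gain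
  refine mul_pos (by linarith [p_plus_lt (d := d) hl hll]) (div_pos ?_ (by norm_num))
  have hm0 := mt_nonneg (q := q) hκ
  have hm1 := mt_le (q := q) hκ
  have hr0 : 0 < κ / (κ + μ) := by positivity
  have hr : κ / (κ + μ) * (1 + 5 * ((κ - lo) / κ)) ≤ 1 := by
    have h1 : κ / (κ + μ) * (1 + 5 * ((κ - lo) / κ)) = (κ + 5 * (κ - lo)) / (κ + μ) := by
      field_simp
    rw [h1, div_le_one (by positivity)]
    linarith
  have hx : lo / κ = 1 - (κ - lo) / κ := by
    field_simp
    ring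
  have hx0 : 0 ≤ (κ - lo) / κ := div_nonneg (by linarith) hκ.le
  have hx1 : (κ - lo) / κ ≤ 1 := by
    rw [div_le_one hκ]
    linarith
  have hpos : 0 < lo / κ ∨ 0 < mt q := by
    rcases hlo.eq_or_lt with h0 | h0
    · right
      unfold mt
      exact div_pos (by linarith) hκ
    · left
      exact div_pos h0 hκ
  rw [hx] at hpos ⊢
  set x := (κ - lo) / κ
  set r := κ / (κ + μ)
  set t := mt q
  have key : 0 < (1 - x) + (3 / 4 - 2 * r) * t := by
    rcases le_or_gt 0 (3 / 4 - 2 * r) with h1 | h1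
    · rcases hx1.lt_or_eq with h2 | h2
      · have := mul_nonneg h1 hm0
        linarith
      · rw [h2] at hpos hr
        have h3 : 0 < t := by
          rcases hpos with h3 | h3
          · linarith
          · exact h3
        have h4 : 0 < 3 / 4 - 2 * r := by linarith
        have := mul_pos h4 h3
        rw [h2]
        linarith
    · have h2 : (3 / 4 - 2 * r) * x ≤ (3 / 4 - 2 * r) * t :=
        mul_le_mul_of_nonpos_left hm1 h1.le
      nlinarith
  linarith

end Pool.Agent.NVB
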