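import Pool.Agent.NVB.Contr

/-!
# A bound of the oscillation of the expected displacements for all parameters
-/

set_option autoImplicit false

namespace Pool.Agent.NVB

open MeasureTheory ProbabilityTheory Filter Topology
open scoped Classical ENNReal

variable {d : ℕ} {lo κ : ℝ} {μ : ℝ} {q : Measure (Set.Icc lo κ)} [IsProbabilityMeasure q]

/-- the norm of a vertex -/
def nrm (x : Site d) : ℕ := ∑ i, (x i).natAbs

/-- a lower bound of the number of jumps to an edge -/
def dst (e : Edge d) : ℕ := nrm e.1 - 1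

theorem nrm_add_le (x y : Site d) : nrm (x + y) ≤ nrm x + nrm y := by
  unfold nrm
  rw [← Finset.sum_add_distrib]
  exact Finset.sum_le_sum fun i _ => Int.natAbs_add_le (x i) (y i)

theorem nrm_vec (y : Dir d) : nrm (vec y) = 1 := by
  unfold nrm
  rw [Finset.sum_eq_single y.1]
  · unfold vec
    rw [Pi.single_eq_same]
    split_ifs <;> rfl
  · intro i _ hi
    unfold vec
    rw [Pi.single_eq_of_ne hi]
    rfl
  · intro h
    exact absurd (Finset.mem_univ _) h

theorem dst_sub (e : Edge d) (y : Dir d) : dst e - 1 ≤ dst (e.1 - vec y, e.2) := by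
  have h1 := nrm_add_le (e.1 - vec y) (vec y)
  rw [sub_add_cancel, nrm_vec] at h1
  unfold dst
  change nrm e.1 - 1 - 1 ≤ nrm (e.1 - vec y) - 1
  omega

theorem dst_edge (y : Dir d) : dst (edge 0 y) = 0 := by
  unfold dst edge
  split_ifs
  · have : nrm (0 : Site d) = 0 := by
      unfold nrm
      simp
    simp [this]
  · change nrm ((0 : Site d) + vec y) - 1 = 0
    rw [zero_add, nrm_vec]

/-! ### the sum over the edges -/

theorem sum_int {r : ℝ} (hr0 : 0 ≤ r) (hr1 : r < 1) :
    ∃ C : ℝ, ∀ F : Finset ℤ, ∑ k ∈ F, r ^ k.natAbs ≤ C := by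
  have h1 : Summable fun n : ℕ => r ^ n := summable_geometric_of_lt_one hr0 hr1
  have h2 : Summable fun k : ℤ => r ^ k.natAbs := by
    refine Summable.of_nat_of_neg ?_ ?_
    · simpa using h1
    · simpa using h1
  exact ⟨∑' k : ℤ, r ^ k.natAbs, fun F => h2.sum_le_tsum F fun k _ => by positivity⟩

theorem sum_site {r : ℝ} (hr0 : 0 ≤ r) (hr1 : r < 1) :
    ∃ C : ℝ, ∀ F : Finset (Site d), ∑ x ∈ F, r ^ nrm x ≤ C := by
  obtain ⟨C, hC⟩ := sum_int hr0 hr1
  refine ⟨∏ _i : Fin (d + 1), C, fun F => ?_⟩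
  have h1 : F ⊆ Fintype.piFinset fun i : Fin (d + 1) => F.image fun x => x i := by
    intro x hx
    rw [Fintype.mem_piFinset]
    intro i
    exact Finset.mem_image_of_mem _ hx
  calc ∑ x ∈ F, r ^ nrm x ≤ ∑ x ∈ Fintype.piFinset fun i : Fin (d + 1) => F.image fun x => x i,
        r ^ nrm x := Finset.sum_le_sum_of_subset_of_nonneg h1 fun x _ _ => by positivity
    _ = ∑ x ∈ Fintype.piFinset fun i : Fin (d + 1) => F.image fun x => x i,
        ∏ i, r ^ (x i).natAbs := by
        refine Finset.sum_congr rfl fun x _ => ?_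
        unfold nrm
        rw [Finset.prod_pow_eq_pow_sum]
    _ = ∏ i : Fin (d + 1), ∑ k ∈ F.image fun x => x i, r ^ k.natAbs := by
        rw [Finset.prod_univ_sum]
    _ ≤ ∏ _i : Fin (d + 1), C :=
        Finset.prod_le_prod (fun i _ => Finset.sum_nonneg fun k _ => by positivity)
          fun i _ => hC _

theorem sum_edge {r : ℝ} (hr0 : 0 < r) (hr1 : r < 1) :
    ∃ C : ℝ, 0 ≤ C ∧ ∀ F : Finset (Edge d), ∑ e ∈ F, r ^ dst e ≤ C := by
  obtain ⟨C, hC⟩ := sum_site (d := d) hr0.le hr1
  have hC0 : 0 ≤ C := by simpa using hC ∅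
  refine ⟨(d + 1) * (C / r), by positivity, fun F => ?_⟩
  have h0 : ∀ e : Edge d, r ^ dst e ≤ r ^ nrm e.1 / r := by
    intro e
    rw [le_div_iff₀ hr0, ← pow_succ]
    apply pow_le_pow_of_le_one hr0.le hr1.le
    unfold dst
    omega
  calc ∑ e ∈ F, r ^ dst e ≤ ∑ e ∈ (F.image Prod.fst) ×ˢ (Finset.univ : Finset (Fin (d + 1))),
        r ^ dst e := by
        refine Finset.sum_le_sum_of_subset_of_nonneg (fun e he => ?_) fun e _ _ => by positivity
        rw [Finset.mem_product]
        exact ⟨Finset.mem_image_of_mem _ he, Finset.mem_univ _⟩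
    _ ≤ ∑ e ∈ (F.image Prod.fst) ×ˢ (Finset.univ : Finset (Fin (d + 1))), r ^ nrm e.1 / r :=
        Finset.sum_le_sum fun e _ => h0 e
    _ = ∑ x ∈ F.image Prod.fst, ((d : ℝ) + 1) * (r ^ nrm x / r) := by
        rw [Finset.sum_product]
        refine Finset.sum_congr rfl fun x _ => ?_
        simp
    _ = (d + 1) * ((∑ x ∈ F.image Prod.fst, r ^ nrm x) / r) := by
        rw [← Finset.mul_sum, Finset.sum_div]
    _ ≤ (d + 1) * (C / r) := by
        gcongr
        exact hC _

/-! ### influences -/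

/-- `β e` bounds the influence of the edge `e` -/
def Lip (f : Env d lo κ → ℝ) (β : Edge d → ℝ) : Prop :=
  ∀ (η : Env d lo κ) (e : Edge d) (b : Set.Icc lo κ), |f (Function.update η e b) - f η| ≤ β e

theorem Lip.telescope {f : Env d lo κ → ℝ} {β : Edge d → ℝ} (h : Lip f β) (F : Finset (Edge d)) :
    ∀ η η' : Env d lo κ, (∀ e ∉ F, η e = η' e) → |f η' - f η| ≤ ∑ e ∈ F, β e := by
  induction F using Finset.induction_on with
  | empty =>
    intro η η' h
    have : η = η' := funext fun e => h e (Finset.notMem_empty e)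
    rw [this]
    simp
  | insert e F he ih =>
    intro η η' h'
    rw [Finset.sum_insert he]
    have h1 := h η e (η' e)
    have h2 := ih (Function.update η e (η' e)) η' (by
      intro e' he'
      by_cases hee : e' = e
      · subst hee
        simp
      · rw [Function.update_of_ne hee]
        exact h' e' (by
          rw [Finset.mem_insert]
          tauto))
    have h3 := abs_sub_le (f η') (f (Function.update η e (η' e))) (f η)
    linarith

theorem Lip.gap (hκ : 0 < κ) (hμ : 0 < μ) {f : Env d lo κ → ℝ} (hf : Good f) {β : Edge d → ℝ}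
    (h : Lip f β) : Lip (G μ q f) fun e => κ / (κ + μ) * β e := by
  intro η e b
  have hp := gap_prob (d := d) (q := q) hκ hμ
  have h1 : G μ q f (Function.update η e b) - G μ q f η =
      ∫ z, (f (ref z (Function.update η e b)) - f (ref z η)) ∂gapLaw d μ q :=
    (integral_sub (hf.integrable_ref hκ hμ _) (hf.integrable_ref hκ hμ _)).symm
  have hms : MeasurableSet {z : Gap d lo κ | z.1 < (z.2 e).1} :=
    measurableSet_lt measurable_fst
      (measurable_fst.comp ((measurable_pi_apply e).comp measurable_snd))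
  have h2 : ∀ z : Gap d lo κ, |f (ref z (Function.update η e b)) - f (ref z η)| ≤
      {z : Gap d lo κ | z.1 < (z.2 e).1}.indicator (fun _ => β e) z := by
    intro z
    rw [ref_update]
    by_cases hz : z.1 < (z.2 e).1
    · rw [if_pos hz, Set.indicator_of_mem (by exact hz)]
      exact h _ e b
    · rw [if_neg hz, Set.indicator_of_notMem (by exact hz)]
      simp
  have h3 : gapLaw d μ q {z : Gap d lo κ | z.1 < (z.2 e).1} = ENNReal.ofReal (κ / (κ + μ)) :=
    gap_keep hκ hμ e
  calc |G μ q f (Function.update η e b) - G μ q f η|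
      ≤ ∫ z, |f (ref z (Function.update η e b)) - f (ref z η)| ∂gapLaw d μ q := by
        rw [h1]
        exact abs_integral_le_integral_abs
    _ ≤ ∫ z, {z : Gap d lo κ | z.1 < (z.2 e).1}.indicator (fun _ => β e) z ∂gapLaw d μ q :=
        integral_mono ((hf.integrable_ref hκ hμ _).sub (hf.integrable_ref hκ hμ _)).abs
          ((integrable_const _).indicator hms) h2
    _ = κ / (κ + μ) * β e := by
        rw [integral_indicator hms, setIntegral_const, measureReal_def, h3,
          ENNReal.toReal_ofReal (by positivity), smul_eq_mul]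

theorem acc_nonneg (hlo : 0 ≤ lo) (hκ : 0 < κ) (y : Dir d) (η : Env d lo κ) : 0 ≤ acc y η :=
  (div_nonneg hlo hκ.le).trans (le_acc hκ y η)

theorem Lip.att (hlo : 0 ≤ lo) (hκ : 0 < κ) (l : ℝ) {f : Env d lo κ → ℝ} {B r o : ℝ} (hB : 0 ≤ B)
    (hr0 : 0 ≤ r) (hr1 : r ≤ 1) (ho : ∀ η η', |f η' - f η| ≤ o)
    (h : Lip f fun e => B * r ^ dst e) :
    Lip (K l f) fun e => B * r ^ (dst e - 1) + if dst e = 0 then 1 + o else 0 := by
  intro η e b
  have ho0 : 0 ≤ o := (abs_nonneg _).trans (ho η η)
  set η' := Function.update η e b with hη'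
  have key : ∀ y : Dir d, |(acc y η' * (((vec y 0 : ℤ) : ℝ) + f (sh (vec y) η')) +
      (1 - acc y η') * f η') - (acc y η * (((vec y 0 : ℤ) : ℝ) + f (sh (vec y) η)) +
      (1 - acc y η) * f η)| ≤ B * r ^ (dst e - 1) + if dst e = 0 then 1 + o else 0 := by
    intro y
    have e1 : sh (vec y) η' = Function.update (sh (vec y) η) (e.1 - vec y, e.2) b := by
      rw [hη', sh_update]
    rw [e1]
    set A := acc y η with hA
    set A' := acc y η' with hA'
    set F1 := f (Function.update (sh (vec y) η) (e.1 - vec y, e.2) b) with hF1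
    set F2 := f (sh (vec y) η) with hF2
    set F3 := f η' with hF3
    set F4 := f η with hF4
    set V : ℝ := ((vec y 0 : ℤ) : ℝ) with hV
    have h1 : A' * (V + F1) + (1 - A') * F3 - (A * (V + F2) + (1 - A) * F4) =
        A * (F1 - F2) + (1 - A) * (F3 - F4) + (A' - A) * (V + (F1 - F3)) := by ring
    rw [h1]
    have hA0 : 0 ≤ A := acc_nonneg hlo hκ y η
    have hA1 : A ≤ 1 := acc_le hκ y η
    have b1 : |F1 - F2| ≤ B * r ^ (dst e - 1) := by
      refine (h _ _ b).trans (mul_le_mul_of_nonneg_left ?_ hB)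
      exact pow_le_pow_of_le_one hr0 hr1 (dst_sub e y)
    have b2 : |F3 - F4| ≤ B * r ^ (dst e - 1) := by
      refine (h _ _ b).trans (mul_le_mul_of_nonneg_left ?_ hB)
      exact pow_le_pow_of_le_one hr0 hr1 (Nat.sub_le _ _)
    have b3 : |(A' - A) * (V + (F1 - F3))| ≤ if dst e = 0 then 1 + o else 0 := by
      by_cases hy : edge 0 y = e
      · rw [if_pos (by rw [← hy, dst_edge]), abs_mul]
        have c1 : |A' - A| ≤ 1 := by
          have c2 : 0 ≤ A' := acc_nonneg hlo hκ y η'
          have c3 : A' ≤ 1 := acc_le hκ y η'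
          rw [abs_le]
          constructor <;> linarith
        have c2 : |V + (F1 - F3)| ≤ 1 + o := by
          refine (abs_add_le _ _).trans (add_le_add ?_ (ho _ _))
          rw [hV]
          exact_mod_cast vec_abs_le y
        calc |A' - A| * |V + (F1 - F3)| ≤ 1 * (1 + o) :=
              mul_le_mul c1 c2 (abs_nonneg _) zero_le_one
          _ = 1 + o := one_mul _
      · have c1 : A' = A := by
          rw [hA', hA, hη']
          unfold acc
          rw [Function.update_of_ne hy]
        rw [c1, sub_self, zero_mul, abs_zero]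
        split_ifs <;> linarith
    refine (abs_add_le _ _).trans (add_le_add ?_ b3)
    refine (abs_add_le _ _).trans ?_
    rw [abs_mul, abs_mul, abs_of_nonneg hA0, abs_of_nonneg (by linarith : 0 ≤ 1 - A)]
    have c1 := mul_le_mul_of_nonneg_left b1 hA0
    have c2 := mul_le_mul_of_nonneg_left b2 (by linarith : 0 ≤ 1 - A)
    linarith
  unfold K
  rw [← Finset.sum_sub_distrib]
  refine (Finset.abs_sum_le_sum_abs _ _).trans ?_
  calc ∑ y : Dir d, |p l y * (acc y η' * (((vec y 0 : ℤ) : ℝ) + f (sh (vec y) η')) +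
      (1 - acc y η') * f η') - p l y * (acc y η * (((vec y 0 : ℤ) : ℝ) + f (sh (vec y) η)) +
      (1 - acc y η) * f η)|
      ≤ ∑ y : Dir d, p l y * (B * r ^ (dst e - 1) + if dst e = 0 then 1 + o else 0) := by
        refine Finset.sum_le_sum fun y _ => ?_
        rw [← mul_sub, abs_mul, abs_of_nonneg (p_nonneg l y)]
        exact mul_le_mul_of_nonneg_left (key y) (p_nonneg l y)
    _ = _ := by rw [← Finset.sum_mul, sum_p, one_mul]

theorem K_osc (hlo : 0 ≤ lo) (hκ : 0 < κ) (l : ℝ) {f : Env d lo κ → ℝ} {o : ℝ}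
    (ho : ∀ η η', |f η' - f η| ≤ o) (η η' : Env d lo κ) : |K l f η' - K l f η| ≤ 2 + o := by
  have h6 : ∀ ζ : Env d lo κ, (∀ m M : ℝ, (∀ ξ, m ≤ f ξ) → (∀ ξ, f ξ ≤ M) →
      m - 1 ≤ K l f ζ ∧ K l f ζ ≤ M + 1) := by
    intro ζ m M hm hM
    have hV : ∀ y : Dir d, |((vec y 0 : ℤ) : ℝ)| ≤ 1 := fun y => by exact_mod_cast vec_abs_le y
    constructor
    · calc m - 1 = ∑ y : Dir d, p l y * (m - 1) := by rw [← Finset.sum_mul, sum_p, one_mul]
        _ ≤ K l f ζ := by
          unfold K
          refine Finset.sum_le_sum fun y _ => mul_le_mul_of_nonneg_left ?_ (p_nonneg l y)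
          have hA0 : 0 ≤ acc y ζ := acc_nonneg hlo hκ y ζ
          have hA1 : acc y ζ ≤ 1 := acc_le hκ y ζ
          have c0 := (abs_le.1 (hV y)).1
          have c1 := mul_le_mul_of_nonneg_left
            (show m - 1 ≤ ((vec y 0 : ℤ) : ℝ) + f (sh (vec y) ζ) by linarith [hm (sh (vec y) ζ)]) hA0
          have c2 := mul_le_mul_of_nonneg_left
            (show m - 1 ≤ f ζ by linarith [hm ζ]) (by linarith : 0 ≤ 1 - acc y ζ)
          linarith
    · calc K l f ζ
        _ ≤ ∑ y : Dir d, p l y * (M + 1) := by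
          unfold K
          refine Finset.sum_le_sum fun y _ => mul_le_mul_of_nonneg_left ?_ (p_nonneg l y)
          have hA0 : 0 ≤ acc y ζ := acc_nonneg hlo hκ y ζ
          have hA1 : acc y ζ ≤ 1 := acc_le hκ y ζ
          have c0 := (abs_le.1 (hV y)).2
          have c1 := mul_le_mul_of_nonneg_left
            (show ((vec y 0 : ℤ) : ℝ) + f (sh (vec y) ζ) ≤ M + 1 by linarith [hM (sh (vec y) ζ)]) hA0
          have c2 := mul_le_mul_of_nonneg_left
            (show f ζ ≤ M + 1 by linarith [hM ζ]) (by linarith : 0 ≤ 1 - acc y ζ)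
          linarith
        _ = M + 1 := by rw [← Finset.sum_mul, sum_p, one_mul]
  -- infimum and supremum of `f`
  have hbb : BddBelow (Set.range f) := ⟨f η - o, by
    rintro _ ⟨ξ, rfl⟩
    have := (abs_le.1 (ho η ξ)).1
    linarith⟩
  have hba : BddAbove (Set.range f) := ⟨f η + o, by
    rintro _ ⟨ξ, rfl⟩
    have := (abs_le.1 (ho η ξ)).2
    linarith⟩
  have hm : ∀ ξ, sInf (Set.range f) ≤ f ξ := fun ξ => csInf_le hbb ⟨ξ, rfl⟩
  have hM : ∀ ξ, f ξ ≤ sSup (Set.range f) := fun ξ => le_csSup hba ⟨ξ, rfl⟩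
  have hMm : sSup (Set.range f) - sInf (Set.range f) ≤ o := by
    have h7 : sSup (Set.range f) ≤ sInf (Set.range f) + o := by
      refine csSup_le ⟨f η, ⟨η, rfl⟩⟩ ?_
      rintro _ ⟨ξ, rfl⟩
      have h8 : f ξ - o ≤ sInf (Set.range f) := by
        refine le_csInf ⟨f η, ⟨η, rfl⟩⟩ ?_
        rintro _ ⟨ξ', rfl⟩
        have := (abs_le.1 (ho ξ' ξ)).2
        linarith
      linarith
    linarith
  obtain ⟨a1, a2⟩ := h6 η _ _ hm hM
  obtain ⟨a3, a4⟩ := h6 η' _ _ hm hM
  rw [abs_le]
  constructor <;> linarith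

/-- the oscillation after a gap which may be long -/
theorem G_osc (hκ : 0 < κ) (hμ : 0 < μ) {f : Env d lo κ → ℝ} (hf : Good f) {β : Edge d → ℝ}
    (hβ : ∀ e, 0 ≤ β e) (h : Lip f β) {o C s0 : ℝ} (hs0 : 0 ≤ s0)
    (ho : ∀ η η', |f η' - f η| ≤ o) (hC : ∀ F : Finset (Edge d), ∑ e ∈ F, β e ≤ C)
    (η η' : Env d lo κ) :
    |G μ q f η' - G μ q f η| ≤ (1 - Real.exp (-(κ * s0))) * o +
      Real.exp (-(κ * s0)) * (Real.exp (-(μ * s0)) * C) := by
  have hp := gap_prob (d := d) (q := q) hκ hμ
  have hpκ := isProbabilityMeasure_expMeasure hκ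
  have hpμ := isProbabilityMeasure_expMeasure hμ
  obtain ⟨F0, hF0⟩ := hf.dep
  have ho0 : 0 ≤ o := (abs_nonneg _).trans (ho η η)
  -- the sets
  set L : Set (Gap d lo κ) := {z | s0 < z.1} with hL
  have hLm : MeasurableSet L := measurableSet_lt measurable_const measurable_fst
  set T : Edge d → Set (Gap d lo κ) := fun e => {z | s0 < z.1 ∧ s0 < (z.2 e).1} with hT
  have hTm : ∀ e, MeasurableSet (T e) := by
    intro e
    have h1 : MeasurableSet {z : Gap d lo κ | s0 < (z.2 e).1} :=
      measurableSet_lt measurable_const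
        (measurable_fst.comp ((measurable_pi_apply e).comp measurable_snd))
    exact hLm.inter h1
  have hLp : (gapLaw d μ q).real L = Real.exp (-(κ * s0)) := by
    have h1 : MeasurePreserving (Prod.fst : Gap d lo κ → ℝ) (gapLaw d μ q) (expMeasure κ) :=
      measurePreserving_fst
    have h2 := h1.measure_preimage (s := Set.Ioi s0) measurableSet_Ioi.nullMeasurableSet
    rw [exp_Ioi hκ hs0] at h2
    rw [measureReal_def]
    have h3 : (Prod.fst : Gap d lo κ → ℝ) ⁻¹' Set.Ioi s0 = L := rfl
    rw [h3] at h2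
    rw [h2, ENNReal.toReal_ofReal (Real.exp_pos _).le]
  have hTp : ∀ e, (gapLaw d μ q).real (T e) = Real.exp (-(κ * s0)) * Real.exp (-(μ * s0)) := by
    intro e
    have h1 := (gap_edge (d := d) (q := q) hκ hμ e).measure_preimage
      (s := (Set.Ioi s0 : Set ℝ) ×ˢ ((Set.Ioi s0 : Set ℝ) ×ˢ (Set.univ : Set (Set.Icc lo κ))))
      (measurableSet_Ioi.prod (measurableSet_Ioi.prod MeasurableSet.univ)).nullMeasurableSet
    rw [Measure.prod_prod, Measure.prod_prod, exp_Ioi hκ hs0, exp_Ioi hμ hs0, measure_univ,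
      mul_one] at h1
    have h3 : (fun z : Gap d lo κ => (z.1, z.2 e)) ⁻¹' ((Set.Ioi s0 : Set ℝ) ×ˢ
        ((Set.Ioi s0 : Set ℝ) ×ˢ (Set.univ : Set (Set.Icc lo κ)))) = T e := by
      ext z
      simp [hT]
    rw [h3] at h1
    rw [measureReal_def, h1, ← ENNReal.ofReal_mul (Real.exp_pos _).le,
      ENNReal.toReal_ofReal (by positivity)]
  have h1 : G μ q f η' - G μ q f η = ∫ z, (f (ref z η') - f (ref z η)) ∂gapLaw d μ q :=
    (integral_sub (hf.integrable_ref hκ hμ _) (hf.integrable_ref hκ hμ _)).symm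
  have h2 : ∀ z : Gap d lo κ, |f (ref z η') - f (ref z η)| ≤
      Lᶜ.indicator (fun _ => o) z + ∑ e ∈ F0, (T e).indicator (fun _ => β e) z := by
    intro z
    have hs : 0 ≤ ∑ e ∈ F0, (T e).indicator (fun _ => β e) z :=
      Finset.sum_nonneg fun e _ => Set.indicator_nonneg (fun _ _ => hβ e) z
    by_cases hz : z ∈ L
    · rw [Set.indicator_of_notMem (by simpa using hz), zero_add]
      have hz' : s0 < z.1 := hz
      set F1 := F0.filter fun e => z.1 < (z.2 e).1 with hF1
      have g1 : f (ref z η') = f (fun e => if e ∈ F1 then ref z η' e else ref z η e) := by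
        refine hF0 _ _ fun e he => ?_
        split_ifs with h3
        · rfl
        · have h4 : ¬ z.1 < (z.2 e).1 := fun h5 => h3 (Finset.mem_filter.2 ⟨he, h5⟩)
          unfold ref
          rw [if_pos (not_lt.1 h4), if_pos (not_lt.1 h4)]
      rw [g1]
      refine (h.telescope F1 _ _ fun e he => by rw [if_neg he]).trans ?_
      rw [hF1, Finset.sum_filter]
      refine Finset.sum_le_sum fun e _ => ?_
      split_ifs with h3
      · rw [Set.indicator_of_mem]
        exact ⟨hz', hz'.trans h3⟩
      · exact Set.indicator_nonneg (fun _ _ => hβ e) z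
    · rw [Set.indicator_of_mem (by simpa using hz)]
      have := ho (ref z η) (ref z η')
      linarith
  have hi1 : Integrable (Lᶜ.indicator fun _ => o) (gapLaw d μ q) :=
    (integrable_const _).indicator hLm.compl
  have hi2 : ∀ e, Integrable ((T e).indicator fun _ => β e) (gapLaw d μ q) := fun e =>
    (integrable_const _).indicator (hTm e)
  have hi3 : Integrable (fun z => ∑ e ∈ F0, (T e).indicator (fun _ => β e) z) (gapLaw d μ q) :=
    integrable_finset_sum _ fun e _ => hi2 e
  calc |G μ q f η' - G μ q f η| ≤ ∫ z, |f (ref z η') - f (ref z η)| ∂gapLaw d μ q := by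
        rw [h1]
        exact abs_integral_le_integral_abs
    _ ≤ ∫ z, (Lᶜ.indicator (fun _ => o) z + ∑ e ∈ F0, (T e).indicator (fun _ => β e) z)
        ∂gapLaw d μ q :=
        integral_mono ((hf.integrable_ref hκ hμ _).sub (hf.integrable_ref hκ hμ _)).abs
          (hi1.add hi3) h2
    _ = (1 - Real.exp (-(κ * s0))) * o + ∑ e ∈ F0, Real.exp (-(κ * s0)) *
        Real.exp (-(μ * s0)) * β e := by
        rw [integral_add hi1 hi3, integral_finset_sum _ fun e _ => hi2 e,
          integral_indicator hLm.compl, setIntegral_const, probReal_compl_eq_one_sub hLm, hLp,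
          smul_eq_mul]
        congr 1
        refine Finset.sum_congr rfl fun e _ => ?_
        rw [integral_indicator (hTm e), setIntegral_const, hTp, smul_eq_mul]
    _ ≤ _ := by
        rw [← Finset.mul_sum, mul_assoc]
        have := hC F0
        gcongr

/-- a uniform bound of the oscillation -/
theorem osc_gen (hlo : 0 ≤ lo) (hκ : 0 < κ) (hμ : 0 < μ) :
    ∃ o : ℝ, 0 ≤ o ∧ ∀ (l : ℝ) (n : ℕ) (η η' : Env d lo κ),
      |Φ μ q l n η' - Φ μ q l n η| ≤ o := by
  set r := κ / (κ + μ) with hr
  have hr0 : 0 < r := by positivity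
  have hr1 : r < 1 := by
    rw [hr, div_lt_one (by positivity)]
    linarith
  obtain ⟨C, hC0, hC⟩ := sum_edge (d := d) hr0 hr1
  -- the total influence is at most `C1 (2 + o)`
  set C1 := C / (1 - r) with hC1
  have hC10 : 0 ≤ C1 := div_nonneg hC0 (by linarith)
  obtain ⟨s0, hs0, hs1⟩ : ∃ s0 : ℝ, 0 ≤ s0 ∧ Real.exp (-(μ * s0)) * C1 ≤ 1 / 2 := by
    have h1 : Tendsto (fun s : ℝ => Real.exp (-(μ * s)) * C1) atTop (𝓝 (0 * C1)) := by
      refine Tendsto.mul_const _ ?_
      exact Real.tendsto_exp_neg_atTop_nhds_zero.comp (tendsto_id.const_mul_atTop hμ)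
    rw [zero_mul] at h1
    have h2 := (h1.eventually (ge_mem_nhds (by norm_num : (0 : ℝ) < 1 / 2))).and
      (eventually_ge_atTop (0 : ℝ))
    obtain ⟨s0, h3, h4⟩ := h2.exists
    exact ⟨s0, h4, h3⟩
  set δ := Real.exp (-(κ * s0)) with hδ
  have hδ0 : 0 < δ := Real.exp_pos _
  have hδ1 : δ ≤ 1 := Real.exp_le_one_iff.2 (by nlinarith)
  set o := 4 / δ with ho
  have ho0 : 0 ≤ o := by positivity
  set B := r * (2 + o) / (1 - r) with hB
  have hB0 : 0 ≤ B := div_nonneg (by positivity) (by linarith)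
  refine ⟨o, ho0, fun l n => ?_⟩
  have key : (∀ η η' : Env d lo κ, |Φ μ q l n η' - Φ μ q l n η| ≤ o) ∧
      Lip (Φ μ q l n : Env d lo κ → ℝ) fun e => B * r ^ dst e := by
    induction n with
    | zero =>
      constructor
      · intro η η'
        change |(0 : ℝ) - 0| ≤ o
        simpa using ho0
      · intro η e b
        change |(0 : ℝ) - 0| ≤ _
        rw [sub_zero, abs_zero]
        positivity
    | succ n ih =>
      have hg := Good.Φ (d := d) (q := q) hκ hμ l n
      have h1 := Lip.att hlo hκ l hB0 hr0.le hr1.le ih.1 ih.2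
      have h2 : ∀ e : Edge d, r * (B * r ^ (dst e - 1) + if dst e = 0 then 1 + o else 0) ≤
          B * r ^ dst e := by
        intro e
        split_ifs with h3
        · rw [h3]
          have h4 : B * (1 - r) = r * (2 + o) := by
            rw [hB, div_mul_cancel₀]
            linarith
          simp only [Nat.zero_sub, pow_zero, mul_one]
          nlinarith
        · have h4 : dst e = (dst e - 1) + 1 := by omega
          rw [add_zero]
          conv_rhs => rw [h4, pow_succ]
          linarith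
      have h3 : ∀ e : Edge d, B * r ^ (dst e - 1) + (if dst e = 0 then 1 + o else 0) ≤
          (2 + o) / (1 - r) * r ^ dst e := by
        intro e
        have h4 := h2 e
        have h5 : B * r ^ dst e = r * ((2 + o) / (1 - r) * r ^ dst e) := by
          rw [hB]
          ring
        rw [h5] at h4
        exact le_of_mul_le_mul_left h4 hr0
      constructor
      · intro η η'
        have h4 : ∀ e : Edge d, 0 ≤ B * r ^ (dst e - 1) + (if dst e = 0 then 1 + o else 0) := by
          intro e
          have : 0 ≤ (if dst e = 0 then 1 + o else 0) := by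
            split_ifs <;> linarith
          positivity
        have h5 : ∀ F : Finset (Edge d), ∑ e ∈ F, (B * r ^ (dst e - 1) +
            (if dst e = 0 then 1 + o else 0)) ≤ C1 * (2 + o) := by
          intro F
          calc ∑ e ∈ F, (B * r ^ (dst e - 1) + (if dst e = 0 then 1 + o else 0))
              ≤ ∑ e ∈ F, (2 + o) / (1 - r) * r ^ dst e := Finset.sum_le_sum fun e _ => h3 e
            _ = (2 + o) / (1 - r) * ∑ e ∈ F, r ^ dst e := by rw [← Finset.mul_sum]
            _ ≤ (2 + o) / (1 - r) * C :=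
              mul_le_mul_of_nonneg_left (hC F) (div_nonneg (by linarith) (by linarith))
            _ = C1 * (2 + o) := by
              rw [hC1]
              ring
        have h6 := G_osc (q := q) hκ hμ (hg.K l) h4 h1 hs0 (K_osc hlo hκ l ih.1) h5 η η'
        refine h6.trans ?_
        have h7 : Real.exp (-(μ * s0)) * (C1 * (2 + o)) ≤ 1 / 2 * (2 + o) := by
          rw [← mul_assoc]
          exact mul_le_mul_of_nonneg_right hs1 (by linarith)
        have h8 : δ * (Real.exp (-(μ * s0)) * (C1 * (2 + o))) ≤ δ * (1 / 2 * (2 + o)) :=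
          mul_le_mul_of_nonneg_left h7 hδ0.le
        have h9 : δ * o = 4 := by
          rw [ho]
          field_simp
        rw [← hδ]
        nlinarith
      · have h4 := Lip.gap (q := q) (μ := μ) hκ hμ (hg.K l) h1
        intro η e b
        exact (h4 η e b).trans (h2 e)
  exact key.1

end Pool.Agent.NVB
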