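import Pool.Agent.NVB.Ops

/-!
# Contraction of the influences
-/

set_option autoImplicit false

namespace Pool.Agent.NVB

open MeasureTheory ProbabilityTheory Filter Topology
open scoped Classical ENNReal

variable {d : ℕ} {lo κ : ℝ} {μ : ℝ} {q : Measure (Set.Icc lo κ)} [IsProbabilityMeasure q]

theorem ref_update (z : Gap d lo κ) (η : Env d lo κ) (e : Edge d) (b : Set.Icc lo κ) :
    ref z (Function.update η e b) =
      if z.1 < (z.2 e).1 then Function.update (ref z η) e b else ref z η := by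
  split_ifs with h
  · funext e'
    by_cases hee : e' = e
    · subst hee
      unfold ref
      rw [if_neg (not_le.2 h)]
      simp
    · rw [Function.update_of_ne hee]
      unfold ref
      rw [Function.update_of_ne hee]
  · funext e'
    by_cases hee : e' = e
    · subst hee
      unfold ref
      rw [if_pos (not_lt.1 h), if_pos (not_lt.1 h)]
    · unfold ref
      rw [Function.update_of_ne hee]

theorem D_G (hκ : 0 < κ) (hμ : 0 < μ) {f : Env d lo κ → ℝ} (hf : Good f) (e : Edge d) :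
    D (G μ q f) e ≤ ENNReal.ofReal (κ / (κ + μ)) * D f e := by
  refine D_le fun η b => ?_
  have h1 : G μ q f (Function.update η e b) - G μ q f η =
      ∫ z, (f (ref z (Function.update η e b)) - f (ref z η)) ∂gapLaw d μ q :=
    (integral_sub (hf.integrable_ref hκ hμ _) (hf.integrable_ref hκ hμ _)).symm
  rw [h1, ← Real.norm_eq_abs, ofReal_norm]
  refine (enorm_integral_le_lintegral_enorm _).trans ?_
  have h2 : ∀ z : Gap d lo κ, ‖f (ref z (Function.update η e b)) - f (ref z η)‖ₑ ≤
      {z : Gap d lo κ | z.1 < (z.2 e).1}.indicator (fun _ => D f e) z := by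
    intro z
    rw [ref_update]
    by_cases h : z.1 < (z.2 e).1
    · rw [if_pos h, Set.indicator_of_mem (by exact h), ← ofReal_norm, Real.norm_eq_abs]
      exact le_D f e _ b
    · rw [if_neg h]
      simp
  refine (lintegral_mono h2).trans ?_
  rw [lintegral_indicator_const, gap_keep hκ hμ, mul_comm]
  exact measurableSet_lt measurable_fst
    (measurable_fst.comp ((measurable_pi_apply e).comp measurable_snd))

theorem S_G (hκ : 0 < κ) (hμ : 0 < μ) {f : Env d lo κ → ℝ} (hf : Good f) :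
    S (G μ q f) ≤ ENNReal.ofReal (κ / (κ + μ)) * S f := by
  unfold S
  rw [← ENNReal.tsum_mul_left]
  exact ENNReal.tsum_le_tsum fun e => D_G hκ hμ hf e

/-- the change of the success probability -/
theorem acc_update (hκ : 0 < κ) (y : Dir d) (η : Env d lo κ) (e : Edge d) (b : Set.Icc lo κ) :
    |acc y (Function.update η e b) - acc y η| ≤ if edge 0 y = e then (κ - lo) / κ else 0 := by
  unfold acc
  split_ifs with h
  · rw [h, Function.update_self, ← sub_div, abs_div, abs_of_pos hκ]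
    apply div_le_div_of_nonneg_right _ hκ.le
    rw [abs_le]
    have h1 := b.2.1
    have h2 := b.2.2
    have h3 := (η e).2.1
    have h4 := (η e).2.2
    constructor <;> linarith
  · rw [Function.update_of_ne h]
    simp

theorem one_sub_acc_le (hκ : 0 < κ) (y : Dir d) (η : Env d lo κ) :
    1 - acc y η ≤ (κ - lo) / κ := by
  have h := le_acc (lo := lo) hκ y η
  rw [sub_div, div_self hκ.ne']
  linarith

theorem K_update (hlo : 0 ≤ lo) (hκ : 0 < κ) (l : ℝ) {f : Env d lo κ → ℝ} (hf : Good f)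
    (η : Env d lo κ) (e : Edge d) (b : Set.Icc lo κ) :
    |K l f (Function.update η e b) - K l f η| ≤
      ∑ y : Dir d, p l y * ((D f (e.1 - vec y, e.2)).toReal + (κ - lo) / κ * (D f e).toReal +
        (if edge 0 y = e then (κ - lo) / κ else 0) * (1 + (S f).toReal)) := by
  unfold K
  rw [← Finset.sum_sub_distrib]
  refine (Finset.abs_sum_le_sum_abs _ _).trans (Finset.sum_le_sum fun y _ => ?_)
  rw [← mul_sub, abs_mul, abs_of_nonneg (p_nonneg l y)]
  refine mul_le_mul_of_nonneg_left ?_ (p_nonneg l y)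
  rw [sh_update]
  set η' := Function.update η e b with hη'
  set A := acc y η with hA
  set A' := acc y η' with hA'
  set F1 := f (Function.update (sh (vec y) η) (e.1 - vec y, e.2) b) with hF1
  set F2 := f (sh (vec y) η) with hF2
  set F3 := f η' with hF3
  set F4 := f η with hF4
  set V : ℝ := ((vec y 0 : ℤ) : ℝ) with hV
  have h1 : A' * (V + F1) + (1 - A') * F3 - (A * (V + F2) + (1 - A) * F4) =
      A * (F1 - F2) + (1 - A) * (F3 - F4) + (A' - A) * (V + (F1 - F3)) := by ring
  rw [h1]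
  have hA0 : 0 ≤ A := (div_nonneg hlo hκ.le).trans (le_acc hκ y η)
  have hA1 : A ≤ 1 := acc_le hκ y η
  have hA2 : 1 - A ≤ (κ - lo) / κ := one_sub_acc_le hκ y η
  have hAA : |A' - A| ≤ if edge 0 y = e then (κ - lo) / κ else 0 := acc_update hκ y η e b
  have b1 : |F1 - F2| ≤ (D f (e.1 - vec y, e.2)).toReal := hf.abs_le_D _ _ b
  have b2 : |F3 - F4| ≤ (D f e).toReal := hf.abs_le_D _ _ b
  have b3 : |V + (F1 - F3)| ≤ 1 + (S f).toReal := by
    refine (abs_add_le _ _).trans (add_le_add ?_ (hf.abs_le_S _ _))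
    have := vec_abs_le y
    rw [hV]
    exact_mod_cast this
  refine (abs_add_le _ _).trans (add_le_add ((abs_add_le _ _).trans (add_le_add ?_ ?_)) ?_)
  · rw [abs_mul, abs_of_nonneg hA0]
    calc A * |F1 - F2| ≤ 1 * |F1 - F2| := mul_le_mul_of_nonneg_right hA1 (abs_nonneg _)
      _ = |F1 - F2| := one_mul _
      _ ≤ _ := b1
  · rw [abs_mul, abs_of_nonneg (by linarith : 0 ≤ 1 - A)]
    exact mul_le_mul hA2 b2 (abs_nonneg _) (by linarith)
  · rw [abs_mul]
    refine mul_le_mul hAA b3 (abs_nonneg _) ((abs_nonneg _).trans hAA)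

theorem D_K (hlo : 0 ≤ lo) (hκ : 0 < κ) (hlκ : lo ≤ κ) (l : ℝ) {f : Env d lo κ → ℝ} (hf : Good f)
    (e : Edge d) :
    D (K l f) e ≤ ∑ y : Dir d, ENNReal.ofReal (p l y) * (D f (e.1 - vec y, e.2) +
      ENNReal.ofReal ((κ - lo) / κ) * D f e +
        (if edge 0 y = e then ENNReal.ofReal ((κ - lo) / κ) * (1 + S f) else 0)) := by
  refine D_le fun η b => ?_
  refine (ENNReal.ofReal_le_ofReal (K_update hlo hκ l hf η e b)).trans (le_of_eq ?_)
  have hD : 0 ≤ (κ - lo) / κ := div_nonneg (by linarith) hκ.le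
  have hS := hf.S_lt.ne
  rw [ENNReal.ofReal_sum_of_nonneg]
  · refine Finset.sum_congr rfl fun y _ => ?_
    rw [ENNReal.ofReal_mul (p_nonneg l y)]
    congr 1
    have h0 : 0 ≤ if edge 0 y = e then (κ - lo) / κ else 0 := by
      split_ifs
      · exact hD
      · exact le_rfl
    rw [ENNReal.ofReal_add (by positivity) (by positivity), ENNReal.ofReal_add (by positivity)
      (by positivity), ENNReal.ofReal_mul hD, ENNReal.ofReal_toReal (hf.D_lt _).ne,
      ENNReal.ofReal_toReal (hf.D_lt _).ne]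
    congr 1
    split_ifs
    · rw [ENNReal.ofReal_mul hD, ENNReal.ofReal_add zero_le_one (by positivity),
        ENNReal.ofReal_toReal hS, ENNReal.ofReal_one]
    · rw [zero_mul, ENNReal.ofReal_zero]
  · intro y _
    have h0 : 0 ≤ if edge 0 y = e then (κ - lo) / κ else 0 := by
      split_ifs
      · exact hD
      · exact le_rfl
    have := p_nonneg l y
    positivity

theorem S_K (hlo : 0 ≤ lo) (hκ : 0 < κ) (hlκ : lo ≤ κ) (l : ℝ) {f : Env d lo κ → ℝ}
    (hf : Good f) :
    S (K l f) ≤ S f + ENNReal.ofReal ((κ - lo) / κ) * S f +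
      ENNReal.ofReal ((κ - lo) / κ) * (1 + S f) := by
  have h1 : S (K l f) ≤ ∑' e : Edge d, ∑ y : Dir d, ENNReal.ofReal (p l y) *
      (D f (e.1 - vec y, e.2) + ENNReal.ofReal ((κ - lo) / κ) * D f e +
        (if edge 0 y = e then ENNReal.ofReal ((κ - lo) / κ) * (1 + S f) else 0)) :=
    ENNReal.tsum_le_tsum fun e => D_K hlo hκ hlκ l hf e
  refine h1.trans (le_of_eq ?_)
  rw [Summable.tsum_finsetSum fun _ _ => ENNReal.summable]
  have h2 : ∀ y : Dir d, ∑' e : Edge d, ENNReal.ofReal (p l y) *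
      (D f (e.1 - vec y, e.2) + ENNReal.ofReal ((κ - lo) / κ) * D f e +
        (if edge 0 y = e then ENNReal.ofReal ((κ - lo) / κ) * (1 + S f) else 0)) =
      ENNReal.ofReal (p l y) * (S f + ENNReal.ofReal ((κ - lo) / κ) * S f +
      ENNReal.ofReal ((κ - lo) / κ) * (1 + S f)) := by
    intro y
    have h3 : ∑' e : Edge d, (if edge 0 y = e then ENNReal.ofReal ((κ - lo) / κ) * (1 + S f)
        else 0) = ENNReal.ofReal ((κ - lo) / κ) * (1 + S f) := by
      rw [tsum_eq_single (edge 0 y), if_pos rfl]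
      intro e he
      exact if_neg he.symm
    rw [ENNReal.tsum_mul_left, ENNReal.tsum_add, ENNReal.tsum_add, ENNReal.tsum_mul_left,
      tsum_D_sub, h3]
    rfl
  rw [Finset.sum_congr rfl fun y _ => h2 y, ← Finset.sum_mul,
    ← ENNReal.ofReal_sum_of_nonneg fun y _ => p_nonneg l y, sum_p, ENNReal.ofReal_one, one_mul]

/-- the expected displacement in `n` attempts (starting with a gap) -/
noncomputable def Φ (μ : ℝ) (q : Measure (Set.Icc lo κ)) (l : ℝ) : ℕ → Env d lo κ → ℝ
  | 0 => fun _ => 0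
  | n + 1 => G μ q (K l (Φ μ q l n))

theorem Good.Φ (hκ : 0 < κ) (hμ : 0 < μ) (l : ℝ) (n : ℕ) :
    Good (NVB.Φ μ q l n : Env d lo κ → ℝ) := by
  induction n with
  | zero => exact Good.const 0
  | succ n ih => exact (ih.K l).G hκ hμ

theorem S_Φ (hlo : 0 ≤ lo) (hκ : 0 < κ) (hlκ : lo ≤ κ) (hμ : 0 < μ) (h : 5 * (κ - lo) ≤ μ) (l : ℝ)
    (n : ℕ) : S (Φ μ q l n : Env d lo κ → ℝ) ≤ ENNReal.ofReal (1 / 3) := by
  induction n with
  | zero =>
    have : S (Φ μ q l 0 : Env d lo κ → ℝ) = 0 := by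
      unfold S D Φ
      simp
    rw [this]
    exact bot_le
  | succ n ih =>
    have hg := Good.Φ (d := d) (q := q) hκ hμ l n
    have hD : 0 ≤ (κ - lo) / κ := div_nonneg (by linarith) hκ.le
    calc S (Φ μ q l (n + 1) : Env d lo κ → ℝ) ≤ ENNReal.ofReal (κ / (κ + μ)) *
          S (K l (Φ μ q l n)) := S_G hκ hμ (hg.K l)
      _ ≤ ENNReal.ofReal (κ / (κ + μ)) * (S (Φ μ q l n) + ENNReal.ofReal ((κ - lo) / κ) *
          S (Φ μ q l n) + ENNReal.ofReal ((κ - lo) / κ) * (1 + S (Φ μ q l n))) := by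
          gcongr
          exact S_K hlo hκ hlκ l hg
      _ ≤ ENNReal.ofReal (κ / (κ + μ)) * (ENNReal.ofReal (1 / 3) + ENNReal.ofReal ((κ - lo) / κ) *
          ENNReal.ofReal (1 / 3) + ENNReal.ofReal ((κ - lo) / κ) * (1 + ENNReal.ofReal (1 / 3))) := by
          gcongr
      _ = ENNReal.ofReal (κ / (κ + μ) * (1 / 3 + (κ - lo) / κ * (1 / 3) +
          (κ - lo) / κ * (1 + 1 / 3))) := by
          rw [ENNReal.ofReal_mul (by positivity), ENNReal.ofReal_add (by positivity) (by positivity),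
            ENNReal.ofReal_add (by positivity) (by positivity), ENNReal.ofReal_mul hD,
            ENNReal.ofReal_mul hD, ENNReal.ofReal_add (by positivity) (by positivity),
            ENNReal.ofReal_one]
      _ ≤ ENNReal.ofReal (1 / 3) := by
          apply ENNReal.ofReal_le_ofReal
          have h1 : κ / (κ + μ) * (1 / 3 + (κ - lo) / κ * (1 / 3) + (κ - lo) / κ * (1 + 1 / 3)) =
              (κ + 5 * (κ - lo)) / (3 * (κ + μ)) := by
            field_simp
            ring
          rw [h1, div_le_div_iff₀ (by positivity) (by norm_num)]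
          linarith

theorem osc_Φ (hlo : 0 ≤ lo) (hκ : 0 < κ) (hlκ : lo ≤ κ) (hμ : 0 < μ) (h : 5 * (κ - lo) ≤ μ)
    (l : ℝ) (n : ℕ) (η η' : Env d lo κ) : |Φ μ q l n η' - Φ μ q l n η| ≤ 1 / 3 := by
  refine ((Good.Φ (q := q) hκ hμ l n).abs_le_S η η').trans ?_
  have h1 := ENNReal.toReal_mono ENNReal.ofReal_ne_top (S_Φ (d := d) (q := q) hlo hκ hlκ hμ h l n)
  rwa [ENNReal.toReal_ofReal (by norm_num)] at h1

end Pool.Agent.NVB
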