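import Pool.Agent.NVB.Lm

/-!
# Strong concavity of the speed of the limit model
-/

set_option autoImplicit false

namespace Pool.Agent.NVB

open MeasureTheory ProbabilityTheory Filter Topology
open scoped Classical ENNReal

variable {lo κ : ℝ} {μ : ℝ} {q : Measure (Set.Icc lo κ)}

/-- the variance -/
noncomputable def vr (q : Measure (Set.Icc lo κ)) : ℝ := ∫ w, ((w : ℝ) - mean q) ^ 2 ∂q

/-- the slope of the harmonic mean -/
noncomputable def Dv (μ : ℝ) (q : Measure (Set.Icc lo κ)) (α : ℝ) : ℝ :=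
  (∫ w : Set.Icc lo κ, ((w : ℝ) - mean q) / X μ q α w ^ 2 ∂q) / h1 μ q α ^ 2

variable [IsProbabilityMeasure q]

theorem vr_nonneg : 0 ≤ vr q := integral_nonneg fun w => sq_nonneg _

theorem sq_int : Integrable (fun w : Set.Icc lo κ => ((w : ℝ) - mean q) ^ 2) q :=
  cont_int (f := fun w => (w - mean q) ^ 2) (by fun_prop)

theorem lin_int : Integrable (fun w : Set.Icc lo κ => (w : ℝ) - mean q) q :=
  cont_int (f := fun w => w - mean q) (by fun_prop)

theorem lin_zero : ∫ w : Set.Icc lo κ, ((w : ℝ) - mean q) ∂q = 0 := by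
  rw [integral_sub integrable_val (integrable_const _)]
  have : ∫ w : Set.Icc lo κ, (w : ℝ) ∂q = mean q := rfl
  rw [this]
  simp

theorem vr_le (hlo : 0 ≤ lo) : vr q ≤ κ * mean q := by
  have hm := mean_nonneg (q := q) hlo
  have h1 : ∀ w : Set.Icc lo κ, ((w : ℝ) - mean q) ^ 2 ≤ κ * w + -(2 * mean q) * w +
      mean q ^ 2 := by
    intro w
    have a1 : (w : ℝ) * w ≤ κ * w := mul_le_mul_of_nonneg_right w.2.2 (hlo.trans w.2.1)
    nlinarith
  have i1 : Integrable (fun w : Set.Icc lo κ => κ * (w : ℝ) + -(2 * mean q) * w) q :=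
    (integrable_val.const_mul _).add (integrable_val.const_mul _)
  have h2 := integral_mono sq_int (i1.add (integrable_const (mean q ^ 2))) h1
  have h3 : ∫ w : Set.Icc lo κ, (κ * (w : ℝ) + -(2 * mean q) * w + mean q ^ 2) ∂q =
      κ * mean q - mean q ^ 2 := by
    rw [integral_add i1 (integrable_const _), integral_add (integrable_val.const_mul _)
      (integrable_val.const_mul _), integral_const_mul, integral_const_mul]
    have : ∫ w : Set.Icc lo κ, (w : ℝ) ∂q = mean q := rfl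
    rw [this]
    simp
    ring
  have h4 : ∫ w : Set.Icc lo κ, ((w : ℝ) - mean q) ^ 2 ∂q ≤
      ∫ w : Set.Icc lo κ, (κ * (w : ℝ) + -(2 * mean q) * w + mean q ^ 2) ∂q := h2
  rw [h3] at h4
  unfold vr
  have := sq_nonneg (mean q)
  linarith

/-- the strong version of the inequality of the tangents -/
theorem tangent' (hlo : 0 ≤ lo) (hκ : 0 < κ) (hμ : 0 < μ) {S : ℝ} (hS : S = (κ + μ) / μ)
    {α β : ℝ} (h0 : 0 ≤ α) (hα : α ≤ 1) (h0' : 0 ≤ β) (hβ : β ≤ 1) :
    1 / h1 μ q α ≤ 1 / h1 μ q β + (α - β) * Dv μ q β -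
      vr q / (μ * S ^ 4) * (α - β) ^ 2 := by
  have hb := h1_pos (q := q) hlo hκ hμ h0 hα
  have hc := h1_pos (q := q) hlo hκ hμ h0' hβ
  have hcl := h1_le (q := q) hlo hμ h0' hβ
  unfold Dv
  set b := h1 μ q α with hbdef
  set c := h1 μ q β with hcdef
  have hm0 := mean_nonneg (q := q) hlo
  have hV0 := vr_nonneg (q := q)
  have hVle := vr_le (q := q) hlo
  have i1 := X_inv_int (q := q) hlo hμ h0 hα
  have i2 := X_inv_int (q := q) hlo hμ h0' hβ
  have hXa : ∀ w : Set.Icc lo κ, 0 < X μ q α w := fun w =>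
    lt_of_lt_of_le hμ (X_ge (μ := μ) (q := q) hlo h0 hα w)
  have hXb : ∀ w : Set.Icc lo κ, 0 < X μ q β w := fun w =>
    lt_of_lt_of_le hμ (X_ge (μ := μ) (q := q) hlo h0' hβ w)
  have i3 : Integrable (fun w : Set.Icc lo κ => ((w : ℝ) - mean q) / X μ q β w ^ 2) q := by
    refine cont_int (f := fun w => (w - mean q) / X μ q β w ^ 2) (ContinuousOn.div (by fun_prop)
      ((X_cont β).continuousOn.pow 2) fun w hw => ?_)
    exact pow_ne_zero 2 (hXb ⟨w, hw⟩).ne'
  set J := ∫ w : Set.Icc lo κ, ((w : ℝ) - mean q) / X μ q β w ^ 2 ∂q with hJ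
  have e1 : ∫ w : Set.Icc lo κ, X μ q α w / X μ q β w ^ 2 ∂q = c + (α - β) * J := by
    have e2 : ∀ w : Set.Icc lo κ, X μ q α w / X μ q β w ^ 2 =
        1 / X μ q β w + (α - β) * (((w : ℝ) - mean q) / X μ q β w ^ 2) := by
      intro w
      have h3 := (hXb w).ne'
      have h4 : X μ q α w = X μ q β w + (α - β) * ((w : ℝ) - mean q) := by
        unfold X
        ring
      rw [h4]
      field_simp
    rw [integral_congr_ae (Eventually.of_forall e2), integral_add i2 (i3.const_mul _),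
      integral_const_mul]
    rfl
  have i4 : Integrable (fun w : Set.Icc lo κ => X μ q α w / X μ q β w ^ 2) q := by
    refine cont_int (f := fun w => X μ q α w / X μ q β w ^ 2)
      (ContinuousOn.div (X_cont α).continuousOn ((X_cont β).continuousOn.pow 2) fun w hw => ?_)
    exact pow_ne_zero 2 (hXb ⟨w, hw⟩).ne'
  set s := c / b with hs
  set A := μ + mean q with hA
  have hA0 : 0 < A := by positivity
  have hμκ : 0 < μ + κ := by positivity
  -- the identity
  have e2 : (c + (α - β) * J) - 2 * s * c + s ^ 2 * b =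
      ∫ w : Set.Icc lo κ, X μ q α w * (1 / X μ q β w - s * (1 / X μ q α w)) ^ 2 ∂q := by
    have e3 : ∀ w : Set.Icc lo κ,
        X μ q α w * (1 / X μ q β w - s * (1 / X μ q α w)) ^ 2 =
        (X μ q α w / X μ q β w ^ 2 + -(2 * s) * (1 / X μ q β w)) +
          s ^ 2 * (1 / X μ q α w) := by
      intro w
      have h3 := (hXb w).ne'
      have h4 := (hXa w).ne'
      field_simp
      ring
    have i5 : Integrable (fun w : Set.Icc lo κ => X μ q α w / X μ q β w ^ 2 +
        -(2 * s) * (1 / X μ q β w)) q := i4.add (i2.const_mul _)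
    rw [integral_congr_ae (Eventually.of_forall e3), integral_add i5 (i1.const_mul _),
      integral_add i4 (i2.const_mul _), integral_const_mul, integral_const_mul, e1]
    have e4 : ∫ w : Set.Icc lo κ, 1 / X μ q β w ∂q = c := rfl
    have e5 : ∫ w : Set.Icc lo κ, 1 / X μ q α w ∂q = b := rfl
    rw [e4, e5]
    ring
  have e6 : (c + (α - β) * J) - 2 * s * c + s ^ 2 * b =
      (c + (α - β) * J) - c ^ 2 / b := by
    rw [hs]
    field_simp
    ring
  -- the lower bound of the integral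
  have e7 : ((1 - s) ^ 2 * A ^ 2 + (α - s * β) ^ 2 * vr q) / (μ + κ) ^ 3 ≤
      ∫ w : Set.Icc lo κ, X μ q α w * (1 / X μ q β w - s * (1 / X μ q α w)) ^ 2 ∂q := by
    have e8 : ((1 - s) ^ 2 * A ^ 2 + (α - s * β) ^ 2 * vr q) / (μ + κ) ^ 3 =
        ∫ w : Set.Icc lo κ, ((1 - s) ^ 2 * A ^ 2 / (μ + κ) ^ 3 +
          2 * (1 - s) * A * (α - s * β) / (μ + κ) ^ 3 * ((w : ℝ) - mean q) +
          (α - s * β) ^ 2 / (μ + κ) ^ 3 * ((w : ℝ) - mean q) ^ 2) ∂q := by
      have j1 : Integrable (fun w : Set.Icc lo κ => (1 - s) ^ 2 * A ^ 2 / (μ + κ) ^ 3 +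
          2 * (1 - s) * A * (α - s * β) / (μ + κ) ^ 3 * ((w : ℝ) - mean q)) q :=
        (integrable_const _).add (lin_int.const_mul _)
      rw [integral_add j1 (sq_int.const_mul _), integral_add (integrable_const _)
        (lin_int.const_mul _), integral_const_mul, integral_const_mul, lin_zero]
      have : ∫ w : Set.Icc lo κ, ((w : ℝ) - mean q) ^ 2 ∂q = vr q := rfl
      rw [this]
      simp
      ring
    rw [e8]
    refine integral_mono ?_ ?_ fun w => ?_
    · exact (((integrable_const _).add (lin_int.const_mul _))).add (sq_int.const_mul _)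
    · refine cont_int (f := fun w => X μ q α w * (1 / X μ q β w - s * (1 / X μ q α w)) ^ 2) ?_
      refine (X_cont α).continuousOn.mul (ContinuousOn.pow (ContinuousOn.sub
        (ContinuousOn.div continuousOn_const (X_cont β).continuousOn fun w hw => ?_)
        (continuousOn_const.mul (ContinuousOn.div continuousOn_const (X_cont α).continuousOn
          fun w hw => ?_))) 2)
      · exact (hXb ⟨w, hw⟩).ne'
      · exact (hXa ⟨w, hw⟩).ne'
    · beta_reduce
      have h3 := hXb w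
      have h4 := hXa w
      have h5 := X_le (μ := μ) (q := q) hlo h0 hα w
      have h6 := X_le (μ := μ) (q := q) hlo h0' hβ w
      have e9 : X μ q α w * (1 / X μ q β w - s * (1 / X μ q α w)) ^ 2 =
          (X μ q α w - s * X μ q β w) ^ 2 / (X μ q α w * X μ q β w ^ 2) := by
        field_simp
      have e10 : X μ q α w - s * X μ q β w = (1 - s) * A + (α - s * β) * ((w : ℝ) - mean q) := by
        unfold X
        rw [hA]
        ring
      have e11 : (1 - s) ^ 2 * A ^ 2 / (μ + κ) ^ 3 +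
          2 * (1 - s) * A * (α - s * β) / (μ + κ) ^ 3 * ((w : ℝ) - mean q) +
          (α - s * β) ^ 2 / (μ + κ) ^ 3 * ((w : ℝ) - mean q) ^ 2 =
          ((1 - s) * A + (α - s * β) * ((w : ℝ) - mean q)) ^ 2 / (μ + κ) ^ 3 := by ring
      rw [e9, e10, e11]
      apply div_le_div_of_nonneg_left (sq_nonneg _) (by positivity)
      calc X μ q α w * X μ q β w ^ 2 ≤ (μ + κ) * (μ + κ) ^ 2 := by gcongr
        _ = (μ + κ) ^ 3 := by ring
  -- the algebra
  have e12 : vr q * A ^ 2 * (α - β) ^ 2 ≤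
      (A ^ 2 + vr q) * ((1 - s) ^ 2 * A ^ 2 + (α - s * β) ^ 2 * vr q) := by
    set V := vr q with hV
    set x := 1 - s with hx
    set p := α - s * β with hp
    have hv : (x * β) ^ 2 ≤ x ^ 2 := by
      have : (x * β) ^ 2 = x ^ 2 * β ^ 2 := by ring
      rw [this]
      have h2 : β ^ 2 ≤ 1 := pow_le_one₀ h0' hβ
      have := mul_le_mul_of_nonneg_left h2 (sq_nonneg x)
      linarith
    have hpv : α - β = p - x * β := by
      rw [hp, hx]
      ring
    rw [hpv]
    have k1 : (A ^ 2 + V) * (x ^ 2 * A ^ 2 + p ^ 2 * V) - V * A ^ 2 * (p - x * β) ^ 2 =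
        (p * V + x * β * A ^ 2) ^ 2 + (A ^ 2 + V) * A ^ 2 * (x ^ 2 - (x * β) ^ 2) := by ring
    have k2 : 0 ≤ (A ^ 2 + V) * A ^ 2 * (x ^ 2 - (x * β) ^ 2) :=
      mul_nonneg (by positivity) (by linarith)
    have k3 := sq_nonneg (p * V + x * β * A ^ 2)
    linarith
  have hS1 : 1 ≤ S := by
    rw [hS, one_le_div hμ]
    linarith
  have hSμ : μ + κ = μ * S := by
    rw [hS]
    field_simp
    ring
  have hSκ : κ = μ * (S - 1) := by linarith
  have e13 : A ^ 2 + vr q ≤ S * A ^ 2 := by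
    have a1 : vr q ≤ μ * (S - 1) * mean q := by
      rw [← hSκ]
      exact hVle
    have a2 : μ * mean q ≤ A ^ 2 := by
      rw [hA]
      nlinarith
    have a3 : (S - 1) * (μ * mean q) ≤ (S - 1) * A ^ 2 :=
      mul_le_mul_of_nonneg_left a2 (by linarith)
    linarith
  have e14 : vr q / S * (α - β) ^ 2 ≤ (1 - s) ^ 2 * A ^ 2 + (α - s * β) ^ 2 * vr q := by
    have hA2 : 0 < A ^ 2 := by positivity
    have hq0 : 0 ≤ (1 - s) ^ 2 * A ^ 2 + (α - s * β) ^ 2 * vr q := by positivity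
    have a1 := mul_le_mul_of_nonneg_right e13 hq0
    have a2 : A ^ 2 * (vr q * (α - β) ^ 2) ≤
        A ^ 2 * (S * ((1 - s) ^ 2 * A ^ 2 + (α - s * β) ^ 2 * vr q)) := by linarith
    have a3 := le_of_mul_le_mul_left a2 hA2
    rw [div_mul_eq_mul_div, div_le_iff₀ (by linarith)]
    linarith
  -- conclusion
  have e15 : vr q / S * (α - β) ^ 2 / (μ * S) ^ 3 ≤ (c + (α - β) * J) - c ^ 2 / b := by
    rw [← e6, e2, ← hSμ]
    exact (div_le_div_of_nonneg_right e14 (by positivity)).trans e7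
  have hc2 : c ^ 2 ≤ (1 / μ) ^ 2 := pow_le_pow_left₀ hc.le hcl 2
  have e16 : vr q / (μ * S ^ 4) * (α - β) ^ 2 * c ^ 2 ≤
      vr q / S * (α - β) ^ 2 / (μ * S) ^ 3 := by
    have a1 : 0 ≤ vr q / (μ * S ^ 4) * (α - β) ^ 2 := by positivity
    refine (mul_le_mul_of_nonneg_left hc2 a1).trans (le_of_eq ?_)
    field_simp
  have e17 : 1 / c + (α - β) * (J / c ^ 2) - vr q / (μ * S ^ 4) * (α - β) ^ 2 =
      (c + (α - β) * J - vr q / (μ * S ^ 4) * (α - β) ^ 2 * c ^ 2) / c ^ 2 := by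
    field_simp
  rw [e17, le_div_iff₀ (by positivity)]
  have e18 : 1 / b * c ^ 2 = c ^ 2 / b := by ring
  rw [e18]
  linarith

/-- the speed of the limit model increases; strong version -/
theorem ww_diff' (hlo : 0 ≤ lo) (hκ : 0 < κ) (hμ : 0 < μ) {S : ℝ} (hS : S = (κ + μ) / μ)
    {α β : ℝ} (h0 : 0 ≤ α) (hαβ : α ≤ β) (hβ : β < 1) :
    (β - α) * (cD μ q + vr q / (μ * S ^ 4) * (1 - α)) ≤ ww μ q β - ww μ q α := by
  have h0' : 0 ≤ β := h0.trans hαβ
  have t1 := tangent' (q := q) hlo hκ hμ hS h0 (hαβ.trans hβ.le) h0' hβ.le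
  have t2 := tangent' (q := q) hlo hκ hμ hS zero_le_one le_rfl h0' hβ.le
  have t3 := tangent' (q := q) hlo hκ hμ hS h0' hβ.le zero_le_one le_rfl
  have hS1 : 1 ≤ S := by
    rw [hS, one_le_div hμ]
    linarith
  have hK0 : 0 ≤ vr q / (μ * S ^ 4) := div_nonneg vr_nonneg (by positivity)
  set K := vr q / (μ * S ^ 4) with hK
  set Db := Dv μ q β
  set D1 := Dv μ q 1 with hD1
  have h2 : D1 + 2 * K * (1 - β) ≤ Db := by
    have h3 : (1 - β) * (D1 + 2 * K * (1 - β)) ≤ (1 - β) * Db := by nlinarith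
    exact le_of_mul_le_mul_left h3 (by linarith)
  have h4 : cD μ q = mean q + D1 := rfl
  rw [h4]
  unfold ww
  have h5 := mul_le_mul_of_nonneg_left h2 (by linarith : 0 ≤ β - α)
  have h6 : 0 ≤ K * ((β - α) * (1 - β)) :=
    mul_nonneg hK0 (mul_nonneg (by linarith) (by linarith))
  nlinarith

/-- the slope -/
theorem slope (hlo : 0 ≤ lo) (hκ : 0 < κ) (hμ : 0 < μ) {S : ℝ} (hS : S = (κ + μ) / μ)
    {η : ℝ} (hη : 0 < η) (hm : η * κ ≤ mean q) (hcD : 0 ≤ cD μ q) {α : ℝ} (h0 : 0 ≤ α)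
    (hα : α ≤ 1) : η * κ / (4 * S ^ 7) * (1 - α) ≤ cD μ q + vr q / (μ * S ^ 4) * (1 - α) := by
  have hS1 : 1 ≤ S := by
    rw [hS, one_le_div hμ]
    linarith
  have hV0 := vr_nonneg (q := q)
  have hm0 : 0 < mean q := lt_of_lt_of_le (by positivity) hm
  have hSμ : μ + κ = μ * S := by
    rw [hS]
    field_simp
    ring
  have h1a : 0 ≤ 1 - α := by linarith
  by_cases hV : mean q * μ / (4 * S ^ 3) ≤ vr q
  · have e1 : η * κ / (4 * S ^ 7) ≤ vr q / (μ * S ^ 4) := by
      rw [div_le_div_iff₀ (by positivity) (by positivity)]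
      rw [div_le_iff₀ (by positivity)] at hV
      calc η * κ * (μ * S ^ 4) ≤ mean q * (μ * S ^ 4) :=
            mul_le_mul_of_nonneg_right hm (by positivity)
        _ = (mean q * μ) * S ^ 4 := by ring
        _ ≤ (vr q * (4 * S ^ 3)) * S ^ 4 := mul_le_mul_of_nonneg_right hV (by positivity)
        _ = vr q * (4 * S ^ 7) := by ring
    have := mul_le_mul_of_nonneg_right e1 h1a
    linarith
  · rw [not_le] at hV
    -- the slope at `1`
    have hc := h1_pos (q := q) hlo hκ hμ zero_le_one le_rfl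
    have hcg := h1_ge (q := q) hlo hμ zero_le_one le_rfl
    have hXb : ∀ w : Set.Icc lo κ, 0 < X μ q 1 w := fun w =>
      lt_of_lt_of_le hμ (X_ge (μ := μ) (q := q) hlo zero_le_one le_rfl w)
    have i3 : Integrable (fun w : Set.Icc lo κ => ((w : ℝ) - mean q) / X μ q 1 w ^ 2) q := by
      refine cont_int (f := fun w => (w - mean q) / X μ q 1 w ^ 2) (ContinuousOn.div (by fun_prop)
        ((X_cont 1).continuousOn.pow 2) fun w hw => ?_)
      exact pow_ne_zero 2 (hXb ⟨w, hw⟩).ne'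
    set J := ∫ w : Set.Icc lo κ, ((w : ℝ) - mean q) / X μ q 1 w ^ 2 ∂q with hJ
    have hJl : -(vr q * (2 * (μ + κ) / μ ^ 4)) ≤ J := by
      have e2 : ∀ w : Set.Icc lo κ, 1 / (μ + mean q) ^ 2 * ((w : ℝ) - mean q) +
          -(2 * (μ + κ) / μ ^ 4) * ((w : ℝ) - mean q) ^ 2 ≤
          ((w : ℝ) - mean q) / X μ q 1 w ^ 2 := by
        intro w
        have hX1 : X μ q 1 w = μ + w := by
          unfold X
          ring
        have hw0 : 0 ≤ (w : ℝ) := hlo.trans w.2.1
        have hw1 : (w : ℝ) ≤ κ := w.2.2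
        have hmle := mean_le (q := q)
        rw [hX1]
        set m := mean q
        have hmw : 0 < μ + (w : ℝ) := by linarith
        have hmm : 0 < μ + m := by linarith
        have e3 : ((w : ℝ) - m) / (μ + w) ^ 2 - 1 / (μ + m) ^ 2 * ((w : ℝ) - m) =
            -(((w : ℝ) - m) ^ 2 * ((2 * μ + w + m) / ((μ + w) ^ 2 * (μ + m) ^ 2))) := by
          field_simp
          ring
        have e4 : (2 * μ + w + m) / ((μ + w) ^ 2 * (μ + m) ^ 2) ≤ 2 * (μ + κ) / μ ^ 4 := by
          apply div_le_div₀ (by positivity) (by linarith) (by positivity)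
          calc μ ^ 4 = μ ^ 2 * μ ^ 2 := by ring
            _ ≤ (μ + w) ^ 2 * (μ + m) ^ 2 := by
              gcongr
              · linarith
              · linarith
        have e5 := mul_le_mul_of_nonneg_left e4 (sq_nonneg ((w : ℝ) - m))
        linarith
      have j1 : Integrable (fun w : Set.Icc lo κ => 1 / (μ + mean q) ^ 2 * ((w : ℝ) - mean q)) q :=
        lin_int.const_mul _
      have e6 := integral_mono (j1.add (sq_int.const_mul (-(2 * (μ + κ) / μ ^ 4)))) i3 e2
      have e7 : ∫ w : Set.Icc lo κ, (1 / (μ + mean q) ^ 2 * ((w : ℝ) - mean q) +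
          -(2 * (μ + κ) / μ ^ 4) * ((w : ℝ) - mean q) ^ 2) ∂q =
          -(vr q * (2 * (μ + κ) / μ ^ 4)) := by
        rw [integral_add j1 (sq_int.const_mul _), integral_const_mul, integral_const_mul,
          lin_zero]
        have : ∫ w : Set.Icc lo κ, ((w : ℝ) - mean q) ^ 2 ∂q = vr q := rfl
        rw [this]
        ring
      have e8 : ∫ w : Set.Icc lo κ, (1 / (μ + mean q) ^ 2 * ((w : ℝ) - mean q) +
          -(2 * (μ + κ) / μ ^ 4) * ((w : ℝ) - mean q) ^ 2) ∂q ≤ J := e6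
      rw [e7] at e8
      exact e8
    have e9 : cD μ q = mean q + J / h1 μ q 1 ^ 2 := rfl
    have e10 : mean q / 2 ≤ cD μ q := by
      rw [e9]
      have a0 : 0 < μ + κ := by positivity
      have a1 : 1 / h1 μ q 1 ^ 2 ≤ (μ + κ) ^ 2 := by
        rw [div_le_iff₀ (by positivity)]
        rw [div_le_iff₀ a0] at hcg
        have : (1 : ℝ) ≤ (h1 μ q 1 * (μ + κ)) ^ 2 := one_le_pow₀ hcg
        calc (1 : ℝ) ≤ (h1 μ q 1 * (μ + κ)) ^ 2 := this
          _ = (μ + κ) ^ 2 * h1 μ q 1 ^ 2 := by ring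
      have a2 : J / h1 μ q 1 ^ 2 = J * (1 / h1 μ q 1 ^ 2) := by ring
      have a3 : 0 ≤ 1 / h1 μ q 1 ^ 2 := by positivity
      have a4 := mul_le_mul_of_nonneg_right hJl a3
      have a5 : vr q * (2 * (μ + κ) / μ ^ 4) * (1 / h1 μ q 1 ^ 2) ≤
          vr q * (2 * (μ + κ) / μ ^ 4) * (μ + κ) ^ 2 :=
        mul_le_mul_of_nonneg_left a1 (by positivity)
      have a6 : vr q * (2 * (μ + κ) / μ ^ 4) * (μ + κ) ^ 2 = vr q * (2 * S ^ 3 / μ) := by
        rw [hSμ]
        field_simp
      have a7 : vr q * (2 * S ^ 3 / μ) ≤ mean q / 2 := by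
        rw [lt_div_iff₀ (by positivity)] at hV
        rw [← mul_div_assoc, div_le_iff₀ hμ]
        linarith
      rw [a2]
      linarith
    have e11 : η * κ / (4 * S ^ 7) * (1 - α) ≤ mean q / 2 := by
      have a1 : (1 : ℝ) ≤ S ^ 7 := one_le_pow₀ hS1
      have a2 : η * κ / (4 * S ^ 7) ≤ η * κ / 4 := by
        apply div_le_div_of_nonneg_left (by positivity) (by norm_num)
        linarith
      have a3 : η * κ / (4 * S ^ 7) * (1 - α) ≤ η * κ / (4 * S ^ 7) * 1 :=
        mul_le_mul_of_nonneg_left (by linarith) (by positivity)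
      have : 0 < η * κ := by positivity
      linarith
    have e12 : 0 ≤ vr q / (μ * S ^ 4) * (1 - α) :=
      mul_nonneg (div_nonneg hV0 (by positivity)) h1a
    linarith

end Pool.Agent.NVB
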