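import Pool.Agent.NVB.Fs5
import Pool.Agent.NVB.Lm2

/-!
# Monotonicity of the speed in high dimension up to `D = 0`
-/

set_option autoImplicit false

namespace Pool.Agent.NVB

open MeasureTheory ProbabilityTheory Filter Topology
open scoped Classical ENNReal

/-- the monotonicity in high dimension -/
theorem core2 {B η : ℝ} (hB : 0 < B) (hη : 0 < η) : ∃ d0 : ℕ, ∀ (d : ℕ), d0 ≤ d →
    ∀ (lo κ μ : ℝ) (q : Measure (Set.Icc lo κ)) [IsProbabilityMeasure q], 0 ≤ lo → 0 < κ →
      0 < μ → κ ≤ B * μ → η * κ ≤ mean q → 0 ≤ cD μ q → ∀ l l' : ℝ, 0 ≤ l → l < l' →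
      ∀ Λ Λ' : ℝ, Tendsto (fun n : ℕ => av d μ q l n / n) atTop (𝓝 Λ) →
      Tendsto (fun n : ℕ => av d μ q l' n / n) atTop (𝓝 Λ') → Λ < Λ' := by
  obtain ⟨ρ, c, hρ0, hρ1, hc0, hc1, hmix⟩ := mix1 hB
  have hρ' : 0 < 1 - ρ := by linarith
  set T := B + 1 with hT
  have hT1 : 1 ≤ T := by linarith
  have hT0 : 0 < T := by linarith
  set a := η / (4 * T ^ 7) with ha
  have ha0 : 0 < a := by positivity
  set C1 := T ^ 7 * (5742 + 11448 * (1 / (1 - ρ))) with hC1
  have hC10 : 0 < C1 := by positivity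
  set C3 := T ^ 2 * (2 + 17 * (1 / (1 - ρ))) with hC3
  have hC30 : 0 < C3 := by positivity
  set t0 := 32 * C3 / a + 1 with ht0
  have ht01 : 1 < t0 := by
    rw [ht0]
    have : 0 < 32 * C3 / a := by positivity
    linarith
  obtain ⟨d0, hd0⟩ := exists_nat_ge (max (4 * C1 / a) (max (4 * C3 * (t0 + 1) / a) (64 * C3 / a)))
  refine ⟨max 1 d0, ?_⟩
  intro d hd lo κ μ q hq hlo hκ hμ hκμ hm hcD
  have hd1 : 1 ≤ d := (le_max_left _ _).trans hd
  have hdd : (d0 : ℝ) ≤ d := by exact_mod_cast (le_max_right _ _).trans hd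
  set n : ℝ := 2 * d with hn
  have hn0 : 0 < n := by
    have : (1 : ℝ) ≤ d := by exact_mod_cast hd1
    rw [hn]
    linarith
  have hnd : (d : ℝ) ≤ n := by
    have : (0 : ℝ) ≤ d := Nat.cast_nonneg d
    rw [hn]
    linarith
  have hn1 : 4 * C1 ≤ a * n := by
    have h1 : 4 * C1 / a ≤ n := ((le_max_left _ _).trans hd0).trans (hdd.trans hnd)
    rw [div_le_iff₀ ha0] at h1
    linarith
  have hn2 : 4 * C3 * (t0 + 1) ≤ a * n := by
    have h1 : 4 * C3 * (t0 + 1) / a ≤ n :=
      (((le_max_left _ _).trans (le_max_right _ _)).trans hd0).trans (hdd.trans hnd)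
    rw [div_le_iff₀ ha0] at h1
    linarith
  have hn3 : 64 * C3 ≤ a * n := by
    have h1 : 64 * C3 / a ≤ n :=
      (((le_max_right _ _).trans (le_max_right _ _)).trans hd0).trans (hdd.trans hnd)
    rw [div_le_iff₀ ha0] at h1
    linarith
  set S := (κ + μ) / μ with hS
  obtain ⟨hS1, hS2, _, _, _⟩ := S_facts hκ hμ hS
  have hST : S ≤ T := by
    have : κ / μ ≤ B := by
      rw [div_le_iff₀ hμ]
      exact hκμ
    linarith
  have hS0 : 0 < S := by linarith
  have hMc : ∀ l, Mc d μ q ρ c l := hmix d lo κ μ q hlo hκ hμ hκμ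
  -- the bound if the error is small
  have fin : ∀ l l' : ℝ, 0 ≤ l → l < l' →
      (p l (minus d) - p l' (minus d)) * (p l' (plus d) + 1 / Z d l') * C3 ≤
        (p l' (plus d) - p l (plus d)) * (a * (n * (1 / Z d l)) / 4) →
      ∀ Λ Λ' : ℝ, Tendsto (fun n : ℕ => av d μ q l n / n) atTop (𝓝 Λ) →
      Tendsto (fun n : ℕ => av d μ q l' n / n) atTop (𝓝 Λ') → Λ < Λ' := by
    intro l l' hl hll hsm Λ Λ' hΛ hΛ'
    have h1 := speed_diff2 (q := q) hlo hκ hμ hS hl hll.le hρ0.le hρ1 hc0.le hc1 (hMc l') hΛ hΛ'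
    have hdp : 0 < p l' (plus d) - p l (plus d) := by
      have := p_plus_lt (d := d) hl hll
      linarith
    have hdm := dm_nonneg (d := d) hl hll.le
    have hα0 := p_nonneg l (plus d)
    have hα1 := p_plus_le (d := d) l
    have h2 := ww_diff' (q := q) hlo hκ hμ hS hα0 (p_plus_lt hl hll).le
      (p_plus_lt_one (d := d) l')
    have h3 := slope (q := q) hlo hκ hμ hS hη hm hcD hα0 hα1
    have hz0 : 0 < 1 / Z d l := one_div_pos.2 (Z_pos l)
    have hz0' : 0 < 1 / Z d l' := one_div_pos.2 (Z_pos l')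
    have ha0' := p_nonneg l' (plus d)
    have hnz : n * (1 / Z d l) ≤ 1 - p l (plus d) := by
      have h4 := sum_p (d := d) l
      rw [sum_dir, lm_p] at h4
      have h5 := p_nonneg l (minus d)
      linarith
    set dp := p l' (plus d) - p l (plus d) with hdpd
    set dm := p l (minus d) - p l' (minus d) with hdmd
    set x := p l' (plus d) + 1 / Z d l' with hx
    set z := 1 / Z d l with hz
    have hx0 : 0 < x := by positivity
    have h4 : dp * (a * (n * z)) ≤ ww μ q (p l' (plus d)) / κ - ww μ q (p l (plus d)) / κ := by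
      rw [← sub_div, le_div_iff₀ hκ]
      refine le_trans ?_ h2
      rw [mul_assoc]
      apply mul_le_mul_of_nonneg_left _ hdp.le
      refine le_trans ?_ h3
      have e1 : a ≤ η / (4 * S ^ 7) := by
        rw [ha]
        apply div_le_div_of_nonneg_left hη.le (by positivity)
        gcongr
      calc a * (n * z) * κ ≤ (η / (4 * S ^ 7)) * (1 - p l (plus d)) * κ := by
            gcongr
        _ = η * κ / (4 * S ^ 7) * (1 - p l (plus d)) := by ring
    have h5 : err2 S ρ dp dm z x ≤ dp * (a * (n * z) / 4) + dp * (a * (n * z) / 4) := by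
      have e1 : err2 S ρ dp dm z x ≤ err2 T ρ dp dm z x := by
        unfold err2
        gcongr
      have e2 : err2 T ρ dp dm z x = dp * (z * C1) + dm * x * C3 := by
        unfold err2
        rw [hC1, hC3]
      have e3 : z * C1 ≤ a * (n * z) / 4 := by
        have := mul_le_mul_of_nonneg_left hn1 hz0.le
        linarith
      have e4 := mul_le_mul_of_nonneg_left e3 hdp.le
      linarith
    have h6 : 0 < dp * (a * (n * z)) := by positivity
    linarith
  -- the two cases
  have caseA : ∀ l l' : ℝ, 0 ≤ l → l < l' → Real.exp l' ≤ t0 →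
      (p l (minus d) - p l' (minus d)) * (p l' (plus d) + 1 / Z d l') * C3 ≤
        (p l' (plus d) - p l (plus d)) * (a * (n * (1 / Z d l)) / 4) := by
    intro l l' hl hll ht
    have hdp := dp_nonneg (d := d) hl hll.le
    have hdm := dm_le (d := d) hl hll.le
    have hdm0 := dm_nonneg (d := d) hl hll.le
    have hz0' : 0 < 1 / Z d l' := one_div_pos.2 (Z_pos l')
    have hz0 : 0 < 1 / Z d l := one_div_pos.2 (Z_pos l)
    have hzz := z_anti (d := d) hl hll.le
    have h1 : p l' (plus d) + 1 / Z d l' ≤ (t0 + 1) * (1 / Z d l) := by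
      rw [p_plus_val]
      have e1 : Real.exp l' / Z d l' = Real.exp l' * (1 / Z d l') := by ring
      rw [e1]
      have e2 : Real.exp l' * (1 / Z d l') ≤ t0 * (1 / Z d l) := by gcongr
      linarith
    have h2 : (t0 + 1) * (1 / Z d l) * C3 ≤ a * (n * (1 / Z d l)) / 4 := by
      have := mul_le_mul_of_nonneg_left hn2 hz0.le
      linarith
    have hx0 : 0 ≤ p l' (plus d) + 1 / Z d l' := add_nonneg (p_nonneg _ _) hz0'.le
    calc (p l (minus d) - p l' (minus d)) * (p l' (plus d) + 1 / Z d l') * C3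
        ≤ (p l' (plus d) - p l (plus d)) * ((t0 + 1) * (1 / Z d l)) * C3 := by gcongr
      _ = (p l' (plus d) - p l (plus d)) * ((t0 + 1) * (1 / Z d l) * C3) := by ring
      _ ≤ (p l' (plus d) - p l (plus d)) * (a * (n * (1 / Z d l)) / 4) := by gcongr
  have caseB : ∀ l l' : ℝ, 0 ≤ l → l < l' → t0 ≤ Real.exp l →
      (p l (minus d) - p l' (minus d)) * (p l' (plus d) + 1 / Z d l') * C3 ≤
        (p l' (plus d) - p l (plus d)) * (a * (n * (1 / Z d l)) / 4) := by
    intro l l' hl hll ht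
    have hdp := dp_nonneg (d := d) hl hll.le
    have hdm := dm_small hd1 hl hll.le
    have hdm0 := dm_nonneg (d := d) hl hll.le
    have hz0' : 0 < 1 / Z d l' := one_div_pos.2 (Z_pos l')
    have hZ1 : 1 / Z d l' ≤ 1 := by
      rw [div_le_one (Z_pos l'), Z_eq]
      have := Real.one_le_exp (hl.trans hll.le)
      have := Real.exp_pos (-l')
      have : (0 : ℝ) ≤ 2 * d := by positivity
      linarith
    have hx2 : p l' (plus d) + 1 / Z d l' ≤ 2 := by
      have := p_plus_le (d := d) l'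
      linarith
    have hx0 : 0 ≤ p l' (plus d) + 1 / Z d l' := add_nonneg (p_nonneg _ _) hz0'.le
    set t := Real.exp l with htd
    have ht0' : 0 < t := by linarith
    have hZt : Z d l ≤ n + 2 * t := by
      rw [Z_eq]
      have h3 : Real.exp (-l) ≤ Real.exp l := Real.exp_le_exp.2 (by linarith)
      rw [← htd] at h3 ⊢
      linarith
    have h2 : 2 / t * 2 * C3 ≤ a * (n * (1 / Z d l)) / 4 := by
      have h3 : 32 * C3 ≤ t * a := by
        have : 32 * C3 ≤ t0 * a := by
          rw [ht0]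
          field_simp
          linarith
        exact this.trans (mul_le_mul_of_nonneg_right ht ha0.le)
      have h4 : 16 * C3 * (n + 2 * t) ≤ a * n * t := by
        have e1 : 32 * C3 * n ≤ t * a * n := mul_le_mul_of_nonneg_right h3 hn0.le
        have e2 : 64 * C3 * t ≤ a * n * t := mul_le_mul_of_nonneg_right hn3 ht0'.le
        linarith
      have h5 : 16 * C3 * Z d l ≤ a * n * t :=
        (mul_le_mul_of_nonneg_left hZt (by positivity)).trans h4
      have hZp := Z_pos (d := d) l
      have e3 : 2 / t * 2 * C3 = 4 * C3 / t := by ring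
      have e4 : a * (n * (1 / Z d l)) / 4 = a * n / (4 * Z d l) := by
        field_simp
      rw [e3, e4, div_le_div_iff₀ ht0' (by positivity)]
      linarith
    calc (p l (minus d) - p l' (minus d)) * (p l' (plus d) + 1 / Z d l') * C3
        ≤ (2 / t * (p l' (plus d) - p l (plus d))) * 2 * C3 := by gcongr
      _ = (p l' (plus d) - p l (plus d)) * (2 / t * 2 * C3) := by ring
      _ ≤ (p l' (plus d) - p l (plus d)) * (a * (n * (1 / Z d l)) / 4) := by gcongr
  intro l l' hl hll Λ Λ' hΛ hΛ'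
  by_cases hA : Real.exp l' ≤ t0
  · exact fin l l' hl hll (caseA l l' hl hll hA) Λ Λ' hΛ hΛ'
  by_cases hBc : t0 ≤ Real.exp l
  · exact fin l l' hl hll (caseB l l' hl hll hBc) Λ Λ' hΛ hΛ'
  · rw [not_le] at hA hBc
    have ht0' : 0 < t0 := by linarith
    set l0 := Real.log t0 with hl0
    have e0 : Real.exp l0 = t0 := Real.exp_log ht0'
    have h1 : l < l0 := by
      rw [← e0] at hBc
      exact Real.exp_lt_exp.1 hBc
    have h2 : l0 < l' := by
      rw [← e0] at hA
      exact Real.exp_lt_exp.1 hA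
    have h3 : 0 ≤ l0 := hl.trans h1.le
    obtain ⟨Λ0, hΛ0, _⟩ := speed_gen (d := d) (q := q) hlo hκ hμ l0
    have h4 := fin l l0 hl h1 (caseA l l0 hl h1 e0.le) Λ Λ0 hΛ hΛ0
    have h5 := fin l0 l' h3 h2 (caseB l0 l' h3 h2 e0.ge) Λ0 Λ' hΛ0 hΛ'
    exact h4.trans h5

end Pool.Agent.NVB
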