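import Mathlib.Probability.ProductMeasure
import Mathlib.Probability.Distributions.Exponential
import Mathlib.Analysis.SpecialFunctions.Trigonometric.DerivHyp

/-!
# The normalised variable speed biased random walk among dynamical conductances

The walk on `ℤ^(d+1)` among dynamical conductances with values in `[lo, κ]`: every edge has its own
clock, which rings at the points of a Poisson process of rate `μ` (i.i.d. exponential waiting times),
and at every ring it gets a new conductance of law `q`.  The walk with bias `l` in the first
coordinate direction jumps at time `t` from `x` to `x + y` at rate `ω_t({x, x+y}) exp (l y₁) / Z_l`: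
it attempts to jump at the points of a Poisson process of rate `κ`; an attempt has the direction `y`
with probability `exp (l y₁) / Z_l` and succeeds with probability `ω_t({x, x+y}) / κ`.
-/

set_option autoImplicit false

namespace Pool.Agent.NVB

open MeasureTheory ProbabilityTheory Filter Topology

/-- the vertices of `ℤ^(d+1)` -/
abbrev Site (d : ℕ) : Type := Fin (d + 1) → ℤ

/-- the nearest neighbour edges; `(x, i)` is the edge between `x` and `x + e_i` -/
abbrev Edge (d : ℕ) : Type := Site d × Fin (d + 1)

/-- the directions; `(i, true)` is `e_i` and `(i, false)` is `-e_i` -/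
abbrev Dir (d : ℕ) : Type := Fin (d + 1) × Bool

/-- the unit vector of a direction -/
def vec {d : ℕ} (y : Dir d) : Site d := Pi.single y.1 (if y.2 then 1 else -1)

/-- the edge between `x` and `x + vec y` -/
def edge {d : ℕ} (x : Site d) (y : Dir d) : Edge d := if y.2 then (x, y.1) else (x + vec y, y.1)

/-- the normalisation `Z_l = 2 (d + 1) - 2 + exp l + exp (-l)` -/
noncomputable def Z (d : ℕ) (l : ℝ) : ℝ := ∑ y : Dir d, Real.exp (l * (vec y 0 : ℤ))

/-- the probability `exp (l y₁) / Z_l` of the direction `y` -/
noncomputable def p {d : ℕ} (l : ℝ) (y : Dir d) : ℝ := Real.exp (l * (vec y 0 : ℤ)) / Z d l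

/-- the law of the direction of an attempt -/
noncomputable def dirLaw (d : ℕ) (l : ℝ) : Measure (Dir d) :=
  ∑ y : Dir d, ENNReal.ofReal (p l y) • Measure.dirac y

/-- environments with conductances in `[lo, κ]` -/
abbrev Env (d : ℕ) (lo κ : ℝ) : Type := Edge d → Set.Icc lo κ

/-- an attempt: direction and a uniform random number -/
abbrev Att (d : ℕ) : Type := Dir d × ℝ

/-- the position after the attempt `a` from `x` in the environment `η`: the attempt succeeds if
`κ u < η`, so with probability `η / κ` -/
noncomputable def jump {d : ℕ} {lo κ : ℝ} (η : Env d lo κ) (x : Site d) (a : Att d) : Site d :=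
  if κ * a.2 < η (edge x a.1) then x + vec a.1 else x

/-- the law of an attempt: the direction and an independent uniform random number of `[0,1]` -/
noncomputable def attLaw (d : ℕ) (l : ℝ) : Measure (Att d) :=
  (dirLaw d l).prod (volume.restrict (Set.Icc (0 : ℝ) 1))

/-- the clock of an edge: the waiting times and the new values -/
abbrev Clock (lo κ : ℝ) : Type := ℕ → ℝ × Set.Icc lo κ

/-- the time of the `n`-th ring -/
noncomputable def ringTime {lo κ : ℝ} (c : Clock lo κ) (n : ℕ) : ℝ :=
  ∑ j ∈ Finset.range n, (c j).1

/-- the number of the rings up to the time `t` -/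
noncomputable def rings {lo κ : ℝ} (c : Clock lo κ) (t : ℝ) : ℕ :=
  sInf {n : ℕ | t < ringTime c (n + 1)}

/-- the conductance at time `t` of an edge with initial value `v` and clock `c`: the value of the
last ring up to the time `t`, or `v` if there is none -/
noncomputable def val {lo κ : ℝ} (v : Set.Icc lo κ) (c : Clock lo κ) (t : ℝ) : Set.Icc lo κ :=
  if rings c t = 0 then v else (c (rings c t - 1)).2

/-- the sample space: the initial environment, the clocks of the edges, and the sequence of the
waiting times between the attempts of the walk and of the attempts -/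
abbrev Sample (d : ℕ) (lo κ : ℝ) : Type :=
  Env d lo κ × (Edge d → Clock lo κ) × (ℕ → ℝ × Att d)

/-- the law: everything is independent; the initial conductances and the new values have the law `q`,
the waiting times of the clocks of the edges are exponential of rate `μ`, the waiting times between
the attempts are exponential of rate `κ` -/
noncomputable def law (d : ℕ) {lo κ : ℝ} (μ : ℝ) (q : Measure (Set.Icc lo κ)) (l : ℝ) :
    Measure (Sample d lo κ) :=
  (Measure.infinitePi fun _ : Edge d => q).prod
    ((Measure.infinitePi fun _ : Edge d => Measure.infinitePi fun _ : ℕ =>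
      (expMeasure μ).prod q).prod
      (Measure.infinitePi fun _ : ℕ => (expMeasure κ).prod (attLaw d l)))

/-- the dynamical conductances at time `t` -/
noncomputable def cond {d : ℕ} {lo κ : ℝ} (w : Sample d lo κ) (t : ℝ) : Env d lo κ :=
  fun e => val (w.1 e) (w.2.1 e) t

/-- the time of the `n`-th attempt -/
noncomputable def time {d : ℕ} {lo κ : ℝ} (w : Sample d lo κ) (n : ℕ) : ℝ :=
  ∑ k ∈ Finset.range n, (w.2.2 k).1

/-- the position after `n` attempts -/
noncomputable def path {d : ℕ} {lo κ : ℝ} (w : Sample d lo κ) : ℕ → Site d
  | 0 => 0
  | n + 1 => jump (cond w (time w (n + 1))) (path w n) (w.2.2 n).2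

/-- the position of the walk at time `t`: the position after all attempts up to the time `t` -/
noncomputable def pos {d : ℕ} {lo κ : ℝ} (w : Sample d lo κ) (t : ℝ) : Site d :=
  path w (sSup {n : ℕ | time w n ≤ t})

/-- `v` is the speed: almost surely `X_t · e₁ / t → v` -/
def IsSpeed (d : ℕ) {lo κ : ℝ} (μ : ℝ) (q : Measure (Set.Icc lo κ)) (l v : ℝ) : Prop :=
  ∀ᵐ w ∂law d μ q l, Tendsto (fun t : ℝ => ((pos w t 0 : ℤ) : ℝ) / t) atTop (𝓝 v)

end Pool.Agent.NVB
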