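import Pool.Agent.NVB.Walk

/-!
# The expected displacement after `n` attempts
-/

set_option autoImplicit false

namespace Pool.Agent.NVB

open MeasureTheory ProbabilityTheory Filter Topology
open scoped Classical ENNReal

variable {d : ℕ} {lo κ : ℝ} {μ : ℝ} {q : Measure (Set.Icc lo κ)} [IsProbabilityMeasure q]

theorem edge_shift (x : Site d) (y : Dir d) : ((edge 0 y).1 + x, (edge 0 y).2) = edge x y := by
  unfold edge
  split_ifs
  · simp
  · simp [add_comm]

theorem acc_sh (x : Site d) (y : Dir d) (ζ : Env d lo κ) :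
    acc y (sh x ζ) = (ζ (edge x y) : ℝ) / κ := by
  unfold acc
  have h : sh x ζ (edge 0 y) = ζ (edge x y) := by
    unfold sh
    rw [edge_shift]
  rw [h]

theorem K_sh (l : ℝ) (f : Env d lo κ → ℝ) (x : Site d) (ζ : Env d lo κ) :
    ∑ y : Dir d, p l y * ((ζ (edge x y) : ℝ) / κ *
      ((((x + vec y) 0 : ℤ) : ℝ) + f (sh (x + vec y) ζ)) +
      (1 - (ζ (edge x y) : ℝ) / κ) * (((x 0 : ℤ) : ℝ) + f (sh x ζ))) =
    ((x 0 : ℤ) : ℝ) + K l f (sh x ζ) := by
  have h : ((x 0 : ℤ) : ℝ) = ∑ y : Dir d, p l y * ((x 0 : ℤ) : ℝ) := by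
    rw [← Finset.sum_mul, sum_p, one_mul]
  have h2 : ((x 0 : ℤ) : ℝ) + K l f (sh x ζ) =
      (∑ y : Dir d, p l y * ((x 0 : ℤ) : ℝ)) + K l f (sh x ζ) := by rw [← h]
  rw [h2]
  unfold K
  rw [← Finset.sum_add_distrib]
  refine Finset.sum_congr rfl fun y _ => ?_
  rw [acc_sh, sh_add, add_comm (vec y) x]
  have h1 : ((x + vec y) 0 : ℤ) = x 0 + vec y 0 := rfl
  rw [h1]
  push_cast
  ring

theorem measurable_sh_joint {f : Env d lo κ → ℝ} (hf : Measurable f) :
    Measurable fun t : Site d × Env d lo κ => f (sh t.1 t.2) :=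
  measurable_from_prod_countable_right fun x => hf.comp (measurable_sh x)

theorem measurable_first : Measurable fun t : Site d × Env d lo κ => ((t.1 0 : ℤ) : ℝ) :=
  (measurable_of_countable fun x : Site d => ((x 0 : ℤ) : ℝ)).comp measurable_fst

/-- one step -/
theorem stp_mean (hlo : 0 ≤ lo) (hκ : 0 < κ) (hμ : 0 < μ) (l : ℝ) {f : Env d lo κ → ℝ}
    (hf : Good f) (s : Site d × Env d lo κ) :
    ∫ i, ((((stp s i).1 0 : ℤ) : ℝ) + f (sh (stp s i).1 (stp s i).2)) ∂inpLaw d μ q l =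
      ((s.1 0 : ℤ) : ℝ) + G μ q (K l f) (sh s.1 s.2) := by
  have hp := gap_prob (d := d) (q := q) hκ hμ
  obtain ⟨C, hC⟩ := hf.bdd
  have hm : Measurable fun i : Gap d lo κ × Att d =>
      ((((stp s i).1 0 : ℤ) : ℝ) + f (sh (stp s i).1 (stp s i).2)) := by
    have h1 : Measurable fun i : Gap d lo κ × Att d => stp s i :=
      measurable_stp.comp (measurable_const.prodMk measurable_id)
    exact (measurable_first.comp h1).add ((measurable_sh_joint hf.meas).comp h1)
  have hb : ∀ i : Gap d lo κ × Att d,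
      |(((stp s i).1 0 : ℤ) : ℝ) + f (sh (stp s i).1 (stp s i).2)| ≤
        |((s.1 0 : ℤ) : ℝ)| + 1 + C := by
    intro i
    have h1 := jump_abs (ref i.1 s.2) s.1 i.2
    have h2 : (stp s i).1 = jump (ref i.1 s.2) s.1 i.2 := rfl
    rw [h2]
    have h3 := hC (sh (jump (ref i.1 s.2) s.1 i.2) (stp s i).2)
    have h4 := abs_add_le (((jump (ref i.1 s.2) s.1 i.2 0 : ℤ) : ℝ))
      (f (sh (jump (ref i.1 s.2) s.1 i.2) (stp s i).2))
    have h5 := abs_sub_abs_le_abs_sub (((jump (ref i.1 s.2) s.1 i.2 0 : ℤ) : ℝ))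
      ((s.1 0 : ℤ) : ℝ)
    linarith
  rw [integral_prod _ (Integrable.of_bound hm.aestronglyMeasurable _ (Eventually.of_forall hb))]
  have h1 : ∀ z : Gap d lo κ, ∫ a, ((((stp s (z, a)).1 0 : ℤ) : ℝ) +
      f (sh (stp s (z, a)).1 (stp s (z, a)).2)) ∂attLaw d l =
      ((s.1 0 : ℤ) : ℝ) + K l f (sh s.1 (ref z s.2)) := by
    intro z
    have h2 := integral_att hlo hκ l (ref z s.2) s.1
      fun x => ((x 0 : ℤ) : ℝ) + f (sh x (ref z s.2))
    rw [K_sh] at h2
    exact h2
  rw [integral_congr_ae (Eventually.of_forall h1)]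
  have hK := hf.K l
  obtain ⟨C', hC'⟩ := hK.bdd
  rw [integral_add (integrable_const _)]
  · rw [G_shift hκ hμ s.1 hK]
    simp
  · exact Integrable.of_bound ((hK.meas.comp (measurable_sh s.1)).comp
      (measurable_ref_left s.2)).aestronglyMeasurable C' (Eventually.of_forall fun z => hC' _)

instance inp_prob [Fact (0 < κ)] [Fact (0 < μ)] (l : ℝ) :
    IsProbabilityMeasure (inpLaw d μ q l) := by
  have := gap_prob (d := d) (q := q) (Fact.out : 0 < κ) (Fact.out : 0 < μ)
  infer_instance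

/-- the law of the sequence of the gaps and attempts -/
noncomputable abbrev seqLaw (d : ℕ) (μ : ℝ) (q : Measure (Set.Icc lo κ)) (l : ℝ) :
    Measure (ℕ → Gap d lo κ × Att d) :=
  Measure.infinitePi fun _ : ℕ => inpLaw d μ q l

theorem run_bdd (s : Site d × Env d lo κ) (i : ℕ → Gap d lo κ × Att d) (n : ℕ) :
    |(((run s i n).1 0 : ℤ) : ℝ)| ≤ |((s.1 0 : ℤ) : ℝ)| + n := by
  have h1 := run_abs s i n
  have h2 := abs_sub_abs_le_abs_sub ((((run s i n).1 0 : ℤ) : ℝ)) ((s.1 0 : ℤ) : ℝ)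
  linarith

theorem run_mean (hlo : 0 ≤ lo) [hκ : Fact (0 < κ)] [hμ : Fact (0 < μ)] (l : ℝ) (n : ℕ)
    (s : Site d × Env d lo κ) :
    ∫ i, (((run s i n).1 0 : ℤ) : ℝ) ∂seqLaw d μ q l =
      ((s.1 0 : ℤ) : ℝ) + Φ μ q l n (sh s.1 s.2) := by
  induction n generalizing s with
  | zero =>
    unfold run Φ
    simp
  | succ n ih =>
    have hm0 : Measurable fun t : (Gap d lo κ × Att d) × (ℕ → Gap d lo κ × Att d) =>
        (fun n : ℕ => Nat.casesOn n t.1 t.2 : ℕ → Gap d lo κ × Att d) := by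
      refine measurable_pi_lambda _ fun n => ?_
      cases n with
      | zero => exact measurable_fst
      | succ n => exact (measurable_pi_apply n).comp measurable_snd
    have hm1 : Measurable fun i : ℕ → Gap d lo κ × Att d =>
        (((run s i (n + 1)).1 0 : ℤ) : ℝ) :=
      measurable_first.comp ((measurable_run (n + 1)).comp (measurable_const.prodMk measurable_id))
    have h1 : ∫ i, (((run s i (n + 1)).1 0 : ℤ) : ℝ) ∂seqLaw d μ q l =
        ∫ t, (((run (stp s t.1) t.2 n).1 0 : ℤ) : ℝ) ∂(inpLaw d μ q l).prod (seqLaw d μ q l) := by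
      have h0 := congrArg (fun m : Measure (ℕ → Gap d lo κ × Att d) =>
        ∫ i, (((run s i (n + 1)).1 0 : ℤ) : ℝ) ∂m) (seq_split (inpLaw d μ q l)).symm
      refine h0.trans ?_
      rw [integral_map hm0.aemeasurable hm1.aestronglyMeasurable]
      refine integral_congr_ae (Eventually.of_forall fun t => ?_)
      beta_reduce
      rw [run_succ]
      rfl
    have hm2 : Measurable fun t : (Gap d lo κ × Att d) × (ℕ → Gap d lo κ × Att d) =>
        (((run (stp s t.1) t.2 n).1 0 : ℤ) : ℝ) :=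
      measurable_first.comp ((measurable_run n).comp
        ((measurable_stp.comp (measurable_const.prodMk measurable_fst)).prodMk measurable_snd))
    have hb : ∀ t : (Gap d lo κ × Att d) × (ℕ → Gap d lo κ × Att d),
        |(((run (stp s t.1) t.2 n).1 0 : ℤ) : ℝ)| ≤ |((s.1 0 : ℤ) : ℝ)| + 1 + n := by
      intro t
      have g1 := run_bdd (stp s t.1) t.2 n
      have g2 := jump_abs (ref t.1.1 s.2) s.1 t.1.2
      have g3 := abs_sub_abs_le_abs_sub (((jump (ref t.1.1 s.2) s.1 t.1.2 0 : ℤ) : ℝ))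
        ((s.1 0 : ℤ) : ℝ)
      have g4 : (stp s t.1).1 = jump (ref t.1.1 s.2) s.1 t.1.2 := rfl
      rw [g4] at g1
      linarith
    rw [h1, integral_prod _ (Integrable.of_bound hm2.aestronglyMeasurable _
      (Eventually.of_forall hb))]
    have h2 : ∀ a : Gap d lo κ × Att d,
        ∫ i, (((run (stp s a) i n).1 0 : ℤ) : ℝ) ∂seqLaw d μ q l =
          (((stp s a).1 0 : ℤ) : ℝ) + Φ μ q l n (sh (stp s a).1 (stp s a).2) := fun a => ih _
    rw [integral_congr_ae (Eventually.of_forall h2),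
      stp_mean hlo hκ.out hμ.out l (Good.Φ hκ.out hμ.out l n) s]
    rfl

end Pool.Agent.NVB
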