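import Pool.Agent.NVB.Limit
import Pool.Agent.NVB.Cone

/-!
# Existence of the speed for all parameters
-/

set_option autoImplicit false

namespace Pool.Agent.NVB

open MeasureTheory ProbabilityTheory Filter Topology
open scoped Classical ENNReal

variable {d : ℕ} {lo κ : ℝ} {μ : ℝ} {q : Measure (Set.Icc lo κ)} [IsProbabilityMeasure q]

theorem mn_step_g (hlo : 0 ≤ lo) (hκ : 0 < κ) (hμ : 0 < μ) {l o : ℝ}
    (ho : ∀ (n : ℕ) (η η' : Env d lo κ), |Φ μ q l n η' - Φ μ q l n η| ≤ o) (n : ℕ) (s : Site d × Env d lo κ) (i : Gap d lo κ × Att d) :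
    (mn μ q l n (stp s i) - mn μ q l (n + 1) s) ^ 2 ≤ (2 + o) ^ 2 := by
  have h1 := jump_abs (ref i.1 s.2) s.1 i.2
  have h2 : (stp s i).1 = jump (ref i.1 s.2) s.1 i.2 := rfl
  have h3 := ho n (sh s.1 s.2) (sh (stp s i).1 (stp s i).2)
  have h4 := Φ_succ_sub (q := q) hlo hκ hμ l n (sh s.1 s.2)
  unfold mn
  rw [h2] at h3 ⊢
  rw [abs_le] at h1 h3 h4
  set A := (((jump (ref i.1 s.2) s.1 i.2 0 : ℤ) : ℝ))
  set B := ((s.1 0 : ℤ) : ℝ)
  set C := Φ μ q l n (sh (jump (ref i.1 s.2) s.1 i.2) (stp s i).2)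
  set E := Φ μ q l n (sh s.1 s.2)
  set F := Φ μ q l (n + 1) (sh s.1 s.2)
  have h5 : |A + C - (B + F)| ≤ 2 + o := by
    rw [abs_le]
    constructor <;> linarith [h1.1, h1.2, h3.1, h3.2, h4.1, h4.2]
  rw [← sq_abs]
  exact pow_le_pow_left₀ (abs_nonneg _) h5 2

theorem sq_bound_g (hlo : 0 ≤ lo) [hκ : Fact (0 < κ)] [hμ : Fact (0 < μ)] {l o : ℝ}
    (ho : ∀ (n : ℕ) (η η' : Env d lo κ), |Φ μ q l n η' - Φ μ q l n η| ≤ o) (n : ℕ) (s : Site d × Env d lo κ) :
    sq μ q l n s (mn μ q l n s) ≤ (2 + o) ^ 2 * n := by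
  induction n generalizing s with
  | zero =>
    unfold sq mn run Φ
    simp
  | succ n ih =>
    set a := mn μ q l (n + 1) s with ha
    have hm1 : Measurable fun i : ℕ → Gap d lo κ × Att d =>
        ((((run s i (n + 1)).1 0 : ℤ) : ℝ) - a) ^ 2 :=
      ((first_meas s (n + 1)).sub_const a).pow_const 2
    have hm0 : Measurable fun t : (Gap d lo κ × Att d) × (ℕ → Gap d lo κ × Att d) =>
        (cns t.1 t.2 : ℕ → Gap d lo κ × Att d) := measurable_cns
    have h0 : ((inpLaw d μ q l).prod (seqLaw d μ q l)).map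
        (fun t : (Gap d lo κ × Att d) × (ℕ → Gap d lo κ × Att d) =>
          (cns t.1 t.2 : ℕ → Gap d lo κ × Att d)) = seqLaw d μ q l := seq_split _
    have h1 : sq μ q l (n + 1) s a = ∫ t : (Gap d lo κ × Att d) × (ℕ → Gap d lo κ × Att d),
        ((((run (stp s t.1) t.2 n).1 0 : ℤ) : ℝ) - a) ^ 2
        ∂(inpLaw d μ q l).prod (seqLaw d μ q l) := by
      unfold sq
      rw [← h0, integral_map hm0.aemeasurable hm1.aestronglyMeasurable, h0]
      refine integral_congr_ae (Eventually.of_forall fun t => ?_)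
      beta_reduce
      rw [run_succ]
      rfl
    have hm2 : Measurable fun t : (Gap d lo κ × Att d) × (ℕ → Gap d lo κ × Att d) =>
        ((((run (stp s t.1) t.2 n).1 0 : ℤ) : ℝ) - a) ^ 2 := by
      have g : Measurable fun t : (Gap d lo κ × Att d) × (ℕ → Gap d lo κ × Att d) =>
          (((run (stp s t.1) t.2 n).1 0 : ℤ) : ℝ) :=
        measurable_first.comp ((measurable_run n).comp
          ((measurable_stp.comp (measurable_const.prodMk measurable_fst)).prodMk measurable_snd))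
      exact (g.sub_const a).pow_const 2
    have hb : ∀ t : (Gap d lo κ × Att d) × (ℕ → Gap d lo κ × Att d),
        |((((run (stp s t.1) t.2 n).1 0 : ℤ) : ℝ) - a) ^ 2| ≤
          (|((s.1 0 : ℤ) : ℝ)| + 1 + n + |a|) ^ 2 := by
      intro t
      have g1 := run_bdd (stp s t.1) t.2 n
      have g2 := jump_abs (ref t.1.1 s.2) s.1 t.1.2
      have g3 := abs_sub_abs_le_abs_sub (((jump (ref t.1.1 s.2) s.1 t.1.2 0 : ℤ) : ℝ))
        ((s.1 0 : ℤ) : ℝ)
      have g4 : (stp s t.1).1 = jump (ref t.1.1 s.2) s.1 t.1.2 := rfl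
      rw [g4] at g1
      rw [abs_pow]
      refine pow_le_pow_left₀ (abs_nonneg _) ?_ 2
      exact (abs_sub _ _).trans (add_le_add (by linarith) le_rfl)
    have hI : Integrable (fun t : (Gap d lo κ × Att d) × (ℕ → Gap d lo κ × Att d) =>
        ((((run (stp s t.1) t.2 n).1 0 : ℤ) : ℝ) - a) ^ 2)
        ((inpLaw d μ q l).prod (seqLaw d μ q l)) :=
      Integrable.of_bound hm2.aestronglyMeasurable _ (Eventually.of_forall hb)
    rw [h1, integral_prod _ hI]
    have h2 : ∀ i : Gap d lo κ × Att d,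
        ∫ j, ((((run (stp s i) j n).1 0 : ℤ) : ℝ) - a) ^ 2 ∂seqLaw d μ q l ≤ (2 + o) ^ 2 * n + (2 + o) ^ 2 := by
      intro i
      have g1 := sq_shift (q := q) (μ := μ) hlo l n (stp s i) a
      have g2 := ih (stp s i)
      have g3 := mn_step_g (q := q) hlo hκ.out hμ.out ho n s i
      unfold sq at g1 g2
      rw [g1]
      linarith
    calc ∫ i, ∫ j, ((((run (stp s i) j n).1 0 : ℤ) : ℝ) - a) ^ 2 ∂seqLaw d μ q l ∂inpLaw d μ q l
        ≤ ∫ _i, ((2 + o) ^ 2 * (n : ℝ) + (2 + o) ^ 2) ∂inpLaw d μ q l :=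
          integral_mono hI.integral_prod_left (integrable_const _) h2
      _ = (2 + o) ^ 2 * ((n + 1 : ℕ) : ℝ) := by
          simp
          ring

theorem av_near_g (hκ : 0 < κ) (hμ : 0 < μ) {l o : ℝ}
    (ho : ∀ (n : ℕ) (η η' : Env d lo κ), |Φ μ q l n η' - Φ μ q l n η| ≤ o) (n : ℕ) (η : Env d lo κ) : |Φ μ q l n η - av d μ q l n| ≤ o := by
  have hg := Good.Φ (d := d) (q := q) hκ hμ l n
  have h1 : Φ μ q l n η - av d μ q l n = ∫ ζ, (Φ μ q l n η - Φ μ q l n ζ) ∂envLaw d q := by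
    rw [integral_sub (integrable_const _) hg.integrable]
    unfold av
    simp
  rw [h1]
  have h2 := norm_integral_le_of_norm_le_const (μ := envLaw d q)
    (f := fun ζ => Φ μ q l n η - Φ μ q l n ζ) (C := o)
    (Eventually.of_forall fun ζ => ho n ζ η)
  simpa using h2

theorem av_sub_g (hlo : 0 ≤ lo) (hκ : 0 < κ) (hμ : 0 < μ) {l o : ℝ}
    (ho : ∀ (n : ℕ) (η η' : Env d lo κ), |Φ μ q l n η' - Φ μ q l n η| ≤ o) : Subadditive fun n : ℕ => av d μ q l n + o := by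
  intro n m
  have g1 := Good.Φ (d := d) (q := q) hκ hμ l (n + m)
  have g2 := Good.Φ (d := d) (q := q) hκ hμ l n
  have h1 : ∀ η : Env d lo κ, Φ μ q l (n + m) η ≤ Φ μ q l n η + (av d μ q l m + o) :=
    Φ_add_le hlo hκ hμ l m (fun η => by
      have := (abs_le.1 (av_near_g (q := q) hκ hμ ho m η)).2
      linarith) n
  have h2 : av d μ q l (n + m) ≤ ∫ η, (Φ μ q l n η + (av d μ q l m + o)) ∂envLaw d q :=
    integral_mono g1.integrable (g2.integrable.add (integrable_const _)) h1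
  rw [integral_add g2.integrable (integrable_const _)] at h2
  have h3 : ∫ _η : Env d lo κ, (av d μ q l m + o) ∂envLaw d q = av d μ q l m + o := by
    simp
  rw [h3] at h2
  change av d μ q l (n + m) + o ≤ av d μ q l n + o + (av d μ q l m + o)
  unfold av at h2 ⊢
  linarith

/-- the displacement per attempt -/
theorem av_lim_g (hlo : 0 ≤ lo) (hκ : 0 < κ) (hμ : 0 < μ) {l o : ℝ} (ho0 : 0 ≤ o)
    (ho : ∀ (n : ℕ) (η η' : Env d lo κ), |Φ μ q l n η' - Φ μ q l n η| ≤ o) : ∃ L : ℝ, Tendsto (fun n : ℕ => av d μ q l n / n) atTop (𝓝 L) := by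
  have h1 := av_sub_g (d := d) (q := q) hlo hκ hμ ho
  refine ⟨h1.lim, ?_⟩
  have h2 : BddBelow (Set.range fun n : ℕ => (av d μ q l n + o) / n) := by
    refine ⟨-1, ?_⟩
    rintro _ ⟨n, rfl⟩
    rcases Nat.eq_zero_or_pos n with hn | hn
    · subst hn
      simp
    · have h3 := (abs_le.1 (av_abs (d := d) (q := q) hlo hκ hμ l n)).1
      have hn' : (0 : ℝ) < n := by exact_mod_cast hn
      rw [le_div_iff₀ hn']
      linarith
  have h3 := h1.tendsto_lim h2
  have h4 : Tendsto (fun n : ℕ => (o : ℝ) / n) atTop (𝓝 0) :=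
    tendsto_const_div_atTop_nhds_zero_nat _
  have h5 := h3.sub h4
  rw [sub_zero] at h5
  refine h5.congr fun n => ?_
  ring

theorem path_sq_g (hlo : 0 ≤ lo) [hκ : Fact (0 < κ)] [hμ : Fact (0 < μ)] {l o : ℝ}
    (ho : ∀ (n : ℕ) (η η' : Env d lo κ), |Φ μ q l n η' - Φ μ q l n η| ≤ o) (n : ℕ) :
    ∫⁻ w, ENNReal.ofReal ((((path w n 0 : ℤ) : ℝ) - av d μ q l n) ^ 2) ∂law d μ q l ≤
      ENNReal.ofReal ((2 + o) ^ 2 * n + o ^ 2) := by
  have hf : Measurable fun x : Site d =>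
      ENNReal.ofReal ((((x 0 : ℤ) : ℝ) - av d μ q l n) ^ 2) := measurable_of_countable _
  rw [path_law l n hf]
  have h1 : ∀ η : Env d lo κ, ∫⁻ i, ENNReal.ofReal
      (((((run ((0 : Site d), η) i n).1 0 : ℤ) : ℝ) - av d μ q l n) ^ 2) ∂seqLaw d μ q l ≤
      ENNReal.ofReal ((2 + o) ^ 2 * n + o ^ 2) := by
    intro η
    rw [← ofReal_integral_eq_lintegral_ofReal (first_sq_int l _ n _)
      (Eventually.of_forall fun i => sq_nonneg _)]
    apply ENNReal.ofReal_le_ofReal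
    have g1 := sq_shift (q := q) (μ := μ) hlo l n ((0 : Site d), η) (av d μ q l n)
    have g2 := sq_bound_g (q := q) (μ := μ) hlo ho n ((0 : Site d), η)
    have g3 := av_near_g (q := q) hκ.out hμ.out ho n η
    have g4 : mn μ q l n ((0 : Site d), η) = Φ μ q l n η := by
      unfold mn
      simp [sh_zero]
    unfold sq at g1 g2
    rw [g1]
    have g5 : (mn μ q l n ((0 : Site d), η) - av d μ q l n) ^ 2 ≤ o ^ 2 := by
      rw [g4, ← sq_abs]
      exact pow_le_pow_left₀ (abs_nonneg _) g3 2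
    linarith
  calc ∫⁻ η, ∫⁻ i, ENNReal.ofReal
        (((((run ((0 : Site d), η) i n).1 0 : ℤ) : ℝ) - av d μ q l n) ^ 2) ∂seqLaw d μ q l
        ∂envLaw d q ≤ ∫⁻ _η : Env d lo κ, ENNReal.ofReal ((2 + o) ^ 2 * n + o ^ 2) ∂envLaw d q :=
        lintegral_mono h1
    _ = ENNReal.ofReal ((2 + o) ^ 2 * n + o ^ 2) := by simp

/-- convergence along the squares -/
theorem path_squares_g (hlo : 0 ≤ lo) [hκ : Fact (0 < κ)] [hμ : Fact (0 < μ)] {l o : ℝ}
    (ho : ∀ (n : ℕ) (η η' : Env d lo κ), |Φ μ q l n η' - Φ μ q l n η| ≤ o) :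
    ∀ᵐ w ∂law d μ q l, Tendsto (fun k : ℕ =>
      (((path w (k ^ 2) 0 : ℤ) : ℝ) - av d μ q l (k ^ 2)) / (k : ℝ) ^ 2) atTop (𝓝 0) := by
  set Y : ℕ → Sample d lo κ → ℝ≥0∞ := fun k w => ENNReal.ofReal
    (((((path w (k ^ 2) 0 : ℤ) : ℝ) - av d μ q l (k ^ 2)) / (k : ℝ) ^ 2) ^ 2) with hY
  have hm : ∀ k, Measurable (Y k) := by
    intro k
    have h1 : Measurable fun x : Site d => ENNReal.ofReal
        (((((x 0 : ℤ) : ℝ) - av d μ q l (k ^ 2)) / (k : ℝ) ^ 2) ^ 2) := measurable_of_countable _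
    exact h1.comp (measurable_path (k ^ 2))
  have hY1 : ∀ k, ∫⁻ w, Y k w ∂law d μ q l ≤ ENNReal.ofReal (((2 + o) ^ 2 + o ^ 2) * (1 / (k : ℝ) ^ 2)) := by
    intro k
    rcases Nat.eq_zero_or_pos k with hk | hk
    · subst hk
      rw [hY]
      simp
    · have hk' : (0 : ℝ) < k := by exact_mod_cast hk
      have hk1 : (1 : ℝ) ≤ k := by exact_mod_cast hk
      have h1 : ∀ w, Y k w = ENNReal.ofReal (1 / (k : ℝ) ^ 4) * ENNReal.ofReal
          ((((path w (k ^ 2) 0 : ℤ) : ℝ) - av d μ q l (k ^ 2)) ^ 2) := by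
        intro w
        rw [hY, ← ENNReal.ofReal_mul (by positivity)]
        beta_reduce
        congr 1
        field_simp
      have hf : Measurable fun w : Sample d lo κ => ENNReal.ofReal
          ((((path w (k ^ 2) 0 : ℤ) : ℝ) - av d μ q l (k ^ 2)) ^ 2) := by
        have h1 : Measurable fun x : Site d => ENNReal.ofReal
          ((((x 0 : ℤ) : ℝ) - av d μ q l (k ^ 2)) ^ 2) := measurable_of_countable _
        exact h1.comp (measurable_path (k ^ 2))
      rw [lintegral_congr h1, lintegral_const_mul _ hf]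
      refine (mul_le_mul' le_rfl (path_sq_g hlo ho (k ^ 2))).trans ?_
      rw [← ENNReal.ofReal_mul (by positivity)]
      apply ENNReal.ofReal_le_ofReal
      push_cast
      rw [div_mul_eq_mul_div, one_mul, mul_one_div, div_le_div_iff₀ (by positivity) (by positivity)]
      have h2 : 1 ≤ (k : ℝ) ^ 2 := one_le_pow₀ hk1
      have h3 : (2 + o) ^ 2 * (k : ℝ) ^ 2 + o ^ 2 ≤ ((2 + o) ^ 2 + o ^ 2) * (k : ℝ) ^ 2 := by
        have := mul_le_mul_of_nonneg_left h2 (sq_nonneg o)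
        linarith
      have h4 := mul_le_mul_of_nonneg_right h3 (sq_nonneg (k : ℝ))
      have h5 : ((2 + o) ^ 2 + o ^ 2) * (k : ℝ) ^ 2 * (k : ℝ) ^ 2 =
          ((2 + o) ^ 2 + o ^ 2) * (k : ℝ) ^ 4 := by ring
      rw [h5] at h4
      exact h4
  have hs : Summable fun k : ℕ => ((2 + o) ^ 2 + o ^ 2) * (1 / (k : ℝ) ^ 2) :=
    (Real.summable_one_div_nat_pow.2 (by norm_num)).mul_left _
  have h1 : ∫⁻ w, ∑' k, Y k w ∂law d μ q l ≠ ⊤ := by
    rw [lintegral_tsum fun k => (hm k).aemeasurable]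
    exact ne_top_of_le_ne_top hs.tsum_ofReal_ne_top (ENNReal.tsum_le_tsum hY1)
  have h2 : ∀ᵐ w ∂law d μ q l, ∑' k, Y k w < ⊤ :=
    ae_lt_top (Measurable.ennreal_tsum hm) h1
  filter_upwards [h2] with w hw
  have h3 : Tendsto (fun k => Y k w) atTop (𝓝 0) := ENNReal.tendsto_atTop_zero_of_tsum_ne_top hw.ne
  have h4 := (ENNReal.tendsto_toReal ENNReal.zero_ne_top).comp h3
  rw [ENNReal.toReal_zero] at h4
  have h5 := (Real.continuous_sqrt.tendsto 0).comp h4
  rw [Real.sqrt_zero] at h5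
  rw [tendsto_zero_iff_abs_tendsto_zero]
  refine h5.congr fun k => ?_
  simp only [Function.comp, hY]
  rw [ENNReal.toReal_ofReal (sq_nonneg _), Real.sqrt_sq_eq_abs]

theorem path_lim_g (hlo : 0 ≤ lo) [hκ : Fact (0 < κ)] [hμ : Fact (0 < μ)] {l o : ℝ}
    (ho : ∀ (n : ℕ) (η η' : Env d lo κ), |Φ μ q l n η' - Φ μ q l n η| ≤ o) {L : ℝ}
    (hL : Tendsto (fun n : ℕ => av d μ q l n / n) atTop (𝓝 L)) :
    ∀ᵐ w ∂law d μ q l, Tendsto (fun n : ℕ => ((path w n 0 : ℤ) : ℝ) / n) atTop (𝓝 L) := by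
  filter_upwards [path_squares_g hlo ho] with w hw
  refine fill (x := fun n => ((path w n 0 : ℤ) : ℝ)) (fun n => ?_) ?_
  · exact jump_abs (cond w (time w (n + 1))) (path w n) (w.2.2 n).2
  · have h1 : Tendsto (fun k : ℕ => k ^ 2) atTop atTop := tendsto_pow_atTop (by norm_num)
    have h2 := hw.add (hL.comp h1)
    rw [zero_add] at h2
    refine h2.congr fun k => ?_
    simp only [Function.comp]
    push_cast
    rw [← add_div, sub_add_cancel]

/-- existence of the speed -/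
theorem is_speed_g (hlo : 0 ≤ lo) [hκ : Fact (0 < κ)] [hμ : Fact (0 < μ)] {l o : ℝ}
    (ho : ∀ (n : ℕ) (η η' : Env d lo κ), |Φ μ q l n η' - Φ μ q l n η| ≤ o) {L : ℝ}
    (hL : Tendsto (fun n : ℕ => av d μ q l n / n) atTop (𝓝 L)) :
    IsSpeed d μ q l (L / ∫ s, s ∂expMeasure κ) := by
  have hp := isProbabilityMeasure_expMeasure hκ.out
  have hp' := isProbabilityMeasure_expMeasure hμ.out
  have h0 : law d μ q l = (envLaw d q).prod ((clksLaw d μ q).prod (attsLaw d κ l)) := rfl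
  have hsnd : ∀ {P : (ℕ → ℝ × Att d) → Prop}, (∀ᵐ i ∂attsLaw d κ l, P i) →
      ∀ᵐ w ∂law d μ q l, P w.2.2 := by
    intro P hP
    rw [h0]
    have h1 : ∀ᵐ t ∂(clksLaw d μ q).prod (attsLaw d κ l), P t.2 :=
      Measure.quasiMeasurePreserving_snd.ae hP
    exact Measure.quasiMeasurePreserving_snd.ae h1
  unfold IsSpeed
  filter_upwards [path_lim_g hlo ho hL, hsnd (atts_lln hκ.out l), hsnd (atts_pos hκ.out l)]
    with w h1 h2 h3
  refine to_time (x := fun n => ((path w n 0 : ℤ) : ℝ)) (T := time w) ?_ ?_ (exp_mean_pos hκ.out)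
    h2 h1
  · simp [time]
  · refine strictMono_nat_of_lt_succ fun n => ?_
    have h4 : time w (n + 1) = time w n + (w.2.2 n).1 := Finset.sum_range_succ _ _
    rw [h4]
    linarith [h3 n]

/-- the speed exists for all parameters -/
theorem speed_gen (hlo : 0 ≤ lo) (hκ : 0 < κ) (hμ : 0 < μ) (l : ℝ) :
    ∃ L : ℝ, Tendsto (fun n : ℕ => av d μ q l n / n) atTop (𝓝 L) ∧
      IsSpeed d μ q l (L / ∫ s, s ∂expMeasure κ) := by
  have fκ : Fact (0 < κ) := ⟨hκ⟩
  have fμ : Fact (0 < μ) := ⟨hμ⟩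
  obtain ⟨o, ho0, ho⟩ := osc_gen (d := d) (q := q) hlo hκ hμ
  obtain ⟨L, hL⟩ := av_lim_g (d := d) (q := q) hlo hκ hμ ho0 (ho l)
  exact ⟨L, hL, is_speed_g hlo (ho l) hL⟩

end Pool.Agent.NVB
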