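import Pool.Agent.NVB.Sign
import Pool.Agent.NVB.Gen

/-!
# The limit model: only the edge in front of the walk matters
-/

set_option autoImplicit false

namespace Pool.Agent.NVB

open MeasureTheory ProbabilityTheory Filter Topology
open scoped Classical ENNReal

variable {lo κ : ℝ} {μ : ℝ} {q : Measure (Set.Icc lo κ)}

/-- `X α ω = μ + (1 - α) m + α ω` -/
noncomputable def X (μ : ℝ) (q : Measure (Set.Icc lo κ)) (α ω : ℝ) : ℝ :=
  μ + mean q + α * (ω - mean q)

/-- the expectation of `1 / X α ω` -/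
noncomputable def h1 (μ : ℝ) (q : Measure (Set.Icc lo κ)) (α : ℝ) : ℝ :=
  ∫ w : Set.Icc lo κ, 1 / X μ q α w ∂q

/-- the corrector -/
noncomputable def hh (μ : ℝ) (q : Measure (Set.Icc lo κ)) (α : ℝ) (w : Set.Icc lo κ) : ℝ :=
  1 - 1 / (h1 μ q α * X μ q α w)

/-- the speed -/
noncomputable def ww (μ : ℝ) (q : Measure (Set.Icc lo κ)) (α : ℝ) : ℝ :=
  1 / h1 μ q α - (μ + mean q) + α * mean q

/-- the slope at `1` -/
noncomputable def cD (μ : ℝ) (q : Measure (Set.Icc lo κ)) : ℝ :=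
  mean q + (∫ w : Set.Icc lo κ, ((w : ℝ) - mean q) / X μ q 1 w ^ 2 ∂q) / h1 μ q 1 ^ 2

variable [IsProbabilityMeasure q]

theorem mean_nonneg (hlo : 0 ≤ lo) : 0 ≤ mean q :=
  integral_nonneg fun w => hlo.trans w.2.1

theorem mean_le : mean q ≤ κ := by
  have := integral_mono (μ := q) integrable_val (integrable_const κ) fun w : Set.Icc lo κ =>
    w.2.2
  simp only [integral_const, probReal_univ, one_smul] at this
  exact this

theorem X_ge (hlo : 0 ≤ lo) {α : ℝ} (h0 : 0 ≤ α) (h1 : α ≤ 1) (w : Set.Icc lo κ) :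
    μ ≤ X μ q α w := by
  unfold X
  have := mean_nonneg (q := q) hlo
  have := mul_nonneg h0 (hlo.trans w.2.1)
  nlinarith

theorem X_le (hlo : 0 ≤ lo) {α : ℝ} (h0 : 0 ≤ α) (h1 : α ≤ 1) (w : Set.Icc lo κ) :
    X μ q α w ≤ μ + κ := by
  unfold X
  have a1 := mean_le (q := q)
  have a2 := mul_le_mul_of_nonneg_left w.2.2 h0
  have a3 := mul_le_mul_of_nonneg_left a1 (by linarith : 0 ≤ 1 - α)
  linarith

theorem X_cont (α : ℝ) : Continuous fun w : ℝ => X μ q α w := by
  unfold X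
  fun_prop

theorem X_inv_int (hlo : 0 ≤ lo) (hμ : 0 < μ) {α : ℝ} (h0 : 0 ≤ α) (h1 : α ≤ 1) :
    Integrable (fun w : Set.Icc lo κ => 1 / X μ q α w) q := by
  refine cont_int (f := fun w => 1 / X μ q α w) (ContinuousOn.div continuousOn_const
    (X_cont α).continuousOn fun w hw => ?_)
  have := X_ge (μ := μ) (q := q) hlo h0 h1 ⟨w, hw⟩
  exact (lt_of_lt_of_le hμ this).ne'

theorem h1_ge (hlo : 0 ≤ lo) (hμ : 0 < μ) {α : ℝ} (h0 : 0 ≤ α) (hα : α ≤ 1) :
    1 / (μ + κ) ≤ h1 μ q α := by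
  have h2 : ∫ _w : Set.Icc lo κ, 1 / (μ + κ) ∂q ≤ ∫ w : Set.Icc lo κ, 1 / X μ q α w ∂q := by
    refine integral_mono (integrable_const _) (X_inv_int hlo hμ h0 hα) fun w => ?_
    exact one_div_le_one_div_of_le (lt_of_lt_of_le hμ (X_ge hlo h0 hα w)) (X_le hlo h0 hα w)
  simp only [integral_const, probReal_univ, one_smul] at h2
  exact h2

theorem h1_le (hlo : 0 ≤ lo) (hμ : 0 < μ) {α : ℝ} (h0 : 0 ≤ α) (hα : α ≤ 1) :
    h1 μ q α ≤ 1 / μ := by
  have h2 : ∫ w : Set.Icc lo κ, 1 / X μ q α w ∂q ≤ ∫ _w : Set.Icc lo κ, 1 / μ ∂q := by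
    refine integral_mono (X_inv_int hlo hμ h0 hα) (integrable_const _) fun w => ?_
    exact one_div_le_one_div_of_le hμ (X_ge hlo h0 hα w)
  simp only [integral_const, probReal_univ, one_smul] at h2
  exact h2

theorem h1_pos (hlo : 0 ≤ lo) (hκ : 0 < κ) (hμ : 0 < μ) {α : ℝ} (h0 : 0 ≤ α) (hα : α ≤ 1) :
    0 < h1 μ q α :=
  lt_of_lt_of_le (by positivity) (h1_ge (q := q) hlo hμ h0 hα)

theorem hh_measurable (α : ℝ) : Measurable (hh μ q α) := by
  unfold hh
  have : Measurable fun w : Set.Icc lo κ => X μ q α w :=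
    (X_cont α).measurable.comp measurable_subtype_coe
  exact measurable_const.sub (measurable_const.div (measurable_const.mul this))

/-- the corrector has expectation zero -/
theorem hh_int (hlo : 0 ≤ lo) (hκ : 0 < κ) (hμ : 0 < μ) {α : ℝ} (h0 : 0 ≤ α) (hα : α ≤ 1) :
    ∫ w, hh μ q α w ∂q = 0 := by
  have hp := h1_pos (q := q) hlo hκ hμ h0 hα
  have e1 : ∀ w : Set.Icc lo κ, hh μ q α w = 1 - 1 / h1 μ q α * (1 / X μ q α w) := by
    intro w
    unfold hh
    rw [one_div_mul_one_div]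
  simp only [e1]
  rw [integral_sub (integrable_const _) ((X_inv_int hlo hμ h0 hα).const_mul _), integral_const_mul]
  have : ∫ w : Set.Icc lo κ, 1 / X μ q α w ∂q = h1 μ q α := rfl
  rw [this, one_div_mul_cancel hp.ne']
  simp

/-- the corrector is small if `α` is -/
theorem hh_abs (hlo : 0 ≤ lo) (hκ : 0 < κ) (hμ : 0 < μ) {α : ℝ} (h0 : 0 ≤ α) (hα : α ≤ 1)
    (w : Set.Icc lo κ) : |hh μ q α w| ≤ α * (κ / μ * ((μ + κ) / μ)) := by
  have hp := h1_pos (q := q) hlo hκ hμ h0 hα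
  have hX := lt_of_lt_of_le hμ (X_ge (μ := μ) (q := q) hlo h0 hα w)
  have i0 := X_inv_int (q := q) hlo hμ h0 hα
  have e1 : hh μ q α w = (h1 μ q α * X μ q α w - 1) / (h1 μ q α * X μ q α w) := by
    unfold hh
    field_simp
  have e2 : h1 μ q α * X μ q α w - 1 =
      ∫ v : Set.Icc lo κ, α * ((w : ℝ) - v) * (1 / X μ q α v) ∂q := by
    have e3 : ∀ v : Set.Icc lo κ, α * ((w : ℝ) - v) * (1 / X μ q α v) =
        1 / X μ q α v * X μ q α w - 1 := by
      intro v
      have hv := lt_of_lt_of_le hμ (X_ge (μ := μ) (q := q) hlo h0 hα v)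
      have : α * ((w : ℝ) - v) = X μ q α w - X μ q α v := by
        unfold X
        ring
      rw [this]
      field_simp
    rw [integral_congr_ae (Eventually.of_forall e3), integral_sub (i0.mul_const _)
      (integrable_const _), integral_mul_const]
    simp only [integral_const, probReal_univ, one_smul]
    rfl
  have hwv : ∀ v : Set.Icc lo κ, |(w : ℝ) - v| ≤ κ := by
    intro v
    rw [abs_le]
    constructor <;> linarith [w.2.1, w.2.2, v.2.1, v.2.2]
  have e4 : |h1 μ q α * X μ q α w - 1| ≤ α * κ / μ := by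
    rw [e2]
    have := norm_integral_le_of_norm_le_const (μ := q)
      (f := fun v : Set.Icc lo κ => α * ((w : ℝ) - v) * (1 / X μ q α v)) (C := α * κ / μ)
      (Eventually.of_forall fun v => by
        have hv := X_ge (μ := μ) (q := q) hlo h0 hα v
        rw [Real.norm_eq_abs, abs_mul, abs_mul, abs_of_nonneg h0,
          abs_of_pos (one_div_pos.2 (lt_of_lt_of_le hμ hv)), mul_one_div]
        exact div_le_div₀ (by positivity) (mul_le_mul_of_nonneg_left (hwv v) h0) hμ hv)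
    simpa using this
  have hl : μ / (μ + κ) ≤ h1 μ q α * X μ q α w := by
    have a1 := h1_ge (q := q) hlo hμ h0 hα
    have a2 := X_ge (μ := μ) (q := q) hlo h0 hα w
    calc μ / (μ + κ) = 1 / (μ + κ) * μ := by ring
      _ ≤ h1 μ q α * X μ q α w := mul_le_mul a1 a2 hμ.le hp.le
  rw [e1, abs_div, abs_of_pos (mul_pos hp hX)]
  calc |h1 μ q α * X μ q α w - 1| / (h1 μ q α * X μ q α w) ≤ (α * κ / μ) / (μ / (μ + κ)) :=
        div_le_div₀ (by positivity) e4 (by positivity) hl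
    _ = α * (κ / μ * ((μ + κ) / μ)) := by
        field_simp

theorem h1_diff (hlo : 0 ≤ lo) (hκ : 0 < κ) (hμ : 0 < μ) {α β : ℝ} (h0 : 0 ≤ α) (hα : α ≤ 1)
    (h0' : 0 ≤ β) (hβ : β ≤ 1) : |h1 μ q β - h1 μ q α| ≤ |β - α| * (κ / μ ^ 2) := by
  have i0 := X_inv_int (q := q) hlo hμ h0 hα
  have i1 := X_inv_int (q := q) hlo hμ h0' hβ
  have e1 : h1 μ q β - h1 μ q α = ∫ v : Set.Icc lo κ, (1 / X μ q β v - 1 / X μ q α v) ∂q :=
    (integral_sub i1 i0).symm
  have hm0 := mean_nonneg (q := q) hlo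
  have hm1 := mean_le (q := q)
  rw [e1]
  have := norm_integral_le_of_norm_le_const (μ := q)
    (f := fun v : Set.Icc lo κ => 1 / X μ q β v - 1 / X μ q α v) (C := |β - α| * (κ / μ ^ 2))
    (Eventually.of_forall fun v => by
      have g1 := X_ge (μ := μ) (q := q) hlo h0 hα v
      have g2 := X_ge (μ := μ) (q := q) hlo h0' hβ v
      have g1' := lt_of_lt_of_le hμ g1
      have g2' := lt_of_lt_of_le hμ g2
      have e2 : 1 / X μ q β v - 1 / X μ q α v = (α - β) * ((v : ℝ) - mean q) /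
          (X μ q β v * X μ q α v) := by
        have : (α - β) * ((v : ℝ) - mean q) = X μ q α v - X μ q β v := by
          unfold X
          ring
        rw [this]
        field_simp
      have hv : |(v : ℝ) - mean q| ≤ κ := by
        rw [abs_le]
        constructor <;> linarith [v.2.1, v.2.2]
      rw [Real.norm_eq_abs, e2, abs_div, abs_mul, abs_sub_comm α β,
        abs_of_pos (mul_pos g2' g1')]
      calc |β - α| * |(v : ℝ) - mean q| / (X μ q β v * X μ q α v)
          ≤ |β - α| * κ / (μ * μ) :=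
            div_le_div₀ (by positivity) (mul_le_mul_of_nonneg_left hv (abs_nonneg _))
              (by positivity) (mul_le_mul g2 g1 hμ.le g2'.le)
        _ = |β - α| * (κ / μ ^ 2) := by
            field_simp)
  simpa using this

/-- the corrector is Lipschitz -/
theorem hh_diff (hlo : 0 ≤ lo) (hκ : 0 < κ) (hμ : 0 < μ) {α β : ℝ} (h0 : 0 ≤ α) (hα : α ≤ 1)
    (h0' : 0 ≤ β) (hβ : β ≤ 1) (w : Set.Icc lo κ) : |hh μ q β w - hh μ q α w| ≤
      |β - α| * (κ / μ * ((μ + κ) / μ + 1) * ((μ + κ) / μ) ^ 2) := by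
  have p1 := h1_pos (q := q) hlo hκ hμ h0 hα
  have p2 := h1_pos (q := q) hlo hκ hμ h0' hβ
  have g1 := X_ge (μ := μ) (q := q) hlo h0 hα w
  have g2 := X_ge (μ := μ) (q := q) hlo h0' hβ w
  have g1' := lt_of_lt_of_le hμ g1
  have g2' := lt_of_lt_of_le hμ g2
  have hm0 := mean_nonneg (q := q) hlo
  have hm1 := mean_le (q := q)
  have e1 : hh μ q β w - hh μ q α w = (h1 μ q β * X μ q β w - h1 μ q α * X μ q α w) /
      ((h1 μ q α * X μ q α w) * (h1 μ q β * X μ q β w)) := by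
    unfold hh
    field_simp
    ring
  have e2 : h1 μ q β * X μ q β w - h1 μ q α * X μ q α w =
      (h1 μ q β - h1 μ q α) * X μ q β w + h1 μ q α * ((β - α) * ((w : ℝ) - mean q)) := by
    unfold X
    ring
  have hw : |(w : ℝ) - mean q| ≤ κ := by
    rw [abs_le]
    constructor <;> linarith [w.2.1, w.2.2]
  have e3 : |h1 μ q β * X μ q β w - h1 μ q α * X μ q α w| ≤
      |β - α| * (κ / μ * ((μ + κ) / μ + 1)) := by
    rw [e2]
    refine (abs_add_le _ _).trans ?_
    rw [abs_mul, abs_mul, abs_mul, abs_of_pos g2', abs_of_pos p1]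
    have c1 := mul_le_mul (h1_diff (q := q) hlo hκ hμ h0 hα h0' hβ) (X_le (μ := μ) (q := q) hlo h0' hβ w)
      g2'.le (by positivity)
    have c2 := mul_le_mul (h1_le (q := q) hlo hμ h0 hα)
      (mul_le_mul_of_nonneg_left hw (abs_nonneg (β - α))) (by positivity) (by positivity)
    have c3 : |β - α| * (κ / μ ^ 2) * (μ + κ) + 1 / μ * (|β - α| * κ) =
        |β - α| * (κ / μ * ((μ + κ) / μ + 1)) := by
      field_simp
    linarith
  have hl : ∀ {γ : ℝ}, 0 ≤ γ → γ ≤ 1 → μ / (μ + κ) ≤ h1 μ q γ * X μ q γ w := by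
    intro γ hγ0 hγ1
    have a1 := h1_ge (q := q) hlo hμ hγ0 hγ1
    have a2 := X_ge (μ := μ) (q := q) hlo hγ0 hγ1 w
    calc μ / (μ + κ) = 1 / (μ + κ) * μ := by ring
      _ ≤ h1 μ q γ * X μ q γ w :=
        mul_le_mul a1 a2 hμ.le (h1_pos (q := q) hlo hκ hμ hγ0 hγ1).le
  rw [e1, abs_div, abs_of_pos (mul_pos (mul_pos p1 g1') (mul_pos p2 g2'))]
  calc |h1 μ q β * X μ q β w - h1 μ q α * X μ q α w| /
        ((h1 μ q α * X μ q α w) * (h1 μ q β * X μ q β w))
      ≤ (|β - α| * (κ / μ * ((μ + κ) / μ + 1))) / (μ / (μ + κ) * (μ / (μ + κ))) :=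
        div_le_div₀ (by positivity) e3 (by positivity)
          (mul_le_mul (hl h0 hα) (hl h0' hβ) (by positivity) (mul_pos p1 g1').le)
    _ = _ := by
        field_simp

/-- the equation of the corrector -/
theorem hh_eq (hlo : 0 ≤ lo) (hκ : 0 < κ) (hμ : 0 < μ) {α : ℝ} (h0 : 0 ≤ α) (hα : α ≤ 1)
    (w : Set.Icc lo κ) :
    α * ((w : ℝ) / κ) + (1 - α * ((w : ℝ) / κ) - (1 - α) * (mean q / κ)) * hh μ q α w =
      ww μ q α / κ + hh μ q α w * ((κ + μ) / κ) := by
  have hp := h1_pos (q := q) hlo hκ hμ h0 hα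
  have hX := lt_of_lt_of_le hμ (X_ge (μ := μ) (q := q) hlo h0 hα w)
  have e1 : X μ q α w * hh μ q α w = X μ q α w - 1 / h1 μ q α := by
    unfold hh
    field_simp
  have e2 : X μ q α w = μ + (1 - α) * mean q + α * w := by
    unfold X
    ring
  have e3 : α * w - X μ q α w * hh μ q α w = ww μ q α := by
    rw [e1, e2]
    unfold ww
    ring
  have e4 : α * w - (μ + (1 - α) * mean q + α * w) * hh μ q α w = ww μ q α := by
    rw [← e2]
    exact e3
  have e5 : α * ((w : ℝ) / κ) + (1 - α * ((w : ℝ) / κ) - (1 - α) * (mean q / κ)) * hh μ q α w -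
      hh μ q α w * ((κ + μ) / κ) =
      (α * w - (μ + (1 - α) * mean q + α * w) * hh μ q α w) / κ := by
    field_simp
    ring
  rw [e4] at e5
  linarith

/-- the tangents of the harmonic mean -/
theorem tangent (hlo : 0 ≤ lo) (hκ : 0 < κ) (hμ : 0 < μ) {α β : ℝ} (h0 : 0 ≤ α) (hα : α ≤ 1)
    (h0' : 0 ≤ β) (hβ : β ≤ 1) : 1 / h1 μ q α ≤ 1 / h1 μ q β + (α - β) *
      ((∫ w : Set.Icc lo κ, ((w : ℝ) - mean q) / X μ q β w ^ 2 ∂q) / h1 μ q β ^ 2) := by
  have hb := h1_pos (q := q) hlo hκ hμ h0 hα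
  have hc := h1_pos (q := q) hlo hκ hμ h0' hβ
  set b := h1 μ q α with hbdef
  set c := h1 μ q β with hcdef
  have i1 := X_inv_int (q := q) hlo hμ h0 hα
  have i2 := X_inv_int (q := q) hlo hμ h0' hβ
  have hXa : ∀ w : Set.Icc lo κ, 0 < X μ q α w := fun w =>
    lt_of_lt_of_le hμ (X_ge (μ := μ) (q := q) hlo h0 hα w)
  have hXb : ∀ w : Set.Icc lo κ, 0 < X μ q β w := fun w =>
    lt_of_lt_of_le hμ (X_ge (μ := μ) (q := q) hlo h0' hβ w)
  have i3 : Integrable (fun w : Set.Icc lo κ => ((w : ℝ) - mean q) / X μ q β w ^ 2) q := by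
    refine cont_int (f := fun w => (w - mean q) / X μ q β w ^ 2) (ContinuousOn.div (by fun_prop)
      ((X_cont β).continuousOn.pow 2) fun w hw => ?_)
    exact pow_ne_zero 2 (hXb ⟨w, hw⟩).ne'
  set J := ∫ w : Set.Icc lo κ, ((w : ℝ) - mean q) / X μ q β w ^ 2 ∂q with hJ
  have e1 : ∫ w : Set.Icc lo κ, X μ q α w / X μ q β w ^ 2 ∂q = c + (α - β) * J := by
    have e2 : ∀ w : Set.Icc lo κ, X μ q α w / X μ q β w ^ 2 =
        1 / X μ q β w + (α - β) * (((w : ℝ) - mean q) / X μ q β w ^ 2) := by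
      intro w
      have h3 := (hXb w).ne'
      have h4 : X μ q α w = X μ q β w + (α - β) * ((w : ℝ) - mean q) := by
        unfold X
        ring
      rw [h4]
      field_simp
    rw [integral_congr_ae (Eventually.of_forall e2), integral_add i2 (i3.const_mul _),
      integral_const_mul]
    rfl
  have i4 : Integrable (fun w : Set.Icc lo κ => X μ q α w / X μ q β w ^ 2) q := by
    refine cont_int (f := fun w => X μ q α w / X μ q β w ^ 2)
      (ContinuousOn.div (X_cont α).continuousOn ((X_cont β).continuousOn.pow 2) fun w hw => ?_)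
    exact pow_ne_zero 2 (hXb ⟨w, hw⟩).ne'
  -- Cauchy-Schwarz
  have cs : 0 ≤ (c + (α - β) * J) - 2 * (c / b) * c + (c / b) ^ 2 * b := by
    have e2 : (c + (α - β) * J) - 2 * (c / b) * c + (c / b) ^ 2 * b =
        ∫ w : Set.Icc lo κ, X μ q α w * (1 / X μ q β w - (c / b) * (1 / X μ q α w)) ^ 2 ∂q := by
      have e3 : ∀ w : Set.Icc lo κ,
          X μ q α w * (1 / X μ q β w - (c / b) * (1 / X μ q α w)) ^ 2 =
          (X μ q α w / X μ q β w ^ 2 + -(2 * (c / b)) * (1 / X μ q β w)) +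
            (c / b) ^ 2 * (1 / X μ q α w) := by
        intro w
        have h3 := (hXb w).ne'
        have h4 := (hXa w).ne'
        field_simp
        ring
      have i5 : Integrable (fun w : Set.Icc lo κ => X μ q α w / X μ q β w ^ 2 +
          -(2 * (c / b)) * (1 / X μ q β w)) q := i4.add (i2.const_mul _)
      rw [integral_congr_ae (Eventually.of_forall e3), integral_add i5 (i1.const_mul _),
        integral_add i4 (i2.const_mul _), integral_const_mul, integral_const_mul, e1]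
      have e4 : ∫ w : Set.Icc lo κ, 1 / X μ q β w ∂q = c := rfl
      have e5 : ∫ w : Set.Icc lo κ, 1 / X μ q α w ∂q = b := rfl
      rw [e4, e5]
      ring
    rw [e2]
    refine integral_nonneg fun w => ?_
    have := hXa w
    positivity
  have e6 : (c + (α - β) * J) - 2 * (c / b) * c + (c / b) ^ 2 * b =
      (c + (α - β) * J) - c ^ 2 / b := by
    field_simp
    ring
  rw [e6] at cs
  have e7 : 1 / c + (α - β) * (J / c ^ 2) = (c + (α - β) * J) / c ^ 2 := by
    field_simp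
  rw [e7, le_div_iff₀ (by positivity)]
  have e8 : 1 / b * c ^ 2 = c ^ 2 / b := by ring
  rw [e8]
  linarith

/-- the speed of the limit model increases at least with the slope at `1` -/
theorem ww_diff (hlo : 0 ≤ lo) (hκ : 0 < κ) (hμ : 0 < μ) {α β : ℝ} (h0 : 0 ≤ α) (hαβ : α ≤ β)
    (hβ : β < 1) : (β - α) * cD μ q ≤ ww μ q β - ww μ q α := by
  have h0' : 0 ≤ β := h0.trans hαβ
  have t1 := tangent (q := q) hlo hκ hμ h0 (hαβ.trans hβ.le) h0' hβ.le
  have t2 := tangent (q := q) hlo hκ hμ zero_le_one le_rfl h0' hβ.le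
  have t3 := tangent (q := q) hlo hκ hμ h0' hβ.le zero_le_one le_rfl
  set Db := (∫ w : Set.Icc lo κ, ((w : ℝ) - mean q) / X μ q β w ^ 2 ∂q) / h1 μ q β ^ 2
  set D1 := (∫ w : Set.Icc lo κ, ((w : ℝ) - mean q) / X μ q 1 w ^ 2 ∂q) / h1 μ q 1 ^ 2 with hD1
  have h2 : D1 ≤ Db := by
    have h3 : (1 - β) * D1 ≤ (1 - β) * Db := by nlinarith
    exact le_of_mul_le_mul_left h3 (by linarith)
  have h4 : cD μ q = mean q + D1 := rfl
  rw [h4]
  unfold ww
  have h5 := mul_le_mul_of_nonneg_left h2 (by linarith : 0 ≤ β - α)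
  nlinarith

/-- the slope at `1` is the quantity `D(q, μ)` of the problem -/
theorem cD_eq (hlo : 0 ≤ lo) (hκ : 0 < κ) (hμ : 0 < μ) :
    cD μ q = -DD μ q / (∫ w : Set.Icc lo κ, 1 / (μ + (w : ℝ)) ∂q) ^ 2 := by
  set m := mean q with hmdef
  have hpos : ∀ w ∈ Set.Icc lo κ, 0 < μ + w := fun w hw => by linarith [hw.1]
  set n := μ + m with hn
  have j1 : Integrable (fun w : Set.Icc lo κ => 1 / (μ + (w : ℝ))) q :=
    cont_int (f := fun w => 1 / (μ + w)) (ContinuousOn.div (by fun_prop) (by fun_prop)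
      fun w hw => (hpos w hw).ne')
  have j2 : Integrable (fun w : Set.Icc lo κ => (1 / (μ + (w : ℝ))) ^ 2) q :=
    cont_int (f := fun w => (1 / (μ + w)) ^ 2) ((ContinuousOn.div (by fun_prop) (by fun_prop)
      fun w hw => (hpos w hw).ne').pow 2)
  have X1 : ∀ w : ℝ, X μ q 1 w = μ + w := by
    intro w
    unfold X
    ring
  have hA0 : 0 < ∫ w : Set.Icc lo κ, 1 / (μ + (w : ℝ)) ∂q := by
    have := h1_pos (q := q) hlo hκ hμ zero_le_one le_rfl
    unfold h1 at this
    simpa only [X1] using this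
  set A := ∫ w : Set.Icc lo κ, 1 / (μ + (w : ℝ)) ∂q with hA
  set A2 := ∫ w : Set.Icc lo κ, (1 / (μ + (w : ℝ))) ^ 2 ∂q with hA2
  have I1 : ∫ w : Set.Icc lo κ, (w : ℝ) * ((w : ℝ) - m) / (μ + w) ^ 2 ∂q =
      1 - (2 * μ + m) * A + μ * n * A2 := by
    have e1 : ∀ w : Set.Icc lo κ, (w : ℝ) * ((w : ℝ) - m) / (μ + w) ^ 2 =
        (1 + -(2 * μ + m) * (1 / (μ + (w : ℝ)))) + μ * n * (1 / (μ + (w : ℝ))) ^ 2 := by
      intro w
      have := (hpos w w.2).ne'
      rw [hn]
      field_simp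
      ring
    rw [integral_congr_ae (Eventually.of_forall e1)]
    have k1 : Integrable (fun w : Set.Icc lo κ => 1 + -(2 * μ + m) * (1 / (μ + (w : ℝ)))) q :=
      (integrable_const _).add (j1.const_mul _)
    rw [integral_add k1 (j2.const_mul _), integral_add (integrable_const _) (j1.const_mul _),
      integral_const_mul, integral_const_mul]
    simp only [integral_const, probReal_univ, one_smul]
    ring
  have I3 : ∫ w : Set.Icc lo κ, ((w : ℝ) - m) / (μ + w) ^ 2 ∂q = A - n * A2 := by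
    have e1 : ∀ w : Set.Icc lo κ, ((w : ℝ) - m) / (μ + w) ^ 2 =
        1 / (μ + (w : ℝ)) + -n * (1 / (μ + (w : ℝ))) ^ 2 := by
      intro w
      have := (hpos w w.2).ne'
      rw [hn]
      field_simp
      ring
    rw [integral_congr_ae (Eventually.of_forall e1), integral_add j1 (j2.const_mul _),
      integral_const_mul]
    ring
  have I4 : ∫ w : Set.Icc lo κ, (w : ℝ) / (μ + w) ∂q = 1 - μ * A := by
    have e1 : ∀ w : Set.Icc lo κ, (w : ℝ) / (μ + w) = 1 + -μ * (1 / (μ + (w : ℝ))) := by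
      intro w
      have := (hpos w w.2).ne'
      field_simp
      ring
    rw [integral_congr_ae (Eventually.of_forall e1), integral_add (integrable_const _)
      (j1.const_mul _), integral_const_mul]
    simp only [integral_const, probReal_univ, one_smul]
    ring
  have hDD : DD μ q = n * A2 - A - m * A ^ 2 := by
    unfold DD
    have hmm : ∫ u : Set.Icc lo κ, (u : ℝ) ∂q = m := rfl
    rw [hmm, I1, I3, I4, ← hA, hn]
    ring
  have hc : cD μ q = m + (A - n * A2) / A ^ 2 := by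
    unfold cD h1
    simp only [X1]
    rw [← hmdef, I3, ← hA]
  rw [hc, hDD]
  field_simp
  ring

end Pool.Agent.NVB
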