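import Pool.Agent.NVB.FrG
import Pool.Agent.NVB.Lm

/-!
# The error of the limit model
-/

set_option autoImplicit false

namespace Pool.Agent.NVB

open MeasureTheory ProbabilityTheory Filter Topology
open scoped Classical ENNReal

variable {d : ℕ} {lo κ : ℝ} {μ : ℝ} {q : Measure (Set.Icc lo κ)} [IsProbabilityMeasure q]

/-! ### sums over the directions -/

theorem lm_filter (c : Dir d → ℝ) :
    lm c = ∑ y ∈ Finset.univ.filter (fun y : Dir d => y.1 ≠ 0), c y := by
  unfold lm
  rw [Finset.sum_filter]
  refine Finset.sum_congr rfl fun y _ => ?_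
  by_cases h : y.1 = 0
  · rw [if_pos h, if_neg (not_not.2 h)]
  · rw [if_neg h, if_pos h]

theorem lm_add (c c' : Dir d → ℝ) : lm (fun y => c y + c' y) = lm c + lm c' := by
  rw [lm_filter, lm_filter, lm_filter, ← Finset.sum_add_distrib]

theorem lm_sub (c c' : Dir d → ℝ) : lm (fun y => c y - c' y) = lm c - lm c' := by
  rw [lm_filter, lm_filter, lm_filter, ← Finset.sum_sub_distrib]

theorem lm_mul (a : ℝ) (c : Dir d → ℝ) : lm (fun y => a * c y) = a * lm c := by
  rw [lm_filter, lm_filter, ← Finset.mul_sum]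

theorem lm_congr {c c' : Dir d → ℝ} (h : ∀ y : Dir d, y.1 ≠ 0 → c y = c' y) : lm c = lm c' := by
  rw [lm_filter, lm_filter]
  exact Finset.sum_congr rfl fun y hy => h y (Finset.mem_filter.1 hy).2

theorem lm_card : ((Finset.univ.filter (fun y : Dir d => y.1 ≠ 0)).card : ℝ) = 2 * d := by
  have h1 : lm (fun _ : Dir d => (1 : ℝ)) = 2 * d * 1 := lm_eq fun _ _ => rfl
  rw [lm_filter, Finset.sum_const, nsmul_eq_mul, mul_one, mul_one] at h1
  exact h1

theorem vec_injective : Function.Injective (vec : Dir d → Site d) := by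
  intro y y' h
  have h2 : y.1 = y'.1 := by
    by_contra h3
    have h4 := congrFun h y.1
    rw [vec_of_ne (y := y') h3] at h4
    exact vec_ne_zero y h4
  have h3 := congrFun h y.1
  obtain ⟨i, s⟩ := y
  obtain ⟨i', s'⟩ := y'
  simp only at h2
  subst h2
  unfold vec at h3
  simp only [Pi.single_eq_same] at h3
  cases s <;> cases s' <;> simp_all

theorem edge_snd (x : Site d) (y : Dir d) : (edge x y).2 = y.1 := by
  unfold edge
  split_ifs <;> rfl

theorem edge_injective : Function.Injective (edge (0 : Site d)) := by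
  intro y y' h
  have h2 : y.1 = y'.1 := by
    rw [← edge_snd 0 y, ← edge_snd 0 y', h]
  have h3 := congrArg Prod.fst h
  obtain ⟨i, s⟩ := y
  obtain ⟨i', s'⟩ := y'
  simp only at h2
  subst h2
  unfold edge at h3
  cases s <;> cases s'
  · rfl
  · simp only [if_false, if_true, zero_add, Bool.false_eq_true] at h3
    exact absurd (congrFun h3 i) (vec_ne_zero ((i, false) : Dir d))
  · simp only [if_false, if_true, zero_add, Bool.false_eq_true] at h3
    exact absurd (congrFun h3 i).symm (vec_ne_zero ((i, false) : Dir d))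
  · rfl

theorem Good.of_edge (e : Edge d) {u : Set.Icc lo κ → ℝ} (hu : Measurable u) {C : ℝ}
    (hC : ∀ b, |u b| ≤ C) : Good (fun η : Env d lo κ => u (η e)) := by
  refine ⟨hu.comp (measurable_pi_apply e), ⟨C, fun η => hC _⟩, ⟨{e}, fun η η' h => ?_⟩⟩
  rw [h e (Finset.mem_singleton_self e)]

/-- the sum of the terms with the functions `g y` of one edge -/
noncomputable def Tot (q : Measure (Set.Icc lo κ)) (g : Dir d → Set.Icc lo κ → ℝ)
    (η : Env d lo κ) : ℝ :=
  acc (plus d) η * g (plus d) (η (vec (plus d), 0)) +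
  (acc (minus d) η * g (minus d) (η (vec (minus d), 0)) +
    (mean q / κ - acc (minus d) η) * g (minus d) (η (0, 0))) +
  lm (fun y => acc y η * g y (η (vec y, 0)) + (mean q / κ - acc y η) * g y (η (0, 0)))

theorem Tot_sub (g g' : Dir d → Set.Icc lo κ → ℝ) (η : Env d lo κ) :
    Tot q (fun y w => g' y w - g y w) η = Tot q g' η - Tot q g η := by
  unfold Tot
  have h1 : lm (fun y : Dir d => acc y η * (g' y (η (vec y, 0)) - g y (η (vec y, 0))) +
      (mean q / κ - acc y η) * (g' y (η (0, 0)) - g y (η (0, 0)))) =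
      lm (fun y => acc y η * g' y (η (vec y, 0)) + (mean q / κ - acc y η) * g' y (η (0, 0))) -
      lm (fun y => acc y η * g y (η (vec y, 0)) + (mean q / κ - acc y η) * g y (η (0, 0))) := by
    rw [← lm_sub]
    exact lm_congr fun y _ => by ring
  rw [h1]
  ring

theorem mk_abs (hlo : 0 ≤ lo) (hκ : 0 < κ) (y : Dir d) (η : Env d lo κ) :
    |mean q / κ - acc y η| ≤ 1 := by
  have h1 := mean_nonneg (q := q) hlo
  have h2 := mean_le (q := q)
  have h3 : mean q / κ ≤ 1 := by
    rw [div_le_one hκ]
    exact h2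
  have h4 : 0 ≤ mean q / κ := by positivity
  have h5 := acc_nonneg hlo hκ y η
  have h6 := acc_le hκ y η
  rw [abs_le]
  constructor <;> linarith

theorem Fr.Tot (hlo : 0 ≤ lo) (hκ : 0 < κ) {g : Dir d → Set.Icc lo κ → ℝ}
    (hm : ∀ y, Measurable (g y)) (h0 : ∀ y, ∫ b, g y b ∂q = 0) {cp c cm : ℝ} (hc : 0 ≤ c)
    (hp : ∀ b, |g (plus d) b| ≤ cp) (hl : ∀ y : Dir d, y.1 ≠ 0 → ∀ b, |g y b| ≤ c)
    (hmi : ∀ b, |g (minus d) b| ≤ cm) :
    Fr q (NVB.Tot q g : Env d lo κ → ℝ) (cp + 2 * (2 * d * c)) (2 * c) 0 (2 * cm) := by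
  have hne : Nonempty (Set.Icc lo κ) := nonempty_of_isProbabilityMeasure q
  have a0 : ∀ y (η : Env d lo κ), |acc y η| ≤ 1 := fun y η => by
    rw [abs_of_nonneg (acc_nonneg hlo hκ y η)]
    exact acc_le hκ y η
  have g0 : ∀ y : Dir d, y.1 ≠ 0 → ∀ e : Edge d, Good (fun η : Env d lo κ => g y (η e)) :=
    fun y hy e => Good.of_edge e (hm y) (hl y hy)
  -- the forward edge
  have e1 : Fr q (fun η : Env d lo κ => acc (plus d) η * g (plus d) (η (vec (plus d), 0)))
      cp 0 0 0 := by
    refine Fr.up (e := (vec (plus d), 0)) ⟨rfl, fun i hi => vec_of_ne hi⟩ ?_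
      ((Good.acc _).mul (Good.of_edge _ (hm _) hp)) ?_ ?_
    · change 0 < vec (plus d) 0
      rw [vec_plus]
      norm_num
    · intro η
      have : ∀ b : Set.Icc lo κ, acc (plus d) (Function.update η (vec (plus d), 0) b) *
          g (plus d) (Function.update η (vec (plus d), 0) b (vec (plus d), 0)) =
          acc (plus d) η * g (plus d) b := by
        intro b
        rw [Function.update_self, acc_nd]
        intro h
        have h1 := congrArg Prod.fst h
        exact vec_ne_zero (plus d) (congrFun h1 0)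
      simp only [this]
      rw [integral_const_mul, h0, mul_zero]
    · intro η
      rw [abs_mul]
      have := mul_le_mul (a0 (plus d) η) (hp (η (vec (plus d), 0))) (abs_nonneg _) zero_le_one
      linarith
  -- the backward edge
  have e2 : Fr q (fun η : Env d lo κ => acc (minus d) η * g (minus d) (η (vec (minus d), 0)) +
      (mean q / κ - acc (minus d) η) * g (minus d) (η (0, 0))) 0 0 0 (2 * cm) := by
    refine Fr.of_bdd (((Good.acc _).mul (Good.of_edge _ (hm _) hmi)).add
      (((Good.const _).sub (Good.acc _)).mul (Good.of_edge _ (hm _) hmi))) fun η => ?_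
    refine (abs_add_le _ _).trans ?_
    rw [abs_mul, abs_mul]
    have h1 := mul_le_mul (a0 (minus d) η) (hmi (η (vec (minus d), 0))) (abs_nonneg _) zero_le_one
    have h2 := mul_le_mul (mk_abs (q := q) hlo hκ (minus d) η) (hmi (η (0, 0))) (abs_nonneg _)
      zero_le_one
    linarith
  -- the other edges
  have e3 : Fr q (fun η : Env d lo κ => ∑ y ∈ Finset.univ.filter (fun y : Dir d => y.1 ≠ 0),
      acc y η * g y (η (vec y, 0))) ((Finset.univ.filter (fun y : Dir d => y.1 ≠ 0)).card * c) c
        0 0 := by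
    refine Fr.inj _ (e := fun y : Dir d => (vec y, 0)) ?_ ?_ ?_ hc ?_ ?_
    · intro y _ y' _ h
      exact vec_injective (congrArg Prod.fst h)
    · intro y hy
      exact (Good.acc _).mul (g0 y (Finset.mem_filter.1 hy).2 _)
    · intro y hy η
      have hy' := (Finset.mem_filter.1 hy).2
      have : ∀ b : Set.Icc lo κ, acc y (Function.update η (vec y, 0) b) *
          g y (Function.update η (vec y, 0) b (vec y, 0)) = acc y η * g y b := by
        intro b
        rw [Function.update_self, acc_nd]
        intro h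
        have h1 := congrArg Prod.snd h
        rw [edge_snd] at h1
        exact hy' h1.symm
      simp only [this]
      rw [integral_const_mul, h0, mul_zero]
    · intro y hy η
      rw [abs_mul]
      have := mul_le_mul (a0 y η) (hl y (Finset.mem_filter.1 hy).2 (η (vec y, 0)))
        (abs_nonneg _) zero_le_one
      linarith
    · intro y hy h
      exact vec_ne_zero y (h.2 y.1 (Finset.mem_filter.1 hy).2)
  have e4 : Fr q (fun η : Env d lo κ => ∑ y ∈ Finset.univ.filter (fun y : Dir d => y.1 ≠ 0),
      (mean q / κ - acc y η) * g y (η (0, 0)))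
        ((Finset.univ.filter (fun y : Dir d => y.1 ≠ 0)).card * c) c 0 0 := by
    refine Fr.inj _ (e := fun y : Dir d => edge 0 y) ?_ ?_ ?_ hc ?_ ?_
    · intro y _ y' _ h
      exact edge_injective h
    · intro y hy
      exact ((Good.const _).sub (Good.acc _)).mul (g0 y (Finset.mem_filter.1 hy).2 _)
    · intro y hy η
      have hy' := (Finset.mem_filter.1 hy).2
      have hne' : ((0, 0) : Edge d) ≠ edge 0 y := by
        intro h
        have h1 := congrArg Prod.snd h
        rw [edge_snd] at h1
        exact hy' h1.symm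
      have : ∀ b : Set.Icc lo κ, (mean q / κ - acc y (Function.update η (edge 0 y) b)) *
          g y (Function.update η (edge 0 y) b (0, 0)) =
          (mean q / κ - (b : ℝ) / κ) * g y (η (0, 0)) := by
        intro b
        rw [Function.update_of_ne hne']
        unfold acc
        rw [Function.update_self]
      simp only [this]
      have hint : ∫ b : Set.Icc lo κ, (mean q / κ - (b : ℝ) / κ) ∂q = 0 := by
        have e5 : ∀ b : Set.Icc lo κ, mean q / κ - (b : ℝ) / κ =
            mean q / κ - 1 / κ * (b : ℝ) := fun b => by ring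
        simp only [e5]
        rw [integral_sub (integrable_const _) (integrable_val.const_mul _), integral_const_mul]
        have e6 : ∫ b : Set.Icc lo κ, (b : ℝ) ∂q = mean q := rfl
        rw [e6]
        simp
        ring
      rw [integral_mul_const, hint, zero_mul]
    · intro y hy η
      rw [abs_mul]
      have := mul_le_mul (mk_abs (q := q) hlo hκ y η)
        (hl y (Finset.mem_filter.1 hy).2 (η (0, 0))) (abs_nonneg _) zero_le_one
      linarith
    · intro y hy
      exact edge_not_ax (Finset.mem_filter.1 hy).2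
  rw [lm_card] at e3 e4
  refine Fr.mono (Fr.congr ((e1.add e2).add (e3.add e4)) ?_)
    (W' := cp + 2 * (2 * d * c)) (ω' := 2 * c) (ε' := 0) (δ' := 2 * cm) ?_ ?_ ?_ ?_
  · intro η
    unfold NVB.Tot
    rw [lm_filter, Finset.sum_add_distrib]
  · linarith
  · linarith
  · linarith
  · linarith

/-! ### the corrector -/

/-- the corrector as a function of the environment -/
noncomputable def hf (μ : ℝ) (q : Measure (Set.Icc lo κ)) (α : ℝ) (η : Env d lo κ) : ℝ :=
  hh μ q α (η (0, 0))

/-- the error -/
noncomputable def E0 (μ : ℝ) (q : Measure (Set.Icc lo κ)) (l : ℝ) (η : Env d lo κ) : ℝ :=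
  K l (hf μ q (p l (plus d))) η -
    (ww μ q (p l (plus d)) / κ + hf μ q (p l (plus d)) η * ((κ + μ) / κ))

theorem p_plus_le (l : ℝ) : p l (plus d) ≤ 1 := by
  have h1 := Finset.single_le_sum (f := fun y : Dir d => p l y) (fun y _ => p_nonneg l y)
    (Finset.mem_univ (plus d))
  rw [sum_p] at h1
  exact h1

theorem E0_eq (hlo : 0 ≤ lo) (hκ : 0 < κ) (hμ : 0 < μ) (l : ℝ) (η : Env d lo κ) :
    E0 μ q l η = Tot q (fun y w => p l y * hh μ q (p l (plus d)) w) η -
      p l (minus d) * acc (minus d) η := by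
  have h1 := hh_eq (q := q) hlo hκ hμ (p_nonneg l (plus d)) (p_plus_le l) (η (0, 0))
  have h2 := sum_p (d := d) l
  rw [sum_dir] at h2
  unfold E0
  rw [K_eq, sum_dir, vec_plus, vec_minus]
  have h3 : ∀ y : Dir d, hf μ q (p l (plus d)) (sh (vec y) η) =
      hh μ q (p l (plus d)) (η (vec y, 0)) := by
    intro y
    unfold hf sh
    rw [zero_add]
  simp only [h3]
  have h4 : lm (fun y : Dir d => p l y * (acc y η * (((vec y 0 : ℤ) : ℝ) +
      (hh μ q (p l (plus d)) (η (vec y, 0)) - hf μ q (p l (plus d)) η)))) =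
      lm (fun y => acc y η * (p l y * hh μ q (p l (plus d)) (η (vec y, 0))) +
        (mean q / κ - acc y η) * (p l y * hh μ q (p l (plus d)) (η (0, 0)))) -
      mean q / κ * hh μ q (p l (plus d)) (η (0, 0)) * lm (p l : Dir d → ℝ) := by
    rw [← lm_mul, ← lm_sub]
    refine lm_congr fun y hy => ?_
    rw [vec_of_ne (Ne.symm hy)]
    unfold hf
    push_cast
    ring
  rw [h4]
  unfold Tot
  have h5 : acc (plus d) η = (η (0, 0) : ℝ) / κ := rfl
  have h6 : hf μ q (p l (plus d)) η = hh μ q (p l (plus d)) (η (0, 0)) := rfl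
  rw [h5, h6]
  have h7 : lm (p l : Dir d → ℝ) = 1 - p l (plus d) - p l (minus d) := by linarith
  rw [h7]
  push_cast
  linarith

end Pool.Agent.NVB
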