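import Pool.Agent.NVB.Er

/-!
# Bounds of the error of the limit model
-/

set_option autoImplicit false

namespace Pool.Agent.NVB

open MeasureTheory ProbabilityTheory Filter Topology
open scoped Classical ENNReal

variable {d : ℕ} {lo κ : ℝ} {μ : ℝ} {q : Measure (Set.Icc lo κ)} [IsProbabilityMeasure q]

/-! ### the direction probabilities -/

theorem z_anti {l l' : ℝ} (hl : 0 ≤ l) (h : l ≤ l') : 1 / Z d l' ≤ 1 / Z d l :=
  one_div_le_one_div_of_le (Z_pos l) (Z_mono hl h)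

theorem dp_eq (l l' : ℝ) : p l' (plus d) - p l (plus d) =
    2 * d * (1 / Z d l - 1 / Z d l') + (p l (minus d) - p l' (minus d)) := by
  have h1 := sum_p (d := d) l
  have h2 := sum_p (d := d) l'
  rw [sum_dir, lm_p] at h1 h2
  linarith

theorem dm_nonneg {l l' : ℝ} (hl : 0 ≤ l) (h : l ≤ l') :
    0 ≤ p l (minus d) - p l' (minus d) := by
  have := p_anti (d := d) hl h (y := minus d) (by simp)
  linarith

theorem dp_nonneg {l l' : ℝ} (hl : 0 ≤ l) (h : l ≤ l') :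
    0 ≤ p l' (plus d) - p l (plus d) := by
  rw [dp_eq]
  have h1 := z_anti (d := d) hl h
  have h2 := dm_nonneg (d := d) hl h
  have h3 : 0 ≤ 2 * d * (1 / Z d l - 1 / Z d l') := mul_nonneg (by positivity) (by linarith)
  linarith

theorem dl_le {l l' : ℝ} (hl : 0 ≤ l) (h : l ≤ l') :
    2 * d * (1 / Z d l - 1 / Z d l') ≤ p l' (plus d) - p l (plus d) := by
  have := dm_nonneg (d := d) hl h
  have := dp_eq (d := d) l l'
  linarith

theorem dm_le {l l' : ℝ} (hl : 0 ≤ l) (h : l ≤ l') :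
    p l (minus d) - p l' (minus d) ≤ p l' (plus d) - p l (plus d) := by
  have h1 := z_anti (d := d) hl h
  have h3 : 0 ≤ 2 * d * (1 / Z d l - 1 / Z d l') := mul_nonneg (by positivity) (by linarith)
  have := dp_eq (d := d) l l'
  linarith

theorem p_plus_val (l : ℝ) : p l (plus d) = Real.exp l / Z d l := by
  unfold p
  rw [vec_plus]
  norm_num

theorem p_minus_val (l : ℝ) : p l (minus d) = Real.exp (-l) / Z d l := by
  unfold p
  rw [vec_minus]
  norm_num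

/-- for a large bias the backward direction gains much less than the forward direction -/
theorem dm_small (hd : 1 ≤ d) {l l' : ℝ} (hl : 0 ≤ l) (h : l ≤ l') :
    p l (minus d) - p l' (minus d) ≤
      2 / Real.exp l * (p l' (plus d) - p l (plus d)) := by
  have hd' : (1 : ℝ) ≤ d := by exact_mod_cast hd
  rw [p_plus_val, p_plus_val, p_minus_val, p_minus_val, Z_eq, Z_eq, Real.exp_neg, Real.exp_neg]
  set t := Real.exp l with ht
  set t' := Real.exp l' with ht'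
  have h1 : 1 ≤ t := Real.one_le_exp hl
  have h2 : t ≤ t' := Real.exp_le_exp.2 h
  have h0 : 0 < t := by linarith
  have h0' : 0 < t' := by linarith
  set n : ℝ := 2 * d with hn
  have hn2 : 2 ≤ n := by
    rw [hn]
    linarith
  have Zp : 0 < n + (t + t⁻¹) := by positivity
  have Zp' : 0 < n + (t' + t'⁻¹) := by positivity
  have e1 : t⁻¹ / (n + (t + t⁻¹)) - t'⁻¹ / (n + (t' + t'⁻¹)) =
      (t' - t) * (n + t + t') / (t * t') / ((n + (t + t⁻¹)) * (n + (t' + t'⁻¹))) := by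
    field_simp
    ring
  have e2 : t' / (n + (t' + t'⁻¹)) - t / (n + (t + t⁻¹)) =
      (t' - t) * (n * (t * t') + t + t') / (t * t') /
        ((n + (t + t⁻¹)) * (n + (t' + t'⁻¹))) := by
    field_simp
    ring
  rw [e1, e2, ← mul_div_assoc]
  apply div_le_div_of_nonneg_right _ (by positivity)
  rw [← mul_div_assoc]
  apply div_le_div_of_nonneg_right _ (by positivity)
  have e3 : 2 / t * ((t' - t) * (n * (t * t') + t + t')) =
      (t' - t) * (2 * n * t' + 2 + 2 * t' / t) := by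
    field_simp
  rw [e3]
  apply mul_le_mul_of_nonneg_left _ (by linarith)
  have e4 : 0 ≤ 2 * t' / t := by positivity
  nlinarith

/-! ### the bounds of the corrector -/

theorem S_facts (hκ : 0 < κ) (hμ : 0 < μ) {S : ℝ} (hS : S = (κ + μ) / μ) :
    1 ≤ S ∧ κ / μ = S - 1 ∧ (μ + κ) / μ = S ∧ κ / (κ + μ) = (S - 1) / S ∧
      (κ + μ) / κ * (S - 1) = S := by
  have h1 : κ / μ = S - 1 := by
    rw [hS]
    field_simp
    ring
  have h2 : (μ + κ) / μ = S := by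
    rw [hS, add_comm]
  refine ⟨?_, h1, h2, ?_, ?_⟩
  · rw [hS, one_le_div hμ]
    linarith
  · rw [← h1, hS]
    field_simp
  · rw [← h1, hS]
    field_simp

theorem hh_S (hlo : 0 ≤ lo) (hκ : 0 < κ) (hμ : 0 < μ) {S : ℝ} (hS : S = (κ + μ) / μ) {α : ℝ}
    (h0 : 0 ≤ α) (hα : α ≤ 1) (w : Set.Icc lo κ) : |hh μ q α w| ≤ α * S ^ 2 := by
  obtain ⟨h1, h2, h3, _, _⟩ := S_facts hκ hμ hS
  have h4 := hh_abs (q := q) hlo hκ hμ h0 hα w
  rw [h2, h3] at h4
  refine h4.trans (mul_le_mul_of_nonneg_left ?_ h0)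
  nlinarith

theorem hh_S' (hlo : 0 ≤ lo) (hκ : 0 < κ) (hμ : 0 < μ) {S : ℝ} (hS : S = (κ + μ) / μ) {α : ℝ}
    (h0 : 0 ≤ α) (hα : α ≤ 1) (w : Set.Icc lo κ) :
    |hh μ q α w * ((κ + μ) / κ)| ≤ α * S ^ 2 := by
  obtain ⟨h1, h2, h3, _, h5⟩ := S_facts hκ hμ hS
  have h4 := hh_abs (q := q) hlo hκ hμ h0 hα w
  rw [h2, h3] at h4
  have hp : 0 < (κ + μ) / κ := by positivity
  rw [abs_mul, abs_of_pos hp]
  have h6 := mul_le_mul_of_nonneg_right h4 hp.le
  have h7 : α * ((S - 1) * S) * ((κ + μ) / κ) = α * (((κ + μ) / κ * (S - 1)) * S) := by ring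
  rw [h7, h5] at h6
  refine h6.trans (le_of_eq ?_)
  ring

theorem hh_SL (hlo : 0 ≤ lo) (hκ : 0 < κ) (hμ : 0 < μ) {S : ℝ} (hS : S = (κ + μ) / μ) {α β : ℝ}
    (h0 : 0 ≤ α) (hαβ : α ≤ β) (hβ : β ≤ 1) (w : Set.Icc lo κ) :
    |hh μ q β w - hh μ q α w| ≤ (β - α) * S ^ 4 := by
  obtain ⟨h1, h2, h3, _, _⟩ := S_facts hκ hμ hS
  have h4 := hh_diff (q := q) hlo hκ hμ h0 (hαβ.trans hβ) (h0.trans hαβ) hβ w
  rw [h2, h3, abs_of_nonneg (by linarith : 0 ≤ β - α)] at h4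
  refine h4.trans (mul_le_mul_of_nonneg_left ?_ (by linarith))
  have : (S - 1) * (S + 1) * S ^ 2 = S ^ 4 - S ^ 2 := by ring
  rw [this]
  nlinarith [sq_nonneg S]

theorem Good.hf (hlo : 0 ≤ lo) (hκ : 0 < κ) (hμ : 0 < μ) {α : ℝ} (h0 : 0 ≤ α) (hα : α ≤ 1) :
    Good (NVB.hf μ q α : Env d lo κ → ℝ) :=
  Good.of_edge (0, 0) (hh_measurable α) (hh_abs (q := q) hlo hκ hμ h0 hα)

theorem Good.E0 (hlo : 0 ≤ lo) (hκ : 0 < κ) (hμ : 0 < μ) (l : ℝ) :
    Good (NVB.E0 μ q l : Env d lo κ → ℝ) := by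
  have h1 := Good.hf (d := d) (q := q) hlo hκ hμ (p_nonneg l (plus d)) (p_plus_le l)
  have h2 : Good fun η : Env d lo κ => NVB.hf μ q (p l (plus d)) η * ((κ + μ) / κ) :=
    h1.mul (Good.const _)
  exact (h1.K l).sub ((Good.const _).add h2)

/-- the error is small -/
theorem Fr.E0 (hlo : 0 ≤ lo) (hκ : 0 < κ) (hμ : 0 < μ) {S : ℝ} (hS : S = (κ + μ) / μ) {l : ℝ}
    (hl : 0 ≤ l) : Fr q (NVB.E0 μ q l : Env d lo κ → ℝ) (3 * (p l (plus d) * S ^ 2))
      (2 * (1 / Z d l * (p l (plus d) * S ^ 2))) 0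
      (1 / Z d l * (2 * (p l (plus d) * S ^ 2) + 1)) := by
  obtain ⟨h1, _, _, _, _⟩ := S_facts hκ hμ hS
  have ha0 := p_nonneg l (plus d)
  have ha1 := p_plus_le (d := d) l
  set α := p l (plus d) with hα
  have hb : ∀ w : Set.Icc lo κ, |hh μ q α w| ≤ α * S ^ 2 := hh_S hlo hκ hμ hS ha0 ha1
  set H := α * S ^ 2 with hH
  have hH0 : 0 ≤ H := by positivity
  have hz : 0 < 1 / Z d l := one_div_pos.2 (Z_pos l)
  have hz2 : 2 * d * (1 / Z d l) ≤ 1 := nz_le l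
  set z := 1 / Z d l with hzdef
  have hpm : p l (minus d) ≤ z := p_minus_le hl
  have hpm0 := p_nonneg l (minus d)
  have hb' : ∀ (y : Dir d) (w : Set.Icc lo κ), |p l y * hh μ q α w| ≤ p l y * H := by
    intro y w
    rw [abs_mul, abs_of_nonneg (p_nonneg l y)]
    exact mul_le_mul_of_nonneg_left (hb w) (p_nonneg l y)
  have h2 := Fr.Tot (q := q) (g := fun y w => p l y * hh μ q α w) hlo hκ
    (fun y => (hh_measurable α).const_mul _)
    (fun y => by rw [integral_const_mul, hh_int hlo hκ hμ ha0 ha1, mul_zero])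
    (cp := H) (c := z * H) (cm := z * H) (by positivity)
    (fun b => (hb' _ b).trans (by nlinarith))
    (fun y hy b => (hb' y b).trans (by rw [p_lat l hy]))
    (fun b => (hb' _ b).trans (mul_le_mul_of_nonneg_right hpm hH0))
  have h3 : Fr q (fun η : Env d lo κ => -(p l (minus d) * acc (minus d) η)) 0 0 0 z := by
    refine Fr.neg (Fr.of_bdd ((Good.acc _).const_mul _) fun η => ?_)
    rw [abs_mul, abs_of_nonneg hpm0, abs_of_nonneg (acc_nonneg hlo hκ _ η)]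
    have := acc_le hκ (minus d) η
    nlinarith
  refine Fr.mono (Fr.congr (h2.add h3) fun η => ?_) (W' := 3 * H) (ω' := 2 * (z * H)) (ε' := 0)
    (δ' := z * (2 * H + 1)) ?_ ?_ ?_ ?_
  · rw [E0_eq hlo hκ hμ, sub_eq_add_neg]
  · have : 2 * (2 * d * (z * H)) = 2 * ((2 * d * z) * H) := by ring
    rw [this]
    nlinarith
  · linarith
  · linarith
  · linarith

theorem E0_abs (hlo : 0 ≤ lo) (hκ : 0 < κ) (hμ : 0 < μ) {S : ℝ} (hS : S = (κ + μ) / μ) {l : ℝ}
    (hl : 0 ≤ l) (η : Env d lo κ) :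
    |E0 μ q l η| ≤ 5 * S ^ 2 * (p l (plus d) + 1 / Z d l) := by
  obtain ⟨h1, _, _, _, _⟩ := S_facts hκ hμ hS
  have h2 := (Fr.E0 (d := d) (q := q) hlo hκ hμ hS hl).abs_le η
  have ha0 := p_nonneg l (plus d)
  have ha1 := p_plus_le (d := d) l
  have hz : 0 < 1 / Z d l := one_div_pos.2 (Z_pos l)
  set α := p l (plus d) with hα
  set z := 1 / Z d l with hzdef
  refine h2.trans ?_
  have hS2 : 1 ≤ S ^ 2 := one_le_pow₀ h1
  have e1 : z * (2 * (α * S ^ 2) + 1) = z * (2 * (α * S ^ 2)) + z := by ring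
  have e2 : z * (2 * (α * S ^ 2)) ≤ z * (2 * (1 * S ^ 2)) := by gcongr
  have e3 : z * 1 ≤ z * S ^ 2 := mul_le_mul_of_nonneg_left hS2 hz.le
  have e4 : 0 ≤ α * S ^ 2 := by positivity
  have e5 : 0 ≤ z * S ^ 2 := by positivity
  nlinarith

theorem ph_eq (l : ℝ) : ph d l = p l (plus d) + p l (minus d) := by
  unfold ph
  rw [sum_dir, vec_plus, vec_minus]
  have : lm (fun y : Dir d => p l y * |((vec y 0 : ℤ) : ℝ)|) = 2 * d * 0 := by
    refine lm_eq fun y hy => ?_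
    rw [vec_of_ne (Ne.symm hy)]
    simp
  rw [this]
  norm_num

theorem Th.E0 (hlo : 0 ≤ lo) (hκ : 0 < κ) (hμ : 0 < μ) {S : ℝ} (hS : S = (κ + μ) / μ) {l : ℝ}
    (hl : 0 ≤ l) : Th (NVB.E0 μ q l : Env d lo κ → ℝ)
      (7 * S ^ 2 * (p l (plus d) + 1 / Z d l)) := by
  obtain ⟨h1, _, _, _, _⟩ := S_facts hκ hμ hS
  have ha0 := p_nonneg l (plus d)
  have ha1 := p_plus_le (d := d) l
  have hpm : p l (minus d) ≤ 1 / Z d l := p_minus_le hl
  have hz : 0 < 1 / Z d l := one_div_pos.2 (Z_pos l)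
  have hph := ph_eq (d := d) l
  set α := p l (plus d) with hα
  set z := 1 / Z d l with hzdef
  have hb : ∀ w : Set.Icc lo κ, |hh μ q α w| ≤ α * S ^ 2 := hh_S hlo hκ hμ hS ha0 ha1
  have hb2 : ∀ w : Set.Icc lo κ, |hh μ q α w * ((κ + μ) / κ)| ≤ α * S ^ 2 :=
    hh_S' hlo hκ hμ hS ha0 ha1
  set H := α * S ^ 2 with hH
  have hH0 : 0 ≤ H := by positivity
  have o1 : ∀ b b' : Set.Icc lo κ, |hh μ q α b - hh μ q α b'| ≤ 2 * H := by
    intro b b'
    have a1 := _root_.abs_le.1 (hb b)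
    have a2 := _root_.abs_le.1 (hb b')
    rw [_root_.abs_le]
    constructor <;> linarith [a1.1, a1.2, a2.1, a2.2]
  have o2 : ∀ b b' : Set.Icc lo κ, |(ww μ q α / κ + hh μ q α b * ((κ + μ) / κ)) -
      (ww μ q α / κ + hh μ q α b' * ((κ + μ) / κ))| ≤ 2 * H := by
    intro b b'
    have a1 := _root_.abs_le.1 (hb2 b)
    have a2 := _root_.abs_le.1 (hb2 b')
    rw [_root_.abs_le]
    constructor <;> linarith [a1.1, a1.2, a2.1, a2.2]
  have m1 := hh_measurable (μ := μ) (q := q) α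
  have g1 : Good (NVB.hf μ q α : Env d lo κ → ℝ) := Good.hf hlo hκ hμ ha0 ha1
  have t1 : Th (NVB.hf μ q α : Env d lo κ → ℝ) (2 * H) :=
    Th.single (0, 0) m1 hb (by positivity) o1
  have t2 := Th.K hlo hκ l g1 (by positivity) (o := 2 * H)
    (fun η η' => o1 (η' (0, 0)) (η (0, 0))) t1
  have t3 : Th (fun η : Env d lo κ => ww μ q α / κ + NVB.hf μ q α η * ((κ + μ) / κ)) (2 * H) := by
    refine Th.single (0, 0) (u := fun b => ww μ q α / κ + hh μ q α b * ((κ + μ) / κ))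
      ((m1.mul_const _).const_add _) (M := |ww μ q α / κ| + H) (fun b => ?_) (by positivity) o2
    exact (abs_add_le _ _).trans (add_le_add le_rfl (hb2 b))
  have g2 : Good fun η : Env d lo κ => ww μ q α / κ + NVB.hf μ q α η * ((κ + μ) / κ) :=
    (Good.const _).add (g1.mul (Good.const _))
  have t4 := Th.sub (g1.K l) g2 t2 t3
  refine Th.mono t4 ?_
  rw [hph]
  have hS2 : 1 ≤ S ^ 2 := one_le_pow₀ h1
  have e3 : z * 1 ≤ z * S ^ 2 := mul_le_mul_of_nonneg_left hS2 hz.le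
  have e4 : α * 1 ≤ α * S ^ 2 := mul_le_mul_of_nonneg_left hS2 ha0
  have e5 : 0 ≤ z * S ^ 2 := by positivity
  have e6 : 7 * S ^ 2 * (α + z) = 7 * (α * S ^ 2) + 7 * (z * S ^ 2) := by ring
  rw [e6]
  linarith

end Pool.Agent.NVB
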