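import Pool.Agent.NVB.Er2

/-!
# Changes of the bias
-/

set_option autoImplicit false

namespace Pool.Agent.NVB

open MeasureTheory ProbabilityTheory Filter Topology
open scoped Classical ENNReal

variable {d : ℕ} {lo κ : ℝ} {μ : ℝ} {q : Measure (Set.Icc lo κ)} [IsProbabilityMeasure q]

/-! ### the change of the error -/

/-- the change of the error, without the change of the backward displacement -/
noncomputable def dE (μ : ℝ) (q : Measure (Set.Icc lo κ)) (l l' : ℝ) (η : Env d lo κ) : ℝ :=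
  Tot q (fun y w => p l' y * hh μ q (p l' (plus d)) w - p l y * hh μ q (p l (plus d)) w) η

theorem E0_diff (hlo : 0 ≤ lo) (hκ : 0 < κ) (hμ : 0 < μ) (l l' : ℝ) (η : Env d lo κ) :
    E0 μ q l' η - E0 μ q l η = dE μ q l l' η +
      (p l (minus d) - p l' (minus d)) * acc (minus d) η := by
  rw [E0_eq hlo hκ hμ, E0_eq hlo hκ hμ]
  unfold dE
  rw [Tot_sub]
  ring

theorem Fr.dE (hlo : 0 ≤ lo) (hκ : 0 < κ) (hμ : 0 < μ) {S : ℝ} (hS : S = (κ + μ) / μ) {l l' : ℝ}
    (hl : 0 ≤ l) (hll : l ≤ l') {dp dl dm z : ℝ} (hdp : dp = p l' (plus d) - p l (plus d))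
    (hdl : dl = 1 / Z d l - 1 / Z d l') (hdm : dm = p l (minus d) - p l' (minus d))
    (hz : z = 1 / Z d l) :
    Fr q (NVB.dE μ q l l' : Env d lo κ → ℝ) (6 * (dp * S ^ 4))
      (2 * (dl * S ^ 2 + z * (dp * S ^ 4))) 0
      (2 * (dm * (p l' (plus d) * S ^ 2) + z * (dp * S ^ 4))) := by
  obtain ⟨h1, _, _, _, _⟩ := S_facts hκ hμ hS
  have hl' : 0 ≤ l' := hl.trans hll
  have ha0 := p_nonneg l (plus d)
  have ha1 := p_plus_le (d := d) l
  have ha0' := p_nonneg l' (plus d)
  have ha1' := p_plus_le (d := d) l'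
  have hdp0 : 0 ≤ dp := by
    rw [hdp]
    exact dp_nonneg hl hll
  have hdl0 : 0 ≤ dl := by
    rw [hdl]
    have := z_anti (d := d) hl hll
    linarith
  have hdm0 : 0 ≤ dm := by
    rw [hdm]
    exact dm_nonneg hl hll
  have hndl : 2 * d * dl ≤ dp := by
    rw [hdp, hdl]
    exact dl_le hl hll
  have hz0 : 0 < z := by
    rw [hz]
    exact one_div_pos.2 (Z_pos l)
  have hnz : 2 * d * z ≤ 1 := by
    rw [hz]
    exact nz_le l
  have hpm : p l (minus d) ≤ z := by
    rw [hz]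
    exact p_minus_le hl
  have hpm0 := p_nonneg l (minus d)
  set α := p l (plus d) with hα
  set α' := p l' (plus d) with hα'
  have hαα : α ≤ α' := by linarith
  have hb : ∀ w : Set.Icc lo κ, |hh μ q α' w| ≤ α' * S ^ 2 := hh_S hlo hκ hμ hS ha0' ha1'
  have hbL : ∀ w : Set.Icc lo κ, |hh μ q α' w - hh μ q α w| ≤ dp * S ^ 4 := by
    intro w
    rw [hdp]
    exact hh_SL hlo hκ hμ hS ha0 hαα ha1' w
  have hS2 : 1 ≤ S ^ 2 := one_le_pow₀ h1
  have hS4 : S ^ 2 ≤ S ^ 4 := pow_le_pow_right₀ h1 (by norm_num)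
  set H := α' * S ^ 2 with hH
  set T := dp * S ^ 4 with hT
  have hH0 : 0 ≤ H := by positivity
  have hT0 : 0 ≤ T := by positivity
  have hHS : H ≤ S ^ 2 := by
    rw [hH]
    have : α' * S ^ 2 ≤ 1 * S ^ 2 := mul_le_mul_of_nonneg_right ha1' (by positivity)
    linarith
  have hb' : ∀ (y : Dir d) (w : Set.Icc lo κ),
      |p l' y * hh μ q α' w - p l y * hh μ q α w| ≤ |p l' y - p l y| * H + p l y * T := by
    intro y w
    have e1 : p l' y * hh μ q α' w - p l y * hh μ q α w =
        (p l' y - p l y) * hh μ q α' w + p l y * (hh μ q α' w - hh μ q α w) := by ring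
    rw [e1]
    refine (abs_add_le _ _).trans ?_
    rw [abs_mul, abs_mul, abs_of_nonneg (p_nonneg l y)]
    exact add_le_add (mul_le_mul_of_nonneg_left (hb w) (abs_nonneg _))
      (mul_le_mul_of_nonneg_left (hbL w) (p_nonneg l y))
  have h2 := Fr.Tot (q := q)
    (g := fun y w => p l' y * hh μ q α' w - p l y * hh μ q α w) hlo hκ
    (fun y => ((hh_measurable α').const_mul _).sub ((hh_measurable α).const_mul _))
    (fun y => by
      have i1 : Integrable (fun w : Set.Icc lo κ => p l' y * hh μ q α' w) q :=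
        Integrable.of_bound ((hh_measurable α').const_mul _).aestronglyMeasurable
          (p l' y * H) (Eventually.of_forall fun w => by
            rw [Real.norm_eq_abs, abs_mul, abs_of_nonneg (p_nonneg l' y)]
            exact mul_le_mul_of_nonneg_left (hb w) (p_nonneg l' y))
      have i2 : Integrable (fun w : Set.Icc lo κ => p l y * hh μ q α w) q :=
        Integrable.of_bound ((hh_measurable α).const_mul _).aestronglyMeasurable
          (p l y * (α * S ^ 2)) (Eventually.of_forall fun w => by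
            rw [Real.norm_eq_abs, abs_mul, abs_of_nonneg (p_nonneg l y)]
            exact mul_le_mul_of_nonneg_left (hh_S hlo hκ hμ hS ha0 ha1 w) (p_nonneg l y))
      rw [integral_sub i1 i2, integral_const_mul, integral_const_mul,
        hh_int hlo hκ hμ ha0 ha1, hh_int hlo hκ hμ ha0' ha1', mul_zero, mul_zero, sub_zero])
    (cp := 2 * T) (c := dl * S ^ 2 + z * T) (cm := dm * H + z * T) (by positivity)
    (fun b => (hb' _ b).trans (by
      rw [← hα, ← hα', ← hdp, abs_of_nonneg hdp0]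
      have e1 : dp * H ≤ dp * S ^ 4 := mul_le_mul_of_nonneg_left (hHS.trans hS4) hdp0
      have e2 : α * T ≤ 1 * T := mul_le_mul_of_nonneg_right ha1 hT0
      linarith))
    (fun y hy b => (hb' y b).trans (by
      have e3 : p l' y - p l y = -dl := by
        rw [p_lat l hy, p_lat l' hy, hdl]
        ring
      rw [e3, abs_neg, abs_of_nonneg hdl0, p_lat l hy, ← hz]
      exact add_le_add (mul_le_mul_of_nonneg_left hHS hdl0) le_rfl))
    (fun b => (hb' _ b).trans (by
      have e3 : p l' (minus d) - p l (minus d) = -dm := by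
        rw [hdm]
        ring
      rw [e3, abs_neg, abs_of_nonneg hdm0]
      exact add_le_add le_rfl (mul_le_mul_of_nonneg_right hpm hT0)))
  refine Fr.mono h2 ?_ le_rfl le_rfl le_rfl
  have e1 : 2 * (2 * d * (dl * S ^ 2 + z * T)) =
      2 * ((2 * d * dl) * S ^ 2) + 2 * ((2 * d * z) * T) := by ring
  rw [e1]
  have e2 : (2 * d * dl) * S ^ 2 ≤ dp * S ^ 4 :=
    mul_le_mul hndl hS4 (by positivity) hdp0
  have e3 : (2 * d * z) * T ≤ 1 * T := mul_le_mul_of_nonneg_right hnz hT0
  linarith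

/-! ### the change of the attempt -/

/-- the change of the attempts in the directions different from the backward direction -/
noncomputable def Nn (l l' : ℝ) (f : Env d lo κ → ℝ) (η : Env d lo κ) : ℝ :=
  (p l' (plus d) - p l (plus d)) * (acc (plus d) η * (f (sh (vec (plus d)) η) - f η)) -
  (1 / Z d l - 1 / Z d l') * lm (fun y => acc y η * (f (sh (vec y) η) - f η))

theorem Kh_diff (l l' : ℝ) (f : Env d lo κ → ℝ) (η : Env d lo κ) :
    Kh l' f η - Kh l f η = Nn l l' f η - (p l (minus d) - p l' (minus d)) *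
      (acc (minus d) η * (f (sh (vec (minus d)) η) - f η)) := by
  have h1 : ∀ a : ℝ, Kh a f η = f η + ∑ y : Dir d, p a y * (acc y η * (f (sh (vec y) η) - f η)) := by
    intro a
    have h : f η = ∑ y : Dir d, p a y * f η := by rw [← Finset.sum_mul, sum_p, one_mul]
    rw [show f η + ∑ y : Dir d, p a y * (acc y η * (f (sh (vec y) η) - f η)) =
      (∑ y : Dir d, p a y * f η) + ∑ y : Dir d, p a y * (acc y η * (f (sh (vec y) η) - f η))
      by rw [← h], ← Finset.sum_add_distrib]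
    unfold Kh
    exact Finset.sum_congr rfl fun y _ => by ring
  have h2 : ∀ a : ℝ, lm (fun y : Dir d => p a y * (acc y η * (f (sh (vec y) η) - f η))) =
      1 / Z d a * lm (fun y : Dir d => acc y η * (f (sh (vec y) η) - f η)) := by
    intro a
    rw [← lm_mul]
    exact lm_congr fun y hy => by rw [p_lat a hy]
  rw [h1, h1, sum_dir, sum_dir, h2, h2]
  unfold Nn
  ring

theorem lm_zero : lm (fun _ : Dir d => (0 : ℝ)) = 0 := by
  unfold lm
  simp

theorem Fr.Nn (hlo : 0 ≤ lo) (hκ : 0 < κ) {l l' : ℝ} (hl : 0 ≤ l) (hll : l ≤ l')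
    {f : Env d lo κ → ℝ} {W ω ε δ : ℝ} (h : Fr q f W ω ε δ) (hω : 0 ≤ ω) (hε : 0 ≤ ε)
    (hδ : 0 ≤ δ) {dp dl : ℝ} (hdp : dp = p l' (plus d) - p l (plus d))
    (hdl : dl = 1 / Z d l - 1 / Z d l') :
    Fr q (NVB.Nn l l' f) (4 * (dp * W)) (4 * (dp * ω) + 2 * (dl * W)) (4 * (dp * (ε + ω)))
      (4 * (dp * (δ + ε + ω))) := by
  have hW := h.W0
  have hdp0 : 0 ≤ dp := by
    rw [hdp]
    exact dp_nonneg hl hll
  have hdl0 : 0 ≤ dl := by
    rw [hdl]
    have := z_anti (d := d) hl hll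
    linarith
  have hndl : 2 * d * dl ≤ dp := by
    rw [hdp, hdl]
    exact dl_le hl hll
  have hndl0 : 0 ≤ 2 * d * dl := by positivity
  set c1 : Dir d → ℝ := fun y => if y = plus d then dp else 0 with hc1
  set c2 : Dir d → ℝ := fun y => if y.1 = 0 then 0 else dl with hc2
  have c10 : ∀ y, 0 ≤ c1 y := fun y => by
    rw [hc1]
    beta_reduce
    split_ifs
    · exact hdp0
    · exact le_rfl
  have c20 : ∀ y, 0 ≤ c2 y := fun y => by
    rw [hc2]
    beta_reduce
    split_ifs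
    · exact le_rfl
    · exact hdl0
  have c1l : ∀ y : Dir d, y.1 ≠ 0 → c1 y = 0 := by
    intro y hy
    rw [hc1]
    beta_reduce
    rw [if_neg]
    rintro rfl
    exact hy rfl
  have c2l : ∀ y : Dir d, y.1 ≠ 0 → c2 y = dl := fun y hy => if_neg hy
  have l1 : lm c1 = 0 := by rw [lm_eq c1l, mul_zero]
  have l2 : lm c2 = 2 * d * dl := lm_eq c2l
  have c1p : c1 (plus d) = dp := if_pos rfl
  have c1m : c1 (minus d) = 0 := by
    rw [hc1]
    beta_reduce
    rw [if_neg (by simp)]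
  have c2p : c2 (plus d) = 0 := if_pos rfl
  have c2m : c2 (minus d) = 0 := if_pos rfl
  have s1 : ∑ y, c1 y = dp := by
    rw [sum_dir, l1, c1p, c1m]
    ring
  have s2 : ∑ y, c2 y = 2 * d * dl := by
    have := sum_dir c2
    linarith
  have hz : ∀ y : Dir d, Good (fun _ : Env d lo κ => (0 : ℝ)) := fun _ => Good.const 0
  have a0 : ∀ (y : Dir d) (η : Env d lo κ), 0 ≤ acc y η := fun y η => acc_nonneg hlo hκ y η
  have a1 : ∀ (y : Dir d) (η : Env d lo κ), acc y η ≤ 1 := fun y η => acc_le hκ y η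
  have k1 := Fr.comb (q := q) c10 le_rfl (fun y hy => (c1l y hy).le) (A := acc)
    (B := fun _ _ => 0) Good.acc hz a0 (fun _ _ => le_rfl) (fun y η => by linarith [a1 y η])
    (fun y e he => acc_nd he) (fun y e he η b => rfl) h hω hε hδ
  have k2 := Fr.comb (q := q) c10 le_rfl (fun y hy => (c1l y hy).le) (A := fun _ _ => 0)
    (B := acc) hz Good.acc (fun _ _ => le_rfl) a0 (fun y η => by linarith [a1 y η])
    (fun y e he η b => rfl) (fun y e he => acc_nd he) h hω hε hδ
  have k3 := Fr.comb (q := q) c20 hdl0 (fun y hy => (c2l y hy).le) (A := acc)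
    (B := fun _ _ => 0) Good.acc hz a0 (fun _ _ => le_rfl) (fun y η => by linarith [a1 y η])
    (fun y e he => acc_nd he) (fun y e he η b => rfl) h hω hε hδ
  have k4 := Fr.comb (q := q) c20 hdl0 (fun y hy => (c2l y hy).le) (A := fun _ _ => 0)
    (B := acc) hz Good.acc (fun _ _ => le_rfl) a0 (fun y η => by linarith [a1 y η])
    (fun y e he η b => rfl) (fun y e he => acc_nd he) h hω hε hδ
  rw [s1, l1, c1m] at k1 k2
  rw [s2, l2, c2m] at k3 k4
  have b1 : (2 * d * dl) * W ≤ dp * W := mul_le_mul_of_nonneg_right hndl hW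
  have b2 : (2 * d * dl) * ω ≤ dp * ω := mul_le_mul_of_nonneg_right hndl hω
  have b3 : (2 * d * dl) * ε ≤ dp * ε := mul_le_mul_of_nonneg_right hndl hε
  have b4 : (2 * d * dl) * δ ≤ dp * δ := mul_le_mul_of_nonneg_right hndl hδ
  have b5 : 0 ≤ dp * ω := by positivity
  have b6 : 0 ≤ dp * ε := by positivity
  have b7 : 0 ≤ dp * δ := by positivity
  refine Fr.mono (Fr.congr ((k1.add k2.neg).add (k3.neg.add k4)) fun η => ?_)
    (W' := 4 * (dp * W)) (ω' := 4 * (dp * ω) + 2 * (dl * W)) (ε' := 4 * (dp * (ε + ω)))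
    (δ' := 4 * (dp * (δ + ε + ω))) ?_ ?_ ?_ ?_
  · unfold NVB.Nn
    rw [← hdp, ← hdl]
    simp only [sum_dir, c1p, c1m, c2p, c2m]
    have g1 : lm (fun y => c1 y * (acc y η * f (sh (vec y) η) + 0 * f η)) = 0 := by
      rw [← lm_zero (d := d)]
      exact lm_congr fun y hy => by rw [c1l y hy]; ring
    have g2 : lm (fun y => c1 y * (0 * f (sh (vec y) η) + acc y η * f η)) = 0 := by
      rw [← lm_zero (d := d)]
      exact lm_congr fun y hy => by rw [c1l y hy]; ring
    have g3 : dl * lm (fun y => acc y η * (f (sh (vec y) η) - f η)) =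
        lm (fun y => c2 y * (acc y η * f (sh (vec y) η) + 0 * f η)) -
        lm (fun y => c2 y * (0 * f (sh (vec y) η) + acc y η * f η)) := by
      rw [← lm_mul, ← lm_sub]
      exact lm_congr fun y hy => by rw [c2l y hy]; ring
    rw [g1, g2, g3]
    ring
  · linarith
  · linarith
  · linarith
  · linarith

/-- the expectation after a gap and `j` steps -/
theorem It_bound (hlo : 0 ≤ lo) (hκ : 0 < κ) (hμ : 0 < μ) {l : ℝ} (hl : 0 ≤ l)
    {f : Env d lo κ → ℝ} {W ω ε δ : ℝ} (h : Fr q f W ω ε δ) (hω : 0 ≤ ω) (hε : 0 ≤ ε)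
    (hδ : 0 ≤ δ) {S z n : ℝ} (hS : S = (κ + μ) / μ) (hz : z = 1 / Z d l) (hn : n = 2 * d)
    (j : ℕ) (η : Env d lo κ) :
    |It μ q l j (G μ q f) η| ≤ (κ / (κ + μ)) ^ j * W +
      (δ + S * ε + z * (S ^ 2 * n * ω + S ^ 3 * W)) := by
  have hW := h.W0
  have hr1 : κ / (κ + μ) ≤ 1 := by
    rw [div_le_one (by positivity)]
    linarith
  have hG : Fr q (G μ q f) W ω ε δ := Fr.mono (h.G hκ hμ) (by nlinarith) (by nlinarith)
    (by nlinarith) le_rfl
  obtain ⟨ω', ε', δ', hω', hε', hδ', h1, h2, h3⟩ := hG.It hlo hκ hμ hl hω hε hδ hS hz hn j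
  have h4 := h1.abs_le η
  obtain ⟨hS1, _, _, _, _⟩ := S_facts hκ hμ hS
  have hz0 : 0 < z := by
    rw [hz]
    exact one_div_pos.2 (Z_pos l)
  have hn0 : 0 ≤ n := by
    rw [hn]
    positivity
  have h5 : 0 ≤ S * ε' := by positivity
  have h6 : 0 ≤ z * (S ^ 2 * n * ω' + S ^ 3 * ((κ / (κ + μ)) ^ j * W)) := by positivity
  linarith

end Pool.Agent.NVB
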