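import Pool.Agent.NVB.Infl

/-!
# Exponential laws
-/

set_option autoImplicit false

namespace Pool.Agent.NVB

open MeasureTheory ProbabilityTheory Filter Topology
open scoped Classical ENNReal

theorem meas_pdf (r : ℝ) : Measurable (exponentialPDF r) :=
  (measurable_exponentialPDFReal r).ennreal_ofReal

theorem exp_ae_pos {r : ℝ} (hr : 0 < r) : ∀ᵐ s ∂expMeasure r, 0 < s := by
  have := isProbabilityMeasure_expMeasure hr
  rw [ae_iff]
  have h1 : {s : ℝ | ¬ 0 < s} = Set.Iic 0 := by
    ext s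
    simp
  rw [h1]
  have h2 := ofReal_cdf (expMeasure r) 0
  rw [cdf_expMeasure_eq hr] at h2
  rw [← h2]
  simp

theorem exp_Ioi {r : ℝ} (hr : 0 < r) {x : ℝ} (hx : 0 ≤ x) :
    expMeasure r (Set.Ioi x) = ENNReal.ofReal (Real.exp (-(r * x))) := by
  have := isProbabilityMeasure_expMeasure hr
  have h2 := ofReal_cdf (expMeasure r) x
  rw [cdf_expMeasure_eq hr, if_pos hx] at h2
  rw [← Set.compl_Iic, prob_compl_eq_one_sub measurableSet_Iic, ← h2, ← ENNReal.ofReal_one,
    ← ENNReal.ofReal_sub]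
  · congr 1
    ring
  · have : Real.exp (-(r * x)) ≤ 1 := Real.exp_le_one_iff.2 (by nlinarith)
    linarith

theorem lintegral_exp_exp {κ μ : ℝ} (hκ : 0 < κ) (hμ : 0 < μ) :
    ∫⁻ s, ENNReal.ofReal (Real.exp (-(μ * s))) ∂expMeasure κ = ENNReal.ofReal (κ / (κ + μ)) := by
  have h0 : expMeasure κ = volume.withDensity (exponentialPDF κ) := rfl
  have hm := meas_pdf κ
  rw [h0, lintegral_withDensity_eq_lintegral_mul _ hm (by fun_prop)]
  have h1 : ∀ s : ℝ, (exponentialPDF κ * fun s => ENNReal.ofReal (Real.exp (-(μ * s)))) s =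
      ENNReal.ofReal (κ / (κ + μ)) * exponentialPDF (κ + μ) s := by
    intro s
    rw [Pi.mul_apply]
    rcases lt_or_ge s 0 with hs | hs
    · rw [exponentialPDF_of_neg hs, exponentialPDF_of_neg hs, zero_mul, mul_zero]
    · rw [exponentialPDF_of_nonneg hs, exponentialPDF_of_nonneg hs, ← ENNReal.ofReal_mul (by positivity),
        ← ENNReal.ofReal_mul (by positivity)]
      congr 1
      have h2 : -((κ + μ) * s) = -(κ * s) + -(μ * s) := by ring
      rw [h2, Real.exp_add]
      field_simp
  rw [lintegral_congr h1, lintegral_const_mul _ (meas_pdf _),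
    lintegral_exponentialPDF_eq_one (by linarith), mul_one]

/-- the clock of rate `μ` rings after the clock of rate `κ` -/
theorem race {κ μ : ℝ} (hκ : 0 < κ) (hμ : 0 < μ) :
    ((expMeasure κ).prod (expMeasure μ)) {t : ℝ × ℝ | t.1 < t.2} =
      ENNReal.ofReal (κ / (κ + μ)) := by
  have := isProbabilityMeasure_expMeasure hμ
  have := isProbabilityMeasure_expMeasure hκ
  rw [Measure.prod_apply (measurableSet_lt measurable_fst measurable_snd), ← lintegral_exp_exp hκ hμ]
  apply lintegral_congr_ae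
  filter_upwards [exp_ae_pos hκ] with s hs
  have h1 : Prod.mk s ⁻¹' {t : ℝ × ℝ | t.1 < t.2} = Set.Ioi s := by
    ext t
    simp
  rw [h1, exp_Ioi hμ hs.le]

theorem race' {κ μ : ℝ} (hκ : 0 < κ) (hμ : 0 < μ) :
    ((expMeasure κ).prod (expMeasure μ)).real {t : ℝ × ℝ | t.2 ≤ t.1} = 1 - κ / (κ + μ) := by
  have := isProbabilityMeasure_expMeasure hμ
  have := isProbabilityMeasure_expMeasure hκ
  have h1 : {t : ℝ × ℝ | t.2 ≤ t.1} = {t : ℝ × ℝ | t.1 < t.2}ᶜ := by
    ext t
    simp
  rw [h1, probReal_compl_eq_one_sub (measurableSet_lt measurable_fst measurable_snd), measureReal_def,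
    race hκ hμ, ENNReal.toReal_ofReal (by positivity)]

theorem exp_integrable {κ : ℝ} (hκ : 0 < κ) : Integrable (fun s : ℝ => s) (expMeasure κ) := by
  have h0 : expMeasure κ = volume.withDensity (exponentialPDF κ) := rfl
  have hm := meas_pdf κ
  refine ⟨by fun_prop, ?_⟩
  rw [HasFiniteIntegral, h0, lintegral_withDensity_eq_lintegral_mul _ hm (by fun_prop)]
  have h1 : ∀ s : ℝ, (exponentialPDF κ * fun s : ℝ => ‖s‖ₑ) s ≤
      ENNReal.ofReal (4 / κ) * exponentialPDF (κ / 2) s := by
    intro s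
    rw [Pi.mul_apply]
    rcases lt_or_ge s 0 with hs | hs
    · rw [exponentialPDF_of_neg hs, zero_mul]
      exact bot_le
    · rw [exponentialPDF_of_nonneg hs, exponentialPDF_of_nonneg hs, Real.enorm_eq_ofReal hs,
        ← ENNReal.ofReal_mul (by positivity), ← ENNReal.ofReal_mul (by positivity)]
      apply ENNReal.ofReal_le_ofReal
      have h2 : -(κ * s) = -(κ / 2 * s) + -(κ / 2 * s) := by ring
      have h3 : κ / 2 * s * Real.exp (-(κ / 2 * s)) ≤ 1 := by
        have h4 : κ / 2 * s ≤ Real.exp (κ / 2 * s) := by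
          have := Real.add_one_le_exp (κ / 2 * s)
          linarith
        rw [Real.exp_neg, ← div_eq_mul_inv, div_le_one (Real.exp_pos _)]
        exact h4
      rw [h2, Real.exp_add]
      have h5 : κ * (Real.exp (-(κ / 2 * s)) * Real.exp (-(κ / 2 * s))) * s =
          2 * (κ / 2 * s * Real.exp (-(κ / 2 * s))) * Real.exp (-(κ / 2 * s)) := by ring
      have h6 : 4 / κ * (κ / 2 * Real.exp (-(κ / 2 * s))) = 2 * 1 * Real.exp (-(κ / 2 * s)) := by
        field_simp
        norm_num
      rw [h5, h6]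
      exact mul_le_mul_of_nonneg_right (by linarith) (Real.exp_pos _).le
  refine lt_of_le_of_lt (lintegral_mono h1) ?_
  rw [lintegral_const_mul _ (meas_pdf _),
    lintegral_exponentialPDF_eq_one (by linarith), mul_one]
  exact ENNReal.ofReal_lt_top

theorem exp_mean_pos {κ : ℝ} (hκ : 0 < κ) : 0 < ∫ s, s ∂expMeasure κ := by
  have := isProbabilityMeasure_expMeasure hκ
  rw [integral_pos_iff_support_of_nonneg_ae]
  · have h1 : Function.support (fun s : ℝ => s) = {0}ᶜ := by
      ext s
      simp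
    rw [h1]
    have h2 : ∀ᵐ s ∂expMeasure κ, s ∈ ({0}ᶜ : Set ℝ) := by
      filter_upwards [exp_ae_pos hκ] with s hs
      exact hs.ne'
    have h3 : expMeasure κ ({0}ᶜ : Set ℝ) = 1 := by
      rw [← measure_univ (μ := expMeasure κ)]
      exact measure_congr (by
        filter_upwards [h2] with s hs
        exact propext ⟨fun _ => trivial, fun _ => hs⟩)
    rw [h3]
    exact one_pos
  · filter_upwards [exp_ae_pos hκ] with s hs
    exact hs.le
  · exact exp_integrable hκ

end Pool.Agent.NVB
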