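import Pool.Agent.NVB.Hop

/-!
# Expectations of decomposed functions of the environment seen from the walk
-/

set_option autoImplicit false

namespace Pool.Agent.NVB

open MeasureTheory ProbabilityTheory Filter Topology
open scoped Classical ENNReal

variable {d : ℕ} {lo κ : ℝ} {μ : ℝ} {q : Measure (Set.Icc lo κ)} [IsProbabilityMeasure q]

theorem int_nu {c : Cmp d lo κ} (hc : Ok c) (x : Env d lo κ) :
    |∫ η, c.2 η ∂envLaw d q| ≤ nu q ∅ x c / 2 := by
  have h1 : |∫ η, c.2 η ∂envLaw d q| ≤ ∫ η, |c.2 η| ∂envLaw d q := abs_integral_le_integral_abs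
  have h4 : 0 ≤ ∫ η, |c.2 η| ∂envLaw d q := integral_nonneg fun _ => abs_nonneg _
  have h5 : nu q ∅ x c = 2 ^ c.1.card * ∫ η, |c.2 η| ∂envLaw d q := by
    unfold nu
    rw [if_pos (Finset.empty_subset _)]
    simp only [ov_empty]
  have h6 : (2 : ℝ) ≤ 2 ^ c.1.card := by
    calc (2 : ℝ) = 2 ^ 1 := by norm_num
      _ ≤ 2 ^ c.1.card := pow_le_pow_right₀ (by norm_num) hc.ne.card_pos
  rw [h5]
  have h8 := mul_le_mul_of_nonneg_right h6 h4
  linarith

theorem int_Rp {L : ℝ} {f : Env d lo κ → ℝ} {c a b b3 : ℝ} (h : Rp L q f c a b b3) :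
    |∫ η, f η ∂envLaw d q - c| ≤ a / 2 := by
  obtain ⟨l, h1, h2, h3⟩ := h
  obtain ⟨v0⟩ := env_ne q
  have x0 : Env d lo κ := fun _ => v0
  have h4 : |∫ η, ev l η ∂envLaw d q| ≤ nus q ∅ x0 l / 2 ∧ Integrable (ev l) (envLaw d q) := by
    clear h2 h3
    induction l with
    | nil =>
      have h5 : (ev [] : Env d lo κ → ℝ) = fun _ => 0 := rfl
      rw [h5, nus_nil]
      refine ⟨by simp, integrable_const _⟩
    | cons C l ih =>
      obtain ⟨i1, i2⟩ := ih fun C' hC' => h1 C' (by simp [hC'])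
      have hC := h1 C (by simp)
      have h5 : (ev (C :: l) : Env d lo κ → ℝ) = fun η => C.2 η + ev l η :=
        funext fun η => ev_cons C l η
      have i3 : Integrable C.2 (envLaw d q) := hC.good.integrable
      rw [h5, nus_cons, integral_add i3 i2]
      refine ⟨?_, i3.add i2⟩
      have := int_nu (q := q) hC x0
      refine (abs_add_le _ _).trans ?_
      linarith
  have h5 : f = fun η => c + ev l η := funext h2
  rw [h5, integral_add (integrable_const _) h4.2]
  have h6 : ∫ _η : Env d lo κ, c ∂envLaw d q = c := by simp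
  rw [h6, add_sub_cancel_left]
  have h7 := h3 ∅ x0
  unfold Bd at h7
  rw [if_pos rfl] at h7
  linarith [h4.1]

/-- the constants for the expectations -/
structure Cst (κ μ : ℝ) (q : Measure (Set.Icc lo κ)) (L u w w3 : ℝ) : Prop where
  hu : 1 / 2 ≤ u
  hw : 0 ≤ w
  hw3 : 0 ≤ w3
  c1 : μ / κ / 2 + u * (1 + 4 * s1 q) + w * (4 / L) ≤ u * (1 + μ / κ)
  c2 : u * (2 * L * s2 q) + w * (1 + 4 * s1 q + 2 * L * s2 q + 4 / L) ≤ w * (1 + μ / κ)
  c3 : u * (2 * L * s3 q) + w * (2 * L * s3 q) + w3 * (1 + 4 * s1 q + 2 * L * s2 q + 4 / L) ≤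
    w3 * (1 + μ / κ)

theorem Bf_bound (hlo : 0 ≤ lo) (hκ : 0 < κ) (hμ : 0 < μ) {L : ℝ} (hL : 0 < L) {u w w3 : ℝ}
    (hc : Cst κ μ q L u w w3) (l : ℝ) (k : ℕ) :
    ∀ (f : Env d lo κ → ℝ) (c a b b3 : ℝ), 0 ≤ a → 0 ≤ b → 0 ≤ b3 → Rp L q f c a b b3 →
      |Bf μ q l k (G μ q f) - c| ≤ u * a + w * b + w3 * b3 := by
  obtain ⟨hu, hw, hw3, c1, c2, c3⟩ := hc
  set M := μ / κ with hM
  have hM0 : 0 < M := by positivity
  have hr : κ / (κ + μ) = 1 / (1 + M) := by
    rw [hM]
    field_simp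
  have g1 := s1_nonneg (q := q)
  have g2 := s2_nonneg (q := q)
  have g3 := s3_nonneg (q := q)
  set r := κ / (κ + μ) with hrdef
  have hr0 : 0 < r := by positivity
  have hrM : r * (1 + M) = 1 := by
    rw [hr]
    field_simp
  have hr1 : r ≤ 1 := by
    rw [hrdef, div_le_one (by positivity)]
    linarith
  induction k with
  | zero =>
    intro f c a b b3 ha hb h3 h
    obtain ⟨c', h1, h2⟩ := h.gap hκ hμ
    have h4 := int_Rp h2
    have h5 : |Bf μ q l 0 (G μ q f) - c| ≤ r * a / 2 + (1 - r) / 2 * a := by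
      have h6 := abs_sub_le (∫ η, G μ q f η ∂envLaw d q) c' c
      change |∫ η, G μ q f η ∂envLaw d q - c| ≤ _
      linarith
    have h6 : r * a / 2 + (1 - r) / 2 * a = a / 2 := by ring
    rw [h6] at h5
    have h7 : a / 2 ≤ u * a := by nlinarith
    have h8 : 0 ≤ w * b := mul_nonneg hw hb
    have h9 : 0 ≤ w3 * b3 := mul_nonneg hw3 h3
    linarith
  | succ k ih =>
    intro f c a b b3 ha hb h3 h
    obtain ⟨c', h1, h2⟩ := h.gap hκ hμ
    have ha' : 0 ≤ r * a := by positivity
    have hb' : 0 ≤ r * b := by positivity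
    have h3' : 0 ≤ r * b3 := by positivity
    have h4 := Rp_hop hlo hκ hL l ha' hb' h3' h2
    have h5 := ih _ _ _ _ _ (by positivity) (by positivity) (by positivity) h4
    change |Bf μ q l k (G μ q (Kh l (G μ q f))) - c| ≤ _
    have h6 := abs_sub_le (Bf μ q l k (G μ q (Kh l (G μ q f)))) c' c
    -- the coefficients
    have e1 : (1 - r) / 2 + r * (u * (1 + 4 * s1 q) + w * (4 / L)) ≤ u := by
      have h7 := mul_le_mul_of_nonneg_left c1 hr0.le
      have h8 : r * (u * (1 + M)) = u := by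
        calc r * (u * (1 + M)) = u * (r * (1 + M)) := by ring
          _ = u := by rw [hrM, mul_one]
      have h9 : r * M = 1 - r := by linarith
      have h10 : r * (M / 2 + u * (1 + 4 * s1 q) + w * (4 / L)) = (r * M) / 2 +
        r * (u * (1 + 4 * s1 q) + w * (4 / L)) := by ring
      rw [h8, h10, h9] at h7
      exact h7
    have e2 : r * (u * (2 * L * s2 q) + w * (1 + 4 * s1 q + 2 * L * s2 q + 4 / L)) ≤ w := by
      have h7 := mul_le_mul_of_nonneg_left c2 hr0.le
      have h8 : r * (w * (1 + M)) = w := by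
        calc r * (w * (1 + M)) = w * (r * (1 + M)) := by ring
          _ = w := by rw [hrM, mul_one]
      rw [h8] at h7
      exact h7
    have e3 : r * (u * (2 * L * s3 q) + w * (2 * L * s3 q) +
        w3 * (1 + 4 * s1 q + 2 * L * s2 q + 4 / L)) ≤ w3 := by
      have h7 := mul_le_mul_of_nonneg_left c3 hr0.le
      have h8 : r * (w3 * (1 + M)) = w3 := by
        calc r * (w3 * (1 + M)) = w3 * (r * (1 + M)) := by ring
          _ = w3 := by rw [hrM, mul_one]
      rw [h8] at h7
      exact h7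
    have f1 := mul_le_mul_of_nonneg_right e1 ha
    have f2 := mul_le_mul_of_nonneg_right e2 hb
    have f3 := mul_le_mul_of_nonneg_right e3 h3
    have h7 : u * ((1 + 4 * s1 q) * (r * a) + 2 * L * (s2 q * (r * b) + s3 q * (r * b3))) +
        w * ((1 + 4 * s1 q + 2 * L * s2 q + 4 / L) * (r * b) + 4 / L * (r * a) +
          2 * L * s3 q * (r * b3)) +
        w3 * ((1 + 4 * s1 q + 2 * L * s2 q + 4 / L) * (r * b3)) + (1 - r) / 2 * a =
        ((1 - r) / 2 + r * (u * (1 + 4 * s1 q) + w * (4 / L))) * a +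
        (r * (u * (2 * L * s2 q) + w * (1 + 4 * s1 q + 2 * L * s2 q + 4 / L))) * b +
        (r * (u * (2 * L * s3 q) + w * (2 * L * s3 q) +
          w3 * (1 + 4 * s1 q + 2 * L * s2 q + 4 / L))) * b3 := by ring
    linarith

/-- decompositions of the expected displacements -/
theorem Rp_Φ (hlo : 0 ≤ lo) (hκ : 0 < κ) (hμ : 0 < μ) {L : ℝ} (hL : 0 < L) (l : ℝ) {a b : ℝ}
    (ha : 0 ≤ a) (hb : 0 ≤ b)
    (c1 : (1 + 4 * s1 q) * a + 2 * L * s2 q * b + 2 * s1 q ≤ a * (1 + μ / κ))
    (c2 : (1 + 4 * s1 q + 2 * L * s2 q + 4 / L) * b + 4 / L * a + 2 / L ≤ b * (1 + μ / κ))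
    (n : ℕ) : ∃ c : ℝ, Rp L q (Φ μ q l n : Env d lo κ → ℝ) c a b 0 := by
  set M := μ / κ with hM
  have hM0 : 0 < M := by positivity
  have hr : κ / (κ + μ) = 1 / (1 + M) := by
    rw [hM]
    field_simp
  set r := κ / (κ + μ) with hrdef
  have hr0 : 0 < r := by positivity
  have hrM : r * (1 + M) = 1 := by
    rw [hr]
    field_simp
  have g1 := s1_nonneg (q := q)
  have g2 := s2_nonneg (q := q)
  induction n with
  | zero =>
    refine ⟨0, [], fun C hC => absurd hC (by simp), fun η => ?_, fun J x => ?_⟩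
    · rw [ev_nil, add_zero]
      rfl
    · rw [nus_nil]
      exact Bd_nonneg hL.le ha hb le_rfl J x
  | succ n ih =>
    obtain ⟨c, hc⟩ := ih
    have h1 := Rp_hop hlo hκ hL l ha hb le_rfl hc
    -- the displacement in the attempt
    have h2 : ∀ y ∈ (Finset.univ : Finset (Dir d)), RpB q
        (fun η : Env d lo κ => (p l y * ((vec y 0 : ℤ) : ℝ)) * wt q (η (edge 0 y)))
        (p l y * ((vec y 0 : ℤ) : ℝ) * 0)
        (fun J x => |p l y * ((vec y 0 : ℤ) : ℝ)| * Bd L q (2 * s1 q) (2 / L) 0 J x) :=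
      fun y _ => RpB.smul _ (Rp.wt hL (edge 0 y))
    have h3 := (RpB.const (d := d) (q := q) (mean q / κ * ∑ y : Dir d, p l y *
      ((vec y 0 : ℤ) : ℝ))).add (RpB.sum Finset.univ h2)
    have h4 : Rp L q (fun η : Env d lo κ => (mean q / κ * ∑ y : Dir d, p l y *
        ((vec y 0 : ℤ) : ℝ)) + ∑ y : Dir d, (p l y * ((vec y 0 : ℤ) : ℝ)) *
          wt q (η (edge 0 y)))
        ((mean q / κ * ∑ y : Dir d, p l y * ((vec y 0 : ℤ) : ℝ)) +
          ∑ y : Dir d, p l y * ((vec y 0 : ℤ) : ℝ) * 0) (2 * s1 q) (2 / L) 0 := by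
      refine RpB.mono h3 fun J x => ?_
      rw [zero_add]
      have hB := Bd_nonneg (q := q) hL.le (by positivity : 0 ≤ 2 * s1 q)
        (by positivity : 0 ≤ 2 / L) le_rfl J x
      calc ∑ y : Dir d, |p l y * ((vec y 0 : ℤ) : ℝ)| * Bd L q (2 * s1 q) (2 / L) 0 J x
          ≤ ∑ y : Dir d, p l y * Bd L q (2 * s1 q) (2 / L) 0 J x := by
            refine Finset.sum_le_sum fun y _ => mul_le_mul_of_nonneg_right ?_ hB
            rw [abs_mul, abs_of_nonneg (p_nonneg l y)]
            have hV : |((vec y 0 : ℤ) : ℝ)| ≤ 1 := by exact_mod_cast vec_abs_le y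
            calc p l y * |((vec y 0 : ℤ) : ℝ)| ≤ p l y * 1 :=
                  mul_le_mul_of_nonneg_left hV (p_nonneg l y)
              _ = p l y := mul_one _
        _ = Bd L q (2 * s1 q) (2 / L) 0 J x := by rw [← Finset.sum_mul, sum_p, one_mul]
    have h5 := Rp.add h1 h4
    obtain ⟨c', _, h6⟩ := h5.gap hκ hμ
    refine ⟨c', ?_⟩
    have h7 : (G μ q fun η => Kh l (Φ μ q l n) η + ((mean q / κ * ∑ y : Dir d, p l y *
        ((vec y 0 : ℤ) : ℝ)) + ∑ y : Dir d, (p l y * ((vec y 0 : ℤ) : ℝ)) *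
          wt q (η (edge 0 y)))) = (Φ μ q l (n + 1) : Env d lo κ → ℝ) := by
      change _ = G μ q (K l (Φ μ q l n))
      congr 1
      funext η
      rw [Finset.mul_sum, ← Finset.sum_add_distrib]
      unfold K Kh
      rw [← Finset.sum_add_distrib]
      refine Finset.sum_congr rfl fun y _ => ?_
      rw [acc_wt (q := q)]
      ring
    rw [h7] at h6
    refine h6.mono hL.le ?_ ?_ ?_
    · have h8 := mul_le_mul_of_nonneg_left c1 hr0.le
      have h9 : r * (a * (1 + M)) = a := by
        calc r * (a * (1 + M)) = a * (r * (1 + M)) := by ring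
          _ = a := by rw [hrM, mul_one]
      rw [h9] at h8
      refine le_trans (le_of_eq ?_) h8
      ring
    · have h8 := mul_le_mul_of_nonneg_left c2 hr0.le
      have h9 : r * (b * (1 + M)) = b := by
        calc r * (b * (1 + M)) = b * (r * (1 + M)) := by ring
          _ = b := by rw [hrM, mul_one]
      rw [h9] at h8
      refine le_trans (le_of_eq ?_) h8
      ring
    · exact le_of_eq (by ring)

/-! ### the mean conductances seen from the walk -/

theorem G_wt (hκ : 0 < κ) (hμ : 0 < μ) (e : Edge d) :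
    (G μ q fun η : Env d lo κ => wt q (η e)) = fun η => κ / (κ + μ) * wt q (η e) := by
  have h0 : (fun η : Env d lo κ => wt q (η e)) =
      fun η => (1 / κ) * ((η e : ℝ)) + (-(mean q) / κ) := by
    funext η
    unfold wt
    ring
  rw [h0, G_add hκ hμ ((Good.coord e).const_mul _) (Good.const _), G_const hκ hμ, G_const_mul]
  funext η
  beta_reduce
  rw [G_coord hκ hμ]
  unfold wt
  field_simp
  ring

omit [IsProbabilityMeasure q] in
theorem Good.wt (e : Edge d) : Good (fun η : Env d lo κ => NVB.wt q (η e)) := by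
  have h0 : (fun η : Env d lo κ => NVB.wt q (η e)) =
      fun η => (1 / κ) * ((η e : ℝ)) + (-(mean q) / κ) := by
    funext η
    unfold NVB.wt
    ring
  rw [h0]
  exact ((Good.coord e).const_mul _).add (Good.const _)

theorem int_wt (e : Edge d) : ∫ η : Env d lo κ, wt q (η e) ∂envLaw d q = 0 := by
  have h0 : MeasurePreserving (fun η : Env d lo κ => η e) (envLaw d q) q :=
    measurePreserving_eval_infinitePi (fun _ : Edge d => q) e
  have h2 : ∫ η : Env d lo κ, wt q (η e) ∂envLaw d q =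
      ∫ z, wt q z ∂((envLaw d q).map fun η => η e) := by
    rw [integral_map h0.measurable.aemeasurable measurable_wt.aestronglyMeasurable]
  rw [h2, h0.map_eq]
  unfold wt
  rw [integral_div, integral_sub integrable_val (integrable_const _)]
  have h3 : ∫ x : Set.Icc lo κ, (x : ℝ) ∂q = mean q := rfl
  rw [h3]
  simp

/-- the product of two conductances -/
theorem Rp_wt_mul {L : ℝ} (hL : 0 < L) (e e1 e2 : Edge d) :
    Rp L q (fun η : Env d lo κ => wt q (η e) * (wt q (η e1) - wt q (η e2))) 0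
      (8 * s1 q ^ 2 + 4 * s2 q) (16 * s1 q / L + 4 * s2 q + 8 / L ^ 2) (4 / L) := by
  have g1 := s1_nonneg (q := q)
  have g2 := s2_nonneg (q := q)
  have h1 : Rp L q (fun η : Env d lo κ => wt q (η e1) + -1 * wt q (η e2)) (0 + -1 * 0)
      (2 * s1 q + |(-1 : ℝ)| * (2 * s1 q)) (2 / L + |(-1 : ℝ)| * (2 / L))
      (0 + |(-1 : ℝ)| * 0) := (Rp.wt hL e1).add ((Rp.wt hL e2).smul (-1))
  have h2 : Rp L q (fun η : Env d lo κ => wt q (η e1) + -1 * wt q (η e2)) 0
      (4 * s1 q) (4 / L) 0 := by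
    have h3 : (0 : ℝ) + -1 * 0 = 0 := by norm_num
    rw [h3] at h1
    refine h1.mono hL.le ?_ ?_ ?_
    · rw [abs_neg, abs_one]
      linarith
    · rw [abs_neg, abs_one]
      apply le_of_eq
      ring
    · simp
  have h3 := Rp_mul_wt hL (by positivity) (by positivity) le_rfl h2 e
  refine Rp.mono hL.le (RpB.congr h3 fun η => by ring) ?_ ?_ le_rfl
  · apply le_of_eq
    field_simp
    ring
  · apply le_of_eq
    field_simp
    ring

theorem Bf_wt (hlo : 0 ≤ lo) (hκ : 0 < κ) (hμ : 0 < μ) {L : ℝ} (hL : 0 < L) {u w w3 : ℝ}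
    (hc : Cst κ μ q L u w w3) (l : ℝ) {Y X : ℝ} (hX : 0 ≤ X)
    (hY : u * (8 * s1 q ^ 2 + 4 * s2 q) + w * (16 * s1 q / L + 4 * s2 q + 8 / L ^ 2) +
      w3 * (4 / L) ≤ Y) (hXY : Y ≤ X * (1 - κ / (κ + μ))) (k : ℕ) :
    ∀ e : Edge d, |Bf μ q l k (fun η : Env d lo κ => wt q (η e))| ≤ X := by
  set r := κ / (κ + μ) with hrdef
  have hr0 : 0 < r := by positivity
  have ga := abar_nonneg (q := q) hlo hκ
  have gb := abar_le (q := q) hκ
  set ā := mean q / κ with hā
  induction k with
  | zero =>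
    intro e
    change |∫ η : Env d lo κ, wt q (η e) ∂envLaw d q| ≤ X
    rw [int_wt, abs_zero]
    exact hX
  | succ k ih =>
    intro e
    -- the two parts
    have hP : ∀ y : Dir d, Good fun η : Env d lo κ =>
        wt q (η (edge 0 y)) * (wt q (η (e.1 + vec y, e.2)) - wt q (η e)) := fun y =>
      (Good.wt _).mul ((Good.wt _).sub (Good.wt _))
    have h1 : (Kh l fun η : Env d lo κ => wt q (η e)) = fun η =>
        (∑ y : Dir d, p l y * (ā * wt q (η (e.1 + vec y, e.2)) + (1 - ā) * wt q (η e))) +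
        ∑ y : Dir d, p l y * (wt q (η (edge 0 y)) *
          (wt q (η (e.1 + vec y, e.2)) - wt q (η e))) := by
      funext η
      unfold Kh
      rw [← Finset.sum_add_distrib]
      refine Finset.sum_congr rfl fun y _ => ?_
      rw [acc_wt (q := q), ← hā]
      have h2 : sh (vec y) η e = η (e.1 + vec y, e.2) := rfl
      beta_reduce
      rw [h2]
      ring
    have hA : ∀ y : Dir d, Good fun η : Env d lo κ =>
        ā * wt q (η (e.1 + vec y, e.2)) + (1 - ā) * wt q (η e) := fun y =>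
      ((Good.wt _).const_mul _).add ((Good.wt _).const_mul _)
    have h2 : Bf μ q l (k + 1) (fun η : Env d lo κ => wt q (η e)) =
        (∑ y : Dir d, p l y * (ā * (r * Bf μ q l k fun η => wt q (η (e.1 + vec y, e.2))) +
          (1 - ā) * (r * Bf μ q l k fun η => wt q (η e)))) +
        ∑ y : Dir d, p l y * Bf μ q l k (G μ q fun η => wt q (η (edge 0 y)) *
          (wt q (η (e.1 + vec y, e.2)) - wt q (η e))) := by
      change Bf μ q l k (G μ q (Kh l fun η : Env d lo κ => wt q (η e))) = _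
      rw [h1, G_add hκ hμ (Good.sum _ fun y _ => (hA y).const_mul _)
        (Good.sum _ fun y _ => (hP y).const_mul _),
        Bf_add hκ hμ l k ((Good.sum _ fun y _ => (hA y).const_mul _).G hκ hμ)
          ((Good.sum _ fun y _ => (hP y).const_mul _).G hκ hμ),
        G_sum hκ hμ _ fun y _ => (hA y).const_mul _,
        G_sum hκ hμ _ fun y _ => (hP y).const_mul _,
        Bf_sum hκ hμ l k _ fun y _ => ((hA y).const_mul _).G hκ hμ,
        Bf_sum hκ hμ l k _ fun y _ => ((hP y).const_mul _).G hκ hμ]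
      congr 1
      · refine Finset.sum_congr rfl fun y _ => ?_
        rw [G_const_mul, Bf_const_mul, G_add hκ hμ ((Good.wt _).const_mul _)
          ((Good.wt _).const_mul _), G_const_mul, G_const_mul, G_wt hκ hμ, G_wt hκ hμ,
          Bf_add hκ hμ l k (((Good.wt _).const_mul _).const_mul _)
            (((Good.wt _).const_mul _).const_mul _), Bf_const_mul, Bf_const_mul, Bf_const_mul,
          Bf_const_mul]
      · refine Finset.sum_congr rfl fun y _ => ?_
        rw [G_const_mul, Bf_const_mul]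
    rw [h2]
    have h3 : |∑ y : Dir d, p l y * (ā * (r * Bf μ q l k fun η => wt q (η (e.1 + vec y, e.2))) +
          (1 - ā) * (r * Bf μ q l k fun η => wt q (η e)))| ≤ r * X := by
      refine (Finset.abs_sum_le_sum_abs _ _).trans ?_
      calc ∑ y : Dir d, |p l y * (ā * (r * Bf μ q l k fun η => wt q (η (e.1 + vec y, e.2))) +
          (1 - ā) * (r * Bf μ q l k fun η => wt q (η e)))|
          ≤ ∑ y : Dir d, p l y * (r * X) := by
            refine Finset.sum_le_sum fun y _ => ?_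
            rw [abs_mul, abs_of_nonneg (p_nonneg l y)]
            refine mul_le_mul_of_nonneg_left ?_ (p_nonneg l y)
            have i1 := ih (e.1 + vec y, e.2)
            have i2 := ih e
            refine (abs_add_le _ _).trans ?_
            rw [abs_mul, abs_mul, abs_mul, abs_mul, abs_of_nonneg ga, abs_of_nonneg hr0.le,
              abs_of_nonneg (by linarith : 0 ≤ 1 - ā)]
            have j1 := mul_le_mul_of_nonneg_left (mul_le_mul_of_nonneg_left i1 hr0.le) ga
            have j2 := mul_le_mul_of_nonneg_left (mul_le_mul_of_nonneg_left i2 hr0.le)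
              (by linarith : 0 ≤ 1 - ā)
            linarith
        _ = r * X := by rw [← Finset.sum_mul, sum_p, one_mul]
    have h4 : |∑ y : Dir d, p l y * Bf μ q l k (G μ q fun η => wt q (η (edge 0 y)) *
          (wt q (η (e.1 + vec y, e.2)) - wt q (η e)))| ≤ Y := by
      refine (Finset.abs_sum_le_sum_abs _ _).trans ?_
      calc ∑ y : Dir d, |p l y * Bf μ q l k (G μ q fun η => wt q (η (edge 0 y)) *
          (wt q (η (e.1 + vec y, e.2)) - wt q (η e)))|
          ≤ ∑ y : Dir d, p l y * Y := by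
            refine Finset.sum_le_sum fun y _ => ?_
            rw [abs_mul, abs_of_nonneg (p_nonneg l y)]
            refine mul_le_mul_of_nonneg_left ?_ (p_nonneg l y)
            have g1 := s1_nonneg (q := q)
            have g2 := s2_nonneg (q := q)
            have j1 := Bf_bound hlo hκ hμ hL hc l k _ _ _ _ _ (by positivity) (by positivity)
              (by positivity) (Rp_wt_mul (q := q) hL (edge 0 y) (e.1 + vec y, e.2) e)
            rw [sub_zero] at j1
            exact j1.trans hY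
        _ = Y := by rw [← Finset.sum_mul, sum_p, one_mul]
    refine (abs_add_le _ _).trans ?_
    linarith

/-- the mean success probability -/
theorem le_Bf_acc' (hlo : 0 ≤ lo) (hκ : 0 < κ) (hμ : 0 < μ) {L : ℝ} (hL : 0 < L) {u w w3 : ℝ}
    (hc : Cst κ μ q L u w w3) (l : ℝ) {Y X : ℝ} (hX : 0 ≤ X)
    (hY : u * (8 * s1 q ^ 2 + 4 * s2 q) + w * (16 * s1 q / L + 4 * s2 q + 8 / L ^ 2) +
      w3 * (4 / L) ≤ Y) (hXY : Y ≤ X * (1 - κ / (κ + μ))) (k : ℕ) (y : Dir d) :
    mean q / κ - κ / (κ + μ) * X ≤ Bf μ q l k (G μ q (acc y : Env d lo κ → ℝ)) := by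
  have h1 := Bf_wt (d := d) hlo hκ hμ hL hc l hX hY hXY k (edge 0 y)
  have h2 : (acc y : Env d lo κ → ℝ) = fun η => mean q / κ + wt q (η (edge 0 y)) :=
    funext fun η => acc_wt y η
  rw [h2, G_add hκ hμ (Good.const _) (Good.wt _), G_const hκ hμ, G_wt hκ hμ,
    Bf_add hκ hμ l k (Good.const _) ((Good.wt _).const_mul _), Bf_const hκ hμ, Bf_const_mul]
  have hr0 : 0 < κ / (κ + μ) := by positivity
  have h3 := (abs_le.1 h1).1
  have h4 : κ / (κ + μ) * -X ≤
      κ / (κ + μ) * Bf μ q l k (fun η : Env d lo κ => wt q (η (edge 0 y))) :=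
    mul_le_mul_of_nonneg_left h3 hr0.le
  linarith

/-- the effect of the environment after a jump -/
theorem Bf_acc_diff (hlo : 0 ≤ lo) (hκ : 0 < κ) (hμ : 0 < μ) {L : ℝ} (hL : 0 < L) {u w w3 : ℝ}
    (hc : Cst κ μ q L u w w3) (l : ℝ) {a b : ℝ} (ha : 0 ≤ a) (hb : 0 ≤ b)
    {f : Env d lo κ → ℝ} {c : ℝ} (hf : Rp L q f c a b 0) (k : ℕ) (y : Dir d) :
    |Bf μ q l k (G μ q fun η : Env d lo κ => acc y η * (f (sh (vec y) η) - f η))| ≤
      u * ((mean q / κ + 2 * s1 q) * (2 * a) + L * s2 q * (2 * b)) +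
      w * ((mean q / κ + 2 * s1 q + L * s2 q) * (2 * b) + 2 / L * (2 * a + 2 * b)) +
      w3 * (2 * b) := by
  have g1 := s1_nonneg (q := q)
  have g2 := s2_nonneg (q := q)
  have ga := abar_nonneg (q := q) hlo hκ
  have h1 : Rp L q (fun η => f (sh (vec y) η) + -1 * f η) (c + -1 * c)
      (a + |(-1 : ℝ)| * a) (b + |(-1 : ℝ)| * b) (0 + |(-1 : ℝ)| * 0) :=
    (hf.shift (vec y)).add (hf.smul (-1))
  have h2 : Rp L q (fun η => f (sh (vec y) η) + -1 * f η) 0 (2 * a) (2 * b) 0 := by
    have h3 : c + -1 * c = 0 := by ring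
    rw [h3] at h1
    refine h1.mono hL.le ?_ ?_ ?_
    · rw [abs_neg, abs_one]
      linarith
    · rw [abs_neg, abs_one]
      linarith
    · simp
  have h3 := Rp_mul_wt hL (by positivity : 0 ≤ 2 * a) (by positivity : 0 ≤ 2 * b) ga h2 (edge 0 y)
  have h4 : Rp L q (fun η : Env d lo κ => acc y η * (f (sh (vec y) η) - f η)) 0
      ((mean q / κ + 2 * s1 q) * (2 * a) + L * s2 q * (2 * b))
      ((mean q / κ + 2 * s1 q + L * s2 q) * (2 * b) + 2 / L * (2 * a + 2 * b)) (2 * b) := by
    refine RpB.congr h3 fun η => ?_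
    rw [acc_wt (q := q)]
    ring
  have h5 := Bf_bound hlo hκ hμ hL hc l k _ _ _ _ _ (by positivity) (by positivity)
    (by positivity) h4
  rwa [sub_zero] at h5

end Pool.Agent.NVB
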