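import Pool.Agent.NVB.Mix

/-!
# Fresh edges: sums of functions with vanishing expectation over one edge
-/

set_option autoImplicit false

namespace Pool.Agent.NVB

open MeasureTheory ProbabilityTheory Filter Topology
open scoped Classical ENNReal

variable {d : ℕ} {lo κ : ℝ} {μ : ℝ} {q : Measure (Set.Icc lo κ)} [IsProbabilityMeasure q]

/-- the expectation over the value of the edge `e` vanishes -/
def MZ (q : Measure (Set.Icc lo κ)) (e : Edge d) (φ : Env d lo κ → ℝ) : Prop :=
  ∀ η, ∫ b, φ (Function.update η e b) ∂q = 0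

/-- no dependence on the edge `e` -/
def Nd (e : Edge d) (w : Env d lo κ → ℝ) : Prop := ∀ η b, w (Function.update η e b) = w η

/-- the edges on the axis through the walk -/
def Ax (e : Edge d) : Prop := e.2 = 0 ∧ ∀ i, i ≠ 0 → e.1 i = 0

/-- a decomposition of `f`: a bounded function plus functions `φ e` with vanishing expectation over
the edge `e`, bounded by functions `w e` which do not depend on `e` -/
structure IsFr (q : Measure (Set.Icc lo κ)) (f : Env d lo κ → ℝ) (W ω ε δ : ℝ)
    (F : Finset (Edge d)) (φ w : Edge d → Env d lo κ → ℝ) (b : Env d lo κ → ℝ) : Prop where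
  gφ : ∀ e, Good (φ e)
  gw : ∀ e, Good (w e)
  gb : Good b
  eq : ∀ η, f η = b η + ∑ e ∈ F, φ e η
  mz : ∀ e, MZ q e (φ e)
  nd : ∀ e, Nd e (w e)
  le : ∀ e η, |φ e η| ≤ w e η
  off : ∀ e, e ∉ F → ∀ η, w e η = 0
  sum : ∀ η, ∑ e ∈ F, w e η ≤ W
  lat : ∀ e : Edge d, ¬ Ax e → ∀ η, w e η ≤ ω
  bad : ∀ e : Edge d, Ax e → e.1 0 ≤ 0 → ∀ η, w e η ≤ ε
  rem : ∀ η, |b η| ≤ δ

/-- see `IsFr` -/
def Fr (q : Measure (Set.Icc lo κ)) (f : Env d lo κ → ℝ) (W ω ε δ : ℝ) : Prop :=
  ∃ F φ w b, IsFr q f W ω ε δ F φ w b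

theorem IsFr.w0 {f : Env d lo κ → ℝ} {W ω ε δ : ℝ} {F : Finset (Edge d)}
    {φ w : Edge d → Env d lo κ → ℝ} {b : Env d lo κ → ℝ} (h : IsFr q f W ω ε δ F φ w b)
    (e : Edge d) (η : Env d lo κ) : 0 ≤ w e η := (abs_nonneg _).trans (h.le e η)

theorem IsFr.φoff {f : Env d lo κ → ℝ} {W ω ε δ : ℝ} {F : Finset (Edge d)}
    {φ w : Edge d → Env d lo κ → ℝ} {b : Env d lo κ → ℝ} (h : IsFr q f W ω ε δ F φ w b)
    {e : Edge d} (he : e ∉ F) (η : Env d lo κ) : φ e η = 0 := by
  have h1 := h.le e η
  rw [h.off e he η] at h1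
  exact abs_nonpos_iff.1 h1

theorem IsFr.W0 {f : Env d lo κ → ℝ} {W ω ε δ : ℝ} {F : Finset (Edge d)}
    {φ w : Edge d → Env d lo κ → ℝ} {b : Env d lo κ → ℝ} (h : IsFr q f W ω ε δ F φ w b) :
    0 ≤ W := by
  have hne : Nonempty (Set.Icc lo κ) := nonempty_of_isProbabilityMeasure q
  have η0 : Env d lo κ := fun _ => hne.some
  exact (Finset.sum_nonneg fun e _ => h.w0 e η0).trans (h.sum η0)

theorem IsFr.wW {f : Env d lo κ → ℝ} {W ω ε δ : ℝ} {F : Finset (Edge d)}
    {φ w : Edge d → Env d lo κ → ℝ} {b : Env d lo κ → ℝ} (h : IsFr q f W ω ε δ F φ w b)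
    (e : Edge d) (η : Env d lo κ) : w e η ≤ W := by
  by_cases he : e ∈ F
  · exact (Finset.single_le_sum (fun e _ => h.w0 e η) he).trans (h.sum η)
  · rw [h.off e he η]
    exact h.W0

theorem Fr.W0 {f : Env d lo κ → ℝ} {W ω ε δ : ℝ} (h : Fr q f W ω ε δ) : 0 ≤ W := by
  obtain ⟨F, φ, w, b, h⟩ := h
  exact h.W0

theorem Fr.good {f : Env d lo κ → ℝ} {W ω ε δ : ℝ} (h : Fr q f W ω ε δ) : Good f := by
  obtain ⟨F, φ, w, b, h⟩ := h
  have : f = fun η => b η + ∑ e ∈ F, φ e η := funext h.eq
  rw [this]
  exact h.gb.add (Good.sum _ fun e _ => h.gφ e)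

theorem Fr.abs_le {f : Env d lo κ → ℝ} {W ω ε δ : ℝ} (h : Fr q f W ω ε δ) (η : Env d lo κ) :
    |f η| ≤ W + δ := by
  obtain ⟨F, φ, w, b, h⟩ := h
  rw [h.eq]
  refine (abs_add_le _ _).trans ?_
  have h1 : |∑ e ∈ F, φ e η| ≤ W :=
    (Finset.abs_sum_le_sum_abs _ _).trans
      ((Finset.sum_le_sum fun e _ => h.le e η).trans (h.sum η))
  have := h.rem η
  linarith

theorem Fr.mono {f : Env d lo κ → ℝ} {W ω ε δ W' ω' ε' δ' : ℝ} (h : Fr q f W ω ε δ) (hW : W ≤ W')
    (hω : ω ≤ ω') (hε : ε ≤ ε') (hδ : δ ≤ δ') : Fr q f W' ω' ε' δ' := by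
  obtain ⟨F, φ, w, b, h⟩ := h
  exact ⟨F, φ, w, b, h.gφ, h.gw, h.gb, h.eq, h.mz, h.nd, h.le, h.off,
    fun η => (h.sum η).trans hW, fun e he η => (h.lat e he η).trans hω,
    fun e he hl η => (h.bad e he hl η).trans hε,
    fun η => (h.rem η).trans hδ⟩

theorem Fr.congr {f g : Env d lo κ → ℝ} {W ω ε δ : ℝ} (h : Fr q f W ω ε δ)
    (hfg : ∀ η, g η = f η) : Fr q g W ω ε δ := by
  have : g = f := funext hfg
  rw [this]
  exact h

theorem MZ.zero (e : Edge d) : MZ q e (fun _ : Env d lo κ => 0) := fun η => by simp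

theorem Nd.const (e : Edge d) (c : ℝ) : Nd e (fun _ : Env d lo κ => c) := fun _ _ => rfl

theorem upd_integrable {φ : Env d lo κ → ℝ} (hφ : Good φ) (η : Env d lo κ) (e : Edge d) :
    Integrable (fun b => φ (Function.update η e b)) q := by
  obtain ⟨C, hC⟩ := hφ.bdd
  have g0 : Measurable fun b : Set.Icc lo κ => (b, η) := measurable_id.prodMk measurable_const
  exact Integrable.of_bound (hφ.meas.comp ((measurable_gupd e).comp g0)).aestronglyMeasurable C
    (Eventually.of_forall fun b => hC _)

/-- a bounded function -/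
theorem Fr.of_bdd {f : Env d lo κ → ℝ} (hf : Good f) {δ : ℝ} (h : ∀ η, |f η| ≤ δ) :
    Fr q f 0 0 0 δ :=
  ⟨∅, fun _ _ => 0, fun _ _ => 0, f, fun _ => Good.const 0, fun _ => Good.const 0, hf,
    fun η => by simp, fun e => MZ.zero e, fun e => Nd.const e 0, fun e η => by simp,
    fun _ _ _ => rfl, fun η => by simp, fun _ _ _ => le_rfl, fun _ _ _ _ => le_rfl, h⟩

theorem Fr.zero : Fr q (fun _ : Env d lo κ => (0 : ℝ)) 0 0 0 0 :=
  Fr.of_bdd (Good.const 0) fun η => by simp

theorem Fr.add {f g : Env d lo κ → ℝ} {W ω ε δ W' ω' ε' δ' : ℝ} (hf : Fr q f W ω ε δ)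
    (hg : Fr q g W' ω' ε' δ') :
    Fr q (fun η => f η + g η) (W + W') (ω + ω') (ε + ε') (δ + δ') := by
  obtain ⟨F, φ, w, b, h⟩ := hf
  obtain ⟨F', φ', w', b', h'⟩ := hg
  refine ⟨F ∪ F', fun e η => φ e η + φ' e η, fun e η => w e η + w' e η, fun η => b η + b' η,
    fun e => (h.gφ e).add (h'.gφ e), fun e => (h.gw e).add (h'.gw e), h.gb.add h'.gb, ?_, ?_, ?_,
    ?_, ?_, ?_, ?_, ?_, ?_⟩
  · intro η
    have e1 : ∑ e ∈ F ∪ F', φ e η = ∑ e ∈ F, φ e η :=
      (Finset.sum_subset Finset.subset_union_left fun e _ he => h.φoff he η).symm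
    have e2 : ∑ e ∈ F ∪ F', φ' e η = ∑ e ∈ F', φ' e η :=
      (Finset.sum_subset Finset.subset_union_right fun e _ he => h'.φoff he η).symm
    rw [Finset.sum_add_distrib, e1, e2, h.eq, h'.eq]
    ring
  · intro e η
    rw [integral_add (upd_integrable (h.gφ e) η e) (upd_integrable (h'.gφ e) η e), h.mz, h'.mz,
      add_zero]
  · intro e η b
    beta_reduce
    rw [h.nd, h'.nd]
  · intro e η
    exact (abs_add_le _ _).trans (add_le_add (h.le e η) (h'.le e η))
  · intro e he η
    rw [Finset.mem_union] at he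
    rw [h.off e (fun h1 => he (Or.inl h1)), h'.off e (fun h1 => he (Or.inr h1)), add_zero]
  · intro η
    have e1 : ∑ e ∈ F ∪ F', w e η = ∑ e ∈ F, w e η :=
      (Finset.sum_subset Finset.subset_union_left fun e _ he => h.off e he η).symm
    have e2 : ∑ e ∈ F ∪ F', w' e η = ∑ e ∈ F', w' e η :=
      (Finset.sum_subset Finset.subset_union_right fun e _ he => h'.off e he η).symm
    rw [Finset.sum_add_distrib, e1, e2]
    exact add_le_add (h.sum η) (h'.sum η)
  · intro e he η
    exact add_le_add (h.lat e he η) (h'.lat e he η)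
  · intro e he hl η
    exact add_le_add (h.bad e he hl η) (h'.bad e he hl η)
  · intro η
    exact (abs_add_le _ _).trans (add_le_add (h.rem η) (h'.rem η))

theorem Fr.neg {f : Env d lo κ → ℝ} {W ω ε δ : ℝ} (hf : Fr q f W ω ε δ) :
    Fr q (fun η => -f η) W ω ε δ := by
  obtain ⟨F, φ, w, b, h⟩ := hf
  refine ⟨F, fun e η => -φ e η, w, fun η => -b η,
    fun e => ?_, h.gw, ?_, ?_, ?_, h.nd, ?_, h.off, h.sum, h.lat, h.bad, ?_⟩
  · have := (h.gφ e).const_mul (-1)
    simpa using this
  · have := h.gb.const_mul (-1)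
    simpa using this
  · intro η
    rw [h.eq, Finset.sum_neg_distrib]
    ring
  · intro e η
    rw [integral_neg, h.mz, neg_zero]
  · intro e η
    rw [abs_neg]
    exact h.le e η
  · intro η
    rw [abs_neg]
    exact h.rem η

/-- a sum of functions belonging to different edges outside the axis -/
theorem Fr.inj {ι : Type} (s : Finset ι) {e : ι → Edge d} (he : Set.InjOn e s)
    {f : ι → Env d lo κ → ℝ} (hf : ∀ i ∈ s, Good (f i)) (hm : ∀ i ∈ s, MZ q (e i) (f i)) {c : ℝ}
    (hc : 0 ≤ c) (h : ∀ i ∈ s, ∀ η, |f i η| ≤ c) (hx : ∀ i ∈ s, ¬ Ax (e i)) :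
    Fr q (fun η => ∑ i ∈ s, f i η) (s.card * c) c 0 0 := by
  refine ⟨s.image e, fun x η => ∑ i ∈ s, if e i = x then f i η else 0,
    fun x _ => if x ∈ s.image e then c else 0, fun _ => 0, ?_, ?_, Good.const 0, ?_, ?_, ?_, ?_, ?_,
    ?_, ?_, ?_, ?_⟩
  · intro x
    refine Good.sum _ fun i hi => ?_
    by_cases hx : e i = x
    · simp only [if_pos hx]
      exact hf i hi
    · simp only [if_neg hx]
      exact Good.const 0
  · intro x
    exact Good.const _
  · intro η
    rw [zero_add, Finset.sum_comm]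
    refine Finset.sum_congr rfl fun i hi => ?_
    rw [Finset.sum_ite_eq (s.image e) (e i) fun _ => f i η,
      if_pos (Finset.mem_image_of_mem e hi)]
  · intro x η
    rw [integral_finsetSum]
    · refine Finset.sum_eq_zero fun i hi => ?_
      by_cases hx : e i = x
      · simp only [if_pos hx]
        rw [← hx]
        exact hm i hi η
      · simp only [if_neg hx]
        simp
    · intro i hi
      by_cases hx : e i = x
      · simp only [if_pos hx]
        exact upd_integrable (hf i hi) η x
      · simp only [if_neg hx]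
        exact integrable_const _
  · intro x η b
    rfl
  · intro x η
    by_cases hx : x ∈ s.image e
    · rw [if_pos hx]
      obtain ⟨i, hi, rfl⟩ := Finset.mem_image.1 hx
      rw [Finset.sum_eq_single i]
      · rw [if_pos rfl]
        exact h i hi η
      · intro j hj hji
        exact if_neg fun h1 => hji (he hj hi h1)
      · intro h1
        exact absurd hi h1
    · rw [if_neg hx, Finset.sum_eq_zero]
      · simp
      · intro i hi
        refine if_neg fun h1 => hx ?_
        rw [← h1]
        exact Finset.mem_image_of_mem e hi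
  · intro x hx η
    exact if_neg hx
  · intro η
    have h1 : ∀ x ∈ s.image e, (if x ∈ s.image e then c else 0) = c := fun x hx => if_pos hx
    rw [Finset.sum_congr rfl h1, Finset.sum_const, nsmul_eq_mul,
      Finset.card_image_of_injOn he]
  · intro x _ η
    beta_reduce
    split_ifs
    · exact le_rfl
    · exact hc
  · intro x hax _ η
    have : x ∉ s.image e := by
      intro h1
      obtain ⟨i, hi, rfl⟩ := Finset.mem_image.1 h1
      exact hx i hi hax
    rw [if_neg this]
  · intro η
    simp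

/-- a function belonging to an edge of the axis of positive level -/
theorem Fr.up {e : Edge d} (hax : Ax e) (he : 0 < e.1 0) {f : Env d lo κ → ℝ} (hf : Good f)
    (hm : MZ q e f) {c : ℝ} (h : ∀ η, |f η| ≤ c) : Fr q f c 0 0 0 := by
  refine ⟨{e}, fun x η => if x = e then f η else 0, fun x _ => if x = e then c else 0,
    fun _ => 0, ?_, ?_, Good.const 0, ?_, ?_, ?_, ?_, ?_, ?_, ?_, ?_, ?_⟩
  · intro x
    by_cases hx : x = e
    · simp only [if_pos hx]
      exact hf
    · simp only [if_neg hx]
      exact Good.const 0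
  · intro x
    exact Good.const _
  · intro η
    simp
  · intro x η
    by_cases hx : x = e
    · simp only [if_pos hx]
      rw [hx]
      exact hm η
    · simp only [if_neg hx]
      simp
  · intro x η b
    rfl
  · intro x η
    by_cases hx : x = e
    · simp only [if_pos hx]
      exact h η
    · simp only [if_neg hx]
      simp
  · intro x hx η
    exact if_neg (by simpa using hx)
  · intro η
    simp
  · intro x hx η
    have : x ≠ e := by
      rintro rfl
      exact hx hax
    simp only [if_neg this]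
    exact le_rfl
  · intro x _ hx η
    have : x ≠ e := by
      rintro rfl
      omega
    simp only [if_neg this]
    exact le_rfl
  · intro η
    simp

/-! ### the axis -/

theorem sum_shift {F F' : Finset (Edge d)} {g : Edge d → ℝ} (hg : ∀ e, e ∉ F → g e = 0)
    (x : Site d) (hF : ∀ e ∈ F, ((e.1 + x, e.2) : Edge d) ∈ F') :
    ∑ e ∈ F', g (e.1 - x, e.2) = ∑ e ∈ F, g e := by
  have hi : Function.Injective fun e : Edge d => ((e.1 + x, e.2) : Edge d) := by
    rintro ⟨a, i⟩ ⟨b, j⟩ h
    have h1 := congrArg Prod.fst h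
    have h2 := congrArg Prod.snd h
    simp only at h1 h2
    rw [add_right_cancel h1, h2]
  have h1 : F.image (fun e : Edge d => ((e.1 + x, e.2) : Edge d)) ⊆ F' := by
    intro e he
    obtain ⟨a, ha, rfl⟩ := Finset.mem_image.1 he
    exact hF a ha
  rw [← Finset.sum_subset h1, Finset.sum_image fun a _ b _ h => hi h]
  · refine Finset.sum_congr rfl fun e _ => ?_
    simp
  · intro e _ he
    apply hg
    intro h2
    apply he
    exact Finset.mem_image.2 ⟨_, h2, by simp⟩

theorem vec_ne_zero (y : Dir d) : vec y y.1 ≠ 0 := by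
  unfold vec
  rw [Pi.single_eq_same]
  split_ifs <;> norm_num

theorem vec_of_ne {y : Dir d} {i : Fin (d + 1)} (h : i ≠ y.1) : vec y i = 0 := by
  unfold vec
  exact Pi.single_eq_of_ne h _

theorem Ax.sub {e : Edge d} {y : Dir d} (hy : y.1 = 0) (h : Ax e) : Ax (e.1 - vec y, e.2) := by
  refine ⟨h.1, fun i hi => ?_⟩
  change e.1 i - vec y i = 0
  rw [h.2 i hi, vec_of_ne (by rwa [hy]), sub_zero]

theorem Ax.of_sub {e : Edge d} {y : Dir d} (hy : y.1 = 0) (h : Ax ((e.1 - vec y, e.2) : Edge d)) :
    Ax e := by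
  refine ⟨h.1, fun i hi => ?_⟩
  have h1 := h.2 i hi
  change e.1 i - vec y i = 0 at h1
  rwa [vec_of_ne (by rwa [hy]), sub_zero] at h1

theorem Ax.not_sub {e : Edge d} {y : Dir d} (hy : y.1 ≠ 0) (h : Ax e) :
    ¬ Ax ((e.1 - vec y, e.2) : Edge d) := by
  intro h1
  have h2 := h1.2 y.1 hy
  change e.1 y.1 - vec y y.1 = 0 at h2
  rw [h.2 y.1 hy, zero_sub, neg_eq_zero] at h2
  exact vec_ne_zero y h2

theorem Ax.uniq {e : Edge d} {y y' : Dir d} (he : ¬ Ax e)
    (h : Ax ((e.1 - vec y, e.2) : Edge d)) (h' : Ax ((e.1 - vec y', e.2) : Edge d)) : y = y' := by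
  have hy : y.1 ≠ 0 := fun h1 => he (h.of_sub h1)
  have hy' : y'.1 ≠ 0 := fun h1 => he (h'.of_sub h1)
  have h1 : ∀ i, i ≠ 0 → vec y i = vec y' i := by
    intro i hi
    have a1 := h.2 i hi
    have a2 := h'.2 i hi
    change e.1 i - vec y i = 0 at a1
    change e.1 i - vec y' i = 0 at a2
    linarith
  have h2 : y.1 = y'.1 := by
    by_contra h3
    have h4 := h1 y.1 hy
    rw [vec_of_ne (y := y') h3] at h4
    exact vec_ne_zero y h4
  have h3 := h1 y.1 hy
  obtain ⟨i, s⟩ := y
  obtain ⟨i', s'⟩ := y'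
  simp only at h2
  subst h2
  unfold vec at h3
  simp only [Pi.single_eq_same] at h3
  cases s <;> cases s' <;> simp_all

theorem edge_ax {y : Dir d} (hy : y.1 = 0) : Ax (edge 0 y) ∧ (edge 0 y).1 0 ≤ 0 := by
  unfold edge
  split_ifs with h
  · exact ⟨⟨hy, fun i _ => rfl⟩, le_rfl⟩
  · refine ⟨⟨hy, fun i hi => ?_⟩, ?_⟩
    · change (0 + vec y) i = 0
      rw [zero_add]
      exact vec_of_ne (by rwa [hy])
    · change (0 + vec y) 0 ≤ 0
      rw [zero_add]
      refine vec_nonpos fun h1 => ?_
      rw [h1] at h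
      exact h rfl

theorem edge_ax' {y : Dir d} (hy : y.1 = 0) : Ax (((edge 0 y).1 - vec y, (edge 0 y).2) : Edge d) ∧
    ((edge 0 y).1 - vec y) 0 ≤ 0 := by
  refine ⟨(edge_ax hy).1.sub hy, ?_⟩
  unfold edge
  split_ifs with h
  · change (0 - vec y) 0 ≤ 0
    rw [zero_sub, Pi.neg_apply]
    have h1 : y = plus d := by
      obtain ⟨i, s⟩ := y
      simp only at hy h
      rw [hy, h]
    rw [h1, vec_plus]
    norm_num
  · simp

theorem edge_not_ax {y : Dir d} (hy : y.1 ≠ 0) : ¬ Ax (edge 0 y) := by
  intro h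
  have h1 := h.1
  unfold edge at h1
  split_ifs at h1
  · exact hy h1
  · exact hy h1

theorem edge_not_ax' {y : Dir d} (hy : y.1 ≠ 0) :
    ¬ Ax (((edge 0 y).1 - vec y, (edge 0 y).2) : Edge d) := by
  intro h
  have h1 := h.1
  unfold edge at h1
  split_ifs at h1
  · exact hy h1
  · exact hy h1

theorem dir_cases {y : Dir d} (hy : y.1 = 0) : y = plus d ∨ y = minus d := by
  obtain ⟨i, s⟩ := y
  simp only at hy
  subst hy
  cases s
  · right
    rfl
  · left
    rfl

/-- the mass of the directions orthogonal to the axis -/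
def lm (c : Dir d → ℝ) : ℝ := ∑ y : Dir d, if y.1 = 0 then 0 else c y

/-- attempts in all directions with weights `c` -/
theorem Fr.comb {c : Dir d → ℝ} (hc : ∀ y, 0 ≤ c y) {cl : ℝ} (hcl0 : 0 ≤ cl)
    (hcl : ∀ y : Dir d, y.1 ≠ 0 → c y ≤ cl)
    {A B : Dir d → Env d lo κ → ℝ} (gA : ∀ y, Good (A y)) (gB : ∀ y, Good (B y))
    (hA : ∀ y η, 0 ≤ A y η) (hB : ∀ y η, 0 ≤ B y η) (hAB : ∀ y η, A y η + B y η ≤ 1)
    (nA : ∀ y e, e ≠ edge 0 y → Nd e (A y)) (nB : ∀ y e, e ≠ edge 0 y → Nd e (B y))
    {f : Env d lo κ → ℝ} {W ω ε δ : ℝ} (h : Fr q f W ω ε δ) (hω : 0 ≤ ω) (hε : 0 ≤ ε)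
    (hδ : 0 ≤ δ) :
    Fr q (fun η => ∑ y : Dir d, c y * (A y η * f (sh (vec y) η) + B y η * f η))
      ((∑ y, c y) * W) ((∑ y, c y) * ω + cl * W)
      ((∑ y, c y) * ε + lm c * ω + c (minus d) * W) ((∑ y, c y) * (δ + ε) + lm c * ω) := by
  obtain ⟨F, φ, w, b, h⟩ := h
  set F' : Finset (Edge d) := F ∪ Finset.univ.biUnion (fun y : Dir d =>
    F.image (fun e : Edge d => ((e.1 + vec y, e.2) : Edge d))) with hF'
  have hsub : F ⊆ F' := Finset.subset_union_left
  have hsh : ∀ y : Dir d, ∀ e ∈ F, ((e.1 + vec y, e.2) : Edge d) ∈ F' := fun y e he =>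
    Finset.mem_union_right _ (Finset.mem_biUnion.2
      ⟨y, Finset.mem_univ _, Finset.mem_image_of_mem _ he⟩)
  have hoff : ∀ y : Dir d, ∀ e, e ∉ F' → e ∉ F ∧ ((e.1 - vec y, e.2) : Edge d) ∉ F := by
    intro y e he
    refine ⟨fun h1 => he (hsub h1), fun h1 => he ?_⟩
    have := hsh y _ h1
    simpa using this
  have hW := h.W0
  -- the sums
  have S1 : ∀ y η, ∑ e ∈ F', φ (e.1 - vec y, e.2) (sh (vec y) η) =
      ∑ e ∈ F, φ e (sh (vec y) η) := fun y η =>
    sum_shift (g := fun e => φ e (sh (vec y) η)) (fun e he => h.φoff he _) (vec y) (hsh y)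
  have S2 : ∀ η, ∑ e ∈ F', φ e η = ∑ e ∈ F, φ e η := fun η =>
    (Finset.sum_subset hsub fun e _ he => h.φoff he η).symm
  have S3 : ∀ y η, ∑ e ∈ F', w (e.1 - vec y, e.2) (sh (vec y) η) =
      ∑ e ∈ F, w e (sh (vec y) η) := fun y η =>
    sum_shift (g := fun e => w e (sh (vec y) η)) (fun e he => h.off e he _) (vec y) (hsh y)
  have S4 : ∀ η, ∑ e ∈ F', w e η = ∑ e ∈ F, w e η := fun η =>
    (Finset.sum_subset hsub fun e _ he => h.off e he η).symm
  have hT : ∀ (y : Dir d) (T : Edge d → ℝ), (∀ e, e ∉ F' → T e = 0) →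
      ∑ e ∈ F', (if e = edge 0 y then 0 else T e) = ∑ e ∈ F', T e - T (edge 0 y) := by
    intro y T hT
    have h1 : ∀ e ∈ F', (if e = edge 0 y then 0 else T e) =
        T e - if e = edge 0 y then T e else 0 := by
      intro e _
      split_ifs <;> simp
    rw [Finset.sum_congr rfl h1, Finset.sum_sub_distrib]
    congr 1
    by_cases h2 : edge 0 y ∈ F'
    · rw [Finset.sum_ite_eq' F' (edge 0 y) T, if_pos h2]
    · rw [Finset.sum_ite_eq' F' (edge 0 y) T, if_neg h2, hT _ h2]
  refine ⟨F', fun e η => ∑ y : Dir d, c y * (if e = edge 0 y then 0 else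
      A y η * φ (e.1 - vec y, e.2) (sh (vec y) η) + B y η * φ e η),
    fun e η => ∑ y : Dir d, c y * (if e = edge 0 y then 0 else
      A y η * w (e.1 - vec y, e.2) (sh (vec y) η) + B y η * w e η),
    fun η => ∑ y : Dir d, c y * (A y η * b (sh (vec y) η) + B y η * b η +
      (A y η * φ ((edge 0 y).1 - vec y, (edge 0 y).2) (sh (vec y) η) + B y η * φ (edge 0 y) η)),
    ?_, ?_, ?_, ?_, ?_, ?_, ?_, ?_, ?_, ?_, ?_, ?_⟩
  · intro e
    refine Good.sum _ fun y _ => Good.const_mul _ ?_
    by_cases he : e = edge 0 y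
    · simp only [if_pos he]
      exact Good.const 0
    · simp only [if_neg he]
      exact ((gA y).mul ((h.gφ _).sh (vec y))).add ((gB y).mul (h.gφ e))
  · intro e
    refine Good.sum _ fun y _ => Good.const_mul _ ?_
    by_cases he : e = edge 0 y
    · simp only [if_pos he]
      exact Good.const 0
    · simp only [if_neg he]
      exact ((gA y).mul ((h.gw _).sh (vec y))).add ((gB y).mul (h.gw e))
  · refine Good.sum _ fun y _ => Good.const_mul _ ?_
    exact (((gA y).mul (h.gb.sh (vec y))).add ((gB y).mul h.gb)).add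
      (((gA y).mul ((h.gφ _).sh (vec y))).add ((gB y).mul (h.gφ (edge 0 y))))
  · intro η
    rw [Finset.sum_comm, ← Finset.sum_add_distrib]
    refine Finset.sum_congr rfl fun y _ => ?_
    rw [← Finset.mul_sum, hT y (fun e => A y η * φ (e.1 - vec y, e.2) (sh (vec y) η) +
      B y η * φ e η)]
    · rw [Finset.sum_add_distrib, ← Finset.mul_sum, ← Finset.mul_sum, S1, S2, h.eq, h.eq]
      ring
    · intro e he
      obtain ⟨h1, h2⟩ := hoff y e he
      beta_reduce
      rw [h.φoff h1, h.φoff h2, mul_zero, mul_zero, add_zero]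
  · intro e η
    have e1 : ∀ y : Dir d, Good fun η : Env d lo κ => c y * (if e = edge 0 y then 0 else
        A y η * φ (e.1 - vec y, e.2) (sh (vec y) η) + B y η * φ e η) := by
      intro y
      refine Good.const_mul _ ?_
      by_cases he : e = edge 0 y
      · simp only [if_pos he]
        exact Good.const 0
      · simp only [if_neg he]
        exact ((gA y).mul ((h.gφ _).sh (vec y))).add ((gB y).mul (h.gφ e))
    rw [integral_finsetSum _ fun y _ => upd_integrable (e1 y) η e]
    refine Finset.sum_eq_zero fun y _ => ?_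
    by_cases he : e = edge 0 y
    · simp only [if_pos he]
      simp
    · simp only [if_neg he]
      have e2 : ∀ u : Set.Icc lo κ, A y (Function.update η e u) *
          φ (e.1 - vec y, e.2) (sh (vec y) (Function.update η e u)) +
          B y (Function.update η e u) * φ e (Function.update η e u) =
          A y η * φ (e.1 - vec y, e.2) (Function.update (sh (vec y) η) (e.1 - vec y, e.2) u) +
          B y η * φ e (Function.update η e u) := by
        intro u
        rw [nA y e he, nB y e he, sh_update]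
      simp only [e2]
      rw [integral_const_mul, integral_add ((upd_integrable (h.gφ _) _ _).const_mul _)
        ((upd_integrable (h.gφ _) _ _).const_mul _), integral_const_mul, integral_const_mul,
        h.mz, h.mz, mul_zero, mul_zero, add_zero, mul_zero]
  · intro e η u
    refine Finset.sum_congr rfl fun y _ => ?_
    by_cases he : e = edge 0 y
    · simp only [if_pos he]
    · simp only [if_neg he]
      rw [nA y e he, nB y e he, sh_update, h.nd, h.nd]
  · intro e η
    refine (Finset.abs_sum_le_sum_abs _ _).trans (Finset.sum_le_sum fun y _ => ?_)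
    rw [abs_mul, abs_of_nonneg (hc y)]
    refine mul_le_mul_of_nonneg_left ?_ (hc y)
    by_cases he : e = edge 0 y
    · simp only [if_pos he]
      simp
    · simp only [if_neg he]
      refine (abs_add_le _ _).trans ?_
      rw [abs_mul, abs_mul, abs_of_nonneg (hA y η), abs_of_nonneg (hB y η)]
      exact add_le_add (mul_le_mul_of_nonneg_left (h.le _ _) (hA y η))
        (mul_le_mul_of_nonneg_left (h.le _ _) (hB y η))
  · intro e he η
    refine Finset.sum_eq_zero fun y _ => ?_
    obtain ⟨h1, h2⟩ := hoff y e he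
    split_ifs
    · rw [mul_zero]
    · rw [h.off _ h1, h.off _ h2, mul_zero, mul_zero, add_zero, mul_zero]
  · intro η
    rw [Finset.sum_comm, Finset.sum_mul]
    refine Finset.sum_le_sum fun y _ => ?_
    rw [← Finset.mul_sum]
    refine mul_le_mul_of_nonneg_left ?_ (hc y)
    rw [hT y (fun e => A y η * w (e.1 - vec y, e.2) (sh (vec y) η) + B y η * w e η)]
    · rw [Finset.sum_add_distrib, ← Finset.mul_sum, ← Finset.mul_sum, S3, S4]
      have c1 := mul_le_mul_of_nonneg_left (h.sum (sh (vec y) η)) (hA y η)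
      have c2 := mul_le_mul_of_nonneg_left (h.sum η) (hB y η)
      have c3 : 0 ≤ A y η * w ((edge 0 y).1 - vec y, (edge 0 y).2) (sh (vec y) η) +
          B y η * w (edge 0 y) η :=
        add_nonneg (mul_nonneg (hA y η) (h.w0 _ _)) (mul_nonneg (hB y η) (h.w0 _ _))
      have c4 := mul_le_mul_of_nonneg_right (hAB y η) hW
      linarith
    · intro e he
      obtain ⟨h1, h2⟩ := hoff y e he
      beta_reduce
      rw [h.off _ h1, h.off _ h2, mul_zero, mul_zero, add_zero]
  · intro e he η
    have key : ∀ y : Dir d, c y * (if e = edge 0 y then 0 else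
        A y η * w (e.1 - vec y, e.2) (sh (vec y) η) + B y η * w e η) ≤
        c y * ω + if Ax ((e.1 - vec y, e.2) : Edge d) then c y * W else 0 := by
      intro y
      have c2 := mul_le_mul_of_nonneg_left (h.lat e he η) (hB y η)
      have c3 := mul_le_mul_of_nonneg_right (hAB y η) hω
      split_ifs with h1 h2 h2
      · rw [mul_zero]
        have := hc y
        positivity
      · rw [mul_zero]
        have := hc y
        positivity
      · rw [← mul_add]
        refine mul_le_mul_of_nonneg_left ?_ (hc y)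
        have c1 := mul_le_mul_of_nonneg_left (h.wW (e.1 - vec y, e.2) (sh (vec y) η)) (hA y η)
        have c4 : A y η * W ≤ 1 * W :=
          mul_le_mul_of_nonneg_right (by linarith [hB y η, hAB y η]) hW
        have c5 : 0 ≤ A y η * ω := mul_nonneg (hA y η) hω
        linarith
      · rw [add_zero]
        refine mul_le_mul_of_nonneg_left ?_ (hc y)
        have c1 := mul_le_mul_of_nonneg_left (h.lat _ h2 (sh (vec y) η)) (hA y η)
        linarith
    refine (Finset.sum_le_sum fun y _ => key y).trans ?_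
    rw [Finset.sum_add_distrib, ← Finset.sum_mul]
    refine add_le_add le_rfl ?_
    by_cases h1 : ∃ y0 : Dir d, Ax ((e.1 - vec y0, e.2) : Edge d)
    · obtain ⟨y0, hy0⟩ := h1
      rw [Finset.sum_eq_single y0]
      · rw [if_pos hy0]
        exact mul_le_mul_of_nonneg_right (hcl y0 fun h2 => he (hy0.of_sub h2)) hW
      · intro y _ hy
        exact if_neg fun h2 => hy (Ax.uniq he h2 hy0)
      · intro h2
        exact absurd (Finset.mem_univ _) h2
    · rw [Finset.sum_eq_zero]
      · positivity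
      · intro y _
        exact if_neg fun h2 => h1 ⟨y, h2⟩
  · intro e he hl η
    have key : ∀ y : Dir d, c y * (if e = edge 0 y then 0 else
        A y η * w (e.1 - vec y, e.2) (sh (vec y) η) + B y η * w e η) ≤
        c y * ε + (if y.1 = 0 then 0 else c y) * ω + if y = minus d then c y * W else 0 := by
      intro y
      have hcy := hc y
      have n1 : 0 ≤ (if y.1 = 0 then 0 else c y) * ω := by
        split_ifs
        · rw [zero_mul]
        · positivity
      have n2 : 0 ≤ if y = minus d then c y * W else 0 := by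
        split_ifs
        · positivity
        · exact le_rfl
      have n3 : 0 ≤ c y * ε := by positivity
      by_cases h1 : e = edge 0 y
      · rw [if_pos h1, mul_zero]
        linarith
      · rw [if_neg h1]
        have c2 := mul_le_mul_of_nonneg_left (h.bad e he hl η) (hB y η)
        have c3 := mul_le_mul_of_nonneg_right (hAB y η) hε
        by_cases h2 : y.1 = 0
        · rw [if_pos h2, zero_mul, add_zero]
          rcases dir_cases h2 with h3 | h3
          · have hl' : ((e.1 - vec y, e.2) : Edge d).1 0 ≤ 0 := by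
              change (e.1 - vec y) 0 ≤ 0
              rw [Pi.sub_apply, h3, vec_plus]
              linarith
            have c1 := mul_le_mul_of_nonneg_left (h.bad _ (he.sub h2) hl' (sh (vec y) η)) (hA y η)
            have c4 : A y η * w (e.1 - vec y, e.2) (sh (vec y) η) + B y η * w e η ≤ ε := by
              linarith
            have c5 := mul_le_mul_of_nonneg_left c4 hcy
            linarith
          · rw [if_pos h3, ← mul_add]
            refine mul_le_mul_of_nonneg_left ?_ hcy
            have c1 := mul_le_mul_of_nonneg_left (h.wW (e.1 - vec y, e.2) (sh (vec y) η)) (hA y η)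
            have c4 : A y η * W ≤ 1 * W :=
              mul_le_mul_of_nonneg_right (by linarith [hB y η, hAB y η]) hW
            have c5 : 0 ≤ A y η * ε := mul_nonneg (hA y η) hε
            linarith
        · rw [if_neg h2]
          have c1 := mul_le_mul_of_nonneg_left (h.lat _ (he.not_sub h2) (sh (vec y) η)) (hA y η)
          have c4 : A y η * ω ≤ 1 * ω :=
            mul_le_mul_of_nonneg_right (by linarith [hB y η, hAB y η]) hω
          have c5 : 0 ≤ A y η * ε := mul_nonneg (hA y η) hε
          have c6 : A y η * w (e.1 - vec y, e.2) (sh (vec y) η) + B y η * w e η ≤ ε + ω := by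
            linarith
          have c7 := mul_le_mul_of_nonneg_left c6 hcy
          linarith
    refine (Finset.sum_le_sum fun y _ => key y).trans (le_of_eq ?_)
    rw [Finset.sum_add_distrib, Finset.sum_add_distrib, ← Finset.sum_mul, ← Finset.sum_mul]
    unfold lm
    congr 1
    rw [Finset.sum_ite_eq' Finset.univ (minus d) fun y => c y * W, if_pos (Finset.mem_univ _)]
  · intro η
    have key : ∀ y : Dir d, |c y * (A y η * b (sh (vec y) η) + B y η * b η +
        (A y η * φ ((edge 0 y).1 - vec y, (edge 0 y).2) (sh (vec y) η) +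
          B y η * φ (edge 0 y) η))| ≤
        c y * (δ + ε) + (if y.1 = 0 then 0 else c y) * ω := by
      intro y
      have hcy := hc y
      rw [abs_mul, abs_of_nonneg hcy]
      have c1 : |A y η * b (sh (vec y) η) + B y η * b η| ≤ δ := by
        refine (abs_add_le _ _).trans ?_
        rw [abs_mul, abs_mul, abs_of_nonneg (hA y η), abs_of_nonneg (hB y η)]
        have a1 := mul_le_mul_of_nonneg_left (h.rem (sh (vec y) η)) (hA y η)
        have a2 := mul_le_mul_of_nonneg_left (h.rem η) (hB y η)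
        have a3 := mul_le_mul_of_nonneg_right (hAB y η) hδ
        linarith
      have c2 : |A y η * φ ((edge 0 y).1 - vec y, (edge 0 y).2) (sh (vec y) η) +
          B y η * φ (edge 0 y) η| ≤ if y.1 = 0 then ε else ω := by
        refine (abs_add_le _ _).trans ?_
        rw [abs_mul, abs_mul, abs_of_nonneg (hA y η), abs_of_nonneg (hB y η)]
        have a0 := h.le ((edge 0 y).1 - vec y, (edge 0 y).2) (sh (vec y) η)
        have a0' := h.le (edge 0 y) η
        split_ifs with h2
        · have a1 := mul_le_mul_of_nonneg_left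
            (a0.trans (h.bad _ (edge_ax' h2).1 (edge_ax' h2).2 (sh (vec y) η))) (hA y η)
          have a2 := mul_le_mul_of_nonneg_left
            (a0'.trans (h.bad _ (edge_ax h2).1 (edge_ax h2).2 η)) (hB y η)
          have a3 := mul_le_mul_of_nonneg_right (hAB y η) hε
          linarith
        · have a1 := mul_le_mul_of_nonneg_left
            (a0.trans (h.lat _ (edge_not_ax' h2) (sh (vec y) η))) (hA y η)
          have a2 := mul_le_mul_of_nonneg_left
            (a0'.trans (h.lat _ (edge_not_ax h2) η)) (hB y η)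
          have a3 := mul_le_mul_of_nonneg_right (hAB y η) hω
          linarith
      have c3 := (abs_add_le (A y η * b (sh (vec y) η) + B y η * b η)
        (A y η * φ ((edge 0 y).1 - vec y, (edge 0 y).2) (sh (vec y) η) +
          B y η * φ (edge 0 y) η)).trans (add_le_add c1 c2)
      refine (mul_le_mul_of_nonneg_left c3 hcy).trans ?_
      split_ifs
      · rw [zero_mul, add_zero]
      · have : 0 ≤ c y * ε := by positivity
        linarith
    refine (Finset.abs_sum_le_sum_abs _ _).trans ((Finset.sum_le_sum fun y _ => key y).trans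
      (le_of_eq ?_))
    rw [Finset.sum_add_distrib, ← Finset.sum_mul, ← Finset.sum_mul]
    rfl

end Pool.Agent.NVB
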