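import Pool.Agent.NVB.Ths

/-!
# Fresh edges: the explicit decompositions
-/

set_option autoImplicit false

namespace Pool.Agent.NVB

open MeasureTheory ProbabilityTheory Filter Topology
open scoped Classical ENNReal

variable {d : ℕ} {lo κ : ℝ} {μ : ℝ} {q : Measure (Set.Icc lo κ)} [IsProbabilityMeasure q]

/-- the functions of the edges before attempts with weights `c` -/
noncomputable def cp (c : Dir d → ℝ) (A B : Dir d → Env d lo κ → ℝ)
    (φ : Edge d → Env d lo κ → ℝ) (e : Edge d) (η : Env d lo κ) : ℝ :=
  ∑ y : Dir d, c y * (if e = edge 0 y then 0 else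
      A y η * φ (e.1 - vec y, e.2) (sh (vec y) η) + B y η * φ e η)

/-- the part which uses the value of the edge of the attempt -/
noncomputable def cn (c : Dir d → ℝ) (A B : Dir d → Env d lo κ → ℝ)
    (φ : Edge d → Env d lo κ → ℝ) (η : Env d lo κ) : ℝ :=
  ∑ y : Dir d, c y *
    (A y η * φ ((edge 0 y).1 - vec y, (edge 0 y).2) (sh (vec y) η) + B y η * φ (edge 0 y) η)

/-- attempts in all directions with weights `c` -/
theorem IsFr.comb {c : Dir d → ℝ} (hc : ∀ y, 0 ≤ c y) {cl : ℝ} (hcl0 : 0 ≤ cl)
    (hcl : ∀ y : Dir d, y.1 ≠ 0 → c y ≤ cl)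
    {A B : Dir d → Env d lo κ → ℝ} (gA : ∀ y, Good (A y)) (gB : ∀ y, Good (B y))
    (hA : ∀ y η, 0 ≤ A y η) (hB : ∀ y η, 0 ≤ B y η) (hAB : ∀ y η, A y η + B y η ≤ 1)
    (nA : ∀ y e, e ≠ edge 0 y → Nd e (A y)) (nB : ∀ y e, e ≠ edge 0 y → Nd e (B y))
    {f : Env d lo κ → ℝ} {W ω ε δ : ℝ} {F : Finset (Edge d)}
    {φ w : Edge d → Env d lo κ → ℝ} {b : Env d lo κ → ℝ} (h : IsFr q f W ω ε δ F φ w b)
    (hω : 0 ≤ ω) (hε : 0 ≤ ε) (hδ : 0 ≤ δ) :
    ∃ F' : Finset (Edge d),
      IsFr q (fun η => ∑ y : Dir d, c y * (A y η * f (sh (vec y) η) + B y η * f η))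
      ((∑ y, c y) * W) ((∑ y, c y) * ω + cl * W)
      ((∑ y, c y) * ε + lm c * ω + c (minus d) * W) ((∑ y, c y) * (δ + ε) + lm c * ω)
      F' (cp c A B φ) (cp c A B w)
      (fun η => (∑ y : Dir d, c y * (A y η * b (sh (vec y) η) + B y η * b η)) +
        cn c A B φ η) := by
  set F' : Finset (Edge d) := F ∪ Finset.univ.biUnion (fun y : Dir d =>
    F.image (fun e : Edge d => ((e.1 + vec y, e.2) : Edge d))) with hF'
  have hsub : F ⊆ F' := Finset.subset_union_left
  have hsh : ∀ y : Dir d, ∀ e ∈ F, ((e.1 + vec y, e.2) : Edge d) ∈ F' := fun y e he =>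
    Finset.mem_union_right _ (Finset.mem_biUnion.2
      ⟨y, Finset.mem_univ _, Finset.mem_image_of_mem _ he⟩)
  have hoff : ∀ y : Dir d, ∀ e, e ∉ F' → e ∉ F ∧ ((e.1 - vec y, e.2) : Edge d) ∉ F := by
    intro y e he
    refine ⟨fun h1 => he (hsub h1), fun h1 => he ?_⟩
    have := hsh y _ h1
    simpa using this
  have hW := h.W0
  -- the sums
  have S1 : ∀ y η, ∑ e ∈ F', φ (e.1 - vec y, e.2) (sh (vec y) η) =
      ∑ e ∈ F, φ e (sh (vec y) η) := fun y η =>
    sum_shift (g := fun e => φ e (sh (vec y) η)) (fun e he => h.φoff he _) (vec y) (hsh y)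
  have S2 : ∀ η, ∑ e ∈ F', φ e η = ∑ e ∈ F, φ e η := fun η =>
    (Finset.sum_subset hsub fun e _ he => h.φoff he η).symm
  have S3 : ∀ y η, ∑ e ∈ F', w (e.1 - vec y, e.2) (sh (vec y) η) =
      ∑ e ∈ F, w e (sh (vec y) η) := fun y η =>
    sum_shift (g := fun e => w e (sh (vec y) η)) (fun e he => h.off e he _) (vec y) (hsh y)
  have S4 : ∀ η, ∑ e ∈ F', w e η = ∑ e ∈ F, w e η := fun η =>
    (Finset.sum_subset hsub fun e _ he => h.off e he η).symm
  have hT : ∀ (y : Dir d) (T : Edge d → ℝ), (∀ e, e ∉ F' → T e = 0) →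
      ∑ e ∈ F', (if e = edge 0 y then 0 else T e) = ∑ e ∈ F', T e - T (edge 0 y) := by
    intro y T hT
    have h1 : ∀ e ∈ F', (if e = edge 0 y then 0 else T e) =
        T e - if e = edge 0 y then T e else 0 := by
      intro e _
      split_ifs <;> simp
    rw [Finset.sum_congr rfl h1, Finset.sum_sub_distrib]
    congr 1
    by_cases h2 : edge 0 y ∈ F'
    · rw [Finset.sum_ite_eq' F' (edge 0 y) T, if_pos h2]
    · rw [Finset.sum_ite_eq' F' (edge 0 y) T, if_neg h2, hT _ h2]
  have hb : (fun η : Env d lo κ => (∑ y : Dir d, c y * (A y η * b (sh (vec y) η) + B y η * b η)) +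
        cn c A B φ η) = fun η => ∑ y : Dir d, c y * (A y η * b (sh (vec y) η) + B y η * b η +
      (A y η * φ ((edge 0 y).1 - vec y, (edge 0 y).2) (sh (vec y) η) +
        B y η * φ (edge 0 y) η)) := by
    funext η
    unfold cn
    rw [← Finset.sum_add_distrib]
    exact Finset.sum_congr rfl fun y _ => by ring
  have hp : ∀ ψ : Edge d → Env d lo κ → ℝ, cp c A B ψ = fun e η => ∑ y : Dir d, c y *
      (if e = edge 0 y then 0 else A y η * ψ (e.1 - vec y, e.2) (sh (vec y) η) + B y η * ψ e η) :=
    fun _ => rfl
  rw [hb, hp φ, hp w]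
  refine ⟨F', ?_, ?_, ?_, ?_, ?_, ?_, ?_, ?_, ?_, ?_, ?_, ?_⟩
  · intro e
    refine Good.sum _ fun y _ => Good.const_mul _ ?_
    by_cases he : e = edge 0 y
    · simp only [if_pos he]
      exact Good.const 0
    · simp only [if_neg he]
      exact ((gA y).mul ((h.gφ _).sh (vec y))).add ((gB y).mul (h.gφ e))
  · intro e
    refine Good.sum _ fun y _ => Good.const_mul _ ?_
    by_cases he : e = edge 0 y
    · simp only [if_pos he]
      exact Good.const 0
    · simp only [if_neg he]
      exact ((gA y).mul ((h.gw _).sh (vec y))).add ((gB y).mul (h.gw e))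
  · refine Good.sum _ fun y _ => Good.const_mul _ ?_
    exact (((gA y).mul (h.gb.sh (vec y))).add ((gB y).mul h.gb)).add
      (((gA y).mul ((h.gφ _).sh (vec y))).add ((gB y).mul (h.gφ (edge 0 y))))
  · intro η
    rw [Finset.sum_comm, ← Finset.sum_add_distrib]
    refine Finset.sum_congr rfl fun y _ => ?_
    rw [← Finset.mul_sum, hT y (fun e => A y η * φ (e.1 - vec y, e.2) (sh (vec y) η) +
      B y η * φ e η)]
    · rw [Finset.sum_add_distrib, ← Finset.mul_sum, ← Finset.mul_sum, S1, S2, h.eq, h.eq]
      ring
    · intro e he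
      obtain ⟨h1, h2⟩ := hoff y e he
      beta_reduce
      rw [h.φoff h1, h.φoff h2, mul_zero, mul_zero, add_zero]
  · intro e η
    have e1 : ∀ y : Dir d, Good fun η : Env d lo κ => c y * (if e = edge 0 y then 0 else
        A y η * φ (e.1 - vec y, e.2) (sh (vec y) η) + B y η * φ e η) := by
      intro y
      refine Good.const_mul _ ?_
      by_cases he : e = edge 0 y
      · simp only [if_pos he]
        exact Good.const 0
      · simp only [if_neg he]
        exact ((gA y).mul ((h.gφ _).sh (vec y))).add ((gB y).mul (h.gφ e))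
    rw [integral_finsetSum _ fun y _ => upd_integrable (e1 y) η e]
    refine Finset.sum_eq_zero fun y _ => ?_
    by_cases he : e = edge 0 y
    · simp only [if_pos he]
      simp
    · simp only [if_neg he]
      have e2 : ∀ u : Set.Icc lo κ, A y (Function.update η e u) *
          φ (e.1 - vec y, e.2) (sh (vec y) (Function.update η e u)) +
          B y (Function.update η e u) * φ e (Function.update η e u) =
          A y η * φ (e.1 - vec y, e.2) (Function.update (sh (vec y) η) (e.1 - vec y, e.2) u) +
          B y η * φ e (Function.update η e u) := by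
        intro u
        rw [nA y e he, nB y e he, sh_update]
      simp only [e2]
      rw [integral_const_mul, integral_add ((upd_integrable (h.gφ _) _ _).const_mul _)
        ((upd_integrable (h.gφ _) _ _).const_mul _), integral_const_mul, integral_const_mul,
        h.mz, h.mz, mul_zero, mul_zero, add_zero, mul_zero]
  · intro e η u
    refine Finset.sum_congr rfl fun y _ => ?_
    by_cases he : e = edge 0 y
    · simp only [if_pos he]
    · simp only [if_neg he]
      rw [nA y e he, nB y e he, sh_update, h.nd, h.nd]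
  · intro e η
    refine (Finset.abs_sum_le_sum_abs _ _).trans (Finset.sum_le_sum fun y _ => ?_)
    rw [abs_mul, abs_of_nonneg (hc y)]
    refine mul_le_mul_of_nonneg_left ?_ (hc y)
    by_cases he : e = edge 0 y
    · simp only [if_pos he]
      simp
    · simp only [if_neg he]
      refine (abs_add_le _ _).trans ?_
      rw [abs_mul, abs_mul, abs_of_nonneg (hA y η), abs_of_nonneg (hB y η)]
      exact add_le_add (mul_le_mul_of_nonneg_left (h.le _ _) (hA y η))
        (mul_le_mul_of_nonneg_left (h.le _ _) (hB y η))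
  · intro e he η
    refine Finset.sum_eq_zero fun y _ => ?_
    obtain ⟨h1, h2⟩ := hoff y e he
    split_ifs
    · rw [mul_zero]
    · rw [h.off _ h1, h.off _ h2, mul_zero, mul_zero, add_zero, mul_zero]
  · intro η
    rw [Finset.sum_comm, Finset.sum_mul]
    refine Finset.sum_le_sum fun y _ => ?_
    rw [← Finset.mul_sum]
    refine mul_le_mul_of_nonneg_left ?_ (hc y)
    rw [hT y (fun e => A y η * w (e.1 - vec y, e.2) (sh (vec y) η) + B y η * w e η)]
    · rw [Finset.sum_add_distrib, ← Finset.mul_sum, ← Finset.mul_sum, S3, S4]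
      have c1 := mul_le_mul_of_nonneg_left (h.sum (sh (vec y) η)) (hA y η)
      have c2 := mul_le_mul_of_nonneg_left (h.sum η) (hB y η)
      have c3 : 0 ≤ A y η * w ((edge 0 y).1 - vec y, (edge 0 y).2) (sh (vec y) η) +
          B y η * w (edge 0 y) η :=
        add_nonneg (mul_nonneg (hA y η) (h.w0 _ _)) (mul_nonneg (hB y η) (h.w0 _ _))
      have c4 := mul_le_mul_of_nonneg_right (hAB y η) hW
      linarith
    · intro e he
      obtain ⟨h1, h2⟩ := hoff y e he
      beta_reduce
      rw [h.off _ h1, h.off _ h2, mul_zero, mul_zero, add_zero]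
  · intro e he η
    have key : ∀ y : Dir d, c y * (if e = edge 0 y then 0 else
        A y η * w (e.1 - vec y, e.2) (sh (vec y) η) + B y η * w e η) ≤
        c y * ω + if Ax ((e.1 - vec y, e.2) : Edge d) then c y * W else 0 := by
      intro y
      have c2 := mul_le_mul_of_nonneg_left (h.lat e he η) (hB y η)
      have c3 := mul_le_mul_of_nonneg_right (hAB y η) hω
      split_ifs with h1 h2 h2
      · rw [mul_zero]
        have := hc y
        positivity
      · rw [mul_zero]
        have := hc y
        positivity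
      · rw [← mul_add]
        refine mul_le_mul_of_nonneg_left ?_ (hc y)
        have c1 := mul_le_mul_of_nonneg_left (h.wW (e.1 - vec y, e.2) (sh (vec y) η)) (hA y η)
        have c4 : A y η * W ≤ 1 * W :=
          mul_le_mul_of_nonneg_right (by linarith [hB y η, hAB y η]) hW
        have c5 : 0 ≤ A y η * ω := mul_nonneg (hA y η) hω
        linarith
      · rw [add_zero]
        refine mul_le_mul_of_nonneg_left ?_ (hc y)
        have c1 := mul_le_mul_of_nonneg_left (h.lat _ h2 (sh (vec y) η)) (hA y η)
        linarith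
    refine (Finset.sum_le_sum fun y _ => key y).trans ?_
    rw [Finset.sum_add_distrib, ← Finset.sum_mul]
    refine add_le_add le_rfl ?_
    by_cases h1 : ∃ y0 : Dir d, Ax ((e.1 - vec y0, e.2) : Edge d)
    · obtain ⟨y0, hy0⟩ := h1
      rw [Finset.sum_eq_single y0]
      · rw [if_pos hy0]
        exact mul_le_mul_of_nonneg_right (hcl y0 fun h2 => he (hy0.of_sub h2)) hW
      · intro y _ hy
        exact if_neg fun h2 => hy (Ax.uniq he h2 hy0)
      · intro h2
        exact absurd (Finset.mem_univ _) h2
    · rw [Finset.sum_eq_zero]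
      · positivity
      · intro y _
        exact if_neg fun h2 => h1 ⟨y, h2⟩
  · intro e he hl η
    have key : ∀ y : Dir d, c y * (if e = edge 0 y then 0 else
        A y η * w (e.1 - vec y, e.2) (sh (vec y) η) + B y η * w e η) ≤
        c y * ε + (if y.1 = 0 then 0 else c y) * ω + if y = minus d then c y * W else 0 := by
      intro y
      have hcy := hc y
      have n1 : 0 ≤ (if y.1 = 0 then 0 else c y) * ω := by
        split_ifs
        · rw [zero_mul]
        · positivity
      have n2 : 0 ≤ if y = minus d then c y * W else 0 := by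
        split_ifs
        · positivity
        · exact le_rfl
      have n3 : 0 ≤ c y * ε := by positivity
      by_cases h1 : e = edge 0 y
      · rw [if_pos h1, mul_zero]
        linarith
      · rw [if_neg h1]
        have c2 := mul_le_mul_of_nonneg_left (h.bad e he hl η) (hB y η)
        have c3 := mul_le_mul_of_nonneg_right (hAB y η) hε
        by_cases h2 : y.1 = 0
        · rw [if_pos h2, zero_mul, add_zero]
          rcases dir_cases h2 with h3 | h3
          · have hl' : ((e.1 - vec y, e.2) : Edge d).1 0 ≤ 0 := by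
              change (e.1 - vec y) 0 ≤ 0
              rw [Pi.sub_apply, h3, vec_plus]
              linarith
            have c1 := mul_le_mul_of_nonneg_left (h.bad _ (he.sub h2) hl' (sh (vec y) η)) (hA y η)
            have c4 : A y η * w (e.1 - vec y, e.2) (sh (vec y) η) + B y η * w e η ≤ ε := by
              linarith
            have c5 := mul_le_mul_of_nonneg_left c4 hcy
            linarith
          · rw [if_pos h3, ← mul_add]
            refine mul_le_mul_of_nonneg_left ?_ hcy
            have c1 := mul_le_mul_of_nonneg_left (h.wW (e.1 - vec y, e.2) (sh (vec y) η)) (hA y η)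
            have c4 : A y η * W ≤ 1 * W :=
              mul_le_mul_of_nonneg_right (by linarith [hB y η, hAB y η]) hW
            have c5 : 0 ≤ A y η * ε := mul_nonneg (hA y η) hε
            linarith
        · rw [if_neg h2]
          have c1 := mul_le_mul_of_nonneg_left (h.lat _ (he.not_sub h2) (sh (vec y) η)) (hA y η)
          have c4 : A y η * ω ≤ 1 * ω :=
            mul_le_mul_of_nonneg_right (by linarith [hB y η, hAB y η]) hω
          have c5 : 0 ≤ A y η * ε := mul_nonneg (hA y η) hε
          have c6 : A y η * w (e.1 - vec y, e.2) (sh (vec y) η) + B y η * w e η ≤ ε + ω := by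
            linarith
          have c7 := mul_le_mul_of_nonneg_left c6 hcy
          linarith
    refine (Finset.sum_le_sum fun y _ => key y).trans (le_of_eq ?_)
    rw [Finset.sum_add_distrib, Finset.sum_add_distrib, ← Finset.sum_mul, ← Finset.sum_mul]
    unfold lm
    congr 1
    rw [Finset.sum_ite_eq' Finset.univ (minus d) fun y => c y * W, if_pos (Finset.mem_univ _)]
  · intro η
    have key : ∀ y : Dir d, |c y * (A y η * b (sh (vec y) η) + B y η * b η +
        (A y η * φ ((edge 0 y).1 - vec y, (edge 0 y).2) (sh (vec y) η) +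
          B y η * φ (edge 0 y) η))| ≤
        c y * (δ + ε) + (if y.1 = 0 then 0 else c y) * ω := by
      intro y
      have hcy := hc y
      rw [abs_mul, abs_of_nonneg hcy]
      have c1 : |A y η * b (sh (vec y) η) + B y η * b η| ≤ δ := by
        refine (abs_add_le _ _).trans ?_
        rw [abs_mul, abs_mul, abs_of_nonneg (hA y η), abs_of_nonneg (hB y η)]
        have a1 := mul_le_mul_of_nonneg_left (h.rem (sh (vec y) η)) (hA y η)
        have a2 := mul_le_mul_of_nonneg_left (h.rem η) (hB y η)
        have a3 := mul_le_mul_of_nonneg_right (hAB y η) hδ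
        linarith
      have c2 : |A y η * φ ((edge 0 y).1 - vec y, (edge 0 y).2) (sh (vec y) η) +
          B y η * φ (edge 0 y) η| ≤ if y.1 = 0 then ε else ω := by
        refine (abs_add_le _ _).trans ?_
        rw [abs_mul, abs_mul, abs_of_nonneg (hA y η), abs_of_nonneg (hB y η)]
        have a0 := h.le ((edge 0 y).1 - vec y, (edge 0 y).2) (sh (vec y) η)
        have a0' := h.le (edge 0 y) η
        split_ifs with h2
        · have a1 := mul_le_mul_of_nonneg_left
            (a0.trans (h.bad _ (edge_ax' h2).1 (edge_ax' h2).2 (sh (vec y) η))) (hA y η)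
          have a2 := mul_le_mul_of_nonneg_left
            (a0'.trans (h.bad _ (edge_ax h2).1 (edge_ax h2).2 η)) (hB y η)
          have a3 := mul_le_mul_of_nonneg_right (hAB y η) hε
          linarith
        · have a1 := mul_le_mul_of_nonneg_left
            (a0.trans (h.lat _ (edge_not_ax' h2) (sh (vec y) η))) (hA y η)
          have a2 := mul_le_mul_of_nonneg_left
            (a0'.trans (h.lat _ (edge_not_ax h2) η)) (hB y η)
          have a3 := mul_le_mul_of_nonneg_right (hAB y η) hω
          linarith
      have c3 := (abs_add_le (A y η * b (sh (vec y) η) + B y η * b η)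
        (A y η * φ ((edge 0 y).1 - vec y, (edge 0 y).2) (sh (vec y) η) +
          B y η * φ (edge 0 y) η)).trans (add_le_add c1 c2)
      refine (mul_le_mul_of_nonneg_left c3 hcy).trans ?_
      split_ifs
      · rw [zero_mul, add_zero]
      · have : 0 ≤ c y * ε := by positivity
        linarith
    refine (Finset.abs_sum_le_sum_abs _ _).trans ((Finset.sum_le_sum fun y _ => key y).trans
      (le_of_eq ?_))
    rw [Finset.sum_add_distrib, ← Finset.sum_mul, ← Finset.sum_mul]
    rfl

end Pool.Agent.NVB
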