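import Pool.Agent.NVB.Fr

/-!
# Fresh edges: gaps and iteration
-/

set_option autoImplicit false

namespace Pool.Agent.NVB

open MeasureTheory ProbabilityTheory Filter Topology
open scoped Classical ENNReal

variable {d : ℕ} {lo κ : ℝ} {μ : ℝ} {q : Measure (Set.Icc lo κ)} [IsProbabilityMeasure q]

theorem gap_ae_pos (hκ : 0 < κ) (hμ : 0 < μ) : ∀ᵐ z ∂gapLaw d (lo := lo) μ q, 0 < z.1 := by
  have hp := isProbabilityMeasure_expMeasure hμ
  have hpκ := isProbabilityMeasure_expMeasure hκ
  exact Measure.quasiMeasurePreserving_fst.ae (exp_ae_pos hκ)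

/-- the weight of the edges which are not resampled -/
noncomputable def Gb (μ : ℝ) (q : Measure (Set.Icc lo κ)) (w : Env d lo κ → ℝ)
    (η : Env d lo κ) : ℝ :=
  ∫ z, Real.exp (-(μ * z.1)) * w (ref z η) ∂gapLaw d μ q

theorem wexp_integrable (hκ : 0 < κ) (hμ : 0 < μ) {h : Gap d lo κ → ℝ} (hm : Measurable h) {C : ℝ}
    (hC : ∀ z, |h z| ≤ C) : Integrable (fun z => Real.exp (-(μ * z.1)) * h z) (gapLaw d μ q) := by
  have hp := gap_prob (d := d) (q := q) hκ hμ
  have m1 : Measurable fun z : Gap d lo κ => Real.exp (-(μ * z.1)) * h z := by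
    have : Measurable fun z : Gap d lo κ => Real.exp (-(μ * z.1)) := by fun_prop
    exact this.mul hm
  refine Integrable.of_bound m1.aestronglyMeasurable C ?_
  filter_upwards [gap_ae_pos (d := d) (lo := lo) (q := q) hκ hμ] with z hz
  rw [Real.norm_eq_abs, abs_mul, abs_of_pos (Real.exp_pos _)]
  have h1 : Real.exp (-(μ * z.1)) ≤ 1 := Real.exp_le_one_iff.2 (by nlinarith)
  have h2 : Real.exp (-(μ * z.1)) * |h z| ≤ 1 * |h z| :=
    mul_le_mul_of_nonneg_right h1 (abs_nonneg _)
  linarith [hC z]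

theorem wexp_int (hκ : 0 < κ) (hμ : 0 < μ) :
    ∫ z, Real.exp (-(μ * z.1)) ∂gapLaw d (lo := lo) μ q = κ / (κ + μ) := by
  have hp := isProbabilityMeasure_expMeasure hμ
  have hpκ := isProbabilityMeasure_expMeasure hκ
  have h1 : MeasurePreserving (Prod.fst : Gap d lo κ → ℝ) (gapLaw d μ q) (expMeasure κ) :=
    measurePreserving_fst
  rw [← exp_int_exp hκ hμ, ← h1.map_eq, integral_map h1.measurable.aemeasurable (by fun_prop)]

theorem Good.Gb (hκ : 0 < κ) (hμ : 0 < μ) {f : Env d lo κ → ℝ} (hf : Good f) :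
    Good (NVB.Gb μ q f) := by
  have hp := gap_prob (d := d) (q := q) hκ hμ
  obtain ⟨C, hC⟩ := hf.bdd
  obtain ⟨F, hF⟩ := hf.dep
  refine ⟨?_, ⟨C, fun η => ?_⟩, ⟨F, fun η η' h => ?_⟩⟩
  · have h1 : StronglyMeasurable (Function.uncurry fun (η : Env d lo κ) (z : Gap d lo κ) =>
        Real.exp (-(μ * z.1)) * f (ref z η)) := by
      apply Measurable.stronglyMeasurable
      have g1 : Measurable fun t : Env d lo κ × Gap d lo κ => Real.exp (-(μ * t.2.1)) := by
        fun_prop
      exact g1.mul (hf.meas.comp (measurable_ref.comp measurable_swap))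
    exact h1.integral_prod_right.measurable
  · have hC0 : 0 ≤ C := (abs_nonneg _).trans (hC η)
    unfold NVB.Gb
    have i1 := wexp_integrable (q := q) hκ hμ (hf.meas.comp (measurable_ref_left η)) fun z => hC _
    have i2 : Integrable (fun z : Gap d lo κ => Real.exp (-(μ * z.1)) * C) (gapLaw d μ q) :=
      wexp_integrable (q := q) hκ hμ measurable_const fun z => le_rfl
    refine (abs_integral_le_integral_abs).trans ?_
    calc ∫ z, |Real.exp (-(μ * z.1)) * f (ref z η)| ∂gapLaw d μ q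
        ≤ ∫ z, Real.exp (-(μ * z.1)) * C ∂gapLaw d μ q := by
          refine integral_mono i1.abs ?_ fun z => ?_
          · have := wexp_integrable (q := q) (d := d) (lo := lo) hκ hμ (h := fun _ => C)
              measurable_const (C := |C|) fun z => le_rfl
            exact this
          · beta_reduce
            rw [abs_mul, abs_of_pos (Real.exp_pos _)]
            exact mul_le_mul_of_nonneg_left (hC _) (Real.exp_pos _).le
      _ = κ / (κ + μ) * C := by rw [integral_mul_const, wexp_int hκ hμ]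
      _ ≤ C := by
        have : κ / (κ + μ) ≤ 1 := by
          rw [div_le_one (by positivity)]
          linarith
        nlinarith
  · unfold NVB.Gb
    refine integral_congr_ae (Eventually.of_forall fun z => ?_)
    beta_reduce
    congr 1
    refine hF _ _ fun e he => ?_
    unfold ref
    rw [h e he]

theorem Gb_sum_le (hκ : 0 < κ) (hμ : 0 < μ) {F : Finset (Edge d)} {w : Edge d → Env d lo κ → ℝ}
    (gw : ∀ e, Good (w e)) {W : ℝ} (h : ∀ η, ∑ e ∈ F, w e η ≤ W) (η : Env d lo κ) :
    ∑ e ∈ F, Gb μ q (w e) η ≤ κ / (κ + μ) * W := by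
  unfold Gb
  have i1 : ∀ e, Integrable (fun z : Gap d lo κ => Real.exp (-(μ * z.1)) * w e (ref z η))
      (gapLaw d μ q) := by
    intro e
    obtain ⟨C, hC⟩ := (gw e).bdd
    exact wexp_integrable (q := q) hκ hμ ((gw e).meas.comp (measurable_ref_left η)) fun z => hC _
  rw [← integral_finsetSum F fun e _ => i1 e]
  have i2 : Integrable (fun z : Gap d lo κ => Real.exp (-(μ * z.1)) * W) (gapLaw d μ q) :=
    wexp_integrable (q := q) hκ hμ measurable_const fun z => le_rfl
  calc ∫ z, ∑ e ∈ F, Real.exp (-(μ * z.1)) * w e (ref z η) ∂gapLaw d μ q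
      ≤ ∫ z, Real.exp (-(μ * z.1)) * W ∂gapLaw d μ q := by
        refine integral_mono (integrable_finsetSum _ fun e _ => i1 e) i2 fun z => ?_
        beta_reduce
        rw [← Finset.mul_sum]
        exact mul_le_mul_of_nonneg_left (h _) (Real.exp_pos _).le
    _ = κ / (κ + μ) * W := by rw [integral_mul_const, wexp_int hκ hμ]

/-- one clock -/
theorem clock_int (hμ : 0 < μ) {s : ℝ} (hs : 0 ≤ s) {g : Set.Icc lo κ → ℝ} (hg : Measurable g)
    {C : ℝ} (hC : ∀ b, |g b| ≤ C) (h0 : ∫ b, g b ∂q = 0) (a : Set.Icc lo κ) :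
    ∫ t, g (if t.1 ≤ s then t.2 else a) ∂(expMeasure μ).prod q = Real.exp (-(μ * s)) * g a := by
  have hp := isProbabilityMeasure_expMeasure hμ
  have m1 : Measurable fun t : ℝ × Set.Icc lo κ => g (if t.1 ≤ s then t.2 else a) :=
    hg.comp (Measurable.ite (measurableSet_le measurable_fst measurable_const) measurable_snd
      measurable_const)
  rw [integral_prod _ (Integrable.of_bound m1.aestronglyMeasurable C
    (Eventually.of_forall fun t => hC _))]
  have h1 : ∀ c : ℝ, ∫ b, g (if c ≤ s then b else a) ∂q = (Set.Ioi s).indicator (fun _ => g a) c := by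
    intro c
    by_cases hc : c ≤ s
    · simp only [if_pos hc]
      rw [h0, Set.indicator_of_notMem (by simpa using hc)]
    · simp only [if_neg hc]
      rw [Set.indicator_of_mem (by simpa using hc)]
      simp
  simp only [h1]
  rw [integral_indicator measurableSet_Ioi, setIntegral_const, measureReal_def, exp_Ioi hμ hs,
    ENNReal.toReal_ofReal (Real.exp_pos _).le, smul_eq_mul]

theorem ref_upd_clock (s : ℝ) (C : Edge d → ℝ × Set.Icc lo κ) (e : Edge d) (t : ℝ × Set.Icc lo κ)
    (η : Env d lo κ) : ref (s, Function.update C e t) η =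
      Function.update (ref (s, C) η) e (if t.1 ≤ s then t.2 else η e) := by
  funext e'
  by_cases h : e' = e
  · subst h
    simp [ref]
  · rw [Function.update_of_ne h]
    have h1 : Function.update C e t e' = C e' := Function.update_of_ne h t C
    unfold ref
    simp only [h1]

/-- a function with vanishing expectation over the edge `e` -/
theorem G_mz (hκ : 0 < κ) (hμ : 0 < μ) {e : Edge d} {φ : Env d lo κ → ℝ} (gφ : Good φ)
    (h : MZ q e φ) (η : Env d lo κ) :
    G μ q φ η = ∫ z, Real.exp (-(μ * z.1)) * φ (Function.update (ref z η) e (η e))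
      ∂gapLaw d μ q := by
  have hp := isProbabilityMeasure_expMeasure hμ
  have hpκ := isProbabilityMeasure_expMeasure hκ
  obtain ⟨C0, hC0⟩ := gφ.bdd
  set P0 := (Measure.infinitePi fun _ : Edge d => (expMeasure μ).prod q) with hP0
  have mu : Measurable fun z : Gap d lo κ => Function.update (ref z η) e (η e) :=
    (measurable_gupd_right e (η e)).comp (measurable_ref_left η)
  have i1 := wexp_integrable (q := q) hκ hμ (gφ.meas.comp mu) fun z => hC0 _
  have e1 : ∫ z, Real.exp (-(μ * z.1)) * φ (Function.update (ref z η) e (η e)) ∂gapLaw d μ q =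
      ∫ s, ∫ C, Real.exp (-(μ * s)) * φ (Function.update (ref (s, C) η) e (η e)) ∂P0
        ∂expMeasure κ := integral_prod _ i1
  rw [G_eq hκ hμ gφ, e1]
  refine integral_congr_ae ?_
  filter_upwards [exp_ae_pos hκ] with s hs
  have mC : Measurable fun C : Edge d → ℝ × Set.Icc lo κ => φ (ref (s, C) η) :=
    gφ.meas.comp ((measurable_ref_s s).comp (measurable_id.prodMk measurable_const))
  rw [gresample (fun _ : Edge d => (expMeasure μ).prod q) mC (fun C => hC0 _) e,
    integral_integral_swap]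
  · refine integral_congr_ae (Eventually.of_forall fun C => ?_)
    beta_reduce
    have g0 : Measurable fun b : Set.Icc lo κ => (b, ref (s, C) η) :=
      measurable_id.prodMk measurable_const
    have g1 : Measurable fun b : Set.Icc lo κ => φ (Function.update (ref (s, C) η) e b) :=
      gφ.meas.comp ((measurable_gupd e).comp g0)
    have h2 := clock_int (q := q) hμ hs.le g1 (fun b => hC0 _) (h _) (η e)
    rw [← h2]
    refine integral_congr_ae (Eventually.of_forall fun t => ?_)
    beta_reduce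
    rw [ref_upd_clock]
  · have g0 : Measurable fun t : (ℝ × Set.Icc lo κ) × (Edge d → ℝ × Set.Icc lo κ) =>
        φ (ref (s, Function.update t.2 e t.1) η) :=
      mC.comp (measurable_gupd (X := ℝ × Set.Icc lo κ) e)
    exact Integrable.of_bound g0.aestronglyMeasurable C0 (Eventually.of_forall fun t => hC0 _)

theorem G_mz_le (hκ : 0 < κ) (hμ : 0 < μ) {e : Edge d} {φ w : Env d lo κ → ℝ} (gφ : Good φ)
    (gw : Good w) (h : MZ q e φ) (hw : Nd e w) (hle : ∀ η, |φ η| ≤ w η) (η : Env d lo κ) :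
    |G μ q φ η| ≤ Gb μ q w η := by
  obtain ⟨C0, hC0⟩ := gφ.bdd
  obtain ⟨C1, hC1⟩ := gw.bdd
  have mu : Measurable fun z : Gap d lo κ => Function.update (ref z η) e (η e) :=
    (measurable_gupd_right e (η e)).comp (measurable_ref_left η)
  have i1 := wexp_integrable (q := q) hκ hμ (gφ.meas.comp mu) fun z => hC0 _
  have i2 := wexp_integrable (q := q) hκ hμ (gw.meas.comp (measurable_ref_left η)) fun z => hC1 _
  rw [G_mz hκ hμ gφ h]
  unfold Gb
  refine abs_integral_le_integral_abs.trans (integral_mono i1.abs i2 fun z => ?_)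
  beta_reduce
  rw [abs_mul, abs_of_pos (Real.exp_pos _)]
  refine mul_le_mul_of_nonneg_left ?_ (Real.exp_pos _).le
  have := hle (Function.update (ref z η) e (η e))
  rw [hw] at this
  exact this

theorem G_mz_mz (hκ : 0 < κ) (hμ : 0 < μ) {e : Edge d} {φ : Env d lo κ → ℝ} (gφ : Good φ)
    (h : MZ q e φ) : MZ q e (G μ q φ) := by
  intro η
  have hp := gap_prob (d := d) (q := q) hκ hμ
  obtain ⟨C0, hC0⟩ := gφ.bdd
  have e1 : ∀ b : Set.Icc lo κ, G μ q φ (Function.update η e b) =
      ∫ z, Real.exp (-(μ * z.1)) * φ (Function.update (ref z η) e b) ∂gapLaw d μ q := by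
    intro b
    rw [G_mz hκ hμ gφ h]
    refine integral_congr_ae (Eventually.of_forall fun z => ?_)
    beta_reduce
    congr 2
    rw [ref_update, Function.update_self]
    split_ifs
    · rw [Function.update_idem]
    · rfl
  simp only [e1]
  have m0 : Measurable fun t : Set.Icc lo κ × Gap d lo κ =>
      φ (Function.update (ref t.2 η) e t.1) :=
    gφ.meas.comp ((measurable_gupd e).comp
      (measurable_fst.prodMk ((measurable_ref_left η).comp measurable_snd)))
  rw [integral_integral_swap]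
  · have h2 : ∀ z : Gap d lo κ, ∫ b, Real.exp (-(μ * z.1)) *
        φ (Function.update (ref z η) e b) ∂q = 0 := by
      intro z
      rw [integral_const_mul, h, mul_zero]
    simp only [h2]
    simp
  · have m1 : Measurable fun t : Set.Icc lo κ × Gap d lo κ =>
        Real.exp (-(μ * t.2.1)) * φ (Function.update (ref t.2 η) e t.1) := by
      have : Measurable fun t : Set.Icc lo κ × Gap d lo κ => Real.exp (-(μ * t.2.1)) := by fun_prop
      exact this.mul m0
    refine Integrable.of_bound m1.aestronglyMeasurable C0 ?_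
    have h3 : ∀ᵐ t ∂q.prod (gapLaw d (lo := lo) μ q), 0 < t.2.1 :=
      Measure.quasiMeasurePreserving_snd.ae (gap_ae_pos hκ hμ)
    filter_upwards [h3] with t ht
    change ‖Real.exp (-(μ * t.2.1)) * φ (Function.update (ref t.2 η) e t.1)‖ ≤ C0
    rw [Real.norm_eq_abs, abs_mul, abs_of_pos (Real.exp_pos _)]
    have h1 : Real.exp (-(μ * t.2.1)) ≤ 1 := Real.exp_le_one_iff.2 (by nlinarith)
    have h2 := mul_le_mul_of_nonneg_right h1 (abs_nonneg (φ (Function.update (ref t.2 η) e t.1)))
    linarith [hC0 (Function.update (ref t.2 η) e t.1)]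

theorem Gb_nd {e : Edge d} {w : Env d lo κ → ℝ} (hw : Nd e w) : Nd e (Gb μ q w) := by
  intro η b
  unfold Gb
  refine integral_congr_ae (Eventually.of_forall fun z => ?_)
  beta_reduce
  congr 1
  rw [ref_update]
  split_ifs
  · exact hw _ _
  · rfl

theorem Fr.G (hκ : 0 < κ) (hμ : 0 < μ) {f : Env d lo κ → ℝ} {W ω ε δ : ℝ}
    (h : Fr q f W ω ε δ) :
    Fr q (NVB.G μ q f) (κ / (κ + μ) * W) (κ / (κ + μ) * ω) (κ / (κ + μ) * ε) δ := by
  obtain ⟨F, φ, w, b, h⟩ := h
  have hp := gap_prob (d := d) (q := q) hκ hμ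
  have one : ∀ (e : Edge d) (C : ℝ), (∀ η, w e η ≤ C) → ∀ η, Gb μ q (w e) η ≤
      κ / (κ + μ) * C := by
    intro e C hC η
    have := Gb_sum_le (q := q) (μ := μ) hκ hμ (F := {e}) (w := w) h.gw (W := C)
      (fun η => by rw [Finset.sum_singleton]; exact hC η) η
    rwa [Finset.sum_singleton] at this
  refine ⟨F, fun e => NVB.G μ q (φ e), fun e => NVB.Gb μ q (w e), NVB.G μ q b,
    fun e => (h.gφ e).G hκ hμ, fun e => (h.gw e).Gb hκ hμ, h.gb.G hκ hμ, ?_,
    fun e => G_mz_mz hκ hμ (h.gφ e) (h.mz e), fun e => Gb_nd (h.nd e),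
    fun e η => G_mz_le hκ hμ (h.gφ e) (h.gw e) (h.mz e) (h.nd e) (h.le e) η, ?_,
    fun η => Gb_sum_le hκ hμ h.gw h.sum η, fun e he η => one e ω (h.lat e he) η,
    fun e he hl η => one e ε (h.bad e he hl) η, ?_⟩
  · intro η
    have e1 : f = fun η => b η + ∑ e ∈ F, φ e η := funext h.eq
    rw [e1, G_add hκ hμ h.gb (Good.sum _ fun e _ => h.gφ e), G_sum hκ hμ F fun e _ => h.gφ e]
  · intro e he η
    unfold Gb
    have e1 : ∀ z : Gap d lo κ, Real.exp (-(μ * z.1)) * w e (ref z η) = 0 := fun z => by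
      rw [h.off e he, mul_zero]
    simp only [e1]
    simp
  · intro η
    have h1 := G_mono (q := q) hκ hμ h.gb (Good.const δ) (fun η => (_root_.abs_le.1 (h.rem η)).2) η
    have h2 := G_mono (q := q) hκ hμ (Good.const (-δ)) h.gb (fun η => (_root_.abs_le.1 (h.rem η)).1) η
    rw [G_const hκ hμ] at h1 h2
    exact _root_.abs_le.2 ⟨h2, h1⟩

theorem acc_nd {e : Edge d} {y : Dir d} (he : e ≠ edge 0 y) :
    Nd e (acc y : Env d lo κ → ℝ) := by
  intro η b
  unfold acc
  rw [Function.update_of_ne (Ne.symm he)]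

/-! ### the weights -/

/-- the forward, the backward and the other directions -/
theorem sum_dir (f : Dir d → ℝ) : ∑ y : Dir d, f y = f (plus d) + f (minus d) + lm f := by
  unfold lm
  rw [Fintype.sum_prod_type, Fintype.sum_prod_type, Fin.sum_univ_succ, Fin.sum_univ_succ]
  simp only [Fintype.sum_bool, if_true, Fin.succ_ne_zero, if_false]
  unfold plus minus
  ring

theorem lm_eq {c : Dir d → ℝ} {x : ℝ} (h : ∀ y : Dir d, y.1 ≠ 0 → c y = x) :
    lm c = 2 * d * x := by
  unfold lm
  rw [Fintype.sum_prod_type, Fin.sum_univ_succ]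
  simp only [Fintype.sum_bool, if_true, Fin.succ_ne_zero, if_false]
  have h1 : ∀ i : Fin d, c (i.succ, true) + c (i.succ, false) = 2 * x := by
    intro i
    rw [h _ (Fin.succ_ne_zero i), h _ (Fin.succ_ne_zero i)]
    ring
  simp only [h1]
  simp
  ring

theorem p_lat (l : ℝ) {y : Dir d} (hy : y.1 ≠ 0) : p l y = 1 / Z d l := by
  unfold p
  rw [vec_of_ne (Ne.symm hy)]
  simp

theorem p_minus_le {l : ℝ} (hl : 0 ≤ l) : p l (minus d) ≤ 1 / Z d l := by
  unfold p
  rw [vec_minus]
  refine div_le_div_of_nonneg_right ?_ (Z_pos l).le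
  rw [Real.exp_le_one_iff]
  push_cast
  linarith

theorem lm_p (l : ℝ) : lm (p l : Dir d → ℝ) = 2 * d * (1 / Z d l) :=
  lm_eq fun _ hy => p_lat l hy

theorem Z_ge_n (l : ℝ) : (2 * d : ℝ) ≤ Z d l := by
  rw [Z_eq]
  have := Real.exp_pos l
  have := Real.exp_pos (-l)
  linarith

theorem nz_le (l : ℝ) : 2 * d * (1 / Z d l) ≤ 1 := by
  rw [mul_one_div, div_le_one (Z_pos l)]
  exact Z_ge_n l

theorem Fr.Kh (hlo : 0 ≤ lo) (hκ : 0 < κ) {l : ℝ} (hl : 0 ≤ l) {f : Env d lo κ → ℝ}
    {W ω ε δ : ℝ} (h : Fr q f W ω ε δ) (hω : 0 ≤ ω) (hε : 0 ≤ ε) (hδ : 0 ≤ δ) :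
    Fr q (NVB.Kh l f) W (ω + 1 / Z d l * W)
      (ε + 2 * d * (1 / Z d l) * ω + 1 / Z d l * W) (δ + ε + 2 * d * (1 / Z d l) * ω) := by
  have hz : 0 < 1 / Z d l := one_div_pos.2 (Z_pos l)
  have h1 := Fr.comb (q := q) (c := p l) (fun y => p_nonneg l y) hz.le
    (fun y hy => (p_lat l hy).le) (A := acc) (B := fun y η => 1 - acc y η) Good.acc
    (fun y => (Good.const 1).sub (Good.acc y)) (fun y η => acc_nonneg hlo hκ y η)
    (fun y η => by linarith [acc_le hκ y η]) (fun y η => by linarith)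
    (fun y e he => acc_nd he) (fun y e he η b => by
      beta_reduce
      rw [acc_nd he η b]) h hω hε hδ
  rw [sum_p, lm_p, one_mul, one_mul, one_mul, one_mul] at h1
  refine Fr.mono h1 le_rfl le_rfl ?_ le_rfl
  have := mul_le_mul_of_nonneg_right (p_minus_le (d := d) hl) h.W0
  linarith

/-- iteration; `S = 1 / (1 - r)` -/
theorem Fr.It (hlo : 0 ≤ lo) (hκ : 0 < κ) (hμ : 0 < μ) {l : ℝ} (hl : 0 ≤ l)
    {f : Env d lo κ → ℝ} {W ω ε δ : ℝ}
    (h : Fr q f W ω ε δ) (hω : 0 ≤ ω) (hε : 0 ≤ ε) (hδ : 0 ≤ δ) {S z n : ℝ}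
    (hS : S = (κ + μ) / μ) (hz : z = 1 / Z d l) (hn : n = 2 * d) (j : ℕ) :
    ∃ ω' ε' δ' : ℝ, 0 ≤ ω' ∧ 0 ≤ ε' ∧ 0 ≤ δ' ∧
      Fr q (NVB.It μ q l j f) ((κ / (κ + μ)) ^ j * W) ω' ε' δ' ∧
      ω' + S * z * ((κ / (κ + μ)) ^ j * W) ≤ ω + S * z * W ∧
      δ' + S * ε' + z * (S ^ 2 * n * ω' + S ^ 3 * ((κ / (κ + μ)) ^ j * W)) ≤
        δ + S * ε + z * (S ^ 2 * n * ω + S ^ 3 * W) := by
  have hW := h.W0
  have hz0 : 0 < z := by
    rw [hz]
    exact one_div_pos.2 (Z_pos l)
  have hnz : n * z ≤ 1 := by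
    rw [hz, hn]
    exact nz_le l
  have hn0 : 0 ≤ n := by
    rw [hn]
    positivity
  induction j with
  | zero =>
    refine ⟨ω, ε, δ, hω, hε, hδ, ?_, ?_, ?_⟩
    · rw [pow_zero, one_mul]
      exact h
    · rw [pow_zero, one_mul]
    · rw [pow_zero, one_mul]
  | succ j ih =>
    obtain ⟨ω', ε', δ', hω', hε', hδ', h1, h2, h3⟩ := ih
    set r := κ / (κ + μ) with hr
    have hr0 : 0 ≤ r := by positivity
    have hr1 : r ≤ 1 := by
      rw [hr, div_le_one (by positivity)]
      linarith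
    have hS1 : 1 ≤ S := by
      rw [hS, one_le_div hμ]
      linarith
    have hrS : S * r = S - 1 := by
      rw [hr, hS]
      field_simp
      ring
    set V := r ^ j * W with hV
    have hV0 : 0 ≤ V := by positivity
    have hV1 : r ^ (j + 1) * W = r * V := by
      rw [hV]
      ring
    rw [hV1]
    refine ⟨r * (ω' + z * V), r * (ε' + n * z * ω' + z * V), δ' + ε' + n * z * ω',
      by positivity, by positivity, by positivity, ?_, ?_, ?_⟩
    · have h4 := (h1.Kh hlo hκ hl hω' hε' hδ').G hκ hμ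
      rw [← hz, ← hn] at h4
      exact h4
    · have e1 : r * (ω' + z * V) + S * z * (r * V) = r * ω' + z * V * (r + S * r) := by ring
      rw [e1, hrS]
      have e2 : r * ω' ≤ 1 * ω' := mul_le_mul_of_nonneg_right hr1 hω'
      have e3 : z * V * (r + (S - 1)) ≤ z * V * S :=
        mul_le_mul_of_nonneg_left (by linarith) (by positivity)
      linarith
    · have e1 : δ' + ε' + n * z * ω' + S * (r * (ε' + n * z * ω' + z * V)) +
          z * (S ^ 2 * n * (r * (ω' + z * V)) + S ^ 3 * (r * V)) =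
          δ' + ε' + n * z * ω' + (S * r) * (ε' + n * z * ω' + z * V) +
          z * (S * n * ((S * r) * (ω' + z * V)) + S ^ 2 * ((S * r) * V)) := by ring
      rw [e1, hrS]
      have e2 : δ' + ε' + n * z * ω' + (S - 1) * (ε' + n * z * ω' + z * V) +
          z * (S * n * ((S - 1) * (ω' + z * V)) + S ^ 2 * ((S - 1) * V)) =
          δ' + S * ε' + z * (S ^ 2 * n * ω' + S ^ 3 * V) +
          z * V * ((S - 1) + (n * z) * (S * (S - 1)) - S ^ 2) := by ring
      rw [e2]
      have e3 : (S - 1) + (n * z) * (S * (S - 1)) - S ^ 2 ≤ 0 := by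
        have e4 : 0 ≤ S * (S - 1) := mul_nonneg (by linarith) (by linarith)
        have e5 : (n * z) * (S * (S - 1)) ≤ 1 * (S * (S - 1)) :=
          mul_le_mul_of_nonneg_right hnz e4
        nlinarith
      have e6 : 0 ≤ z * V := by positivity
      have e7 := mul_nonpos_of_nonneg_of_nonpos e6 e3
      linarith

end Pool.Agent.NVB
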