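import Pool.Agent.NVB.FrE

/-!
# Fresh edges: decompositions with Lipschitz constants, one step
-/

set_option autoImplicit false

namespace Pool.Agent.NVB

open MeasureTheory ProbabilityTheory Filter Topology
open scoped Classical ENNReal

variable {d : ℕ} {lo κ : ℝ} {μ : ℝ} {q : Measure (Set.Icc lo κ)} [IsProbabilityMeasure q]

theorem IsFr.G (hκ : 0 < κ) (hμ : 0 < μ) {f : Env d lo κ → ℝ} {W ω ε δ : ℝ}
    {F : Finset (Edge d)} {φ w : Edge d → Env d lo κ → ℝ} {b : Env d lo κ → ℝ}
    (h : IsFr q f W ω ε δ F φ w b) :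
    IsFr q (NVB.G μ q f) (κ / (κ + μ) * W) (κ / (κ + μ) * ω) (κ / (κ + μ) * ε) δ F
      (fun e => NVB.G μ q (φ e)) (fun e => NVB.Gb μ q (w e)) (NVB.G μ q b) := by
  have hp := gap_prob (d := d) (q := q) hκ hμ
  have one : ∀ (e : Edge d) (C : ℝ), (∀ η, w e η ≤ C) → ∀ η, Gb μ q (w e) η ≤
      κ / (κ + μ) * C := by
    intro e C hC η
    have := Gb_sum_le (q := q) (μ := μ) hκ hμ (F := {e}) (w := w) h.gw (W := C)
      (fun η => by rw [Finset.sum_singleton]; exact hC η) η
    rwa [Finset.sum_singleton] at this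
  refine ⟨fun e => (h.gφ e).G hκ hμ, fun e => (h.gw e).Gb hκ hμ, h.gb.G hκ hμ, ?_,
    fun e => G_mz_mz hκ hμ (h.gφ e) (h.mz e), fun e => Gb_nd (h.nd e),
    fun e η => G_mz_le hκ hμ (h.gφ e) (h.gw e) (h.mz e) (h.nd e) (h.le e) η, ?_,
    fun η => Gb_sum_le hκ hμ h.gw h.sum η, fun e he η => one e ω (h.lat e he) η,
    fun e he hl η => one e ε (h.bad e he hl) η, ?_⟩
  · intro η
    have e1 : f = fun η => b η + ∑ e ∈ F, φ e η := funext h.eq
    rw [e1, G_add hκ hμ h.gb (Good.sum _ fun e _ => h.gφ e), G_sum hκ hμ F fun e _ => h.gφ e]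
  · intro e he η
    unfold Gb
    have e1 : ∀ z : Gap d lo κ, Real.exp (-(μ * z.1)) * w e (ref z η) = 0 := fun z => by
      rw [h.off e he, mul_zero]
    simp only [e1]
    simp
  · intro η
    have h1 := G_mono (q := q) hκ hμ h.gb (Good.const δ) (fun η => (_root_.abs_le.1 (h.rem η)).2) η
    have h2 := G_mono (q := q) hκ hμ (Good.const (-δ)) h.gb (fun η => (_root_.abs_le.1 (h.rem η)).1) η
    rw [G_const hκ hμ] at h1 h2
    exact _root_.abs_le.2 ⟨h2, h1⟩

/-- without the bounded part -/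
theorem IsFr.subb {f : Env d lo κ → ℝ} {W ω ε δ : ℝ}
    {F : Finset (Edge d)} {φ w : Edge d → Env d lo κ → ℝ} {b : Env d lo κ → ℝ}
    (h : IsFr q f W ω ε δ F φ w b) {g : Env d lo κ → ℝ} (hg : ∀ η, g η = f η - b η) :
    IsFr q g W ω ε 0 F φ w (fun _ => 0) :=
  ⟨h.gφ, h.gw, Good.const 0, fun η => by rw [hg, h.eq]; ring, h.mz, h.nd, h.le, h.off, h.sum,
    h.lat, h.bad, fun η => by simp⟩

/-- Lipschitz constants of the functions of the edges -/
structure Tb (φ : Edge d → Env d lo κ → ℝ) (T ω' ε' : ℝ) : Prop where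
  all : ∀ e, Th (φ e) T
  lat : ∀ e : Edge d, ¬ Ax e → Th (φ e) ω'
  bad : ∀ e : Edge d, Ax e → e.1 0 ≤ 0 → Th (φ e) ε'

theorem IsFr.leW {f : Env d lo κ → ℝ} {W ω ε δ : ℝ} {F : Finset (Edge d)}
    {φ w : Edge d → Env d lo κ → ℝ} {b : Env d lo κ → ℝ} (h : IsFr q f W ω ε δ F φ w b)
    (e : Edge d) (η : Env d lo κ) : |φ e η| ≤ W := (h.le e η).trans (h.wW e η)

/-- one attempt; the part which uses the value of the edge -/
theorem cn_bound (hlo : 0 ≤ lo) (hκ : 0 < κ) (l : ℝ) {f : Env d lo κ → ℝ}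
    {W ω ε δ : ℝ} {F : Finset (Edge d)} {φ w : Edge d → Env d lo κ → ℝ} {b : Env d lo κ → ℝ}
    (h : IsFr q f W ω ε δ F φ w b) {T ω' ε' : ℝ} (t : Tb φ T ω' ε')
    (hω' : 0 ≤ ω') (hε' : 0 ≤ ε') :
    Good (cn (p l) acc (fun y η => 1 - acc y η) φ) ∧
    (∀ η, |cn (p l) acc (fun y η => 1 - acc y η) φ η| ≤ ε + 2 * d * (1 / Z d l) * ω) ∧
    Th (cn (p l) acc (fun y η => 1 - acc y η) φ)
      (ε' + 2 * ε + 2 * d * (1 / Z d l) * (ω' + 2 * ω)) := by
  have hval : ∀ x u : ℝ, 0 ≤ x → ∑ y : Dir d, p l y * (if y.1 = 0 then x else u) ≤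
      x + 2 * d * (1 / Z d l) * u := by
    intro x u hx
    have h1 : ∑ y : Dir d, p l y * (if y.1 = 0 then x else u) =
        (p l (plus d) + p l (minus d)) * x + lm (p l : Dir d → ℝ) * u := by
      rw [sum_dir]
      have h2 : lm (fun y : Dir d => p l y * (if y.1 = 0 then x else u)) =
          u * lm (p l : Dir d → ℝ) := by
        rw [← lm_mul]
        exact lm_congr fun y hy => by rw [if_neg hy]; ring
      rw [h2, if_pos rfl]
      ring
    have h3 := sum_p (d := d) l
    rw [sum_dir] at h3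
    have h4 : 0 ≤ lm (p l : Dir d → ℝ) := by
      rw [lm_p]
      have := Z_pos (d := d) l
      positivity
    rw [h1, lm_p]
    have h5 : (p l (plus d) + p l (minus d)) * x ≤ 1 * x :=
      mul_le_mul_of_nonneg_right (by linarith) hx
    linarith
  have a0 : ∀ (y : Dir d) (η : Env d lo κ), 0 ≤ acc y η := fun y η => acc_nonneg hlo hκ y η
  have a1 : ∀ (y : Dir d) (η : Env d lo κ), acc y η ≤ 1 := fun y η => acc_le hκ y η
  have hne : Nonempty (Set.Icc lo κ) := nonempty_of_isProbabilityMeasure q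
  have η0 : Env d lo κ := fun _ => hne.some
  have g1 : ∀ y : Dir d, Good (fun η : Env d lo κ =>
      acc y η * φ ((edge 0 y).1 - vec y, (edge 0 y).2) (sh (vec y) η) +
        (1 - acc y η) * φ (edge 0 y) η) := fun y =>
    ((Good.acc y).mul ((h.gφ _).sh _)).add (((Good.const 1).sub (Good.acc y)).mul (h.gφ _))
  have sup : ∀ (y : Dir d) (e : Edge d), (y.1 = 0 → Ax e ∧ e.1 0 ≤ 0) → (y.1 ≠ 0 → ¬ Ax e) →
      ∀ η, |φ e η| ≤ if y.1 = 0 then ε else ω := by
    intro y e h1 h2 η
    split_ifs with hy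
    · exact (h.le e η).trans (h.bad e (h1 hy).1 (h1 hy).2 η)
    · exact (h.le e η).trans (h.lat e (h2 hy) η)
  have hε0 : 0 ≤ ε := (abs_nonneg _).trans ((h.le _ _).trans
    (h.bad (edge 0 (minus d)) (edge_ax rfl).1 (edge_ax rfl).2 η0))
  have thb : ∀ (y : Dir d) (e : Edge d), (y.1 = 0 → Ax e ∧ e.1 0 ≤ 0) → (y.1 ≠ 0 → ¬ Ax e) →
      Th (φ e) (if y.1 = 0 then ε' else ω') := by
    intro y e h1 h2
    split_ifs with hy
    · exact t.bad e (h1 hy).1 (h1 hy).2
    · exact t.lat e (h2 hy)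
  have s1 : ∀ y : Dir d, ∀ η, |φ ((edge 0 y).1 - vec y, (edge 0 y).2) η| ≤
      if y.1 = 0 then ε else ω := fun y => sup y _ (fun hy => edge_ax' hy) fun hy => edge_not_ax' hy
  have s2 : ∀ y : Dir d, ∀ η, |φ (edge 0 y) η| ≤ if y.1 = 0 then ε else ω :=
    fun y => sup y _ (fun hy => edge_ax hy) fun hy => edge_not_ax hy
  refine ⟨Good.sum _ fun y _ => Good.const_mul _ (g1 y), ?_, ?_⟩
  · intro η
    refine le_trans ?_ (hval ε ω hε0)
    unfold cn
    refine (Finset.abs_sum_le_sum_abs _ _).trans (Finset.sum_le_sum fun y _ => ?_)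
    rw [abs_mul, abs_of_nonneg (p_nonneg l y)]
    refine mul_le_mul_of_nonneg_left ?_ (p_nonneg l y)
    refine (abs_add_le _ _).trans ?_
    rw [abs_mul, abs_mul, abs_of_nonneg (a0 y η), abs_of_nonneg (by linarith [a1 y η] :
      0 ≤ 1 - acc y η)]
    have c1 := mul_le_mul_of_nonneg_left (s1 y (sh (vec y) η)) (a0 y η)
    have c2 := mul_le_mul_of_nonneg_left (s2 y η) (by linarith [a1 y η] : 0 ≤ 1 - acc y η)
    linarith
  · have h1 : ∀ y ∈ (Finset.univ : Finset (Dir d)), Th (fun η : Env d lo κ =>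
        acc y η * φ ((edge 0 y).1 - vec y, (edge 0 y).2) (sh (vec y) η) +
        (1 - acc y η) * φ (edge 0 y) η) (if y.1 = 0 then ε' + 2 * ε else ω' + 2 * ω) := by
      intro y _
      have h2 := Th.step2 hlo hκ y (h.gφ ((edge 0 y).1 - vec y, (edge 0 y).2))
        (h.gφ (edge 0 y)) (A := if y.1 = 0 then ε' else ω') (by split_ifs <;> assumption)
        (s1 y) (s2 y) (thb y _ (fun hy => edge_ax' hy) fun hy => edge_not_ax' hy)
        (thb y _ (fun hy => edge_ax hy) fun hy => edge_not_ax hy)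
      refine Th.mono h2 (le_of_eq ?_)
      split_ifs <;> rfl
    have h3 := Th.sum (Finset.univ : Finset (Dir d)) (fun y _ => g1 y)
      (fun y _ => p_nonneg l y) h1
    exact Th.mono h3 (hval _ _ (by positivity))

/-- one attempt; the functions of the other edges -/
theorem Tb.cp (hlo : 0 ≤ lo) (hκ : 0 < κ) {l : ℝ} (hl : 0 ≤ l) {f : Env d lo κ → ℝ}
    {W ω ε δ : ℝ} {F : Finset (Edge d)} {φ w : Edge d → Env d lo κ → ℝ} {b : Env d lo κ → ℝ}
    (h : IsFr q f W ω ε δ F φ w b) {T ω' ε' : ℝ} (t : Tb φ T ω' ε') (hω : 0 ≤ ω) (hε : 0 ≤ ε)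
    (hT : 0 ≤ T) (hω' : 0 ≤ ω') (hε' : 0 ≤ ε') :
    Tb (NVB.cp (p l) acc (fun y η => 1 - acc y η) φ) (T + 2 * W)
      (ω' + 2 * ω + 1 / Z d l * (T + 2 * W))
      (ε' + 2 * ε + 2 * d * (1 / Z d l) * (ω' + 2 * ω) + 1 / Z d l * (T + 2 * W)) := by
  have hW := h.W0
  have hz0 : 0 < 1 / Z d l := one_div_pos.2 (Z_pos l)
  -- the Lipschitz constant of one term
  have g1 : ∀ (e : Edge d) (y : Dir d), Good (fun η : Env d lo κ => if e = edge 0 y then 0 else
      acc y η * φ (e.1 - vec y, e.2) (sh (vec y) η) + (1 - acc y η) * φ e η) := by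
    intro e y
    by_cases he : e = edge 0 y
    · simp only [if_pos he]
      exact Good.const 0
    · simp only [if_neg he]
      exact ((Good.acc y).mul ((h.gφ _).sh _)).add
        (((Good.const 1).sub (Good.acc y)).mul (h.gφ _))
  have one : ∀ (e : Edge d) (y : Dir d) (A c : ℝ), 0 ≤ A → 0 ≤ c →
      (∀ η, |φ (e.1 - vec y, e.2) η| ≤ c) → (∀ η, |φ e η| ≤ c) →
      Th (φ (e.1 - vec y, e.2)) A → Th (φ e) A →
      Th (fun η : Env d lo κ => if e = edge 0 y then 0 else
      acc y η * φ (e.1 - vec y, e.2) (sh (vec y) η) + (1 - acc y η) * φ e η) (A + 2 * c) := by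
    intro e y A c hA hc h1 h2 h3 h4
    by_cases he : e = edge 0 y
    · simp only [if_pos he]
      exact Th.mono (Th.const 0) (by positivity)
    · simp only [if_neg he]
      exact Th.step2 hlo hκ y (h.gφ _) (h.gφ _) hA h1 h2 h3 h4
  have tot : ∀ (e : Edge d) (a : Dir d → ℝ) (X : ℝ), (∀ y, Th (fun η : Env d lo κ =>
      if e = edge 0 y then 0 else
      acc y η * φ (e.1 - vec y, e.2) (sh (vec y) η) + (1 - acc y η) * φ e η) (a y)) →
      ∑ y : Dir d, p l y * a y ≤ X →
      Th (NVB.cp (p l) acc (fun y η => 1 - acc y η) φ e) X := by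
    intro e a X h1 h2
    have h3 := Th.sum (Finset.univ : Finset (Dir d)) (fun y _ => g1 e y)
      (fun y _ => p_nonneg l y) fun y _ => h1 y
    exact Th.mono h3 h2
  refine ⟨?_, ?_, ?_⟩
  · intro e
    refine tot e (fun _ => T + 2 * W) _ (fun y => one e y T W hT hW (h.leW _) (h.leW _)
      (t.all _) (t.all _)) ?_
    rw [← Finset.sum_mul, sum_p, one_mul]
  · intro e he
    refine tot e (fun y => (ω' + 2 * ω) + if Ax ((e.1 - vec y, e.2) : Edge d) then T + 2 * W
      else 0) _ ?_ ?_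
    · intro y
      beta_reduce
      by_cases h2 : Ax ((e.1 - vec y, e.2) : Edge d)
      · rw [if_pos h2]
        refine Th.mono (one e y T W hT hW (h.leW _) (h.leW _) (t.all _) (t.all _)) ?_
        linarith
      · rw [if_neg h2, add_zero]
        exact one e y ω' ω hω' hω (fun η => (h.le _ η).trans (h.lat _ h2 η))
          (fun η => (h.le _ η).trans (h.lat _ he η)) (t.lat _ h2) (t.lat _ he)
    · simp only [mul_add, Finset.sum_add_distrib]
      rw [← Finset.sum_mul, ← Finset.sum_mul, sum_p, one_mul, one_mul]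
      have h3 : ∑ y : Dir d, p l y * (if Ax ((e.1 - vec y, e.2) : Edge d) then T + 2 * W else 0) ≤
          1 / Z d l * (T + 2 * W) := by
        by_cases h1 : ∃ y0 : Dir d, Ax ((e.1 - vec y0, e.2) : Edge d)
        · obtain ⟨y0, hy0⟩ := h1
          rw [Finset.sum_eq_single y0]
          · rw [if_pos hy0, p_lat l fun h2 => he (hy0.of_sub h2)]
          · intro y _ hy
            rw [if_neg fun h2 => hy (Ax.uniq he h2 hy0), mul_zero]
          · intro h2
            exact absurd (Finset.mem_univ _) h2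
        · rw [Finset.sum_eq_zero]
          · positivity
          · intro y _
            rw [if_neg fun h2 => h1 ⟨y, h2⟩, mul_zero]
      linarith
  · intro e he hlev
    refine tot e (fun y => (ε' + 2 * ε) + (if y.1 = 0 then 0 else ω' + 2 * ω) +
      if y = minus d then T + 2 * W else 0) _ ?_ ?_
    · intro y
      beta_reduce
      by_cases h2 : y.1 = 0
      · rw [if_pos h2, add_zero]
        rcases dir_cases h2 with h3 | h3
        · have hl' : ((e.1 - vec y, e.2) : Edge d).1 0 ≤ 0 := by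
            change (e.1 - vec y) 0 ≤ 0
            rw [Pi.sub_apply, h3, vec_plus]
            linarith
          have h4 : y ≠ minus d := by
            rw [h3]
            simp
          rw [if_neg h4, add_zero]
          exact one e y ε' ε hε' hε
            (fun η => (h.le _ η).trans (h.bad _ (he.sub h2) hl' η))
            (fun η => (h.le _ η).trans (h.bad _ he hlev η)) (t.bad _ (he.sub h2) hl')
            (t.bad _ he hlev)
        · rw [if_pos h3]
          refine Th.mono (one e y T W hT hW (h.leW _) (h.leW _) (t.all _) (t.all _)) ?_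
          linarith
      · rw [if_neg h2]
        have h4 : y ≠ minus d := by
          rintro rfl
          exact h2 rfl
        rw [if_neg h4, add_zero]
        refine Th.mono (one e y (ε' + ω') (ε + ω) (by positivity) (by positivity)
          (fun η => ((h.le _ η).trans (h.lat _ (he.not_sub h2) η)).trans (by linarith))
          (fun η => ((h.le _ η).trans (h.bad _ he hlev η)).trans (by linarith))
          (Th.mono (t.lat _ (he.not_sub h2)) (by linarith))
          (Th.mono (t.bad _ he hlev) (by linarith))) ?_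
        linarith
    · simp only [mul_add, Finset.sum_add_distrib]
      have e1 : ∑ y : Dir d, p l y * (if y.1 = 0 then 0 else ω' + 2 * ω) =
          2 * d * (1 / Z d l) * (ω' + 2 * ω) := by
        rw [← lm_p, sum_dir]
        have h2 : lm (fun y : Dir d => p l y * (if y.1 = 0 then 0 else ω' + 2 * ω)) =
            (ω' + 2 * ω) * lm (p l : Dir d → ℝ) := by
          rw [← lm_mul]
          exact lm_congr fun y hy => by rw [if_neg hy]; ring
        rw [h2, if_pos rfl]
        ring
      have e2 : ∑ y : Dir d, p l y * (if y = minus d then T + 2 * W else 0) =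
          p l (minus d) * (T + 2 * W) := by
        simp
      have e3 := mul_le_mul_of_nonneg_right (p_minus_le (d := d) hl)
        (by positivity : 0 ≤ T + 2 * W)
      rw [e1, e2, ← Finset.sum_mul, ← Finset.sum_mul, sum_p, one_mul, one_mul]
      linarith

/-- decompositions into functions of fresh edges with Lipschitz constants; `P` is a weighted sum of
the bounds of the parts which matter -/
def Fs (q : Measure (Set.Icc lo κ)) (S z : ℝ) (f : Env d lo κ → ℝ) (W P : ℝ) : Prop :=
  ∃ ω ε T ω' ε' : ℝ, 0 ≤ ω ∧ 0 ≤ ε ∧ 0 ≤ T ∧ 0 ≤ ω' ∧ 0 ≤ ε' ∧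
    (∃ F φ w, IsFr q f W ω ε 0 F φ w (fun _ => 0) ∧ Tb φ T ω' ε') ∧
    (ε' + 4 * S * ε) + 4 * S * (ω' + 4 * S * ω) +
      4 * S * (1 + 4 * S) * (z * (T + 4 * S * W)) ≤ P

/-- one step -/
theorem Fs.step (hlo : 0 ≤ lo) (hκ : 0 < κ) (hμ : 0 < μ) {S : ℝ} (hS : S = (κ + μ) / μ) {l : ℝ}
    (hl : 0 ≤ l) {f : Env d lo κ → ℝ} {W P : ℝ} (h : Fs q S (1 / Z d l) f W P) :
    ∃ ν : Env d lo κ → ℝ, Good ν ∧ (∀ η, |ν η| ≤ P) ∧ Th ν P ∧
      Fs q S (1 / Z d l) (fun η => G μ q (Kh l f) η - G μ q ν η) (κ / (κ + μ) * W)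
        ((1 - 1 / (4 * S)) * P) := by
  obtain ⟨ω, ε, T, ω', ε', hω, hε, hT, hω', hε', ⟨F, φ, w, h1, t⟩, hP⟩ := h
  have hz0 : 0 < 1 / Z d l := one_div_pos.2 (Z_pos l)
  have hnz : 2 * d * (1 / Z d l) ≤ 1 := nz_le l
  have hnz0 : 0 ≤ 2 * d * (1 / Z d l) := by positivity
  obtain ⟨hS1, _, _, hr, _⟩ := S_facts hκ hμ hS
  have hW := h1.W0
  have h2 := h1.comb (q := q) (c := p l) (fun y => p_nonneg l y) hz0.le
    (fun y hy => (p_lat l hy).le) (A := acc) (B := fun y η => 1 - acc y η) Good.acc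
    (fun y => (Good.const 1).sub (Good.acc y)) (fun y η => acc_nonneg hlo hκ y η)
    (fun y η => by linarith [acc_le hκ y η]) (fun y η => by linarith)
    (fun y e he => acc_nd he) (fun y e he η b => by
      beta_reduce
      rw [acc_nd he η b]) hω hε le_rfl
  obtain ⟨F', h2⟩ := h2
  rw [sum_p, lm_p, one_mul, one_mul, one_mul, one_mul] at h2
  have hb : (fun η : Env d lo κ => (∑ y : Dir d, p l y * (acc y η * 0 + (1 - acc y η) * 0)) +
      cn (p l) acc (fun y η => 1 - acc y η) φ η) = cn (p l) acc (fun y η => 1 - acc y η) φ := by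
    funext η
    simp
  rw [hb] at h2
  obtain ⟨gν, bν, tν⟩ := cn_bound (q := q) hlo hκ l h1 t hω' hε'
  set ν := cn (p l) acc (fun y η => 1 - acc y η) φ with hν
  set z := 1 / Z d l with hz
  set n : ℝ := 2 * d with hn
  have h3 := h2.G hκ hμ
  have h4 := h3.subb (g := fun η => G μ q (Kh l f) η - G μ q ν η) fun η => rfl
  have t1 := t.cp hlo hκ hl h1 hω hε hT hω' hε'
  rw [← hz, ← hn] at t1
  -- the potential
  have p0 : 0 ≤ (ε' + 4 * S * ε) + 4 * S * (ω' + 4 * S * ω) +
      4 * S * (1 + 4 * S) * (z * (T + 4 * S * W)) := by positivity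
  have p1 : 0 ≤ 4 * S * (1 + 4 * S) * (z * (T + 4 * S * W)) := by positivity
  refine ⟨ν, gν, ?_, ?_, ?_⟩
  · intro η
    refine (bν η).trans (le_trans ?_ hP)
    have e1 : n * z * ω ≤ 1 * ω := mul_le_mul_of_nonneg_right hnz hω
    have e2 : ε ≤ 4 * S * ε := by nlinarith
    have e3 : ω ≤ 4 * S * (4 * S * ω) := by
      have : 1 ≤ (4 * S) * (4 * S) := by nlinarith
      have := mul_le_mul_of_nonneg_right this hω
      linarith
    have e4 : 0 ≤ 4 * S * ω' := by positivity
    linarith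
  · refine Th.mono tν (le_trans ?_ hP)
    have e1 : n * z * (ω' + 2 * ω) ≤ 1 * (ω' + 2 * ω) :=
      mul_le_mul_of_nonneg_right hnz (by positivity)
    have e2 : 2 * ε ≤ 4 * S * ε := by nlinarith
    have e3 : ω' + 2 * ω ≤ 4 * S * (ω' + 4 * S * ω) := by
      have a1 : 1 * ω' ≤ 4 * S * ω' := mul_le_mul_of_nonneg_right (by linarith) hω'
      have a2 : 2 * ω ≤ 4 * S * (4 * S) * ω := mul_le_mul_of_nonneg_right (by nlinarith) hω
      linarith
    linarith
  · set r := κ / (κ + μ) with hrdef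
    have hr0 : 0 ≤ r := by positivity
    have hSr : S * r = S - 1 := by
      rw [hr]
      field_simp
    have hr1 : r ≤ 1 := by
      rw [hrdef, div_le_one (by positivity)]
      linarith
    refine ⟨r * (ω + z * W), r * (ε + n * z * ω + z * W), r * (T + 2 * W),
      r * (ω' + 2 * ω + z * (T + 2 * W)),
      r * (ε' + 2 * ε + n * z * (ω' + 2 * ω) + z * (T + 2 * W)),
      by positivity, by positivity, by positivity, by positivity, by positivity, ?_, ?_⟩
    · refine ⟨F', fun e => G μ q (cp (p l) acc (fun y η => 1 - acc y η) φ e),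
        fun e => Gb μ q (cp (p l) acc (fun y η => 1 - acc y η) w e), ?_, ?_⟩
      · refine ⟨h4.gφ, h4.gw, h4.gb, h4.eq, h4.mz, h4.nd, h4.le, h4.off, h4.sum, h4.lat, ?_,
          h4.rem⟩
        intro e he hl' η
        refine (h4.bad e he hl' η).trans (mul_le_mul_of_nonneg_left ?_ hr0)
        have := mul_le_mul_of_nonneg_right (p_minus_le (d := d) hl) hW
        rw [← hz] at this
        linarith
      · exact ⟨fun e => Th.G hκ hμ (h2.gφ e) (t1.all e),
          fun e he => Th.G hκ hμ (h2.gφ e) (t1.lat e he),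
          fun e he hl' => Th.G hκ hμ (h2.gφ e) (t1.bad e he hl')⟩
    · -- `r (2 + 4 S) ≤ (1 - 1 / (2 S)) 4 S`
      set s := 1 / (4 * S) with hs
      have hs0 : 0 < s := by positivity
      have hsS : 4 * S * s = 1 := by
        rw [hs]
        field_simp
      have hs1 : s ≤ 1 / 4 := by
        rw [hs]
        apply one_div_le_one_div_of_le (by norm_num)
        linarith
      have hrs : r = 1 - 4 * s := by
        have : S * r = S * (1 - 4 * s) := by
          rw [hSr]
          linarith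
        exact mul_left_cancel₀ (by linarith : S ≠ 0) this
      have c1 : ∀ a b : ℝ, 0 ≤ a → 0 ≤ b → r * (a + 2 * b) + 4 * S * (r * b) ≤
          (1 - 2 * s) * (a + 4 * S * b) := by
        intro a b ha hb
        have e1 : r * (a + 2 * b) + 4 * S * (r * b) = r * a + (2 * r + 4 * (S * r)) * b := by ring
        rw [e1, hSr, hrs]
        have e2 : (1 - 2 * s) * (a + 4 * S * b) =
            (1 - 2 * s) * a + (4 * S - 2 * (4 * S * s)) * b := by ring
        rw [e2, hsS]
        have e3 : 0 ≤ s * a := by positivity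
        have e4 : 0 ≤ s * b := by positivity
        nlinarith
      have k1 := c1 ε' ε hε' hε
      have k2 := c1 ω' ω hω' hω
      have k3 := c1 T W hT hW
      set X := T + 4 * S * W with hX
      set Y := ω' + 4 * S * ω with hY
      set E := ε' + 4 * S * ε with hE
      have hX0 : 0 ≤ X := by positivity
      have hY0 : 0 ≤ Y := by positivity
      have hE0 : 0 ≤ E := by positivity
      have hs2 : 0 ≤ 1 - 2 * s := by linarith
      have m1 : n * z * (r * (ω' + 2 * ω) + 4 * S * (r * ω)) ≤ 1 * ((1 - 2 * s) * Y) :=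
        mul_le_mul hnz k2 (by positivity) (by norm_num)
      have m2 : z * (r * (T + 2 * W) + 4 * S * (r * W)) ≤ z * ((1 - 2 * s) * X) :=
        mul_le_mul_of_nonneg_left k3 hz0.le
      have b1 : r * (ε' + 2 * ε + n * z * (ω' + 2 * ω) + z * (T + 2 * W)) +
          4 * S * (r * (ε + n * z * ω + z * W)) ≤
          (1 - 2 * s) * E + (1 - 2 * s) * Y + z * ((1 - 2 * s) * X) := by
        have e1 : r * (ε' + 2 * ε + n * z * (ω' + 2 * ω) + z * (T + 2 * W)) +
          4 * S * (r * (ε + n * z * ω + z * W)) =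
          (r * (ε' + 2 * ε) + 4 * S * (r * ε)) +
          n * z * (r * (ω' + 2 * ω) + 4 * S * (r * ω)) +
          z * (r * (T + 2 * W) + 4 * S * (r * W)) := by ring
        rw [e1]
        linarith
      have b2 : r * (ω' + 2 * ω + z * (T + 2 * W)) + 4 * S * (r * (ω + z * W)) ≤
          (1 - 2 * s) * Y + z * ((1 - 2 * s) * X) := by
        have e1 : r * (ω' + 2 * ω + z * (T + 2 * W)) + 4 * S * (r * (ω + z * W)) =
          (r * (ω' + 2 * ω) + 4 * S * (r * ω)) +
          z * (r * (T + 2 * W) + 4 * S * (r * W)) := by ring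
        rw [e1]
        linarith
      have b3 : z * (r * (T + 2 * W) + 4 * S * (r * W)) ≤ z * ((1 - 2 * s) * X) := m2
      have b2' := mul_le_mul_of_nonneg_left b2 (by linarith : 0 ≤ 4 * S)
      have b3' := mul_le_mul_of_nonneg_left b3 (by positivity : 0 ≤ 4 * S * (1 + 4 * S))
      refine le_trans (add_le_add (add_le_add b1 b2') b3') ?_
      have fin : (1 - 2 * s) * E + (1 - 2 * s) * Y + z * ((1 - 2 * s) * X) +
          4 * S * ((1 - 2 * s) * Y + z * ((1 - 2 * s) * X)) +
          4 * S * (1 + 4 * S) * (z * ((1 - 2 * s) * X)) ≤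
          (1 - s) * (E + 4 * S * Y + 4 * S * (1 + 4 * S) * (z * X)) := by
        have e1 : (1 - s) * (E + 4 * S * Y + 4 * S * (1 + 4 * S) * (z * X)) -
            ((1 - 2 * s) * E + (1 - 2 * s) * Y + z * ((1 - 2 * s) * X) +
          4 * S * ((1 - 2 * s) * Y + z * ((1 - 2 * s) * X)) +
          4 * S * (1 + 4 * S) * (z * ((1 - 2 * s) * X))) =
          s * E + (4 * S * s - (1 - 2 * s)) * Y +
            ((1 + 4 * S) * (4 * S * s) - (1 + 4 * S) * (1 - 2 * s)) * (z * X) := by ring
        have e2 : 0 ≤ s * E + (4 * S * s - (1 - 2 * s)) * Y +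
            ((1 + 4 * S) * (4 * S * s) - (1 + 4 * S) * (1 - 2 * s)) * (z * X) := by
          rw [hsS]
          have a1 : 0 ≤ s * E := by positivity
          have a2 : 0 ≤ (1 - (1 - 2 * s)) * Y := mul_nonneg (by linarith) hY0
          have a3 : 0 ≤ ((1 + 4 * S) * 1 - (1 + 4 * S) * (1 - 2 * s)) * (z * X) := by
            apply mul_nonneg _ (by positivity)
            have : (1 + 4 * S) * 1 - (1 + 4 * S) * (1 - 2 * s) = (1 + 4 * S) * (2 * s) := by ring
            rw [this]
            positivity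
          linarith
        linarith
      refine fin.trans ?_
      exact mul_le_mul_of_nonneg_left hP (by linarith)

end Pool.Agent.NVB
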