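import Pool.Agent.NVB.Fs

/-!
# Fresh edges: the decomposition of the error
-/

set_option autoImplicit false

namespace Pool.Agent.NVB

open MeasureTheory ProbabilityTheory Filter Topology
open scoped Classical ENNReal

variable {d : ℕ} {lo κ : ℝ} {μ : ℝ} {q : Measure (Set.Icc lo κ)} [IsProbabilityMeasure q]

/-- decompositions into functions of fresh edges, with Lipschitz constants -/
def FT (q : Measure (Set.Icc lo κ)) (f : Env d lo κ → ℝ) (W ω ε T ω' ε' : ℝ) : Prop :=
  ∃ F φ w, IsFr q f W ω ε 0 F φ w (fun _ => 0) ∧ Tb φ T ω' ε'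

theorem FT.congr {f g : Env d lo κ → ℝ} {W ω ε T ω' ε' : ℝ} (h : FT q f W ω ε T ω' ε')
    (hfg : ∀ η, g η = f η) : FT q g W ω ε T ω' ε' := by
  have : g = f := funext hfg
  rw [this]
  exact h

theorem FT.mono {f : Env d lo κ → ℝ} {W ω ε T ω' ε' W1 ω1 ε1 T1 ω1' ε1' : ℝ}
    (h : FT q f W ω ε T ω' ε') (a1 : W ≤ W1) (a2 : ω ≤ ω1) (a3 : ε ≤ ε1) (a4 : T ≤ T1)
    (a5 : ω' ≤ ω1') (a6 : ε' ≤ ε1') : FT q f W1 ω1 ε1 T1 ω1' ε1' := by
  obtain ⟨F, φ, w, h, t⟩ := h
  exact ⟨F, φ, w, ⟨h.gφ, h.gw, h.gb, h.eq, h.mz, h.nd, h.le, h.off,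
    fun η => (h.sum η).trans a1, fun e he η => (h.lat e he η).trans a2,
    fun e he hl η => (h.bad e he hl η).trans a3, h.rem⟩,
    ⟨fun e => (t.all e).mono a4, fun e he => (t.lat e he).mono a5,
    fun e he hl => (t.bad e he hl).mono a6⟩⟩

theorem FT.G (hκ : 0 < κ) (hμ : 0 < μ) {f : Env d lo κ → ℝ} {W ω ε T ω' ε' : ℝ}
    (h : FT q f W ω ε T ω' ε') : FT q (NVB.G μ q f) (κ / (κ + μ) * W) (κ / (κ + μ) * ω)
      (κ / (κ + μ) * ε) (κ / (κ + μ) * T) (κ / (κ + μ) * ω') (κ / (κ + μ) * ε') := by
  obtain ⟨F, φ, w, h, t⟩ := h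
  refine ⟨F, fun e => NVB.G μ q (φ e), fun e => NVB.Gb μ q (w e), ?_,
    ⟨fun e => Th.G hκ hμ (h.gφ e) (t.all e), fun e he => Th.G hκ hμ (h.gφ e) (t.lat e he),
    fun e he hl => Th.G hκ hμ (h.gφ e) (t.bad e he hl)⟩⟩
  refine (h.G hκ hμ).subb fun η => ?_
  rw [G_const hκ hμ, sub_zero]

theorem FT.add {f g : Env d lo κ → ℝ} {W ω ε T ω' ε' W1 ω1 ε1 T1 ω1' ε1' : ℝ}
    (hf : FT q f W ω ε T ω' ε') (hg : FT q g W1 ω1 ε1 T1 ω1' ε1') :
    FT q (fun η => f η + g η) (W + W1) (ω + ω1) (ε + ε1) (T + T1) (ω' + ω1') (ε' + ε1') := by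
  obtain ⟨F, φ, w, h, t⟩ := hf
  obtain ⟨F', φ', w', h', t'⟩ := hg
  refine ⟨F ∪ F', fun e η => φ e η + φ' e η, fun e η => w e η + w' e η,
    ⟨fun e => (h.gφ e).add (h'.gφ e), fun e => (h.gw e).add (h'.gw e), Good.const 0, ?_, ?_, ?_,
    ?_, ?_, ?_, ?_, ?_, ?_⟩,
    ⟨fun e => Th.add (h.gφ e) (h'.gφ e) (t.all e) (t'.all e),
    fun e he => Th.add (h.gφ e) (h'.gφ e) (t.lat e he) (t'.lat e he),
    fun e he hl => Th.add (h.gφ e) (h'.gφ e) (t.bad e he hl) (t'.bad e he hl)⟩⟩
  · intro η
    have e1 : ∑ e ∈ F ∪ F', φ e η = ∑ e ∈ F, φ e η :=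
      (Finset.sum_subset Finset.subset_union_left fun e _ he => h.φoff he η).symm
    have e2 : ∑ e ∈ F ∪ F', φ' e η = ∑ e ∈ F', φ' e η :=
      (Finset.sum_subset Finset.subset_union_right fun e _ he => h'.φoff he η).symm
    rw [Finset.sum_add_distrib, e1, e2, h.eq, h'.eq]
    ring
  · intro e η
    rw [integral_add (upd_integrable (h.gφ e) η e) (upd_integrable (h'.gφ e) η e), h.mz, h'.mz,
      add_zero]
  · intro e η b
    beta_reduce
    rw [h.nd, h'.nd]
  · intro e η
    exact (abs_add_le _ _).trans (add_le_add (h.le e η) (h'.le e η))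
  · intro e he η
    rw [Finset.mem_union] at he
    rw [h.off e (fun h1 => he (Or.inl h1)), h'.off e (fun h1 => he (Or.inr h1)), add_zero]
  · intro η
    have e1 : ∑ e ∈ F ∪ F', w e η = ∑ e ∈ F, w e η :=
      (Finset.sum_subset Finset.subset_union_left fun e _ he => h.off e he η).symm
    have e2 : ∑ e ∈ F ∪ F', w' e η = ∑ e ∈ F', w' e η :=
      (Finset.sum_subset Finset.subset_union_right fun e _ he => h'.off e he η).symm
    rw [Finset.sum_add_distrib, e1, e2]
    exact add_le_add (h.sum η) (h'.sum η)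
  · intro e he η
    exact add_le_add (h.lat e he η) (h'.lat e he η)
  · intro e he hl η
    exact add_le_add (h.bad e he hl η) (h'.bad e he hl η)
  · intro η
    simp

/-- a sum of functions belonging to different edges outside the axis -/
theorem FT.inj {ι : Type} (s : Finset ι) {e : ι → Edge d} (he : Set.InjOn e s)
    {f : ι → Env d lo κ → ℝ} (hf : ∀ i ∈ s, Good (f i)) (hm : ∀ i ∈ s, MZ q (e i) (f i))
    {c c' : ℝ} (hc : 0 ≤ c) (hc' : 0 ≤ c') (h : ∀ i ∈ s, ∀ η, |f i η| ≤ c)
    (hx : ∀ i ∈ s, ¬ Ax (e i)) (ht : ∀ i ∈ s, Th (f i) c') :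
    FT q (fun η => ∑ i ∈ s, f i η) (s.card * c) c 0 c' c' 0 := by
  have val : ∀ i ∈ s, ∀ η, (∑ j ∈ s, if e j = e i then f j η else 0) = f i η := by
    intro i hi η
    rw [Finset.sum_eq_single i]
    · rw [if_pos rfl]
    · intro j hj hji
      exact if_neg fun h1 => hji (he hj hi h1)
    · intro h1
      exact absurd hi h1
  have val0 : ∀ x : Edge d, x ∉ s.image e → ∀ η, (∑ j ∈ s, if e j = x then f j η else 0) = 0 := by
    intro x hx η
    refine Finset.sum_eq_zero fun i hi => if_neg fun h1 => hx ?_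
    rw [← h1]
    exact Finset.mem_image_of_mem e hi
  have nax : ∀ x : Edge d, Ax x → x ∉ s.image e := by
    intro x hax h1
    obtain ⟨i, hi, rfl⟩ := Finset.mem_image.1 h1
    exact hx i hi hax
  have tha : ∀ x : Edge d, Th (fun η => ∑ j ∈ s, if e j = x then f j η else 0) c' := by
    intro x
    by_cases hx : x ∈ s.image e
    · obtain ⟨i, hi, rfl⟩ := Finset.mem_image.1 hx
      exact Th.congr (ht i hi) (val i hi)
    · exact Th.mono (Th.congr (Th.const 0) (val0 x hx)) hc'
  refine ⟨s.image e, fun x η => ∑ i ∈ s, if e i = x then f i η else 0,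
    fun x _ => if x ∈ s.image e then c else 0, ⟨?_, ?_, Good.const 0, ?_, ?_, ?_, ?_, ?_,
    ?_, ?_, ?_, ?_⟩, ⟨tha, fun x _ => tha x, fun x hax _ =>
      Th.congr (Th.const 0) (val0 x (nax x hax))⟩⟩
  · intro x
    refine Good.sum _ fun i hi => ?_
    by_cases hx : e i = x
    · simp only [if_pos hx]
      exact hf i hi
    · simp only [if_neg hx]
      exact Good.const 0
  · intro x
    exact Good.const _
  · intro η
    rw [zero_add, Finset.sum_comm]
    refine Finset.sum_congr rfl fun i hi => ?_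
    rw [Finset.sum_ite_eq (s.image e) (e i) fun _ => f i η,
      if_pos (Finset.mem_image_of_mem e hi)]
  · intro x η
    rw [integral_finsetSum]
    · refine Finset.sum_eq_zero fun i hi => ?_
      by_cases hx : e i = x
      · simp only [if_pos hx]
        rw [← hx]
        exact hm i hi η
      · simp only [if_neg hx]
        simp
    · intro i hi
      by_cases hx : e i = x
      · simp only [if_pos hx]
        exact upd_integrable (hf i hi) η x
      · simp only [if_neg hx]
        exact integrable_const _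
  · intro x η b
    rfl
  · intro x η
    by_cases hx : x ∈ s.image e
    · rw [if_pos hx]
      obtain ⟨i, hi, rfl⟩ := Finset.mem_image.1 hx
      beta_reduce
      rw [val i hi]
      exact h i hi η
    · rw [if_neg hx]
      beta_reduce
      rw [val0 x hx, abs_zero]
  · intro x hx η
    exact if_neg hx
  · intro η
    have h1 : ∀ x ∈ s.image e, (if x ∈ s.image e then c else 0) = c := fun x hx => if_pos hx
    rw [Finset.sum_congr rfl h1, Finset.sum_const, nsmul_eq_mul,
      Finset.card_image_of_injOn he]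
  · intro x _ η
    beta_reduce
    split_ifs
    · exact le_rfl
    · exact hc
  · intro x hax _ η
    rw [if_neg (nax x hax)]
  · intro η
    simp

/-- a function belonging to an edge of the axis of positive level -/
theorem FT.up {e : Edge d} (hax : Ax e) (he : 0 < e.1 0) {f : Env d lo κ → ℝ} (hf : Good f)
    (hm : MZ q e f) {c c' : ℝ} (hc' : 0 ≤ c') (h : ∀ η, |f η| ≤ c) (ht : Th f c') :
    FT q f c 0 0 c' 0 0 := by
  refine ⟨{e}, fun x η => if x = e then f η else 0, fun x _ => if x = e then c else 0,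
    ⟨?_, ?_, Good.const 0, ?_, ?_, ?_, ?_, ?_, ?_, ?_, ?_, ?_⟩, ⟨?_, ?_, ?_⟩⟩
  · intro x
    by_cases hx : x = e
    · simp only [if_pos hx]
      exact hf
    · simp only [if_neg hx]
      exact Good.const 0
  · intro x
    exact Good.const _
  · intro η
    simp
  · intro x η
    by_cases hx : x = e
    · simp only [if_pos hx]
      rw [hx]
      exact hm η
    · simp only [if_neg hx]
      simp
  · intro x η b
    rfl
  · intro x η
    by_cases hx : x = e
    · simp only [if_pos hx]
      exact h η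
    · simp only [if_neg hx]
      simp
  · intro x hx η
    exact if_neg (by simpa using hx)
  · intro η
    simp
  · intro x hx η
    have : x ≠ e := by
      rintro rfl
      exact hx hax
    simp only [if_neg this]
    exact le_rfl
  · intro x _ hx η
    have : x ≠ e := by
      rintro rfl
      omega
    simp only [if_neg this]
    exact le_rfl
  · intro η
    simp
  · intro x
    by_cases hx : x = e
    · simp only [if_pos hx]
      exact ht
    · simp only [if_neg hx]
      exact Th.mono (Th.const 0) hc'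
  · intro x hx
    have : x ≠ e := by
      rintro rfl
      exact hx hax
    simp only [if_neg this]
    exact Th.const 0
  · intro x _ hx
    have : x ≠ e := by
      rintro rfl
      omega
    simp only [if_neg this]
    exact Th.const 0

/-- the terms without the backward direction -/
noncomputable def Tf (q : Measure (Set.Icc lo κ)) (g : Dir d → Set.Icc lo κ → ℝ)
    (η : Env d lo κ) : ℝ :=
  acc (plus d) η * g (plus d) (η (vec (plus d), 0)) +
  lm (fun y => acc y η * g y (η (vec y, 0)) + (mean q / κ - acc y η) * g y (η (0, 0)))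

/-- the terms with the backward direction -/
noncomputable def Tm (q : Measure (Set.Icc lo κ)) (g : Dir d → Set.Icc lo κ → ℝ)
    (η : Env d lo κ) : ℝ :=
  acc (minus d) η * g (minus d) (η (vec (minus d), 0)) +
    (mean q / κ - acc (minus d) η) * g (minus d) (η (0, 0))

theorem Tot_eq (g : Dir d → Set.Icc lo κ → ℝ) (η : Env d lo κ) :
    Tot q g η = Tf q g η + Tm q g η := by
  unfold Tot Tf Tm
  ring

theorem b_div (hlo : 0 ≤ lo) (hκ : 0 < κ) (b : Set.Icc lo κ) : 0 ≤ (b : ℝ) / κ ∧ (b : ℝ) / κ ≤ 1 := by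
  refine ⟨div_nonneg (hlo.trans b.2.1) hκ.le, ?_⟩
  rw [div_le_one hκ]
  exact b.2.2

theorem FT.Tf (hlo : 0 ≤ lo) (hκ : 0 < κ) {g : Dir d → Set.Icc lo κ → ℝ}
    (hm : ∀ y, Measurable (g y)) (h0 : ∀ y, ∫ b, g y b ∂q = 0) {cp c : ℝ} (hc : 0 ≤ c)
    (hp : ∀ b, |g (plus d) b| ≤ cp) (hl : ∀ y : Dir d, y.1 ≠ 0 → ∀ b, |g y b| ≤ c) :
    FT q (NVB.Tf q g : Env d lo κ → ℝ) (cp + 2 * (2 * d * c)) (2 * c) 0 (3 * cp + 6 * c) (6 * c)
      0 := by
  have hne : Nonempty (Set.Icc lo κ) := nonempty_of_isProbabilityMeasure q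
  have hcp : 0 ≤ cp := (abs_nonneg _).trans (hp hne.some)
  have a0 : ∀ y (η : Env d lo κ), |acc y η| ≤ 1 := fun y η => by
    rw [abs_of_nonneg (acc_nonneg hlo hκ y η)]
    exact acc_le hκ y η
  have g0 : ∀ y : Dir d, y.1 ≠ 0 → ∀ e : Edge d, Good (fun η : Env d lo κ => g y (η e)) :=
    fun y hy e => Good.of_edge e (hm y) (hl y hy)
  have ma : Measurable fun b : Set.Icc lo κ => (b : ℝ) / κ := measurable_subtype_coe.div_const κ
  have a1 : ∀ b : Set.Icc lo κ, |(b : ℝ) / κ| ≤ 1 := fun b => by
    rw [abs_of_nonneg (b_div hlo hκ b).1]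
    exact (b_div hlo hκ b).2
  have a2 : ∀ b b' : Set.Icc lo κ, |(b : ℝ) / κ - (b' : ℝ) / κ| ≤ 1 := fun b b' => by
    have h1 := b_div hlo hκ b
    have h2 := b_div hlo hκ b'
    rw [abs_le]
    constructor <;> linarith [h1.1, h1.2, h2.1, h2.2]
  have hm01 : 0 ≤ mean q / κ ∧ mean q / κ ≤ 1 := by
    refine ⟨div_nonneg (mean_nonneg hlo) hκ.le, ?_⟩
    rw [div_le_one hκ]
    exact mean_le
  have a3 : ∀ b : Set.Icc lo κ, |mean q / κ - (b : ℝ) / κ| ≤ 1 := fun b => by
    have h1 := b_div hlo hκ b
    rw [abs_le]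
    constructor <;> linarith [h1.1, h1.2, hm01.1, hm01.2]
  have a4 : ∀ b b' : Set.Icc lo κ, |(mean q / κ - (b : ℝ) / κ) - (mean q / κ - (b' : ℝ) / κ)| ≤ 1 :=
    fun b b' => by
    have h1 := b_div hlo hκ b
    have h2 := b_div hlo hκ b'
    rw [abs_le]
    constructor <;> linarith [h1.1, h1.2, h2.1, h2.2]
  have og : ∀ {u : Set.Icc lo κ → ℝ} {C : ℝ}, (∀ b, |u b| ≤ C) → ∀ b b', |u b - u b'| ≤ 2 * C := by
    intro u C hu b b'
    have h1 := abs_le.1 (hu b)
    have h2 := abs_le.1 (hu b')
    rw [abs_le]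
    constructor <;> linarith [h1.1, h1.2, h2.1, h2.2]
  -- the forward edge
  have e1 : FT q (fun η : Env d lo κ => acc (plus d) η * g (plus d) (η (vec (plus d), 0)))
      cp 0 0 (3 * cp) 0 0 := by
    refine FT.up (e := (vec (plus d), 0)) ⟨rfl, fun i hi => vec_of_ne hi⟩ ?_
      ((Good.acc _).mul (Good.of_edge _ (hm _) hp)) ?_ (by positivity) ?_ ?_
    · change 0 < vec (plus d) 0
      rw [vec_plus]
      norm_num
    · intro η
      have : ∀ b : Set.Icc lo κ, acc (plus d) (Function.update η (vec (plus d), 0) b) *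
          g (plus d) (Function.update η (vec (plus d), 0) b (vec (plus d), 0)) =
          acc (plus d) η * g (plus d) b := by
        intro b
        rw [Function.update_self, acc_nd]
        intro h
        have h1 := congrArg Prod.fst h
        exact vec_ne_zero (plus d) (congrFun h1 0)
      simp only [this]
      rw [integral_const_mul, h0, mul_zero]
    · intro η
      rw [abs_mul]
      have := mul_le_mul (a0 (plus d) η) (hp (η (vec (plus d), 0))) (abs_nonneg _) zero_le_one
      linarith
    · have hne' : (edge 0 (plus d) : Edge d) ≠ (vec (plus d), 0) := by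
        intro h
        have h1 := congrArg Prod.fst h
        exact vec_ne_zero (plus d) (congrFun h1.symm 0)
      have := Th.mul2 hne' ma (hm (plus d)) a1 hp zero_le_one a2 (by positivity) (og hp)
      refine Th.mono this ?_
      linarith
  -- the other edges
  have e3 : FT q (fun η : Env d lo κ => ∑ y ∈ Finset.univ.filter (fun y : Dir d => y.1 ≠ 0),
      acc y η * g y (η (vec y, 0))) ((Finset.univ.filter (fun y : Dir d => y.1 ≠ 0)).card * c) c
        0 (3 * c) (3 * c) 0 := by
    refine FT.inj _ (e := fun y : Dir d => (vec y, 0)) ?_ ?_ ?_ hc (by positivity) ?_ ?_ ?_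
    · intro y _ y' _ h
      exact vec_injective (congrArg Prod.fst h)
    · intro y hy
      exact (Good.acc _).mul (g0 y (Finset.mem_filter.1 hy).2 _)
    · intro y hy η
      have hy' := (Finset.mem_filter.1 hy).2
      have : ∀ b : Set.Icc lo κ, acc y (Function.update η (vec y, 0) b) *
          g y (Function.update η (vec y, 0) b (vec y, 0)) = acc y η * g y b := by
        intro b
        rw [Function.update_self, acc_nd]
        intro h
        have h1 := congrArg Prod.snd h
        rw [edge_snd] at h1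
        exact hy' h1.symm
      simp only [this]
      rw [integral_const_mul, h0, mul_zero]
    · intro y hy η
      rw [abs_mul]
      have := mul_le_mul (a0 y η) (hl y (Finset.mem_filter.1 hy).2 (η (vec y, 0)))
        (abs_nonneg _) zero_le_one
      linarith
    · intro y hy h
      exact vec_ne_zero y (h.2 y.1 (Finset.mem_filter.1 hy).2)
    · intro y hy
      have hy' := (Finset.mem_filter.1 hy).2
      have hne' : (edge 0 y : Edge d) ≠ (vec y, 0) := by
        intro h
        have h1 := congrArg Prod.snd h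
        rw [edge_snd] at h1
        exact hy' h1
      have := Th.mul2 hne' ma (hm y) a1 (hl y hy') zero_le_one a2 (by positivity) (og (hl y hy'))
      refine Th.mono this ?_
      linarith
  have e4 : FT q (fun η : Env d lo κ => ∑ y ∈ Finset.univ.filter (fun y : Dir d => y.1 ≠ 0),
      (mean q / κ - acc y η) * g y (η (0, 0)))
        ((Finset.univ.filter (fun y : Dir d => y.1 ≠ 0)).card * c) c 0 (3 * c) (3 * c) 0 := by
    refine FT.inj _ (e := fun y : Dir d => edge 0 y) ?_ ?_ ?_ hc (by positivity) ?_ ?_ ?_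
    · intro y _ y' _ h
      exact edge_injective h
    · intro y hy
      exact ((Good.const _).sub (Good.acc _)).mul (g0 y (Finset.mem_filter.1 hy).2 _)
    · intro y hy η
      have hy' := (Finset.mem_filter.1 hy).2
      have hne' : ((0, 0) : Edge d) ≠ edge 0 y := by
        intro h
        have h1 := congrArg Prod.snd h
        rw [edge_snd] at h1
        exact hy' h1.symm
      have : ∀ b : Set.Icc lo κ, (mean q / κ - acc y (Function.update η (edge 0 y) b)) *
          g y (Function.update η (edge 0 y) b (0, 0)) =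
          (mean q / κ - (b : ℝ) / κ) * g y (η (0, 0)) := by
        intro b
        rw [Function.update_of_ne hne']
        unfold acc
        rw [Function.update_self]
      simp only [this]
      have hint : ∫ b : Set.Icc lo κ, (mean q / κ - (b : ℝ) / κ) ∂q = 0 := by
        have e5 : ∀ b : Set.Icc lo κ, mean q / κ - (b : ℝ) / κ =
            mean q / κ - 1 / κ * (b : ℝ) := fun b => by ring
        simp only [e5]
        rw [integral_sub (integrable_const _) (integrable_val.const_mul _), integral_const_mul]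
        have e6 : ∫ b : Set.Icc lo κ, (b : ℝ) ∂q = mean q := rfl
        rw [e6]
        simp
        ring
      rw [integral_mul_const, hint, zero_mul]
    · intro y hy η
      rw [abs_mul]
      have := mul_le_mul (mk_abs (q := q) hlo hκ y η)
        (hl y (Finset.mem_filter.1 hy).2 (η (0, 0))) (abs_nonneg _) zero_le_one
      linarith
    · intro y hy
      exact edge_not_ax (Finset.mem_filter.1 hy).2
    · intro y hy
      have hy' := (Finset.mem_filter.1 hy).2
      have hne' : (edge 0 y : Edge d) ≠ (0, 0) := by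
        intro h
        have h1 := congrArg Prod.snd h
        rw [edge_snd] at h1
        exact hy' h1
      have := Th.mul2 hne' (ma.const_sub (mean q / κ)) (hm y) a3 (hl y hy') zero_le_one a4
        (by positivity) (og (hl y hy'))
      refine Th.mono this ?_
      linarith
  rw [lm_card] at e3 e4
  refine FT.mono (FT.congr (e1.add (e3.add e4)) ?_)
    (W1 := cp + 2 * (2 * d * c)) (ω1 := 2 * c) (ε1 := 0) (T1 := 3 * cp + 6 * c) (ω1' := 6 * c)
    (ε1' := 0) ?_ ?_ ?_ ?_ ?_ ?_
  · intro η
    unfold NVB.Tf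
    rw [lm_filter, Finset.sum_add_distrib]
  · linarith
  · linarith
  · linarith
  · linarith
  · linarith
  · linarith

/-- the backward terms -/
theorem Tm_bound (hlo : 0 ≤ lo) (hκ : 0 < κ) {g : Dir d → Set.Icc lo κ → ℝ}
    (hm : ∀ y, Measurable (g y)) {cm : ℝ} (hmi : ∀ b, |g (minus d) b| ≤ cm) {a : ℝ}
    (ha : 0 ≤ a) :
    Good (fun η : Env d lo κ => Tm q g η - a * acc (minus d) η) ∧
    (∀ η : Env d lo κ, |Tm q g η - a * acc (minus d) η| ≤ 2 * cm + a) ∧
    Th (fun η : Env d lo κ => Tm q g η - a * acc (minus d) η) (5 * cm + a) := by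
  have hne : Nonempty (Set.Icc lo κ) := nonempty_of_isProbabilityMeasure q
  have hcm : 0 ≤ cm := (abs_nonneg _).trans (hmi hne.some)
  have a0 : ∀ y (η : Env d lo κ), |acc y η| ≤ 1 := fun y η => by
    rw [abs_of_nonneg (acc_nonneg hlo hκ y η)]
    exact acc_le hκ y η
  have ma : Measurable fun b : Set.Icc lo κ => (b : ℝ) / κ := measurable_subtype_coe.div_const κ
  have a1 : ∀ b : Set.Icc lo κ, |(b : ℝ) / κ| ≤ 1 := fun b => by
    rw [abs_of_nonneg (b_div hlo hκ b).1]
    exact (b_div hlo hκ b).2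
  have a2 : ∀ b b' : Set.Icc lo κ, |(b : ℝ) / κ - (b' : ℝ) / κ| ≤ 1 := fun b b' => by
    have h1 := b_div hlo hκ b
    have h2 := b_div hlo hκ b'
    rw [abs_le]
    constructor <;> linarith [h1.1, h1.2, h2.1, h2.2]
  have hm01 : 0 ≤ mean q / κ ∧ mean q / κ ≤ 1 := by
    refine ⟨div_nonneg (mean_nonneg hlo) hκ.le, ?_⟩
    rw [div_le_one hκ]
    exact mean_le
  have a3 : ∀ b : Set.Icc lo κ, |mean q / κ - (b : ℝ) / κ| ≤ 1 := fun b => by
    have h1 := b_div hlo hκ b
    rw [abs_le]
    constructor <;> linarith [h1.1, h1.2, hm01.1, hm01.2]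
  have a4 : ∀ b b' : Set.Icc lo κ, |(mean q / κ - (b : ℝ) / κ) - (mean q / κ - (b' : ℝ) / κ)| ≤ 1 :=
    fun b b' => by
    have h1 := b_div hlo hκ b
    have h2 := b_div hlo hκ b'
    rw [abs_le]
    constructor <;> linarith [h1.1, h1.2, h2.1, h2.2]
  have og : ∀ {u : Set.Icc lo κ → ℝ} {C : ℝ}, (∀ b, |u b| ≤ C) → ∀ b b', |u b - u b'| ≤ 2 * C := by
    intro u C hu b b'
    have h1 := abs_le.1 (hu b)
    have h2 := abs_le.1 (hu b')
    rw [abs_le]
    constructor <;> linarith [h1.1, h1.2, h2.1, h2.2]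
  have hedge : edge 0 (minus d) = ((vec (minus d), 0) : Edge d) := by
    unfold edge
    simp
  have g1 : Good (fun η : Env d lo κ => acc (minus d) η * g (minus d) (η (vec (minus d), 0))) :=
    (Good.acc _).mul (Good.of_edge _ (hm _) hmi)
  have g2 : Good (fun η : Env d lo κ =>
      (mean q / κ - acc (minus d) η) * g (minus d) (η (0, 0))) :=
    ((Good.const _).sub (Good.acc _)).mul (Good.of_edge _ (hm _) hmi)
  have g3 : Good (fun η : Env d lo κ => a * acc (minus d) η) := (Good.acc _).const_mul a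
  have gT : Good (Tm q g : Env d lo κ → ℝ) := g1.add g2
  refine ⟨gT.sub g3, ?_, ?_⟩
  · intro η
    have h1 : |acc (minus d) η * g (minus d) (η (vec (minus d), 0))| ≤ cm := by
      rw [abs_mul]
      have := mul_le_mul (a0 (minus d) η) (hmi (η (vec (minus d), 0))) (abs_nonneg _) zero_le_one
      linarith
    have h2 : |(mean q / κ - acc (minus d) η) * g (minus d) (η (0, 0))| ≤ cm := by
      rw [abs_mul]
      have := mul_le_mul (mk_abs (q := q) hlo hκ (minus d) η) (hmi (η (0, 0))) (abs_nonneg _)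
        zero_le_one
      linarith
    have h3 : |a * acc (minus d) η| ≤ a := by
      rw [abs_mul, abs_of_nonneg ha]
      have := mul_le_mul_of_nonneg_left (a0 (minus d) η) ha
      linarith
    unfold Tm
    have k1 := abs_le.1 h1
    have k2 := abs_le.1 h2
    have k3 := abs_le.1 h3
    rw [abs_le]
    constructor <;> linarith [k1.1, k1.2, k2.1, k2.2, k3.1, k3.2]
  · have t1 : Th (fun η : Env d lo κ => acc (minus d) η * g (minus d) (η (vec (minus d), 0)))
        (2 * cm) := by
      have hu : ∀ b : Set.Icc lo κ, |(b : ℝ) / κ * g (minus d) b| ≤ cm := by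
        intro b
        rw [abs_mul]
        have := mul_le_mul (a1 b) (hmi b) (abs_nonneg _) zero_le_one
        linarith
      have := Th.single (edge 0 (minus d)) (u := fun b : Set.Icc lo κ =>
        (b : ℝ) / κ * g (minus d) b) (ma.mul (hm _)) hu (by positivity) (og hu)
      refine Th.congr this fun η => ?_
      rw [← hedge]
      rfl
    have t2 : Th (fun η : Env d lo κ => (mean q / κ - acc (minus d) η) * g (minus d) (η (0, 0)))
        (3 * cm) := by
      have hne' : (edge 0 (minus d) : Edge d) ≠ (0, 0) := by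
        rw [hedge]
        intro h
        exact vec_ne_zero (minus d) (congrFun (congrArg Prod.fst h) 0)
      have := Th.mul2 hne' (ma.const_sub (mean q / κ)) (hm (minus d)) a3 hmi zero_le_one a4
        (by positivity) (og hmi)
      refine Th.mono this ?_
      linarith
    have t3 : Th (fun η : Env d lo κ => a * acc (minus d) η) a := by
      have h1 : Th (acc (minus d) : Env d lo κ → ℝ) 1 :=
        Th.single (edge 0 (minus d)) ma a1 zero_le_one a2
      have := h1.const_mul a
      rw [abs_of_nonneg ha, mul_one] at this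
      exact this
    have t4 := Th.sub gT g3 (Th.add g1 g2 t1 t2) t3
    refine Th.mono t4 ?_
    linarith

end Pool.Agent.NVB
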