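import Pool.Agent.NVB.Fs2

/-!
# Decay of the parts which are not fresh
-/

set_option autoImplicit false

namespace Pool.Agent.NVB

open MeasureTheory ProbabilityTheory Filter Topology
open scoped Classical ENNReal

variable {d : ℕ} {lo κ : ℝ} {μ : ℝ} {q : Measure (Set.Icc lo κ)} [IsProbabilityMeasure q]

/-- contraction in one step -/
def Mc (d : ℕ) (μ : ℝ) (q : Measure (Set.Icc lo κ)) (ρ c l : ℝ) : Prop :=
  ∀ (f : Env d lo κ → ℝ) (o A : ℝ), Good f → (∀ η η', |f η' - f η| ≤ o) → 0 ≤ A → Th f A →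
    ∃ o' A' : ℝ, 0 ≤ A' ∧ (∀ η η' : Env d lo κ, |G μ q (Kh l f) η' - G μ q (Kh l f) η| ≤ o') ∧
      Th (G μ q (Kh l f)) A' ∧ o' + c * A' ≤ ρ * (o + c * A)

/-- the contraction depends only on a bound of `κ / μ` -/
theorem mix1 {B : ℝ} (hB : 0 < B) : ∃ ρ c : ℝ, 0 < ρ ∧ ρ < 1 ∧ 0 < c ∧ c ≤ 1 ∧
    ∀ (d : ℕ) (lo κ μ : ℝ) (q : Measure (Set.Icc lo κ)) [IsProbabilityMeasure q],
      0 ≤ lo → 0 < κ → 0 < μ → κ ≤ B * μ → ∀ l : ℝ, Mc d μ q ρ c l := by
  set θ : ℝ := 1 / (8 * (B + 1)) with hθ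
  have hθ0 : 0 < θ := by positivity
  have hθ1 : θ ≤ 1 / 8 := by
    rw [hθ]
    apply one_div_le_one_div_of_le (by norm_num)
    linarith
  have hlog : Real.log θ < 0 := Real.log_neg hθ0 (by linarith)
  set δ : ℝ := Real.exp (B * Real.log θ) with hδ
  have hδ0 : 0 < δ := Real.exp_pos _
  have hδ1 : δ < 1 := by
    rw [hδ, Real.exp_lt_one_iff]
    nlinarith
  set ρ : ℝ := max (1 - δ / 2) (1 - 1 / (2 * (B + 1))) with hρ
  have hρ1 : ρ < 1 := by
    rw [hρ]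
    apply max_lt
    · linarith
    · have : 0 < 1 / (2 * (B + 1)) := by positivity
      linarith
  have hρ0 : 0 < ρ := by
    have : 1 - δ / 2 ≤ ρ := le_max_left _ _
    linarith
  refine ⟨ρ, δ / 4, hρ0, hρ1, by positivity, by linarith, ?_⟩
  intro d lo κ μ q hq hlo hκ hμ hκμ l f o A hg ho hA hT
  set s0 := -Real.log θ / μ with hs0
  have hs00 : 0 ≤ s0 := div_nonneg (by linarith) hμ.le
  have e1 : Real.exp (-(μ * s0)) = θ := by
    have : -(μ * s0) = Real.log θ := by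
      rw [hs0]
      field_simp
    rw [this, Real.exp_log hθ0]
  have e2 : δ ≤ Real.exp (-(κ * s0)) := by
    rw [hδ, Real.exp_le_exp]
    have h1 : -(κ * s0) = κ / μ * Real.log θ := by
      rw [hs0]
      field_simp
    rw [h1]
    have h2 : κ / μ ≤ B := by
      rw [div_le_iff₀ hμ]
      exact hκμ
    nlinarith
  have hr : κ / (κ + μ) ≤ B / (B + 1) := by
    rw [div_le_div_iff₀ (by positivity) (by positivity)]
    nlinarith
  have hne : Nonempty (Set.Icc lo κ) := nonempty_of_isProbabilityMeasure q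
  have η0 : Env d lo κ := fun _ => hne.some
  have ho0 : 0 ≤ o := (abs_nonneg _).trans (ho η0 η0)
  have t1 := Th.Kh hlo hκ l hg hA ho hT
  have o1 := Kh_osc hlo hκ l ho
  refine ⟨(1 - δ) * o + δ * (θ * (A + o)), κ / (κ + μ) * (A + o), by positivity, ?_,
    Th.G hκ hμ (hg.Kh l) t1, ?_⟩
  · intro η η'
    have h3 := G_osc' (q := q) hκ hμ (hg.Kh l) hs00 hδ0.le (by positivity) o1 t1 e2 η η'
    rw [e1] at h3
    exact h3
  · have r0 : 0 ≤ κ / (κ + μ) := by positivity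
    have r1 : κ / (κ + μ) ≤ 1 := by
      rw [div_le_one (by positivity)]
      linarith
    have g1 : 1 - δ + δ * θ + δ / 4 * (κ / (κ + μ)) ≤ ρ := by
      have : 1 - δ / 2 ≤ ρ := le_max_left _ _
      nlinarith
    have g2 : 4 * θ + κ / (κ + μ) ≤ ρ := by
      have h4 : 1 - 1 / (2 * (B + 1)) ≤ ρ := le_max_right _ _
      have h5 : 4 * θ + B / (B + 1) = 1 - 1 / (2 * (B + 1)) := by
        rw [hθ]
        field_simp
        ring
      linarith
    have g3 := mul_le_mul_of_nonneg_right g1 ho0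
    have g4 := mul_le_mul_of_nonneg_right g2 (by positivity : 0 ≤ δ / 4 * A)
    nlinarith

theorem Mc.Mx (hκ : 0 < κ) (hμ : 0 < μ) {ρ c l : ℝ} (hρ0 : 0 ≤ ρ) (hc0 : 0 ≤ c) (hc : c ≤ 1)
    (h : Mc d μ q ρ c l) : NVB.Mx d μ q ρ l := by
  intro f o A hf ho hA hT j η η'
  have key : ∃ o' A' : ℝ, 0 ≤ A' ∧ (∀ η η' : Env d lo κ,
      |It μ q l j f η' - It μ q l j f η| ≤ o') ∧ Th (It μ q l j f) A' ∧
      o' + c * A' ≤ ρ ^ j * (o + c * A) := by
    induction j with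
    | zero => exact ⟨o, A, hA, ho, hT, by simp⟩
    | succ j ih =>
      obtain ⟨o', A', hA', ho', hT', hle⟩ := ih
      obtain ⟨o2, A2, hA2, ho2, hT2, hle2⟩ := h (It μ q l j f) o' A' (Good.It hκ hμ l j hf) ho'
        hA' hT'
      refine ⟨o2, A2, hA2, ho2, hT2, hle2.trans ?_⟩
      calc ρ * (o' + c * A') ≤ ρ * (ρ ^ j * (o + c * A)) := mul_le_mul_of_nonneg_left hle hρ0
        _ = ρ ^ (j + 1) * (o + c * A) := by ring
  obtain ⟨o', A', hA', ho', _, hle⟩ := key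
  have h1 : 0 ≤ c * A' := mul_nonneg hc0 hA'
  have h2 : c * A ≤ 1 * A := mul_le_mul_of_nonneg_right hc hA
  have h3 : ρ ^ j * (o + c * A) ≤ ρ ^ j * (o + A) :=
    mul_le_mul_of_nonneg_left (by linarith) (pow_nonneg hρ0 j)
  have h4 := ho' η η'
  linarith

/-- the bound of the part which is not fresh -/
noncomputable def Dj (ρ D0 P r2 : ℝ) : ℕ → ℝ
  | 0 => D0
  | j + 1 => ρ * Dj ρ D0 P r2 j + 3 * (r2 ^ j * P)

theorem Dj_nonneg {ρ D0 P r2 : ℝ} (hρ : 0 ≤ ρ) (hD : 0 ≤ D0) (hP : 0 ≤ P) (hr : 0 ≤ r2) (j : ℕ) :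
    0 ≤ Dj ρ D0 P r2 j := by
  induction j with
  | zero => exact hD
  | succ j ih =>
    unfold Dj
    positivity

theorem sum_pow_le {r : ℝ} (hr0 : 0 ≤ r) (hr1 : r < 1) (i : ℕ) :
    ∑ j ∈ Finset.range i, r ^ j ≤ 1 / (1 - r) := by
  have h : 0 < 1 - r := by linarith
  have key : ∑ j ∈ Finset.range i, r ^ j = (1 - r ^ i) / (1 - r) := by
    induction i with
    | zero => simp
    | succ i ih =>
      rw [Finset.sum_range_succ, ih]
      field_simp
      ring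
  rw [key, div_le_div_iff_of_pos_right h]
  have : 0 ≤ r ^ i := by positivity
  linarith

theorem sum_Dj {ρ D0 P r2 : ℝ} (hρ : 0 ≤ ρ) (hρ1 : ρ < 1) (hD : 0 ≤ D0) (hP : 0 ≤ P)
    (hr : 0 ≤ r2) (hr1 : r2 < 1) (i : ℕ) :
    ∑ j ∈ Finset.range i, Dj ρ D0 P r2 j ≤ (D0 + 3 * (P * (1 / (1 - r2)))) / (1 - ρ) := by
  have hρ' : 0 < 1 - ρ := by linarith
  have key : Dj ρ D0 P r2 i + (1 - ρ) * ∑ j ∈ Finset.range i, Dj ρ D0 P r2 j =
      D0 + 3 * (P * ∑ j ∈ Finset.range i, r2 ^ j) := by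
    induction i with
    | zero => simp [Dj]
    | succ i ih =>
      rw [Finset.sum_range_succ, Finset.sum_range_succ]
      have h1 : Dj ρ D0 P r2 (i + 1) = ρ * Dj ρ D0 P r2 i + 3 * (r2 ^ i * P) := rfl
      rw [h1]
      linarith
  have h1 := Dj_nonneg hρ hD hP hr i
  have h2 := mul_le_mul_of_nonneg_left (sum_pow_le hr hr1 i) hP
  rw [le_div_iff₀ hρ']
  linarith

end Pool.Agent.NVB
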