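import Pool.Agent.NVB.Uni2

/-!
# The change of the speed
-/

set_option autoImplicit false

namespace Pool.Agent.NVB

open MeasureTheory ProbabilityTheory Filter Topology
open scoped Classical ENNReal

/-! ### sums -/

theorem sum_lt_le {X : ℝ} (hX : 0 ≤ X) (L i : ℕ) :
    ∑ j ∈ Finset.range i, (if j < L then X else 0) ≤ L * X := by
  rw [← Finset.sum_filter, Finset.sum_const, nsmul_eq_mul]
  refine mul_le_mul_of_nonneg_right ?_ hX
  have h1 : (Finset.range i).filter (fun j => j < L) ⊆ Finset.range L := by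
    intro j hj
    exact Finset.mem_range.2 (Finset.mem_filter.1 hj).2
  have h2 := Finset.card_le_card h1
  rw [Finset.card_range] at h2
  exact_mod_cast h2

theorem sum_tail_le {ρ : ℝ} (hρ0 : 0 ≤ ρ) (hρ1 : ρ < 1) (L i : ℕ) :
    ∑ j ∈ Finset.range i, (if j < L then 0 else ρ ^ j) ≤ ρ ^ L / (1 - ρ) := by
  have hρ : 0 < 1 - ρ := by linarith
  have key : ∀ i : ℕ, ∑ j ∈ Finset.range i, (if j < L then 0 else ρ ^ j) ≤
      (ρ ^ L - ρ ^ (max i L)) / (1 - ρ) := by
    intro i
    induction i with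
    | zero => simp
    | succ i ih =>
      rw [Finset.sum_range_succ]
      by_cases h : i < L
      · rw [if_pos h, add_zero]
        have h1 : max (i + 1) L = L := by omega
        have h2 : max i L = L := by omega
        rw [h1]
        rw [h2] at ih
        exact ih
      · rw [if_neg h]
        have h1 : max (i + 1) L = i + 1 := by omega
        have h2 : max i L = i := by omega
        rw [h1]
        rw [h2] at ih
        have h3 : (ρ ^ L - ρ ^ (i + 1)) / (1 - ρ) = (ρ ^ L - ρ ^ i) / (1 - ρ) + ρ ^ i := by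
          field_simp
          ring
        rw [h3]
        linarith
  refine (key i).trans ?_
  rw [div_le_div_iff_of_pos_right hρ]
  have : 0 ≤ ρ ^ max i L := by positivity
  linarith

variable {d : ℕ} {lo κ : ℝ} {μ : ℝ} {q : Measure (Set.Icc lo κ)} [IsProbabilityMeasure q]

/-- the error of the limit model -/
noncomputable def err (S ρ : ℝ) (L : ℕ) (dp dm z x : ℝ) : ℝ :=
  dp * (z * (S ^ 7 * (12 + 142 * L)) + 102 * S ^ 2 * (ρ ^ L / (1 - ρ))) +
    dm * x * (S ^ 2 * (2 + 17 / (1 - ρ)))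

theorem T_bound (hlo : 0 ≤ lo) (hκ : 0 < κ) (hμ : 0 < μ) {S : ℝ} (hS : S = (κ + μ) / μ)
    {l l' ρ : ℝ} (hl : 0 ≤ l) (hll : l ≤ l') (hρ0 : 0 ≤ ρ) (hρ1 : ρ < 1) (hρ : Mx d μ q ρ l')
    (L i : ℕ) (η : Env d lo κ) :
    -(err S ρ L (p l' (plus d) - p l (plus d)) (p l (minus d) - p l' (minus d)) (1 / Z d l)
      (p l' (plus d) + 1 / Z d l')) -
      (p l' (plus d) - p l (plus d)) * (6 * S ^ 4 * (κ / (κ + μ)) ^ i +
        12 * L * S ^ 4 * (κ / (κ + μ)) ^ (i - L)) ≤
      It μ q l' i (G μ q (E0 μ q l')) η - It μ q l i (G μ q (E0 μ q l)) η := by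
  obtain ⟨hS1, _, _, _, _⟩ := S_facts hκ hμ hS
  obtain ⟨hr0, hr1, _⟩ := r_facts hκ hμ
  have hl' : 0 ≤ l' := hl.trans hll
  have hdp0 := dp_nonneg (d := d) hl hll
  have hdm0 := dm_nonneg (d := d) hl hll
  have hz0 : 0 < 1 / Z d l := one_div_pos.2 (Z_pos l)
  have hz0' : 0 < 1 / Z d l' := one_div_pos.2 (Z_pos l')
  have ha0' := p_nonneg l' (plus d)
  have ha1' := p_plus_le (d := d) l'
  have gE := Good.E0 (d := d) (q := q) hlo hκ hμ l
  have gE' := Good.E0 (d := d) (q := q) hlo hκ hμ l'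
  have gD : Good (dE μ q l l' : Env d lo κ → ℝ) := by
    have h1 : (dE μ q l l' : Env d lo κ → ℝ) = fun η => (E0 μ q l' η - E0 μ q l η) -
        (p l (minus d) - p l' (minus d)) * acc (minus d) η := by
      funext ζ
      rw [E0_diff hlo hκ hμ]
      ring
    rw [h1]
    exact (gE'.sub gE).sub ((Good.acc _).const_mul _)
  -- the change of the error
  have hA : -((p l' (plus d) - p l (plus d)) * (6 * S ^ 4 * (κ / (κ + μ)) ^ i +
      12 * S ^ 7 * (1 / Z d l)) + 2 * ((p l (minus d) - p l' (minus d)) *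
      (p l' (plus d) * S ^ 2))) ≤
      It μ q l i (G μ q (E0 μ q l')) η - It μ q l i (G μ q (E0 μ q l)) η := by
    have h1 := dE_bound (q := q) hlo hκ hμ hS hl hll rfl rfl rfl i η
    have h2 : It μ q l i (fun η => G μ q (E0 μ q l) η + G μ q (dE μ q l l') η) η ≤
        It μ q l i (G μ q (E0 μ q l')) η := by
      refine It_mono hlo hκ hμ l ((gE.G hκ hμ).add (gD.G hκ hμ)) (gE'.G hκ hμ) (fun ζ => ?_) i η
      have h3 := G_mono (q := q) hκ hμ (gE.add gD) gE' (fun ξ => by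
        have h4 := E0_diff (q := q) hlo hκ hμ l l' ξ
        have h5 := mul_nonneg hdm0 (acc_nonneg hlo hκ (minus d) ξ)
        linarith) ζ
      rw [G_add hκ hμ gE gD] at h3
      exact h3
    rw [It_add hκ hμ l (gE.G hκ hμ) (gD.G hκ hμ)] at h2
    have h3 := (abs_le.1 h1).1
    linarith
  -- the change of the attempts
  set dp := p l' (plus d) - p l (plus d) with hdp
  set dm := p l (minus d) - p l' (minus d) with hdm
  set z := 1 / Z d l with hz
  set M := 17 * S ^ 2 * (p l' (plus d) + 1 / Z d l') with hM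
  set r := κ / (κ + μ) with hr
  have hM0 : 0 ≤ M := by positivity
  have hρ' : 0 < 1 - ρ := by linarith
  set X := dp * (12 * S ^ 2 * r ^ (i - L) + 142 * S ^ 5 * z) with hX
  have hX0 : 0 ≤ X := by positivity
  have hB : |It μ q l' i (G μ q (E0 μ q l')) η - It μ q l i (G μ q (E0 μ q l')) η| ≤
      L * X + dm * M * (1 / (1 - ρ)) + 3 * dp * M * (ρ ^ L / (1 - ρ)) := by
    rw [tele hκ hμ l l' (gE'.G hκ hμ)]
    refine (Finset.abs_sum_le_sum_abs _ _).trans ?_
    have h1 : ∀ j ∈ Finset.range i, |It μ q l (i - 1 - j) (G μ q (fun η =>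
        Kh l' (It μ q l' j (G μ q (E0 μ q l'))) η -
          Kh l (It μ q l' j (G μ q (E0 μ q l'))) η)) η| ≤
        (if j < L then X else 0) + dm * M * (ρ ^ j) +
          3 * dp * M * (if j < L then 0 else ρ ^ j) := by
      intro j hj
      refine (term_bound (q := q) hlo hκ hμ hS hl hll hρ0 hρ hdp hdm hz hM L
        (Finset.mem_range.1 hj) η).trans ?_
      split_ifs
      · rw [← hr, ← hX]
        apply le_of_eq
        ring
      · have : 0 ≤ dm * M * ρ ^ j := by positivity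
        have e1 : dp * (3 * (ρ ^ j * M)) = 3 * dp * M * ρ ^ j := by ring
        linarith
    refine (Finset.sum_le_sum h1).trans ?_
    rw [Finset.sum_add_distrib, Finset.sum_add_distrib, ← Finset.mul_sum, ← Finset.mul_sum]
    have h2 := sum_lt_le hX0 L i
    have h3 : ∑ j ∈ Finset.range i, ρ ^ j ≤ 1 / (1 - ρ) := by
      have := sum_tail_le hρ0 hρ1 0 i
      simpa using this
    have h4 := sum_tail_le hρ0 hρ1 L i
    have h5 := mul_le_mul_of_nonneg_left h3 (mul_nonneg hdm0 hM0)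
    have h6 := mul_le_mul_of_nonneg_left h4 (mul_nonneg (mul_nonneg (by norm_num : (0 : ℝ) ≤ 3)
      hdp0) hM0)
    linarith
  have hB' := (abs_le.1 hB).1
  -- comparison
  have s24 : S ^ 2 ≤ S ^ 4 := pow_le_pow_right₀ hS1 (by norm_num)
  have s57 : S ^ 5 ≤ S ^ 7 := pow_le_pow_right₀ hS1 (by norm_num)
  have hx2 : p l' (plus d) + 1 / Z d l' ≤ 2 := by
    have : (1 : ℝ) ≤ Z d l' := by
      rw [Z_eq]
      have := Real.one_le_exp hl'
      have := Real.exp_pos (-l')
      have : (0 : ℝ) ≤ 2 * d := by positivity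
      linarith
    have h1 : 1 / Z d l' ≤ 1 := by
      rw [div_le_one (Z_pos l')]
      exact this
    linarith
  set x := p l' (plus d) + 1 / Z d l' with hx
  have hx0 : 0 ≤ x := by positivity
  have hL0 : (0 : ℝ) ≤ L := Nat.cast_nonneg L
  have k1 : L * X ≤ dp * (12 * L * S ^ 4 * r ^ (i - L)) + dp * (z * (S ^ 7 * (142 * L))) := by
    have e1 : L * X = dp * (12 * L * S ^ 2 * r ^ (i - L)) + dp * (z * (S ^ 5 * (142 * L))) := by
      rw [hX]
      ring
    rw [e1]
    gcongr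
  have k2 : dm * M * (1 / (1 - ρ)) = dm * x * (S ^ 2 * (17 / (1 - ρ))) := by
    rw [hM]
    ring
  have k3 : 3 * dp * M * (ρ ^ L / (1 - ρ)) ≤ dp * (102 * S ^ 2 * (ρ ^ L / (1 - ρ))) := by
    have e1 : M ≤ 17 * S ^ 2 * 2 := by
      rw [hM]
      gcongr
    have e2 : 0 ≤ ρ ^ L / (1 - ρ) := by positivity
    have e3 : 3 * dp * M * (ρ ^ L / (1 - ρ)) ≤ 3 * dp * (17 * S ^ 2 * 2) * (ρ ^ L / (1 - ρ)) := by
      gcongr
    linarith
  have k4 : 2 * (dm * (p l' (plus d) * S ^ 2)) ≤ dm * x * (S ^ 2 * 2) := by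
    have e1 : p l' (plus d) ≤ x := by
      rw [hx]
      linarith
    have e2 : 2 * (dm * (p l' (plus d) * S ^ 2)) ≤ 2 * (dm * (x * S ^ 2)) := by gcongr
    linarith
  unfold err
  have e5 : dp * (z * (S ^ 7 * (12 + 142 * L)) + 102 * S ^ 2 * (ρ ^ L / (1 - ρ))) =
      dp * (12 * S ^ 7 * z) + dp * (z * (S ^ 7 * (142 * L))) +
        dp * (102 * S ^ 2 * (ρ ^ L / (1 - ρ))) := by ring
  have e6 : dm * x * (S ^ 2 * (2 + 17 / (1 - ρ))) = dm * x * (S ^ 2 * 2) +
      dm * x * (S ^ 2 * (17 / (1 - ρ))) := by ring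
  rw [e5, e6]
  linarith

end Pool.Agent.NVB
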