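import Pool.Agent.NVB.Fs3
import Pool.Agent.NVB.Uni3

/-!
# The decomposition of the iterates of the error
-/

set_option autoImplicit false

namespace Pool.Agent.NVB

open MeasureTheory ProbabilityTheory Filter Topology
open scoped Classical ENNReal

variable {d : ℕ} {lo κ : ℝ} {μ : ℝ} {q : Measure (Set.Icc lo κ)} [IsProbabilityMeasure q]

theorem Fs.good {S z : ℝ} {f : Env d lo κ → ℝ} {W P : ℝ} (h : Fs q S z f W P) : Good f := by
  obtain ⟨ω, ε, T, ω', ε', _, _, _, _, _, ⟨F, φ, w, h1, _⟩, _⟩ := h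
  have h2 : Fr q f W ω ε 0 := ⟨F, φ, w, _, h1⟩
  exact h2.good

theorem Fs.P0 {S z : ℝ} (hS : 0 ≤ S) (hz : 0 ≤ z) {f : Env d lo κ → ℝ} {W P : ℝ}
    (h : Fs q S z f W P) : 0 ≤ P := by
  obtain ⟨ω, ε, T, ω', ε', a1, a2, a3, a4, a5, ⟨F, φ, w, h1, _⟩, hP⟩ := h
  have hW := h1.W0
  have : 0 ≤ (ε' + 4 * S * ε) + 4 * S * (ω' + 4 * S * ω) +
      4 * S * (1 + 4 * S) * (z * (T + 4 * S * W)) := by positivity
  linarith

/-- the decomposition after `j` steps -/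
theorem decomp (hlo : 0 ≤ lo) (hκ : 0 < κ) (hμ : 0 < μ) {S : ℝ} (hS : S = (κ + μ) / μ) {l : ℝ}
    (hl : 0 ≤ l) {ρ c : ℝ} (hρ0 : 0 ≤ ρ) (hc0 : 0 ≤ c) (hc : c ≤ 1) (hM : Mc d μ q ρ c l)
    {g0 b0 : Env d lo κ → ℝ} {W P o A : ℝ} (h0 : Fs q S (1 / Z d l) g0 W P) (gb : Good b0)
    (ho : ∀ η η', |b0 η' - b0 η| ≤ o) (hA0 : 0 ≤ A) (hA : Th b0 A) (j : ℕ) :
    ∃ (g b : Env d lo κ → ℝ) (o' A' : ℝ), Good b ∧
      (∀ η, It μ q l j (fun η => g0 η + b0 η) η = g η + b η) ∧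
      Fs q S (1 / Z d l) g ((κ / (κ + μ)) ^ j * W) ((1 - 1 / (4 * S)) ^ j * P) ∧
      (∀ η η', |b η' - b η| ≤ o') ∧ 0 ≤ A' ∧ Th b A' ∧
      o' + c * A' ≤ Dj ρ (o + c * A) P (1 - 1 / (4 * S)) j := by
  induction j with
  | zero =>
    refine ⟨g0, b0, o, A, gb, fun η => rfl, ?_, ho, hA0, hA, le_rfl⟩
    rw [pow_zero, pow_zero, one_mul, one_mul]
    exact h0
  | succ j ih =>
    obtain ⟨g, b, o', A', gb', h1, h2, h3, h4, h5, h6⟩ := ih
    have hz0 : 0 < 1 / Z d l := one_div_pos.2 (Z_pos l)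
    obtain ⟨hS1, _, _, _, _⟩ := S_facts hκ hμ hS
    have hPj := h2.P0 (by linarith) hz0.le
    obtain ⟨ν, gν, bν, tν, h7⟩ := h2.step hlo hκ hμ hS hl
    obtain ⟨o2, A2, hA2, ho2, hT2, hle2⟩ := hM b o' A' gb' h3 h4 h5
    have gg := h2.good
    refine ⟨fun η => G μ q (Kh l g) η - G μ q ν η, fun η => G μ q ν η + G μ q (Kh l b) η,
      2 * ((1 - 1 / (4 * S)) ^ j * P) + o2, (1 - 1 / (4 * S)) ^ j * P + A2,
      (gν.G hκ hμ).add ((gb'.Kh l).G hκ hμ), ?_, ?_, ?_, by positivity, ?_, ?_⟩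
    · intro η
      have e1 : It μ q l (j + 1) (fun η => g0 η + b0 η) η =
          G μ q (Kh l (It μ q l j (fun η => g0 η + b0 η))) η := rfl
      have e2 : (It μ q l j fun η => g0 η + b0 η) = fun η => g η + b η := funext h1
      rw [e1, e2, Kh_add, G_add hκ hμ (gg.Kh l) (gb'.Kh l)]
      beta_reduce
      ring
    · have e1 : (κ / (κ + μ)) ^ (j + 1) * W = κ / (κ + μ) * ((κ / (κ + μ)) ^ j * W) := by ring
      have e2 : (1 - 1 / (4 * S)) ^ (j + 1) * P =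
          (1 - 1 / (4 * S)) * ((1 - 1 / (4 * S)) ^ j * P) := by ring
      rw [e1, e2]
      exact h7
    · intro η η'
      have k1 := abs_le.1 (G_abs (q := q) hκ hμ gν bν η)
      have k2 := abs_le.1 (G_abs (q := q) hκ hμ gν bν η')
      have k3 := abs_le.1 (ho2 η η')
      rw [abs_le]
      constructor <;> linarith [k1.1, k1.2, k2.1, k2.2, k3.1, k3.2]
    · have t1 : Th (G μ q ν) ((1 - 1 / (4 * S)) ^ j * P) := by
        refine Th.mono (Th.G hκ hμ gν tν) ?_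
        have hr1 : κ / (κ + μ) ≤ 1 := (r_facts hκ hμ).2.1
        have := mul_le_mul_of_nonneg_right hr1 hPj
        linarith
      exact Th.add (gν.G hκ hμ) ((gb'.Kh l).G hκ hμ) t1 hT2
    · have e1 : Dj ρ (o + c * A) P (1 - 1 / (4 * S)) (j + 1) =
          ρ * Dj ρ (o + c * A) P (1 - 1 / (4 * S)) j + 3 * ((1 - 1 / (4 * S)) ^ j * P) := rfl
      rw [e1]
      have e2 := mul_le_mul_of_nonneg_left h6 hρ0
      have e3 : c * ((1 - 1 / (4 * S)) ^ j * P) ≤ 1 * ((1 - 1 / (4 * S)) ^ j * P) :=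
        mul_le_mul_of_nonneg_right hc hPj
      have e4 : c * ((1 - 1 / (4 * S)) ^ j * P + A2) =
          c * ((1 - 1 / (4 * S)) ^ j * P) + c * A2 := by ring
      rw [e4]
      linarith

/-- the change of the attempts for a fresh function -/
theorem Fs.Nn_bound (hlo : 0 ≤ lo) (hκ : 0 < κ) (hμ : 0 < μ) {S : ℝ} (hS : S = (κ + μ) / μ)
    {l l' : ℝ} (hl : 0 ≤ l) (hll : l ≤ l') {z' : ℝ} (hz' : 0 ≤ z') {g : Env d lo κ → ℝ}
    {W P : ℝ} (h : Fs q S z' g W P) {dp z : ℝ}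
    (hdp : dp = p l' (plus d) - p l (plus d)) (hz : z = 1 / Z d l) (k : ℕ) (η : Env d lo κ) :
    |It μ q l k (G μ q (Nn l l' g)) η| ≤
      dp * (4 * ((κ / (κ + μ)) ^ k * W) + 3 * P + 6 * S ^ 3 * (z * W)) := by
  obtain ⟨hS1, _, _, _, _⟩ := S_facts hκ hμ hS
  obtain ⟨hr0, hr1, _⟩ := r_facts hκ hμ
  have hdp0 : 0 ≤ dp := by
    rw [hdp]
    exact dp_nonneg hl hll
  have hdl0 : 0 ≤ 1 / Z d l - 1 / Z d l' := by
    have := z_anti (d := d) hl hll
    linarith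
  have hndl : 2 * d * (1 / Z d l - 1 / Z d l') ≤ dp := by
    rw [hdp]
    exact dl_le hl hll
  have hz0 : 0 < z := by
    rw [hz]
    exact one_div_pos.2 (Z_pos l)
  have hnz : 2 * d * z ≤ 1 := by
    rw [hz]
    exact nz_le l
  obtain ⟨ω, ε, T, ω', ε', hω, hε, hT, hω', hε', ⟨F, φ, w, h1, _⟩, hP⟩ := h
  have hW := h1.W0
  have h2 : Fr q g W ω ε 0 := ⟨F, φ, w, _, h1⟩
  have hPε : 4 * S * ε + 16 * S ^ 2 * ω ≤ P := by
    have : 0 ≤ ε' + 4 * S * ω' + 4 * S * (1 + 4 * S) * (z' * (T + 4 * S * W)) := by positivity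
    nlinarith
  have h4 := h2.Nn hlo hκ hl hll hω hε le_rfl hdp rfl
  set dl := 1 / Z d l - 1 / Z d l' with hdl
  have h5 := It_bound hlo hκ hμ hl h4 (by positivity) (by positivity) (by positivity) hS hz rfl
    k η
  refine h5.trans ?_
  set r := κ / (κ + μ) with hr
  have t2 : 4 * (dp * (0 + ε + ω)) + S * (4 * (dp * (ε + ω))) ≤ 2 * (dp * P) := by
    have e1 : 4 * (dp * (0 + ε + ω)) + S * (4 * (dp * (ε + ω))) =
        dp * (4 * (1 + S) * (ε + ω)) := by ring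
    rw [e1]
    have e2 : 4 * (1 + S) * (ε + ω) ≤ 2 * P := by
      have e3 : 4 * (1 + S) * (ε + ω) ≤ 8 * S * (ε + ω) := by
        apply mul_le_mul_of_nonneg_right _ (by positivity)
        linarith
      have e4 : 8 * S * ω ≤ 32 * S ^ 2 * ω := by
        apply mul_le_mul_of_nonneg_right _ hω
        nlinarith
      linarith
    have e5 := mul_le_mul_of_nonneg_left e2 hdp0
    linarith
  have t4 : z * (S ^ 2 * (2 * d) * (4 * (dp * ω))) ≤ dp * P := by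
    have e1 : z * (S ^ 2 * (2 * d) * (4 * (dp * ω))) = (4 * S ^ 2 * (dp * ω)) * (2 * d * z) := by
      ring
    have e2 : (4 * S ^ 2 * (dp * ω)) * (2 * d * z) ≤ (4 * S ^ 2 * (dp * ω)) * 1 :=
      mul_le_mul_of_nonneg_left hnz (by positivity)
    have e3 : 4 * S ^ 2 * ω ≤ P := by
      have : 0 ≤ 4 * S * ε := by positivity
      have : 0 ≤ 12 * S ^ 2 * ω := by positivity
      linarith
    have e4 := mul_le_mul_of_nonneg_left e3 hdp0
    linarith
  have t5 : z * (S ^ 2 * (2 * d) * (2 * (dl * W))) ≤ z * (2 * S ^ 3 * (dp * W)) := by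
    have e1 : z * (S ^ 2 * (2 * d) * (2 * (dl * W))) = z * (2 * S ^ 2 * ((2 * d * dl) * W)) := by
      ring
    rw [e1]
    have s23 : S ^ 2 ≤ S ^ 3 := pow_le_pow_right₀ hS1 (by norm_num)
    gcongr
  have e9 : z * (S ^ 2 * (2 * d) * (4 * (dp * ω) + 2 * (dl * W)) + S ^ 3 * (4 * (dp * W))) =
      z * (S ^ 2 * (2 * d) * (4 * (dp * ω))) + z * (S ^ 2 * (2 * d) * (2 * (dl * W))) +
      4 * (z * (S ^ 3 * (dp * W))) := by ring
  rw [e9]
  have v1 : r ^ k * (4 * (dp * W)) = dp * (4 * (r ^ k * W)) := by ring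
  have v5 : z * (2 * S ^ 3 * (dp * W)) = 2 * (z * (S ^ 3 * (dp * W))) := by ring
  have v6 : dp * (4 * (r ^ k * W) + 3 * P + 6 * S ^ 3 * (z * W)) =
      dp * (4 * (r ^ k * W)) + 3 * (dp * P) + 6 * (z * (S ^ 3 * (dp * W))) := by ring
  rw [v1, v6]
  linarith

/-- the decomposition of the error after a gap -/
theorem E0_decomp (hlo : 0 ≤ lo) (hκ : 0 < κ) (hμ : 0 < μ) {S : ℝ} (hS : S = (κ + μ) / μ)
    {l : ℝ} (hl : 0 ≤ l) : ∃ g b : Env d lo κ → ℝ, Good b ∧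
      (G μ q (E0 μ q l) : Env d lo κ → ℝ) = (fun η => g η + b η) ∧
      Fs q S (1 / Z d l) g (3 * S ^ 2) (476 * S ^ 5 * (1 / Z d l)) ∧
      (∀ η η', |b η' - b η| ≤ 6 * S ^ 2 * (1 / Z d l)) ∧
      Th b (6 * S ^ 2 * (1 / Z d l)) := by
  obtain ⟨h1, _, _, _, _⟩ := S_facts hκ hμ hS
  obtain ⟨hr0, hr1, _⟩ := r_facts hκ hμ
  have ha0 := p_nonneg l (plus d)
  have ha1 := p_plus_le (d := d) l
  set α := p l (plus d) with hα
  have hb : ∀ w : Set.Icc lo κ, |hh μ q α w| ≤ S ^ 2 := fun w => by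
    refine (hh_S hlo hκ hμ hS ha0 ha1 w).trans ?_
    have : α * S ^ 2 ≤ 1 * S ^ 2 := mul_le_mul_of_nonneg_right ha1 (by positivity)
    linarith
  set H := S ^ 2 with hH
  have hH1 : 1 ≤ H := one_le_pow₀ h1
  have hz : 0 < 1 / Z d l := one_div_pos.2 (Z_pos l)
  have hz1 : 1 / Z d l ≤ 1 := by
    rw [div_le_one (Z_pos l), Z_eq]
    have := Real.one_le_exp hl
    have := Real.exp_pos (-l)
    have : (0 : ℝ) ≤ 2 * d := by positivity
    linarith
  have hz2 : 2 * d * (1 / Z d l) ≤ 1 := nz_le l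
  set z := 1 / Z d l with hzdef
  have hpm : p l (minus d) ≤ z := p_minus_le hl
  have hpm0 := p_nonneg l (minus d)
  have hb' : ∀ (y : Dir d) (w : Set.Icc lo κ), |p l y * hh μ q α w| ≤ p l y * H := by
    intro y w
    rw [abs_mul, abs_of_nonneg (p_nonneg l y)]
    exact mul_le_mul_of_nonneg_left (hb w) (p_nonneg l y)
  have hmeas : ∀ y : Dir d, Measurable fun w : Set.Icc lo κ => p l y * hh μ q α w :=
    fun y => (hh_measurable α).const_mul _
  have h2 := FT.Tf (q := q) (g := fun y w => p l y * hh μ q α w) hlo hκ hmeas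
    (fun y => by rw [integral_const_mul, hh_int hlo hκ hμ ha0 ha1, mul_zero])
    (cp := H) (c := z * H) (by positivity)
    (fun b => (hb' _ b).trans (by
      have : p l (plus d) * H ≤ 1 * H := mul_le_mul_of_nonneg_right ha1 (by positivity)
      linarith))
    (fun y hy b => (hb' y b).trans (by rw [p_lat l hy]))
  obtain ⟨gm, bm, tm⟩ := Tm_bound (q := q) (g := fun y w => p l y * hh μ q α w) hlo hκ hmeas
    (cm := z * H) (fun b => (hb' _ b).trans (mul_le_mul_of_nonneg_right hpm (by positivity)))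
    hpm0
  set Tf0 : Env d lo κ → ℝ := Tf q (fun y w => p l y * hh μ q α w) with hTf
  set Tm0 : Env d lo κ → ℝ := fun η => Tm q (fun y w => p l y * hh μ q α w) η -
    p l (minus d) * acc (minus d) η with hTm
  have hFT : FT q (G μ q Tf0) (3 * H) (2 * (z * H)) 0 (9 * H) (6 * (z * H)) 0 := by
    refine FT.mono (h2.G hκ hμ) ?_ ?_ ?_ ?_ ?_ ?_
    · have e1 : 2 * (2 * d * (z * H)) = 2 * ((2 * d * z) * H) := by ring
      have e2 : (2 * d * z) * H ≤ 1 * H := mul_le_mul_of_nonneg_right hz2 (by positivity)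
      have e3 : 0 ≤ H + 2 * (2 * d * (z * H)) := by positivity
      have e4 := mul_le_mul_of_nonneg_right hr1 e3
      linarith
    · have e3 : 0 ≤ 2 * (z * H) := by positivity
      have e4 := mul_le_mul_of_nonneg_right hr1 e3
      linarith
    · rw [mul_zero]
    · have e2 : z * H ≤ 1 * H := mul_le_mul_of_nonneg_right hz1 (by positivity)
      have e3 : 0 ≤ 3 * H + 6 * (z * H) := by positivity
      have e4 := mul_le_mul_of_nonneg_right hr1 e3
      linarith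
    · have e3 : 0 ≤ 6 * (z * H) := by positivity
      have e4 := mul_le_mul_of_nonneg_right hr1 e3
      linarith
    · rw [mul_zero]
  have gTf : Good Tf0 := by
    obtain ⟨F, φ, w, h3, _⟩ := h2
    have h4 : Fr q Tf0 _ _ _ _ := ⟨F, φ, w, _, h3⟩
    exact h4.good
  refine ⟨G μ q Tf0, G μ q Tm0, gm.G hκ hμ, ?_, ?_, ?_, ?_⟩
  · rw [← G_add hκ hμ gTf gm]
    congr 1
    funext η
    rw [E0_eq hlo hκ hμ, Tot_eq]
    ring
  · obtain ⟨F, φ, w, h3, h4⟩ := hFT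
    refine ⟨2 * (z * H), 0, 9 * H, 6 * (z * H), 0, by positivity, le_rfl, by positivity,
      by positivity, le_rfl, ⟨F, φ, w, h3, h4⟩, ?_⟩
    have s3 : S ^ 3 ≤ S ^ 5 := pow_le_pow_right₀ h1 (by norm_num)
    have s4 : S ^ 4 ≤ S ^ 5 := pow_le_pow_right₀ h1 (by norm_num)
    have e1 : 0 + 4 * S * 0 + 4 * S * (6 * (z * H) + 4 * S * (2 * (z * H))) +
        4 * S * (1 + 4 * S) * (z * (9 * H + 4 * S * (3 * H))) =
        z * (60 * S ^ 3 + 224 * S ^ 4 + 192 * S ^ 5) := by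
      rw [hH]
      ring
    rw [e1]
    have e2 : 60 * S ^ 3 + 224 * S ^ 4 + 192 * S ^ 5 ≤ 476 * S ^ 5 := by linarith
    have e3 := mul_le_mul_of_nonneg_left e2 hz.le
    linarith
  · intro η η'
    have k1 := abs_le.1 (G_abs (q := q) hκ hμ gm bm η)
    have k2 := abs_le.1 (G_abs (q := q) hκ hμ gm bm η')
    have e1 : z * 1 ≤ z * H := mul_le_mul_of_nonneg_left hH1 hz.le
    rw [abs_le]
    constructor <;> linarith [k1.1, k1.2, k2.1, k2.2]
  · refine Th.mono (Th.G hκ hμ gm tm) ?_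
    have e1 : z * 1 ≤ z * H := mul_le_mul_of_nonneg_left hH1 hz.le
    have e2 : 0 ≤ 5 * (z * H) + p l (minus d) := by positivity
    have e3 := mul_le_mul_of_nonneg_right hr1 e2
    linarith

end Pool.Agent.NVB
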