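import Pool.Agent.NVB.Uni3

/-!
# Monotonicity of the speed for large normalisation
-/

set_option autoImplicit false

namespace Pool.Agent.NVB

open MeasureTheory ProbabilityTheory Filter Topology
open scoped Classical ENNReal

variable {d : ℕ} {lo κ : ℝ} {μ : ℝ} {q : Measure (Set.Icc lo κ)} [IsProbabilityMeasure q]

theorem speed_diff (hlo : 0 ≤ lo) (hκ : 0 < κ) (hμ : 0 < μ) {S : ℝ} (hS : S = (κ + μ) / μ)
    {l l' ρ : ℝ} (hl : 0 ≤ l) (hll : l ≤ l') (hρ0 : 0 ≤ ρ) (hρ1 : ρ < 1) (hρ : Mx d μ q ρ l')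
    (L : ℕ) {Λ Λ' : ℝ} (hΛ : Tendsto (fun n : ℕ => av d μ q l n / n) atTop (𝓝 Λ))
    (hΛ' : Tendsto (fun n : ℕ => av d μ q l' n / n) atTop (𝓝 Λ')) :
    (ww μ q (p l' (plus d)) / κ - ww μ q (p l (plus d)) / κ) -
      err S ρ L (p l' (plus d) - p l (plus d)) (p l (minus d) - p l' (minus d)) (1 / Z d l)
      (p l' (plus d) + 1 / Z d l') ≤ Λ' - Λ := by
  obtain ⟨hr0, hr1, hr2⟩ := r_facts hκ hμ
  set e := err S ρ L (p l' (plus d) - p l (plus d)) (p l (minus d) - p l' (minus d)) (1 / Z d l)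
      (p l' (plus d) + 1 / Z d l') with he
  set dp := p l' (plus d) - p l (plus d) with hdp
  set a := ww μ q (p l' (plus d)) / κ - ww μ q (p l (plus d)) / κ with ha
  set c0 := κ / μ * ((μ + κ) / μ) with hc0
  set u : ℕ → ℝ := fun i => dp * (6 * S ^ 4 * (κ / (κ + μ)) ^ i +
        12 * L * S ^ 4 * (κ / (κ + μ)) ^ (i - L)) with hu
  have hu0 : Tendsto u atTop (𝓝 0) := by
    have h1 := tendsto_pow_atTop_nhds_zero_of_lt_one hr0 hr2
    have h2 : Tendsto (fun i : ℕ => (κ / (κ + μ)) ^ (i - L)) atTop (𝓝 0) :=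
      h1.comp (tendsto_sub_atTop_nat L)
    have h3 := (((h1.const_mul (6 * S ^ 4)).add (h2.const_mul (12 * L * S ^ 4))).const_mul dp)
    simpa using h3
  have hces := hu0.cesaro
  have hc : Tendsto (fun n : ℕ => (2 * c0) / (n : ℝ)) atTop (𝓝 0) :=
    tendsto_const_div_atTop_nhds_zero_nat _
  have hlow : Tendsto (fun n : ℕ => (a - e) - (2 * c0) / (n : ℝ) -
      (n : ℝ)⁻¹ * ∑ i ∈ Finset.range n, u i) atTop (𝓝 ((a - e) - 0 - 0)) :=
    (tendsto_const_nhds.sub hc).sub hces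
  rw [sub_zero, sub_zero] at hlow
  refine le_of_tendsto_of_tendsto hlow (hΛ'.sub hΛ) ?_
  filter_upwards [eventually_gt_atTop 0] with n hn
  have hn' : (0 : ℝ) < n := by exact_mod_cast hn
  obtain ⟨c, hc, h1⟩ := av_expand (d := d) (q := q) hlo hκ hμ l n
  obtain ⟨c', hc', h1'⟩ := av_expand (d := d) (q := q) hlo hκ hμ l' n
  have g3 : ∀ (b : ℝ) (i : ℕ), Good (It μ q b i (G μ q (E0 μ q b)) : Env d lo κ → ℝ) :=
    fun b i => Good.It hκ hμ b i ((Good.E0 hlo hκ hμ b).G hκ hμ)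
  have hT : ∀ i ∈ Finset.range n, -e - u i ≤
      ∫ η : Env d lo κ, It μ q l' i (G μ q (E0 μ q l')) η ∂envLaw d q -
      ∫ η : Env d lo κ, It μ q l i (G μ q (E0 μ q l)) η ∂envLaw d q := by
    intro i _
    rw [← integral_sub (g3 l' i).integrable (g3 l i).integrable]
    calc -e - u i = ∫ _η : Env d lo κ, (-e - u i) ∂envLaw d q := by simp
      _ ≤ _ := integral_mono (integrable_const _)
        ((g3 l' i).integrable.sub (g3 l i).integrable)
        (T_bound hlo hκ hμ hS hl hll hρ0 hρ1 hρ L i)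
  have hsum := Finset.sum_le_sum hT
  rw [Finset.sum_sub_distrib, Finset.sum_sub_distrib, Finset.sum_const, Finset.card_range,
    nsmul_eq_mul] at hsum
  have b1 := (abs_le.1 hc).2
  have b2 := (abs_le.1 hc').1
  have h2 : n * (a - e) - 2 * c0 - ∑ i ∈ Finset.range n, u i ≤ av d μ q l' n - av d μ q l n := by
    rw [h1, h1', ha]
    linarith
  have h3 : (a - e) - (2 * c0) / (n : ℝ) - (n : ℝ)⁻¹ * ∑ i ∈ Finset.range n, u i =
      (n * (a - e) - 2 * c0 - ∑ i ∈ Finset.range n, u i) / n := by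
    field_simp
  have h4 : av d μ q l' n / n - av d μ q l n / n = (av d μ q l' n - av d μ q l n) / n := by
    rw [sub_div]
  rw [h3, h4]
  exact div_le_div_of_nonneg_right h2 hn'.le

theorem p_plus_lt_one (l : ℝ) : p l (plus d) < 1 := by
  have h1 := sum_p (d := d) l
  rw [sum_dir] at h1
  have h2 : 0 < p l (minus d) := div_pos (Real.exp_pos _) (Z_pos l)
  have h3 : 0 ≤ lm (p l : Dir d → ℝ) := by
    rw [lm_p]
    have := Z_pos (d := d) l
    positivity
  linarith

/-- the monotonicity -/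
theorem core {B θ : ℝ} (hB : 0 < B) (hθ : 0 < θ) : ∃ C : ℝ, ∀ (d : ℕ), 1 ≤ d →
    ∀ (lo κ μ : ℝ) (q : Measure (Set.Icc lo κ)) [IsProbabilityMeasure q], 0 ≤ lo → 0 < κ →
      0 < μ → κ ≤ B * μ → θ * κ ≤ cD μ q → ∀ l l' : ℝ, 0 ≤ l → l < l' → C ≤ Z d l →
      ∀ Λ Λ' : ℝ, Tendsto (fun n : ℕ => av d μ q l n / n) atTop (𝓝 Λ) →
      Tendsto (fun n : ℕ => av d μ q l' n / n) atTop (𝓝 Λ') → Λ < Λ' := by
  obtain ⟨ρ, hρ0, hρ1, hmix⟩ := mixing hB
  have hρ' : 0 < 1 - ρ := by linarith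
  set T := B + 1 with hT
  have hT1 : 1 ≤ T := by linarith
  -- the choice of `L`
  obtain ⟨L, hL⟩ : ∃ L : ℕ, 102 * T ^ 2 * (ρ ^ L / (1 - ρ)) ≤ θ / 4 := by
    have h1 : Tendsto (fun n : ℕ => 102 * T ^ 2 * (ρ ^ n / (1 - ρ))) atTop
        (𝓝 (102 * T ^ 2 * (0 / (1 - ρ)))) :=
      ((tendsto_pow_atTop_nhds_zero_of_lt_one hρ0.le hρ1).div_const _).const_mul _
    rw [zero_div, mul_zero] at h1
    have h2 := h1.eventually (eventually_le_nhds (by positivity : (0 : ℝ) < θ / 4))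
    exact h2.exists
  set C3 := T ^ 2 * (2 + 17 / (1 - ρ)) with hC3
  have hC30 : 0 < C3 := by positivity
  set t0 := 16 * C3 / θ + 1 with ht0
  have ht01 : 1 < t0 := by
    rw [ht0]
    have : 0 < 16 * C3 / θ := by positivity
    linarith
  set C1 := T ^ 7 * (12 + 142 * L) with hC1
  have hC10 : 0 < C1 := by positivity
  refine ⟨max (4 * C1 / θ) (4 * (C3 * (t0 + 1)) / θ), ?_⟩
  intro d hd lo κ μ q hq hlo hκ hμ hκμ hcD
  set S := (κ + μ) / μ with hS
  obtain ⟨hS1, hS2, _, _, _⟩ := S_facts hκ hμ hS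
  have hST : S ≤ T := by
    have : κ / μ ≤ B := by
      rw [div_le_iff₀ hμ]
      exact hκμ
    linarith
  have hS0 : 0 ≤ S := by linarith
  have hMx : ∀ l, Mx d μ q ρ l := fun l f o A h1 h2 h3 h4 =>
    hmix d lo κ μ q hlo hκ hμ hκμ l f o A h1 h2 h3 h4
  -- the bound if the error is small
  have fin : ∀ l l' : ℝ, 0 ≤ l → l < l' → max (4 * C1 / θ) (4 * (C3 * (t0 + 1)) / θ) ≤ Z d l →
      (p l (minus d) - p l' (minus d)) * (p l' (plus d) + 1 / Z d l') * C3 ≤
        (p l' (plus d) - p l (plus d)) * (θ / 4) →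
      ∀ Λ Λ' : ℝ, Tendsto (fun n : ℕ => av d μ q l n / n) atTop (𝓝 Λ) →
      Tendsto (fun n : ℕ => av d μ q l' n / n) atTop (𝓝 Λ') → Λ < Λ' := by
    intro l l' hl hll hZ hsm Λ Λ' hΛ hΛ'
    have h1 := speed_diff (q := q) hlo hκ hμ hS hl hll.le hρ0.le hρ1 (hMx l') L hΛ hΛ'
    have hdp : 0 < p l' (plus d) - p l (plus d) := by
      have := p_plus_lt (d := d) hl hll
      linarith
    have hdm := dm_nonneg (d := d) hl hll.le
    have h2 := ww_diff (q := q) hlo hκ hμ (p_nonneg l (plus d)) (p_plus_lt hl hll).le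
      (p_plus_lt_one (d := d) l')
    have hz0 : 0 < 1 / Z d l := one_div_pos.2 (Z_pos l)
    have hz0' : 0 < 1 / Z d l' := one_div_pos.2 (Z_pos l')
    have ha0' := p_nonneg l' (plus d)
    set dp := p l' (plus d) - p l (plus d) with hdpd
    set dm := p l (minus d) - p l' (minus d) with hdmd
    set x := p l' (plus d) + 1 / Z d l' with hx
    set z := 1 / Z d l with hz
    have hx0 : 0 < x := by positivity
    have h3 : dp * θ ≤ ww μ q (p l' (plus d)) / κ - ww μ q (p l (plus d)) / κ := by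
      rw [← sub_div, le_div_iff₀ hκ]
      have := mul_le_mul_of_nonneg_left hcD hdp.le
      linarith
    have hzC : z * C1 ≤ θ / 4 := by
      have h4 : 4 * C1 / θ ≤ Z d l := (le_max_left _ _).trans hZ
      rw [div_le_iff₀ hθ] at h4
      have h5 : z * Z d l = 1 := by
        rw [hz]
        exact one_div_mul_cancel (Z_pos l).ne'
      have h6 := mul_le_mul_of_nonneg_left h4 hz0.le
      have h7 : z * (Z d l * θ) = θ := by rw [← mul_assoc, h5, one_mul]
      rw [h7] at h6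
      linarith
    have h4 : err S ρ L dp dm z x ≤ dp * (θ / 4) + dp * (θ / 4) + dp * (θ / 4) := by
      have e1 : err S ρ L dp dm z x ≤ err T ρ L dp dm z x := by
        unfold err
        have hρL : 0 ≤ ρ ^ L / (1 - ρ) := by positivity
        gcongr
      have e2 : err T ρ L dp dm z x = dp * (z * C1) + dp * (102 * T ^ 2 * (ρ ^ L / (1 - ρ))) +
          dm * x * C3 := by
        unfold err
        rw [hC1, hC3]
        ring
      have e3 := mul_le_mul_of_nonneg_left hzC hdp.le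
      have e4 := mul_le_mul_of_nonneg_left hL hdp.le
      linarith
    have h5 : 0 < dp * θ := by positivity
    linarith
  -- the two cases
  have caseA : ∀ l l' : ℝ, 0 ≤ l → l < l' → Real.exp l' ≤ t0 →
      max (4 * C1 / θ) (4 * (C3 * (t0 + 1)) / θ) ≤ Z d l →
      (p l (minus d) - p l' (minus d)) * (p l' (plus d) + 1 / Z d l') * C3 ≤
        (p l' (plus d) - p l (plus d)) * (θ / 4) := by
    intro l l' hl hll ht hZ
    have hdp := dp_nonneg (d := d) hl hll.le
    have hdm := dm_le (d := d) hl hll.le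
    have hdm0 := dm_nonneg (d := d) hl hll.le
    have hz0' : 0 < 1 / Z d l' := one_div_pos.2 (Z_pos l')
    have hz0 : 0 < 1 / Z d l := one_div_pos.2 (Z_pos l)
    have hzz := z_anti (d := d) hl hll.le
    have h1 : p l' (plus d) + 1 / Z d l' ≤ (t0 + 1) * (1 / Z d l) := by
      rw [p_plus_val]
      have e1 : Real.exp l' / Z d l' = Real.exp l' * (1 / Z d l') := by ring
      rw [e1]
      have e2 : Real.exp l' * (1 / Z d l') ≤ t0 * (1 / Z d l) := by gcongr
      linarith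
    have h2 : (1 / Z d l) * (C3 * (t0 + 1)) ≤ θ / 4 := by
      have h4 : 4 * (C3 * (t0 + 1)) / θ ≤ Z d l := (le_max_right _ _).trans hZ
      rw [div_le_iff₀ hθ] at h4
      have h5 : 1 / Z d l * Z d l = 1 := one_div_mul_cancel (Z_pos l).ne'
      have h6 := mul_le_mul_of_nonneg_left h4 hz0.le
      have h7 : 1 / Z d l * (Z d l * θ) = θ := by rw [← mul_assoc, h5, one_mul]
      rw [h7] at h6
      linarith
    have hx0 : 0 ≤ p l' (plus d) + 1 / Z d l' := add_nonneg (p_nonneg _ _) hz0'.le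
    calc (p l (minus d) - p l' (minus d)) * (p l' (plus d) + 1 / Z d l') * C3
        ≤ (p l' (plus d) - p l (plus d)) * ((t0 + 1) * (1 / Z d l)) * C3 := by gcongr
      _ = (p l' (plus d) - p l (plus d)) * ((1 / Z d l) * (C3 * (t0 + 1))) := by ring
      _ ≤ (p l' (plus d) - p l (plus d)) * (θ / 4) := by gcongr
  have caseB : ∀ l l' : ℝ, 0 ≤ l → l < l' → t0 ≤ Real.exp l →
      (p l (minus d) - p l' (minus d)) * (p l' (plus d) + 1 / Z d l') * C3 ≤
        (p l' (plus d) - p l (plus d)) * (θ / 4) := by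
    intro l l' hl hll ht
    have hdp := dp_nonneg (d := d) hl hll.le
    have hdm := dm_small hd hl hll.le
    have hdm0 := dm_nonneg (d := d) hl hll.le
    have hz0' : 0 < 1 / Z d l' := one_div_pos.2 (Z_pos l')
    have hZ1 : 1 / Z d l' ≤ 1 := by
      rw [div_le_one (Z_pos l'), Z_eq]
      have := Real.one_le_exp (hl.trans hll.le)
      have := Real.exp_pos (-l')
      have : (0 : ℝ) ≤ 2 * d := by positivity
      linarith
    have hx2 : p l' (plus d) + 1 / Z d l' ≤ 2 := by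
      have := p_plus_le (d := d) l'
      linarith
    have hx0 : 0 ≤ p l' (plus d) + 1 / Z d l' := add_nonneg (p_nonneg _ _) hz0'.le
    have h1 : 2 / Real.exp l ≤ 2 / t0 := by
      apply div_le_div_of_nonneg_left (by norm_num) (by linarith) ht
    have h2 : 2 / t0 * 2 * C3 ≤ θ / 4 := by
      have h3 : 16 * C3 ≤ t0 * θ := by
        rw [ht0]
        field_simp
        linarith
      have : 0 < t0 := by linarith
      rw [div_mul_eq_mul_div, div_mul_eq_mul_div, div_le_iff₀ this]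
      linarith
    calc (p l (minus d) - p l' (minus d)) * (p l' (plus d) + 1 / Z d l') * C3
        ≤ (2 / t0 * (p l' (plus d) - p l (plus d))) * 2 * C3 := by
          have h4 : p l (minus d) - p l' (minus d) ≤
              2 / t0 * (p l' (plus d) - p l (plus d)) :=
            hdm.trans (mul_le_mul_of_nonneg_right h1 hdp)
          gcongr
      _ = (p l' (plus d) - p l (plus d)) * (2 / t0 * 2 * C3) := by ring
      _ ≤ (p l' (plus d) - p l (plus d)) * (θ / 4) := by gcongr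
  intro l l' hl hll hZ Λ Λ' hΛ hΛ'
  by_cases hA : Real.exp l' ≤ t0
  · exact fin l l' hl hll hZ (caseA l l' hl hll hA hZ) Λ Λ' hΛ hΛ'
  by_cases hBc : t0 ≤ Real.exp l
  · exact fin l l' hl hll hZ (caseB l l' hl hll hBc) Λ Λ' hΛ hΛ'
  · rw [not_le] at hA hBc
    have ht0' : 0 < t0 := by linarith
    set l0 := Real.log t0 with hl0
    have e0 : Real.exp l0 = t0 := Real.exp_log ht0'
    have h1 : l < l0 := by
      rw [← e0] at hBc
      exact Real.exp_lt_exp.1 hBc
    have h2 : l0 < l' := by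
      rw [← e0] at hA
      exact Real.exp_lt_exp.1 hA
    have h3 : 0 ≤ l0 := hl.trans h1.le
    obtain ⟨Λ0, hΛ0, _⟩ := speed_gen (d := d) (q := q) hlo hκ hμ l0
    have h4 := fin l l0 hl h1 hZ (caseA l l0 hl h1 e0.le hZ) Λ Λ0 hΛ hΛ0
    have h5 := fin l0 l' h3 h2 (hZ.trans (Z_mono hl h1.le)) (caseB l0 l' h3 h2 e0.ge) Λ0 Λ' hΛ0 hΛ'
    exact h4.trans h5

end Pool.Agent.NVB
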