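import Pool.Agent.NVB.Fs4
import Pool.Agent.NVB.Uni4

/-!
# The change of the speed, up to an error proportional to `1 / Z`
-/

set_option autoImplicit false

namespace Pool.Agent.NVB

open MeasureTheory ProbabilityTheory Filter Topology
open scoped Classical ENNReal

variable {d : ℕ} {lo κ : ℝ} {μ : ℝ} {q : Measure (Set.Icc lo κ)} [IsProbabilityMeasure q]

theorem Nn_abs (hlo : 0 ≤ lo) (hκ : 0 < κ) {l l' : ℝ} (hl : 0 ≤ l) (hll : l ≤ l')
    {f : Env d lo κ → ℝ} {o : ℝ} (ho : ∀ η η', |f η' - f η| ≤ o) (η : Env d lo κ) :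
    |Nn l l' f η| ≤ (p l' (plus d) - p l (plus d)) * (2 * o) := by
  have hdp0 := dp_nonneg (d := d) hl hll
  have hdl0 : 0 ≤ 1 / Z d l - 1 / Z d l' := by
    have := z_anti (d := d) hl hll
    linarith
  have hndl := dl_le (d := d) hl hll
  have ho0 : 0 ≤ o := (abs_nonneg _).trans (ho η η)
  have hy : ∀ y : Dir d, |acc y η * (f (sh (vec y) η) - f η)| ≤ o := by
    intro y
    have a0 := acc_nonneg hlo hκ y η
    have a1 := acc_le hκ y η
    rw [abs_mul, abs_of_nonneg a0]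
    have h1 := ho η (sh (vec y) η)
    have h2 := mul_le_mul a1 h1 (abs_nonneg _) zero_le_one
    linarith
  unfold Nn
  set dp := p l' (plus d) - p l (plus d)
  set dl := 1 / Z d l - 1 / Z d l'
  have e1 : |dp * (acc (plus d) η * (f (sh (vec (plus d)) η) - f η))| ≤ dp * o := by
    rw [abs_mul, abs_of_nonneg hdp0]
    exact mul_le_mul_of_nonneg_left (hy _) hdp0
  have e3 : |dl * lm (fun y => acc y η * (f (sh (vec y) η) - f η))| ≤ dp * o := by
    rw [abs_mul, abs_of_nonneg hdl0]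
    have h1 := mul_le_mul_of_nonneg_left (lm_abs hy) hdl0
    have h2 := mul_le_mul_of_nonneg_right hndl ho0
    have h3 : dl * (2 * d * o) = 2 * d * dl * o := by ring
    rw [h3] at h1
    exact h1.trans h2
  have a1 := abs_le.1 e1
  have a3 := abs_le.1 e3
  rw [abs_le]
  constructor <;> linarith [a1.1, a1.2, a3.1, a3.2]

theorem Nn_add (l l' : ℝ) (f g : Env d lo κ → ℝ) (η : Env d lo κ) :
    Nn l l' (fun η => f η + g η) η = Nn l l' f η + Nn l l' g η := by
  unfold Nn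
  have h1 : lm (fun y : Dir d => acc y η * ((f (sh (vec y) η) + g (sh (vec y) η)) - (f η + g η))) =
      lm (fun y => acc y η * (f (sh (vec y) η) - f η)) +
        lm (fun y => acc y η * (g (sh (vec y) η) - g η)) := by
    rw [← lm_add]
    exact lm_congr fun y _ => by ring
  rw [h1]
  ring

theorem Good.Nn (l l' : ℝ) {f : Env d lo κ → ℝ} (hf : Good f) : Good (NVB.Nn l l' f) := by
  unfold NVB.Nn
  refine (Good.const_mul _ ((Good.acc _).mul ((hf.sh _).sub hf))).sub (Good.const_mul _ ?_)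
  simp only [lm_filter]
  exact Good.sum _ fun y _ => (Good.acc y).mul ((hf.sh _).sub hf)

/-- the terms of the telescoping sum -/
theorem term2 (hlo : 0 ≤ lo) (hκ : 0 < κ) (hμ : 0 < μ) {S : ℝ} (hS : S = (κ + μ) / μ)
    {l l' ρ c : ℝ} (hl : 0 ≤ l) (hll : l ≤ l') (hρ0 : 0 ≤ ρ) (hc0 : 0 ≤ c) (hc : c ≤ 1)
    (hMc : Mc d μ q ρ c l') {dp dm z z' M : ℝ} (hdp : dp = p l' (plus d) - p l (plus d))
    (hdm : dm = p l (minus d) - p l' (minus d)) (hz : z = 1 / Z d l) (hz' : z' = 1 / Z d l')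
    (hM : M = 17 * S ^ 2 * (p l' (plus d) + 1 / Z d l')) {i j : ℕ} (hj : j < i)
    (η : Env d lo κ) :
    |It μ q l (i - 1 - j) (G μ q (fun η => Kh l' (It μ q l' j (G μ q (E0 μ q l'))) η -
      Kh l (It μ q l' j (G μ q (E0 μ q l'))) η)) η| ≤
      dp * (12 * S ^ 2 * (κ / (κ + μ)) ^ (i - 1)) +
      dp * (3 * ((1 - 1 / (4 * S)) ^ j * (476 * S ^ 5 * z'))) +
      dp * (18 * S ^ 5 * z * (κ / (κ + μ)) ^ j) +
      dp * (2 * Dj ρ (6 * S ^ 2 * z' + c * (6 * S ^ 2 * z')) (476 * S ^ 5 * z')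
        (1 - 1 / (4 * S)) j) + dm * (ρ ^ j * M) := by
  have hl' : 0 ≤ l' := hl.trans hll
  have hdp0 : 0 ≤ dp := by
    rw [hdp]
    exact dp_nonneg hl hll
  have hdm0 : 0 ≤ dm := by
    rw [hdm]
    exact dm_nonneg hl hll
  have hz0' : 0 < z' := by
    rw [hz']
    exact one_div_pos.2 (Z_pos l')
  obtain ⟨hS1, _, _, _, _⟩ := S_facts hκ hμ hS
  obtain ⟨hr0, hr1, _⟩ := r_facts hκ hμ
  have gf : Good (It μ q l' j (G μ q (E0 μ q l')) : Env d lo κ → ℝ) :=
    Good.It hκ hμ l' j ((Good.E0 hlo hκ hμ l').G hκ hμ)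
  have ho : ∀ η η' : Env d lo κ, |It μ q l' j (G μ q (E0 μ q l')) η' -
      It μ q l' j (G μ q (E0 μ q l')) η| ≤ ρ ^ j * M := by
    rw [hM]
    exact osc_E hlo hκ hμ hS hl' hρ0 (hMc.Mx hκ hμ hρ0 hc0 hc) j
  obtain ⟨g0, b0, gb0, hE, hFs, hosc, hTh⟩ := E0_decomp (d := d) (q := q) hlo hκ hμ hS hl'
  rw [← hz'] at hosc hTh
  obtain ⟨g, b, o', A', gb, h1, h2, h3, h4, h5, h6⟩ := decomp (q := q) hlo hκ hμ hS hl' hρ0 hc0
    hc hMc hFs gb0 hosc (by positivity) hTh j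
  rw [← hE] at h1
  rw [← hz'] at h2 h6
  have gg := h2.good
  have hN := h2.Nn_bound hlo hκ hμ hS hl hll hz0'.le hdp hz (i - 1 - j) η
  set f := (It μ q l' j (G μ q (E0 μ q l')) : Env d lo κ → ℝ) with hf
  have hfg : f = fun η => g η + b η := funext h1
  set r2 := 1 - 1 / (4 * S) with hr2
  set D := Dj ρ (6 * S ^ 2 * z' + c * (6 * S ^ 2 * z')) (476 * S ^ 5 * z') r2 j with hD
  have ho' : o' ≤ D := by
    have : 0 ≤ c * A' := mul_nonneg hc0 h4
    linarith
  set m : Env d lo κ → ℝ := fun η => Nn l l' b η +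
    -(dm) * (acc (minus d) η * (f (sh (vec (minus d)) η) - f η)) with hm
  have gm : Good m := by
    have gB0 : Good (fun η => acc (minus d) η * (f (sh (vec (minus d)) η) - f η)) :=
      (Good.acc _).mul ((gf.sh _).sub gf)
    exact (Good.Nn l l' gb).add (Good.const_mul _ gB0)
  have bm : ∀ ζ : Env d lo κ, |m ζ| ≤ dp * (2 * D) + dm * (ρ ^ j * M) := by
    intro ζ
    refine (abs_add_le _ _).trans (add_le_add ?_ ?_)
    · have k1 := Nn_abs (d := d) hlo hκ hl hll h3 ζ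
      rw [← hdp] at k1
      refine k1.trans ?_
      apply mul_le_mul_of_nonneg_left _ hdp0
      linarith
    · have a0 := acc_nonneg hlo hκ (minus d) ζ
      have a1 := acc_le hκ (minus d) ζ
      rw [abs_mul, abs_neg, abs_of_nonneg hdm0, abs_mul, abs_of_nonneg a0]
      refine mul_le_mul_of_nonneg_left ?_ hdm0
      have h2 := mul_le_mul a1 (ho ζ (sh (vec (minus d)) ζ)) (abs_nonneg _) zero_le_one
      linarith
  have hK : (fun η => Kh l' f η - Kh l f η) = fun η => Nn l l' g η + m η := by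
    funext ζ
    rw [Kh_diff, ← hdm]
    have e1 : Nn l l' f ζ = Nn l l' g ζ + Nn l l' b ζ := by
      rw [hfg, Nn_add]
    rw [e1, hm]
    ring
  rw [hK, G_add hκ hμ (Good.Nn l l' gg) gm,
    It_add hκ hμ l ((Good.Nn l l' gg).G hκ hμ) (gm.G hκ hμ)]
  beta_reduce
  refine (abs_add_le _ _).trans ?_
  have k2 := It_abs (q := q) hlo hκ hμ l (gm.G hκ hμ) (G_abs (q := q) hκ hμ gm bm) (i - 1 - j) η
  have k3 : (κ / (κ + μ)) ^ (i - 1 - j) * ((κ / (κ + μ)) ^ j * (3 * S ^ 2)) =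
      3 * S ^ 2 * (κ / (κ + μ)) ^ (i - 1) := by
    rw [← mul_assoc, ← pow_add]
    have : i - 1 - j + j = i - 1 := by omega
    rw [this]
    ring
  rw [k3] at hN
  have k4 : dp * (4 * (3 * S ^ 2 * (κ / (κ + μ)) ^ (i - 1)) +
      3 * (r2 ^ j * (476 * S ^ 5 * z')) +
      6 * S ^ 3 * (z * ((κ / (κ + μ)) ^ j * (3 * S ^ 2)))) =
      dp * (12 * S ^ 2 * (κ / (κ + μ)) ^ (i - 1)) +
      dp * (3 * (r2 ^ j * (476 * S ^ 5 * z'))) + dp * (18 * S ^ 5 * z * (κ / (κ + μ)) ^ j) := by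
    ring
  rw [k4] at hN
  linarith

/-- the error, proportional to `1 / Z` -/
noncomputable def err2 (S ρ dp dm z x : ℝ) : ℝ :=
  dp * (z * (S ^ 7 * (5742 + 11448 * (1 / (1 - ρ))))) +
    dm * x * (S ^ 2 * (2 + 17 * (1 / (1 - ρ))))

theorem T_bound2 (hlo : 0 ≤ lo) (hκ : 0 < κ) (hμ : 0 < μ) {S : ℝ} (hS : S = (κ + μ) / μ)
    {l l' ρ c : ℝ} (hl : 0 ≤ l) (hll : l ≤ l') (hρ0 : 0 ≤ ρ) (hρ1 : ρ < 1) (hc0 : 0 ≤ c)
    (hc : c ≤ 1) (hMc : Mc d μ q ρ c l') (i : ℕ) (η : Env d lo κ) :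
    -(err2 S ρ (p l' (plus d) - p l (plus d)) (p l (minus d) - p l' (minus d)) (1 / Z d l)
      (p l' (plus d) + 1 / Z d l')) -
      (p l' (plus d) - p l (plus d)) * (6 * S ^ 4 * (κ / (κ + μ)) ^ i +
        12 * S ^ 2 * (i * (κ / (κ + μ)) ^ (i - 1))) ≤
      It μ q l' i (G μ q (E0 μ q l')) η - It μ q l i (G μ q (E0 μ q l)) η := by
  obtain ⟨hS1, _, _, hrS, _⟩ := S_facts hκ hμ hS
  obtain ⟨hr0, hr1, hr2⟩ := r_facts hκ hμ
  have hl' : 0 ≤ l' := hl.trans hll
  have hdp0 := dp_nonneg (d := d) hl hll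
  have hdm0 := dm_nonneg (d := d) hl hll
  have hz0 : 0 < 1 / Z d l := one_div_pos.2 (Z_pos l)
  have hz0' : 0 < 1 / Z d l' := one_div_pos.2 (Z_pos l')
  have hzz := z_anti (d := d) hl hll
  have ha0' := p_nonneg l' (plus d)
  have ha1' := p_plus_le (d := d) l'
  have gE := Good.E0 (d := d) (q := q) hlo hκ hμ l
  have gE' := Good.E0 (d := d) (q := q) hlo hκ hμ l'
  have gD : Good (dE μ q l l' : Env d lo κ → ℝ) := by
    have h1 : (dE μ q l l' : Env d lo κ → ℝ) = fun η => (E0 μ q l' η - E0 μ q l η) -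
        (p l (minus d) - p l' (minus d)) * acc (minus d) η := by
      funext ζ
      rw [E0_diff hlo hκ hμ]
      ring
    rw [h1]
    exact (gE'.sub gE).sub ((Good.acc _).const_mul _)
  -- the change of the error
  have hA : -((p l' (plus d) - p l (plus d)) * (6 * S ^ 4 * (κ / (κ + μ)) ^ i +
      12 * S ^ 7 * (1 / Z d l)) + 2 * ((p l (minus d) - p l' (minus d)) *
      (p l' (plus d) * S ^ 2))) ≤
      It μ q l i (G μ q (E0 μ q l')) η - It μ q l i (G μ q (E0 μ q l)) η := by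
    have h1 := dE_bound (q := q) hlo hκ hμ hS hl hll rfl rfl rfl i η
    have h2 : It μ q l i (fun η => G μ q (E0 μ q l) η + G μ q (dE μ q l l') η) η ≤
        It μ q l i (G μ q (E0 μ q l')) η := by
      refine It_mono hlo hκ hμ l ((gE.G hκ hμ).add (gD.G hκ hμ)) (gE'.G hκ hμ) (fun ζ => ?_) i η
      have h3 := G_mono (q := q) hκ hμ (gE.add gD) gE' (fun ξ => by
        have h4 := E0_diff (q := q) hlo hκ hμ l l' ξ
        have h5 := mul_nonneg hdm0 (acc_nonneg hlo hκ (minus d) ξ)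
        linarith) ζ
      rw [G_add hκ hμ gE gD] at h3
      exact h3
    rw [It_add hκ hμ l (gE.G hκ hμ) (gD.G hκ hμ)] at h2
    have h3 := (abs_le.1 h1).1
    linarith
  -- the change of the attempts
  set dp := p l' (plus d) - p l (plus d) with hdp
  set dm := p l (minus d) - p l' (minus d) with hdm
  set z := 1 / Z d l with hz
  set z' := 1 / Z d l' with hz'
  set M := 17 * S ^ 2 * (p l' (plus d) + z') with hM
  set r := κ / (κ + μ) with hr
  set s := 1 - 1 / (4 * S) with hs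
  have hS0 : 0 < S := by linarith
  have hs0 : 0 ≤ s := by
    have : 1 / (4 * S) ≤ 1 := by
      rw [div_le_one (by positivity)]
      linarith
    linarith
  have hs1 : s < 1 := by
    have : 0 < 1 / (4 * S) := by positivity
    linarith
  have inv_s : 1 / (1 - s) = 4 * S := by
    have : 1 - s = 1 / (4 * S) := by
      rw [hs]
      ring
    rw [this]
    field_simp
  have inv_r : 1 / (1 - r) = S := by
    have : 1 - r = 1 / S := by
      rw [hrS]
      field_simp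
      ring
    rw [this]
    field_simp
  have hM0 : 0 ≤ M := by positivity
  have hρ' : 0 < 1 - ρ := by linarith
  set P := 476 * S ^ 5 * z' with hP
  have hP0 : 0 ≤ P := by positivity
  set D0 := 6 * S ^ 2 * z' + c * (6 * S ^ 2 * z') with hD0
  have hD00 : 0 ≤ D0 := by positivity
  have hB : |It μ q l' i (G μ q (E0 μ q l')) η - It μ q l i (G μ q (E0 μ q l')) η| ≤
      dp * (12 * S ^ 2 * (i * r ^ (i - 1))) + dp * (3 * (4 * S * P)) +
      dp * (18 * S ^ 5 * z * S) + dp * (2 * ((D0 + 3 * (P * (4 * S))) / (1 - ρ))) +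
      dm * (1 / (1 - ρ) * M) := by
    rw [tele hκ hμ l l' (gE'.G hκ hμ)]
    refine (Finset.abs_sum_le_sum_abs _ _).trans ?_
    have h1 : ∀ j ∈ Finset.range i, |It μ q l (i - 1 - j) (G μ q (fun η =>
        Kh l' (It μ q l' j (G μ q (E0 μ q l'))) η -
          Kh l (It μ q l' j (G μ q (E0 μ q l'))) η)) η| ≤
        dp * (12 * S ^ 2 * r ^ (i - 1)) + dp * (3 * (s ^ j * P)) +
        dp * (18 * S ^ 5 * z * r ^ j) + dp * (2 * Dj ρ D0 P s j) + dm * (ρ ^ j * M) := by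
      intro j hj
      exact term2 (q := q) hlo hκ hμ hS hl hll hρ0 hc0 hc hMc hdp hdm hz hz' hM
        (Finset.mem_range.1 hj) η
    refine (Finset.sum_le_sum h1).trans ?_
    simp only [Finset.sum_add_distrib, ← Finset.mul_sum, ← Finset.sum_mul]
    rw [Finset.sum_const, Finset.card_range, nsmul_eq_mul]
    have s1 := sum_pow_le hs0 hs1 i
    rw [inv_s] at s1
    have s2 := sum_pow_le hr0 hr2 i
    rw [inv_r] at s2
    have s3 := sum_pow_le hρ0 hρ1 i
    have s4 := sum_Dj hρ0 hρ1 hD00 hP0 hs0 hs1 i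
    rw [inv_s] at s4
    have c1 : (i : ℝ) * (dp * (12 * S ^ 2 * r ^ (i - 1))) = dp * (12 * S ^ 2 * (i * r ^ (i - 1))) := by
      ring
    have c2 : dp * (3 * ((∑ j ∈ Finset.range i, s ^ j) * P)) ≤ dp * (3 * (4 * S * P)) := by
      gcongr
    have c3 : dp * (18 * S ^ 5 * z * ∑ j ∈ Finset.range i, r ^ j) ≤
        dp * (18 * S ^ 5 * z * S) := by
      gcongr
    have c4 : dp * (2 * ∑ j ∈ Finset.range i, Dj ρ D0 P s j) ≤
        dp * (2 * ((D0 + 3 * (P * (4 * S))) / (1 - ρ))) := by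
      gcongr
    have c5 : dm * ((∑ j ∈ Finset.range i, ρ ^ j) * M) ≤ dm * (1 / (1 - ρ) * M) := by
      gcongr
    exact add_le_add (add_le_add (add_le_add (add_le_add le_rfl c2) c3) c4) c5
  have hB' := (abs_le.1 hB).1
  -- comparison
  have s67 : S ^ 6 ≤ S ^ 7 := pow_le_pow_right₀ hS1 (by norm_num)
  have s27 : S ^ 2 ≤ S ^ 7 := pow_le_pow_right₀ hS1 (by norm_num)
  set R := 1 / (1 - ρ) with hR
  have hR0 : 0 < R := by positivity
  have hPz : P ≤ 476 * S ^ 5 * z := by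
    rw [hP]
    gcongr
  have k1 : dp * (3 * (4 * S * P)) ≤ dp * (5712 * S ^ 7 * z) := by
    have e1 : 3 * (4 * S * P) ≤ 3 * (4 * S * (476 * S ^ 5 * z)) := by gcongr
    have e2 : 3 * (4 * S * (476 * S ^ 5 * z)) = 5712 * S ^ 6 * z := by ring
    have e3 : 5712 * S ^ 6 * z ≤ 5712 * S ^ 7 * z := by gcongr
    apply mul_le_mul_of_nonneg_left _ hdp0
    linarith
  have k2 : dp * (18 * S ^ 5 * z * S) ≤ dp * (18 * S ^ 7 * z) := by
    have e2 : 18 * S ^ 5 * z * S = 18 * S ^ 6 * z := by ring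
    have e3 : 18 * S ^ 6 * z ≤ 18 * S ^ 7 * z := by gcongr
    apply mul_le_mul_of_nonneg_left _ hdp0
    linarith
  have k3 : dp * (2 * ((D0 + 3 * (P * (4 * S))) / (1 - ρ))) ≤ dp * (11448 * S ^ 7 * z * R) := by
    have e0 : (D0 + 3 * (P * (4 * S))) / (1 - ρ) = (D0 + 3 * (P * (4 * S))) * R := by
      rw [hR]
      ring
    have e1 : D0 ≤ 12 * S ^ 7 * z := by
      have a1 : c * (6 * S ^ 2 * z') ≤ 1 * (6 * S ^ 2 * z') :=
        mul_le_mul_of_nonneg_right hc (by positivity)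
      have a2 : 12 * S ^ 2 * z' ≤ 12 * S ^ 7 * z := by gcongr
      rw [hD0]
      linarith
    have e2 : 3 * (P * (4 * S)) ≤ 5712 * S ^ 7 * z := by
      have e1 : 3 * (P * (4 * S)) ≤ 3 * ((476 * S ^ 5 * z) * (4 * S)) := by gcongr
      have e2 : 3 * ((476 * S ^ 5 * z) * (4 * S)) = 5712 * S ^ 6 * z := by ring
      have e3 : 5712 * S ^ 6 * z ≤ 5712 * S ^ 7 * z := by gcongr
      linarith
    rw [e0]
    apply mul_le_mul_of_nonneg_left _ hdp0
    have e3 : (D0 + 3 * (P * (4 * S))) * R ≤ (12 * S ^ 7 * z + 5712 * S ^ 7 * z) * R :=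
      mul_le_mul_of_nonneg_right (add_le_add e1 e2) hR0.le
    linarith
  set x := p l' (plus d) + z' with hx
  have hx0 : 0 ≤ x := by positivity
  have k4 : dm * (R * M) = dm * x * (S ^ 2 * (17 * R)) := by
    rw [hM]
    ring
  have k5 : 2 * (dm * (p l' (plus d) * S ^ 2)) ≤ dm * x * (S ^ 2 * 2) := by
    have e1 : p l' (plus d) ≤ x := by
      rw [hx]
      linarith
    have e2 : 2 * (dm * (p l' (plus d) * S ^ 2)) ≤ 2 * (dm * (x * S ^ 2)) := by gcongr
    linarith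
  unfold err2
  have e5 : dp * (z * (S ^ 7 * (5742 + 11448 * R))) = dp * (12 * S ^ 7 * z) +
      dp * (5712 * S ^ 7 * z) + dp * (18 * S ^ 7 * z) + dp * (11448 * S ^ 7 * z * R) := by ring
  have e6 : dm * x * (S ^ 2 * (2 + 17 * R)) = dm * x * (S ^ 2 * 2) +
      dm * x * (S ^ 2 * (17 * R)) := by ring
  rw [← hR, e5, e6]
  linarith

theorem speed_diff2 (hlo : 0 ≤ lo) (hκ : 0 < κ) (hμ : 0 < μ) {S : ℝ} (hS : S = (κ + μ) / μ)
    {l l' ρ c : ℝ} (hl : 0 ≤ l) (hll : l ≤ l') (hρ0 : 0 ≤ ρ) (hρ1 : ρ < 1) (hc0 : 0 ≤ c)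
    (hc : c ≤ 1) (hMc : Mc d μ q ρ c l') {Λ Λ' : ℝ}
    (hΛ : Tendsto (fun n : ℕ => av d μ q l n / n) atTop (𝓝 Λ))
    (hΛ' : Tendsto (fun n : ℕ => av d μ q l' n / n) atTop (𝓝 Λ')) :
    (ww μ q (p l' (plus d)) / κ - ww μ q (p l (plus d)) / κ) -
      err2 S ρ (p l' (plus d) - p l (plus d)) (p l (minus d) - p l' (minus d)) (1 / Z d l)
      (p l' (plus d) + 1 / Z d l') ≤ Λ' - Λ := by
  obtain ⟨hr0, hr1, hr2⟩ := r_facts hκ hμ
  have hrp : 0 < κ / (κ + μ) := by positivity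
  set e := err2 S ρ (p l' (plus d) - p l (plus d)) (p l (minus d) - p l' (minus d)) (1 / Z d l)
      (p l' (plus d) + 1 / Z d l') with he
  set dp := p l' (plus d) - p l (plus d) with hdp
  set a := ww μ q (p l' (plus d)) / κ - ww μ q (p l (plus d)) / κ with ha
  set c0 := κ / μ * ((μ + κ) / μ) with hc0'
  set u : ℕ → ℝ := fun i => dp * (6 * S ^ 4 * (κ / (κ + μ)) ^ i +
        12 * S ^ 2 * (i * (κ / (κ + μ)) ^ (i - 1))) with hu
  have hu0 : Tendsto u atTop (𝓝 0) := by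
    have h1 := tendsto_pow_atTop_nhds_zero_of_lt_one hr0 hr2
    have h2 : Tendsto (fun i : ℕ => (i : ℝ) * (κ / (κ + μ)) ^ (i - 1)) atTop (𝓝 0) := by
      have h3 := (tendsto_self_mul_const_pow_of_lt_one hr0 hr2).mul_const (1 / (κ / (κ + μ)))
      rw [zero_mul] at h3
      refine h3.congr fun i => ?_
      rcases Nat.eq_zero_or_pos i with hi | hi
      · subst hi
        simp
      · have h4 : (κ / (κ + μ)) ^ i = (κ / (κ + μ)) ^ (i - 1) * (κ / (κ + μ)) := by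
          rw [← pow_succ]
          congr 1
          omega
        rw [h4]
        field_simp
    have h3 := (((h1.const_mul (6 * S ^ 4)).add (h2.const_mul (12 * S ^ 2))).const_mul dp)
    simpa using h3
  have hces := hu0.cesaro
  have hcc : Tendsto (fun n : ℕ => (2 * c0) / (n : ℝ)) atTop (𝓝 0) :=
    tendsto_const_div_atTop_nhds_zero_nat _
  have hlow : Tendsto (fun n : ℕ => (a - e) - (2 * c0) / (n : ℝ) -
      (n : ℝ)⁻¹ * ∑ i ∈ Finset.range n, u i) atTop (𝓝 ((a - e) - 0 - 0)) :=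
    (tendsto_const_nhds.sub hcc).sub hces
  rw [sub_zero, sub_zero] at hlow
  refine le_of_tendsto_of_tendsto hlow (hΛ'.sub hΛ) ?_
  filter_upwards [eventually_gt_atTop 0] with n hn
  have hn' : (0 : ℝ) < n := by exact_mod_cast hn
  obtain ⟨c1, hc1, h1⟩ := av_expand (d := d) (q := q) hlo hκ hμ l n
  obtain ⟨c2, hc2, h1'⟩ := av_expand (d := d) (q := q) hlo hκ hμ l' n
  have g3 : ∀ (b : ℝ) (i : ℕ), Good (It μ q b i (G μ q (E0 μ q b)) : Env d lo κ → ℝ) :=
    fun b i => Good.It hκ hμ b i ((Good.E0 hlo hκ hμ b).G hκ hμ)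
  have hT : ∀ i ∈ Finset.range n, -e - u i ≤
      ∫ η : Env d lo κ, It μ q l' i (G μ q (E0 μ q l')) η ∂envLaw d q -
      ∫ η : Env d lo κ, It μ q l i (G μ q (E0 μ q l)) η ∂envLaw d q := by
    intro i _
    rw [← integral_sub (g3 l' i).integrable (g3 l i).integrable]
    calc -e - u i = ∫ _η : Env d lo κ, (-e - u i) ∂envLaw d q := by simp
      _ ≤ _ := integral_mono (integrable_const _)
        ((g3 l' i).integrable.sub (g3 l i).integrable)
        (T_bound2 hlo hκ hμ hS hl hll hρ0 hρ1 hc0 hc hMc i)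
  have hsum := Finset.sum_le_sum hT
  rw [Finset.sum_sub_distrib, Finset.sum_sub_distrib, Finset.sum_const, Finset.card_range,
    nsmul_eq_mul] at hsum
  have b1 := (abs_le.1 hc1).2
  have b2 := (abs_le.1 hc2).1
  have h2 : n * (a - e) - 2 * c0 - ∑ i ∈ Finset.range n, u i ≤ av d μ q l' n - av d μ q l n := by
    rw [h1, h1', ha]
    linarith
  have h3 : (a - e) - (2 * c0) / (n : ℝ) - (n : ℝ)⁻¹ * ∑ i ∈ Finset.range n, u i =
      (n * (a - e) - 2 * c0 - ∑ i ∈ Finset.range n, u i) / n := by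
    field_simp
  have h4 : av d μ q l' n / n - av d μ q l n / n = (av d μ q l' n - av d μ q l n) / n := by
    rw [sub_div]
  rw [h3, h4]
  exact div_le_div_of_nonneg_right h2 hn'.le

end Pool.Agent.NVB
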