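import Pool.Agent.NVB.Rps

/-!
# Decompositions and gaps
-/

set_option autoImplicit false

namespace Pool.Agent.NVB

open MeasureTheory ProbabilityTheory Filter Topology
open scoped Classical ENNReal

variable {d : ℕ} {lo κ : ℝ} {μ : ℝ} {q : Measure (Set.Icc lo κ)} [IsProbabilityMeasure q]

/-! ### the environment after a gap is independent of the clocks -/

/-- the length of the gap and the clocks -/
def clk (z : Gap d lo κ) : ℝ × (Edge d → ℝ) := (z.1, fun e => (z.2 e).1)

/-- the law of the length of the gap and of the clocks -/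
noncomputable abbrev clkL (d : ℕ) (κ μ : ℝ) : Measure (ℝ × (Edge d → ℝ)) :=
  (expMeasure κ).prod (Measure.infinitePi fun _ : Edge d => expMeasure μ)

theorem unpair_law (hμ : 0 < μ) :
    MeasurePreserving (fun W : Edge d → ℝ × Set.Icc lo κ =>
      ((fun e => (W e).1, fun e => (W e).2) : (Edge d → ℝ) × Env d lo κ))
      (Measure.infinitePi fun _ : Edge d => (expMeasure μ).prod q)
      ((Measure.infinitePi fun _ : Edge d => expMeasure μ).prod (envLaw d q)) := by
  have hp := isProbabilityMeasure_expMeasure hμ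
  have m3 : Measurable fun W : Edge d → ℝ × Set.Icc lo κ =>
      ((fun e => (W e).1, fun e => (W e).2) : (Edge d → ℝ) × Env d lo κ) :=
    (measurable_pi_lambda _ fun e => measurable_fst.comp (measurable_pi_apply e)).prodMk
      (measurable_pi_lambda _ fun e => measurable_snd.comp (measurable_pi_apply e))
  have m2 : Measurable fun t : (Edge d → ℝ) × Env d lo κ => fun e => (t.1 e, t.2 e) :=
    measurable_pi_lambda _ fun i => ((measurable_pi_apply i).comp measurable_fst).prodMk
      ((measurable_pi_apply i).comp measurable_snd)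
  refine ⟨m3, ?_⟩
  have h1 := pair_law (fun _ : Edge d => expMeasure μ) (fun _ : Edge d => q)
  rw [← h1, Measure.map_map m3 m2]
  have h5 : ((fun W : Edge d → ℝ × Set.Icc lo κ =>
      ((fun e => (W e).1, fun e => (W e).2) : (Edge d → ℝ) × Env d lo κ)) ∘
      fun t : (Edge d → ℝ) × Env d lo κ => fun e => (t.1 e, t.2 e)) = id := rfl
  rw [h5, Measure.map_id]

theorem clk_ref (hκ : 0 < κ) (hμ : 0 < μ) :
    MeasurePreserving (fun t : Gap d lo κ × Env d lo κ => (clk t.1, ref t.1 t.2))
      ((gapLaw d μ q).prod (envLaw d q)) ((clkL d κ μ).prod (envLaw d q)) := by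
  have hp := isProbabilityMeasure_expMeasure hμ
  have hp' := isProbabilityMeasure_expMeasure hκ
  have s1 : MeasurePreserving (fun t : Gap d lo κ × Env d lo κ =>
      ((t.1.1, ((fun e => (t.1.2 e).1, fun e => (t.1.2 e).2) : (Edge d → ℝ) × Env d lo κ)), t.2))
      ((gapLaw d μ q).prod (envLaw d q)) (((expMeasure κ).prod
        ((Measure.infinitePi fun _ : Edge d => expMeasure μ).prod (envLaw d q))).prod
          (envLaw d q)) :=
    ((MeasurePreserving.id (expMeasure κ)).prod (unpair_law (q := q) hμ)).prod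
      (MeasurePreserving.id (envLaw d q))
  have s2 : MeasurePreserving (fun t : (ℝ × ((Edge d → ℝ) × Env d lo κ)) × Env d lo κ =>
      (((t.1.1, t.1.2.1), t.1.2.2), t.2)) (((expMeasure κ).prod
        ((Measure.infinitePi fun _ : Edge d => expMeasure μ).prod (envLaw d q))).prod
          (envLaw d q)) (((clkL d κ μ).prod (envLaw d q)).prod (envLaw d q)) :=
    (measurePreserving_prodAssoc (expMeasure κ)
      (Measure.infinitePi fun _ : Edge d => expMeasure μ) (envLaw d q)).symm.prod
      (MeasurePreserving.id (envLaw d q))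
  have s3 : MeasurePreserving (fun t : ((ℝ × (Edge d → ℝ)) × Env d lo κ) × Env d lo κ =>
      (t.1.1, (t.1.2, t.2))) (((clkL d κ μ).prod (envLaw d q)).prod (envLaw d q))
      ((clkL d κ μ).prod ((envLaw d q).prod (envLaw d q))) :=
    measurePreserving_prodAssoc (clkL d κ μ) (envLaw d q) (envLaw d q)
  have hg : Measurable (Function.uncurry fun (c : ℝ × (Edge d → ℝ)) (t : Env d lo κ × Env d lo κ) =>
      sel {e | c.2 e ≤ c.1} t.1 t.2) := by
    refine measurable_pi_lambda _ fun e => ?_
    unfold Function.uncurry sel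
    have g0 : MeasurableSet {t : (ℝ × (Edge d → ℝ)) × (Env d lo κ × Env d lo κ) |
        t.1.2 e ≤ t.1.1} := measurableSet_le (by fun_prop) (by fun_prop)
    refine Measurable.ite ?_ ?_ ?_
    · exact g0
    · exact (measurable_pi_apply e).comp (measurable_fst.comp measurable_snd)
    · exact (measurable_pi_apply e).comp (measurable_snd.comp measurable_snd)
  have s4 : MeasurePreserving (fun t : (ℝ × (Edge d → ℝ)) × (Env d lo κ × Env d lo κ) =>
      (id t.1, sel {e | t.1.2 e ≤ t.1.1} t.2.1 t.2.2))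
      ((clkL d κ μ).prod ((envLaw d q).prod (envLaw d q))) ((clkL d κ μ).prod (envLaw d q)) :=
    (MeasurePreserving.id (clkL d κ μ)).skew_product hg
      (Eventually.of_forall fun c => (sel_law (q := q) {e | c.2 e ≤ c.1}).map_eq)
  exact s4.comp (s3.comp (s2.comp s1))

/-- the clocks for which, among the edges of `S`, exactly those of `T` are kept -/
def Pt (S T : Finset (Edge d)) : Set (ℝ × (Edge d → ℝ)) :=
  {c | ∀ e ∈ S, (c.1 < c.2 e ↔ e ∈ T)}

theorem measurableSet_lt_clk (e : Edge d) :
    MeasurableSet {c : ℝ × (Edge d → ℝ) | c.1 < c.2 e} :=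
  measurableSet_lt measurable_fst ((measurable_pi_apply e).comp measurable_snd)

theorem measurable_Pt (S T : Finset (Edge d)) : MeasurableSet (Pt S T) := by
  have h : Pt S T = ⋂ e ∈ S, (if e ∈ T then {c : ℝ × (Edge d → ℝ) | c.1 < c.2 e}
      else {c : ℝ × (Edge d → ℝ) | c.1 < c.2 e}ᶜ) := by
    ext c
    unfold Pt
    rw [Set.mem_ofPred_eq, Set.mem_iInter₂]
    refine forall₂_congr fun e _ => ?_
    by_cases h : e ∈ T
    · rw [if_pos h]
      simp [h]
    · rw [if_neg h]
      simp [h]
  rw [h]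
  refine Finset.measurableSet_biInter S fun e _ => ?_
  split_ifs
  · exact measurableSet_lt_clk e
  · exact (measurableSet_lt_clk e).compl

theorem measurable_clk : Measurable (clk : Gap d lo κ → ℝ × (Edge d → ℝ)) := by
  unfold clk
  refine measurable_fst.prodMk (measurable_pi_lambda _ fun e => ?_)
  exact measurable_fst.comp ((measurable_pi_apply e).comp measurable_snd)

/-- the kept edges of `S` -/
noncomputable def kp (S : Finset (Edge d)) (c : ℝ × (Edge d → ℝ)) : Finset (Edge d) :=
  S.filter fun e => c.1 < c.2 e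

theorem mem_Pt {S T : Finset (Edge d)} (hT : T ⊆ S) (c : ℝ × (Edge d → ℝ)) :
    c ∈ Pt S T ↔ kp S c = T := by
  unfold Pt kp
  rw [Set.mem_ofPred_eq]
  constructor
  · intro h
    ext e
    rw [Finset.mem_filter]
    constructor
    · rintro ⟨h1, h2⟩
      exact (h e h1).1 h2
    · intro h1
      exact ⟨hT h1, (h e (hT h1)).2 h1⟩
  · rintro h e he
    rw [← h, Finset.mem_filter]
    exact ⟨fun h1 => ⟨he, h1⟩, fun h1 => h1.2⟩

theorem kp_sub (S : Finset (Edge d)) (c : ℝ × (Edge d → ℝ)) : kp S c ⊆ S :=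
  Finset.filter_subset _ _

/-- exactly one set of edges is kept -/
theorem sum_Pt (S : Finset (Edge d)) (c : ℝ × (Edge d → ℝ)) (F : Finset (Edge d) → ℝ) :
    ∑ T ∈ S.powerset, (Pt S T).indicator (fun _ => F T) c = F (kp S c) := by
  rw [Finset.sum_eq_single (kp S c)]
  · rw [Set.indicator_of_mem ((mem_Pt (kp_sub S c) c).2 rfl)]
  · intro T hT hne
    rw [Set.indicator_of_notMem]
    rw [mem_Pt (Finset.mem_powerset.1 hT)]
    exact fun h => hne h.symm
  · intro h
    exact absurd (Finset.mem_powerset.2 (kp_sub S c)) h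

/-- the probability that exactly the edges of `T` are kept -/
noncomputable def pk (κ μ : ℝ) (S T : Finset (Edge d)) : ℝ := (clkL d κ μ).real (Pt S T)

theorem clkL_prob (hκ : 0 < κ) (hμ : 0 < μ) : IsProbabilityMeasure (clkL d κ μ) := by
  have hp := isProbabilityMeasure_expMeasure hμ
  have hp' := isProbabilityMeasure_expMeasure hκ
  infer_instance

theorem clk_keep (hκ : 0 < κ) (hμ : 0 < μ) (e : Edge d) :
    (clkL d κ μ).real {c | c.1 < c.2 e} = κ / (κ + μ) := by
  have hp := isProbabilityMeasure_expMeasure hμ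
  have hp' := isProbabilityMeasure_expMeasure hκ
  have h1 : MeasurePreserving (fun c : ℝ × (Edge d → ℝ) => (c.1, c.2 e)) (clkL d κ μ)
      ((expMeasure κ).prod (expMeasure μ)) :=
    (MeasurePreserving.id (expMeasure κ)).prod
      (measurePreserving_eval_infinitePi (fun _ : Edge d => expMeasure μ) e)
  have h2 := h1.measure_preimage (s := {t : ℝ × ℝ | t.1 < t.2})
    (measurableSet_lt measurable_fst measurable_snd).nullMeasurableSet
  rw [race hκ hμ] at h2
  have h3 : (fun c : ℝ × (Edge d → ℝ) => (c.1, c.2 e)) ⁻¹' {t : ℝ × ℝ | t.1 < t.2} =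
      {c | c.1 < c.2 e} := rfl
  rw [h3] at h2
  rw [measureReal_def, h2, ENNReal.toReal_ofReal (by positivity)]

theorem pk_nonneg (κ μ : ℝ) (S T : Finset (Edge d)) : 0 ≤ pk κ μ S T := measureReal_nonneg

theorem sum_pk (hκ : 0 < κ) (hμ : 0 < μ) (S : Finset (Edge d)) (F : Finset (Edge d) → ℝ) :
    ∑ T ∈ S.powerset, F T * pk κ μ S T = ∫ c, F (kp S c) ∂clkL d κ μ := by
  have hp := clkL_prob (d := d) hκ hμ
  have h1 : ∀ c : ℝ × (Edge d → ℝ), F (kp S c) =
      ∑ T ∈ S.powerset, (Pt S T).indicator (fun _ => F T) c := fun c => (sum_Pt S c F).symm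
  rw [integral_congr_ae (Eventually.of_forall h1), integral_finsetSum _ fun T _ =>
    (integrable_const _).indicator (measurable_Pt S T)]
  refine Finset.sum_congr rfl fun T _ => ?_
  rw [integral_indicator (measurable_Pt S T), setIntegral_const, smul_eq_mul]
  unfold pk
  ring

/-- one edge is kept -/
theorem sum_pk_mem (hκ : 0 < κ) (hμ : 0 < μ) {S : Finset (Edge d)} {e : Edge d} (he : e ∈ S) :
    ∑ T ∈ S.powerset, (if e ∈ T then 1 else 0) * pk κ μ S T = κ / (κ + μ) := by
  have hp := clkL_prob (d := d) hκ hμ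
  rw [sum_pk hκ hμ S fun T => if e ∈ T then 1 else 0, ← clk_keep (d := d) hκ hμ e]
  have h1 : ∀ c : ℝ × (Edge d → ℝ), (if e ∈ kp S c then (1 : ℝ) else 0) =
      {c : ℝ × (Edge d → ℝ) | c.1 < c.2 e}.indicator (fun _ => (1 : ℝ)) c := by
    intro c
    by_cases h : c.1 < c.2 e
    · rw [Set.indicator_of_mem (by exact h), if_pos]
      exact Finset.mem_filter.2 ⟨he, h⟩
    · rw [Set.indicator_of_notMem (by exact h), if_neg]
      intro h2
      exact h (Finset.mem_filter.1 h2).2
  rw [integral_congr_ae (Eventually.of_forall h1), integral_indicator (measurableSet_lt_clk e),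
    setIntegral_const, smul_eq_mul, mul_one]

theorem pow_card {k n : ℕ} (hk : 0 < k) (hkn : k ≤ n) :
    (2 : ℝ) ^ k * n ≤ 2 ^ n * k := by
  obtain ⟨j, rfl⟩ := Nat.exists_eq_add_of_le hkn
  have h1 : j + 1 ≤ 2 ^ j := Nat.succ_le_of_lt Nat.lt_two_pow_self
  have h2 : k + j ≤ 2 ^ j * k := by nlinarith
  have h3 : ((k + j : ℕ) : ℝ) ≤ 2 ^ j * k := by exact_mod_cast h2
  rw [pow_add, mul_assoc]
  exact mul_le_mul_of_nonneg_left h3 (by positivity)

/-- the bound of the number of the kept edges -/
theorem sum_pk_pow (hκ : 0 < κ) (hμ : 0 < μ) {S : Finset (Edge d)} (hS : S.Nonempty)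
    (J : Finset (Edge d)) (hJ : J ⊆ S) :
    ∑ T ∈ S.powerset.erase ∅, (if J ⊆ T then 2 ^ T.card * pk κ μ S T else 0) ≤
      κ / (κ + μ) * 2 ^ S.card := by
  have hn : (0 : ℝ) < S.card := by exact_mod_cast hS.card_pos
  rcases J.eq_empty_or_nonempty with hJ0 | hJ0
  · subst hJ0
    have h1 : ∀ T ∈ S.powerset.erase ∅, (if ∅ ⊆ T then 2 ^ T.card * pk κ μ S T else 0) ≤
        2 ^ S.card * ((T.card : ℝ) / S.card * pk κ μ S T) := by
      intro T hT
      rw [Finset.mem_erase, Finset.mem_powerset] at hT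
      rw [if_pos (Finset.empty_subset T)]
      have h2 := pow_card (Finset.card_pos.2 (Finset.nonempty_iff_ne_empty.2 hT.1))
        (Finset.card_le_card hT.2)
      have h3 : (2 : ℝ) ^ T.card ≤ 2 ^ S.card * ((T.card : ℝ) / S.card) := by
        rw [← mul_div_assoc, le_div_iff₀ hn]
        exact h2
      have := mul_le_mul_of_nonneg_right h3 (pk_nonneg κ μ S T)
      linarith
    have h2 : ∑ T ∈ S.powerset.erase ∅, 2 ^ S.card * ((T.card : ℝ) / S.card * pk κ μ S T) ≤
        ∑ T ∈ S.powerset, 2 ^ S.card * ((T.card : ℝ) / S.card * pk κ μ S T) :=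
      Finset.sum_le_sum_of_subset_of_nonneg (Finset.erase_subset _ _) fun T _ _ => by
        have := pk_nonneg κ μ S T
        positivity
    have h3 : ∑ T ∈ S.powerset, 2 ^ S.card * ((T.card : ℝ) / S.card * pk κ μ S T) =
        κ / (κ + μ) * 2 ^ S.card := by
      have h4 : ∀ T ∈ S.powerset, 2 ^ S.card * ((T.card : ℝ) / S.card * pk κ μ S T) =
          2 ^ S.card / S.card * ∑ e ∈ S, (if e ∈ T then 1 else 0) * pk κ μ S T := by
        intro T hT
        have h5 : ((T.card : ℕ) : ℝ) = ∑ e ∈ S, (if e ∈ T then (1 : ℝ) else 0) := by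
          rw [Finset.sum_ite_mem, Finset.inter_eq_right.2 (Finset.mem_powerset.1 hT)]
          simp
        rw [← Finset.sum_mul, ← h5]
        field_simp
      rw [Finset.sum_congr rfl h4, ← Finset.mul_sum, Finset.sum_comm,
        Finset.sum_congr rfl fun e he => sum_pk_mem hκ hμ he, Finset.sum_const, nsmul_eq_mul]
      field_simp
    exact (Finset.sum_le_sum h1).trans (h2.trans h3.le)
  · obtain ⟨e, he⟩ := hJ0
    have h1 : ∀ T ∈ S.powerset.erase ∅, (if J ⊆ T then 2 ^ T.card * pk κ μ S T else 0) ≤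
        2 ^ S.card * ((if e ∈ T then 1 else 0) * pk κ μ S T) := by
      intro T hT
      rw [Finset.mem_erase, Finset.mem_powerset] at hT
      have hp := pk_nonneg κ μ S T
      by_cases h2 : J ⊆ T
      · rw [if_pos h2, if_pos (h2 he), one_mul]
        refine mul_le_mul_of_nonneg_right ?_ hp
        exact pow_le_pow_right₀ (by norm_num) (Finset.card_le_card hT.2)
      · rw [if_neg h2]
        split_ifs <;> positivity
    have h2 : ∑ T ∈ S.powerset.erase ∅, 2 ^ S.card * ((if e ∈ T then 1 else 0) * pk κ μ S T) ≤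
        ∑ T ∈ S.powerset, 2 ^ S.card * ((if e ∈ T then 1 else 0) * pk κ μ S T) :=
      Finset.sum_le_sum_of_subset_of_nonneg (Finset.erase_subset _ _) fun T _ _ => by
        have := pk_nonneg κ μ S T
        split_ifs <;> positivity
    have h3 : ∑ T ∈ S.powerset, 2 ^ S.card * ((if e ∈ T then 1 else 0) * pk κ μ S T) =
        κ / (κ + μ) * 2 ^ S.card := by
      rw [← Finset.mul_sum, sum_pk_mem hκ hμ (hJ he), mul_comm]
    exact (Finset.sum_le_sum h1).trans (h2.trans h3.le)

theorem pk_empty (hκ : 0 < κ) (hμ : 0 < μ) {S : Finset (Edge d)} (hS : S.Nonempty) :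
    pk κ μ S ∅ ≤ 1 - κ / (κ + μ) := by
  have hp := clkL_prob (d := d) hκ hμ
  obtain ⟨e, he⟩ := hS
  rw [← clk_keep (d := d) hκ hμ e, ← probReal_compl_eq_one_sub (measurableSet_lt_clk e)]
  unfold pk
  refine measureReal_mono fun c hc => ?_
  have h1 := hc e he
  simp only [Finset.notMem_empty, iff_false] at h1
  exact h1

/-! ### a component after a gap -/

/-- the part of a component for which exactly the edges of `T` are kept -/
noncomputable def gpf (μ : ℝ) (q : Measure (Set.Icc lo κ)) (c : Cmp d lo κ)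
    (T : Finset (Edge d)) (η : Env d lo κ) : ℝ :=
  ∫ z, (clk ⁻¹' Pt c.1 T).indicator (fun z => c.2 (ref z η)) z ∂gapLaw d μ q

theorem gpf_int (hκ : 0 < κ) (hμ : 0 < μ) {c : Cmp d lo κ} (hc : Ok c) (T : Finset (Edge d))
    (η : Env d lo κ) : Integrable (fun z => (clk ⁻¹' Pt c.1 T).indicator
      (fun z => c.2 (ref z η)) z) (gapLaw d μ q) :=
  (hc.good.integrable_ref hκ hμ η).indicator (measurable_clk (measurable_Pt c.1 T))

theorem sum_gpf (hκ : 0 < κ) (hμ : 0 < μ) {c : Cmp d lo κ} (hc : Ok c) (η : Env d lo κ) :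
    G μ q c.2 η = ∑ T ∈ c.1.powerset, gpf μ q c T η := by
  unfold G gpf
  rw [← integral_finsetSum _ fun T _ => gpf_int hκ hμ hc T η]
  refine integral_congr_ae (Eventually.of_forall fun z => ?_)
  beta_reduce
  have h1 := sum_Pt c.1 (clk z) fun _ => c.2 (ref z η)
  beta_reduce at h1
  exact h1.symm

theorem gpf_ok (hκ : 0 < κ) (hμ : 0 < μ) {c : Cmp d lo κ} (hc : Ok c) {T : Finset (Edge d)}
    (hT : T.Nonempty) (hTS : T ⊆ c.1) : Ok ((T, gpf μ q c T) : Cmp d lo κ) := by
  have hp := gap_prob (d := d) (q := q) hκ hμ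
  obtain ⟨C, hC⟩ := hc.bdm.bdd
  refine ⟨hT, ⟨?_, ⟨C, fun η => ?_⟩⟩, fun η η' h => ?_⟩
  · have h1 : StronglyMeasurable (Function.uncurry fun (η : Env d lo κ) (z : Gap d lo κ) =>
        (clk ⁻¹' Pt c.1 T).indicator (fun z => c.2 (ref z η)) z) := by
      apply Measurable.stronglyMeasurable
      have h2 : (Function.uncurry fun (η : Env d lo κ) (z : Gap d lo κ) =>
          (clk ⁻¹' Pt c.1 T).indicator (fun z => c.2 (ref z η)) z) =
          ((Prod.snd : Env d lo κ × Gap d lo κ → Gap d lo κ) ⁻¹' (clk ⁻¹' Pt c.1 T)).indicator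
            (fun t : Env d lo κ × Gap d lo κ => c.2 (ref t.2 t.1)) := by
        funext t
        rfl
      rw [h2]
      refine Measurable.indicator ?_ (measurable_snd (measurable_clk (measurable_Pt c.1 T)))
      exact hc.bdm.meas.comp (measurable_ref.comp measurable_swap)
    exact h1.integral_prod_right.measurable
  · unfold gpf
    have h1 := norm_integral_le_of_norm_le_const (μ := gapLaw d μ q)
      (f := fun z => (clk ⁻¹' Pt c.1 T).indicator (fun z => c.2 (ref z η)) z)
      (C := C) (Eventually.of_forall fun z => by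
        rw [Real.norm_eq_abs]
        by_cases h2 : z ∈ clk ⁻¹' Pt c.1 T
        · rw [Set.indicator_of_mem h2]
          exact hC _
        · rw [Set.indicator_of_notMem h2, abs_zero]
          exact (abs_nonneg _).trans (hC (ref z η)))
    simpa using h1
  · unfold gpf
    dsimp only at h ⊢
    refine integral_congr_ae (Eventually.of_forall fun z => ?_)
    beta_reduce
    by_cases h2 : z ∈ clk ⁻¹' Pt c.1 T
    · rw [Set.indicator_of_mem h2, Set.indicator_of_mem h2]
      refine hc.dep _ _ fun e he => ?_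
      have h3 := h2 e he
      unfold ref
      by_cases h4 : (z.2 e).1 ≤ z.1
      · rw [if_pos h4, if_pos h4]
      · rw [if_neg h4, if_neg h4]
        exact h e (h3.1 (not_le.1 h4))
    · rw [Set.indicator_of_notMem h2, Set.indicator_of_notMem h2]

/-- the bound of the part of a component -/
theorem gpf_bound (hκ : 0 < κ) (hμ : 0 < μ) {c : Cmp d lo κ} (hc : Ok c) {T : Finset (Edge d)}
    (hTS : T ⊆ c.1) {J : Finset (Edge d)} (hJ : J ⊆ T) (x : Env d lo κ) :
    ∫ η, |gpf μ q c T (ov J x η)| ∂envLaw d q ≤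
      pk κ μ c.1 T * ∫ η, |c.2 (ov J x η)| ∂envLaw d q := by
  have hp := gap_prob (d := d) (q := q) hκ hμ
  have hp' := clkL_prob (d := d) hκ hμ
  obtain ⟨C, hC⟩ := hc.bdm.bdd
  have hC0 : 0 ≤ C := (abs_nonneg _).trans (hC x)
  -- the function on the product space
  set H : Env d lo κ → ℝ := fun η => |c.2 (ov J x η)| with hH
  have hHb : Bdm H := hc.bdm.abs_ov J x
  set A : Set (Gap d lo κ) := clk ⁻¹' Pt c.1 T with hA
  have hAm : MeasurableSet A := measurable_clk (measurable_Pt c.1 T)
  have h1 : ∀ η, |gpf μ q c T (ov J x η)| ≤ ∫ z, A.indicator (fun z => H (ref z η)) z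
      ∂gapLaw d μ q := by
    intro η
    unfold gpf
    refine abs_integral_le_integral_abs.trans (le_of_eq ?_)
    refine integral_congr_ae (Eventually.of_forall fun z => ?_)
    beta_reduce
    by_cases h2 : z ∈ A
    · rw [Set.indicator_of_mem h2, Set.indicator_of_mem h2, hH]
      have hEq : ref z (ov J x η) = ov J x (ref z η) := by
        funext e
        by_cases h3 : e ∈ J
        · have h4 : z.1 < (z.2 e).1 := (h2 e (hTS (hJ h3))).2 (hJ h3)
          rw [ov_mem h3]
          unfold ref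
          rw [if_neg (not_le.2 h4), ov_mem h3]
        · rw [ov_notMem h3]
          unfold ref
          rw [ov_notMem h3]
      rw [hEq]
    · rw [Set.indicator_of_notMem h2, Set.indicator_of_notMem h2, abs_zero]
  have hint : Integrable (fun t : Gap d lo κ × Env d lo κ =>
      A.indicator (fun z => H (ref z t.2)) t.1) ((gapLaw d μ q).prod (envLaw d q)) := by
    have h2 : (fun t : Gap d lo κ × Env d lo κ => A.indicator (fun z => H (ref z t.2)) t.1) =
        ((Prod.fst : Gap d lo κ × Env d lo κ → Gap d lo κ) ⁻¹' A).indicator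
          (fun t : Gap d lo κ × Env d lo κ => H (ref t.1 t.2)) := by
      funext t
      rfl
    rw [h2]
    refine Integrable.indicator ?_ (measurable_fst hAm)
    obtain ⟨C', hC'⟩ := hHb.bdd
    exact Integrable.of_bound (hHb.meas.comp measurable_ref).aestronglyMeasurable C'
      (Eventually.of_forall fun t => hC' _)
  have h3 : ∫ η, ∫ z, A.indicator (fun z => H (ref z η)) z ∂gapLaw d μ q ∂envLaw d q =
      ∫ t, A.indicator (fun z => H (ref z t.2)) t.1 ∂(gapLaw d μ q).prod (envLaw d q) := by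
    rw [integral_prod_symm _ hint]
  have h4 : ∫ t, A.indicator (fun z => H (ref z t.2)) t.1 ∂(gapLaw d μ q).prod (envLaw d q) =
      ∫ t : (ℝ × (Edge d → ℝ)) × Env d lo κ, (Pt c.1 T).indicator (fun _ => (1 : ℝ)) t.1 * H t.2
        ∂(clkL d κ μ).prod (envLaw d q) := by
    have h5 := clk_ref (d := d) (q := q) hκ hμ
    have hm : Measurable fun t : (ℝ × (Edge d → ℝ)) × Env d lo κ =>
        (Pt c.1 T).indicator (fun _ => (1 : ℝ)) t.1 * H t.2 :=
      ((measurable_const.indicator (measurable_Pt c.1 T)).comp measurable_fst).mul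
        (hHb.meas.comp measurable_snd)
    rw [← h5.map_eq, integral_map h5.measurable.aemeasurable hm.aestronglyMeasurable]
    refine integral_congr_ae (Eventually.of_forall fun t => ?_)
    beta_reduce
    by_cases h6 : t.1 ∈ A
    · rw [Set.indicator_of_mem h6, Set.indicator_of_mem (by exact h6), one_mul]
    · rw [Set.indicator_of_notMem h6, Set.indicator_of_notMem (by exact h6), zero_mul]
  have h5 : ∫ t : (ℝ × (Edge d → ℝ)) × Env d lo κ, (Pt c.1 T).indicator (fun _ => (1 : ℝ)) t.1 *
      H t.2 ∂(clkL d κ μ).prod (envLaw d q) = pk κ μ c.1 T * ∫ η, H η ∂envLaw d q := by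
    rw [integral_prod_mul (fun c' => (Pt c.1 T).indicator (fun _ => (1 : ℝ)) c') H,
      integral_indicator (measurable_Pt c.1 T), setIntegral_const, smul_eq_mul, mul_one]
    rfl
  have hgm : Measurable (gpf μ q c T) ∧ ∀ η, |gpf μ q c T η| ≤ C := by
    rcases T.eq_empty_or_nonempty with h6 | h6
    · subst h6
      constructor
      · have h7 : StronglyMeasurable (Function.uncurry fun (η : Env d lo κ) (z : Gap d lo κ) =>
            (clk ⁻¹' Pt c.1 ∅).indicator (fun z => c.2 (ref z η)) z) := by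
          apply Measurable.stronglyMeasurable
          have h2 : (Function.uncurry fun (η : Env d lo κ) (z : Gap d lo κ) =>
              (clk ⁻¹' Pt c.1 ∅).indicator (fun z => c.2 (ref z η)) z) =
              ((Prod.snd : Env d lo κ × Gap d lo κ → Gap d lo κ) ⁻¹' (clk ⁻¹' Pt c.1 ∅)).indicator
                (fun t : Env d lo κ × Gap d lo κ => c.2 (ref t.2 t.1)) := by
            funext t
            rfl
          rw [h2]
          refine Measurable.indicator ?_ (measurable_snd (measurable_clk (measurable_Pt c.1 ∅)))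
          exact hc.bdm.meas.comp (measurable_ref.comp measurable_swap)
        exact h7.integral_prod_right.measurable
      · intro η
        unfold gpf
        have h1 := norm_integral_le_of_norm_le_const (μ := gapLaw d μ q)
          (f := fun z => (clk ⁻¹' Pt c.1 ∅).indicator (fun z => c.2 (ref z η)) z)
          (C := C) (Eventually.of_forall fun z => by
            rw [Real.norm_eq_abs]
            by_cases h2 : z ∈ clk ⁻¹' Pt c.1 ∅
            · rw [Set.indicator_of_mem h2]
              exact hC _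
            · rw [Set.indicator_of_notMem h2, abs_zero]
              exact hC0)
        simpa using h1
    · have h7 := gpf_ok (q := q) hκ hμ hc h6 hTS
      refine ⟨h7.bdm.meas, fun η => ?_⟩
      unfold gpf
      have h1 := norm_integral_le_of_norm_le_const (μ := gapLaw d μ q)
        (f := fun z => (clk ⁻¹' Pt c.1 T).indicator (fun z => c.2 (ref z η)) z)
        (C := C) (Eventually.of_forall fun z => by
          rw [Real.norm_eq_abs]
          by_cases h2 : z ∈ clk ⁻¹' Pt c.1 T
          · rw [Set.indicator_of_mem h2]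
            exact hC _
          · rw [Set.indicator_of_notMem h2, abs_zero]
            exact hC0)
      simpa using h1
  rw [← h5, ← h4, ← h3]
  refine integral_mono ?_ hint.integral_prod_right h1
  refine Integrable.of_bound ((hgm.1.comp (measurable_ov_right J x)).norm).aestronglyMeasurable C
    (Eventually.of_forall fun η => ?_)
  rw [Real.norm_eq_abs, abs_abs]
  exact hgm.2 _

/-- the components after a gap -/
noncomputable def gapC (μ : ℝ) (q : Measure (Set.Icc lo κ)) (c : Cmp d lo κ) :
    List (Cmp d lo κ) :=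
  (c.1.powerset.erase ∅).toList.map fun T => (T, gpf μ q c T)

/-- the constant after a gap -/
noncomputable def gcst (μ : ℝ) (q : Measure (Set.Icc lo κ)) (c : Cmp d lo κ) : ℝ :=
  ∫ η, gpf μ q c ∅ η ∂envLaw d q

theorem gapC_ok (hκ : 0 < κ) (hμ : 0 < μ) {c : Cmp d lo κ} (hc : Ok c) :
    ∀ C ∈ gapC μ q c, Ok C := by
  intro C hC
  unfold gapC at hC
  rw [List.mem_map] at hC
  obtain ⟨T, hT, rfl⟩ := hC
  rw [Finset.mem_toList, Finset.mem_erase, Finset.mem_powerset] at hT
  exact gpf_ok hκ hμ hc (Finset.nonempty_iff_ne_empty.2 hT.1) hT.2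

omit [IsProbabilityMeasure q] in
theorem gpf_empty_const (c : Cmp d lo κ)
    (hdep : ∀ η η' : Env d lo κ, (∀ e ∈ c.1, η e = η' e) → c.2 η = c.2 η') (η η' : Env d lo κ) :
    gpf μ q c ∅ η = gpf μ q c ∅ η' := by
  unfold gpf
  refine integral_congr_ae (Eventually.of_forall fun z => ?_)
  beta_reduce
  by_cases h2 : z ∈ clk ⁻¹' Pt c.1 ∅
  · rw [Set.indicator_of_mem h2, Set.indicator_of_mem h2]
    refine hdep _ _ fun e he => ?_
    have h3 := h2 e he
    simp only [Finset.notMem_empty, iff_false] at h3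
    unfold ref
    have h4 : (z.2 e).1 ≤ z.1 := not_lt.1 h3
    rw [if_pos h4, if_pos h4]
  · rw [Set.indicator_of_notMem h2, Set.indicator_of_notMem h2]

theorem ev_gapC (hκ : 0 < κ) (hμ : 0 < μ) {c : Cmp d lo κ} (hc : Ok c) (η : Env d lo κ) :
    G μ q c.2 η = gcst μ q c + ev (gapC μ q c) η := by
  rw [sum_gpf hκ hμ hc, ← Finset.add_sum_erase _ _ (Finset.empty_mem_powerset c.1)]
  congr 1
  · unfold gcst
    have h1 : ∀ η' : Env d lo κ, gpf μ q c ∅ η' = gpf μ q c ∅ η :=
      fun η' => gpf_empty_const c hc.dep η' η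
    simp only [h1]
    simp
  · unfold ev gapC
    rw [List.map_map]
    exact (Finset.sum_map_toList _ _).symm

theorem nus_gapC (hκ : 0 < κ) (hμ : 0 < μ) {c : Cmp d lo κ} (hc : Ok c) (J : Finset (Edge d))
    (x : Env d lo κ) : nus q J x (gapC μ q c) ≤ κ / (κ + μ) * nu q J x c := by
  have h1 : nus q J x (gapC μ q c) = ∑ T ∈ c.1.powerset.erase ∅, nu q J x (T, gpf μ q c T) := by
    unfold nus gapC
    rw [List.map_map]
    exact Finset.sum_map_toList _ _
  rw [h1]
  by_cases hJ : J ⊆ c.1
  · have h2 : ∀ T ∈ c.1.powerset.erase ∅, nu q J x (T, gpf μ q c T) ≤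
        (if J ⊆ T then 2 ^ T.card * pk κ μ c.1 T else 0) *
          ∫ η, |c.2 (ov J x η)| ∂envLaw d q := by
      intro T hT
      rw [Finset.mem_erase, Finset.mem_powerset] at hT
      unfold nu
      dsimp only
      split_ifs with h3
      · rw [mul_assoc]
        exact mul_le_mul_of_nonneg_left (gpf_bound hκ hμ hc hT.2 h3 x) (by positivity)
      · rw [zero_mul]
    refine (Finset.sum_le_sum h2).trans ?_
    rw [← Finset.sum_mul]
    have h3 := sum_pk_pow hκ hμ hc.ne J hJ
    have h4 : 0 ≤ ∫ η, |c.2 (ov J x η)| ∂envLaw d q := integral_nonneg fun _ => abs_nonneg _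
    have h5 := mul_le_mul_of_nonneg_right h3 h4
    unfold nu
    rw [if_pos hJ]
    linarith
  · have h2 : ∀ T ∈ c.1.powerset.erase ∅, nu q J x (T, gpf μ q c T) = 0 := by
      intro T hT
      rw [Finset.mem_erase, Finset.mem_powerset] at hT
      unfold nu
      exact if_neg fun h3 => hJ (h3.trans hT.2)
    rw [Finset.sum_congr rfl h2, Finset.sum_const_zero]
    have := nu_nonneg (q := q) J x c
    positivity

theorem gcst_bound (hκ : 0 < κ) (hμ : 0 < μ) {c : Cmp d lo κ} (hc : Ok c) (x : Env d lo κ) :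
    |gcst μ q c| ≤ (1 - κ / (κ + μ)) / 2 * nu q ∅ x c := by
  have h1 := gpf_bound (q := q) hκ hμ hc (Finset.empty_subset c.1) (Finset.empty_subset ∅) x
  simp only [ov_empty] at h1
  have h2 : |gcst μ q c| ≤ ∫ η, |gpf μ q c ∅ η| ∂envLaw d q := abs_integral_le_integral_abs
  have h3 := pk_empty hκ hμ hc.ne (S := c.1)
  have h4 : 0 ≤ ∫ η, |c.2 η| ∂envLaw d q := integral_nonneg fun _ => abs_nonneg _
  have h5 : nu q ∅ x c = 2 ^ c.1.card * ∫ η, |c.2 η| ∂envLaw d q := by
    unfold nu
    rw [if_pos (Finset.empty_subset _)]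
    simp only [ov_empty]
  have h6 : (2 : ℝ) ≤ 2 ^ c.1.card := by
    calc (2 : ℝ) = 2 ^ 1 := by norm_num
      _ ≤ 2 ^ c.1.card := pow_le_pow_right₀ (by norm_num) hc.ne.card_pos
  have h7 : 0 ≤ 1 - κ / (κ + μ) := by
    have : κ / (κ + μ) ≤ 1 := by
      rw [div_le_one (by positivity)]
      linarith
    linarith
  calc |gcst μ q c| ≤ pk κ μ c.1 ∅ * ∫ η, |c.2 η| ∂envLaw d q := h2.trans h1
    _ ≤ (1 - κ / (κ + μ)) * ∫ η, |c.2 η| ∂envLaw d q := mul_le_mul_of_nonneg_right h3 h4
    _ ≤ (1 - κ / (κ + μ)) / 2 * nu q ∅ x c := by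
      rw [h5]
      have h8 := mul_le_mul_of_nonneg_right h6 h4
      have h9 := mul_le_mul_of_nonneg_left h8 h7
      linarith

/-- a gap -/
theorem Rp.gap (hκ : 0 < κ) (hμ : 0 < μ) {L : ℝ} {f : Env d lo κ → ℝ} {c a b b3 : ℝ}
    (h : Rp L q f c a b b3) :
    ∃ c' : ℝ, |c' - c| ≤ (1 - κ / (κ + μ)) / 2 * a ∧
      Rp L q (G μ q f) c' (κ / (κ + μ) * a) (κ / (κ + μ) * b) (κ / (κ + μ) * b3) := by
  have hr : 0 ≤ κ / (κ + μ) := by positivity
  have hr1 : 0 ≤ (1 - κ / (κ + μ)) / 2 := by
    have : κ / (κ + μ) ≤ 1 := by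
      rw [div_le_one (by positivity)]
      linarith
    linarith
  obtain ⟨l, h1, h2, h3⟩ := h
  have key : ∃ k : ℝ, (∀ η, G μ q (ev l) η = k + ev (l.flatMap (gapC μ q)) η) ∧
      (∀ x, |k| ≤ (1 - κ / (κ + μ)) / 2 * nus q ∅ x l) ∧
      ∀ J x, nus q J x (l.flatMap (gapC μ q)) ≤ κ / (κ + μ) * nus q J x l := by
    clear h2 h3
    induction l with
    | nil =>
      refine ⟨0, fun η => ?_, fun x => ?_, fun J x => ?_⟩
      · have h4 : (ev [] : Env d lo κ → ℝ) = fun _ => 0 := rfl
        rw [h4, G_const hκ hμ, List.flatMap_nil, ev_nil, zero_add]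
      · rw [nus_nil, mul_zero, abs_zero]
      · rw [List.flatMap_nil, nus_nil, mul_zero]
    | cons C l ih =>
      obtain ⟨k, i1, i2, i3⟩ := ih fun C' hC' => h1 C' (by simp [hC'])
      have hC := h1 C (by simp)
      have hgl : Good (ev l) := by
        have h6 : RpB q (ev l) 0 fun J x => nus q J x l :=
          ⟨l, fun C' hC' => h1 C' (by simp [hC']), fun η => by rw [zero_add], fun J x => le_rfl⟩
        exact h6.good
      refine ⟨gcst μ q C + k, fun η => ?_, fun x => ?_, fun J x => ?_⟩
      · have h4 : (ev (C :: l) : Env d lo κ → ℝ) = fun η => C.2 η + ev l η :=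
          funext fun η => ev_cons C l η
        rw [h4, G_add hκ hμ hC.good hgl, List.flatMap_cons, ev_append]
        beta_reduce
        rw [ev_gapC hκ hμ hC, i1]
        ring
      · rw [nus_cons, mul_add]
        exact (abs_add_le _ _).trans (add_le_add (gcst_bound hκ hμ hC x) (i2 x))
      · rw [List.flatMap_cons, nus_append, nus_cons, mul_add]
        exact add_le_add (nus_gapC hκ hμ hC J x) (i3 J x)
  obtain ⟨k, i1, i2, i3⟩ := key
  have hgl : Good (ev l) := by
    have h6 : RpB q (ev l) 0 fun J x => nus q J x l :=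
      ⟨l, h1, fun η => by rw [zero_add], fun J x => le_rfl⟩
    exact h6.good
  obtain ⟨x0⟩ : Nonempty (Env d lo κ) := by
    by_contra hne
    have : IsEmpty (Env d lo κ) := not_nonempty_iff.1 hne
    have h2 := measure_univ (μ := envLaw d q)
    rw [Set.univ_eq_empty_iff.2 this, measure_empty] at h2
    exact zero_ne_one h2
  refine ⟨c + k, ?_, l.flatMap (gapC μ q), fun C hC => ?_, fun η => ?_, fun J x => ?_⟩
  · rw [add_sub_cancel_left]
    refine (i2 x0).trans (mul_le_mul_of_nonneg_left ?_ hr1)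
    have h4 := h3 ∅ x0
    unfold Bd at h4
    rwa [if_pos rfl] at h4
  · rw [List.mem_flatMap] at hC
    obtain ⟨C', hC', h4⟩ := hC
    exact gapC_ok hκ hμ (h1 C' hC') C h4
  · have h4 : f = fun η => c + ev l η := funext h2
    rw [h4, G_add hκ hμ (Good.const c) hgl, G_const hκ hμ]
    beta_reduce
    rw [i1]
    ring
  · refine (i3 J x).trans ?_
    rw [← Bd_smul]
    exact mul_le_mul_of_nonneg_left (h3 J x) hr

end Pool.Agent.NVB
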