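import Pool.Agent.NVB.Gp

/-!
# Decompositions and attempts
-/

set_option autoImplicit false

namespace Pool.Agent.NVB

open MeasureTheory ProbabilityTheory Filter Topology
open scoped Classical ENNReal

variable {d : ℕ} {lo κ : ℝ} {μ : ℝ} {q : Measure (Set.Icc lo κ)} [IsProbabilityMeasure q]

theorem env_ne (q : Measure (Set.Icc lo κ)) [IsProbabilityMeasure q] :
    Nonempty (Set.Icc lo κ) := by
  by_contra hne
  have : IsEmpty (Set.Icc lo κ) := not_nonempty_iff.1 hne
  have h2 := measure_univ (μ := q)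
  rw [Set.univ_eq_empty_iff.2 this, measure_empty] at h2
  exact zero_ne_one h2

theorem mean_nonneg (hlo : 0 ≤ lo) : 0 ≤ mean q :=
  integral_nonneg fun x => hlo.trans x.2.1

theorem mean_le : mean q ≤ κ := by
  have h1 : mean q ≤ ∫ _x, κ ∂q := integral_mono integrable_val (integrable_const _) fun x => x.2.2
  simpa using h1

theorem abar_nonneg (hlo : 0 ≤ lo) (hκ : 0 < κ) : 0 ≤ mean q / κ :=
  div_nonneg (mean_nonneg hlo) hκ.le

theorem abar_le (hκ : 0 < κ) : mean q / κ ≤ 1 := by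
  rw [div_le_one hκ]
  exact mean_le

omit [IsProbabilityMeasure q] in
theorem abar_add (x : Set.Icc lo κ) : mean q / κ + wt q x = (x : ℝ) / κ := by
  unfold wt
  rw [← add_div]
  congr 1
  ring

omit [IsProbabilityMeasure q] in
theorem sw_nonneg (J : Finset (Edge d)) (x : Env d lo κ) : 0 ≤ ∑ e ∈ J, |wt q (x e)| :=
  Finset.sum_nonneg fun _ _ => abs_nonneg _

omit [IsProbabilityMeasure q] in
theorem wgt_nonneg {L : ℝ} (hL : 0 ≤ L) (J : Finset (Edge d)) (x : Env d lo κ) :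
    0 ≤ ∏ e ∈ J, (L * |wt q (x e)|) :=
  Finset.prod_nonneg fun _ _ => mul_nonneg hL (abs_nonneg _)

omit [IsProbabilityMeasure q] in
theorem erase_le {L : ℝ} (hL : 0 < L) {a b b3 : ℝ} (ha : 0 ≤ a) (hb : 0 ≤ b) (h3 : 0 ≤ b3)
    {J : Finset (Edge d)} {e : Edge d} (he : e ∈ J) (x : Env d lo κ) :
    |wt q (x e)| * Bd L q a b b3 (J.erase e) x ≤ 1 / L *
      ((a + b + b3 * ∑ e ∈ J, |wt q (x e)|) * ∏ e ∈ J, (L * |wt q (x e)|)) := by
  have hs := sw_nonneg (q := q) J x
  have hp := wgt_nonneg (q := q) hL.le J x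
  have hs' := sw_nonneg (q := q) (J.erase e) x
  have hp' := wgt_nonneg (q := q) hL.le (J.erase e) x
  have h1 : ∏ e ∈ J, (L * |wt q (x e)|) =
      L * |wt q (x e)| * ∏ e ∈ J.erase e, (L * |wt q (x e)|) :=
    (Finset.mul_prod_erase J (fun e => L * |wt q (x e)|) he).symm
  have h2 : ∑ e ∈ J.erase e, |wt q (x e)| ≤ ∑ e ∈ J, |wt q (x e)| :=
    Finset.sum_le_sum_of_subset_of_nonneg (Finset.erase_subset _ _) fun _ _ _ => abs_nonneg _
  unfold Bd
  split_ifs with h4
  · have h5 : ∏ e ∈ J, (L * |wt q (x e)|) = L * |wt q (x e)| := by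
      rw [h1, h4, Finset.prod_empty, mul_one]
    rw [h5] at hp ⊢
    have h6 : 1 / L * ((a + b + b3 * ∑ e ∈ J, |wt q (x e)|) * (L * |wt q (x e)|)) =
        |wt q (x e)| * (a + b + b3 * ∑ e ∈ J, |wt q (x e)|) := by
      field_simp
    rw [h6]
    refine mul_le_mul_of_nonneg_left ?_ (abs_nonneg _)
    have := mul_nonneg h3 hs
    linarith
  · rw [h1]
    have h6 : 1 / L * ((a + b + b3 * ∑ e ∈ J, |wt q (x e)|) *
        (L * |wt q (x e)| * ∏ e ∈ J.erase e, (L * |wt q (x e)|))) =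
        |wt q (x e)| * ((a + b + b3 * ∑ e ∈ J, |wt q (x e)|) *
          ∏ e ∈ J.erase e, (L * |wt q (x e)|)) := by
      field_simp
    rw [h6]
    refine mul_le_mul_of_nonneg_left (mul_le_mul_of_nonneg_right ?_ hp') (abs_nonneg _)
    have := mul_le_mul_of_nonneg_left h2 h3
    linarith

omit [IsProbabilityMeasure q] in
theorem Bd_nonneg {L : ℝ} (hL : 0 ≤ L) {a b b3 : ℝ} (ha : 0 ≤ a) (hb : 0 ≤ b) (h3 : 0 ≤ b3)
    (J : Finset (Edge d)) (x : Env d lo κ) : 0 ≤ Bd L q a b b3 J x := by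
  have hs := sw_nonneg (q := q) J x
  have hp := wgt_nonneg (q := q) hL J x
  unfold Bd
  split_ifs
  · exact ha
  · positivity

/-- an attempt in one direction -/
theorem hop_bound (hlo : 0 ≤ lo) (hκ : 0 < κ) {L : ℝ} (hL : 0 < L) {a b b3 : ℝ} (ha : 0 ≤ a)
    (hb : 0 ≤ b) (h3 : 0 ≤ b3) (e : Edge d) (J : Finset (Edge d)) (x : Env d lo κ) :
    MB L q e (mean q / κ) 1 a b b3 J x + MB L q e (1 - mean q / κ) (-1) a b b3 J x ≤
      Bd L q ((1 + 4 * s1 q) * a + 2 * L * (s2 q * b + s3 q * b3))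
        ((1 + 4 * s1 q + 2 * L * s2 q + 4 / L) * b + 4 / L * a + 2 * L * s3 q * b3)
        ((1 + 4 * s1 q + 2 * L * s2 q + 4 / L) * b3) J x := by
  have hs := sw_nonneg (q := q) J x
  have hp := wgt_nonneg (q := q) hL.le J x
  have g1 := s1_nonneg (q := q)
  have g2 := s2_nonneg (q := q)
  have g3 := s3_nonneg (q := q)
  have ga := abar_nonneg (q := q) hlo hκ
  have gb := abar_le (q := q) hκ
  unfold MB
  by_cases he : e ∈ J
  · rw [if_pos he, if_pos he]
    have h1 : |mean q / κ + 1 * wt q (x e)| + |1 - mean q / κ + -1 * wt q (x e)| = 1 := by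
      have h2 : mean q / κ + 1 * wt q (x e) = (x e : ℝ) / κ := by rw [one_mul, abar_add]
      have h4 : 1 - mean q / κ + -1 * wt q (x e) = 1 - (x e : ℝ) / κ := by
        rw [← h2]
        ring
      have h5 : 0 ≤ (x e : ℝ) / κ := div_nonneg (hlo.trans (x e).2.1) hκ.le
      have h6 : (x e : ℝ) / κ ≤ 1 := by
        rw [div_le_one hκ]
        exact (x e).2.2
      rw [h2, h4, abs_of_nonneg h5, abs_of_nonneg (by linarith)]
      ring
    have h2 := erase_le (q := q) hL ha hb h3 he x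
    have hJ : J ≠ ∅ := by
      rintro rfl
      exact absurd he (Finset.notMem_empty e)
    have h4 : Bd L q a b b3 J x = (b + b3 * ∑ e ∈ J, |wt q (x e)|) *
        ∏ e ∈ J, (L * |wt q (x e)|) := by
      unfold Bd
      rw [if_neg hJ]
    have h5 : |mean q / κ + 1 * wt q (x e)| * Bd L q a b b3 J x +
        2 * |(1 : ℝ)| * |wt q (x e)| * Bd L q a b b3 (J.erase e) x +
        (|1 - mean q / κ + -1 * wt q (x e)| * Bd L q a b b3 J x +
        2 * |(-1 : ℝ)| * |wt q (x e)| * Bd L q a b b3 (J.erase e) x) =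
        (|mean q / κ + 1 * wt q (x e)| + |1 - mean q / κ + -1 * wt q (x e)|) *
          Bd L q a b b3 J x + 4 * (|wt q (x e)| * Bd L q a b b3 (J.erase e) x) := by
      rw [abs_neg, abs_one]
      ring
    rw [h5, h1, one_mul, h4]
    unfold Bd
    rw [if_neg hJ]
    set s := ∑ e ∈ J, |wt q (x e)| with hsdef
    set P := ∏ e ∈ J, (L * |wt q (x e)|) with hPdef
    unfold Bd at h2
    have h6 : (b + b3 * s) * P + 4 * (1 / L * ((a + b + b3 * s) * P)) ≤
        ((1 + 4 * s1 q + 2 * L * s2 q + 4 / L) * b + 4 / L * a + 2 * L * s3 q * b3 +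
        (1 + 4 * s1 q + 2 * L * s2 q + 4 / L) * b3 * s) * P := by
      have h7 : (b + b3 * s) * P + 4 * (1 / L * ((a + b + b3 * s) * P)) =
          ((b + b3 * s) + 4 / L * (a + b + b3 * s)) * P := by ring
      rw [h7]
      refine mul_le_mul_of_nonneg_right ?_ hp
      have h8 : 0 ≤ (4 * s1 q + 2 * L * s2 q) * (b + b3 * s) + 2 * L * s3 q * b3 := by positivity
      linarith
    linarith
  · rw [if_neg he, if_neg he]
    have h1 : (|mean q / κ| + 2 * |(1 : ℝ)| * s1 q) * Bd L q a b b3 J x +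
        |(1 : ℝ)| * (L * (s2 q * (b + b3 * ∑ e ∈ J, |wt q (x e)|) + b3 * s3 q) *
          ∏ e ∈ J, (L * |wt q (x e)|)) +
        ((|1 - mean q / κ| + 2 * |(-1 : ℝ)| * s1 q) * Bd L q a b b3 J x +
        |(-1 : ℝ)| * (L * (s2 q * (b + b3 * ∑ e ∈ J, |wt q (x e)|) + b3 * s3 q) *
          ∏ e ∈ J, (L * |wt q (x e)|))) =
        (1 + 4 * s1 q) * Bd L q a b b3 J x +
        2 * (L * (s2 q * (b + b3 * ∑ e ∈ J, |wt q (x e)|) + b3 * s3 q) *
          ∏ e ∈ J, (L * |wt q (x e)|)) := by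
      rw [abs_neg, abs_one, abs_of_nonneg ga, abs_of_nonneg (by linarith : 0 ≤ 1 - mean q / κ)]
      ring
    rw [h1]
    unfold Bd
    by_cases hJ : J = ∅
    · rw [if_pos hJ, if_pos hJ, hJ]
      simp only [Finset.sum_empty, Finset.prod_empty, mul_zero, add_zero, mul_one]
      apply le_of_eq
      ring
    · rw [if_neg hJ, if_neg hJ]
      set s := ∑ e ∈ J, |wt q (x e)| with hsdef
      set P := ∏ e ∈ J, (L * |wt q (x e)|) with hPdef
      have h7 : (1 + 4 * s1 q) * ((b + b3 * s) * P) +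
          2 * (L * (s2 q * (b + b3 * s) + b3 * s3 q) * P) =
          ((1 + 4 * s1 q) * (b + b3 * s) + 2 * L * (s2 q * (b + b3 * s) + b3 * s3 q)) * P := by
        ring
      rw [h7]
      refine mul_le_mul_of_nonneg_right ?_ hp
      have h8 : 0 ≤ 4 / L * (a + b + b3 * s) := by positivity
      linarith

/-- an attempt -/
theorem Rp_hop (hlo : 0 ≤ lo) (hκ : 0 < κ) {L : ℝ} (hL : 0 < L) (l : ℝ) {f : Env d lo κ → ℝ}
    {c a b b3 : ℝ} (ha : 0 ≤ a) (hb : 0 ≤ b) (h3 : 0 ≤ b3) (h : Rp L q f c a b b3) :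
    Rp L q (Kh l f) c ((1 + 4 * s1 q) * a + 2 * L * (s2 q * b + s3 q * b3))
      ((1 + 4 * s1 q + 2 * L * s2 q + 4 / L) * b + 4 / L * a + 2 * L * s3 q * b3)
      ((1 + 4 * s1 q + 2 * L * s2 q + 4 / L) * b3) := by
  have hF : Rp L q (fun η => f η - c) 0 a b b3 := by
    obtain ⟨lst, h1, h2, h4⟩ := h
    exact ⟨lst, h1, fun η => by
      beta_reduce
      rw [h2]
      ring, h4⟩
  have h1 : ∀ y ∈ (Finset.univ : Finset (Dir d)), RpB q (fun η => p l y *
      ((mean q / κ + 1 * wt q (η (edge 0 y))) * (f (sh (vec y) η) - c) +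
        (1 - mean q / κ + -1 * wt q (η (edge 0 y))) * (f η - c))) (p l y * (0 + 0))
      (fun J x => |p l y| * (MB L q (edge 0 y) (mean q / κ) 1 a b b3 J x +
        MB L q (edge 0 y) (1 - mean q / κ) (-1) a b b3 J x)) := fun y _ =>
    RpB.smul (p l y) (((hF.shift (vec y)).mul (edge 0 y) (mean q / κ) 1).add
      (hF.mul (edge 0 y) (1 - mean q / κ) (-1)))
  have h2 := (RpB.const (d := d) (q := q) c).add (RpB.sum Finset.univ h1)
  have h4 : c + ∑ y : Dir d, p l y * ((0 : ℝ) + 0) = c := by simp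
  rw [h4] at h2
  refine (RpB.congr h2 fun η => ?_).mono fun J x => ?_
  · have h5 : c = ∑ y : Dir d, p l y * c := by rw [← Finset.sum_mul, sum_p, one_mul]
    have h6 : c + ∑ y : Dir d, p l y *
        ((mean q / κ + 1 * wt q (η (edge 0 y))) * (f (sh (vec y) η) - c) +
          (1 - mean q / κ + -1 * wt q (η (edge 0 y))) * (f η - c)) =
        (∑ y : Dir d, p l y * c) + ∑ y : Dir d, p l y *
        ((mean q / κ + 1 * wt q (η (edge 0 y))) * (f (sh (vec y) η) - c) +
          (1 - mean q / κ + -1 * wt q (η (edge 0 y))) * (f η - c)) := by rw [← h5]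
    rw [h6, ← Finset.sum_add_distrib]
    unfold Kh
    refine Finset.sum_congr rfl fun y _ => ?_
    rw [acc_wt (q := q)]
    ring
  · rw [zero_add]
    calc ∑ y : Dir d, |p l y| * (MB L q (edge 0 y) (mean q / κ) 1 a b b3 J x +
          MB L q (edge 0 y) (1 - mean q / κ) (-1) a b b3 J x)
        ≤ ∑ y : Dir d, p l y * Bd L q ((1 + 4 * s1 q) * a + 2 * L * (s2 q * b + s3 q * b3))
            ((1 + 4 * s1 q + 2 * L * s2 q + 4 / L) * b + 4 / L * a + 2 * L * s3 q * b3)
            ((1 + 4 * s1 q + 2 * L * s2 q + 4 / L) * b3) J x := by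
          refine Finset.sum_le_sum fun y _ => ?_
          rw [abs_of_nonneg (p_nonneg l y)]
          exact mul_le_mul_of_nonneg_left (hop_bound hlo hκ hL ha hb h3 _ J x) (p_nonneg l y)
      _ = _ := by rw [← Finset.sum_mul, sum_p, one_mul]

/-- multiplication by `α + w_e` with `α ≥ 0` -/
theorem Rp_mul_wt {L : ℝ} (hL : 0 < L) {f : Env d lo κ → ℝ} {a b α : ℝ} (ha : 0 ≤ a)
    (hb : 0 ≤ b) (hα : 0 ≤ α) (h : Rp L q f 0 a b 0) (e : Edge d) :
    Rp L q (fun η => (α + wt q (η e)) * f η) 0 ((α + 2 * s1 q) * a + L * s2 q * b)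
      ((α + 2 * s1 q + L * s2 q) * b + 2 / L * (a + b)) b := by
  have h1 := h.mul e α 1
  refine (RpB.congr h1 fun η => by rw [one_mul]).mono fun J x => ?_
  have hs := sw_nonneg (q := q) J x
  have hp := wgt_nonneg (q := q) hL.le J x
  have g1 := s1_nonneg (q := q)
  have g2 := s2_nonneg (q := q)
  unfold MB
  by_cases he : e ∈ J
  · rw [if_pos he]
    have hJ : J ≠ ∅ := by
      rintro rfl
      exact absurd he (Finset.notMem_empty e)
    have h2 := erase_le (q := q) hL ha hb le_rfl he x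
    have h4 : |α + 1 * wt q (x e)| ≤ α + ∑ e ∈ J, |wt q (x e)| := by
      rw [one_mul]
      refine (abs_add_le _ _).trans ?_
      rw [abs_of_nonneg hα]
      have h5 : |wt q (x e)| ≤ ∑ e ∈ J, |wt q (x e)| :=
        Finset.single_le_sum (f := fun e => |wt q (x e)|) (fun _ _ => abs_nonneg _) he
      linarith
    have h6 : Bd L q a b 0 J x = b * ∏ e ∈ J, (L * |wt q (x e)|) := by
      unfold Bd
      rw [if_neg hJ, zero_mul, add_zero]
    rw [h6, abs_one]
    have h7 : |α + 1 * wt q (x e)| * (b * ∏ e ∈ J, (L * |wt q (x e)|)) ≤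
        (α + ∑ e ∈ J, |wt q (x e)|) * (b * ∏ e ∈ J, (L * |wt q (x e)|)) :=
      mul_le_mul_of_nonneg_right h4 (mul_nonneg hb hp)
    have hR : Bd L q ((α + 2 * s1 q) * a + L * s2 q * b)
        ((α + 2 * s1 q + L * s2 q) * b + 2 / L * (a + b)) b J x =
        ((α + 2 * s1 q + L * s2 q) * b + 2 / L * (a + b) + b * ∑ e ∈ J, |wt q (x e)|) *
          ∏ e ∈ J, (L * |wt q (x e)|) := by
      unfold Bd
      rw [if_neg hJ]
    rw [hR]
    set s := ∑ e ∈ J, |wt q (x e)| with hsdef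
    set P := ∏ e ∈ J, (L * |wt q (x e)|) with hPdef
    have h8 : (α + s) * (b * P) + 2 * (1 / L * ((a + b + 0 * s) * P)) ≤
        ((α + 2 * s1 q + L * s2 q) * b + 2 / L * (a + b) + b * s) * P := by
      have h9 : (α + s) * (b * P) + 2 * (1 / L * ((a + b + 0 * s) * P)) =
          ((α + s) * b + 2 / L * (a + b)) * P := by ring
      rw [h9]
      refine mul_le_mul_of_nonneg_right ?_ hp
      have h10 : 0 ≤ (2 * s1 q + L * s2 q) * b := by positivity
      linarith
    linarith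
  · rw [if_neg he, abs_one, abs_of_nonneg hα]
    unfold Bd
    by_cases hJ : J = ∅
    · rw [if_pos hJ, if_pos hJ, hJ]
      simp only [Finset.sum_empty, Finset.prod_empty, mul_zero, add_zero, mul_one, zero_mul,
        one_mul]
      apply le_of_eq
      ring
    · rw [if_neg hJ, if_neg hJ]
      set s := ∑ e ∈ J, |wt q (x e)| with hsdef
      set P := ∏ e ∈ J, (L * |wt q (x e)|) with hPdef
      have h7 : (α + 2 * 1 * s1 q) * ((b + 0 * s) * P) +
          1 * (L * (s2 q * (b + 0 * s) + 0 * s3 q) * P) =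
          ((α + 2 * s1 q + L * s2 q) * b) * P := by
        ring
      rw [h7]
      refine mul_le_mul_of_nonneg_right ?_ hp
      have h8 : 0 ≤ 2 / L * (a + b) + b * s := by positivity
      linarith

end Pool.Agent.NVB
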