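import Pool.Agent.NVB.Prob

/-!
# Good functions of the environment and their influences
-/

set_option autoImplicit false

namespace Pool.Agent.NVB

open MeasureTheory ProbabilityTheory Filter Topology
open scoped Classical ENNReal

variable {d : ℕ} {lo κ : ℝ}

/-- bounded measurable functions which depend on finitely many edges -/
structure Good (f : Env d lo κ → ℝ) : Prop where
  meas : Measurable f
  bdd : ∃ C : ℝ, ∀ η, |f η| ≤ C
  dep : ∃ F : Finset (Edge d), ∀ η η' : Env d lo κ, (∀ e ∈ F, η e = η' e) → f η = f η'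

/-- the influence of the edge `e` -/
noncomputable def D (f : Env d lo κ → ℝ) (e : Edge d) : ℝ≥0∞ :=
  ⨆ (η : Env d lo κ) (b : Set.Icc lo κ), ENNReal.ofReal |f (Function.update η e b) - f η|

/-- the total influence -/
noncomputable def S (f : Env d lo κ → ℝ) : ℝ≥0∞ := ∑' e, D f e

theorem le_D (f : Env d lo κ → ℝ) (e : Edge d) (η : Env d lo κ) (b : Set.Icc lo κ) :
    ENNReal.ofReal |f (Function.update η e b) - f η| ≤ D f e :=
  le_iSup_of_le η (le_iSup_of_le b le_rfl)

theorem D_le {f : Env d lo κ → ℝ} {e : Edge d} {A : ℝ≥0∞}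
    (h : ∀ (η : Env d lo κ) (b : Set.Icc lo κ),
      ENNReal.ofReal |f (Function.update η e b) - f η| ≤ A) : D f e ≤ A :=
  iSup_le fun η => iSup_le fun b => h η b

theorem osc_finset (f : Env d lo κ → ℝ) (F : Finset (Edge d)) :
    ∀ η η' : Env d lo κ, (∀ e ∉ F, η e = η' e) →
      ENNReal.ofReal |f η' - f η| ≤ ∑ e ∈ F, D f e := by
  induction F using Finset.induction_on with
  | empty =>
    intro η η' h
    have : η = η' := funext fun e => h e (Finset.notMem_empty e)
    rw [this]
    simp
  | insert e F he ih =>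
    intro η η' h
    rw [Finset.sum_insert he]
    have h1 := le_D f e η (η' e)
    have h2 := ih (Function.update η e (η' e)) η' (by
      intro e' he'
      by_cases hee : e' = e
      · subst hee
        simp
      · rw [Function.update_of_ne hee]
        exact h e' (by
          rw [Finset.mem_insert]
          tauto))
    have h3 : |f η' - f η| ≤ |f (Function.update η e (η' e)) - f η| +
        |f η' - f (Function.update η e (η' e))| := by
      have := abs_add_le (f (Function.update η e (η' e)) - f η)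
        (f η' - f (Function.update η e (η' e)))
      have h4 : f (Function.update η e (η' e)) - f η + (f η' - f (Function.update η e (η' e))) =
        f η' - f η := by ring
      rwa [h4] at this
    calc ENNReal.ofReal |f η' - f η|
        ≤ ENNReal.ofReal (|f (Function.update η e (η' e)) - f η| +
          |f η' - f (Function.update η e (η' e))|) := ENNReal.ofReal_le_ofReal h3
      _ = ENNReal.ofReal |f (Function.update η e (η' e)) - f η| +
          ENNReal.ofReal |f η' - f (Function.update η e (η' e))| :=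
        ENNReal.ofReal_add (abs_nonneg _) (abs_nonneg _)
      _ ≤ D f e + ∑ e ∈ F, D f e := add_le_add h1 h2

theorem Good.osc {f : Env d lo κ → ℝ} (hf : Good f) (η η' : Env d lo κ) :
    ENNReal.ofReal |f η' - f η| ≤ S f := by
  obtain ⟨F, hF⟩ := hf.dep
  have h1 : f η' = f (fun e => if e ∈ F then η' e else η e) := hF _ _ fun e he => by simp [he]
  rw [h1]
  refine (osc_finset f F η _ fun e he => ?_).trans (ENNReal.sum_le_tsum F)
  simp [he]

theorem Good.D_zero {f : Env d lo κ → ℝ} {F : Finset (Edge d)}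
    (hF : ∀ η η' : Env d lo κ, (∀ e ∈ F, η e = η' e) → f η = f η') {e : Edge d} (he : e ∉ F) :
    D f e = 0 := by
  refine le_antisymm (D_le fun η b => ?_) bot_le
  rw [hF (Function.update η e b) η fun e' he' => ?_]
  · simp
  · rw [Function.update_of_ne]
    rintro rfl
    exact he he'

theorem Good.D_lt {f : Env d lo κ → ℝ} (hf : Good f) (e : Edge d) : D f e < ⊤ := by
  obtain ⟨C, hC⟩ := hf.bdd
  refine lt_of_le_of_lt (D_le (A := ENNReal.ofReal (C + C)) fun η b => ?_) ENNReal.ofReal_lt_top
  refine ENNReal.ofReal_le_ofReal ((abs_sub _ _).trans (add_le_add (hC _) (hC _)))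

theorem Good.S_lt {f : Env d lo κ → ℝ} (hf : Good f) : S f < ⊤ := by
  obtain ⟨F, hF⟩ := hf.dep
  unfold S
  rw [tsum_eq_sum (s := F) fun e he => Good.D_zero hF he]
  exact ENNReal.sum_lt_top.2 fun e _ => hf.D_lt e

theorem Good.abs_le_D {f : Env d lo κ → ℝ} (hf : Good f) (e : Edge d) (η : Env d lo κ)
    (b : Set.Icc lo κ) : |f (Function.update η e b) - f η| ≤ (D f e).toReal := by
  rw [← ENNReal.toReal_ofReal (abs_nonneg (f (Function.update η e b) - f η))]
  exact ENNReal.toReal_mono (hf.D_lt e).ne (le_D f e η b)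

theorem Good.abs_le_S {f : Env d lo κ → ℝ} (hf : Good f) (η η' : Env d lo κ) :
    |f η' - f η| ≤ (S f).toReal := by
  rw [← ENNReal.toReal_ofReal (abs_nonneg (f η' - f η))]
  exact ENNReal.toReal_mono hf.S_lt.ne (hf.osc η η')

/-! ### closure properties -/

theorem Good.const (c : ℝ) : Good (fun _ : Env d lo κ => c) :=
  ⟨measurable_const, ⟨|c|, fun _ => le_rfl⟩, ⟨∅, fun _ _ _ => rfl⟩⟩

theorem Good.add {f g : Env d lo κ → ℝ} (hf : Good f) (hg : Good g) :
    Good fun η => f η + g η := by
  obtain ⟨C, hC⟩ := hf.bdd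
  obtain ⟨C', hC'⟩ := hg.bdd
  obtain ⟨F, hF⟩ := hf.dep
  obtain ⟨F', hF'⟩ := hg.dep
  refine ⟨hf.meas.add hg.meas, ⟨C + C', fun η => (abs_add_le _ _).trans (add_le_add (hC η) (hC' η))⟩,
    ⟨F ∪ F', fun η η' h => ?_⟩⟩
  rw [hF η η' fun e he => h e (Finset.mem_union_left _ he),
    hF' η η' fun e he => h e (Finset.mem_union_right _ he)]

theorem Good.mul {f g : Env d lo κ → ℝ} (hf : Good f) (hg : Good g) :
    Good fun η => f η * g η := by
  obtain ⟨C, hC⟩ := hf.bdd
  obtain ⟨C', hC'⟩ := hg.bdd
  obtain ⟨F, hF⟩ := hf.dep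
  obtain ⟨F', hF'⟩ := hg.dep
  refine ⟨hf.meas.mul hg.meas, ⟨C * C', fun η => ?_⟩, ⟨F ∪ F', fun η η' h => ?_⟩⟩
  · rw [abs_mul]
    exact mul_le_mul (hC η) (hC' η) (abs_nonneg _) ((abs_nonneg _).trans (hC η))
  · rw [hF η η' fun e he => h e (Finset.mem_union_left _ he),
      hF' η η' fun e he => h e (Finset.mem_union_right _ he)]

theorem Good.const_mul {f : Env d lo κ → ℝ} (c : ℝ) (hf : Good f) : Good fun η => c * f η :=
  (Good.const c).mul hf

theorem Good.sub {f g : Env d lo κ → ℝ} (hf : Good f) (hg : Good g) :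
    Good fun η => f η - g η := by
  have := hf.add (hg.const_mul (-1))
  have h : (fun η => f η - g η) = fun η => f η + -1 * g η := by
    funext η
    ring
  rw [h]
  exact this

theorem Good.sum {ι : Type} (s : Finset ι) {f : ι → Env d lo κ → ℝ} (hf : ∀ i ∈ s, Good (f i)) :
    Good fun η => ∑ i ∈ s, f i η := by
  induction s using Finset.induction_on with
  | empty => simpa using Good.const (d := d) (lo := lo) (κ := κ) 0
  | insert i s hi ih =>
    simp only [Finset.sum_insert hi]
    exact (hf i (Finset.mem_insert_self _ _)).add (ih fun j hj => hf j (Finset.mem_insert_of_mem hj))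

/-- the conductance of an edge -/
theorem Good.coord (e : Edge d) : Good (fun η : Env d lo κ => ((η e : ℝ))) := by
  refine ⟨by fun_prop, ⟨max |lo| |κ|, fun η => ?_⟩, ⟨{e}, fun η η' h => ?_⟩⟩
  · exact abs_le_max_abs_abs (η e).2.1 (η e).2.2
  · rw [h e (Finset.mem_singleton_self e)]

/-- translation of the environment -/
def sh (x : Site d) (η : Env d lo κ) : Env d lo κ := fun e => η (e.1 + x, e.2)

theorem measurable_sh (x : Site d) : Measurable (sh x : Env d lo κ → Env d lo κ) :=
  measurable_pi_lambda _ fun _ => measurable_pi_apply _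

theorem sh_zero (η : Env d lo κ) : sh 0 η = η := by
  funext e
  unfold sh
  simp

theorem sh_add (x y : Site d) (η : Env d lo κ) : sh x (sh y η) = sh (x + y) η := by
  funext e
  unfold sh
  simp [add_assoc]

theorem Good.sh {f : Env d lo κ → ℝ} (hf : Good f) (x : Site d) :
    Good fun η => f (NVB.sh x η) := by
  obtain ⟨C, hC⟩ := hf.bdd
  obtain ⟨F, hF⟩ := hf.dep
  refine ⟨hf.meas.comp (measurable_sh x), ⟨C, fun η => hC _⟩,
    ⟨F.image fun e => (e.1 + x, e.2), fun η η' h => ?_⟩⟩
  exact hF _ _ fun e he => h _ (Finset.mem_image_of_mem (fun e : Edge d => (e.1 + x, e.2)) he)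

/-- translation of an edge -/
theorem sh_update (x : Site d) (η : Env d lo κ) (e : Edge d) (b : Set.Icc lo κ) :
    sh x (Function.update η e b) = Function.update (sh x η) (e.1 - x, e.2) b := by
  funext e'
  unfold sh
  by_cases h : e' = (e.1 - x, e.2)
  · subst h
    simp
  · rw [Function.update_of_ne h, Function.update_of_ne]
    intro h'
    apply h
    rw [← h']
    simp

theorem tsum_D_sub (f : Env d lo κ → ℝ) (x : Site d) : ∑' e : Edge d, D f (e.1 - x, e.2) = S f := by
  have h := Equiv.tsum_eq ((Equiv.subRight x).prodCongr (Equiv.refl (Fin (d + 1)))) fun e => D f e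
  exact h

end Pool.Agent.NVB
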