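import Pool.Agent.NVB.Speed

/-!
# Almost sure convergence
-/

set_option autoImplicit false

namespace Pool.Agent.NVB

open MeasureTheory ProbabilityTheory Filter Topology
open scoped Classical ENNReal

theorem tendsto_nat_sqrt : Tendsto Nat.sqrt atTop atTop := by
  rw [tendsto_atTop]
  intro b
  filter_upwards [eventually_ge_atTop (b * b)] with n hn
  exact Nat.le_sqrt.2 hn

theorem lip {x : ℕ → ℝ} (hx : ∀ n, |x (n + 1) - x n| ≤ 1) (m k : ℕ) :
    |x (m + k) - x m| ≤ k := by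
  induction k with
  | zero => simp
  | succ k ih =>
    have h1 := abs_add_le (x (m + k + 1) - x (m + k)) (x (m + k) - x m)
    rw [sub_add_sub_cancel] at h1
    have h2 := hx (m + k)
    rw [← add_assoc]
    push_cast
    linarith

/-- from the squares to all integers -/
theorem fill {x : ℕ → ℝ} (hx : ∀ n, |x (n + 1) - x n| ≤ 1) {L : ℝ}
    (h : Tendsto (fun k : ℕ => x (k ^ 2) / (k : ℝ) ^ 2) atTop (𝓝 L)) :
    Tendsto (fun n : ℕ => x n / n) atTop (𝓝 L) := by
  set r : ℕ → ℝ := fun n => ((n : ℝ) - (Nat.sqrt n : ℝ) ^ 2) / n with hr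
  set e : ℕ → ℝ := fun n => (x n - x (Nat.sqrt n ^ 2)) / n with he
  have hk1 : ∀ n, Nat.sqrt n ^ 2 ≤ n := fun n => by
    rw [pow_two]
    exact Nat.sqrt_le n
  have hk2 : ∀ n, n ≤ Nat.sqrt n ^ 2 + 2 * Nat.sqrt n := fun n => by
    have := Nat.lt_succ_sqrt n
    simp only [Nat.succ_eq_add_one] at this
    nlinarith
  have h0 : Tendsto (fun n : ℕ => 2 / (Nat.sqrt n : ℝ)) atTop (𝓝 0) := by
    have h1 : Tendsto (fun k : ℕ => (2 : ℝ) / k) atTop (𝓝 0) :=
      tendsto_const_div_atTop_nhds_zero_nat _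
    exact h1.comp tendsto_nat_sqrt
  have hr0 : ∀ n, 0 ≤ r n := by
    intro n
    apply div_nonneg _ (Nat.cast_nonneg n)
    have := hk1 n
    have h1 : ((Nat.sqrt n : ℝ)) ^ 2 ≤ n := by exact_mod_cast this
    linarith
  have hrt : Tendsto r atTop (𝓝 0) := by
    refine squeeze_zero' (Eventually.of_forall hr0) ?_ h0
    filter_upwards [eventually_gt_atTop 0] with n hn
    have hs : 0 < Nat.sqrt n := Nat.sqrt_pos.2 hn
    have hs' : (0 : ℝ) < Nat.sqrt n := by exact_mod_cast hs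
    have hn' : (0 : ℝ) < n := by exact_mod_cast hn
    have h1 : (n : ℝ) ≤ (Nat.sqrt n : ℝ) ^ 2 + 2 * Nat.sqrt n := by exact_mod_cast hk2 n
    have h2 : (Nat.sqrt n : ℝ) ^ 2 ≤ n := by exact_mod_cast hk1 n
    rw [hr]
    beta_reduce
    rw [div_le_div_iff₀ hn' hs']
    nlinarith
  have het : Tendsto e atTop (𝓝 0) := by
    refine squeeze_zero_norm (fun n => ?_) hrt
    rw [he, hr, Real.norm_eq_abs]
    beta_reduce
    rw [abs_div, Nat.abs_cast]
    apply div_le_div_of_nonneg_right _ (Nat.cast_nonneg n)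
    have h1 := lip hx (Nat.sqrt n ^ 2) (n - Nat.sqrt n ^ 2)
    rw [Nat.add_sub_cancel' (hk1 n), Nat.cast_sub (hk1 n)] at h1
    push_cast at h1
    exact h1
  have h1 : Tendsto (fun n : ℕ => x (Nat.sqrt n ^ 2) / (Nat.sqrt n : ℝ) ^ 2 * (1 - r n) + e n)
      atTop (𝓝 (L * (1 - 0) + 0)) :=
    ((h.comp tendsto_nat_sqrt).mul (tendsto_const_nhds.sub hrt)).add het
  rw [sub_zero, mul_one, add_zero] at h1
  refine h1.congr' ?_
  filter_upwards [eventually_gt_atTop 0] with n hn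
  have hs : 0 < Nat.sqrt n := Nat.sqrt_pos.2 hn
  have hs' : (Nat.sqrt n : ℝ) ≠ 0 := by exact_mod_cast hs.ne'
  have hn' : (n : ℝ) ≠ 0 := by exact_mod_cast hn.ne'
  rw [hr, he]
  beta_reduce
  field_simp
  ring

/-- from the attempts to continuous time -/
theorem to_time {x T : ℕ → ℝ} (hT0 : T 0 = 0) (hT : StrictMono T) {c L : ℝ} (hc : 0 < c)
    (h1 : Tendsto (fun n : ℕ => T n / n) atTop (𝓝 c))
    (h2 : Tendsto (fun n : ℕ => x n / n) atTop (𝓝 L)) :
    Tendsto (fun t : ℝ => x (sSup {n : ℕ | T n ≤ t}) / t) atTop (𝓝 (L / c)) := by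
  set N : ℝ → ℕ := fun t => sSup {n : ℕ | T n ≤ t} with hN
  have hTt : Tendsto T atTop atTop := by
    have h3 : Tendsto (fun n : ℕ => T n / n * n) atTop atTop :=
      h1.pos_mul_atTop hc tendsto_natCast_atTop_atTop
    refine h3.congr' ?_
    filter_upwards [eventually_gt_atTop 0] with n hn
    have : (n : ℝ) ≠ 0 := by exact_mod_cast hn.ne'
    field_simp
  have hbdd : ∀ t, BddAbove {n : ℕ | T n ≤ t} := by
    intro t
    obtain ⟨m, hm⟩ := (hTt.eventually_gt_atTop t).exists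
    refine ⟨m, fun n hn => ?_⟩
    by_contra h3
    have h4 := hT.monotone (not_le.1 h3).le
    have h5 : T n ≤ t := hn
    linarith
  have hle : ∀ t, 0 ≤ t → T (N t) ≤ t := by
    intro t ht
    have h3 : (0 : ℕ) ∈ {n : ℕ | T n ≤ t} := by
      change T 0 ≤ t
      rw [hT0]
      exact ht
    exact Nat.sSup_mem ⟨0, h3⟩ (hbdd t)
  have hlt : ∀ t, t < T (N t + 1) := by
    intro t
    by_contra h3
    have h4 : N t + 1 ∈ {n : ℕ | T n ≤ t} := not_lt.1 h3
    have h5 := le_csSup (hbdd t) h4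
    have h6 : N t + 1 ≤ N t := h5
    omega
  have hNt : Tendsto N atTop atTop := by
    rw [tendsto_atTop]
    intro b
    filter_upwards [eventually_ge_atTop (T b)] with t ht
    exact le_csSup (hbdd t) ht
  have hA : Tendsto (fun t : ℝ => T (N t) / N t) atTop (𝓝 c) := h1.comp hNt
  have hB : Tendsto (fun t : ℝ => T (N t + 1) / ((N t + 1 : ℕ) : ℝ) * (((N t + 1 : ℕ) : ℝ) / N t))
      atTop (𝓝 (c * 1)) := by
    refine Tendsto.mul ((h1.comp (tendsto_add_atTop_nat 1)).comp hNt) ?_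
    have h3 : Tendsto (fun n : ℕ => (((n + 1 : ℕ) : ℝ) / n)) atTop (𝓝 1) := by
      have h4 : Tendsto (fun n : ℕ => (1 : ℝ) + 1 / n) atTop (𝓝 (1 + 0)) :=
        tendsto_const_nhds.add (tendsto_const_div_atTop_nhds_zero_nat _)
      rw [add_zero] at h4
      refine h4.congr' ?_
      filter_upwards [eventually_gt_atTop 0] with n hn
      have : (n : ℝ) ≠ 0 := by exact_mod_cast hn.ne'
      push_cast
      field_simp
    exact h3.comp hNt
  rw [mul_one] at hB
  have hC : Tendsto (fun t : ℝ => t / N t) atTop (𝓝 c) := by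
    refine tendsto_of_tendsto_of_tendsto_of_le_of_le' hA hB ?_ ?_
    · filter_upwards [eventually_ge_atTop 0] with t ht
      exact div_le_div_of_nonneg_right (hle t ht) (Nat.cast_nonneg _)
    · filter_upwards [hNt.eventually_gt_atTop 0] with t ht
      have h3 : (0 : ℝ) < N t := by exact_mod_cast ht
      have h4 : (((N t + 1 : ℕ) : ℝ)) ≠ 0 := by positivity
      have h5 : T (N t + 1) / ((N t + 1 : ℕ) : ℝ) * (((N t + 1 : ℕ) : ℝ) / N t) =
          T (N t + 1) / N t := by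
        field_simp
      rw [h5]
      exact div_le_div_of_nonneg_right (hlt t).le h3.le
  have hD := (h2.comp hNt).div hC hc.ne'
  refine hD.congr' ?_
  filter_upwards [hNt.eventually_gt_atTop 0, eventually_gt_atTop 0] with t ht ht'
  have h3 : (N t : ℝ) ≠ 0 := by exact_mod_cast ht.ne'
  have h4 : t ≠ 0 := ht'.ne'
  change x (N t) / (N t : ℝ) / (t / N t) = x (N t) / t
  field_simp

variable {d : ℕ} {lo κ : ℝ} {μ : ℝ} {q : Measure (Set.Icc lo κ)} [IsProbabilityMeasure q]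

/-- convergence along the squares -/
theorem path_squares (hlo : 0 ≤ lo) [hκ : Fact (0 < κ)] (hlκ : lo ≤ κ) [hμ : Fact (0 < μ)]
    (h : 5 * (κ - lo) ≤ μ) (l : ℝ) :
    ∀ᵐ w ∂law d μ q l, Tendsto (fun k : ℕ =>
      (((path w (k ^ 2) 0 : ℤ) : ℝ) - av d μ q l (k ^ 2)) / (k : ℝ) ^ 2) atTop (𝓝 0) := by
  set Y : ℕ → Sample d lo κ → ℝ≥0∞ := fun k w => ENNReal.ofReal
    (((((path w (k ^ 2) 0 : ℤ) : ℝ) - av d μ q l (k ^ 2)) / (k : ℝ) ^ 2) ^ 2) with hY
  have hm : ∀ k, Measurable (Y k) := by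
    intro k
    have h1 : Measurable fun x : Site d => ENNReal.ofReal
        (((((x 0 : ℤ) : ℝ) - av d μ q l (k ^ 2)) / (k : ℝ) ^ 2) ^ 2) := measurable_of_countable _
    exact h1.comp (measurable_path (k ^ 2))
  have hY1 : ∀ k, ∫⁻ w, Y k w ∂law d μ q l ≤ ENNReal.ofReal (7 * (1 / (k : ℝ) ^ 2)) := by
    intro k
    rcases Nat.eq_zero_or_pos k with hk | hk
    · subst hk
      rw [hY]
      simp
    · have hk' : (0 : ℝ) < k := by exact_mod_cast hk
      have hk1 : (1 : ℝ) ≤ k := by exact_mod_cast hk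
      have h1 : ∀ w, Y k w = ENNReal.ofReal (1 / (k : ℝ) ^ 4) * ENNReal.ofReal
          ((((path w (k ^ 2) 0 : ℤ) : ℝ) - av d μ q l (k ^ 2)) ^ 2) := by
        intro w
        rw [hY, ← ENNReal.ofReal_mul (by positivity)]
        beta_reduce
        congr 1
        field_simp
      have hf : Measurable fun w : Sample d lo κ => ENNReal.ofReal
          ((((path w (k ^ 2) 0 : ℤ) : ℝ) - av d μ q l (k ^ 2)) ^ 2) := by
        have h1 : Measurable fun x : Site d => ENNReal.ofReal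
          ((((x 0 : ℤ) : ℝ) - av d μ q l (k ^ 2)) ^ 2) := measurable_of_countable _
        exact h1.comp (measurable_path (k ^ 2))
      rw [lintegral_congr h1, lintegral_const_mul _ hf]
      refine (mul_le_mul' le_rfl (path_sq hlo hlκ h l (k ^ 2))).trans ?_
      rw [← ENNReal.ofReal_mul (by positivity)]
      apply ENNReal.ofReal_le_ofReal
      push_cast
      rw [div_mul_eq_mul_div, one_mul, mul_one_div, div_le_div_iff₀ (by positivity) (by positivity)]
      have h2 : 1 ≤ (k : ℝ) ^ 2 := one_le_pow₀ hk1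
      nlinarith [sq_nonneg ((k : ℝ) ^ 2)]
  have hs : Summable fun k : ℕ => 7 * (1 / (k : ℝ) ^ 2) :=
    (Real.summable_one_div_nat_pow.2 (by norm_num)).mul_left 7
  have h1 : ∫⁻ w, ∑' k, Y k w ∂law d μ q l ≠ ⊤ := by
    rw [lintegral_tsum fun k => (hm k).aemeasurable]
    exact ne_top_of_le_ne_top hs.tsum_ofReal_ne_top (ENNReal.tsum_le_tsum hY1)
  have h2 : ∀ᵐ w ∂law d μ q l, ∑' k, Y k w < ⊤ :=
    ae_lt_top (Measurable.ennreal_tsum hm) h1
  filter_upwards [h2] with w hw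
  have h3 : Tendsto (fun k => Y k w) atTop (𝓝 0) := ENNReal.tendsto_atTop_zero_of_tsum_ne_top hw.ne
  have h4 := (ENNReal.tendsto_toReal ENNReal.zero_ne_top).comp h3
  rw [ENNReal.toReal_zero] at h4
  have h5 := (Real.continuous_sqrt.tendsto 0).comp h4
  rw [Real.sqrt_zero] at h5
  rw [tendsto_zero_iff_abs_tendsto_zero]
  refine h5.congr fun k => ?_
  simp only [Function.comp, hY]
  rw [ENNReal.toReal_ofReal (sq_nonneg _), Real.sqrt_sq_eq_abs]

theorem path_lim (hlo : 0 ≤ lo) [hκ : Fact (0 < κ)] (hlκ : lo ≤ κ) [hμ : Fact (0 < μ)]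
    (h : 5 * (κ - lo) ≤ μ) (l : ℝ) {L : ℝ}
    (hL : Tendsto (fun n : ℕ => av d μ q l n / n) atTop (𝓝 L)) :
    ∀ᵐ w ∂law d μ q l, Tendsto (fun n : ℕ => ((path w n 0 : ℤ) : ℝ) / n) atTop (𝓝 L) := by
  filter_upwards [path_squares hlo hlκ h l] with w hw
  refine fill (x := fun n => ((path w n 0 : ℤ) : ℝ)) (fun n => ?_) ?_
  · exact jump_abs (cond w (time w (n + 1))) (path w n) (w.2.2 n).2
  · have h1 : Tendsto (fun k : ℕ => k ^ 2) atTop atTop := tendsto_pow_atTop (by norm_num)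
    have h2 := hw.add (hL.comp h1)
    rw [zero_add] at h2
    refine h2.congr fun k => ?_
    simp only [Function.comp]
    push_cast
    rw [← add_div, sub_add_cancel]

theorem atts_gap (hκ : 0 < κ) (l : ℝ) (k : ℕ) :
    MeasurePreserving (fun i : ℕ → ℝ × Att d => (i k).1) (attsLaw d κ l) (expMeasure κ) := by
  have hp := isProbabilityMeasure_expMeasure hκ
  have h1 : MeasurePreserving (Prod.fst : ℝ × Att d → ℝ) ((expMeasure κ).prod (attLaw d l))
    (expMeasure κ) := measurePreserving_fst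
  exact h1.comp (measurePreserving_eval_infinitePi
    (fun _ : ℕ => (expMeasure κ).prod (attLaw d l)) k)

/-- the law of large numbers for the times of the attempts -/
theorem atts_lln (hκ : 0 < κ) (l : ℝ) :
    ∀ᵐ i ∂attsLaw d κ l, Tendsto (fun n : ℕ => tm i n / n) atTop (𝓝 (∫ s, s ∂expMeasure κ)) := by
  have hp := isProbabilityMeasure_expMeasure hκ
  have h0 : ∀ᵐ i : ℕ → ℝ × Att d ∂attsLaw d κ l,
      Tendsto (fun n : ℕ => (∑ k ∈ Finset.range n, (i k).1) / n) atTop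
        (𝓝 (∫ i : ℕ → ℝ × Att d, (i 0).1 ∂attsLaw d κ l)) := by
    refine strong_law_ae_real (fun k (i : ℕ → ℝ × Att d) => (i k).1) ?_ ?_ ?_
    · exact (atts_gap hκ l 0).integrable_comp_of_integrable (exp_integrable hκ)
    · intro i j hij
      exact (iIndepFun_infinitePi (P := fun _ : ℕ => (expMeasure κ).prod (attLaw d l))
        (X := fun _ (x : ℝ × Att d) => x.1) (fun _ => by fun_prop)).indepFun hij
    · intro k
      have g1 := atts_gap (d := d) hκ l k
      have g2 := atts_gap (d := d) hκ l 0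
      exact ⟨g1.measurable.aemeasurable, g2.measurable.aemeasurable, g1.map_eq.trans g2.map_eq.symm⟩
  have h1 : ∫ i : ℕ → ℝ × Att d, (i 0).1 ∂attsLaw d κ l = ∫ s, s ∂expMeasure κ := by
    have h2 := atts_gap (d := d) hκ l 0
    rw [← h2.map_eq, integral_map h2.measurable.aemeasurable (by fun_prop)]
  rw [h1] at h0
  exact h0

/-- existence of the speed -/
theorem is_speed (hlo : 0 ≤ lo) [hκ : Fact (0 < κ)] (hlκ : lo ≤ κ) [hμ : Fact (0 < μ)]
    (h : 5 * (κ - lo) ≤ μ) (l : ℝ) {L : ℝ}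
    (hL : Tendsto (fun n : ℕ => av d μ q l n / n) atTop (𝓝 L)) :
    IsSpeed d μ q l (L / ∫ s, s ∂expMeasure κ) := by
  have hp := isProbabilityMeasure_expMeasure hκ.out
  have hp' := isProbabilityMeasure_expMeasure hμ.out
  have h0 : law d μ q l = (envLaw d q).prod ((clksLaw d μ q).prod (attsLaw d κ l)) := rfl
  have hsnd : ∀ {P : (ℕ → ℝ × Att d) → Prop}, (∀ᵐ i ∂attsLaw d κ l, P i) →
      ∀ᵐ w ∂law d μ q l, P w.2.2 := by
    intro P hP
    rw [h0]
    have h1 : ∀ᵐ t ∂(clksLaw d μ q).prod (attsLaw d κ l), P t.2 :=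
      Measure.quasiMeasurePreserving_snd.ae hP
    exact Measure.quasiMeasurePreserving_snd.ae h1
  unfold IsSpeed
  filter_upwards [path_lim hlo hlκ h l hL, hsnd (atts_lln hκ.out l), hsnd (atts_pos hκ.out l)]
    with w h1 h2 h3
  refine to_time (x := fun n => ((path w n 0 : ℤ) : ℝ)) (T := time w) ?_ ?_ (exp_mean_pos hκ.out)
    h2 h1
  · simp [time]
  · refine strictMono_nat_of_lt_succ fun n => ?_
    have h4 : time w (n + 1) = time w n + (w.2.2 n).1 := Finset.sum_range_succ _ _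
    rw [h4]
    linarith [h3 n]

/-- MAIN THEOREM: for `5 (κ - lo) ≤ μ` the speed exists and is strictly increasing in the bias -/
theorem main (hlo : 0 ≤ lo) (hlκ : lo ≤ κ) (hκ : 0 < κ) (hμ : 0 < μ) (h : 5 * (κ - lo) ≤ μ)
    (hq : 0 < mean q) :
    ∃ v : ℝ → ℝ, (∀ l, 0 ≤ l → IsSpeed d μ q l (v l)) ∧ StrictMonoOn v (Set.Ici 0) := by
  have fκ : Fact (0 < κ) := ⟨hκ⟩
  have fμ : Fact (0 < μ) := ⟨hμ⟩
  have hc := exp_mean_pos hκ
  choose L hL using fun l => av_lim (d := d) (q := q) hlo hκ hlκ hμ h l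
  refine ⟨fun l => L l / ∫ s, s ∂expMeasure κ, fun l _ => is_speed hlo hlκ h l (hL l), ?_⟩
  intro l hl l' _ hll
  have hl0 : (0 : ℝ) ≤ l := hl
  beta_reduce
  rw [div_lt_div_iff_of_pos_right hc]
  have hg := gain_pos (d := d) (q := q) hlo hκ hlκ hμ h hl0 hll hq
  have h1 := (hL l').sub (hL l)
  have h2 : gain d lo κ μ q l l' ≤ L l' - L l := by
    refine ge_of_tendsto h1 ?_
    filter_upwards [eventually_gt_atTop 0] with n hn
    have hn' : (0 : ℝ) < n := by exact_mod_cast hn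
    have h3 := Bf_Φ (q := q) (d := d) hlo hκ hlκ hμ h hl0 hll.le n 0
    have h4 : Bf μ q l 0 (fun η : Env d lo κ => Φ μ q l' n η - Φ μ q l n η) =
        av d μ q l' n - av d μ q l n :=
      integral_sub (Good.Φ hκ hμ l' n).integrable (Good.Φ hκ hμ l n).integrable
    rw [h4] at h3
    rw [← sub_div, le_div_iff₀ hn']
    linarith
  linarith

end Pool.Agent.NVB
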