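import Pool.Agent.NVB.Memory
import Pool.Agent.NVB.Disp

/-!
# The walk at the times of the attempts is a Markov chain
-/

set_option autoImplicit false

namespace Pool.Agent.NVB

open MeasureTheory ProbabilityTheory Filter Topology
open scoped Classical ENNReal

/-- a product of product measures -/
theorem pair_law {ι A B : Type} [MeasurableSpace A] [MeasurableSpace B] (α : ι → Measure A)
    (β : ι → Measure B) [∀ i, IsProbabilityMeasure (α i)] [∀ i, IsProbabilityMeasure (β i)] :
    ((Measure.infinitePi α).prod (Measure.infinitePi β)).map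
      (fun t : (ι → A) × (ι → B) => fun i => (t.1 i, t.2 i)) =
      Measure.infinitePi fun i => (α i).prod (β i) := by
  have hm : Measurable fun t : (ι → A) × (ι → B) => fun i => (t.1 i, t.2 i) :=
    measurable_pi_lambda _ fun i => ((measurable_pi_apply i).comp measurable_fst).prodMk
      ((measurable_pi_apply i).comp measurable_snd)
  apply Measure.eq_infinitePi
  intro s t ht
  rw [Measure.map_apply hm (MeasurableSet.pi s.countable_toSet fun i _ => ht i),
    Measure.prod_apply (hm (MeasurableSet.pi s.countable_toSet fun i _ => ht i))]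
  have h1 : ∀ a : ι → A, Measure.infinitePi β (Prod.mk a ⁻¹' ((fun t : (ι → A) × (ι → B) =>
      fun i => (t.1 i, t.2 i)) ⁻¹' Set.pi s t)) = ∏ i ∈ s, β i (Prod.mk (a i) ⁻¹' t i) := by
    intro a
    rw [← Measure.infinitePi_pi _ fun i _ => measurable_prodMk_left (ht i)]
    rfl
  rw [lintegral_congr h1]
  have h2 : ∀ i, Measurable fun x => β i (Prod.mk x ⁻¹' t i) := fun i =>
    measurable_measure_prodMk_left (ht i)
  rw [lintegral_prod_eq_prod_lintegral_of_indepFun s
    (fun i (a : ι → A) => β i (Prod.mk (a i) ⁻¹' t i))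
    (iIndepFun_infinitePi (P := α) (X := fun i x => β i (Prod.mk x ⁻¹' t i)) h2)
    fun i => (h2 i).comp (measurable_pi_apply i)]
  refine Finset.prod_congr rfl fun i _ => ?_
  rw [Measure.prod_apply (ht i)]
  have h3 := measurePreserving_eval_infinitePi α i
  exact h3.lintegral_comp (h2 i)

variable {d : ℕ} {lo κ : ℝ}

/-- the values at time `t` -/
noncomputable def vals (η : Env d lo κ) (C : Edge d → Clock lo κ) (t : ℝ) : Env d lo κ :=
  fun e => val (η e) (C e) t

/-- the clocks left at time `t` -/
noncomputable def sfts (C : Edge d → Clock lo κ) (t : ℝ) : Edge d → Clock lo κ :=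
  fun e => sft (C e) t

/-- the time of an attempt -/
noncomputable def tm (i : ℕ → ℝ × Att d) (n : ℕ) : ℝ := ∑ k ∈ Finset.range n, (i k).1

/-- the position after `n` attempts -/
noncomputable def pth (η : Env d lo κ) (C : Edge d → Clock lo κ) (i : ℕ → ℝ × Att d)
    (x : Site d) : ℕ → Site d
  | 0 => x
  | n + 1 => jump (vals η C (tm i (n + 1))) (pth η C i x n) (i n).2

theorem path_pth (w : Sample d lo κ) (n : ℕ) : path w n = pth w.1 w.2.1 w.2.2 0 n := by
  induction n with
  | zero => rfl
  | succ n ih =>
    have h1 : path w (n + 1) = jump (cond w (time w (n + 1))) (path w n) (w.2.2 n).2 := rfl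
    rw [h1, ih]
    rfl

/-- the state after `n` attempts -/
noncomputable def St (η : Env d lo κ) (C : Edge d → Clock lo κ) (i : ℕ → ℝ × Att d)
    (x : Site d) (n : ℕ) : Site d × Env d lo κ := (pth η C i x n, vals η C (tm i n))

theorem tm_nonneg {i : ℕ → ℝ × Att d} (hi : ∀ k, 0 ≤ (i k).1) (n : ℕ) : 0 ≤ tm i n :=
  Finset.sum_nonneg fun k _ => hi k

theorem tm_succ' (i : ℕ → ℝ × Att d) (n : ℕ) :
    tm i (n + 1) = (i 0).1 + tm (fun k => i (k + 1)) n := by
  unfold tm
  rw [Finset.sum_range_succ', add_comm]

theorem vals_add {C : Edge d → Clock lo κ} (hC : ∀ e t, ∃ n, t < ringTime (C e) (n + 1)) (s : ℝ)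
    {t : ℝ} (ht : 0 ≤ t) (η : Env d lo κ) :
    vals η C (s + t) = vals (vals η C s) (sfts C s) t := by
  funext e
  exact val_add (hC e) s ht (η e)

theorem pth_succ {C : Edge d → Clock lo κ} (hC : ∀ e t, ∃ n, t < ringTime (C e) (n + 1))
    {i : ℕ → ℝ × Att d} (hi : ∀ k, 0 ≤ (i k).1) (η : Env d lo κ) (x : Site d) (n : ℕ) :
    pth η C i x (n + 1) = pth (vals η C (i 0).1) (sfts C (i 0).1) (fun k => i (k + 1))
      (jump (vals η C (i 0).1) x (i 0).2) n := by
  induction n with
  | zero =>
    change jump (vals η C (tm i 1)) x (i 0).2 = jump (vals η C (i 0).1) x (i 0).2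
    have : tm i 1 = (i 0).1 := by simp [tm]
    rw [this]
  | succ n ih =>
    have h1 : pth η C i x (n + 1 + 1) = jump (vals η C (tm i (n + 1 + 1))) (pth η C i x (n + 1))
      (i (n + 1)).2 := rfl
    rw [h1, ih, tm_succ', vals_add hC _ (tm_nonneg (fun k => hi (k + 1)) _)]
    rfl

theorem St_succ {C : Edge d → Clock lo κ} (hC : ∀ e t, ∃ n, t < ringTime (C e) (n + 1))
    {i : ℕ → ℝ × Att d} (hi : ∀ k, 0 ≤ (i k).1) (η : Env d lo κ) (x : Site d) (n : ℕ) :
    St η C i x (n + 1) = St (vals η C (i 0).1) (sfts C (i 0).1) (fun k => i (k + 1))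
      (jump (vals η C (i 0).1) x (i 0).2) n := by
  unfold St
  rw [pth_succ hC hi, tm_succ', vals_add hC _ (tm_nonneg (fun k => hi (k + 1)) _)]

/-! ### measurability -/

theorem measurable_jump :
    Measurable fun t : Env d lo κ × Site d × Att d => jump t.1 t.2.1 t.2.2 := by
  have h2 : Measurable fun t : Edge d × Env d lo κ => (t.2 t.1 : ℝ) :=
    measurable_from_prod_countable_right fun e => by
      change Measurable fun η : Env d lo κ => (η e : ℝ)
      fun_prop
  have h3 : Measurable fun t : Site d × Dir d => edge t.1 t.2 := measurable_of_countable _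
  have h4 : Measurable fun t : Site d × Dir d => t.1 + vec t.2 := measurable_of_countable _
  have h5 : Measurable fun t : Env d lo κ × Site d × Att d => (t.2.1, t.2.2.1) :=
    (measurable_fst.comp measurable_snd).prodMk
      (measurable_fst.comp (measurable_snd.comp measurable_snd))
  have h6 : Measurable fun t : Env d lo κ × Site d × Att d =>
      ((t.1 (edge t.2.1 t.2.2.1) : Set.Icc lo κ) : ℝ) :=
    h2.comp ((h3.comp h5).prodMk measurable_fst)
  refine Measurable.ite (measurableSet_lt ?_ h6) (h4.comp h5) (measurable_fst.comp measurable_snd)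
  exact (measurable_snd.comp (measurable_snd.comp measurable_snd)).const_mul κ

theorem measurable_vals :
    Measurable fun t : Env d lo κ × (Edge d → Clock lo κ) × ℝ => vals t.1 t.2.1 t.2.2 := by
  refine measurable_pi_lambda _ fun e => ?_
  have h1 : Measurable fun t : Env d lo κ × (Edge d → Clock lo κ) × ℝ => (t.1 e, t.2.1 e, t.2.2) :=
    ((measurable_pi_apply e).comp measurable_fst).prodMk
      (((measurable_pi_apply e).comp (measurable_fst.comp measurable_snd)).prodMk
        (measurable_snd.comp measurable_snd))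
  exact measurable_val.comp h1

theorem measurable_sfts :
    Measurable fun t : (Edge d → Clock lo κ) × ℝ => sfts t.1 t.2 := by
  refine measurable_pi_lambda _ fun e => ?_
  have h1 : Measurable fun t : (Edge d → Clock lo κ) × ℝ => (t.1 e, t.2) :=
    ((measurable_pi_apply e).comp measurable_fst).prodMk measurable_snd
  exact measurable_sft.comp h1

theorem measurable_tm (n : ℕ) : Measurable fun i : ℕ → ℝ × Att d => tm i n := by
  unfold tm
  fun_prop

/-- the parameters of a walk: environment, clocks, waiting times and attempts, position -/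
abbrev Par (d : ℕ) (lo κ : ℝ) : Type :=
  Env d lo κ × (Edge d → Clock lo κ) × (ℕ → ℝ × Att d) × Site d

theorem measurable_vals_tm (n : ℕ) :
    Measurable fun t : Par d lo κ => vals t.1 t.2.1 (tm t.2.2.1 n) := by
  have h1 : Measurable fun t : Par d lo κ => (t.1, t.2.1, tm t.2.2.1 n) :=
    measurable_fst.prodMk ((measurable_fst.comp measurable_snd).prodMk
      ((measurable_tm n).comp (measurable_fst.comp (measurable_snd.comp measurable_snd))))
  exact measurable_vals.comp h1

theorem measurable_pth (n : ℕ) :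
    Measurable fun t : Par d lo κ => pth t.1 t.2.1 t.2.2.1 t.2.2.2 n := by
  induction n with
  | zero => exact measurable_snd.comp (measurable_snd.comp measurable_snd)
  | succ n ih =>
    have h1 : Measurable fun t : Par d lo κ => (t.2.2.1 n).2 :=
      measurable_snd.comp ((measurable_pi_apply n).comp
        (measurable_fst.comp (measurable_snd.comp measurable_snd)))
    have h2 : Measurable fun t : Par d lo κ => (vals t.1 t.2.1 (tm t.2.2.1 (n + 1)),
      pth t.1 t.2.1 t.2.2.1 t.2.2.2 n, (t.2.2.1 n).2) :=
      (measurable_vals_tm (n + 1)).prodMk (ih.prodMk h1)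
    exact measurable_jump.comp h2

theorem measurable_St (n : ℕ) :
    Measurable fun t : Par d lo κ => St t.1 t.2.1 t.2.2.1 t.2.2.2 n :=
  (measurable_pth n).prodMk (measurable_vals_tm n)

section law

variable {μ : ℝ} {q : Measure (Set.Icc lo κ)} [IsProbabilityMeasure q]

/-- the law of the clocks of the edges -/
noncomputable abbrev clksLaw (d : ℕ) (μ : ℝ) (q : Measure (Set.Icc lo κ)) :
    Measure (Edge d → Clock lo κ) :=
  Measure.infinitePi fun _ : Edge d => Measure.infinitePi fun _ : ℕ => (expMeasure μ).prod q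

theorem env_law (hμ : 0 < μ) {s : ℝ} (hs : 0 ≤ s) (η : Env d lo κ) :
    (clksLaw d μ q).map (fun C => (vals η C s, sfts C s)) =
      (Measure.infinitePi fun e : Edge d => keepLaw μ q s (η e)).prod (clksLaw d μ q) := by
  have hp := isProbabilityMeasure_expMeasure hμ
  have hk : ∀ e : Edge d, IsProbabilityMeasure (keepLaw μ q s (η e)) :=
    fun e => keepLaw_prob hμ hs (η e)
  have m1 : ∀ e : Edge d, Measurable fun c : Clock lo κ => (val (η e) c s, sft c s) := by
    intro e
    have g0 : Measurable fun c : Clock lo κ => (η e, c, s) :=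
      measurable_const.prodMk (measurable_id.prodMk measurable_const)
    exact measurable_vs.comp g0
  have h1 : (clksLaw d μ q).map (fun C e => (val (η e) (C e) s, sft (C e) s)) =
      Measure.infinitePi fun e : Edge d => (keepLaw μ q s (η e)).prod (clkLaw μ q) := by
    have h2 := Measure.infinitePi_map_pi (fun _ : Edge d => clkLaw μ q) m1
    rw [h2]
    congr 1
    funext e
    exact keep_law hμ hs (η e)
  have m2 : Measurable fun t : (Env d lo κ) × (Edge d → Clock lo κ) => fun e => (t.1 e, t.2 e) :=
    measurable_pi_lambda _ fun i => ((measurable_pi_apply i).comp measurable_fst).prodMk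
      ((measurable_pi_apply i).comp measurable_snd)
  have m3 : Measurable fun W : Edge d → Set.Icc lo κ × Clock lo κ =>
      ((fun e => (W e).1, fun e => (W e).2) : Env d lo κ × (Edge d → Clock lo κ)) :=
    (measurable_pi_lambda _ fun e => measurable_fst.comp (measurable_pi_apply e)).prodMk
      (measurable_pi_lambda _ fun e => measurable_snd.comp (measurable_pi_apply e))
  have m4 : Measurable fun C : Edge d → Clock lo κ => fun e => (val (η e) (C e) s, sft (C e) s) :=
    measurable_pi_lambda _ fun e => (m1 e).comp (measurable_pi_apply e)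
  have h3 := pair_law (fun e : Edge d => keepLaw μ q s (η e)) (fun _ : Edge d => clkLaw μ q)
  have h4 := congrArg (fun m => Measure.map (fun W : Edge d → Set.Icc lo κ × Clock lo κ =>
      ((fun e => (W e).1, fun e => (W e).2) : Env d lo κ × (Edge d → Clock lo κ))) m)
      (h1.trans h3.symm)
  beta_reduce at h4
  rw [Measure.map_map m3 m4, Measure.map_map m3 m2] at h4
  have h5 : ((fun W : Edge d → Set.Icc lo κ × Clock lo κ =>
      ((fun e => (W e).1, fun e => (W e).2) : Env d lo κ × (Edge d → Clock lo κ))) ∘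
      fun t : (Env d lo κ) × (Edge d → Clock lo κ) => fun e => (t.1 e, t.2 e)) = id := rfl
  rw [h5, Measure.map_id] at h4
  exact h4

theorem ref_law (hμ : 0 < μ) {s : ℝ} (hs : 0 ≤ s) (η : Env d lo κ) :
    (Measure.infinitePi fun _ : Edge d => (expMeasure μ).prod q).map (fun C => ref (s, C) η) =
      Measure.infinitePi fun e : Edge d => keepLaw μ q s (η e) := by
  have hp := isProbabilityMeasure_expMeasure hμ
  have m1 : ∀ v : Set.Icc lo κ, Measurable fun c : ℝ × Set.Icc lo κ => if c.1 ≤ s then c.2 else v :=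
    fun v => Measurable.ite (measurableSet_le measurable_fst measurable_const) measurable_snd
      measurable_const
  have h1 := Measure.infinitePi_map_pi (fun _ : Edge d => (expMeasure μ).prod q)
    (f := fun e c => if c.1 ≤ s then c.2 else η e) fun e => m1 (η e)
  refine h1.trans ?_
  congr 1
  funext e
  ext E hE
  rw [Measure.map_apply (m1 (η e)) hE]
  have h2 : (fun c : ℝ × Set.Icc lo κ => if c.1 ≤ s then c.2 else η e) ⁻¹' E =
      (Set.Iic s ×ˢ E) ∪ (Set.Ioi s ×ˢ (if η e ∈ E then Set.univ else ∅)) := by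
    ext c
    simp only [Set.mem_preimage, Set.mem_union, Set.mem_prod, Set.mem_Iic, Set.mem_Ioi]
    by_cases hc : c.1 ≤ s
    · rw [if_pos hc]
      constructor
      · intro h
        exact Or.inl ⟨hc, h⟩
      · rintro (h | h)
        · exact h.2
        · exact absurd h.1 (not_lt.2 hc)
    · rw [if_neg hc]
      constructor
      · intro h
        right
        rw [if_pos h]
        exact ⟨not_le.1 hc, Set.mem_univ _⟩
      · rintro (h | h)
        · exact absurd h.1 hc
        · by_contra h3
          rw [if_neg h3] at h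
          exact h.2
  have h3 : Disjoint ((Set.Iic s : Set ℝ) ×ˢ E)
      ((Set.Ioi s : Set ℝ) ×ˢ (if η e ∈ E then Set.univ else (∅ : Set (Set.Icc lo κ)))) := by
    rw [Set.disjoint_left]
    rintro c ⟨h4, _⟩ ⟨h5, _⟩
    exact not_lt.2 (Set.mem_Iic.1 h4) (Set.mem_Ioi.1 h5)
  have h4 : MeasurableSet (if η e ∈ E then Set.univ else (∅ : Set (Set.Icc lo κ))) := by
    split_ifs
    · exact MeasurableSet.univ
    · exact MeasurableSet.empty
  rw [h2, measure_union h3 (measurableSet_Ioi.prod h4), Measure.prod_prod, Measure.prod_prod,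
    exp_Iic hμ hs, exp_Ioi hμ hs]
  unfold keepLaw
  rw [Measure.add_apply, Measure.smul_apply, Measure.smul_apply, Measure.dirac_apply' _ hE,
    add_comm]
  congr 1
  rw [smul_eq_mul]
  congr 1
  by_cases h5 : η e ∈ E
  · rw [if_pos h5, Set.indicator_of_mem h5]
    simp
  · rw [if_neg h5, Set.indicator_of_notMem h5]
    simp

theorem clks_good (hμ : 0 < μ) :
    ∀ᵐ C ∂clksLaw d μ q, ∀ e t, ∃ n, t < ringTime (C e) (n + 1) := by
  have hp := isProbabilityMeasure_expMeasure hμ
  rw [ae_all_iff]
  intro e
  have h1 := measurePreserving_eval_infinitePi (fun _ : Edge d => clkLaw μ q) e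
  exact h1.quasiMeasurePreserving.ae (clk_good hμ)

theorem clks_pos (hμ : 0 < μ) : ∀ᵐ C ∂clksLaw d μ q, ∀ e, 0 < (C e 0).1 := by
  have hp := isProbabilityMeasure_expMeasure hμ
  rw [ae_all_iff]
  intro e
  have h1 := measurePreserving_eval_infinitePi (fun _ : Edge d => clkLaw μ q) e
  have h2 : MeasurePreserving (fun c : Clock lo κ => (c 0).1) (clkLaw μ q) (expMeasure μ) :=
    (measurePreserving_fst (μ := expMeasure μ) (ν := q)).comp
      (measurePreserving_eval_infinitePi (fun _ : ℕ => (expMeasure μ).prod q) 0)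
  exact (h2.comp h1).quasiMeasurePreserving.ae (exp_ae_pos hμ)

theorem vals_zero {C : Edge d → Clock lo κ} (hC : ∀ e, 0 < (C e 0).1) (η : Env d lo κ) :
    vals η C 0 = η := by
  funext e
  unfold vals val
  rw [if_pos]
  unfold rings
  rw [Nat.sInf_eq_zero]
  left
  change (0 : ℝ) < ringTime (C e) (0 + 1)
  simpa [ringTime] using hC e

/-- the law of the waiting times and attempts -/
noncomputable abbrev attsLaw (d : ℕ) (κ l : ℝ) : Measure (ℕ → ℝ × Att d) :=
  Measure.infinitePi fun _ : ℕ => (expMeasure κ).prod (attLaw d l)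

theorem atts_pos (hκ : 0 < κ) (l : ℝ) : ∀ᵐ i ∂attsLaw d κ l, ∀ k, 0 < (i k).1 := by
  have hp := isProbabilityMeasure_expMeasure hκ
  rw [ae_all_iff]
  intro k
  have h1 := measurePreserving_eval_infinitePi (fun _ : ℕ => (expMeasure κ).prod (attLaw d l)) k
  have h2 : MeasurePreserving (Prod.fst : ℝ × Att d → ℝ) ((expMeasure κ).prod (attLaw d l))
    (expMeasure κ) := measurePreserving_fst
  exact (h2.comp h1).quasiMeasurePreserving.ae (exp_ae_pos hκ)

theorem lint_split {α : Type} [MeasurableSpace α] (ν : Measure α) [IsProbabilityMeasure ν]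
    {f : (ℕ → α) → ℝ≥0∞} (hf : Measurable f) :
    ∫⁻ i, f i ∂(Measure.infinitePi fun _ : ℕ => ν) =
      ∫⁻ a, ∫⁻ i, f (cns a i) ∂(Measure.infinitePi fun _ : ℕ => ν) ∂ν := by
  have h0 : (ν.prod (Measure.infinitePi fun _ : ℕ => ν)).map
      (fun t : α × (ℕ → α) => (cns t.1 t.2 : ℕ → α)) = Measure.infinitePi fun _ : ℕ => ν :=
    seq_split _
  have hm : Measurable fun t : α × (ℕ → α) => (cns t.1 t.2 : ℕ → α) := measurable_cns
  have h1 : ∫⁻ i, f i ∂(Measure.infinitePi fun _ : ℕ => ν) = ∫⁻ t : α × (ℕ → α), f (cns t.1 t.2)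
      ∂ν.prod (Measure.infinitePi fun _ : ℕ => ν) := by
    rw [← lintegral_map hf hm, h0]
  have hfm : Measurable fun t : α × (ℕ → α) => f (cns t.1 t.2) := hf.comp hm
  rw [h1, lintegral_prod _ hfm.aemeasurable]

/-- the expectation of `F` after `n` steps of the chain -/
noncomputable def chE (μ : ℝ) (q : Measure (Set.Icc lo κ)) (l : ℝ)
    (F : Site d × Env d lo κ → ℝ≥0∞) (n : ℕ) (s : Site d × Env d lo κ) : ℝ≥0∞ :=
  ∫⁻ i, F (run s i n) ∂seqLaw d μ q l

theorem measurable_chE [Fact (0 < κ)] [Fact (0 < μ)] (l : ℝ) {F : Site d × Env d lo κ → ℝ≥0∞}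
    (hF : Measurable F) (n : ℕ) : Measurable (chE μ q l F n) := by
  have h1 : Measurable fun t : (Site d × Env d lo κ) × (ℕ → Gap d lo κ × Att d) =>
      F (run t.1 t.2 n) := hF.comp (measurable_run n)
  exact h1.lintegral_prod_right'

/-- one step of the chain -/
theorem chE_succ [hκ : Fact (0 < κ)] [hμ : Fact (0 < μ)] (l : ℝ)
    {F : Site d × Env d lo κ → ℝ≥0∞} (hF : Measurable F) (n : ℕ) (x : Site d) (η : Env d lo κ) :
    chE μ q l F (n + 1) (x, η) = ∫⁻ i, ∫⁻ C,
      chE μ q l F n (jump (ref (i.1, C) η) x i.2, ref (i.1, C) η)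
      ∂(Measure.infinitePi fun _ : Edge d => (expMeasure μ).prod q)
      ∂(expMeasure κ).prod (attLaw d l) := by
  have hp := isProbabilityMeasure_expMeasure hκ.out
  have hp' := isProbabilityMeasure_expMeasure hμ.out
  have hg := gap_prob (d := d) (q := q) hκ.out hμ.out
  have hm := measurable_chE (d := d) (μ := μ) (q := q) l hF n
  have m1 : Measurable fun i : ℕ → Gap d lo κ × Att d => F (run (x, η) i (n + 1)) :=
    hF.comp ((measurable_run (n + 1)).comp (measurable_const.prodMk measurable_id))
  have h1 : chE μ q l F (n + 1) (x, η) = ∫⁻ a : Gap d lo κ × Att d,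
      chE μ q l F n (stp (x, η) a) ∂inpLaw d μ q l := by
    unfold chE
    rw [lint_split _ m1]
    refine lintegral_congr fun a => lintegral_congr fun i => ?_
    rw [run_succ]
    rfl
  have m2 : Measurable fun a : Gap d lo κ × Att d => chE μ q l F n (stp (x, η) a) :=
    hm.comp (measurable_stp.comp (measurable_const.prodMk measurable_id))
  have m3 : Measurable fun t : (ℝ × (Edge d → ℝ × Set.Icc lo κ)) × Att d =>
      chE μ q l F n (stp (x, η) t) := m2
  have h2 : ∫⁻ a : Gap d lo κ × Att d, chE μ q l F n (stp (x, η) a) ∂inpLaw d μ q l =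
      ∫⁻ s, ∫⁻ C, ∫⁻ a, chE μ q l F n (stp (x, η) ((s, C), a)) ∂attLaw d l
        ∂(Measure.infinitePi fun _ : Edge d => (expMeasure μ).prod q) ∂expMeasure κ := by
    rw [lintegral_prod _ m2.aemeasurable]
    unfold gapLaw
    rw [lintegral_prod _ m3.lintegral_prod_right'.aemeasurable]
  have m4 : Measurable fun t : (ℝ × Att d) × (Edge d → ℝ × Set.Icc lo κ) =>
      chE μ q l F n (stp (x, η) ((t.1.1, t.2), t.1.2)) := by
    have g : Measurable fun t : (ℝ × Att d) × (Edge d → ℝ × Set.Icc lo κ) =>
        (((t.1.1, t.2), t.1.2) : Gap d lo κ × Att d) :=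
      ((measurable_fst.comp measurable_fst).prodMk measurable_snd).prodMk
        (measurable_snd.comp measurable_fst)
    exact m2.comp g
  rw [h1, h2]
  have h3 : ∫⁻ i : ℝ × Att d, ∫⁻ C, chE μ q l F n (jump (ref (i.1, C) η) x i.2, ref (i.1, C) η)
      ∂(Measure.infinitePi fun _ : Edge d => (expMeasure μ).prod q)
      ∂(expMeasure κ).prod (attLaw d l) = ∫⁻ s, ∫⁻ a, ∫⁻ C,
        chE μ q l F n (stp (x, η) ((s, C), a))
      ∂(Measure.infinitePi fun _ : Edge d => (expMeasure μ).prod q) ∂attLaw d l ∂expMeasure κ :=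
    lintegral_prod _ m4.lintegral_prod_right'.aemeasurable
  rw [h3]
  refine lintegral_congr fun s => ?_
  refine lintegral_lintegral_swap ?_
  have m5 : Measurable fun t : (Edge d → ℝ × Set.Icc lo κ) × Att d =>
      chE μ q l F n (stp (x, η) ((s, t.1), t.2)) := by
    have g : Measurable fun t : (Edge d → ℝ × Set.Icc lo κ) × Att d =>
        (((s, t.1), t.2) : Gap d lo κ × Att d) :=
      (measurable_const.prodMk measurable_fst).prodMk measurable_snd
    exact m2.comp g
  exact m5.aemeasurable

/-- THE LINK: the state of the walk after `n` attempts has the same law as the chain -/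
theorem link [hκ : Fact (0 < κ)] [hμ : Fact (0 < μ)] (l : ℝ)
    {F : Site d × Env d lo κ → ℝ≥0∞} (hF : Measurable F) (n : ℕ) (x : Site d) (η : Env d lo κ) :
    ∫⁻ C, ∫⁻ i, F (St η C i x n) ∂attsLaw d κ l ∂clksLaw d μ q = chE μ q l F n (x, η) := by
  have hp := isProbabilityMeasure_expMeasure hκ.out
  have hp' := isProbabilityMeasure_expMeasure hμ.out
  induction n generalizing x η with
  | zero =>
    have h1 : ∫⁻ C, ∫⁻ i, F (St η C i x 0) ∂attsLaw d κ l ∂clksLaw d μ q =
        ∫⁻ _C, F (x, η) ∂clksLaw d μ q := by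
      refine lintegral_congr_ae ?_
      filter_upwards [clks_pos hμ.out] with C hC
      have h2 : ∀ i : ℕ → ℝ × Att d, F (St η C i x 0) = F (x, η) := by
        intro i
        unfold St
        have : tm i 0 = 0 := by simp [tm]
        rw [this, vals_zero hC]
        rfl
      rw [lintegral_congr h2]
      simp
    rw [h1]
    unfold chE run
    simp
  | succ n ih =>
    have g1 := (measurable_St (d := d) (lo := lo) (κ := κ) (n + 1))
    have g2 := (measurable_St (d := d) (lo := lo) (κ := κ) n)
    have m0 : ∀ C, Measurable fun i : ℕ → ℝ × Att d => F (St η C i x (n + 1)) := by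
      intro C
      have g : Measurable fun i : ℕ → ℝ × Att d => ((η, C, i, x) : Par d lo κ) :=
        measurable_const.prodMk (measurable_const.prodMk (measurable_id.prodMk measurable_const))
      exact hF.comp (g1.comp g)
    have h1 : ∫⁻ C, ∫⁻ i, F (St η C i x (n + 1)) ∂attsLaw d κ l ∂clksLaw d μ q =
        ∫⁻ C, ∫⁻ a, ∫⁻ i, F (St (vals η C a.1) (sfts C a.1) i (jump (vals η C a.1) x a.2) n)
          ∂attsLaw d κ l ∂(expMeasure κ).prod (attLaw d l) ∂clksLaw d μ q := by
      refine lintegral_congr_ae ?_
      filter_upwards [clks_good hμ.out] with C hC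
      rw [lint_split _ (m0 C)]
      have h2 : ∀ᵐ a : ℝ × Att d ∂(expMeasure κ).prod (attLaw d l), 0 < a.1 :=
        Measure.quasiMeasurePreserving_fst.ae (exp_ae_pos hκ.out)
      refine lintegral_congr_ae ?_
      filter_upwards [h2] with a ha
      refine lintegral_congr_ae ?_
      filter_upwards [atts_pos hκ.out l] with i hi
      have hi' : ∀ k, 0 ≤ ((cns a i : ℕ → ℝ × Att d) k).1 := by
        intro k
        cases k with
        | zero => exact ha.le
        | succ k => exact (hi k).le
      rw [St_succ hC hi']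
      rfl
    have mv : Measurable fun t : (Edge d → Clock lo κ) × (ℝ × Att d) => vals η t.1 t.2.1 := by
      have g : Measurable fun t : (Edge d → Clock lo κ) × (ℝ × Att d) => (η, t.1, t.2.1) :=
        measurable_const.prodMk (measurable_fst.prodMk (measurable_fst.comp measurable_snd))
      exact measurable_vals.comp g
    have ms : Measurable fun t : (Edge d → Clock lo κ) × (ℝ × Att d) => sfts t.1 t.2.1 := by
      have g : Measurable fun t : (Edge d → Clock lo κ) × (ℝ × Att d) => (t.1, t.2.1) :=
        measurable_fst.prodMk (measurable_fst.comp measurable_snd)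
      exact measurable_sfts.comp g
    have mj : Measurable fun t : (Edge d → Clock lo κ) × (ℝ × Att d) =>
        jump (vals η t.1 t.2.1) x t.2.2 :=
      measurable_jump.comp (mv.prodMk (measurable_const.prodMk
        (measurable_snd.comp measurable_snd)))
    have m1 : Measurable fun t : ((Edge d → Clock lo κ) × (ℝ × Att d)) × (ℕ → ℝ × Att d) =>
        F (St (vals η t.1.1 t.1.2.1) (sfts t.1.1 t.1.2.1) t.2
          (jump (vals η t.1.1 t.1.2.1) x t.1.2.2) n) := by
      have g : Measurable fun t : ((Edge d → Clock lo κ) × (ℝ × Att d)) × (ℕ → ℝ × Att d) =>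
          ((vals η t.1.1 t.1.2.1, sfts t.1.1 t.1.2.1, t.2,
            jump (vals η t.1.1 t.1.2.1) x t.1.2.2) : Par d lo κ) :=
        (mv.comp measurable_fst).prodMk ((ms.comp measurable_fst).prodMk
          (measurable_snd.prodMk (mj.comp measurable_fst)))
      exact hF.comp (g2.comp g)
    rw [h1, lintegral_lintegral_swap m1.lintegral_prod_right'.aemeasurable, chE_succ l hF]
    refine lintegral_congr_ae ?_
    have h2 : ∀ᵐ a : ℝ × Att d ∂(expMeasure κ).prod (attLaw d l), 0 < a.1 :=
      Measure.quasiMeasurePreserving_fst.ae (exp_ae_pos hκ.out)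
    filter_upwards [h2] with a ha
    have hk : ∀ e : Edge d, IsProbabilityMeasure (keepLaw μ q a.1 (η e)) :=
      fun e => keepLaw_prob hμ.out ha.le (η e)
    have mP : Measurable fun t : (Env d lo κ × (Edge d → Clock lo κ)) × (ℕ → ℝ × Att d) =>
        F (St t.1.1 t.1.2 t.2 (jump t.1.1 x a.2) n) := by
      have gj : Measurable fun t : (Env d lo κ × (Edge d → Clock lo κ)) × (ℕ → ℝ × Att d) =>
          jump t.1.1 x a.2 :=
        measurable_jump.comp ((measurable_fst.comp measurable_fst).prodMk
          (measurable_const.prodMk measurable_const))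
      have g : Measurable fun t : (Env d lo κ × (Edge d → Clock lo κ)) × (ℕ → ℝ × Att d) =>
          ((t.1.1, t.1.2, t.2, jump t.1.1 x a.2) : Par d lo κ) :=
        (measurable_fst.comp measurable_fst).prodMk ((measurable_snd.comp measurable_fst).prodMk
          (measurable_snd.prodMk gj))
      exact hF.comp (g2.comp g)
    have mP' := mP.lintegral_prod_right' (ν := attsLaw d κ l)
    have mvs : Measurable fun C : Edge d → Clock lo κ => (vals η C a.1, sfts C a.1) := by
      have g : Measurable fun C : Edge d → Clock lo κ => (η, C, a.1) :=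
        measurable_const.prodMk (measurable_id.prodMk measurable_const)
      have g' : Measurable fun C : Edge d → Clock lo κ => (C, a.1) :=
        measurable_id.prodMk measurable_const
      exact (measurable_vals.comp g).prodMk (measurable_sfts.comp g')
    have h3 : ∫⁻ C, ∫⁻ i, F (St (vals η C a.1) (sfts C a.1) i (jump (vals η C a.1) x a.2) n)
          ∂attsLaw d κ l ∂clksLaw d μ q =
        ∫⁻ t : Env d lo κ × (Edge d → Clock lo κ), ∫⁻ i, F (St t.1 t.2 i (jump t.1 x a.2) n)
          ∂attsLaw d κ l ∂((Measure.infinitePi fun e : Edge d => keepLaw μ q a.1 (η e)).prod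
            (clksLaw d μ q)) := by
      rw [← env_law hμ.out ha.le η, lintegral_map mP' mvs]
    rw [h3, lintegral_prod _ mP'.aemeasurable]
    have h4 : ∀ ζ : Env d lo κ, ∫⁻ C, ∫⁻ i, F (St ζ C i (jump ζ x a.2) n) ∂attsLaw d κ l
        ∂clksLaw d μ q = chE μ q l F n (jump ζ x a.2, ζ) := fun ζ => ih _ _
    rw [lintegral_congr h4, ← ref_law hμ.out ha.le η, lintegral_map]
    · have g : Measurable fun ζ : Env d lo κ => (jump ζ x a.2, ζ) :=
        (measurable_jump.comp (measurable_id.prodMk
          (measurable_const.prodMk measurable_const))).prodMk measurable_id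
      exact (measurable_chE l hF n).comp g
    · exact (measurable_ref (d := d) (lo := lo) (κ := κ)).comp
        ((measurable_const.prodMk measurable_id).prodMk measurable_const)

end law

end Pool.Agent.NVB
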