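import Pool.Agent.NVB.Contr

/-!
# Mean conductances seen by the walk, and the comparison of two biases
-/

set_option autoImplicit false

namespace Pool.Agent.NVB

open MeasureTheory ProbabilityTheory Filter Topology
open scoped Classical ENNReal

variable {d : ℕ} {lo κ : ℝ} {μ : ℝ} {q : Measure (Set.Icc lo κ)} [IsProbabilityMeasure q]

/-- clock, clock, value for one edge -/
theorem gap_edge' (hκ : 0 < κ) (hμ : 0 < μ) (e : Edge d) :
    MeasurePreserving (fun z : Gap d lo κ => ((z.1, (z.2 e).1), (z.2 e).2)) (gapLaw d μ q)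
      (((expMeasure κ).prod (expMeasure μ)).prod q) := by
  have := isProbabilityMeasure_expMeasure hμ
  have := isProbabilityMeasure_expMeasure hκ
  have h1 := gap_edge (q := q) hκ hμ e
  have h2 := (measurePreserving_prodAssoc (expMeasure κ) (expMeasure μ) q).symm
  exact h2.comp h1

/-- the mean conductance -/
noncomputable def mean (q : Measure (Set.Icc lo κ)) : ℝ := ∫ x, (x : ℝ) ∂q

theorem integrable_val : Integrable (fun x : Set.Icc lo κ => (x : ℝ)) q :=
  Integrable.of_bound (by fun_prop) (max |lo| |κ|)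
    (Eventually.of_forall fun x => abs_le_max_abs_abs x.2.1 x.2.2)

/-- the mean of a conductance after a gap -/
theorem G_coord (hκ : 0 < κ) (hμ : 0 < μ) (e : Edge d) (η : Env d lo κ) :
    G μ q (fun η : Env d lo κ => (η e : ℝ)) η =
      (1 - κ / (κ + μ)) * mean q + κ / (κ + μ) * (η e : ℝ) := by
  have := isProbabilityMeasure_expMeasure hμ
  have := isProbabilityMeasure_expMeasure hκ
  set P := (expMeasure κ).prod (expMeasure μ) with hP
  have hmeas : Measurable fun w : (ℝ × ℝ) × Set.Icc lo κ =>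
      (if w.1.2 ≤ w.1.1 then (w.2 : ℝ) else (η e : ℝ)) :=
    Measurable.ite (measurableSet_le (by fun_prop) (by fun_prop)) (by fun_prop) (by fun_prop)
  have h1 : G μ q (fun η : Env d lo κ => (η e : ℝ)) η =
      ∫ w : (ℝ × ℝ) × Set.Icc lo κ, (if w.1.2 ≤ w.1.1 then (w.2 : ℝ) else (η e : ℝ)) ∂P.prod q := by
    have h0 := gap_edge' (d := d) (q := q) hκ hμ e
    rw [← hP] at h0
    rw [← h0.map_eq, integral_map h0.measurable.aemeasurable hmeas.aestronglyMeasurable]
    unfold G ref
    refine integral_congr_ae (Eventually.of_forall fun z => ?_)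
    beta_reduce
    split_ifs <;> rfl
  have hint : Integrable (fun w : (ℝ × ℝ) × Set.Icc lo κ =>
      (if w.1.2 ≤ w.1.1 then (w.2 : ℝ) else (η e : ℝ))) (P.prod q) := by
    refine Integrable.of_bound hmeas.aestronglyMeasurable (max |lo| |κ|)
      (Eventually.of_forall fun w => ?_)
    split_ifs
    · exact abs_le_max_abs_abs w.2.2.1 w.2.2.2
    · exact abs_le_max_abs_abs (η e).2.1 (η e).2.2
  rw [h1, integral_prod _ hint]
  have h2 : ∀ t : ℝ × ℝ, ∫ x, (if t.2 ≤ t.1 then (x : ℝ) else (η e : ℝ)) ∂q =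
      (η e : ℝ) + {t : ℝ × ℝ | t.2 ≤ t.1}.indicator (fun _ => mean q - (η e : ℝ)) t := by
    intro t
    by_cases ht : t.2 ≤ t.1
    · simp only [if_pos ht]
      rw [Set.indicator_of_mem (by exact ht)]
      unfold mean
      ring
    · simp only [if_neg ht]
      rw [Set.indicator_of_notMem (by exact ht)]
      simp
  rw [integral_congr_ae (Eventually.of_forall h2), integral_add (integrable_const _)
    ((integrable_const _).indicator (measurableSet_le (by fun_prop) (by fun_prop))),
    integral_indicator (measurableSet_le (by fun_prop) (by fun_prop)), setIntegral_const,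
    race' hκ hμ]
  simp
  ring

/-! ### the expectation before the attempt `k + 1` -/

/-- the law of the initial environment -/
noncomputable abbrev envLaw (d : ℕ) (q : Measure (Set.Icc lo κ)) : Measure (Env d lo κ) :=
  Measure.infinitePi fun _ : Edge d => q

/-- the expectation of `f` (of the environment seen from the walk) after `k` attempts -/
noncomputable def Bf (μ : ℝ) (q : Measure (Set.Icc lo κ)) (l : ℝ) :
    ℕ → (Env d lo κ → ℝ) → ℝ
  | 0, f => ∫ η, f η ∂envLaw d q
  | k + 1, f => Bf μ q l k (G μ q (Kh l f))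

theorem Good.integrable {f : Env d lo κ → ℝ} (hf : Good f) : Integrable f (envLaw d q) := by
  obtain ⟨C, hC⟩ := hf.bdd
  exact Integrable.of_bound hf.meas.aestronglyMeasurable C (Eventually.of_forall hC)

theorem Kh_add (l : ℝ) (f g : Env d lo κ → ℝ) :
    Kh l (fun η => f η + g η) = fun η => Kh l f η + Kh l g η := by
  funext η
  unfold Kh
  rw [← Finset.sum_add_distrib]
  exact Finset.sum_congr rfl fun y _ => by ring

theorem Kh_const_mul (l c : ℝ) (f : Env d lo κ → ℝ) :
    Kh l (fun η => c * f η) = fun η => c * Kh l f η := by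
  funext η
  unfold Kh
  rw [Finset.mul_sum]
  exact Finset.sum_congr rfl fun y _ => by ring

theorem Kh_const (l c : ℝ) : Kh l (fun _ : Env d lo κ => c) = fun _ => c := by
  funext η
  unfold Kh
  have h : ∀ y : Dir d, p l y * (acc y η * c + (1 - acc y η) * c) = p l y * c := fun y => by ring
  rw [Finset.sum_congr rfl fun y _ => h y, ← Finset.sum_mul, sum_p, one_mul]

theorem Kh_mono (hlo : 0 ≤ lo) (hκ : 0 < κ) (l : ℝ) {f g : Env d lo κ → ℝ} (h : ∀ η, f η ≤ g η)
    (η : Env d lo κ) : Kh l f η ≤ Kh l g η := by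
  unfold Kh
  refine Finset.sum_le_sum fun y _ => mul_le_mul_of_nonneg_left ?_ (p_nonneg l y)
  have hA0 : 0 ≤ acc y η := (div_nonneg hlo hκ.le).trans (le_acc hκ y η)
  have hA1 : acc y η ≤ 1 := acc_le hκ y η
  exact add_le_add (mul_le_mul_of_nonneg_left (h _) hA0)
    (mul_le_mul_of_nonneg_left (h _) (by linarith))

theorem Bf_add (hκ : 0 < κ) (hμ : 0 < μ) (l : ℝ) (k : ℕ) {f g : Env d lo κ → ℝ} (hf : Good f)
    (hg : Good g) : Bf μ q l k (fun η => f η + g η) = Bf μ q l k f + Bf μ q l k g := by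
  induction k generalizing f g with
  | zero => exact integral_add hf.integrable hg.integrable
  | succ k ih =>
    unfold Bf
    rw [Kh_add, G_add hκ hμ (hf.Kh l) (hg.Kh l)]
    exact ih ((hf.Kh l).G hκ hμ) ((hg.Kh l).G hκ hμ)

theorem Bf_const_mul (l : ℝ) (k : ℕ) (c : ℝ) (f : Env d lo κ → ℝ) :
    Bf μ q l k (fun η => c * f η) = c * Bf μ q l k f := by
  induction k generalizing f with
  | zero => exact integral_const_mul c _
  | succ k ih =>
    unfold Bf
    rw [Kh_const_mul, G_const_mul]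
    exact ih _

theorem Bf_const (hκ : 0 < κ) (hμ : 0 < μ) (l : ℝ) (k : ℕ) (c : ℝ) :
    Bf μ q l k (fun _ : Env d lo κ => c) = c := by
  induction k with
  | zero =>
    unfold Bf
    simp
  | succ k ih =>
    unfold Bf
    rw [Kh_const, G_const hκ hμ]
    exact ih

theorem Bf_mono (hlo : 0 ≤ lo) (hκ : 0 < κ) (hμ : 0 < μ) (l : ℝ) (k : ℕ)
    {f g : Env d lo κ → ℝ} (hf : Good f) (hg : Good g) (h : ∀ η, f η ≤ g η) :
    Bf μ q l k f ≤ Bf μ q l k g := by
  induction k generalizing f g with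
  | zero => exact integral_mono hf.integrable hg.integrable h
  | succ k ih =>
    unfold Bf
    exact ih ((hf.Kh l).G hκ hμ) ((hg.Kh l).G hκ hμ)
      (G_mono hκ hμ (hf.Kh l) (hg.Kh l) (Kh_mono hlo hκ l h))

theorem Bf_sum (hκ : 0 < κ) (hμ : 0 < μ) (l : ℝ) (k : ℕ) {ι : Type} (s : Finset ι)
    {f : ι → Env d lo κ → ℝ} (hf : ∀ i ∈ s, Good (f i)) :
    Bf μ q l k (fun η => ∑ i ∈ s, f i η) = ∑ i ∈ s, Bf μ q l k (f i) := by
  induction s using Finset.induction_on with
  | empty => simpa using Bf_const (d := d) (q := q) hκ hμ l k 0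
  | insert i s hi ih =>
    simp only [Finset.sum_insert hi]
    rw [Bf_add hκ hμ l k (hf i (Finset.mem_insert_self _ _))
      (Good.sum s fun j hj => hf j (Finset.mem_insert_of_mem hj)),
      ih fun j hj => hf j (Finset.mem_insert_of_mem hj)]

/-- the normalised excess of a conductance over `lo` -/
noncomputable def at' (e : Edge d) (η : Env d lo κ) : ℝ := ((η e : ℝ) - lo) / κ

/-- its mean -/
noncomputable def mt (q : Measure (Set.Icc lo κ)) : ℝ := (mean q - lo) / κ

theorem Good.at' (e : Edge d) : Good (NVB.at' e : Env d lo κ → ℝ) := by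
  have h : (NVB.at' e : Env d lo κ → ℝ) = fun η => (1 / κ) * ((η e : ℝ) - lo) := by
    funext η
    unfold NVB.at'
    ring
  rw [h]
  exact ((Good.coord e).sub (Good.const lo)).const_mul _

theorem at'_nonneg (hκ : 0 < κ) (e : Edge d) (η : Env d lo κ) : 0 ≤ at' e η := by
  unfold at'
  have := (η e).2.1
  exact div_nonneg (by linarith) hκ.le

theorem mt_nonneg (hκ : 0 < κ) : 0 ≤ mt q := by
  unfold mt mean
  have h1 : lo ≤ ∫ x, (x : ℝ) ∂q := by
    have h2 : ∫ _x : Set.Icc lo κ, lo ∂q ≤ ∫ x, (x : ℝ) ∂q :=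
      integral_mono (integrable_const _) integrable_val fun x => x.2.1
    simpa using h2
  exact div_nonneg (by linarith) hκ.le

theorem mt_le (hκ : 0 < κ) : mt q ≤ (κ - lo) / κ := by
  unfold mt mean
  have h1 : ∫ x, (x : ℝ) ∂q ≤ κ := by
    have h2 : ∫ x, (x : ℝ) ∂q ≤ ∫ _x : Set.Icc lo κ, κ ∂q :=
      integral_mono integrable_val (integrable_const _) fun x => x.2.2
    simpa using h2
  exact div_le_div_of_nonneg_right (by linarith) hκ.le

theorem G_at' (hκ : 0 < κ) (hμ : 0 < μ) (e : Edge d) :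
    G μ q (at' e : Env d lo κ → ℝ) =
      fun η => (1 - κ / (κ + μ)) * mt q + κ / (κ + μ) * at' e η := by
  have h : (at' e : Env d lo κ → ℝ) = fun η => (1 / κ) * ((η e : ℝ) - lo) := by
    funext η
    unfold at'
    ring
  rw [h, G_const_mul, G_sub hκ hμ (Good.coord e) (Good.const lo)]
  funext η
  beta_reduce
  rw [G_coord hκ hμ, G_const hκ hμ]
  unfold mt
  field_simp
  ring

theorem mean_coord (e : Edge d) : ∫ η, (η e : ℝ) ∂envLaw d q = mean q := by
  have h0 := measurePreserving_eval_infinitePi (fun _ : Edge d => q) e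
  have h1 : ∫ x : Set.Icc lo κ, (x : ℝ) ∂q =
      ∫ x : Set.Icc lo κ, (x : ℝ) ∂((Measure.infinitePi fun _ : Edge d => q).map
        (Function.eval e)) := by rw [h0.map_eq]
  unfold mean
  rw [h1, integral_map h0.measurable.aemeasurable (by fun_prop)]

theorem Bf_at' (hlo : 0 ≤ lo) (hκ : 0 < κ) (hlκ : lo ≤ κ) (hμ : 0 < μ) (h : 5 * (κ - lo) ≤ μ)
    (l : ℝ) (k : ℕ) (e : Edge d) : Bf μ q l k (G μ q (at' e)) ≤ 5 / 4 * mt q := by
  have hr0 : 0 ≤ κ / (κ + μ) := by positivity
  have hr1 : κ / (κ + μ) ≤ 1 := by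
    rw [div_le_one (by positivity)]
    linarith
  have hm := mt_nonneg (q := q) hκ
  have hD : 0 ≤ (κ - lo) / κ := div_nonneg (by linarith) hκ.le
  have hr : κ / (κ + μ) * (1 + 5 * ((κ - lo) / κ)) ≤ 1 := by
    have h1 : κ / (κ + μ) * (1 + 5 * ((κ - lo) / κ)) = (κ + 5 * (κ - lo)) / (κ + μ) := by
      field_simp
    rw [h1, div_le_one (by positivity)]
    linarith
  set r := κ / (κ + μ) with hrdef
  set x := (κ - lo) / κ with hx
  induction k generalizing e with
  | zero =>
    rw [G_at' hκ hμ]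
    have h1 : ∫ η, ((1 - κ / (κ + μ)) * mt q + κ / (κ + μ) * at' e η) ∂envLaw d q = mt q := by
      have h2 : ∫ η, at' e η ∂envLaw d q = mt q := by
        unfold at' mt
        rw [integral_div, integral_sub (Good.coord e).integrable (integrable_const _), mean_coord]
        simp
      have h3 : ∫ η, κ / (κ + μ) * at' e η ∂envLaw d q = κ / (κ + μ) * mt q := by
        rw [integral_const_mul, h2]
      rw [integral_add (integrable_const _) ((Good.at' e).integrable.const_mul _), h3]
      simp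
      ring
    change ∫ η, ((1 - κ / (κ + μ)) * mt q + κ / (κ + μ) * at' e η) ∂envLaw d q ≤ _
    rw [h1]
    linarith
  | succ k ih =>
    have h1 : Bf μ q l (k + 1) (G μ q (at' e)) =
        (1 - r) * mt q + r * Bf μ q l k (G μ q (Kh l (at' e))) := by
      change Bf μ q l k (G μ q (Kh l (G μ q (at' e)))) = _
      rw [G_at' hκ hμ, Kh_add, Kh_const, Kh_const_mul,
        G_add hκ hμ (Good.const _) (((Good.at' e).Kh l).const_mul _), G_const hκ hμ, G_const_mul,
        Bf_add hκ hμ l k (Good.const _) ((((Good.at' e).Kh l).G hκ hμ).const_mul _),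
        Bf_const hκ hμ, Bf_const_mul]
    have h2 : Bf μ q l k (G μ q (Kh l (at' e))) ≤
        Bf μ q l k (G μ q fun η : Env d lo κ =>
          (∑ y : Dir d, p l y * at' (e.1 + vec y, e.2) η) + x * at' e η) := by
      have g1 : Good (fun η : Env d lo κ => ∑ y : Dir d, p l y * at' (e.1 + vec y, e.2) η) :=
        Good.sum _ fun y _ => (Good.at' _).const_mul _
      have g2 := g1.add ((Good.at' (lo := lo) (κ := κ) e).const_mul x)
      refine Bf_mono hlo hκ hμ l k (((Good.at' e).Kh l).G hκ hμ) (g2.G hκ hμ)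
        (G_mono hκ hμ ((Good.at' e).Kh l) g2 fun η => ?_)
      have h3 : x * at' e η = ∑ y : Dir d, p l y * (x * at' e η) := by
        rw [← Finset.sum_mul, sum_p, one_mul]
      unfold Kh
      rw [h3, ← Finset.sum_add_distrib]
      refine Finset.sum_le_sum fun y _ => ?_
      rw [← mul_add]
      refine mul_le_mul_of_nonneg_left ?_ (p_nonneg l y)
      have h4 : at' e (sh (vec y) η) = at' (e.1 + vec y, e.2) η := rfl
      rw [h4]
      refine add_le_add ?_ (mul_le_mul_of_nonneg_right (one_sub_acc_le hκ y η) (at'_nonneg hκ e η))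
      calc acc y η * at' (e.1 + vec y, e.2) η ≤ 1 * at' (e.1 + vec y, e.2) η :=
            mul_le_mul_of_nonneg_right (acc_le hκ y η) (at'_nonneg hκ _ η)
        _ = _ := one_mul _
    have h3 : Bf μ q l k (G μ q fun η : Env d lo κ =>
          (∑ y : Dir d, p l y * at' (e.1 + vec y, e.2) η) + x * at' e η) =
        (∑ y : Dir d, p l y * Bf μ q l k (G μ q (at' (e.1 + vec y, e.2)))) +
          x * Bf μ q l k (G μ q (at' e)) := by
      rw [G_add hκ hμ (Good.sum _ fun y _ => (Good.at' _).const_mul _) ((Good.at' e).const_mul x),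
        Bf_add hκ hμ l k ((Good.sum _ fun y _ => (Good.at' _).const_mul _).G hκ hμ)
          (((Good.at' e).const_mul x).G hκ hμ), G_const_mul, Bf_const_mul,
        G_sum hκ hμ _ fun y _ => (Good.at' _).const_mul _,
        Bf_sum hκ hμ l k _ fun y _ => ((Good.at' _).const_mul _).G hκ hμ]
      congr 1
      refine Finset.sum_congr rfl fun y _ => ?_
      rw [G_const_mul, Bf_const_mul]
    have h4 : (∑ y : Dir d, p l y * Bf μ q l k (G μ q (at' (e.1 + vec y, e.2)))) ≤
        5 / 4 * mt q := by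
      calc (∑ y : Dir d, p l y * Bf μ q l k (G μ q (at' (e.1 + vec y, e.2))))
          ≤ ∑ y : Dir d, p l y * (5 / 4 * mt q) :=
            Finset.sum_le_sum fun y _ => mul_le_mul_of_nonneg_left (ih _) (p_nonneg l y)
        _ = 5 / 4 * mt q := by rw [← Finset.sum_mul, sum_p, one_mul]
    have h5 : x * Bf μ q l k (G μ q (at' e)) ≤ x * (5 / 4 * mt q) :=
      mul_le_mul_of_nonneg_left (ih e) hD
    have h6 : Bf μ q l k (G μ q (Kh l (at' e))) ≤ (1 + x) * (5 / 4 * mt q) := by
      rw [h3] at h2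
      linarith
    rw [h1]
    have h7 : r * Bf μ q l k (G μ q (Kh l (at' e))) ≤ r * ((1 + x) * (5 / 4 * mt q)) :=
      mul_le_mul_of_nonneg_left h6 hr0
    have h8 : (1 - r) * mt q + r * ((1 + x) * (5 / 4 * mt q)) =
        mt q + (r * (1 + 5 * x)) * mt q / 4 := by ring
    have h9 : (r * (1 + 5 * x)) * mt q ≤ 1 * mt q := mul_le_mul_of_nonneg_right hr hm
    linarith

theorem acc_eq (hκ : 0 < κ) (y : Dir d) :
    (acc y : Env d lo κ → ℝ) = fun η => lo / κ + at' (edge 0 y) η := by
  funext η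
  unfold acc at'
  field_simp
  ring

theorem Bf_acc_le (hlo : 0 ≤ lo) (hκ : 0 < κ) (hlκ : lo ≤ κ) (hμ : 0 < μ)
    (h : 5 * (κ - lo) ≤ μ) (l : ℝ) (k : ℕ) (y : Dir d) :
    Bf μ q l k (G μ q (acc y)) ≤ lo / κ + 5 / 4 * mt q := by
  rw [acc_eq hκ, G_add hκ hμ (Good.const _) (Good.at' _), G_const hκ hμ,
    Bf_add hκ hμ l k (Good.const _) ((Good.at' _).G hκ hμ), Bf_const hκ hμ]
  have := Bf_at' (q := q) hlo hκ hlκ hμ h l k (edge 0 y)
  linarith

theorem le_Bf_acc (hlo : 0 ≤ lo) (hκ : 0 < κ) (hμ : 0 < μ) (l : ℝ) (k : ℕ) (y : Dir d) :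
    lo / κ + (1 - κ / (κ + μ)) * mt q ≤ Bf μ q l k (G μ q (acc y)) := by
  rw [acc_eq hκ, G_add hκ hμ (Good.const _) (Good.at' _), G_const hκ hμ,
    Bf_add hκ hμ l k (Good.const _) ((Good.at' _).G hκ hμ), Bf_const hκ hμ]
  have h1 : Bf μ q l k (fun _ : Env d lo κ => (1 - κ / (κ + μ)) * mt q) ≤
      Bf μ q l k (G μ q (at' (edge 0 y))) := by
    refine Bf_mono hlo hκ hμ l k (Good.const _) ((Good.at' _).G hκ hμ) fun η => ?_
    rw [G_at' hκ hμ]
    have := at'_nonneg hκ (edge 0 y) η
    have h2 : 0 ≤ κ / (κ + μ) * at' (edge 0 y) η := by positivity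
    linarith
  rw [Bf_const hκ hμ] at h1
  linarith

end Pool.Agent.NVB
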