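import Pool.Agent.NVB.Clock

/-!
# The lack of memory of the clock of one edge
-/

set_option autoImplicit false

namespace Pool.Agent.NVB

open MeasureTheory ProbabilityTheory Filter Topology
open scoped Classical ENNReal

variable {lo κ : ℝ}

/-! ### measurability -/

theorem measurable_sInf_nat {α : Type} [MeasurableSpace α] {A : ℕ → Set α}
    (hA : ∀ n, MeasurableSet (A n)) : Measurable fun x => sInf {n | x ∈ A n} := by
  refine measurable_to_countable' fun n => ?_
  have h : (fun x => sInf {n | x ∈ A n}) ⁻¹' {n} =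
      (A n ∩ ⋂ m ∈ Set.Iio n, (A m)ᶜ) ∪ (if n = 0 then ⋂ m, (A m)ᶜ else ∅) := by
    ext x
    simp only [Set.mem_preimage, Set.mem_singleton_iff, Set.mem_union, Set.mem_inter_iff,
      Set.mem_iInter, Set.mem_Iio, Set.mem_compl_iff]
    constructor
    · intro hx
      by_cases hne : {n | x ∈ A n}.Nonempty
      · left
        refine ⟨?_, fun m hm => ?_⟩
        · have := Nat.sInf_mem hne
          rw [hx] at this
          exact this
        · rw [← hx] at hm
          exact Nat.notMem_of_lt_sInf hm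
      · right
        rw [Set.not_nonempty_iff_eq_empty] at hne
        rw [hne, Nat.sInf_empty] at hx
        rw [if_pos hx.symm, Set.mem_iInter]
        intro m hm
        have : m ∈ {n | x ∈ A n} := hm
        rw [hne] at this
        exact this
    · rintro (⟨h1, h2⟩ | h1)
      · apply le_antisymm
        · exact Nat.sInf_le h1
        · have h3 := Nat.sInf_mem (s := {n | x ∈ A n}) ⟨n, h1⟩
          by_contra h4
          exact h2 _ (not_le.1 h4) h3
      · split_ifs at h1 with h0
        · rw [Set.mem_iInter] at h1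
          rw [h0, Nat.sInf_eq_zero]
          right
          rw [Set.eq_empty_iff_forall_notMem]
          exact fun m => h1 m
        · exact absurd h1 (Set.notMem_empty _)
  rw [h]
  refine MeasurableSet.union ((hA n).inter (MeasurableSet.biInter (Set.to_countable _)
    fun m _ => (hA m).compl)) ?_
  split_ifs
  · exact MeasurableSet.iInter fun m => (hA m).compl
  · exact MeasurableSet.empty

theorem measurable_ringTime (n : ℕ) : Measurable fun c : Clock lo κ => ringTime c n := by
  unfold ringTime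
  fun_prop

theorem measurable_rings : Measurable fun t : Clock lo κ × ℝ => rings t.1 t.2 := by
  have h := measurable_sInf_nat (α := Clock lo κ × ℝ)
    (A := fun n => {t | t.2 < ringTime t.1 (n + 1)}) fun n =>
      measurableSet_lt measurable_snd ((measurable_ringTime (n + 1)).comp measurable_fst)
  exact h

theorem measurable_at : Measurable fun t : Clock lo κ × ℕ => t.1 t.2 :=
  measurable_from_prod_countable_left fun n => measurable_pi_apply n

theorem measurable_ringTime_at : Measurable fun t : Clock lo κ × ℕ => ringTime t.1 t.2 :=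
  measurable_from_prod_countable_left fun n => measurable_ringTime n

theorem measurable_val :
    Measurable fun t : Set.Icc lo κ × Clock lo κ × ℝ => val t.1 t.2.1 t.2.2 := by
  unfold val
  have h1 : Measurable fun t : Set.Icc lo κ × Clock lo κ × ℝ => rings t.2.1 t.2.2 :=
    measurable_rings.comp measurable_snd
  refine Measurable.ite (h1 (measurableSet_singleton 0)) measurable_fst ?_
  have h2 : Measurable fun t : Set.Icc lo κ × Clock lo κ × ℝ =>
      (t.2.1, rings t.2.1 t.2.2 - 1) :=
    (measurable_fst.comp measurable_snd).prodMk ((measurable_of_countable fun n : ℕ => n - 1).comp h1)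
  exact measurable_snd.comp (measurable_at.comp h2)

theorem measurable_sft : Measurable fun t : Clock lo κ × ℝ => sft t.1 t.2 := by
  refine measurable_pi_lambda _ fun k => ?_
  unfold sft
  have h1 := measurable_rings (lo := lo) (κ := κ)
  have h2 : ∀ k : ℕ, Measurable fun t : Clock lo κ × ℝ => (t.1, rings t.1 t.2 + k) := fun k =>
    measurable_fst.prodMk ((measurable_of_countable fun n : ℕ => n + k).comp h1)
  by_cases hk : k = 0
  · simp only [if_pos hk]
    refine Measurable.prodMk ?_ ?_
    · exact (measurable_ringTime_at.comp (h2 1)).sub measurable_snd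
    · exact measurable_snd.comp (measurable_at.comp (measurable_fst.prodMk h1))
  · simp only [if_neg hk]
    exact measurable_at.comp (h2 k)

theorem measurable_cns {α : Type} [MeasurableSpace α] :
    Measurable fun t : α × (ℕ → α) => cns t.1 t.2 := by
  refine measurable_pi_lambda _ fun n => ?_
  cases n with
  | zero => exact measurable_fst
  | succ n => exact (measurable_pi_apply n).comp measurable_snd

theorem measurable_vs : Measurable fun t : Set.Icc lo κ × Clock lo κ × ℝ =>
    (val t.1 t.2.1 t.2.2, sft t.2.1 t.2.2) :=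
  measurable_val.prodMk (measurable_sft.comp measurable_snd)

/-! ### the shift of the exponential law -/

theorem exp_shift {μ : ℝ} {s : ℝ} (hs : 0 ≤ s) {h : ℝ → ℝ≥0∞} (hh : Measurable h) :
    ∫⁻ x, (if s < x then h (x - s) else 0) ∂expMeasure μ =
      ENNReal.ofReal (Real.exp (-(μ * s))) * ∫⁻ x, h x ∂expMeasure μ := by
  have h0 : expMeasure μ = volume.withDensity (exponentialPDF μ) := rfl
  have hm := meas_pdf μ
  have hm2 : Measurable fun x => if s < x then h (x - s) else 0 :=
    Measurable.ite (measurableSet_lt measurable_const measurable_id) (by fun_prop) measurable_const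
  rw [h0, lintegral_withDensity_eq_lintegral_mul _ hm hm2,
    lintegral_withDensity_eq_lintegral_mul _ hm hh, ← lintegral_const_mul _ (hm.mul hh),
    ← lintegral_add_right_eq_self _ s]
  apply lintegral_congr_ae
  have h1 : ∀ᵐ x : ℝ, x ≠ 0 := by
    rw [ae_iff]
    simp
  filter_upwards [h1] with x hx
  simp only [Pi.mul_apply, add_sub_cancel_right, lt_add_iff_pos_left]
  rcases lt_or_gt_of_ne hx with h2 | h2
  · rw [if_neg (not_lt.2 h2.le), exponentialPDF_of_neg h2]
    simp
  · rw [if_pos h2, exponentialPDF_of_nonneg (by linarith), exponentialPDF_of_nonneg h2.le,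
      ← mul_assoc, ← ENNReal.ofReal_mul (Real.exp_pos _).le]
    congr 2
    have h3 : -(μ * (x + s)) = -(μ * s) + -(μ * x) := by ring
    rw [h3, Real.exp_add]
    ring

theorem exp_Iic {μ : ℝ} (hμ : 0 < μ) {s : ℝ} (hs : 0 ≤ s) :
    expMeasure μ (Set.Iic s) = ENNReal.ofReal (1 - Real.exp (-(μ * s))) := by
  have := isProbabilityMeasure_expMeasure hμ
  have h2 := ofReal_cdf (expMeasure μ) s
  rw [cdf_expMeasure_eq hμ, if_pos hs] at h2
  exact h2.symm

section law

variable {μ : ℝ} {q : Measure (Set.Icc lo κ)} [IsProbabilityMeasure q]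

/-- the law of the clock of an edge -/
noncomputable abbrev clkLaw (μ : ℝ) (q : Measure (Set.Icc lo κ)) : Measure (Clock lo κ) :=
  Measure.infinitePi fun _ : ℕ => (expMeasure μ).prod q

theorem clk_good (hμ : 0 < μ) : ∀ᵐ c ∂clkLaw μ q, ∀ t, ∃ n, t < ringTime c (n + 1) := by
  have hp := isProbabilityMeasure_expMeasure hμ
  have hk : ∀ k : ℕ, MeasurePreserving (fun c : Clock lo κ => (c k).1) (clkLaw μ q)
      (expMeasure μ) := fun k =>
    (measurePreserving_fst (μ := expMeasure μ) (ν := q)).comp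
      (measurePreserving_eval_infinitePi (fun _ : ℕ => (expMeasure μ).prod q) k)
  have h0 : ∀ᵐ c : Clock lo κ ∂clkLaw μ q,
      Tendsto (fun n : ℕ => (∑ k ∈ Finset.range n, (c k).1) / n) atTop
        (𝓝 (∫ c : Clock lo κ, (c 0).1 ∂clkLaw μ q)) := by
    refine strong_law_ae_real (fun k (c : Clock lo κ) => (c k).1) ?_ ?_ ?_
    · exact (hk 0).integrable_comp_of_integrable (exp_integrable hμ)
    · intro i j hij
      exact (iIndepFun_infinitePi (P := fun _ : ℕ => (expMeasure μ).prod q)
        (X := fun _ (x : ℝ × Set.Icc lo κ) => x.1) (fun _ => by fun_prop)).indepFun hij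
    · intro k
      exact ⟨(hk k).measurable.aemeasurable, (hk 0).measurable.aemeasurable,
        (hk k).map_eq.trans (hk 0).map_eq.symm⟩
  have h1 : ∫ c : Clock lo κ, (c 0).1 ∂clkLaw μ q = ∫ s, s ∂expMeasure μ := by
    rw [← (hk 0).map_eq, integral_map (hk 0).measurable.aemeasurable (by fun_prop)]
  rw [h1] at h0
  filter_upwards [h0] with c hc t
  have h2 : Tendsto (fun n : ℕ => ringTime c n) atTop atTop := by
    have h3 : Tendsto (fun n : ℕ => (∑ k ∈ Finset.range n, (c k).1) / n * n) atTop atTop :=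
      hc.pos_mul_atTop (exp_mean_pos hμ) tendsto_natCast_atTop_atTop
    refine h3.congr' ?_
    filter_upwards [eventually_gt_atTop 0] with n hn
    have : (n : ℝ) ≠ 0 := by exact_mod_cast hn.ne'
    unfold ringTime
    field_simp
  obtain ⟨n, hn⟩ := ((h2.comp (tendsto_add_atTop_nat 1)).eventually_gt_atTop t).exists
  exact ⟨n, hn⟩

theorem clk_split (hμ : 0 < μ) {f : Clock lo κ → ℝ≥0∞} (hf : Measurable f) :
    ∫⁻ c, f c ∂clkLaw μ q = ∫⁻ a, ∫⁻ c, f (cns a c) ∂clkLaw μ q ∂(expMeasure μ).prod q := by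
  have hp := isProbabilityMeasure_expMeasure hμ
  have h0 : (((expMeasure μ).prod q).prod (clkLaw μ q)).map
      (fun t : (ℝ × Set.Icc lo κ) × Clock lo κ => (cns t.1 t.2 : Clock lo κ)) = clkLaw μ q :=
    seq_split _
  have hm : Measurable fun t : (ℝ × Set.Icc lo κ) × Clock lo κ => (cns t.1 t.2 : Clock lo κ) :=
    measurable_cns
  have h1 : ∫⁻ c, f c ∂clkLaw μ q = ∫⁻ t : (ℝ × Set.Icc lo κ) × Clock lo κ, f (cns t.1 t.2)
      ∂((expMeasure μ).prod q).prod (clkLaw μ q) := by
    rw [← lintegral_map hf hm, h0]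
  have hfm : Measurable fun t : (ℝ × Set.Icc lo κ) × Clock lo κ => f (cns t.1 t.2) := hf.comp hm
  rw [h1, lintegral_prod _ hfm.aemeasurable]

/-- the law of the value after the time `s` -/
noncomputable def keepLaw (μ : ℝ) (q : Measure (Set.Icc lo κ)) (s : ℝ) (v : Set.Icc lo κ) :
    Measure (Set.Icc lo κ) :=
  ENNReal.ofReal (Real.exp (-(μ * s))) • Measure.dirac v +
    ENNReal.ofReal (1 - Real.exp (-(μ * s))) • q

theorem keep_rec (hμ : 0 < μ) {φ : Set.Icc lo κ × Clock lo κ → ℝ≥0∞} (hφ : Measurable φ) {s : ℝ}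
    (hs : 0 ≤ s) (v : Set.Icc lo κ) :
    ∫⁻ c, φ (val v c s, sft c s) ∂clkLaw μ q =
      ENNReal.ofReal (Real.exp (-(μ * s))) * (∫⁻ c, φ (v, c) ∂clkLaw μ q) +
      ∫⁻ x, (if x ≤ s then ∫⁻ u, ∫⁻ c, φ (val u c (s - x), sft c (s - x)) ∂clkLaw μ q ∂q else 0)
        ∂expMeasure μ := by
  have hp := isProbabilityMeasure_expMeasure hμ
  have m0 := measurable_vs (lo := lo) (κ := κ)
  have g0 : Measurable fun c : Clock lo κ => (v, c, s) :=
    measurable_const.prodMk (measurable_id.prodMk measurable_const)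
  have m1 : Measurable fun c : Clock lo κ => φ (val v c s, sft c s) := hφ.comp (m0.comp g0)
  have g1 : Measurable fun t : (ℝ × Set.Icc lo κ) × Clock lo κ => s - t.1.1 := by fun_prop
  have g2 : Measurable fun t : (ℝ × Set.Icc lo κ) × Clock lo κ => (t.1.2, t.2, s - t.1.1) :=
    (measurable_snd.comp measurable_fst).prodMk (measurable_snd.prodMk g1)
  have m2 : Measurable fun t : (ℝ × Set.Icc lo κ) × Clock lo κ =>
      φ (val t.1.2 t.2 (s - t.1.1), sft t.2 (s - t.1.1)) := hφ.comp (m0.comp g2)
  have m3 : Measurable fun t : (ℝ × Set.Icc lo κ) × Clock lo κ =>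
      φ (v, cns t.1 t.2) := hφ.comp (measurable_const.prodMk measurable_cns)
  rw [clk_split hμ m1]
  have h1 : ∀ a : ℝ × Set.Icc lo κ,
      ∫⁻ c, φ (val v (cns a c) s, sft (cns a c) s) ∂clkLaw μ q =
        (if s < a.1 then ∫⁻ c, φ (v, cns (a.1 - s, a.2) c) ∂clkLaw μ q else 0) +
        (if a.1 ≤ s then ∫⁻ c, φ (val a.2 c (s - a.1), sft c (s - a.1)) ∂clkLaw μ q else 0) := by
    intro a
    rcases lt_or_ge s a.1 with h | h
    · rw [if_pos h, if_neg (not_le.2 h), add_zero]
      refine lintegral_congr fun c => ?_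
      rw [val_cns_lt h, sft_cns_lt h]
    · rw [if_neg (not_lt.2 h), if_pos h, zero_add]
      refine lintegral_congr_ae ?_
      filter_upwards [clk_good hμ] with c hc
      rw [val_cns_ge h (hc _), sft_cns_ge h (hc _)]
  rw [lintegral_congr h1, lintegral_add_left]
  · congr 1
    · have g1 : Measurable fun a : ℝ × Set.Icc lo κ =>
          ∫⁻ c, φ (v, cns a c) ∂clkLaw μ q := m3.lintegral_prod_right'
      have g2 : ∫⁻ c, φ (v, c) ∂clkLaw μ q =
          ∫⁻ a, ∫⁻ c, φ (v, cns a c) ∂clkLaw μ q ∂(expMeasure μ).prod q :=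
        clk_split hμ (hφ.comp (measurable_const.prodMk measurable_id))
      have g3 : Measurable fun a : ℝ × Set.Icc lo κ =>
          if s < a.1 then ∫⁻ c, φ (v, cns (a.1 - s, a.2) c) ∂clkLaw μ q else 0 := by
        refine Measurable.ite (measurableSet_lt (by fun_prop) (by fun_prop)) ?_ measurable_const
        exact g1.comp ((measurable_fst.sub_const s).prodMk measurable_snd)
      rw [g2, lintegral_prod_symm' _ g3, lintegral_prod_symm' _ g1]
      rw [← lintegral_const_mul _ (g1.lintegral_prod_left')]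
      refine lintegral_congr fun u => ?_
      exact exp_shift hs (g1.comp (measurable_id.prodMk measurable_const))
    · have g1 : Measurable fun a : ℝ × Set.Icc lo κ =>
          ∫⁻ c, φ (val a.2 c (s - a.1), sft c (s - a.1)) ∂clkLaw μ q := m2.lintegral_prod_right'
      have g3 : Measurable fun a : ℝ × Set.Icc lo κ => if a.1 ≤ s then
          ∫⁻ c, φ (val a.2 c (s - a.1), sft c (s - a.1)) ∂clkLaw μ q else 0 :=
        Measurable.ite (measurableSet_le (by fun_prop) (by fun_prop)) g1 measurable_const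
      rw [lintegral_prod _ g3.aemeasurable]
      refine lintegral_congr fun x => ?_
      split_ifs
      · rfl
      · simp
  · have g1 : Measurable fun a : ℝ × Set.Icc lo κ =>
        ∫⁻ c, φ (v, cns a c) ∂clkLaw μ q := m3.lintegral_prod_right'
    refine Measurable.ite (measurableSet_lt (by fun_prop) (by fun_prop)) ?_ measurable_const
    exact g1.comp ((measurable_fst.sub_const s).prodMk measurable_snd)

/-! ### uniqueness of the solution of the recursion -/

/-- a solution of the recursion of `keep_rec` -/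
def Rec (μ : ℝ) (q : Measure (Set.Icc lo κ)) (a : Set.Icc lo κ → ℝ≥0∞)
    (A : ℝ → Set.Icc lo κ → ℝ≥0∞) : Prop :=
  ∀ s, 0 ≤ s → ∀ v, A s v = ENNReal.ofReal (Real.exp (-(μ * s))) * a v +
    ∫⁻ x, (if x ≤ s then ∫⁻ u, A (s - x) u ∂q else 0) ∂expMeasure μ

theorem Rec.le_add (hμ : 0 < μ) {a : Set.Icc lo κ → ℝ≥0∞} {A B : ℝ → Set.Icc lo κ → ℝ≥0∞}
    (hA : Rec μ q a A) (hB : Rec μ q a B) (hA1 : ∀ s, 0 ≤ s → ∀ v, A s v ≤ 1) {s0 : ℝ} (n : ℕ) :
    ∀ s, 0 ≤ s → s ≤ s0 → ∀ v, A s v ≤ B s v +
      ENNReal.ofReal (1 - Real.exp (-(μ * s0))) ^ n := by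
  have hp := isProbabilityMeasure_expMeasure hμ
  induction n with
  | zero =>
    intro s hs _ v
    rw [pow_zero]
    exact (hA1 s hs v).trans le_add_self
  | succ n ih =>
    intro s hs hs0 v
    set θ := ENNReal.ofReal (1 - Real.exp (-(μ * s0))) with hθ
    rw [hA s hs v, hB s hs v, add_assoc]
    refine add_le_add le_rfl ?_
    have h1 : ∫⁻ x, (if x ≤ s then ∫⁻ u, A (s - x) u ∂q else 0) ∂expMeasure μ ≤
        ∫⁻ x, ((if x ≤ s then ∫⁻ u, B (s - x) u ∂q else 0) +
          (Set.Iic s).indicator (fun _ => θ ^ n) x) ∂expMeasure μ := by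
      refine lintegral_mono_ae ?_
      filter_upwards [exp_ae_pos hμ] with x hx
      by_cases hxs : x ≤ s
      · rw [if_pos hxs, if_pos hxs, Set.indicator_of_mem (by exact hxs)]
        calc ∫⁻ u, A (s - x) u ∂q ≤ ∫⁻ u, (B (s - x) u + θ ^ n) ∂q :=
              lintegral_mono fun u => ih (s - x) (by linarith) (by linarith) u
          _ = ∫⁻ u, B (s - x) u ∂q + θ ^ n := by
              rw [lintegral_add_right _ measurable_const]
              simp
      · rw [if_neg hxs]
        exact bot_le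
    refine h1.trans ?_
    rw [lintegral_add_right _ (measurable_const.indicator measurableSet_Iic),
      lintegral_indicator_const measurableSet_Iic, exp_Iic hμ hs, pow_succ]
    have h2 : ENNReal.ofReal (1 - Real.exp (-(μ * s))) ≤ θ := by
      rw [hθ]
      apply ENNReal.ofReal_le_ofReal
      have : Real.exp (-(μ * s0)) ≤ Real.exp (-(μ * s)) := Real.exp_le_exp.2 (by nlinarith)
      linarith
    gcongr

theorem Rec.le (hμ : 0 < μ) {a : Set.Icc lo κ → ℝ≥0∞} {A B : ℝ → Set.Icc lo κ → ℝ≥0∞}
    (hA : Rec μ q a A) (hB : Rec μ q a B) (hA1 : ∀ s, 0 ≤ s → ∀ v, A s v ≤ 1) {s : ℝ} (hs : 0 ≤ s)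
    (v : Set.Icc lo κ) : A s v ≤ B s v := by
  have h1 : Tendsto (fun n : ℕ => B s v + ENNReal.ofReal (1 - Real.exp (-(μ * s))) ^ n) atTop
      (𝓝 (B s v + 0)) := by
    refine Tendsto.const_add _ (ENNReal.tendsto_pow_atTop_nhds_zero_of_lt_one ?_)
    rw [ENNReal.ofReal_lt_one]
    linarith [Real.exp_pos (-(μ * s))]
  rw [add_zero] at h1
  exact ge_of_tendsto' h1 fun n => hA.le_add hμ hB hA1 n s hs le_rfl v

theorem Rec.unique' (hμ : 0 < μ) {a : Set.Icc lo κ → ℝ≥0∞} {A B : ℝ → Set.Icc lo κ → ℝ≥0∞}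
    (hA : Rec μ q a A) (hB : Rec μ q a B) (hA1 : ∀ s, 0 ≤ s → ∀ v, A s v ≤ 1)
    (hB1 : ∀ s, 0 ≤ s → ∀ v, B s v ≤ 1)
    {s : ℝ} (hs : 0 ≤ s) (v : Set.Icc lo κ) : A s v = B s v :=
  le_antisymm (hA.le hμ hB hA1 hs v) (hB.le hμ hA hB1 hs v)

theorem rec_sol (hμ : 0 < μ) (a : Set.Icc lo κ → ℝ≥0∞) (ha : Measurable a) :
    Rec μ q a fun s v => ENNReal.ofReal (Real.exp (-(μ * s))) * a v +
      ENNReal.ofReal (1 - Real.exp (-(μ * s))) * ∫⁻ u, a u ∂q := by
  have hp := isProbabilityMeasure_expMeasure hμ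
  intro s hs v
  beta_reduce
  congr 1
  set I := ∫⁻ u, a u ∂q with hI
  have h1 : ∀ᵐ x ∂expMeasure μ, (if x ≤ s then
      ∫⁻ u, (ENNReal.ofReal (Real.exp (-(μ * (s - x)))) * a u +
        ENNReal.ofReal (1 - Real.exp (-(μ * (s - x)))) * I) ∂q else 0) =
      (Set.Iic s).indicator (fun _ => I) x := by
    filter_upwards [exp_ae_pos hμ] with x hx
    by_cases hxs : x ≤ s
    · rw [if_pos hxs, Set.indicator_of_mem (by exact hxs), lintegral_add_right _ measurable_const,
        lintegral_const_mul _ ha, ← hI, lintegral_const, measure_univ, mul_one, ← add_mul,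
        ← ENNReal.ofReal_add (Real.exp_pos _).le]
      · simp
      · have : Real.exp (-(μ * (s - x))) ≤ 1 := Real.exp_le_one_iff.2 (by nlinarith)
        linarith
    · rw [if_neg hxs, Set.indicator_of_notMem (by exact hxs)]
  rw [lintegral_congr_ae h1, lintegral_indicator_const measurableSet_Iic, exp_Iic hμ hs, mul_comm I]

theorem keepLaw_prob (hμ : 0 < μ) {s : ℝ} (hs : 0 ≤ s) (v : Set.Icc lo κ) :
    IsProbabilityMeasure (keepLaw μ q s v) := by
  constructor
  unfold keepLaw
  have : Real.exp (-(μ * s)) ≤ 1 := Real.exp_le_one_iff.2 (by nlinarith)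
  rw [Measure.add_apply, Measure.smul_apply, Measure.smul_apply, measure_univ, measure_univ,
    smul_eq_mul, smul_eq_mul, mul_one, mul_one, ← ENNReal.ofReal_add (Real.exp_pos _).le
      (by linarith)]
  simp

/-- THE LACK OF MEMORY: after the time `s`, the value has the law `keepLaw`, and the rest of the
clock is independent of it and has the law of a fresh clock -/
theorem keep_law (hμ : 0 < μ) {s : ℝ} (hs : 0 ≤ s) (v : Set.Icc lo κ) :
    (clkLaw μ q).map (fun c => (val v c s, sft c s)) = (keepLaw μ q s v).prod (clkLaw μ q) := by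
  have hp := isProbabilityMeasure_expMeasure hμ
  have hk := keepLaw_prob (q := q) hμ hs v
  have g0 : Measurable fun c : Clock lo κ => (v, c, s) :=
    measurable_const.prodMk (measurable_id.prodMk measurable_const)
  have m0 : Measurable fun c : Clock lo κ => (val v c s, sft c s) := measurable_vs.comp g0
  ext E hE
  rw [Measure.map_apply m0 hE, Measure.prod_apply hE]
  set φ : Set.Icc lo κ × Clock lo κ → ℝ≥0∞ := E.indicator fun _ => 1 with hφ
  have hφm : Measurable φ := measurable_const.indicator hE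
  set a : Set.Icc lo κ → ℝ≥0∞ := fun v => ∫⁻ c, φ (v, c) ∂clkLaw μ q with ha
  have ham : Measurable a := hφm.lintegral_prod_right'
  have h1 : Rec μ q a fun s v => ∫⁻ c, φ (val v c s, sft c s) ∂clkLaw μ q :=
    fun s hs v => keep_rec hμ hφm hs v
  have hφ1 : ∀ t, φ t ≤ 1 := by
    intro t
    by_cases ht : t ∈ E
    · rw [hφ, Set.indicator_of_mem ht]
    · rw [hφ, Set.indicator_of_notMem ht]
      exact bot_le
  have hL1 : ∀ g : Clock lo κ → Set.Icc lo κ × Clock lo κ, ∫⁻ c, φ (g c) ∂clkLaw μ q ≤ 1 := by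
    intro g
    calc ∫⁻ c, φ (g c) ∂clkLaw μ q ≤ ∫⁻ _c, 1 ∂clkLaw μ q := lintegral_mono fun c => hφ1 _
      _ = 1 := by simp
  have h2 := rec_sol (q := q) hμ a ham
  have ha1 : ∀ v, a v ≤ 1 := fun v => hL1 fun c => (v, c)
  have h3 : ∫⁻ c, φ (val v c s, sft c s) ∂clkLaw μ q =
      ENNReal.ofReal (Real.exp (-(μ * s))) * a v +
        ENNReal.ofReal (1 - Real.exp (-(μ * s))) * ∫⁻ u, a u ∂q := by
    refine Rec.unique' hμ h1 h2 ?_ ?_ hs v
    · intro s _ v
      exact hL1 fun c => (val v c s, sft c s)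
    · intro s hs v
      have g1 : ∫⁻ u, a u ∂q ≤ 1 := by
        calc ∫⁻ u, a u ∂q ≤ ∫⁻ _u, 1 ∂q := lintegral_mono fun u => ha1 _
          _ = 1 := by simp
      have g2 : Real.exp (-(μ * s)) ≤ 1 := Real.exp_le_one_iff.2 (by nlinarith)
      calc ENNReal.ofReal (Real.exp (-(μ * s))) * a v +
            ENNReal.ofReal (1 - Real.exp (-(μ * s))) * ∫⁻ u, a u ∂q
          ≤ ENNReal.ofReal (Real.exp (-(μ * s))) * 1 +
            ENNReal.ofReal (1 - Real.exp (-(μ * s))) * 1 := by
            gcongr
            exact ha1 v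
        _ = 1 := by
            rw [mul_one, mul_one, ← ENNReal.ofReal_add (Real.exp_pos _).le (by linarith)]
            simp
  have h4 : (clkLaw μ q) ((fun c => (val v c s, sft c s)) ⁻¹' E) =
      ∫⁻ c, φ (val v c s, sft c s) ∂clkLaw μ q := by
    rw [← lintegral_indicator_one (m0 hE)]
    rfl
  have h5 : ∀ v, clkLaw μ q (Prod.mk v ⁻¹' E) = a v := by
    intro v
    rw [← lintegral_indicator_one (measurable_prodMk_left hE)]
    rfl
  rw [h4, h3, lintegral_congr h5]
  unfold keepLaw
  rw [lintegral_add_measure, lintegral_smul_measure, lintegral_smul_measure,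
    lintegral_dirac' _ ham]
  rfl

end law

end Pool.Agent.NVB
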