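import Pool.Agent.NVB.Thin

/-!
# Mixing, uniformly in the dimension: the contraction
-/

set_option autoImplicit false

namespace Pool.Agent.NVB

open MeasureTheory ProbabilityTheory Filter Topology
open scoped Classical ENNReal

variable {d : ℕ} {lo κ : ℝ} {μ : ℝ} {q : Measure (Set.Icc lo κ)} [IsProbabilityMeasure q]

theorem exp_int_exp {κ μ : ℝ} (hκ : 0 < κ) (hμ : 0 < μ) :
    ∫ s, Real.exp (-(μ * s)) ∂expMeasure κ = κ / (κ + μ) := by
  rw [integral_eq_lintegral_of_nonneg_ae (Eventually.of_forall fun s => (Real.exp_pos _).le)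
    (by fun_prop), lintegral_exp_exp hκ hμ, ENNReal.toReal_ofReal (by positivity)]

theorem exp_integrable_exp {κ μ : ℝ} (hκ : 0 < κ) (hμ : 0 < μ) :
    Integrable (fun s => Real.exp (-(μ * s))) (expMeasure κ) := by
  have hpκ := isProbabilityMeasure_expMeasure hκ
  refine Integrable.of_bound (by fun_prop) 1 ?_
  filter_upwards [exp_ae_pos hκ] with s hs
  rw [Real.norm_eq_abs, abs_of_pos (Real.exp_pos _), Real.exp_le_one_iff]
  have := mul_pos hμ hs
  linarith

theorem kp_eq (hμ : 0 < μ) {s : ℝ} (hs : 0 ≤ s) {f : Env d lo κ → ℝ} (hf : Good f)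
    (ρ : Edge d → Measure (Set.Icc lo κ)) [∀ e, IsProbabilityMeasure (ρ e)] :
    ∫ η, f η ∂(Measure.infinitePi fun e : Edge d => kp μ q s (ρ e)) =
      ∫ t : (Edge d → ℝ × Set.Icc lo κ) × Env d lo κ, f (ref (s, t.1) t.2)
        ∂((Measure.infinitePi fun _ : Edge d => (expMeasure μ).prod q).prod
          (Measure.infinitePi ρ)) := by
  rw [← kp_law hμ hs ρ, integral_map (measurable_ref_s s).aemeasurable
    hf.meas.aestronglyMeasurable]

theorem kp_integrable (hκ : 0 < κ) (hμ : 0 < μ) {f : Env d lo κ → ℝ} (hf : Good f)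
    (ρ : Edge d → Measure (Set.Icc lo κ)) [∀ e, IsProbabilityMeasure (ρ e)] :
    Integrable (fun s => ∫ η, f η ∂(Measure.infinitePi fun e : Edge d => kp μ q s (ρ e)))
      (expMeasure κ) := by
  have hp := isProbabilityMeasure_expMeasure hμ
  have hpκ := isProbabilityMeasure_expMeasure hκ
  obtain ⟨C, hC⟩ := hf.bdd
  have m0 : Measurable fun t : ℝ × ((Edge d → ℝ × Set.Icc lo κ) × Env d lo κ) =>
      f (ref (t.1, t.2.1) t.2.2) := by
    have g0 : Measurable fun t : ℝ × ((Edge d → ℝ × Set.Icc lo κ) × Env d lo κ) =>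
        (((t.1, t.2.1) : Gap d lo κ), t.2.2) :=
      (measurable_fst.prodMk (measurable_fst.comp measurable_snd)).prodMk
        (measurable_snd.comp measurable_snd)
    exact hf.meas.comp (measurable_ref.comp g0)
  have h1 : Measurable fun s : ℝ => ∫ t : (Edge d → ℝ × Set.Icc lo κ) × Env d lo κ,
      f (ref (s, t.1) t.2) ∂((Measure.infinitePi fun _ : Edge d => (expMeasure μ).prod q).prod
          (Measure.infinitePi ρ)) := by
    have h5 : StronglyMeasurable (Function.uncurry fun (s : ℝ)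
        (t : (Edge d → ℝ × Set.Icc lo κ) × Env d lo κ) => f (ref (s, t.1) t.2)) :=
      m0.stronglyMeasurable
    exact h5.integral_prod_right.measurable
  have h2 : Integrable (fun s : ℝ => ∫ t : (Edge d → ℝ × Set.Icc lo κ) × Env d lo κ,
      f (ref (s, t.1) t.2) ∂((Measure.infinitePi fun _ : Edge d => (expMeasure μ).prod q).prod
          (Measure.infinitePi ρ))) (expMeasure κ) := by
    refine Integrable.of_bound h1.aestronglyMeasurable C (Eventually.of_forall fun s => ?_)
    have h4 := norm_integral_le_of_norm_le_const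
      (μ := (Measure.infinitePi fun _ : Edge d => (expMeasure μ).prod q).prod
          (Measure.infinitePi ρ))
      (f := fun t : (Edge d → ℝ × Set.Icc lo κ) × Env d lo κ => f (ref (s, t.1) t.2))
      (C := C) (Eventually.of_forall fun η => hC _)
    simpa using h4
  refine h2.congr ?_
  filter_upwards [exp_ae_pos hκ] with s hs
  exact (kp_eq hμ hs.le hf ρ).symm

theorem Th.G (hκ : 0 < κ) (hμ : 0 < μ) {f : Env d lo κ → ℝ} (hf : Good f) {A : ℝ}
    (h : Th f A) : Th (NVB.G μ q f) (κ / (κ + μ) * A) := by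
  have hpκ := isProbabilityMeasure_expMeasure hκ
  intro τ ρ ρ' hτ h1 h2 h3
  rw [integral_G hκ hμ hf ρ, integral_G hκ hμ hf ρ',
    ← integral_sub (kp_integrable hκ hμ hf ρ) (kp_integrable hκ hμ hf ρ')]
  have i1 : Integrable (fun s => A * τ * Real.exp (-(μ * s))) (expMeasure κ) :=
    (exp_integrable_exp hκ hμ).const_mul _
  have h4 : ∀ᵐ s ∂expMeasure κ,
      |∫ η, f η ∂(Measure.infinitePi fun e : Edge d => kp μ q s (ρ e)) -
        ∫ η, f η ∂(Measure.infinitePi fun e : Edge d => kp μ q s (ρ' e))| ≤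
      A * τ * Real.exp (-(μ * s)) := by
    filter_upwards [exp_ae_pos hκ] with s hs
    have h5 := h (Real.exp (-(μ * s)) * τ) (fun e => kp μ q s (ρ e)) (fun e => kp μ q s (ρ' e))
      (by positivity) (fun e => kp_prob hμ hs.le _) (fun e => kp_prob hμ hs.le _)
      fun e => (h3 e).kp hμ hs
    refine h5.trans (le_of_eq ?_)
    ring
  calc |∫ s, (∫ η, f η ∂(Measure.infinitePi fun e : Edge d => kp μ q s (ρ e)) -
        ∫ η, f η ∂(Measure.infinitePi fun e : Edge d => kp μ q s (ρ' e))) ∂expMeasure κ|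
      ≤ ∫ s, |∫ η, f η ∂(Measure.infinitePi fun e : Edge d => kp μ q s (ρ e)) -
        ∫ η, f η ∂(Measure.infinitePi fun e : Edge d => kp μ q s (ρ' e))| ∂expMeasure κ :=
        abs_integral_le_integral_abs
    _ ≤ ∫ s, A * τ * Real.exp (-(μ * s)) ∂expMeasure κ :=
        integral_mono_ae ((kp_integrable hκ hμ hf ρ).sub (kp_integrable hκ hμ hf ρ')).abs i1 h4
    _ = κ / (κ + μ) * A * τ := by
        rw [integral_const_mul, exp_int_exp hκ hμ]
        ring

theorem int_range {f : Env d lo κ → ℝ} (hf : Good f) {u U : ℝ} (hu : ∀ η, u ≤ f η)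
    (hU : ∀ η, f η ≤ U) (m : Measure (Env d lo κ)) [IsProbabilityMeasure m] :
    u ≤ ∫ η, f η ∂m ∧ ∫ η, f η ∂m ≤ U := by
  constructor
  · calc u = ∫ _η, u ∂m := by simp
      _ ≤ _ := integral_mono (integrable_const _) (hf.int m) hu
  · calc ∫ η, f η ∂m ≤ ∫ _η, U ∂m := integral_mono (hf.int m) (integrable_const _) hU
      _ = U := by simp

theorem G_osc' (hκ : 0 < κ) (hμ : 0 < μ) {f : Env d lo κ → ℝ} (hf : Good f) {A o δ s0 : ℝ}
    (hs0 : 0 ≤ s0) (hδ0 : 0 ≤ δ) (hA : 0 ≤ A)
    (ho : ∀ η η', |f η' - f η| ≤ o) (h : Th f A) (hδ : δ ≤ Real.exp (-(κ * s0)))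
    (η η' : Env d lo κ) :
    |G μ q f η' - G μ q f η| ≤ (1 - δ) * o + δ * (Real.exp (-(μ * s0)) * A) := by
  have hpκ := isProbabilityMeasure_expMeasure hκ
  obtain ⟨u, U, hu, hU, huU⟩ := osc_range ho η
  have ho0 : 0 ≤ o := (abs_nonneg _).trans (ho η η)
  have rep : ∀ ζ : Env d lo κ, G μ q f ζ = ∫ s, ∫ η, f η
      ∂(Measure.infinitePi fun e : Edge d => kp μ q s (Measure.dirac (ζ e))) ∂expMeasure κ := by
    intro ζ
    have h1 := integral_G (q := q) hκ hμ hf fun e : Edge d => Measure.dirac (ζ e)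
    rw [Measure.infinitePi_dirac, integral_dirac' _ _ (hf.G hκ hμ).meas.stronglyMeasurable] at h1
    exact h1
  rw [rep η', rep η, ← integral_sub (kp_integrable hκ hμ hf _) (kp_integrable hκ hμ hf _)]
  set m := min o (Real.exp (-(μ * s0)) * A) with hm
  have hm0 : 0 ≤ m := le_min ho0 (by positivity)
  have hbound : ∀ᵐ s ∂expMeasure κ,
      |∫ η, f η ∂(Measure.infinitePi fun e : Edge d => kp μ q s (Measure.dirac (η' e))) -
        ∫ η, f η ∂(Measure.infinitePi fun e : Edge d => kp μ q s (Measure.dirac (η e)))| ≤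
      (Set.Ioi s0)ᶜ.indicator (fun _ => o) s + (Set.Ioi s0).indicator (fun _ => m) s := by
    filter_upwards [exp_ae_pos hκ] with s hs
    have p1 : ∀ ζ : Env d lo κ, ∀ e, IsProbabilityMeasure (kp μ q s (Measure.dirac (ζ e))) :=
      fun ζ e => kp_prob hμ hs.le _
    have c1 : |∫ η, f η ∂(Measure.infinitePi fun e : Edge d => kp μ q s (Measure.dirac (η' e))) -
        ∫ η, f η ∂(Measure.infinitePi fun e : Edge d => kp μ q s (Measure.dirac (η e)))| ≤ o := by
      have := p1 η
      have := p1 η'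
      obtain ⟨a1, a2⟩ := int_range hf hu hU (Measure.infinitePi fun e : Edge d =>
        kp μ q s (Measure.dirac (η' e)))
      obtain ⟨a3, a4⟩ := int_range hf hu hU (Measure.infinitePi fun e : Edge d =>
        kp μ q s (Measure.dirac (η e)))
      rw [abs_le]
      constructor <;> linarith
    by_cases h1 : s0 < s
    · rw [Set.indicator_of_notMem (by simpa using h1), Set.indicator_of_mem (by exact h1),
        zero_add]
      refine le_min c1 ?_
      have h5 := h (Real.exp (-(μ * s)) * 1) (fun e => kp μ q s (Measure.dirac (η' e)))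
        (fun e => kp μ q s (Measure.dirac (η e))) (by positivity) (p1 η') (p1 η)
        fun e => (Cl.one _ _).kp hμ hs
      refine h5.trans ?_
      have h6 : Real.exp (-(μ * s)) ≤ Real.exp (-(μ * s0)) := Real.exp_le_exp.2 (by nlinarith)
      rw [mul_one, mul_comm A]
      exact mul_le_mul_of_nonneg_right h6 hA
    · rw [Set.indicator_of_mem (by simpa using h1), Set.indicator_of_notMem (by exact h1),
        add_zero]
      exact c1
  have i1 : Integrable (fun s => (Set.Ioi s0)ᶜ.indicator (fun _ => o) s +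
      (Set.Ioi s0).indicator (fun _ => m) s) (expMeasure κ) :=
    ((integrable_const _).indicator measurableSet_Ioi.compl).add
      ((integrable_const _).indicator measurableSet_Ioi)
  have hS : (expMeasure κ).real (Set.Ioi s0) = Real.exp (-(κ * s0)) := by
    rw [measureReal_def, exp_Ioi hκ hs0, ENNReal.toReal_ofReal (Real.exp_pos _).le]
  calc |∫ s, (∫ η, f η ∂(Measure.infinitePi fun e : Edge d => kp μ q s (Measure.dirac (η' e))) -
        ∫ η, f η ∂(Measure.infinitePi fun e : Edge d => kp μ q s (Measure.dirac (η e))))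
        ∂expMeasure κ|
      ≤ ∫ s, |∫ η, f η ∂(Measure.infinitePi fun e : Edge d => kp μ q s (Measure.dirac (η' e))) -
        ∫ η, f η ∂(Measure.infinitePi fun e : Edge d => kp μ q s (Measure.dirac (η e)))|
        ∂expMeasure κ := abs_integral_le_integral_abs
    _ ≤ ∫ s, ((Set.Ioi s0)ᶜ.indicator (fun _ => o) s + (Set.Ioi s0).indicator (fun _ => m) s)
        ∂expMeasure κ :=
        integral_mono_ae ((kp_integrable hκ hμ hf _).sub (kp_integrable hκ hμ hf _)).abs i1 hbound
    _ = (1 - Real.exp (-(κ * s0))) * o + Real.exp (-(κ * s0)) * m := by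
        rw [integral_add ((integrable_const _).indicator measurableSet_Ioi.compl)
          ((integrable_const _).indicator measurableSet_Ioi),
          integral_indicator measurableSet_Ioi.compl, integral_indicator measurableSet_Ioi,
          setIntegral_const, setIntegral_const, probReal_compl_eq_one_sub measurableSet_Ioi, hS,
          smul_eq_mul, smul_eq_mul]
    _ ≤ (1 - δ) * o + δ * m := by
        have : m ≤ o := min_le_left _ _
        nlinarith
    _ ≤ (1 - δ) * o + δ * (Real.exp (-(μ * s0)) * A) := by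
        have : m ≤ Real.exp (-(μ * s0)) * A := min_le_right _ _
        have := mul_le_mul_of_nonneg_left this hδ0
        linarith

/-- the expectation of `f` after `j` gaps and attempts -/
noncomputable def It (μ : ℝ) (q : Measure (Set.Icc lo κ)) (l : ℝ) :
    ℕ → (Env d lo κ → ℝ) → Env d lo κ → ℝ
  | 0, f => f
  | j + 1, f => G μ q (Kh l (It μ q l j f))

theorem Good.It (hκ : 0 < κ) (hμ : 0 < μ) (l : ℝ) (j : ℕ) {f : Env d lo κ → ℝ} (hf : Good f) :
    Good (NVB.It μ q l j f) := by
  induction j with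
  | zero => exact hf
  | succ j ih => exact (ih.Kh l).G hκ hμ

theorem Kh_range (hlo : 0 ≤ lo) (hκ : 0 < κ) (l : ℝ) {f : Env d lo κ → ℝ} {u U : ℝ}
    (hu : ∀ η, u ≤ f η) (hU : ∀ η, f η ≤ U) (η : Env d lo κ) : u ≤ Kh l f η ∧ Kh l f η ≤ U := by
  constructor
  · have h1 := Kh_mono hlo hκ l (f := fun _ : Env d lo κ => u) (g := f) hu η
    rwa [Kh_const] at h1
  · have h1 := Kh_mono hlo hκ l (f := f) (g := fun _ : Env d lo κ => U) hU η
    rwa [Kh_const] at h1

theorem Kh_osc (hlo : 0 ≤ lo) (hκ : 0 < κ) (l : ℝ) {f : Env d lo κ → ℝ} {o : ℝ}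
    (ho : ∀ η η', |f η' - f η| ≤ o) (η η' : Env d lo κ) : |Kh l f η' - Kh l f η| ≤ o := by
  obtain ⟨u, U, hu, hU, huU⟩ := osc_range ho η
  obtain ⟨a1, a2⟩ := Kh_range hlo hκ l hu hU η
  obtain ⟨a3, a4⟩ := Kh_range hlo hκ l hu hU η'
  rw [abs_le]
  constructor <;> linarith

/-- exponential mixing; the rate depends only on a bound of `κ / μ` -/
theorem mixing {B : ℝ} (hB : 0 < B) : ∃ ρ : ℝ, 0 < ρ ∧ ρ < 1 ∧
    ∀ (d : ℕ) (lo κ μ : ℝ) (q : Measure (Set.Icc lo κ)) [IsProbabilityMeasure q],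
      0 ≤ lo → 0 < κ → 0 < μ → κ ≤ B * μ →
      ∀ (l : ℝ) (f : Env d lo κ → ℝ) (o A : ℝ), Good f → (∀ η η', |f η' - f η| ≤ o) → 0 ≤ A →
        Th f A → ∀ (j : ℕ) (η η' : Env d lo κ),
          |It μ q l j f η' - It μ q l j f η| ≤ ρ ^ j * (o + A) := by
  set θ : ℝ := 1 / (8 * (B + 1)) with hθ
  have hθ0 : 0 < θ := by positivity
  have hθ1 : θ ≤ 1 / 8 := by
    rw [hθ]
    apply one_div_le_one_div_of_le (by norm_num)
    linarith
  have hlog : Real.log θ < 0 := Real.log_neg hθ0 (by linarith)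
  set δ : ℝ := Real.exp (B * Real.log θ) with hδ
  have hδ0 : 0 < δ := Real.exp_pos _
  have hδ1 : δ < 1 := by
    rw [hδ, Real.exp_lt_one_iff]
    nlinarith
  set ρ : ℝ := max (1 - δ / 2) (1 - 1 / (2 * (B + 1))) with hρ
  have hρ1 : ρ < 1 := by
    rw [hρ]
    apply max_lt
    · linarith
    · have : 0 < 1 / (2 * (B + 1)) := by positivity
      linarith
  have hρ0 : 0 < ρ := by
    have : 1 - δ / 2 ≤ ρ := le_max_left _ _
    linarith
  refine ⟨ρ, hρ0, hρ1, ?_⟩
  intro d lo κ μ q hq hlo hκ hμ hκμ l f o A hf ho hA hT j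
  set s0 := -Real.log θ / μ with hs0
  have hs00 : 0 ≤ s0 := div_nonneg (by linarith) hμ.le
  have e1 : Real.exp (-(μ * s0)) = θ := by
    have : -(μ * s0) = Real.log θ := by
      rw [hs0]
      field_simp
    rw [this, Real.exp_log hθ0]
  have e2 : δ ≤ Real.exp (-(κ * s0)) := by
    rw [hδ, Real.exp_le_exp]
    have h1 : -(κ * s0) = κ / μ * Real.log θ := by
      rw [hs0]
      field_simp
    rw [h1]
    have h2 : κ / μ ≤ B := by
      rw [div_le_iff₀ hμ]
      exact hκμ
    nlinarith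
  have hr : κ / (κ + μ) ≤ B / (B + 1) := by
    rw [div_le_div_iff₀ (by positivity) (by positivity)]
    nlinarith
  have key : ∃ o' A' : ℝ, 0 ≤ A' ∧ (∀ η η' : Env d lo κ,
      |It μ q l j f η' - It μ q l j f η| ≤ o') ∧ Th (It μ q l j f) A' ∧
      o' + δ / 4 * A' ≤ ρ ^ j * (o + δ / 4 * A) := by
    induction j with
    | zero => exact ⟨o, A, hA, ho, hT, by simp⟩
    | succ j ih =>
      obtain ⟨o', A', hA', ho', hT', hle⟩ := ih
      have hg := Good.It (q := q) hκ hμ l j hf
      have hne : Nonempty (Set.Icc lo κ) := nonempty_of_isProbabilityMeasure q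
      have η0 : Env d lo κ := fun _ => hne.some
      have ho0 : 0 ≤ o' := (abs_nonneg _).trans (ho' η0 η0)
      have t1 := Th.Kh hlo hκ l hg hA' ho' hT'
      have o1 := Kh_osc hlo hκ l ho'
      refine ⟨(1 - δ) * o' + δ * (θ * (A' + o')), κ / (κ + μ) * (A' + o'), by positivity, ?_,
        Th.G hκ hμ (hg.Kh l) t1, ?_⟩
      · intro η η'
        have h3 := G_osc' (q := q) hκ hμ (hg.Kh l) hs00 hδ0.le (by positivity) o1 t1 e2 η η'
        rw [e1] at h3
        exact h3
      · have f1 : (1 - δ) * o' + δ * (θ * (A' + o')) + δ / 4 * (κ / (κ + μ) * (A' + o')) ≤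
            ρ * (o' + δ / 4 * A') := by
          have r0 : 0 ≤ κ / (κ + μ) := by positivity
          have r1 : κ / (κ + μ) ≤ 1 := by
            rw [div_le_one (by positivity)]
            linarith
          have g1 : 1 - δ + δ * θ + δ / 4 * (κ / (κ + μ)) ≤ ρ := by
            have : 1 - δ / 2 ≤ ρ := le_max_left _ _
            nlinarith
          have g2 : 4 * θ + κ / (κ + μ) ≤ ρ := by
            have h4 : 1 - 1 / (2 * (B + 1)) ≤ ρ := le_max_right _ _
            have h5 : 4 * θ + B / (B + 1) = 1 - 1 / (2 * (B + 1)) := by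
              rw [hθ]
              field_simp
              ring
            linarith
          have g3 := mul_le_mul_of_nonneg_right g1 ho0
          have g4 := mul_le_mul_of_nonneg_right g2 (by positivity : 0 ≤ δ / 4 * A')
          nlinarith
        calc (1 - δ) * o' + δ * (θ * (A' + o')) + δ / 4 * (κ / (κ + μ) * (A' + o'))
            ≤ ρ * (o' + δ / 4 * A') := f1
          _ ≤ ρ * (ρ ^ j * (o + δ / 4 * A)) := mul_le_mul_of_nonneg_left hle hρ0.le
          _ = ρ ^ (j + 1) * (o + δ / 4 * A) := by ring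
  obtain ⟨o', A', hA', ho', _, hle⟩ := key
  intro η η'
  have h1 : o' ≤ ρ ^ j * (o + δ / 4 * A) := by
    have : 0 ≤ δ / 4 * A' := by positivity
    linarith
  have h2 : ρ ^ j * (o + δ / 4 * A) ≤ ρ ^ j * (o + A) := by
    apply mul_le_mul_of_nonneg_left _ (by positivity)
    nlinarith
  exact (ho' η η').trans (h1.trans h2)

end Pool.Agent.NVB
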