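import Pool.Agent.NVB.Wt

/-!
# Components and their norms
-/

set_option autoImplicit false

namespace Pool.Agent.NVB

open MeasureTheory ProbabilityTheory Filter Topology
open scoped Classical ENNReal

variable {d : ℕ} {lo κ : ℝ} {μ : ℝ} {q : Measure (Set.Icc lo κ)} [IsProbabilityMeasure q]

/-- a component: a finite set of edges and a function of the conductances of these edges -/
abbrev Cmp (d : ℕ) (lo κ : ℝ) : Type := Finset (Edge d) × (Env d lo κ → ℝ)

/-- the properties of a component -/
structure Ok (c : Cmp d lo κ) : Prop where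
  ne : c.1.Nonempty
  bdm : Bdm c.2
  dep : ∀ η η' : Env d lo κ, (∀ e ∈ c.1, η e = η' e) → c.2 η = c.2 η'

theorem Ok.good {c : Cmp d lo κ} (hc : Ok c) : Good c.2 := ⟨hc.bdm.meas, hc.bdm.bdd, ⟨c.1, hc.dep⟩⟩

/-- the norm of a component given the values `x` on `J` -/
noncomputable def nu (q : Measure (Set.Icc lo κ)) (J : Finset (Edge d)) (x : Env d lo κ)
    (c : Cmp d lo κ) : ℝ :=
  if J ⊆ c.1 then 2 ^ c.1.card * ∫ η, |c.2 (ov J x η)| ∂envLaw d q else 0

omit [IsProbabilityMeasure q] in
theorem nu_nonneg (J : Finset (Edge d)) (x : Env d lo κ) (c : Cmp d lo κ) : 0 ≤ nu q J x c := by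
  unfold nu
  split_ifs
  · exact mul_nonneg (by positivity) (integral_nonneg fun _ => abs_nonneg _)
  · exact le_rfl

theorem Bdm.abs_ov {F : Env d lo κ → ℝ} (hF : Bdm F) (J : Finset (Edge d)) (x : Env d lo κ) :
    Bdm fun η => |F (ov J x η)| := by
  obtain ⟨C, hC⟩ := hF.bdd
  refine ⟨(hF.meas.comp (measurable_ov_right J x)).norm, ⟨C, fun η => ?_⟩⟩
  rw [abs_abs]
  exact hC _

theorem Bdm.mul {F H : Env d lo κ → ℝ} (hF : Bdm F) (hH : Bdm H) : Bdm fun η => F η * H η := by
  obtain ⟨C, hC⟩ := hF.bdd
  obtain ⟨C', hC'⟩ := hH.bdd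
  refine ⟨hF.meas.mul hH.meas, ⟨C * C', fun η => ?_⟩⟩
  rw [abs_mul]
  exact mul_le_mul (hC η) (hC' η) (abs_nonneg _) ((abs_nonneg _).trans (hC η))

omit [IsProbabilityMeasure q] in
theorem Bdm.wt (e : Edge d) : Bdm fun η : Env d lo κ => NVB.wt q (η e) := by
  obtain ⟨C, _, hC⟩ := wt_bdd (q := q)
  exact ⟨measurable_wt.comp (measurable_pi_apply e), ⟨C, fun η => hC _⟩⟩

theorem Bdm.const (c : ℝ) : Bdm fun _ : Env d lo κ => c :=
  ⟨measurable_const, ⟨|c|, fun _ => le_rfl⟩⟩

theorem Bdm.add {F H : Env d lo κ → ℝ} (hF : Bdm F) (hH : Bdm H) : Bdm fun η => F η + H η := by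
  obtain ⟨C, hC⟩ := hF.bdd
  obtain ⟨C', hC'⟩ := hH.bdd
  exact ⟨hF.meas.add hH.meas, ⟨C + C', fun η => (abs_add_le _ _).trans (add_le_add (hC η) (hC' η))⟩⟩

theorem Bdm.abs {F : Env d lo κ → ℝ} (hF : Bdm F) : Bdm fun η => |F η| := by
  obtain ⟨C, hC⟩ := hF.bdd
  refine ⟨hF.meas.norm, ⟨C, fun η => ?_⟩⟩
  rw [abs_abs]
  exact hC _

/-! ### multiplication by an affine function of one conductance -/

/-- the components of `(α + β w_e) c` -/
noncomputable def mulC (q : Measure (Set.Icc lo κ)) (e : Edge d) (α β : ℝ) (c : Cmp d lo κ) :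
    List (Cmp d lo κ) :=
  if e ∈ c.1 then [(c.1, fun η => (α + β * wt q (η e)) * c.2 η)]
  else [(c.1, fun η => α * c.2 η), (insert e c.1, fun η => (β * wt q (η e)) * c.2 η)]

omit [IsProbabilityMeasure q] in
theorem mulC_ok (e : Edge d) (α β : ℝ) {c : Cmp d lo κ} (hc : Ok c) :
    ∀ C ∈ mulC q e α β c, Ok C := by
  intro C hC
  unfold mulC at hC
  have hw := Bdm.wt (d := d) (q := q) e
  split_ifs at hC with he
  · rw [List.mem_singleton] at hC
    subst hC
    refine ⟨hc.ne, ((Bdm.const α).add ((Bdm.const β).mul hw)).mul hc.bdm, fun η η' h => ?_⟩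
    dsimp only at h ⊢
    rw [hc.dep η η' h, h e he]
  · rw [List.mem_cons, List.mem_singleton] at hC
    rcases hC with hC | hC
    · subst hC
      exact ⟨hc.ne, (Bdm.const α).mul hc.bdm, fun η η' h => by
        dsimp only at h ⊢
        rw [hc.dep η η' h]⟩
    · subst hC
      refine ⟨Finset.insert_nonempty _ _, ((Bdm.const β).mul hw).mul hc.bdm, fun η η' h => ?_⟩
      dsimp only at h ⊢
      rw [hc.dep η η' fun e' he' => h e' (Finset.mem_insert_of_mem he'),
        h e (Finset.mem_insert_self _ _)]

/-- the sum of the components -/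
noncomputable def ev (l : List (Cmp d lo κ)) (η : Env d lo κ) : ℝ := (l.map fun c => c.2 η).sum

/-- the norm of a list of components given the values `x` on `J` -/
noncomputable def nus (q : Measure (Set.Icc lo κ)) (J : Finset (Edge d)) (x : Env d lo κ)
    (l : List (Cmp d lo κ)) : ℝ := (l.map (nu q J x)).sum

theorem ev_nil (η : Env d lo κ) : ev [] η = 0 := rfl

theorem ev_cons (c : Cmp d lo κ) (l : List (Cmp d lo κ)) (η : Env d lo κ) :
    ev (c :: l) η = c.2 η + ev l η := by
  unfold ev
  simp

theorem ev_append (l l' : List (Cmp d lo κ)) (η : Env d lo κ) :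
    ev (l ++ l') η = ev l η + ev l' η := by
  unfold ev
  simp

omit [IsProbabilityMeasure q] in
theorem nus_nil (J : Finset (Edge d)) (x : Env d lo κ) : nus q J x [] = 0 := rfl

omit [IsProbabilityMeasure q] in
theorem nus_cons (J : Finset (Edge d)) (x : Env d lo κ) (c : Cmp d lo κ)
    (l : List (Cmp d lo κ)) : nus q J x (c :: l) = nu q J x c + nus q J x l := by
  unfold nus
  simp

omit [IsProbabilityMeasure q] in
theorem nus_append (J : Finset (Edge d)) (x : Env d lo κ) (l l' : List (Cmp d lo κ)) :
    nus q J x (l ++ l') = nus q J x l + nus q J x l' := by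
  unfold nus
  simp

omit [IsProbabilityMeasure q] in
theorem nus_nonneg (J : Finset (Edge d)) (x : Env d lo κ) (l : List (Cmp d lo κ)) :
    0 ≤ nus q J x l := by
  induction l with
  | nil => exact le_rfl
  | cons c l ih =>
    rw [nus_cons]
    exact add_nonneg (nu_nonneg J x c) ih

omit [IsProbabilityMeasure q] in
theorem ev_mulC (e : Edge d) (α β : ℝ) (c : Cmp d lo κ) (η : Env d lo κ) :
    ev (mulC q e α β c) η = (α + β * wt q (η e)) * c.2 η := by
  unfold mulC
  split_ifs
  · rw [ev_cons, ev_nil, add_zero]
  · rw [ev_cons, ev_cons, ev_nil, add_zero]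
    ring

/-- `e ∉ J` -/
theorem nus_mulC_out {e : Edge d} {J : Finset (Edge d)} (he : e ∉ J) (α β : ℝ) (x : Env d lo κ)
    {c : Cmp d lo κ} (hc : Ok c) :
    nus q J x (mulC q e α β c) ≤ (|α| + 2 * |β| * s1 q) * nu q J x c +
      |β| * ∫ z, |wt q z| * nu q (insert e J) (Function.update x e z) c ∂q := by
  have hI : 0 ≤ ∫ z, |wt q z| * nu q (insert e J) (Function.update x e z) c ∂q :=
    integral_nonneg fun z => mul_nonneg (abs_nonneg _) (nu_nonneg _ _ _)
  have hn := nu_nonneg (q := q) J x c
  have hs := s1_nonneg (q := q)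
  have hg := hc.bdm.abs_ov J x
  have hw := Bdm.wt (d := d) (q := q) e
  have hgi : Integrable (fun η => |c.2 (ov J x η)|) (envLaw d q) := hg.integrable
  by_cases hJ : J ⊆ c.1
  · by_cases hec : e ∈ c.1
    · -- the edge is tracked
      have h1 : nus q J x (mulC q e α β c) = 2 ^ c.1.card *
          ∫ η, |α + β * wt q (η e)| * |c.2 (ov J x η)| ∂envLaw d q := by
        unfold mulC
        rw [if_pos hec, nus_cons, nus_nil, add_zero]
        unfold nu
        rw [if_pos hJ]
        congr 1
        refine integral_congr_ae (Eventually.of_forall fun η => ?_)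
        beta_reduce
        rw [abs_mul, ov_notMem he]
      have h2 : ∫ η, |α + β * wt q (η e)| * |c.2 (ov J x η)| ∂envLaw d q ≤
          |α| * ∫ η, |c.2 (ov J x η)| ∂envLaw d q +
          |β| * ∫ η, |wt q (η e)| * |c.2 (ov J x η)| ∂envLaw d q := by
        have i1 : Integrable (fun η => |wt q (η e)| * |c.2 (ov J x η)|) (envLaw d q) :=
          (hw.abs.mul hg).integrable
        rw [← integral_const_mul, ← integral_const_mul, ← integral_add (hgi.const_mul _)
          (i1.const_mul _)]
        refine integral_mono ((((Bdm.const α).add ((Bdm.const β).mul hw)).abs.mul hg).integrable)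
          ((hgi.const_mul _).add (i1.const_mul _)) fun η => ?_
        beta_reduce
        have h3 : |α + β * wt q (η e)| ≤ |α| + |β| * |wt q (η e)| := by
          rw [← abs_mul]
          exact abs_add_le _ _
        have := mul_le_mul_of_nonneg_right h3 (abs_nonneg (c.2 (ov J x η)))
        linarith
      have h3 : ∫ η, |wt q (η e)| * |c.2 (ov J x η)| ∂envLaw d q =
          ∫ z, ∫ η, |wt q z| * |c.2 (ov (insert e J) (Function.update x e z) η)|
            ∂envLaw d q ∂q := by
        rw [resample (hw.abs.mul hg) e]
        refine integral_congr_ae (Eventually.of_forall fun z => ?_)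
        refine integral_congr_ae (Eventually.of_forall fun η => ?_)
        beta_reduce
        rw [ov_update he, Function.update_self]
      have h4 : ∫ z, |wt q z| * nu q (insert e J) (Function.update x e z) c ∂q =
          2 ^ c.1.card * ∫ z, ∫ η, |wt q z| *
            |c.2 (ov (insert e J) (Function.update x e z) η)| ∂envLaw d q ∂q := by
        rw [← integral_const_mul]
        refine integral_congr_ae (Eventually.of_forall fun z => ?_)
        beta_reduce
        unfold nu
        rw [if_pos (Finset.insert_subset hec hJ), integral_const_mul]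
        ring
      have h5 : nu q J x c = 2 ^ c.1.card * ∫ η, |c.2 (ov J x η)| ∂envLaw d q := by
        unfold nu
        rw [if_pos hJ]
      rw [h1, h4, h5]
      rw [h3] at h2
      have h6 := mul_le_mul_of_nonneg_left h2 (by positivity : (0 : ℝ) ≤ 2 ^ c.1.card)
      have h7 : 0 ≤ 2 * |β| * s1 q * (2 ^ c.1.card * ∫ η, |c.2 (ov J x η)| ∂envLaw d q) := by
        rw [h5] at hn
        positivity
      linarith
    · -- the edge is new
      have hJ' : J ⊆ insert e c.1 := hJ.trans (Finset.subset_insert _ _)
      have h1 : nus q J x (mulC q e α β c) = 2 ^ c.1.card *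
          (|α| * ∫ η, |c.2 (ov J x η)| ∂envLaw d q) + 2 ^ (c.1.card + 1) *
          (|β| * ∫ η, |wt q (η e)| * |c.2 (ov J x η)| ∂envLaw d q) := by
        have g1 : ∫ η, |α * c.2 (ov J x η)| ∂envLaw d q =
            |α| * ∫ η, |c.2 (ov J x η)| ∂envLaw d q := by
          rw [← integral_const_mul]
          refine integral_congr_ae (Eventually.of_forall fun η => ?_)
          beta_reduce
          rw [abs_mul]
        have g2 : ∫ η, |(β * wt q (ov J x η e)) * c.2 (ov J x η)| ∂envLaw d q =
            |β| * ∫ η, |wt q (η e)| * |c.2 (ov J x η)| ∂envLaw d q := by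
          rw [← integral_const_mul]
          refine integral_congr_ae (Eventually.of_forall fun η => ?_)
          beta_reduce
          rw [abs_mul, abs_mul, ov_notMem he, mul_assoc]
        unfold mulC
        rw [if_neg hec, nus_cons, nus_cons, nus_nil, add_zero]
        unfold nu
        rw [if_pos hJ, if_pos hJ', Finset.card_insert_of_notMem hec]
        dsimp only
        rw [g1, g2]
      have h2 : ∫ η, |wt q (η e)| * |c.2 (ov J x η)| ∂envLaw d q =
          s1 q * ∫ η, |c.2 (ov J x η)| ∂envLaw d q := by
        rw [resample (hw.abs.mul hg) e]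
        unfold s1
        rw [← integral_mul_const]
        refine integral_congr_ae (Eventually.of_forall fun z => ?_)
        beta_reduce
        rw [← integral_const_mul]
        refine integral_congr_ae (Eventually.of_forall fun η => ?_)
        beta_reduce
        rw [Function.update_self]
        congr 2
        refine hc.dep _ _ fun e' he' => ?_
        have hne : e' ≠ e := by
          rintro rfl
          exact hec he'
        unfold ov
        rw [Function.update_of_ne hne]
      have h5 : nu q J x c = 2 ^ c.1.card * ∫ η, |c.2 (ov J x η)| ∂envLaw d q := by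
        unfold nu
        rw [if_pos hJ]
      have h6 : 0 ≤ |β| * ∫ z, |wt q z| * nu q (insert e J) (Function.update x e z) c ∂q :=
        mul_nonneg (abs_nonneg _) hI
      rw [h1, h2, h5, pow_succ]
      linarith
  · have h1 : nus q J x (mulC q e α β c) = 0 := by
      unfold mulC
      split_ifs with hec
      · rw [nus_cons, nus_nil, add_zero]
        unfold nu
        rw [if_neg hJ]
      · rw [nus_cons, nus_cons, nus_nil, add_zero]
        unfold nu
        have h2 : ¬ J ⊆ insert e c.1 := by
          intro h3
          exact hJ fun e' he' => by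
            have h4 := h3 he'
            rw [Finset.mem_insert] at h4
            rcases h4 with h4 | h4
            · subst h4
              exact absurd he' he
            · exact h4
        rw [if_neg hJ, if_neg h2, add_zero]
    rw [h1]
    have := abs_nonneg α
    have := abs_nonneg β
    positivity

omit [IsProbabilityMeasure q] in
/-- `e ∈ J` -/
theorem nus_mulC_in {e : Edge d} {J : Finset (Edge d)} (he : e ∈ J) (α β : ℝ) (x : Env d lo κ)
    {c : Cmp d lo κ} (hc : Ok c) :
    nus q J x (mulC q e α β c) ≤ |α + β * wt q (x e)| * nu q J x c +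
      2 * |β| * |wt q (x e)| * nu q (J.erase e) x c := by
  have hn := nu_nonneg (q := q) J x c
  have hn' := nu_nonneg (q := q) (J.erase e) x c
  by_cases hec : e ∈ c.1
  · have h1 : nus q J x (mulC q e α β c) = |α + β * wt q (x e)| * nu q J x c := by
      unfold mulC
      rw [if_pos hec, nus_cons, nus_nil, add_zero]
      unfold nu
      by_cases hJ : J ⊆ c.1
      · rw [if_pos hJ, if_pos hJ]
        have h2 : ∫ η, |(α + β * wt q (ov J x η e)) * c.2 (ov J x η)| ∂envLaw d q =
            |α + β * wt q (x e)| * ∫ η, |c.2 (ov J x η)| ∂envLaw d q := by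
          rw [← integral_const_mul]
          refine integral_congr_ae (Eventually.of_forall fun η => ?_)
          beta_reduce
          rw [abs_mul, ov_mem he]
        beta_reduce
        rw [h2]
        ring
      · rw [if_neg hJ, if_neg hJ, mul_zero]
    rw [h1]
    have : 0 ≤ 2 * |β| * |wt q (x e)| * nu q (J.erase e) x c := by positivity
    linarith
  · have hJ : ¬ J ⊆ c.1 := fun h => hec (h he)
    have h0 : nu q J x c = 0 := by
      unfold nu
      rw [if_neg hJ]
    have h1 : nus q J x (mulC q e α β c) ≤ 2 * |β| * |wt q (x e)| * nu q (J.erase e) x c := by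
      unfold mulC
      rw [if_neg hec, nus_cons, nus_cons, nus_nil, add_zero]
      have h2 : nu q J x (c.1, fun η => α * c.2 η) = 0 := by
        unfold nu
        exact if_neg hJ
      rw [h2, zero_add]
      by_cases hJ' : J ⊆ insert e c.1
      · have h3 : J.erase e ⊆ c.1 := by
          intro e' he'
          have h4 := hJ' (Finset.mem_of_mem_erase he')
          rw [Finset.mem_insert] at h4
          rcases h4 with h4 | h4
          · exact absurd h4 (Finset.ne_of_mem_erase he')
          · exact h4
        unfold nu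
        rw [if_pos hJ', if_pos h3, Finset.card_insert_of_notMem hec]
        have h4 : ∫ η, |(β * wt q (ov J x η e)) * c.2 (ov J x η)| ∂envLaw d q =
            |β| * |wt q (x e)| * ∫ η, |c.2 (ov (J.erase e) x η)| ∂envLaw d q := by
          rw [← integral_const_mul]
          refine integral_congr_ae (Eventually.of_forall fun η => ?_)
          beta_reduce
          rw [abs_mul, abs_mul, ov_mem he]
          congr 2
          refine hc.dep _ _ fun e' he' => ?_
          have hne : e' ≠ e := by
            rintro rfl
            exact hec he'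
          unfold ov
          simp [hne]
        beta_reduce
        rw [h4, pow_succ]
        exact le_of_eq (by ring)
      · unfold nu
        rw [if_neg hJ']
        have := nu_nonneg (q := q) (J.erase e) x c
        unfold nu at this
        positivity
    rw [h0]
    linarith

end Pool.Agent.NVB
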