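import Pool.Agent.NVB.ExpL

/-!
# The gap operator and the attempt operator
-/

set_option autoImplicit false

namespace Pool.Agent.NVB

open MeasureTheory ProbabilityTheory Filter Topology
open scoped Classical ENNReal

/-- what happens in the time between two attempts: its length `s`, and for every edge a clock `c`
and a new value; the edge is resampled if `c ≤ s` -/
abbrev Gap (d : ℕ) (lo κ : ℝ) : Type := ℝ × (Edge d → ℝ × Set.Icc lo κ)

/-- the environment after the gap -/
noncomputable def ref {d : ℕ} {lo κ : ℝ} (z : Gap d lo κ) (η : Env d lo κ) : Env d lo κ :=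
  fun e => if (z.2 e).1 ≤ z.1 then (z.2 e).2 else η e

/-- the law of a gap: `s` is exponential of rate `κ`, the clocks are exponential of rate `μ`, the new
values have the law `q`, all independent -/
noncomputable def gapLaw (d : ℕ) {lo κ : ℝ} (μ : ℝ) (q : Measure (Set.Icc lo κ)) :
    Measure (Gap d lo κ) :=
  (expMeasure κ).prod (Measure.infinitePi fun _ : Edge d => (expMeasure μ).prod q)

variable {d : ℕ} {lo κ : ℝ}

/-- the probability that an attempt in direction `y` succeeds -/
noncomputable def acc (y : Dir d) (η : Env d lo κ) : ℝ := (η (edge 0 y) : ℝ) / κ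

/-- the expected displacement in an attempt plus the expectation of `f` afterwards -/
noncomputable def K (l : ℝ) (f : Env d lo κ → ℝ) (η : Env d lo κ) : ℝ :=
  ∑ y : Dir d, p l y * (acc y η * (((vec y 0 : ℤ) : ℝ) + f (sh (vec y) η)) + (1 - acc y η) * f η)

/-- the expectation of `f` after an attempt -/
noncomputable def Kh (l : ℝ) (f : Env d lo κ → ℝ) (η : Env d lo κ) : ℝ :=
  ∑ y : Dir d, p l y * (acc y η * f (sh (vec y) η) + (1 - acc y η) * f η)

/-- the expectation of `f` after a gap -/
noncomputable def G (μ : ℝ) (q : Measure (Set.Icc lo κ)) (f : Env d lo κ → ℝ) (η : Env d lo κ) : ℝ :=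
  ∫ z, f (ref z η) ∂gapLaw d μ q

theorem measurable_ref : Measurable fun t : Gap d lo κ × Env d lo κ => ref t.1 t.2 := by
  refine measurable_pi_lambda _ fun e => ?_
  unfold ref
  refine Measurable.ite ?_ ?_ ?_
  · refine measurableSet_le ?_ ?_
    · fun_prop
    · fun_prop
  · fun_prop
  · fun_prop

theorem measurable_ref_left (η : Env d lo κ) : Measurable fun z : Gap d lo κ => ref z η :=
  measurable_ref.comp (measurable_id.prodMk measurable_const)

section acc

theorem Good.acc (y : Dir d) : Good (NVB.acc y : Env d lo κ → ℝ) := by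
  have h : (NVB.acc y : Env d lo κ → ℝ) = fun η => (1 / κ) * ((η (edge 0 y) : ℝ)) := by
    funext η
    unfold NVB.acc
    ring
  rw [h]
  exact (Good.coord _).const_mul _

theorem acc_le (hκ : 0 < κ) (y : Dir d) (η : Env d lo κ) : acc y η ≤ 1 := by
  unfold acc
  rw [div_le_one hκ]
  exact (η (edge 0 y)).2.2

theorem le_acc (hκ : 0 < κ) (y : Dir d) (η : Env d lo κ) : lo / κ ≤ acc y η := by
  unfold acc
  rw [div_le_div_iff_of_pos_right hκ]
  exact (η (edge 0 y)).2.1

end acc

theorem Good.K {f : Env d lo κ → ℝ} (hf : Good f) (l : ℝ) : Good (NVB.K l f) := by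
  unfold NVB.K
  refine Good.sum _ fun y _ => Good.const_mul _ ?_
  exact ((Good.acc y).mul ((Good.const _).add (hf.sh _))).add
    (((Good.const 1).sub (Good.acc y)).mul hf)

theorem Good.Kh {f : Env d lo κ → ℝ} (hf : Good f) (l : ℝ) : Good (NVB.Kh l f) := by
  unfold NVB.Kh
  refine Good.sum _ fun y _ => Good.const_mul _ ?_
  exact ((Good.acc y).mul (hf.sh _)).add (((Good.const 1).sub (Good.acc y)).mul hf)

section gap

variable {μ : ℝ} {q : Measure (Set.Icc lo κ)} [IsProbabilityMeasure q]

theorem gap_prob (hκ : 0 < κ) (hμ : 0 < μ) : IsProbabilityMeasure (gapLaw d μ q) := by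
  have := isProbabilityMeasure_expMeasure hμ
  have := isProbabilityMeasure_expMeasure hκ
  unfold gapLaw
  infer_instance

theorem Good.integrable_ref (hκ : 0 < κ) (hμ : 0 < μ) {f : Env d lo κ → ℝ} (hf : Good f)
    (η : Env d lo κ) : Integrable (fun z => f (ref z η)) (gapLaw d μ q) := by
  have := gap_prob (d := d) (q := q) hκ hμ
  obtain ⟨C, hC⟩ := hf.bdd
  exact Integrable.of_bound (hf.meas.comp (measurable_ref_left η)).aestronglyMeasurable C
    (Eventually.of_forall fun z => hC _)

theorem Good.G (hκ : 0 < κ) (hμ : 0 < μ) {f : Env d lo κ → ℝ} (hf : Good f) :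
    Good (NVB.G μ q f) := by
  have hp := gap_prob (d := d) (q := q) hκ hμ
  obtain ⟨C, hC⟩ := hf.bdd
  obtain ⟨F, hF⟩ := hf.dep
  refine ⟨?_, ⟨C, fun η => ?_⟩, ⟨F, fun η η' h => ?_⟩⟩
  · have h1 : StronglyMeasurable (Function.uncurry fun (η : Env d lo κ) (z : Gap d lo κ) =>
        f (ref z η)) := by
      apply Measurable.stronglyMeasurable
      exact hf.meas.comp (measurable_ref.comp measurable_swap)
    exact h1.integral_prod_right.measurable
  · unfold NVB.G
    have h1 := norm_integral_le_of_norm_le_const (μ := gapLaw d μ q) (f := fun z => f (ref z η))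
      (C := C) (Eventually.of_forall fun z => hC _)
    simpa using h1
  · unfold NVB.G
    refine integral_congr_ae (Eventually.of_forall fun z => hF _ _ fun e he => ?_)
    unfold ref
    rw [h e he]

theorem G_add (hκ : 0 < κ) (hμ : 0 < μ) {f g : Env d lo κ → ℝ} (hf : Good f) (hg : Good g) :
    G μ q (fun η => f η + g η) = fun η => G μ q f η + G μ q g η := by
  funext η
  exact integral_add (hf.integrable_ref hκ hμ η) (hg.integrable_ref hκ hμ η)

theorem G_sub (hκ : 0 < κ) (hμ : 0 < μ) {f g : Env d lo κ → ℝ} (hf : Good f) (hg : Good g) :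
    G μ q (fun η => f η - g η) = fun η => G μ q f η - G μ q g η := by
  funext η
  exact integral_sub (hf.integrable_ref hκ hμ η) (hg.integrable_ref hκ hμ η)

theorem G_const_mul (c : ℝ) (f : Env d lo κ → ℝ) :
    G μ q (fun η => c * f η) = fun η => c * G μ q f η := by
  funext η
  exact integral_const_mul c _

theorem G_sum (hκ : 0 < κ) (hμ : 0 < μ) {ι : Type} (s : Finset ι) {f : ι → Env d lo κ → ℝ}
    (hf : ∀ i ∈ s, Good (f i)) :
    G μ q (fun η => ∑ i ∈ s, f i η) = fun η => ∑ i ∈ s, G μ q (f i) η := by
  funext η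
  exact integral_finsetSum s fun i hi => (hf i hi).integrable_ref hκ hμ η

theorem G_const (hκ : 0 < κ) (hμ : 0 < μ) (c : ℝ) :
    G μ q (fun _ : Env d lo κ => c) = fun _ => c := by
  have hp := gap_prob (d := d) (q := q) hκ hμ
  funext η
  unfold G
  simp

theorem G_mono (hκ : 0 < κ) (hμ : 0 < μ) {f g : Env d lo κ → ℝ} (hf : Good f) (hg : Good g)
    (h : ∀ η, f η ≤ g η) (η : Env d lo κ) : G μ q f η ≤ G μ q g η :=
  integral_mono (hf.integrable_ref hκ hμ η) (hg.integrable_ref hκ hμ η) fun _ => h _

/-- one edge -/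
theorem gap_edge (hκ : 0 < κ) (hμ : 0 < μ) (e : Edge d) :
    MeasurePreserving (fun z : Gap d lo κ => (z.1, z.2 e)) (gapLaw d μ q)
      ((expMeasure κ).prod ((expMeasure μ).prod q)) := by
  have := isProbabilityMeasure_expMeasure hμ
  have := isProbabilityMeasure_expMeasure hκ
  exact (MeasurePreserving.id (expMeasure κ)).prod
    (measurePreserving_eval_infinitePi (fun _ : Edge d => (expMeasure μ).prod q) e)

/-- the probability that an edge is not resampled in a gap -/
theorem gap_keep (hκ : 0 < κ) (hμ : 0 < μ) (e : Edge d) :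
    gapLaw d μ q {z | z.1 < (z.2 e).1} = ENNReal.ofReal (κ / (κ + μ)) := by
  have := isProbabilityMeasure_expMeasure hμ
  have := isProbabilityMeasure_expMeasure hκ
  have h1 := (gap_edge (q := q) hκ hμ e).measure_preimage
    (s := {t : ℝ × ℝ × Set.Icc lo κ | t.1 < t.2.1})
    (measurableSet_lt measurable_fst (measurable_fst.comp measurable_snd)).nullMeasurableSet
  have h2 : MeasurePreserving (fun t : ℝ × ℝ × Set.Icc lo κ => (t.1, t.2.1))
      ((expMeasure κ).prod ((expMeasure μ).prod q)) ((expMeasure κ).prod (expMeasure μ)) :=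
    (MeasurePreserving.id (expMeasure κ)).prod measurePreserving_fst
  have h3 := h2.measure_preimage (s := {t : ℝ × ℝ | t.1 < t.2})
    (measurableSet_lt measurable_fst measurable_snd).nullMeasurableSet
  rw [race hκ hμ] at h3
  rw [← h3]
  exact h1

end gap

end Pool.Agent.NVB
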