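import Pool.Agent.NVB.Gen

/-!
# General product measures: resampling, updating, shifting a coordinate, gaps
-/

set_option autoImplicit false

namespace Pool.Agent.NVB

open MeasureTheory ProbabilityTheory Filter Topology
open scoped Classical ENNReal

section general

variable {ι X : Type} [DecidableEq ι] [MeasurableSpace X]

theorem measurable_gupd (i0 : ι) :
    Measurable fun t : X × (ι → X) => Function.update t.2 i0 t.1 := by
  refine measurable_pi_lambda _ fun i => ?_
  by_cases h : i = i0
  · subst h
    simp only [Function.update_self]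
    exact measurable_fst
  · simp only [Function.update_of_ne h]
    exact (measurable_pi_apply i).comp measurable_snd

theorem measurable_gupd_right (i0 : ι) (b : X) :
    Measurable fun η : ι → X => Function.update η i0 b :=
  (measurable_gupd (X := X) i0).comp (measurable_const.prodMk measurable_id)

theorem gsel_law (ρ : ι → Measure X) [∀ i, IsProbabilityMeasure (ρ i)] (i0 : ι) :
    MeasurePreserving (fun t : (ι → X) × (ι → X) => Function.update t.2 i0 (t.1 i0))
      ((Measure.infinitePi ρ).prod (Measure.infinitePi ρ)) (Measure.infinitePi ρ) := by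
  have g0 : Measurable fun t : (ι → X) × (ι → X) => (t.1 i0, t.2) :=
    ((measurable_pi_apply i0).comp measurable_fst).prodMk measurable_snd
  have m0 : Measurable fun t : (ι → X) × (ι → X) => Function.update t.2 i0 (t.1 i0) :=
    (measurable_gupd (X := X) i0).comp g0
  refine ⟨m0, ?_⟩
  have m2 : Measurable fun t : (ι → X) × (ι → X) => fun e => (t.1 e, t.2 e) :=
    measurable_pi_lambda _ fun i => ((measurable_pi_apply i).comp measurable_fst).prodMk
      ((measurable_pi_apply i).comp measurable_snd)
  have m1 : ∀ e : ι, Measurable fun c : X × X => if e = i0 then c.1 else c.2 := by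
    intro e
    by_cases h : e = i0
    · simp only [if_pos h]
      exact measurable_fst
    · simp only [if_neg h]
      exact measurable_snd
  have m3 : Measurable fun W : ι → X × X => (fun e => if e = i0 then (W e).1 else (W e).2) :=
    measurable_pi_lambda _ fun e => (m1 e).comp (measurable_pi_apply e)
  have h1 := pair_law ρ ρ
  have h2 := Measure.infinitePi_map_pi (fun e : ι => (ρ e).prod (ρ e))
    (f := fun e c => if e = i0 then c.1 else c.2) m1
  have h3 : ∀ e : ι, ((ρ e).prod (ρ e)).map (fun c : X × X => if e = i0 then c.1 else c.2) =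
      ρ e := by
    intro e
    by_cases h : e = i0
    · simp only [if_pos h]
      exact measurePreserving_fst.map_eq
    · simp only [if_neg h]
      exact measurePreserving_snd.map_eq
  have h4 : (Measure.infinitePi fun e : ι => ((ρ e).prod (ρ e)).map
      (fun c : X × X => if e = i0 then c.1 else c.2)) = Measure.infinitePi ρ := by
    congr 1
    funext e
    exact h3 e
  rw [← h1, Measure.map_map m3 m2] at h2
  have h5 : ((fun W : ι → X × X => (fun e => if e = i0 then (W e).1 else (W e).2)) ∘
      fun t : (ι → X) × (ι → X) => fun e => (t.1 e, t.2 e)) =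
      fun t : (ι → X) × (ι → X) => Function.update t.2 i0 (t.1 i0) := by
    funext t e
    by_cases h : e = i0
    · subst h
      simp
    · simp [h]
  rw [h5] at h2
  exact h2.trans h4

/-- resampling one coordinate of a product measure -/
theorem gresample (ρ : ι → Measure X) [∀ i, IsProbabilityMeasure (ρ i)] {F : (ι → X) → ℝ}
    (hF : Measurable F) {C : ℝ} (hC : ∀ η, |F η| ≤ C) (i0 : ι) :
    ∫ η, F η ∂Measure.infinitePi ρ =
      ∫ z, ∫ η, F (Function.update η i0 z) ∂Measure.infinitePi ρ ∂ρ i0 := by
  have h0 := gsel_law ρ i0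
  have h1 : ∫ η, F η ∂Measure.infinitePi ρ = ∫ t : (ι → X) × (ι → X),
      F (Function.update t.2 i0 (t.1 i0)) ∂(Measure.infinitePi ρ).prod (Measure.infinitePi ρ) := by
    rw [← integral_map h0.measurable.aemeasurable hF.aestronglyMeasurable, h0.map_eq]
  have h2 : Integrable (fun t : (ι → X) × (ι → X) => F (Function.update t.2 i0 (t.1 i0)))
      ((Measure.infinitePi ρ).prod (Measure.infinitePi ρ)) :=
    Integrable.of_bound (hF.comp h0.measurable).aestronglyMeasurable C
      (Eventually.of_forall fun t => hC _)
  rw [h1, integral_prod _ h2]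
  have h4 : Measurable fun z : X => ∫ η, F (Function.update η i0 z) ∂Measure.infinitePi ρ := by
    have h5 : StronglyMeasurable (Function.uncurry fun (z : X) (η : ι → X) =>
        F (Function.update η i0 z)) := by
      apply Measurable.stronglyMeasurable
      exact hF.comp (measurable_gupd i0)
    exact h5.integral_prod_right.measurable
  have h6 : MeasurePreserving (fun v : ι → X => v i0) (Measure.infinitePi ρ) (ρ i0) :=
    measurePreserving_eval_infinitePi ρ i0
  have h7 : ∫ v : ι → X, (∫ η, F (Function.update η i0 (v i0)) ∂Measure.infinitePi ρ)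
      ∂Measure.infinitePi ρ =
      ∫ z, ∫ η, F (Function.update η i0 z) ∂Measure.infinitePi ρ
        ∂((Measure.infinitePi ρ).map fun v => v i0) := by
    rw [integral_map h6.measurable.aemeasurable h4.aestronglyMeasurable]
  rw [h7, h6.map_eq]

theorem measurable_int_gupd (ρ : ι → Measure X) [∀ i, IsProbabilityMeasure (ρ i)]
    {F : (ι → X) → ℝ} (hF : Measurable F) (i0 : ι) :
    Measurable fun z : X => ∫ η, F (Function.update η i0 z) ∂Measure.infinitePi ρ := by
  have h5 : StronglyMeasurable (Function.uncurry fun (z : X) (η : ι → X) =>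
      F (Function.update η i0 z)) := by
    apply Measurable.stronglyMeasurable
    exact hF.comp (measurable_gupd i0)
  exact h5.integral_prod_right.measurable

/-- the value of one coordinate is fixed -/
theorem gupdate (ρ : ι → Measure X) [∀ i, IsProbabilityMeasure (ρ i)] (i0 : ι) (b : X) :
    (Measure.infinitePi ρ).map (fun η => Function.update η i0 b) =
      Measure.infinitePi (fun i => if i = i0 then Measure.dirac b else ρ i) := by
  have m1 : ∀ e : ι, Measurable fun c : X => if e = i0 then b else c := by
    intro e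
    by_cases h : e = i0
    · simp only [if_pos h]
      exact measurable_const
    · simp only [if_neg h]
      exact measurable_id
  have h2 := Measure.infinitePi_map_pi ρ (f := fun e c => if e = i0 then b else c) m1
  have h3 : (fun (x : ι → X) i => if i = i0 then b else x i) =
      fun η => Function.update η i0 b := by
    funext x i
    by_cases h : i = i0
    · subst h
      simp
    · simp [h]
  rw [h3] at h2
  rw [h2]
  congr 1
  funext i
  by_cases h : i = i0
  · simp only [if_pos h]
    rw [Measure.map_const, measure_univ, one_smul]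
  · simp only [if_neg h]
    exact Measure.map_id

theorem integral_gupdate (ρ : ι → Measure X) [∀ i, IsProbabilityMeasure (ρ i)] {F : (ι → X) → ℝ}
    (hF : Measurable F) (i0 : ι) (b : X) :
    ∫ η, F (Function.update η i0 b) ∂Measure.infinitePi ρ =
      ∫ η, F η ∂Measure.infinitePi (fun i => if i = i0 then Measure.dirac b else ρ i) := by
  rw [← gupdate, integral_map (measurable_gupd_right i0 b).aemeasurable hF.aestronglyMeasurable]

end general

variable {d : ℕ} {lo κ : ℝ} {μ : ℝ} {q : Measure (Set.Icc lo κ)} [IsProbabilityMeasure q]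

/-- shifting a product measure -/
theorem gshift (ρ : Edge d → Measure (Set.Icc lo κ)) [∀ e, IsProbabilityMeasure (ρ e)]
    (x : Site d) :
    (Measure.infinitePi ρ).map (sh x) = Measure.infinitePi fun e : Edge d => ρ (e.1 + x, e.2) := by
  have h2 := Measure.infinitePi_map_piCongrLeft (fun e : Edge d => ρ (e.1 + x, e.2))
    ((Equiv.subRight x).prodCongr (Equiv.refl (Fin (d + 1))))
  have h4 : (sh x : Env d lo κ → Env d lo κ) =
      (MeasurableEquiv.piCongrLeft (fun _ : Edge d => Set.Icc lo κ)
        ((Equiv.subRight x).prodCongr (Equiv.refl (Fin (d + 1))))) := by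
    funext c e
    rw [MeasurableEquiv.coe_piCongrLeft]
    have h3 := Equiv.piCongrLeft_apply_apply (fun _ : Edge d => Set.Icc lo κ)
      ((Equiv.subRight x).prodCongr (Equiv.refl (Fin (d + 1)))) c (e.1 + x, e.2)
    simpa [sh] using h3.symm
  rw [h4, ← h2]
  congr 1
  congr 1
  funext e
  simp

theorem integral_gshift (ρ : Edge d → Measure (Set.Icc lo κ)) [∀ e, IsProbabilityMeasure (ρ e)]
    {F : Env d lo κ → ℝ} (hF : Measurable F) (x : Site d) :
    ∫ η, F (sh x η) ∂Measure.infinitePi ρ =
      ∫ η, F η ∂Measure.infinitePi fun e : Edge d => ρ (e.1 + x, e.2) := by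
  rw [← gshift, integral_map (measurable_sh x).aemeasurable hF.aestronglyMeasurable]

/-- the law of a conductance of law `α` after the time `s` -/
noncomputable def kp (μ : ℝ) (q : Measure (Set.Icc lo κ)) (s : ℝ) (α : Measure (Set.Icc lo κ)) :
    Measure (Set.Icc lo κ) :=
  ENNReal.ofReal (Real.exp (-(μ * s))) • α + ENNReal.ofReal (1 - Real.exp (-(μ * s))) • q

theorem kp_prob (hμ : 0 < μ) {s : ℝ} (hs : 0 ≤ s) (α : Measure (Set.Icc lo κ))
    [IsProbabilityMeasure α] : IsProbabilityMeasure (kp μ q s α) := by
  constructor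
  unfold kp
  have : Real.exp (-(μ * s)) ≤ 1 := Real.exp_le_one_iff.2 (by nlinarith)
  rw [Measure.add_apply, Measure.smul_apply, Measure.smul_apply, measure_univ, measure_univ,
    smul_eq_mul, smul_eq_mul, mul_one, mul_one, ← ENNReal.ofReal_add (Real.exp_pos _).le
      (by linarith)]
  simp

theorem measurable_ref_s (s : ℝ) :
    Measurable fun t : (Edge d → ℝ × Set.Icc lo κ) × Env d lo κ => ref (s, t.1) t.2 :=
  measurable_ref.comp ((measurable_const.prodMk measurable_fst).prodMk measurable_snd)

/-- a product measure after a gap of length `s` -/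
theorem kp_law (hμ : 0 < μ) {s : ℝ} (hs : 0 ≤ s) (ρ : Edge d → Measure (Set.Icc lo κ))
    [∀ e, IsProbabilityMeasure (ρ e)] :
    ((Measure.infinitePi fun _ : Edge d => (expMeasure μ).prod q).prod
      (Measure.infinitePi ρ)).map (fun t => ref (s, t.1) t.2) =
      Measure.infinitePi fun e : Edge d => kp μ q s (ρ e) := by
  have hp := isProbabilityMeasure_expMeasure hμ
  have m1 : Measurable fun c : (ℝ × Set.Icc lo κ) × Set.Icc lo κ =>
      if c.1.1 ≤ s then c.1.2 else c.2 :=
    Measurable.ite (measurableSet_le (measurable_fst.comp measurable_fst) measurable_const)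
      (measurable_snd.comp measurable_fst) measurable_snd
  have m2 : Measurable fun t : (Edge d → ℝ × Set.Icc lo κ) × Env d lo κ =>
      fun e => (t.1 e, t.2 e) :=
    measurable_pi_lambda _ fun i => ((measurable_pi_apply i).comp measurable_fst).prodMk
      ((measurable_pi_apply i).comp measurable_snd)
  have m3 : Measurable fun W : Edge d → (ℝ × Set.Icc lo κ) × Set.Icc lo κ =>
      (fun e => if (W e).1.1 ≤ s then (W e).1.2 else (W e).2) :=
    measurable_pi_lambda _ fun e => m1.comp (measurable_pi_apply e)
  have h1 := pair_law (fun _ : Edge d => (expMeasure μ).prod q) ρ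
  have h2 := Measure.infinitePi_map_pi (fun e : Edge d => ((expMeasure μ).prod q).prod (ρ e))
    (f := fun _ c => if c.1.1 ≤ s then c.1.2 else c.2) fun _ => m1
  rw [← h1, Measure.map_map m3 m2] at h2
  have h5 : ((fun W : Edge d → (ℝ × Set.Icc lo κ) × Set.Icc lo κ =>
      (fun e => if (W e).1.1 ≤ s then (W e).1.2 else (W e).2)) ∘
      fun t : (Edge d → ℝ × Set.Icc lo κ) × Env d lo κ => fun e => (t.1 e, t.2 e)) =
      fun t => ref (s, t.1) t.2 := rfl
  rw [h5] at h2
  rw [h2]
  congr 1
  funext e
  ext E hE
  rw [Measure.map_apply m1 hE]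
  have h2 : (fun c : (ℝ × Set.Icc lo κ) × Set.Icc lo κ => if c.1.1 ≤ s then c.1.2 else c.2) ⁻¹' E =
      ((Set.Iic s ×ˢ E) ×ˢ Set.univ) ∪ ((Set.Ioi s ×ˢ Set.univ) ×ˢ E) := by
    ext c
    simp only [Set.mem_preimage, Set.mem_union, Set.mem_prod, Set.mem_Iic, Set.mem_Ioi,
      Set.mem_univ, and_true]
    by_cases hc : c.1.1 ≤ s
    · rw [if_pos hc]
      constructor
      · intro h
        exact Or.inl ⟨hc, h⟩
      · rintro (h | h)
        · exact h.2
        · exact absurd h.1 (not_lt.2 hc)
    · rw [if_neg hc]
      constructor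
      · intro h
        exact Or.inr ⟨not_le.1 hc, h⟩
      · rintro (h | h)
        · exact absurd h.1 hc
        · exact h.2
  have h3 : Disjoint ((((Set.Iic s : Set ℝ) ×ˢ E) ×ˢ (Set.univ : Set (Set.Icc lo κ))))
      ((((Set.Ioi s : Set ℝ) ×ˢ (Set.univ : Set (Set.Icc lo κ))) ×ˢ E)) := by
    rw [Set.disjoint_left]
    rintro c ⟨⟨h4, _⟩, _⟩ ⟨⟨h5, _⟩, _⟩
    exact not_lt.2 (Set.mem_Iic.1 h4) (Set.mem_Ioi.1 h5)
  rw [h2, measure_union h3 ((measurableSet_Ioi.prod MeasurableSet.univ).prod hE),
    Measure.prod_prod, Measure.prod_prod, Measure.prod_prod, Measure.prod_prod,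
    exp_Iic hμ hs, exp_Ioi hμ hs]
  unfold kp
  rw [Measure.add_apply, Measure.smul_apply, Measure.smul_apply, add_comm]
  simp

/-- `G` as an integral over the length of the gap -/
theorem G_eq (hκ : 0 < κ) (hμ : 0 < μ) {f : Env d lo κ → ℝ} (hf : Good f) (η : Env d lo κ) :
    G μ q f η = ∫ s, ∫ C, f (ref (s, C) η)
      ∂(Measure.infinitePi fun _ : Edge d => (expMeasure μ).prod q) ∂expMeasure κ := by
  have hp := isProbabilityMeasure_expMeasure hμ
  have hpκ := isProbabilityMeasure_expMeasure hκ
  exact integral_prod _ (hf.integrable_ref hκ hμ η)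

/-- the expectation of `G f` for a product measure -/
theorem integral_G (hκ : 0 < κ) (hμ : 0 < μ) {f : Env d lo κ → ℝ} (hf : Good f)
    (ρ : Edge d → Measure (Set.Icc lo κ)) [∀ e, IsProbabilityMeasure (ρ e)] :
    ∫ η, G μ q f η ∂Measure.infinitePi ρ =
      ∫ s, ∫ η, f η ∂(Measure.infinitePi fun e : Edge d => kp μ q s (ρ e)) ∂expMeasure κ := by
  have hp := isProbabilityMeasure_expMeasure hμ
  have hpκ := isProbabilityMeasure_expMeasure hκ
  obtain ⟨C0, hC0⟩ := hf.bdd
  set P0 := (Measure.infinitePi fun _ : Edge d => (expMeasure μ).prod q) with hP0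
  have m0 : Measurable fun t : (ℝ × (Edge d → ℝ × Set.Icc lo κ)) × Env d lo κ =>
      f (ref t.1 t.2) := hf.meas.comp measurable_ref
  have h1 : ∫ η, G μ q f η ∂Measure.infinitePi ρ =
      ∫ z, ∫ η, f (ref z η) ∂Measure.infinitePi ρ ∂gapLaw d μ q := by
    have hg := gap_prob (d := d) (q := q) hκ hμ
    unfold G
    rw [integral_integral_swap]
    exact Integrable.of_bound (m0.comp measurable_swap).aestronglyMeasurable C0
      (Eventually.of_forall fun t => hC0 _)
  rw [h1]
  have h2 : Integrable (fun z : Gap d lo κ => ∫ η, f (ref z η) ∂Measure.infinitePi ρ)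
      ((expMeasure κ).prod P0) := by
    have h3 : Measurable fun z : Gap d lo κ => ∫ η, f (ref z η) ∂Measure.infinitePi ρ := by
      have h5 : StronglyMeasurable (Function.uncurry fun (z : Gap d lo κ) (η : Env d lo κ) =>
          f (ref z η)) := m0.stronglyMeasurable
      exact h5.integral_prod_right.measurable
    refine Integrable.of_bound h3.aestronglyMeasurable C0 (Eventually.of_forall fun z => ?_)
    have h4 := norm_integral_le_of_norm_le_const (μ := Measure.infinitePi ρ)
      (f := fun η => f (ref z η)) (C := C0) (Eventually.of_forall fun η => hC0 _)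
    simpa using h4
  have h3 : gapLaw d μ q = (expMeasure κ).prod P0 := rfl
  rw [h3, integral_prod _ h2]
  refine integral_congr_ae ?_
  filter_upwards [exp_ae_pos hκ] with s hs
  rw [← kp_law hμ hs.le ρ, integral_map (measurable_ref_s s).aemeasurable
    hf.meas.aestronglyMeasurable, integral_prod]
  exact Integrable.of_bound (hf.meas.comp (measurable_ref_s s)).aestronglyMeasurable C0
    (Eventually.of_forall fun t => hC0 _)

end Pool.Agent.NVB
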