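import Pool.Agent.NVB.Defs

/-!
# Direction probabilities
-/

set_option autoImplicit false

namespace Pool.Agent.NVB

open MeasureTheory ProbabilityTheory Filter Topology

variable {d : ℕ}

/-- the direction `e₁` -/
abbrev plus (d : ℕ) : Dir d := (0, true)

/-- the direction `-e₁` -/
abbrev minus (d : ℕ) : Dir d := (0, false)

theorem vec_plus : (vec (plus d) 0 : ℤ) = 1 := by simp [vec]

theorem vec_minus : (vec (minus d) 0 : ℤ) = -1 := by simp [vec]

theorem vec_nonpos {y : Dir d} (hy : y ≠ plus d) : (vec y 0 : ℤ) ≤ 0 := by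
  obtain ⟨i, b⟩ := y
  by_cases hi : i = 0
  · subst hi
    cases b
    · rw [vec_minus]
      norm_num
    · exact absurd rfl hy
  · have : (vec (i, b) 0 : ℤ) = 0 := by
      unfold vec
      exact Pi.single_eq_of_ne (Ne.symm hi) _
    rw [this]

theorem vec_abs_le (y : Dir d) : |(vec y 0 : ℤ)| ≤ 1 := by
  obtain ⟨i, b⟩ := y
  by_cases hi : i = 0
  · subst hi
    cases b
    · rw [vec_minus]
      norm_num
    · rw [vec_plus]
      norm_num
  · have : (vec (i, b) 0 : ℤ) = 0 := by
      unfold vec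
      exact Pi.single_eq_of_ne (Ne.symm hi) _
    rw [this]
    norm_num

theorem Z_pos (l : ℝ) : 0 < Z d l :=
  Finset.sum_pos (fun _ _ => Real.exp_pos _) ⟨plus d, Finset.mem_univ _⟩

theorem p_nonneg (l : ℝ) (y : Dir d) : 0 ≤ p l y := div_nonneg (Real.exp_pos _).le (Z_pos l).le

theorem sum_p (l : ℝ) : ∑ y : Dir d, p l y = 1 := by
  unfold p
  rw [← Finset.sum_div]
  exact div_self (Z_pos l).ne'

theorem Z_eq (l : ℝ) : Z d l = 2 * d + (Real.exp l + Real.exp (-l)) := by
  unfold Z
  rw [Fintype.sum_prod_type, Fin.sum_univ_succ]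
  have h0 : ∑ b : Bool, Real.exp (l * (vec ((0, b) : Dir d) 0 : ℤ)) = Real.exp l + Real.exp (-l) := by
    rw [Fintype.sum_bool]
    have h1 := vec_plus (d := d)
    have h2 := vec_minus (d := d)
    unfold plus at h1
    unfold minus at h2
    rw [h1, h2]
    norm_num
  have h1 : ∀ i : Fin d, ∑ b : Bool, Real.exp (l * (vec ((i.succ, b) : Dir d) 0 : ℤ)) = 2 := by
    intro i
    have h2 : ∀ b : Bool, (vec ((i.succ, b) : Dir d) 0 : ℤ) = 0 := by
      intro b
      unfold vec
      exact Pi.single_eq_of_ne (Fin.succ_ne_zero i).symm _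
    rw [Fintype.sum_bool, h2, h2]
    norm_num
  rw [h0, Finset.sum_congr rfl fun i _ => h1 i]
  simp
  ring

theorem Z_mono {l l' : ℝ} (hl : 0 ≤ l) (h : l ≤ l') : Z d l ≤ Z d l' := by
  rw [Z_eq, Z_eq]
  have h1 : Real.cosh l ≤ Real.cosh l' := by
    rw [Real.cosh_le_cosh, abs_of_nonneg hl, abs_of_nonneg (hl.trans h)]
    exact h
  rw [Real.cosh_eq, Real.cosh_eq] at h1
  linarith

/-- the probabilities of the other directions decrease -/
theorem p_anti {l l' : ℝ} (hl : 0 ≤ l) (h : l ≤ l') {y : Dir d} (hy : y ≠ plus d) :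
    p l' y ≤ p l y := by
  unfold p
  apply div_le_div₀ (Real.exp_pos _).le _ (Z_pos l) (Z_mono hl h)
  rw [Real.exp_le_exp]
  have h1 : ((vec y 0 : ℤ) : ℝ) ≤ 0 := by exact_mod_cast vec_nonpos hy
  nlinarith

theorem p_minus_lt {l l' : ℝ} (hl : 0 ≤ l) (h : l < l') : p l' (minus d) < p l (minus d) := by
  unfold p
  rw [vec_minus]
  apply div_lt_div₀ _ (Z_mono hl h.le) (Real.exp_pos _).le (Z_pos l)
  rw [Real.exp_lt_exp]
  push_cast
  linarith

/-- the gain of the forward direction -/
theorem p_plus_eq (l l' : ℝ) : p l' (plus d) - p l (plus d) =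
    ∑ y ∈ Finset.univ.erase (plus d), (p l y - p l' y) := by
  have h1 := Finset.add_sum_erase Finset.univ (fun y : Dir d => p l y) (Finset.mem_univ (plus d))
  have h2 := Finset.add_sum_erase Finset.univ (fun y : Dir d => p l' y) (Finset.mem_univ (plus d))
  rw [sum_p] at h1 h2
  rw [Finset.sum_sub_distrib]
  linarith

theorem p_plus_lt {l l' : ℝ} (hl : 0 ≤ l) (h : l < l') : p l (plus d) < p l' (plus d) := by
  have h1 := p_plus_eq (d := d) l l'
  have h2 : 0 < ∑ y ∈ Finset.univ.erase (plus d), (p l y - p l' y) := by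
    apply Finset.sum_pos'
    · intro y hy
      have := p_anti hl h.le (Finset.ne_of_mem_erase hy)
      linarith
    · refine ⟨minus d, Finset.mem_erase.2 ⟨by simp, Finset.mem_univ _⟩, ?_⟩
      have := p_minus_lt (d := d) hl h
      linarith
  linarith

end Pool.Agent.NVB
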