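import Pool.Agent.NVB.Nu

/-!
# Decompositions of functions of the environment
-/

set_option autoImplicit false

namespace Pool.Agent.NVB

open MeasureTheory ProbabilityTheory Filter Topology
open scoped Classical ENNReal

variable {d : ℕ} {lo κ : ℝ} {μ : ℝ} {q : Measure (Set.Icc lo κ)} [IsProbabilityMeasure q]

/-! ### translations -/

/-- the translate of a component -/
noncomputable def shC (y : Site d) (c : Cmp d lo κ) : Cmp d lo κ :=
  (c.1.image fun e => (e.1 + y, e.2), fun η => c.2 (sh y η))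

theorem shE_inj (y : Site d) : Function.Injective fun e : Edge d => ((e.1 + y, e.2) : Edge d) := by
  intro e e' h
  simp only [Prod.mk.injEq, add_left_inj] at h
  exact Prod.ext h.1 h.2

theorem shE_inj' (y : Site d) : Function.Injective fun e : Edge d => ((e.1 - y, e.2) : Edge d) := by
  intro e e' h
  simp only [Prod.mk.injEq, sub_left_inj] at h
  exact Prod.ext h.1 h.2

theorem shC_ok (y : Site d) {c : Cmp d lo κ} (hc : Ok c) : Ok (shC y c) := by
  obtain ⟨C, hC⟩ := hc.bdm.bdd
  refine ⟨hc.ne.image _, ⟨hc.bdm.meas.comp (measurable_sh y), ⟨C, fun η => hC _⟩⟩,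
    fun η η' h => hc.dep _ _ fun e he => ?_⟩
  exact h (e.1 + y, e.2) (Finset.mem_image_of_mem (fun e : Edge d => (e.1 + y, e.2)) he)

/-- the translate of a set of edges -/
noncomputable def shJ (y : Site d) (J : Finset (Edge d)) : Finset (Edge d) :=
  J.image fun e => (e.1 - y, e.2)

theorem mem_shJ (y : Site d) (J : Finset (Edge d)) (e : Edge d) :
    e ∈ shJ y J ↔ (e.1 + y, e.2) ∈ J := by
  unfold shJ
  rw [Finset.mem_image]
  constructor
  · rintro ⟨e', he', rfl⟩
    simpa using he'
  · intro h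
    exact ⟨(e.1 + y, e.2), h, by simp⟩

theorem sh_ov (y : Site d) (J : Finset (Edge d)) (x η : Env d lo κ) :
    sh y (ov J x η) = ov (shJ y J) (sh y x) (sh y η) := by
  funext e
  unfold sh ov
  beta_reduce
  by_cases h : ((e.1 + y, e.2) : Edge d) ∈ J
  · rw [if_pos h, if_pos ((mem_shJ y J e).2 h)]
  · rw [if_neg h, if_neg fun h' => h ((mem_shJ y J e).1 h')]

theorem nu_shC (y : Site d) (J : Finset (Edge d)) (x : Env d lo κ) {c : Cmp d lo κ} (hc : Ok c) :
    nu q J x (shC y c) = nu q (shJ y J) (sh y x) c := by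
  unfold nu shC
  dsimp only
  have h1 : J ⊆ (c.1.image fun e => (e.1 + y, e.2)) ↔ shJ y J ⊆ c.1 := by
    constructor
    · intro h e he
      have h2 := h ((mem_shJ y J e).1 he)
      rw [Finset.mem_image] at h2
      obtain ⟨e', he', h3⟩ := h2
      rwa [← shE_inj y h3]
    · intro h e he
      rw [Finset.mem_image]
      exact ⟨(e.1 - y, e.2), h ((mem_shJ y J _).2 (by simpa using he)), by simp⟩
  have h2 : (c.1.image fun e => ((e.1 + y, e.2) : Edge d)).card = c.1.card :=
    Finset.card_image_of_injective _ (shE_inj y)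
  have h3 : ∫ η, |c.2 (sh y (ov J x η))| ∂envLaw d q =
      ∫ η, |c.2 (ov (shJ y J) (sh y x) η)| ∂envLaw d q := by
    rw [← int_shift (hc.bdm.abs_ov (shJ y J) (sh y x)).meas y]
    refine integral_congr_ae (Eventually.of_forall fun η => ?_)
    beta_reduce
    rw [sh_ov]
  rw [h2, h3]
  by_cases h4 : shJ y J ⊆ c.1
  · rw [if_pos h4, if_pos (h1.2 h4)]
  · rw [if_neg h4, if_neg fun h5 => h4 (h1.1 h5)]

theorem nus_shC (y : Site d) (J : Finset (Edge d)) (x : Env d lo κ) {l : List (Cmp d lo κ)}
    (hl : ∀ c ∈ l, Ok c) : nus q J x (l.map (shC y)) = nus q (shJ y J) (sh y x) l := by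
  induction l with
  | nil => rfl
  | cons c l ih =>
    rw [List.map_cons, nus_cons, nus_cons, nu_shC y J x (hl c (by simp)),
      ih fun c hc => hl c (by simp [hc])]

theorem ev_shC (y : Site d) (l : List (Cmp d lo κ)) (η : Env d lo κ) :
    ev (l.map (shC y)) η = ev l (sh y η) := by
  induction l with
  | nil => rfl
  | cons c l ih =>
    rw [List.map_cons, ev_cons, ev_cons, ih]
    rfl

/-! ### multiplication by numbers -/

/-- the multiple of a component -/
noncomputable def smC (k : ℝ) (c : Cmp d lo κ) : Cmp d lo κ := (c.1, fun η => k * c.2 η)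

theorem smC_ok (k : ℝ) {c : Cmp d lo κ} (hc : Ok c) : Ok (smC k c) :=
  ⟨hc.ne, (Bdm.const k).mul hc.bdm, fun η η' h => by
    have := hc.dep η η' h
    unfold smC
    dsimp only
    rw [this]⟩

omit [IsProbabilityMeasure q] in
theorem nu_smC (k : ℝ) (J : Finset (Edge d)) (x : Env d lo κ) (c : Cmp d lo κ) :
    nu q J x (smC k c) = |k| * nu q J x c := by
  unfold nu smC
  dsimp only
  have h3 : ∫ η, |k * c.2 (ov J x η)| ∂envLaw d q = |k| * ∫ η, |c.2 (ov J x η)| ∂envLaw d q := by
    rw [← integral_const_mul]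
    refine integral_congr_ae (Eventually.of_forall fun η => ?_)
    beta_reduce
    rw [abs_mul]
  rw [h3]
  split_ifs
  · ring
  · ring

omit [IsProbabilityMeasure q] in
theorem nus_smC (k : ℝ) (J : Finset (Edge d)) (x : Env d lo κ) (l : List (Cmp d lo κ)) :
    nus q J x (l.map (smC k)) = |k| * nus q J x l := by
  induction l with
  | nil =>
    rw [List.map_nil, nus_nil, mul_zero]
  | cons c l ih =>
    rw [List.map_cons, nus_cons, nus_cons, nu_smC, ih]
    ring

theorem ev_smC (k : ℝ) (l : List (Cmp d lo κ)) (η : Env d lo κ) :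
    ev (l.map (smC k)) η = k * ev l η := by
  induction l with
  | nil =>
    rw [List.map_nil, ev_nil, mul_zero]
  | cons c l ih =>
    rw [List.map_cons, ev_cons, ev_cons, ih]
    unfold smC
    ring

/-! ### multiplication by an affine function -/

/-- the components of `(α + β w_e)` times a list -/
noncomputable def mulL (q : Measure (Set.Icc lo κ)) (e : Edge d) (α β : ℝ)
    (l : List (Cmp d lo κ)) : List (Cmp d lo κ) := l.flatMap (mulC q e α β)

omit [IsProbabilityMeasure q] in
theorem mulL_cons (e : Edge d) (α β : ℝ) (c : Cmp d lo κ) (l : List (Cmp d lo κ)) :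
    mulL q e α β (c :: l) = mulC q e α β c ++ mulL q e α β l := by
  unfold mulL
  rw [List.flatMap_cons]

omit [IsProbabilityMeasure q] in
theorem mulL_ok (e : Edge d) (α β : ℝ) {l : List (Cmp d lo κ)} (hl : ∀ c ∈ l, Ok c) :
    ∀ c ∈ mulL q e α β l, Ok c := by
  intro c hc
  unfold mulL at hc
  rw [List.mem_flatMap] at hc
  obtain ⟨c', hc', h⟩ := hc
  exact mulC_ok e α β (hl c' hc') c h

omit [IsProbabilityMeasure q] in
theorem ev_mulL (e : Edge d) (α β : ℝ) (l : List (Cmp d lo κ)) (η : Env d lo κ) :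
    ev (mulL q e α β l) η = (α + β * wt q (η e)) * ev l η := by
  induction l with
  | nil =>
    change (0 : ℝ) = _ * 0
    rw [mul_zero]
  | cons c l ih =>
    rw [mulL_cons, ev_append, ev_mulC, ih, ev_cons]
    ring

theorem nu_meas (J : Finset (Edge d)) {c : Cmp d lo κ} (hc : Ok c) :
    Measurable fun x : Env d lo κ => nu q J x c := by
  unfold nu
  by_cases hJ : J ⊆ c.1
  · simp only [if_pos hJ]
    have h1 : StronglyMeasurable (Function.uncurry fun (x : Env d lo κ) (η : Env d lo κ) =>
        |c.2 (ov J x η)|) := by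
      apply Measurable.stronglyMeasurable
      exact (hc.bdm.meas.comp (measurable_ov J)).norm
    exact h1.integral_prod_right.measurable.const_mul _
  · simp only [if_neg hJ]
    exact measurable_const

theorem nu_bdd (J : Finset (Edge d)) {c : Cmp d lo κ} (hc : Ok c) :
    ∃ C : ℝ, ∀ x : Env d lo κ, |nu q J x c| ≤ C := by
  obtain ⟨C, hC⟩ := hc.bdm.bdd
  have hC0 : ∀ x : Env d lo κ, 0 ≤ C := fun x => (abs_nonneg _).trans (hC x)
  refine ⟨2 ^ c.1.card * |C|, fun x => ?_⟩
  have hC1 := hC0 x
  rw [abs_of_nonneg (nu_nonneg J x c)]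
  unfold nu
  split_ifs
  · gcongr
    have h2 := norm_integral_le_of_norm_le_const (μ := envLaw d q)
      (f := fun η => |c.2 (ov J x η)|) (C := C) (Eventually.of_forall fun η => by
        rw [Real.norm_eq_abs, abs_abs]
        exact hC _)
    rw [Real.norm_eq_abs] at h2
    simp only [probReal_univ, mul_one] at h2
    exact (le_abs_self _).trans (h2.trans (le_abs_self _))
  · positivity

theorem measurable_upd' (x : Env d lo κ) (e : Edge d) :
    Measurable fun z : Set.Icc lo κ => Function.update x e z :=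
  (measurable_upd e).comp (measurable_id.prodMk measurable_const)

theorem nu_upd_int (J : Finset (Edge d)) (x : Env d lo κ) (e : Edge d) {c : Cmp d lo κ}
    (hc : Ok c) : Integrable (fun z => |wt q z| * nu q J (Function.update x e z) c) q := by
  obtain ⟨C, hC⟩ := nu_bdd (q := q) J hc
  obtain ⟨C', hC'0, hC'⟩ := wt_bdd (q := q)
  refine Integrable.of_bound (measurable_abs_wt.mul
    ((nu_meas J hc).comp (measurable_upd' x e))).aestronglyMeasurable (C' * C)
    (Eventually.of_forall fun z => ?_)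
  rw [Real.norm_eq_abs, abs_mul, abs_abs]
  exact mul_le_mul (hC' z) (hC _) (abs_nonneg _) hC'0

theorem nus_upd_int (J : Finset (Edge d)) (x : Env d lo κ) (e : Edge d) {l : List (Cmp d lo κ)}
    (hl : ∀ c ∈ l, Ok c) :
    Integrable (fun z => |wt q z| * nus q J (Function.update x e z) l) q := by
  induction l with
  | nil =>
    simp only [nus_nil, mul_zero]
    exact integrable_const _
  | cons c l ih =>
    simp only [nus_cons, mul_add]
    exact (nu_upd_int J x e (hl c (by simp))).add (ih fun c hc => hl c (by simp [hc]))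

theorem nus_mulL_out {e : Edge d} {J : Finset (Edge d)} (he : e ∉ J) (α β : ℝ) (x : Env d lo κ)
    {l : List (Cmp d lo κ)} (hl : ∀ c ∈ l, Ok c) :
    nus q J x (mulL q e α β l) ≤ (|α| + 2 * |β| * s1 q) * nus q J x l +
      |β| * ∫ z, |wt q z| * nus q (insert e J) (Function.update x e z) l ∂q := by
  induction l with
  | nil =>
    simp only [nus_nil, mul_zero, integral_zero, add_zero]
    exact le_rfl
  | cons c l ih =>
    have h1 := nus_mulC_out he α β x (hl c (by simp)) (q := q)
    have h2 := ih fun c hc => hl c (by simp [hc])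
    have h3 : ∫ z, |wt q z| * nus q (insert e J) (Function.update x e z) (c :: l) ∂q =
        ∫ z, |wt q z| * nu q (insert e J) (Function.update x e z) c ∂q +
        ∫ z, |wt q z| * nus q (insert e J) (Function.update x e z) l ∂q := by
      rw [← integral_add (nu_upd_int _ x e (hl c (by simp)))
        (nus_upd_int _ x e fun c hc => hl c (by simp [hc]))]
      refine integral_congr_ae (Eventually.of_forall fun z => ?_)
      beta_reduce
      rw [nus_cons]
      ring
    rw [mulL_cons, nus_append, nus_cons, h3]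
    linarith

omit [IsProbabilityMeasure q] in
theorem nus_mulL_in {e : Edge d} {J : Finset (Edge d)} (he : e ∈ J) (α β : ℝ) (x : Env d lo κ)
    {l : List (Cmp d lo κ)} (hl : ∀ c ∈ l, Ok c) :
    nus q J x (mulL q e α β l) ≤ |α + β * wt q (x e)| * nus q J x l +
      2 * |β| * |wt q (x e)| * nus q (J.erase e) x l := by
  induction l with
  | nil =>
    simp only [nus_nil, mul_zero, add_zero]
    exact le_rfl
  | cons c l ih =>
    have h1 := nus_mulC_in he α β x (hl c (by simp)) (q := q)
    have h2 := ih fun c hc => hl c (by simp [hc])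
    rw [mulL_cons, nus_append, nus_cons, nus_cons]
    linarith

/-! ### decompositions -/

/-- `f` is `c` plus components whose norms are bounded by `B` -/
def RpB (q : Measure (Set.Icc lo κ)) (f : Env d lo κ → ℝ) (c : ℝ)
    (B : Finset (Edge d) → Env d lo κ → ℝ) : Prop :=
  ∃ l : List (Cmp d lo κ), (∀ C ∈ l, Ok C) ∧ (∀ η, f η = c + ev l η) ∧ ∀ J x, nus q J x l ≤ B J x

omit [IsProbabilityMeasure q] in
theorem RpB.mono {f : Env d lo κ → ℝ} {c : ℝ} {B B' : Finset (Edge d) → Env d lo κ → ℝ}
    (h : RpB q f c B) (hB : ∀ J x, B J x ≤ B' J x) : RpB q f c B' := by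
  obtain ⟨l, h1, h2, h3⟩ := h
  exact ⟨l, h1, h2, fun J x => (h3 J x).trans (hB J x)⟩

omit [IsProbabilityMeasure q] in
theorem RpB.congr {f g : Env d lo κ → ℝ} {c : ℝ} {B : Finset (Edge d) → Env d lo κ → ℝ}
    (h : RpB q f c B) (hfg : ∀ η, g η = f η) : RpB q g c B := by
  obtain ⟨l, h1, h2, h3⟩ := h
  exact ⟨l, h1, fun η => (hfg η).trans (h2 η), h3⟩

omit [IsProbabilityMeasure q] in
theorem RpB.add {f g : Env d lo κ → ℝ} {c c' : ℝ} {B B' : Finset (Edge d) → Env d lo κ → ℝ}
    (h : RpB q f c B) (h' : RpB q g c' B') :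
    RpB q (fun η => f η + g η) (c + c') fun J x => B J x + B' J x := by
  obtain ⟨l, h1, h2, h3⟩ := h
  obtain ⟨l', h1', h2', h3'⟩ := h'
  refine ⟨l ++ l', fun C hC => ?_, fun η => ?_, fun J x => ?_⟩
  · rw [List.mem_append] at hC
    exact hC.elim (h1 C) (h1' C)
  · beta_reduce
    rw [ev_append, h2, h2']
    ring
  · rw [nus_append]
    exact add_le_add (h3 J x) (h3' J x)

omit [IsProbabilityMeasure q] in
theorem RpB.smul (k : ℝ) {f : Env d lo κ → ℝ} {c : ℝ} {B : Finset (Edge d) → Env d lo κ → ℝ}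
    (h : RpB q f c B) : RpB q (fun η => k * f η) (k * c) fun J x => |k| * B J x := by
  obtain ⟨l, h1, h2, h3⟩ := h
  refine ⟨l.map (smC k), fun C hC => ?_, fun η => ?_, fun J x => ?_⟩
  · rw [List.mem_map] at hC
    obtain ⟨C', hC', rfl⟩ := hC
    exact smC_ok k (h1 C' hC')
  · beta_reduce
    rw [ev_smC, h2]
    ring
  · rw [nus_smC]
    exact mul_le_mul_of_nonneg_left (h3 J x) (abs_nonneg _)

omit [IsProbabilityMeasure q] in
theorem RpB.const (c : ℝ) : RpB q (fun _ : Env d lo κ => c) c fun _ _ => 0 :=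
  ⟨[], fun C hC => absurd hC (by simp), fun η => by rw [ev_nil, add_zero], fun J x => le_rfl⟩

omit [IsProbabilityMeasure q] in
theorem RpB.sum {ι : Type} (s : Finset ι) {f : ι → Env d lo κ → ℝ} {c : ι → ℝ}
    {B : ι → Finset (Edge d) → Env d lo κ → ℝ} (h : ∀ i ∈ s, RpB q (f i) (c i) (B i)) :
    RpB q (fun η => ∑ i ∈ s, f i η) (∑ i ∈ s, c i) fun J x => ∑ i ∈ s, B i J x := by
  induction s using Finset.induction_on with
  | empty => simpa using RpB.const (d := d) (q := q) 0
  | insert i s hi ih =>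
    simp only [Finset.sum_insert hi]
    exact (h i (Finset.mem_insert_self _ _)).add
      (ih fun j hj => h j (Finset.mem_insert_of_mem hj))

omit [IsProbabilityMeasure q] in
theorem RpB.good {f : Env d lo κ → ℝ} {c : ℝ} {B : Finset (Edge d) → Env d lo κ → ℝ}
    (h : RpB q f c B) : Good f := by
  obtain ⟨l, h1, h2, h5⟩ := h
  have h3 : Good (ev l) := by
    clear h2 h5
    induction l with
    | nil => exact Good.const 0
    | cons c' l ih =>
      have h4 : (ev (c' :: l) : Env d lo κ → ℝ) = fun η => c'.2 η + ev l η :=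
        funext fun η => ev_cons c' l η
      rw [h4]
      exact (h1 c' (by simp)).good.add (ih fun C hC => h1 C (by simp [hC]))
  have h4 : f = fun η => c + ev l η := funext h2
  rw [h4]
  exact (Good.const c).add h3

/-- the bounds with three parameters -/
noncomputable def Bd (L : ℝ) (q : Measure (Set.Icc lo κ)) (a b b3 : ℝ) (J : Finset (Edge d))
    (x : Env d lo κ) : ℝ :=
  if J = ∅ then a else (b + b3 * ∑ e ∈ J, |wt q (x e)|) * ∏ e ∈ J, (L * |wt q (x e)|)

omit [IsProbabilityMeasure q] in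
theorem Bd_shift (L a b b3 : ℝ) (y : Site d) (J : Finset (Edge d)) (x : Env d lo κ) :
    Bd L q a b b3 (shJ y J) (sh y x) = Bd L q a b b3 J x := by
  unfold Bd
  have h1 : shJ y J = ∅ ↔ J = ∅ := by
    unfold shJ
    exact Finset.image_eq_empty
  have h2 : ∑ e ∈ shJ y J, |wt q (sh y x e)| = ∑ e ∈ J, |wt q (x e)| := by
    unfold shJ
    rw [Finset.sum_image fun e _ e' _ h => shE_inj' y h]
    refine Finset.sum_congr rfl fun e _ => ?_
    unfold sh
    simp
  have h3 : ∏ e ∈ shJ y J, (L * |wt q (sh y x e)|) = ∏ e ∈ J, (L * |wt q (x e)|) := by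
    unfold shJ
    rw [Finset.prod_image fun e _ e' _ h => shE_inj' y h]
    refine Finset.prod_congr rfl fun e _ => ?_
    unfold sh
    simp
  rw [h2, h3]
  by_cases hJ : J = ∅
  · rw [if_pos hJ, if_pos (h1.2 hJ)]
  · rw [if_neg hJ, if_neg fun h => hJ (h1.1 h)]

omit [IsProbabilityMeasure q] in
theorem Bd_add (L a b b3 a' b' b3' : ℝ) (J : Finset (Edge d)) (x : Env d lo κ) :
    Bd L q a b b3 J x + Bd L q a' b' b3' J x = Bd L q (a + a') (b + b') (b3 + b3') J x := by
  unfold Bd
  split_ifs
  · rfl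
  · ring

omit [IsProbabilityMeasure q] in
theorem Bd_smul (k L a b b3 : ℝ) (J : Finset (Edge d)) (x : Env d lo κ) :
    k * Bd L q a b b3 J x = Bd L q (k * a) (k * b) (k * b3) J x := by
  unfold Bd
  split_ifs
  · rfl
  · ring

omit [IsProbabilityMeasure q] in
theorem Bd_mono {L a b b3 a' b' b3' : ℝ} (hL : 0 ≤ L) (ha : a ≤ a') (hb : b ≤ b') (h3 : b3 ≤ b3')
    (J : Finset (Edge d)) (x : Env d lo κ) : Bd L q a b b3 J x ≤ Bd L q a' b' b3' J x := by
  unfold Bd
  split_ifs
  · exact ha
  · have h1 : 0 ≤ ∑ e ∈ J, |wt q (x e)| := Finset.sum_nonneg fun _ _ => abs_nonneg _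
    have h2 : 0 ≤ ∏ e ∈ J, (L * |wt q (x e)|) :=
      Finset.prod_nonneg fun _ _ => mul_nonneg hL (abs_nonneg _)
    exact mul_le_mul_of_nonneg_right (add_le_add hb (mul_le_mul_of_nonneg_right h3 h1)) h2

/-- the decompositions with three parameters -/
def Rp (L : ℝ) (q : Measure (Set.Icc lo κ)) (f : Env d lo κ → ℝ) (c a b b3 : ℝ) : Prop :=
  RpB q f c (Bd L q a b b3)

theorem Rp.shift {L : ℝ} {f : Env d lo κ → ℝ} {c a b b3 : ℝ} (h : Rp L q f c a b b3)
    (y : Site d) : Rp L q (fun η => f (sh y η)) c a b b3 := by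
  obtain ⟨l, h1, h2, h3⟩ := h
  refine ⟨l.map (shC y), fun C hC => ?_, fun η => ?_, fun J x => ?_⟩
  · rw [List.mem_map] at hC
    obtain ⟨C', hC', rfl⟩ := hC
    exact shC_ok y (h1 C' hC')
  · beta_reduce
    rw [ev_shC, h2]
  · rw [nus_shC y J x h1, ← Bd_shift L a b b3 y J x]
    exact h3 _ _

omit [IsProbabilityMeasure q] in
theorem Rp.add {L : ℝ} {f g : Env d lo κ → ℝ} {c a b b3 c' a' b' b3' : ℝ}
    (h : Rp L q f c a b b3) (h' : Rp L q g c' a' b' b3') :
    Rp L q (fun η => f η + g η) (c + c') (a + a') (b + b') (b3 + b3') :=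
  (RpB.add h h').mono fun J x => (Bd_add L a b b3 a' b' b3' J x).le

omit [IsProbabilityMeasure q] in
theorem Rp.smul {L : ℝ} (k : ℝ) {f : Env d lo κ → ℝ} {c a b b3 : ℝ} (h : Rp L q f c a b b3) :
    Rp L q (fun η => k * f η) (k * c) (|k| * a) (|k| * b) (|k| * b3) :=
  (RpB.smul k h).mono fun J x => (Bd_smul |k| L a b b3 J x).le

omit [IsProbabilityMeasure q] in
theorem Rp.mono {L : ℝ} (hL : 0 ≤ L) {f : Env d lo κ → ℝ} {c a b b3 a' b' b3' : ℝ}
    (h : Rp L q f c a b b3) (ha : a ≤ a') (hb : b ≤ b') (h3 : b3 ≤ b3') :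
    Rp L q f c a' b' b3' :=
  RpB.mono h fun J x => Bd_mono hL ha hb h3 J x

/-- the integral against a new value -/
theorem int_Bd (L a b b3 : ℝ) {e : Edge d} {J : Finset (Edge d)} (he : e ∉ J) (x : Env d lo κ) :
    Integrable (fun z => |wt q z| * Bd L q a b b3 (insert e J) (Function.update x e z)) q ∧
    ∫ z, |wt q z| * Bd L q a b b3 (insert e J) (Function.update x e z) ∂q =
      L * (s2 q * (b + b3 * ∑ e ∈ J, |wt q (x e)|) + b3 * s3 q) *
        ∏ e ∈ J, (L * |wt q (x e)|) := by
  have h1 : ∀ z, |wt q z| * Bd L q a b b3 (insert e J) (Function.update x e z) =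
      (L * (b + b3 * ∑ e ∈ J, |wt q (x e)|) * ∏ e ∈ J, (L * |wt q (x e)|)) * |wt q z| ^ 2 +
      (L * b3 * ∏ e ∈ J, (L * |wt q (x e)|)) * |wt q z| ^ 3 := by
    intro z
    unfold Bd
    have hne : ∀ e' ∈ J, e' ≠ e := by
      rintro e' he' rfl
      exact he he'
    rw [if_neg (Finset.insert_ne_empty e J), Finset.sum_insert he, Finset.prod_insert he,
      Function.update_self]
    have h2 : ∑ e' ∈ J, |wt q (Function.update x e z e')| = ∑ e' ∈ J, |wt q (x e')| :=
      Finset.sum_congr rfl fun e' he' => by rw [Function.update_of_ne (hne e' he')]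
    have h3 : ∏ e' ∈ J, (L * |wt q (Function.update x e z e')|) = ∏ e' ∈ J, (L * |wt q (x e')|) :=
      Finset.prod_congr rfl fun e' he' => by rw [Function.update_of_ne (hne e' he')]
    rw [h2, h3]
    ring
  simp only [h1]
  have i2 := (wt_pow_int (q := q) 2).const_mul
    (L * (b + b3 * ∑ e ∈ J, |wt q (x e)|) * ∏ e ∈ J, (L * |wt q (x e)|))
  have i3 := (wt_pow_int (q := q) 3).const_mul (L * b3 * ∏ e ∈ J, (L * |wt q (x e)|))
  refine ⟨i2.add i3, ?_⟩
  rw [integral_add i2 i3, integral_const_mul, integral_const_mul]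
  unfold s2 s3
  ring

/-- the bounds after a multiplication -/
noncomputable def MB (L : ℝ) (q : Measure (Set.Icc lo κ)) (e : Edge d) (α β a b b3 : ℝ)
    (J : Finset (Edge d)) (x : Env d lo κ) : ℝ :=
  if e ∈ J then |α + β * wt q (x e)| * Bd L q a b b3 J x +
    2 * |β| * |wt q (x e)| * Bd L q a b b3 (J.erase e) x
  else (|α| + 2 * |β| * s1 q) * Bd L q a b b3 J x +
    |β| * (L * (s2 q * (b + b3 * ∑ e ∈ J, |wt q (x e)|) + b3 * s3 q) *
        ∏ e ∈ J, (L * |wt q (x e)|))

theorem Rp.mul {L : ℝ} {f : Env d lo κ → ℝ} {a b b3 : ℝ} (h : Rp L q f 0 a b b3) (e : Edge d)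
    (α β : ℝ) : RpB q (fun η => (α + β * wt q (η e)) * f η) 0 (MB L q e α β a b b3) := by
  obtain ⟨l, h1, h2, h3⟩ := h
  refine ⟨mulL q e α β l, mulL_ok e α β h1, fun η => ?_, fun J x => ?_⟩
  · beta_reduce
    rw [ev_mulL, h2, zero_add, zero_add]
  · unfold MB
    split_ifs with he
    · refine (nus_mulL_in he α β x h1).trans ?_
      exact add_le_add (mul_le_mul_of_nonneg_left (h3 J x) (abs_nonneg _))
        (mul_le_mul_of_nonneg_left (h3 _ x) (by positivity))
    · refine (nus_mulL_out he α β x h1).trans ?_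
      obtain ⟨i1, i2⟩ := int_Bd (q := q) L a b b3 he x
      rw [← i2]
      refine add_le_add (mul_le_mul_of_nonneg_left (h3 J x) ?_)
        (mul_le_mul_of_nonneg_left ?_ (abs_nonneg _))
      · have := s1_nonneg (q := q)
        positivity
      · exact integral_mono (nus_upd_int _ x e h1) i1 fun z =>
          mul_le_mul_of_nonneg_left (h3 _ _) (abs_nonneg _)

/-- one centred conductance -/
theorem Rp.wt {L : ℝ} (hL : 0 < L) (e : Edge d) :
    Rp L q (fun η : Env d lo κ => NVB.wt q (η e)) 0 (2 * s1 q) (2 / L) 0 := by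
  have hok : Ok (({e}, fun η : Env d lo κ => NVB.wt q (η e)) : Cmp d lo κ) :=
    ⟨Finset.singleton_nonempty e, Bdm.wt e, fun η η' h => by
      dsimp only at h ⊢
      rw [h e (Finset.mem_singleton_self e)]⟩
  refine ⟨[({e}, fun η => NVB.wt q (η e))], fun C hC => ?_, fun η => ?_, fun J x => ?_⟩
  · rw [List.mem_singleton] at hC
    rw [hC]
    exact hok
  · rw [ev_cons, ev_nil, add_zero, zero_add]
  · rw [nus_cons, nus_nil, add_zero]
    have hpos : 0 ≤ Bd L q (2 * s1 q) (2 / L) 0 J x := by
      unfold Bd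
      split_ifs
      · have := s1_nonneg (q := q)
        positivity
      · refine mul_nonneg ?_ (Finset.prod_nonneg fun _ _ => mul_nonneg hL.le (abs_nonneg _))
        rw [zero_mul, add_zero]
        positivity
    unfold nu
    dsimp only
    split_ifs with hJ
    · rw [Finset.card_singleton, pow_one]
      rcases Finset.subset_singleton_iff.1 hJ with hJ' | hJ'
      · subst hJ'
        unfold Bd
        rw [if_pos rfl]
        simp only [ov_empty]
        have h0 : MeasurePreserving (fun η : Env d lo κ => η e) (envLaw d q) q :=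
          measurePreserving_eval_infinitePi (fun _ : Edge d => q) e
        have h1 : ∫ η, |NVB.wt q (η e)| ∂envLaw d q = s1 q := by
          have h2 : ∫ η : Env d lo κ, |NVB.wt q (η e)| ∂envLaw d q =
              ∫ z, |NVB.wt q z| ∂((envLaw d q).map fun η => η e) := by
            rw [integral_map h0.measurable.aemeasurable measurable_abs_wt.aestronglyMeasurable]
          rw [h2, h0.map_eq]
          rfl
        rw [h1]
      · subst hJ'
        unfold Bd
        rw [if_neg (Finset.singleton_ne_empty e), Finset.sum_singleton, Finset.prod_singleton]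
        simp only [ov_mem (Finset.mem_singleton_self e)]
        rw [integral_const, probReal_univ, one_smul]
        apply le_of_eq
        field_simp
        ring
    · exact hpos

end Pool.Agent.NVB
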