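import Pool.Agent.NVB.Limit

/-!
# The sign of the quantity `D(q, μ)` of the problem
-/

set_option autoImplicit false

namespace Pool.Agent.NVB

open MeasureTheory ProbabilityTheory Filter Topology
open scoped Classical ENNReal

variable {lo κ : ℝ} {μ : ℝ} {q : Measure (Set.Icc lo κ)}

/-- the quantity `D(q, μ)` of the problem -/
noncomputable def DD (μ : ℝ) (q : Measure (Set.Icc lo κ)) : ℝ :=
  (∫ w, (w : ℝ) * ((w : ℝ) - ∫ u, (u : ℝ) ∂q) / (μ + w) ^ 2 ∂q) * (∫ w, 1 / (μ + (w : ℝ)) ∂q) -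
  (∫ w, ((w : ℝ) - ∫ u, (u : ℝ) ∂q) / (μ + w) ^ 2 ∂q) * (∫ w, (w : ℝ) / (μ + w) ∂q) -
  (∫ w, (w : ℝ) / (μ + w) ∂q) * (∫ w, 1 / (μ + (w : ℝ)) ∂q)

variable [IsProbabilityMeasure q]

theorem cont_int {f : ℝ → ℝ} (hf : ContinuousOn f (Set.Icc lo κ)) :
    Integrable (fun w : Set.Icc lo κ => f w) q := by
  have h1 : Continuous fun w : Set.Icc lo κ => f w := hf.domRestrict
  obtain ⟨C, hC⟩ := isCompact_univ.exists_bound_of_continuousOn
    (f := fun w : Set.Icc lo κ => f w) h1.continuousOn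
  exact Integrable.of_bound h1.measurable.aestronglyMeasurable C
    (Eventually.of_forall fun w => hC w (Set.mem_univ w))

theorem DD_neg (hlo : 0 ≤ lo) (hμ : 0 < μ) (h : 5 * (κ - lo) ≤ μ)
    (hq : 0 < mean q) : DD μ q < 0 := by
  set m := ∫ u : Set.Icc lo κ, (u : ℝ) ∂q with hm
  have hpos : ∀ w ∈ Set.Icc lo κ, 0 < μ + w := fun w hw => by linarith [hw.1]
  have i1 : Integrable (fun w : Set.Icc lo κ => (w : ℝ) * ((w : ℝ) - m) / (μ + w) ^ 2) q := by
    refine cont_int (f := fun w => w * (w - m) / (μ + w) ^ 2) ?_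
    refine ContinuousOn.div (by fun_prop) (by fun_prop) fun w hw => ?_
    exact pow_ne_zero 2 (hpos w hw).ne'
  have i2 : Integrable (fun w : Set.Icc lo κ => 1 / (μ + (w : ℝ))) q :=
    cont_int (f := fun w => 1 / (μ + w)) (ContinuousOn.div (by fun_prop) (by fun_prop)
      fun w hw => (hpos w hw).ne')
  have i3 : Integrable (fun w : Set.Icc lo κ => ((w : ℝ) - m) / (μ + w) ^ 2) q := by
    refine cont_int (f := fun w => (w - m) / (μ + w) ^ 2) ?_
    refine ContinuousOn.div (by fun_prop) (by fun_prop) fun w hw => ?_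
    exact pow_ne_zero 2 (hpos w hw).ne'
  have i4 : Integrable (fun w : Set.Icc lo κ => (w : ℝ) / (μ + w)) q :=
    cont_int (f := fun w => w / (μ + w)) (ContinuousOn.div (by fun_prop) (by fun_prop)
      fun w hw => (hpos w hw).ne')
  have hm1 : ∀ w : Set.Icc lo κ, |(w : ℝ) - m| ≤ κ - lo := by
    intro w
    have g1 : lo ≤ m := by
      have := integral_mono (μ := q) (integrable_const lo) integrable_val fun w : Set.Icc lo κ =>
        w.2.1
      simpa using this
    have g2 : m ≤ κ := by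
      have := integral_mono (μ := q) integrable_val (integrable_const κ) fun w : Set.Icc lo κ =>
        w.2.2
      simpa using this
    rw [abs_le]
    constructor <;> linarith [w.2.1, w.2.2]
  have hr : ∀ w : Set.Icc lo κ, |(w : ℝ) - m| / (μ + w) ≤ 1 / 5 := by
    intro w
    rw [div_le_div_iff₀ (hpos w w.2) (by norm_num)]
    have := hm1 w
    have := w.2.1
    linarith
  have c1 : ∫ w, (w : ℝ) * ((w : ℝ) - m) / (μ + w) ^ 2 ∂q ≤
      ∫ w : Set.Icc lo κ, 1 / 5 * ((w : ℝ) / (μ + w)) ∂q := by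
    refine integral_mono i1 (i4.const_mul _) fun w => ?_
    beta_reduce
    have h1 := hpos w w.2
    have h2 : (w : ℝ) * ((w : ℝ) - m) / (μ + w) ^ 2 =
        (((w : ℝ) - m) / (μ + w)) * ((w : ℝ) / (μ + w)) := by
      field_simp
    rw [h2]
    refine mul_le_mul_of_nonneg_right ?_ (div_nonneg (hlo.trans w.2.1) h1.le)
    refine le_trans ?_ (hr w)
    exact div_le_div_of_nonneg_right (le_abs_self _) h1.le
  have c2 : -(1 / 5 * ∫ w : Set.Icc lo κ, 1 / (μ + (w : ℝ)) ∂q) ≤
      ∫ w, ((w : ℝ) - m) / (μ + w) ^ 2 ∂q := by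
    rw [← integral_const_mul, ← integral_neg]
    refine integral_mono (i2.const_mul _).neg i3 fun w => ?_
    beta_reduce
    have h1 := hpos w w.2
    have h2 : ((w : ℝ) - m) / (μ + w) ^ 2 = (((w : ℝ) - m) / (μ + w)) * (1 / (μ + w)) := by
      field_simp
    rw [h2, ← neg_mul]
    refine mul_le_mul_of_nonneg_right ?_ (by positivity)
    have h3 := hr w
    have h4 : -|(w : ℝ) - m| / (μ + w) ≤ ((w : ℝ) - m) / (μ + w) :=
      div_le_div_of_nonneg_right (neg_abs_le _) h1.le
    rw [neg_div] at h4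
    linarith
  rw [integral_const_mul] at c1
  have a0 : 0 < ∫ w : Set.Icc lo κ, 1 / (μ + (w : ℝ)) ∂q := by
    have h1 : ∫ _w : Set.Icc lo κ, 1 / (μ + κ) ∂q ≤ ∫ w : Set.Icc lo κ, 1 / (μ + (w : ℝ)) ∂q := by
      refine integral_mono (integrable_const _) i2 fun w => ?_
      exact one_div_le_one_div_of_le (hpos w w.2) (by linarith [w.2.2])
    have hne : (Set.Icc lo κ).Nonempty := by
      by_contra hne
      have : IsEmpty (Set.Icc lo κ) := Set.isEmpty_coe_sort.2 (Set.not_nonempty_iff_eq_empty.1 hne)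
      have h2 := measure_univ (μ := q)
      rw [Set.univ_eq_empty_iff.2 this, measure_empty] at h2
      exact zero_ne_one h2
    obtain ⟨w, hw⟩ := hne
    have h2 : 0 < 1 / (μ + κ) := one_div_pos.2 (by linarith [hw.1.trans hw.2])
    simp only [integral_const, probReal_univ, one_smul] at h1
    linarith
  have b0 : 0 < ∫ w : Set.Icc lo κ, (w : ℝ) / (μ + w) ∂q := by
    have h1 : ∫ w : Set.Icc lo κ, 1 / (μ + κ) * (w : ℝ) ∂q ≤
        ∫ w : Set.Icc lo κ, (w : ℝ) / (μ + w) ∂q := by
      refine integral_mono (integrable_val.const_mul _) i4 fun w => ?_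
      beta_reduce
      rw [div_mul_eq_mul_div, one_mul]
      exact div_le_div_of_nonneg_left (hlo.trans w.2.1) (hpos w w.2) (by linarith [w.2.2])
    rw [integral_const_mul] at h1
    have hκ : 0 < κ := by
      by_contra hκ
      have h3 : mean q ≤ 0 := by
        unfold mean
        have := integral_mono (μ := q) integrable_val (integrable_const (0 : ℝ))
          fun w : Set.Icc lo κ => w.2.2.trans (not_lt.1 hκ)
        simpa using this
      linarith
    have h2 : 0 < 1 / (μ + κ) * mean q := by positivity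
    unfold mean at h2
    linarith
  unfold DD
  rw [← hm]
  set A := ∫ w : Set.Icc lo κ, 1 / (μ + (w : ℝ)) ∂q
  set B := ∫ w : Set.Icc lo κ, (w : ℝ) / (μ + w) ∂q
  have e1 := mul_le_mul_of_nonneg_right c1 a0.le
  have e2 := mul_le_mul_of_nonneg_right c2 b0.le
  have e3 := mul_pos a0 b0
  nlinarith

end Pool.Agent.NVB
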