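import Pool.Agent.NVB.Slow

/-!
# The sign of `D(q, μ)` for small variance
-/

set_option autoImplicit false

namespace Pool.Agent.NVB

open MeasureTheory ProbabilityTheory Filter Topology
open scoped Classical ENNReal

variable {lo κ : ℝ} {μ : ℝ} {q : Measure (Set.Icc lo κ)} [IsProbabilityMeasure q]

/-- the variance -/
noncomputable def vrn (q : Measure (Set.Icc lo κ)) : ℝ := ∫ w, ((w : ℝ) - mean q) ^ 2 ∂q

theorem DD_neg' (hlo : 0 ≤ lo) (hμ : 0 < μ) (hm : 0 < mean q)
    (h1 : 400 * vrn q ≤ mean q * μ) (h2 : 400 * vrn q ≤ μ ^ 2) : DD μ q < 0 := by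
  set m := mean q with hmdef
  have hpos : ∀ w ∈ Set.Icc lo κ, 0 < μ + w := fun w hw => by linarith [hw.1]
  set n := μ + m with hn
  have hn0 : 0 < n := by positivity
  have j1 : Integrable (fun w : Set.Icc lo κ => 1 / (μ + (w : ℝ))) q :=
    cont_int (f := fun w => 1 / (μ + w)) (ContinuousOn.div (by fun_prop) (by fun_prop)
      fun w hw => (hpos w hw).ne')
  have j2 : Integrable (fun w : Set.Icc lo κ => (1 / (μ + (w : ℝ))) ^ 2) q :=
    cont_int (f := fun w => (1 / (μ + w)) ^ 2) ((ContinuousOn.div (by fun_prop) (by fun_prop)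
      fun w hw => (hpos w hw).ne').pow 2)
  have j3 : Integrable (fun w : Set.Icc lo κ => ((w : ℝ) - m) ^ 2) q :=
    cont_int (f := fun w => (w - m) ^ 2) (by fun_prop)
  have j4 : Integrable (fun w : Set.Icc lo κ => ((w : ℝ) - m)) q :=
    cont_int (f := fun w => w - m) (by fun_prop)
  set A := ∫ w : Set.Icc lo κ, 1 / (μ + (w : ℝ)) ∂q with hA
  set A2 := ∫ w : Set.Icc lo κ, (1 / (μ + (w : ℝ))) ^ 2 ∂q with hA2
  have hm0 : ∫ w : Set.Icc lo κ, ((w : ℝ) - m) ∂q = 0 := by
    rw [integral_sub integrable_val (integrable_const _)]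
    have : ∫ w : Set.Icc lo κ, (w : ℝ) ∂q = m := rfl
    rw [this]
    simp
  have I1 : ∫ w : Set.Icc lo κ, (w : ℝ) * ((w : ℝ) - m) / (μ + w) ^ 2 ∂q =
      1 - (2 * μ + m) * A + μ * n * A2 := by
    have e1 : ∀ w : Set.Icc lo κ, (w : ℝ) * ((w : ℝ) - m) / (μ + w) ^ 2 =
        (1 + -(2 * μ + m) * (1 / (μ + (w : ℝ)))) + μ * n * (1 / (μ + (w : ℝ))) ^ 2 := by
      intro w
      have := (hpos w w.2).ne'
      rw [hn]
      field_simp
      ring
    rw [integral_congr_ae (Eventually.of_forall e1)]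
    have k1 : Integrable (fun w : Set.Icc lo κ => 1 + -(2 * μ + m) * (1 / (μ + (w : ℝ)))) q :=
      (integrable_const _).add (j1.const_mul _)
    rw [integral_add k1 (j2.const_mul _), integral_add (integrable_const _) (j1.const_mul _),
      integral_const_mul, integral_const_mul]
    simp only [integral_const, probReal_univ, one_smul]
    ring
  have I3 : ∫ w : Set.Icc lo κ, ((w : ℝ) - m) / (μ + w) ^ 2 ∂q = A - n * A2 := by
    have e1 : ∀ w : Set.Icc lo κ, ((w : ℝ) - m) / (μ + w) ^ 2 =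
        1 / (μ + (w : ℝ)) + -n * (1 / (μ + (w : ℝ))) ^ 2 := by
      intro w
      have := (hpos w w.2).ne'
      rw [hn]
      field_simp
      ring
    rw [integral_congr_ae (Eventually.of_forall e1), integral_add j1 (j2.const_mul _),
      integral_const_mul]
    ring
  have I4 : ∫ w : Set.Icc lo κ, (w : ℝ) / (μ + w) ∂q = 1 - μ * A := by
    have e1 : ∀ w : Set.Icc lo κ, (w : ℝ) / (μ + w) = 1 + -μ * (1 / (μ + (w : ℝ))) := by
      intro w
      have := (hpos w w.2).ne'
      field_simp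
      ring
    rw [integral_congr_ae (Eventually.of_forall e1), integral_add (integrable_const _)
      (j1.const_mul _), integral_const_mul]
    simp only [integral_const, probReal_univ, one_smul]
    ring
  -- the deviation of the mean of `1 / (μ + ω)`
  have hδ : A - 1 / n ≤ vrn q / (μ * n ^ 2) ∧ 0 ≤ A - 1 / n := by
    have e1 : A - 1 / n = ∫ w : Set.Icc lo κ, 1 / n ^ 2 * (((w : ℝ) - m) ^ 2 * (1 / (μ + w))) ∂q := by
      have e2 : ∀ w : Set.Icc lo κ, 1 / n ^ 2 * (((w : ℝ) - m) ^ 2 * (1 / (μ + w))) =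
          (1 / (μ + (w : ℝ)) + -(1 / n)) + 1 / n ^ 2 * ((w : ℝ) - m) := by
        intro w
        have := (hpos w w.2).ne'
        have := hn0.ne'
        field_simp
        rw [hn]
        ring
      rw [integral_congr_ae (Eventually.of_forall e2)]
      have k1 : Integrable (fun w : Set.Icc lo κ => 1 / (μ + (w : ℝ)) + -(1 / n)) q :=
        j1.add (integrable_const _)
      rw [integral_add k1 (j4.const_mul _), integral_add j1 (integrable_const _),
        integral_const_mul, hm0]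
      simp only [integral_const, probReal_univ, one_smul]
      ring
    have k3 : Integrable (fun w : Set.Icc lo κ =>
        1 / n ^ 2 * (((w : ℝ) - m) ^ 2 * (1 / (μ + w)))) q := by
      refine Integrable.const_mul ?_ _
      exact cont_int (f := fun w => (w - m) ^ 2 * (1 / (μ + w))) (ContinuousOn.mul (by fun_prop)
        (ContinuousOn.div (by fun_prop) (by fun_prop) fun w hw => (hpos w hw).ne'))
    rw [e1]
    constructor
    · have e3 : vrn q / (μ * n ^ 2) = ∫ w : Set.Icc lo κ, 1 / (μ * n ^ 2) *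
          ((w : ℝ) - m) ^ 2 ∂q := by
        rw [integral_const_mul]
        unfold vrn
        rw [← hmdef]
        ring
      rw [e3]
      refine integral_mono k3 (j3.const_mul _) fun w => ?_
      beta_reduce
      have h3 : 1 / (μ + (w : ℝ)) ≤ 1 / μ :=
        one_div_le_one_div_of_le hμ (by linarith [hlo.trans w.2.1])
      have h4 : 1 / (μ * n ^ 2) * ((w : ℝ) - m) ^ 2 =
          1 / n ^ 2 * (((w : ℝ) - m) ^ 2 * (1 / μ)) := by
        field_simp
      rw [h4]
      gcongr
    · refine integral_nonneg fun w => ?_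
      have := hpos w w.2
      positivity
  have hW : A2 - 2 * (1 / n) * A + (1 / n) ^ 2 ≤ vrn q / (μ ^ 2 * n ^ 2) := by
    have e1 : A2 - 2 * (1 / n) * A + (1 / n) ^ 2 =
        ∫ w : Set.Icc lo κ, (1 / (μ + (w : ℝ)) - 1 / n) ^ 2 ∂q := by
      have e2 : ∀ w : Set.Icc lo κ, (1 / (μ + (w : ℝ)) - 1 / n) ^ 2 =
          ((1 / (μ + (w : ℝ))) ^ 2 + -(2 * (1 / n)) * (1 / (μ + (w : ℝ)))) + (1 / n) ^ 2 := by
        intro w
        ring
      rw [integral_congr_ae (Eventually.of_forall e2)]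
      have k1 : Integrable (fun w : Set.Icc lo κ =>
          (1 / (μ + (w : ℝ))) ^ 2 + -(2 * (1 / n)) * (1 / (μ + (w : ℝ)))) q :=
        j2.add (j1.const_mul _)
      rw [integral_add k1 (integrable_const _), integral_add j2 (j1.const_mul _),
        integral_const_mul]
      simp only [integral_const, probReal_univ, one_smul]
      ring
    have e3 : vrn q / (μ ^ 2 * n ^ 2) = ∫ w : Set.Icc lo κ, 1 / (μ ^ 2 * n ^ 2) *
        ((w : ℝ) - m) ^ 2 ∂q := by
      rw [integral_const_mul]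
      unfold vrn
      rw [← hmdef]
      ring
    rw [e1, e3]
    have k4 : Integrable (fun w : Set.Icc lo κ => (1 / (μ + (w : ℝ)) - 1 / n) ^ 2) q :=
      cont_int (f := fun w => (1 / (μ + w) - 1 / n) ^ 2) ((ContinuousOn.sub
        (ContinuousOn.div (by fun_prop) (by fun_prop) fun w hw => (hpos w hw).ne')
        (by fun_prop)).pow 2)
    refine integral_mono k4 (j3.const_mul _) fun w => ?_
    beta_reduce
    have hw := hpos w w.2
    have h3 : 1 / (μ + (w : ℝ)) ≤ 1 / μ :=
      one_div_le_one_div_of_le hμ (by linarith [hlo.trans w.2.1])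
    have h5 : (1 / (μ + (w : ℝ)) - 1 / n) ^ 2 =
        1 / n ^ 2 * ((w : ℝ) - m) ^ 2 * (1 / (μ + (w : ℝ))) ^ 2 := by
      have := hw.ne'
      have := hn0.ne'
      field_simp
      rw [hn]
      ring
    have h6 : 1 / (μ ^ 2 * n ^ 2) * ((w : ℝ) - m) ^ 2 =
        1 / n ^ 2 * ((w : ℝ) - m) ^ 2 * (1 / μ) ^ 2 := by
      field_simp
    rw [h5, h6]
    have h7 : 0 ≤ 1 / (μ + (w : ℝ)) := by positivity
    gcongr
  -- conclusion
  have hV0 : 0 ≤ vrn q := integral_nonneg fun w => sq_nonneg _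
  have hD : DD μ q = A - m * A ^ 2 - 1 / n + n * (A2 - 2 * (1 / n) * A + (1 / n) ^ 2) := by
    have h0 : DD μ q = (1 - (2 * μ + m) * A + μ * n * A2) * A - (A - n * A2) * (1 - μ * A) -
        (1 - μ * A) * A := by
      unfold DD
      have h00 : ∫ u : Set.Icc lo κ, (u : ℝ) ∂q = m := rfl
      rw [h00, I1, I3, I4]
    rw [h0, hn]
    have := hn0.ne'
    rw [hn] at this
    field_simp
    ring
  rw [hD]
  obtain ⟨d1, d2⟩ := hδ
  have hA1 : 1 / n ≤ A := by linarith
  have hA0 : 0 ≤ 1 / n := by positivity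
  have hAA : (1 / n) ^ 2 ≤ A ^ 2 := pow_le_pow_left₀ hA0 hA1 2
  have b1 : m * (1 / n) ^ 2 ≤ m * A ^ 2 := mul_le_mul_of_nonneg_left hAA hm.le
  have b2 := mul_le_mul_of_nonneg_left hW hn0.le
  have b3 : vrn q / (μ * n ^ 2) ≤ m / (400 * n ^ 2) := by
    rw [div_le_div_iff₀ (by positivity) (by positivity)]
    have : 0 < n ^ 2 := by positivity
    nlinarith
  have b4 : n * (vrn q / (μ ^ 2 * n ^ 2)) ≤ m / (200 * n ^ 2) := by
    have b5 : n * (vrn q / (μ ^ 2 * n ^ 2)) = vrn q * n / (μ ^ 2 * n ^ 2) := by ring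
    rw [b5, div_le_div_iff₀ (by positivity) (by positivity)]
    have b6 : 400 * (vrn q * n) ≤ 2 * m * μ ^ 2 := by
      have c1 : 400 * vrn q * μ ≤ m * μ * μ := mul_le_mul_of_nonneg_right h1 hμ.le
      have c2 : 400 * vrn q * m ≤ μ ^ 2 * m := mul_le_mul_of_nonneg_right h2 hm.le
      rw [hn]
      nlinarith
    have : 0 < n ^ 2 := by positivity
    nlinarith
  have b7 : m / (400 * n ^ 2) + m / (200 * n ^ 2) < m * (1 / n) ^ 2 := by
    have b8 : m / (400 * n ^ 2) + m / (200 * n ^ 2) = 3 / 400 * (m / n ^ 2) := by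
      field_simp
      norm_num
    have b9 : m * (1 / n) ^ 2 = m / n ^ 2 := by
      field_simp
    have b10 : 0 < m / n ^ 2 := by positivity
    rw [b8, b9]
    linarith
  linarith

end Pool.Agent.NVB
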