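import Pool.Agent.NVB.Fnl
import Pool.Agent.NVB.Sign

/-!
# Monotonicity of the speed in slow environments with small fluctuations
-/

set_option autoImplicit false

namespace Pool.Agent.NVB

open MeasureTheory ProbabilityTheory Filter Topology
open scoped Classical ENNReal

/-! ### numbers -/

theorem num_err {x y z ab : ℝ} (M : ℝ) (hx0 : 0 ≤ x) (hx : x ≤ 1 / 20) (hy0 : 0 ≤ y)
    (hy : y ≤ 1 / 400) (hM : 0 < M) (hab : 0 < ab) (hzy : z = y * M) (hz : z ≤ ab / 400)
    (hxy : x ^ 2 ≤ y) :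
    33 / 50 * (8 * x ^ 2 * M + 4 * z) + 143 / 2 * y * (16 * x * M / 28 + 4 * z + 8 * M / 784) +
      57 / 250 * ab * (4 / 28) +
    2 * (33 / 50 * ((ab + 2 * (x * M)) * (2 * (5 / 2 * x + 637 / 50 * y)) +
        28 * z * (2 * (91 / 500))) +
      143 / 2 * y * ((ab + 2 * (x * M) + 28 * z) * (2 * (91 / 500)) +
        M / 14 * (2 * (5 / 2 * x + 637 / 50 * y) + 2 * (91 / 500))) +
      57 / 250 * ab * (2 * (91 / 500))) ≤ 9 / 10 * ab := by
  have hz0 : 0 ≤ z := by
    rw [hzy]
    positivity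
  have m1 : ab * x ≤ ab / 20 := by nlinarith
  have m2 : ab * y ≤ ab / 400 := by nlinarith
  have m3 : x ^ 2 * M ≤ z := by
    rw [hzy]
    exact mul_le_mul_of_nonneg_right hxy hM.le
  have m4 : x * z ≤ ab / 8000 := by
    calc x * z ≤ 1 / 20 * (ab / 400) := mul_le_mul hx hz hz0 (by norm_num)
      _ = ab / 8000 := by ring
  have m5 : y * z ≤ ab / 160000 := by
    calc y * z ≤ 1 / 400 * (ab / 400) := mul_le_mul hy hz hz0 (by norm_num)
      _ = ab / 160000 := by ring
  have e1 : 33 / 50 * (8 * x ^ 2 * M + 4 * z) +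
      143 / 2 * y * (16 * x * M / 28 + 4 * z + 8 * M / 784) +
      57 / 250 * ab * (4 / 28) +
    2 * (33 / 50 * ((ab + 2 * (x * M)) * (2 * (5 / 2 * x + 637 / 50 * y)) +
        28 * z * (2 * (91 / 500))) +
      143 / 2 * y * ((ab + 2 * (x * M) + 28 * z) * (2 * (91 / 500)) +
        M / 14 * (2 * (5 / 2 * x + 637 / 50 * y) + 2 * (91 / 500))) +
      57 / 250 * ab * (2 * (91 / 500))) =
      33 / 50 * (8 * (x ^ 2 * M) + 4 * z) +
      143 / 2 * (16 * (x * (y * M)) / 28 + 4 * (y * z) + 8 * (y * M) / 784) +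
      57 / 250 * ab * (4 / 28) +
    2 * (33 / 50 * (5 * (ab * x) + 637 / 25 * (ab * y) + 10 * (x ^ 2 * M) +
        4 * (637 / 50) * (x * (y * M)) + 28 * z * (2 * (91 / 500))) +
      143 / 2 * ((ab * y + 2 * (x * (y * M)) + 28 * (y * z)) * (2 * (91 / 500)) +
        1 / 14 * (5 * (x * (y * M)) + 637 / 25 * (y * (y * M)) + 2 * (91 / 500) * (y * M))) +
      57 / 250 * ab * (2 * (91 / 500))) := by ring
  rw [e1, ← hzy]
  linarith

variable {d : ℕ} {lo κ : ℝ} {μ : ℝ} {q : Measure (Set.Icc lo κ)} [IsProbabilityMeasure q]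

theorem s1_sq : s1 q ^ 2 ≤ s2 q := by
  have h1 : 0 ≤ ∫ z, (|wt q z| - s1 q) ^ 2 ∂q := integral_nonneg fun z => sq_nonneg _
  have i1 : Integrable (fun z => |wt q z|) q := by
    have := wt_pow_int (q := q) 1
    simpa using this
  have i2 := wt_pow_int (q := q) 2
  have h2 : ∀ z, (|wt q z| - s1 q) ^ 2 = |wt q z| ^ 2 + (-(2 * s1 q) * |wt q z| + s1 q ^ 2) := by
    intro z
    ring
  have i3 : Integrable (fun z => -(2 * s1 q) * |wt q z|) q := i1.const_mul _
  have i4 : Integrable (fun z => -(2 * s1 q) * |wt q z| + s1 q ^ 2) q :=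
    i3.add (integrable_const _)
  simp only [h2] at h1
  rw [integral_add i2 i4, integral_add i3 (integrable_const _), integral_const_mul] at h1
  simp only [integral_const, probReal_univ, one_smul] at h1
  change 0 ≤ s2 q + (-(2 * s1 q) * s1 q + s1 q ^ 2) at h1
  nlinarith

/-- the gain per attempt -/
theorem Bf_gain (hlo : 0 ≤ lo) (hκ : 0 < κ) (hμ : 0 < μ) (hm : 0 < mean q)
    (H1 : 400 * s2 q ≤ (μ / κ) ^ 2) (H2 : 400 * s2 q ≤ mean q / κ * (μ / κ))
    (H3 : 400 * s3 q ≤ mean q / κ * (μ / κ) ^ 2) {l l' : ℝ} (hl : 0 ≤ l) (hll : l ≤ l')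
    (n k : ℕ) :
    (p l' (plus d) - p l (plus d)) * (mean q / κ / 10) ≤
      Bf μ q l k (G μ q fun η : Env d lo κ => K l' (Φ μ q l' n) η - K l (Φ μ q l' n) η) := by
  set M := μ / κ with hM
  set ab := mean q / κ with hab
  have hM0 : 0 < M := by positivity
  have hab0 : 0 < ab := by positivity
  have hab1 : ab ≤ 1 := abar_le hκ
  have g1 := s1_nonneg (q := q)
  have g2 := s2_nonneg (q := q)
  have g3 := s3_nonneg (q := q)
  set x := s1 q / M with hx
  set y := s2 q / M ^ 2 with hy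
  set t := s3 q / M ^ 2 with ht
  have hs1 : s1 q = x * M := by
    rw [hx]
    field_simp
  have hs2 : s2 q = y * M ^ 2 := by
    rw [hy]
    field_simp
  have hs3 : s3 q = t * M ^ 2 := by
    rw [ht]
    field_simp
  have hx0 : 0 ≤ x := by positivity
  have hy0 : 0 ≤ y := by positivity
  have ht0 : 0 ≤ t := by positivity
  have hy1 : y ≤ 1 / 400 := by
    rw [hs2] at H1
    have h1 : 0 < M ^ 2 := by positivity
    have h2 : (400 * y) * M ^ 2 ≤ 1 * M ^ 2 := by linarith
    have := le_of_mul_le_mul_right h2 h1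
    linarith
  have hxy : x ^ 2 ≤ y := by
    have h1 := s1_sq (q := q)
    rw [hs1, hs2] at h1
    have h2 : 0 < M ^ 2 := by positivity
    have h3 : x ^ 2 * M ^ 2 ≤ y * M ^ 2 := by
      calc x ^ 2 * M ^ 2 = (x * M) ^ 2 := by ring
        _ ≤ _ := h1
    exact le_of_mul_le_mul_right h3 h2
  have hx1 : x ≤ 1 / 20 := by
    by_contra h1
    have h2 : 1 / 20 < x := not_le.1 h1
    nlinarith
  have hz : y * M ≤ ab / 400 := by
    rw [hs2] at H2
    have h2 : (400 * (y * M)) * M ≤ ab * M := by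
      calc (400 * (y * M)) * M = 400 * (y * M ^ 2) := by ring
        _ ≤ _ := H2
    have := le_of_mul_le_mul_right h2 hM0
    linarith
  have ht1 : t ≤ ab / 400 := by
    rw [hs3] at H3
    have h1 : 0 < M ^ 2 := by positivity
    have h2 : (400 * t) * M ^ 2 ≤ ab * M ^ 2 := by linarith
    have := le_of_mul_le_mul_right h2 h1
    linarith
  -- the constants
  set L := 28 / M with hL
  have hL0 : 0 < L := by positivity
  have hL4 : 4 / L = M / 7 := by
    rw [hL]
    field_simp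
    norm_num
  have hL2 : 2 / L = M / 14 := by
    rw [hL]
    field_simp
    norm_num
  have hLs2 : L * s2 q = 28 * (y * M) := by
    rw [hL, hs2]
    field_simp
  have hLs3 : L * s3 q = 28 * (t * M) := by
    rw [hL, hs3]
    field_simp
  set a := 5 / 2 * x + 637 / 50 * y with ha
  set b : ℝ := 91 / 500 with hb
  have ha0 : 0 ≤ a := by positivity
  have hb0 : 0 ≤ b := by norm_num [hb]
  have ha1 : a ≤ 3137 / 20000 := by
    rw [ha]
    linarith
  have hC : Cst κ μ q L (33 / 50) (143 / 2 * y) (57 / 250 * ab) := by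
    refine ⟨by norm_num, by positivity, by positivity, ?_, ?_, ?_⟩
    · rw [← hM, hL4, hs1]
      have h1 : 1 / 2 + 33 / 50 * (4 * x) + 143 / 2 * y * (1 / 7) ≤ 33 / 50 := by linarith
      have h2 := mul_le_mul_of_nonneg_right h1 hM0.le
      linarith
    · rw [← hM, hL4, hs1, mul_assoc 2 L, hLs2]
      have h1 : 33 / 50 * 56 + 143 / 2 * (4 * x + 56 * y + 1 / 7) ≤ 143 / 2 := by linarith
      have h2 := mul_le_mul_of_nonneg_right h1 (by positivity : 0 ≤ y * M)
      linarith
    · rw [← hM, hL4, hs1, mul_assoc 2 L, mul_assoc 2 L, hLs2, hLs3]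
      have h1 : (33 / 50 + 143 / 2 * y) * (56 * t) ≤ (33 / 50 + 143 / 2 * (1 / 400)) *
          (56 * (ab / 400)) := by
        refine mul_le_mul ?_ ?_ (by positivity) (by norm_num)
        · linarith
        · linarith
      have h2 : 57 / 250 * ab * (4 * x + 56 * y + 1 / 7) ≤
          57 / 250 * ab * (4 * (1 / 20) + 56 * (1 / 400) + 1 / 7) := by
        refine mul_le_mul_of_nonneg_left ?_ (by positivity)
        linarith
      have h3 : (33 / 50 + 143 / 2 * y) * (56 * t) + 57 / 250 * ab * (4 * x + 56 * y + 1 / 7) ≤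
          57 / 250 * ab := by
        refine (add_le_add h1 h2).trans ?_
        linarith
      have h4 := mul_le_mul_of_nonneg_right h3 hM0.le
      linarith
  have hΦ1 : (1 + 4 * s1 q) * a + 2 * L * s2 q * b + 2 * s1 q ≤ a * (1 + M) := by
    rw [hs1, mul_assoc 2 L, hLs2]
    have h1 : 4 * x * a + 56 * y * b + 2 * x ≤ a := by
      have h2 : 4 * x * a ≤ 1 / 5 * a := mul_le_mul_of_nonneg_right (by linarith) ha0
      rw [hb]
      have h3 : 4 / 5 * a = 2 * x + 56 * y * (91 / 500) := by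
        rw [ha]
        ring
      linarith
    have h2 := mul_le_mul_of_nonneg_right h1 hM0.le
    linarith
  have hΦ2 : (1 + 4 * s1 q + 2 * L * s2 q + 4 / L) * b + 4 / L * a + 2 / L ≤ b * (1 + M) := by
    rw [hs1, mul_assoc 2 L, hLs2, hL4, hL2]
    have h1 : (4 * x + 56 * y + 1 / 7) * b + 1 / 7 * a + 1 / 14 ≤ b := by
      rw [hb]
      linarith
    have h2 := mul_le_mul_of_nonneg_right h1 hM0.le
    linarith
  obtain ⟨c, hf⟩ := Rp_Φ (d := d) hlo hκ hμ hL0 l' ha0 hb0 hΦ1 hΦ2 n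
  -- the errors
  set Er := 33 / 50 * ((ab + 2 * s1 q) * (2 * a) + L * s2 q * (2 * b)) +
      143 / 2 * y * ((ab + 2 * s1 q + L * s2 q) * (2 * b) + 2 / L * (2 * a + 2 * b)) +
      57 / 250 * ab * (2 * b) with hEr
  have hE : ∀ z : Dir d, |Bf μ q l k (G μ q fun η : Env d lo κ => acc z η *
      (Φ μ q l' n (sh (vec z) η) - Φ μ q l' n η))| ≤ Er := fun z =>
    Bf_acc_diff hlo hκ hμ hL0 hC l ha0 hb0 hf k z
  set Y := 33 / 50 * (8 * s1 q ^ 2 + 4 * s2 q) +
    143 / 2 * y * (16 * s1 q / L + 4 * s2 q + 8 / L ^ 2) + 57 / 250 * ab * (4 / L) with hY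
  have hr : κ / (κ + μ) = 1 / (1 + M) := by
    rw [hM]
    field_simp
  have hA := le_Bf_acc' (d := d) (Y := Y) (X := Y * ((1 + M) / M)) hlo hκ hμ hL0 hC l
    (by positivity) le_rfl (by
      rw [hr]
      apply le_of_eq
      field_simp
      ring) k (plus d)
  have hrX : κ / (κ + μ) * (Y * ((1 + M) / M)) = Y / M := by
    rw [hr]
    field_simp
  rw [hrX, ← hab] at hA
  have hnum : Y / M + 2 * Er ≤ 9 / 10 * ab := by
    have h1 := num_err M hx0 hx1 hy0 hy1 hM0 hab0 rfl hz hxy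
    have h2 : Y / M = 33 / 50 * (8 * x ^ 2 * M + 4 * (y * M)) +
        143 / 2 * y * (16 * x * M / 28 + 4 * (y * M) + 8 * M / 784) +
        57 / 250 * ab * (4 / 28) := by
      rw [hY, hs1, hs2, hL]
      field_simp
      ring
    have h3 : Er = 33 / 50 * ((ab + 2 * (x * M)) * (2 * (5 / 2 * x + 637 / 50 * y)) +
        28 * (y * M) * (2 * (91 / 500))) +
      143 / 2 * y * ((ab + 2 * (x * M) + 28 * (y * M)) * (2 * (91 / 500)) +
        M / 14 * (2 * (5 / 2 * x + 637 / 50 * y) + 2 * (91 / 500))) +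
      57 / 250 * ab * (2 * (91 / 500)) := by
      rw [hEr, hLs2, hL2, hs1]
    rw [h2, h3]
    exact h1
  -- the difference of the operators
  set f : Env d lo κ → ℝ := Φ μ q l' n with hfdef
  have hfg : Good f := hf.good
  have hP0 : 0 ≤ p l' (plus d) - p l (plus d) := by
    rw [p_plus_eq]
    exact Finset.sum_nonneg fun y hy => by
      have := p_anti hl hll (Finset.ne_of_mem_erase hy)
      linarith
  have hD : ∀ z : Dir d, Good fun η : Env d lo κ => acc z η * (f (sh (vec z) η) - f η) :=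
    fun z => (Good.acc z).mul ((hfg.sh _).sub hfg)
  have hVg : ∀ z : Dir d, Good fun η : Env d lo κ => ((vec z 0 : ℤ) : ℝ) * acc z η :=
    fun z => (Good.acc z).const_mul _
  have hT : ∀ z : Dir d, Good fun η : Env d lo κ => (p l' z - p l z) *
      (((vec z 0 : ℤ) : ℝ) * acc z η + acc z η * (f (sh (vec z) η) - f η)) :=
    fun z => ((hVg z).add (hD z)).const_mul _
  have h1 : (fun η : Env d lo κ => K l' f η - K l f η) = fun η => ∑ z : Dir d,
      (p l' z - p l z) * (((vec z 0 : ℤ) : ℝ) * acc z η +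
        acc z η * (f (sh (vec z) η) - f η)) := by
    funext η
    rw [K_eq, K_eq, add_sub_add_left_eq_sub, ← Finset.sum_sub_distrib]
    exact Finset.sum_congr rfl fun y _ => by ring
  rw [h1, G_sum hκ hμ _ fun z _ => hT z, Bf_sum hκ hμ l k _ fun z _ => (hT z).G hκ hμ]
  have h2 : ∀ z : Dir d, Bf μ q l k (G μ q fun η : Env d lo κ => (p l' z - p l z) *
      (((vec z 0 : ℤ) : ℝ) * acc z η + acc z η * (f (sh (vec z) η) - f η))) =
      (p l' z - p l z) * (((vec z 0 : ℤ) : ℝ) * Bf μ q l k (G μ q (acc z)) +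
        Bf μ q l k (G μ q fun η : Env d lo κ => acc z η * (f (sh (vec z) η) - f η))) := by
    intro z
    rw [G_const_mul, Bf_const_mul, G_add hκ hμ (hVg z) (hD z),
      Bf_add hκ hμ l k ((hVg z).G hκ hμ) ((hD z).G hκ hμ), G_const_mul, Bf_const_mul]
  rw [Finset.sum_congr rfl fun z _ => h2 z, ← Finset.add_sum_erase Finset.univ _
    (Finset.mem_univ (plus d))]
  have h3 : (p l' (plus d) - p l (plus d)) * (ab - Y / M - Er) ≤ (p l' (plus d) - p l (plus d)) *
      (((vec (plus d) 0 : ℤ) : ℝ) * Bf μ q l k (G μ q (acc (plus d))) +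
        Bf μ q l k (G μ q fun η : Env d lo κ => acc (plus d) η *
          (f (sh (vec (plus d)) η) - f η))) := by
    refine mul_le_mul_of_nonneg_left ?_ hP0
    have h4 := (abs_le.1 (hE (plus d))).1
    rw [vec_plus]
    push_cast
    linarith
  have h4 : -((p l' (plus d) - p l (plus d)) * Er) ≤ ∑ z ∈ Finset.univ.erase (plus d),
      (p l' z - p l z) * (((vec z 0 : ℤ) : ℝ) * Bf μ q l k (G μ q (acc z)) +
        Bf μ q l k (G μ q fun η : Env d lo κ => acc z η * (f (sh (vec z) η) - f η))) := by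
    rw [p_plus_eq, Finset.sum_mul, ← Finset.sum_neg_distrib]
    refine Finset.sum_le_sum fun z hz => ?_
    have hz' := Finset.ne_of_mem_erase hz
    have h5 : 0 ≤ p l z - p l' z := by
      have := p_anti hl hll hz'
      linarith
    have h6 := (abs_le.1 (hE z)).2
    have h7 : ((vec z 0 : ℤ) : ℝ) ≤ 0 := by exact_mod_cast vec_nonpos hz'
    have h8 : 0 ≤ Bf μ q l k (G μ q (acc z : Env d lo κ → ℝ)) := by
      have h9 : Bf μ q l k (fun _ : Env d lo κ => 0) ≤ Bf μ q l k (G μ q (acc z)) := by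
        refine Bf_mono hlo hκ hμ l k (Good.const 0) ((Good.acc z).G hκ hμ) fun η => ?_
        have h10 := G_mono (q := q) hκ hμ (Good.const 0) (Good.acc z)
          (fun η => acc_nonneg hlo hκ z η) η
        rwa [G_const hκ hμ] at h10
      rwa [Bf_const hκ hμ] at h9
    have h9 : ((vec z 0 : ℤ) : ℝ) * Bf μ q l k (G μ q (acc z : Env d lo κ → ℝ)) ≤ 0 :=
      mul_nonpos_of_nonpos_of_nonneg h7 h8
    have h10 : (p l z - p l' z) * (((vec z 0 : ℤ) : ℝ) * Bf μ q l k (G μ q (acc z)) +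
        Bf μ q l k (G μ q fun η : Env d lo κ => acc z η * (f (sh (vec z) η) - f η))) ≤
        (p l z - p l' z) * Er := mul_le_mul_of_nonneg_left (by linarith) h5
    linarith
  have h5 : (p l' (plus d) - p l (plus d)) * (ab / 10) ≤
      (p l' (plus d) - p l (plus d)) * (ab - Y / M - Er) +
        -((p l' (plus d) - p l (plus d)) * Er) := by
    have h6 : (p l' (plus d) - p l (plus d)) * (ab - Y / M - Er) +
        -((p l' (plus d) - p l (plus d)) * Er) =
        (p l' (plus d) - p l (plus d)) * (ab - Y / M - 2 * Er) := by ring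
    rw [h6]
    refine mul_le_mul_of_nonneg_left ?_ hP0
    linarith
  exact h5.trans (add_le_add h3 h4)

/-- the difference of the expected displacements -/
theorem Bf_Φ' (hlo : 0 ≤ lo) (hκ : 0 < κ) (hμ : 0 < μ) (hm : 0 < mean q)
    (H1 : 400 * s2 q ≤ (μ / κ) ^ 2) (H2 : 400 * s2 q ≤ mean q / κ * (μ / κ))
    (H3 : 400 * s3 q ≤ mean q / κ * (μ / κ) ^ 2) {l l' : ℝ} (hl : 0 ≤ l) (hll : l ≤ l')
    (n k : ℕ) :
    n * ((p l' (plus d) - p l (plus d)) * (mean q / κ / 10)) ≤
      Bf μ q l k (fun η : Env d lo κ => Φ μ q l' n η - Φ μ q l n η) := by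
  induction n generalizing k with
  | zero =>
    have : (fun η : Env d lo κ => Φ μ q l' 0 η - Φ μ q l 0 η) = fun _ => 0 := by
      funext η
      unfold Φ
      ring
    rw [this, Bf_const hκ hμ]
    simp
  | succ n ih =>
    have g := Good.Φ (d := d) (q := q) hκ hμ l n
    have g' := Good.Φ (d := d) (q := q) hκ hμ l' n
    have h1 : (fun η : Env d lo κ => Φ μ q l' (n + 1) η - Φ μ q l (n + 1) η) =
        fun η => G μ q (fun η => K l' (Φ μ q l' n) η - K l (Φ μ q l' n) η) η +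
          G μ q (Kh l fun η => Φ μ q l' n η - Φ μ q l n η) η := by
      have h2 : (Kh l fun η : Env d lo κ => Φ μ q l' n η - Φ μ q l n η) =
          fun η => K l (Φ μ q l' n) η - K l (Φ μ q l n) η := by
        funext η
        rw [K_sub]
      rw [h2, G_sub hκ hμ (g'.K l') (g'.K l), G_sub hκ hμ (g'.K l) (g.K l)]
      funext η
      change G μ q (K l' (Φ μ q l' n)) η - G μ q (K l (Φ μ q l n)) η = _
      ring
    rw [h1, Bf_add hκ hμ l k (((g'.K l').sub (g'.K l)).G hκ hμ) (((g'.sub g).Kh l).G hκ hμ)]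
    have h3 := Bf_gain (d := d) hlo hκ hμ hm H1 H2 H3 hl hll n k
    have h4 := ih (k + 1)
    change _ ≤ Bf μ q l k (G μ q (Kh l fun η => Φ μ q l' n η - Φ μ q l n η)) at h4
    push_cast
    linarith

/-- the speed exists and is strictly increasing in the bias -/
theorem main_slow (hlo : 0 ≤ lo) (hκ : 0 < κ) (hμ : 0 < μ) (hm : 0 < mean q)
    (H1 : 400 * s2 q ≤ (μ / κ) ^ 2) (H2 : 400 * s2 q ≤ mean q / κ * (μ / κ))
    (H3 : 400 * s3 q ≤ mean q / κ * (μ / κ) ^ 2) :
    ∃ v : ℝ → ℝ, (∀ l, 0 ≤ l → IsSpeed d μ q l (v l)) ∧ StrictMonoOn v (Set.Ici 0) := by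
  have hc := exp_mean_pos hκ
  choose L hL hS using fun l => speed_gen (d := d) (q := q) hlo hκ hμ l
  refine ⟨fun l => L l / ∫ s, s ∂expMeasure κ, fun l _ => hS l, ?_⟩
  intro l hl l' _ hll
  have hl0 : (0 : ℝ) ≤ l := hl
  beta_reduce
  rw [div_lt_div_iff_of_pos_right hc]
  have hg : 0 < (p l' (plus d) - p l (plus d)) * (mean q / κ / 10) := by
    have := p_plus_lt (d := d) hl0 hll
    have h0 : 0 < p l' (plus d) - p l (plus d) := by linarith
    positivity
  have h1 := (hL l').sub (hL l)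
  have h2 : (p l' (plus d) - p l (plus d)) * (mean q / κ / 10) ≤ L l' - L l := by
    refine ge_of_tendsto h1 ?_
    filter_upwards [eventually_gt_atTop 0] with n hn
    have hn' : (0 : ℝ) < n := by exact_mod_cast hn
    have h3 := Bf_Φ' (d := d) hlo hκ hμ hm H1 H2 H3 hl0 hll.le n 0
    have h4 : Bf μ q l 0 (fun η : Env d lo κ => Φ μ q l' n η - Φ μ q l n η) =
        av d μ q l' n - av d μ q l n :=
      integral_sub (Good.Φ hκ hμ l' n).integrable (Good.Φ hκ hμ l n).integrable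
    rw [h4] at h3
    rw [← sub_div, le_div_iff₀ hn']
    linarith
  linarith

end Pool.Agent.NVB
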