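import Pool.Agent.NVB.Var
import Mathlib.Analysis.Subadditive
import Mathlib.MeasureTheory.OuterMeasure.BorelCantelli

/-!
# The speed
-/

set_option autoImplicit false

namespace Pool.Agent.NVB

open MeasureTheory ProbabilityTheory Filter Topology
open scoped Classical ENNReal

variable {d : ℕ} {lo κ : ℝ} {μ : ℝ} {q : Measure (Set.Icc lo κ)} [IsProbabilityMeasure q]

/-! ### the expected displacements -/

/-- the expected displacement in `n` attempts -/
noncomputable def av (d : ℕ) (μ : ℝ) (q : Measure (Set.Icc lo κ)) (l : ℝ) (n : ℕ) : ℝ :=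
  ∫ η, Φ μ q l n η ∂envLaw d q

theorem av_near (hlo : 0 ≤ lo) (hκ : 0 < κ) (hlκ : lo ≤ κ) (hμ : 0 < μ) (h : 5 * (κ - lo) ≤ μ)
    (l : ℝ) (n : ℕ) (η : Env d lo κ) : |Φ μ q l n η - av d μ q l n| ≤ 1 / 3 := by
  have hg := Good.Φ (d := d) (q := q) hκ hμ l n
  have h1 : Φ μ q l n η - av d μ q l n = ∫ ζ, (Φ μ q l n η - Φ μ q l n ζ) ∂envLaw d q := by
    rw [integral_sub (integrable_const _) hg.integrable]
    unfold av
    simp
  rw [h1]
  have h2 := norm_integral_le_of_norm_le_const (μ := envLaw d q)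
    (f := fun ζ => Φ μ q l n η - Φ μ q l n ζ) (C := 1 / 3)
    (Eventually.of_forall fun ζ => osc_Φ hlo hκ hlκ hμ h l n ζ η)
  simpa using h2

theorem av_sub (hlo : 0 ≤ lo) (hκ : 0 < κ) (hlκ : lo ≤ κ) (hμ : 0 < μ) (h : 5 * (κ - lo) ≤ μ)
    (l : ℝ) : Subadditive fun n : ℕ => av d μ q l n + 1 / 3 := by
  intro n m
  have g1 := Good.Φ (d := d) (q := q) hκ hμ l (n + m)
  have g2 := Good.Φ (d := d) (q := q) hκ hμ l n
  have h1 : ∀ η : Env d lo κ, Φ μ q l (n + m) η ≤ Φ μ q l n η + (av d μ q l m + 1 / 3) :=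
    Φ_add_le hlo hκ hμ l m (fun η => by
      have := (abs_le.1 (av_near (q := q) hlo hκ hlκ hμ h l m η)).2
      linarith) n
  have h2 : av d μ q l (n + m) ≤ ∫ η, (Φ μ q l n η + (av d μ q l m + 1 / 3)) ∂envLaw d q :=
    integral_mono g1.integrable (g2.integrable.add (integrable_const _)) h1
  rw [integral_add g2.integrable (integrable_const _)] at h2
  have h3 : ∫ _η : Env d lo κ, (av d μ q l m + 1 / 3) ∂envLaw d q = av d μ q l m + 1 / 3 := by
    simp
  rw [h3] at h2
  change av d μ q l (n + m) + 1 / 3 ≤ av d μ q l n + 1 / 3 + (av d μ q l m + 1 / 3)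
  unfold av at h2 ⊢
  linarith

theorem av_abs (hlo : 0 ≤ lo) (hκ : 0 < κ) (hμ : 0 < μ) (l : ℝ) (n : ℕ) :
    |av d μ q l n| ≤ n := by
  have h1 : ∀ (n : ℕ) (η : Env d lo κ), |Φ μ q l n η| ≤ n := by
    intro n η
    induction n with
    | zero =>
      change |(0 : ℝ)| ≤ _
      simp
    | succ n ih =>
      have h2 := Φ_succ_sub (q := q) hlo hκ hμ l n η
      have h3 := abs_add_le (Φ μ q l (n + 1) η - Φ μ q l n η) (Φ μ q l n η)
      rw [sub_add_cancel] at h3
      push_cast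
      linarith
  have h2 := norm_integral_le_of_norm_le_const (μ := envLaw d q)
    (f := fun ζ => Φ μ q l n ζ) (C := n) (Eventually.of_forall fun ζ => h1 n ζ)
  unfold av
  simpa using h2

/-- the displacement per attempt -/
theorem av_lim (hlo : 0 ≤ lo) (hκ : 0 < κ) (hlκ : lo ≤ κ) (hμ : 0 < μ) (h : 5 * (κ - lo) ≤ μ)
    (l : ℝ) : ∃ L : ℝ, Tendsto (fun n : ℕ => av d μ q l n / n) atTop (𝓝 L) := by
  have h1 := av_sub (d := d) (q := q) hlo hκ hlκ hμ h l
  refine ⟨h1.lim, ?_⟩
  have h2 : BddBelow (Set.range fun n : ℕ => (av d μ q l n + 1 / 3) / n) := by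
    refine ⟨-1, ?_⟩
    rintro _ ⟨n, rfl⟩
    rcases Nat.eq_zero_or_pos n with hn | hn
    · subst hn
      simp
    · have h3 := (abs_le.1 (av_abs (d := d) (q := q) hlo hκ hμ l n)).1
      have hn' : (0 : ℝ) < n := by exact_mod_cast hn
      rw [le_div_iff₀ hn']
      linarith
  have h3 := h1.tendsto_lim h2
  have h4 : Tendsto (fun n : ℕ => (1 / 3 : ℝ) / n) atTop (𝓝 0) :=
    tendsto_const_div_atTop_nhds_zero_nat _
  have h5 := h3.sub h4
  rw [sub_zero] at h5
  refine h5.congr fun n => ?_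
  ring

/-! ### the law of the positions -/

theorem measurable_path (n : ℕ) : Measurable fun w : Sample d lo κ => path w n := by
  have h : (fun w : Sample d lo κ => path w n) = fun w => pth w.1 w.2.1 w.2.2 0 n :=
    funext fun w => path_pth w n
  rw [h]
  have g : Measurable fun w : Sample d lo κ => ((w.1, w.2.1, w.2.2, 0) : Par d lo κ) :=
    measurable_fst.prodMk ((measurable_fst.comp measurable_snd).prodMk
      ((measurable_snd.comp measurable_snd).prodMk measurable_const))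
  exact (measurable_pth n).comp g

theorem path_law [hκ : Fact (0 < κ)] [hμ : Fact (0 < μ)] (l : ℝ) (n : ℕ) {f : Site d → ℝ≥0∞}
    (hf : Measurable f) :
    ∫⁻ w, f (path w n) ∂law d μ q l = ∫⁻ η, ∫⁻ i, f (run ((0 : Site d), η) i n).1
      ∂seqLaw d μ q l ∂envLaw d q := by
  have hp := isProbabilityMeasure_expMeasure hκ.out
  have hp' := isProbabilityMeasure_expMeasure hμ.out
  have h0 : law d μ q l = (envLaw d q).prod ((clksLaw d μ q).prod (attsLaw d κ l)) := rfl
  have hm : Measurable fun w : Env d lo κ × (Edge d → Clock lo κ) × (ℕ → ℝ × Att d) =>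
      f (path w n) := hf.comp (measurable_path n)
  rw [h0, lintegral_prod _ hm.aemeasurable]
  refine lintegral_congr fun η => ?_
  have hm2 : Measurable fun t : (Edge d → Clock lo κ) × (ℕ → ℝ × Att d) =>
      f (path (η, t) n) := hm.comp (measurable_const.prodMk measurable_id)
  rw [lintegral_prod _ hm2.aemeasurable]
  have h1 := link (μ := μ) (q := q) l (F := fun s : Site d × Env d lo κ => f s.1)
    (hf.comp measurable_fst) n 0 η
  unfold chE at h1
  rw [← h1]
  refine lintegral_congr fun C => lintegral_congr fun i => ?_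
  rw [path_pth]
  rfl

instance law_prob [hκ : Fact (0 < κ)] [hμ : Fact (0 < μ)] (l : ℝ) :
    IsProbabilityMeasure (law d μ q l) := by
  have hp := isProbabilityMeasure_expMeasure hκ.out
  have hp' := isProbabilityMeasure_expMeasure hμ.out
  have h0 : law d μ q l = (envLaw d q).prod ((clksLaw d μ q).prod (attsLaw d κ l)) := rfl
  rw [h0]
  infer_instance

theorem path_sq (hlo : 0 ≤ lo) [hκ : Fact (0 < κ)] (hlκ : lo ≤ κ) [hμ : Fact (0 < μ)]
    (h : 5 * (κ - lo) ≤ μ) (l : ℝ) (n : ℕ) :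
    ∫⁻ w, ENNReal.ofReal ((((path w n 0 : ℤ) : ℝ) - av d μ q l n) ^ 2) ∂law d μ q l ≤
      ENNReal.ofReal (6 * n + 1 / 9) := by
  have hf : Measurable fun x : Site d =>
      ENNReal.ofReal ((((x 0 : ℤ) : ℝ) - av d μ q l n) ^ 2) := measurable_of_countable _
  rw [path_law l n hf]
  have h1 : ∀ η : Env d lo κ, ∫⁻ i, ENNReal.ofReal
      (((((run ((0 : Site d), η) i n).1 0 : ℤ) : ℝ) - av d μ q l n) ^ 2) ∂seqLaw d μ q l ≤
      ENNReal.ofReal (6 * n + 1 / 9) := by
    intro η
    rw [← ofReal_integral_eq_lintegral_ofReal (first_sq_int l _ n _)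
      (Eventually.of_forall fun i => sq_nonneg _)]
    apply ENNReal.ofReal_le_ofReal
    have g1 := sq_shift (q := q) (μ := μ) hlo l n ((0 : Site d), η) (av d μ q l n)
    have g2 := sq_bound (q := q) (μ := μ) hlo hlκ h l n ((0 : Site d), η)
    have g3 := av_near (q := q) hlo hκ.out hlκ hμ.out h l n η
    have g4 : mn μ q l n ((0 : Site d), η) = Φ μ q l n η := by
      unfold mn
      simp [sh_zero]
    unfold sq at g1 g2
    rw [g1]
    have g5 : (mn μ q l n ((0 : Site d), η) - av d μ q l n) ^ 2 ≤ (1 / 3) ^ 2 := by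
      rw [g4, ← sq_abs]
      exact pow_le_pow_left₀ (abs_nonneg _) g3 2
    linarith
  calc ∫⁻ η, ∫⁻ i, ENNReal.ofReal
        (((((run ((0 : Site d), η) i n).1 0 : ℤ) : ℝ) - av d μ q l n) ^ 2) ∂seqLaw d μ q l
        ∂envLaw d q ≤ ∫⁻ _η : Env d lo κ, ENNReal.ofReal (6 * n + 1 / 9) ∂envLaw d q :=
        lintegral_mono h1
    _ = ENNReal.ofReal (6 * n + 1 / 9) := by simp

end Pool.Agent.NVB
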