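import Pool.Agent.NVB.Pm

/-!
# Mixing, uniformly in the dimension
-/

set_option autoImplicit false

namespace Pool.Agent.NVB

open MeasureTheory ProbabilityTheory Filter Topology
open scoped Classical ENNReal

variable {d : ℕ} {lo κ : ℝ} {μ : ℝ} {q : Measure (Set.Icc lo κ)} [IsProbabilityMeasure q]

/-- two laws which differ by a part of mass at most `τ` -/
def Cl (τ : ℝ) (α β : Measure (Set.Icc lo κ)) : Prop :=
  ∃ (t : ℝ) (σ ν ν' : Measure (Set.Icc lo κ)), 0 ≤ t ∧ t ≤ τ ∧ t ≤ 1 ∧ IsProbabilityMeasure σ ∧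
    IsProbabilityMeasure ν ∧ IsProbabilityMeasure ν' ∧
    α = ENNReal.ofReal (1 - t) • σ + ENNReal.ofReal t • ν ∧
    β = ENNReal.ofReal (1 - t) • σ + ENNReal.ofReal t • ν'

theorem Cl.refl {τ : ℝ} (hτ : 0 ≤ τ) (α : Measure (Set.Icc lo κ)) [h : IsProbabilityMeasure α] :
    Cl τ α α :=
  ⟨0, α, α, α, le_rfl, hτ, zero_le_one, h, h, h, by simp, by simp⟩

theorem Cl.one (α β : Measure (Set.Icc lo κ)) [h : IsProbabilityMeasure α]
    [h' : IsProbabilityMeasure β] : Cl 1 α β :=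
  ⟨1, α, α, β, zero_le_one, le_rfl, le_rfl, h, h, h', by simp, by simp⟩

theorem Cl.kp (hμ : 0 < μ) {s τ : ℝ} (hs : 0 < s) {α β : Measure (Set.Icc lo κ)}
    (h : Cl τ α β) : Cl (Real.exp (-(μ * s)) * τ) (kp μ q s α) (kp μ q s β) := by
  obtain ⟨t, σ, ν, ν', ht0, htτ, ht1, hσ, hν, hν', h1, h2⟩ := h
  set c := Real.exp (-(μ * s)) with hc
  have hc0 : 0 < c := Real.exp_pos _
  have hc1 : c < 1 := by
    rw [hc, Real.exp_lt_one_iff]
    have := mul_pos hμ hs
    linarith
  have hct : c * t < 1 := by nlinarith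
  have hct0 : 0 < 1 - c * t := by linarith
  have hx : (1 - c * t) * (c * (1 - t) / (1 - c * t)) = c * (1 - t) := by
    field_simp
  have hy : (1 - c * t) * ((1 - c) / (1 - c * t)) = 1 - c := by
    field_simp
  have hx0 : 0 ≤ c * (1 - t) / (1 - c * t) :=
    div_nonneg (mul_nonneg hc0.le (by linarith)) hct0.le
  have hy0 : 0 ≤ (1 - c) / (1 - c * t) := div_nonneg (by linarith) hct0.le
  have key : ∀ ν0 : Measure (Set.Icc lo κ), NVB.kp μ q s (ENNReal.ofReal (1 - t) • σ +
      ENNReal.ofReal t • ν0) = ENNReal.ofReal (1 - c * t) •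
      (ENNReal.ofReal (c * (1 - t) / (1 - c * t)) • σ + ENNReal.ofReal ((1 - c) / (1 - c * t)) • q) +
      ENNReal.ofReal (c * t) • ν0 := by
    intro ν0
    unfold NVB.kp
    rw [← hc, smul_add, smul_add, smul_smul, smul_smul, smul_smul, smul_smul,
      ← ENNReal.ofReal_mul hc0.le, ← ENNReal.ofReal_mul hc0.le, ← ENNReal.ofReal_mul hct0.le,
      ← ENNReal.ofReal_mul hct0.le, hx, hy]
    abel
  refine ⟨c * t, ENNReal.ofReal (c * (1 - t) / (1 - c * t)) • σ +
    ENNReal.ofReal ((1 - c) / (1 - c * t)) • q, ν, ν', by positivity,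
    mul_le_mul_of_nonneg_left htτ hc0.le, hct.le, ?_, hν, hν', ?_, ?_⟩
  · constructor
    rw [Measure.add_apply, Measure.smul_apply, Measure.smul_apply, measure_univ, measure_univ,
      smul_eq_mul, smul_eq_mul, mul_one, mul_one, ← ENNReal.ofReal_add hx0 hy0]
    rw [← ENNReal.ofReal_one]
    congr 1
    field_simp
    ring
  · rw [h1]
    exact key ν
  · rw [h2]
    exact key ν'

theorem Cl.integral {τ : ℝ} {α β : Measure (Set.Icc lo κ)} (h : Cl τ α β)
    {Q Q' : Set.Icc lo κ → ℝ} (hQ : Measurable Q) (hQ' : Measurable Q') {CQ : ℝ}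
    (hCQ : ∀ b, |Q b| ≤ CQ) (hCQ' : ∀ b, |Q' b| ≤ CQ) {x y : ℝ} (hx : ∀ b, |Q b - Q' b| ≤ x)
    (hx0 : 0 ≤ x) (hy0 : 0 ≤ y) (hy : ∀ b b', |Q b - Q' b'| ≤ y) :
    |∫ b, Q b ∂α - ∫ b, Q' b ∂β| ≤ x + τ * y := by
  obtain ⟨t, σ, ν, ν', ht0, htτ, ht1, hσ, hν, hν', h1, h2⟩ := h
  have hi : ∀ {R : Set.Icc lo κ → ℝ} (_ : Measurable R) (_ : ∀ b, |R b| ≤ CQ)
      (m : Measure (Set.Icc lo κ)) [IsFiniteMeasure m], Integrable R m := by
    intro R hR hCR m hm
    exact Integrable.of_bound hR.aestronglyMeasurable CQ (Eventually.of_forall hCR)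
  have e1 : ∀ {R : Set.Icc lo κ → ℝ} (_ : Measurable R) (_ : ∀ b, |R b| ≤ CQ)
      (ν0 : Measure (Set.Icc lo κ)) [IsProbabilityMeasure ν0],
      ∫ b, R b ∂(ENNReal.ofReal (1 - t) • σ + ENNReal.ofReal t • ν0) =
        (1 - t) * ∫ b, R b ∂σ + t * ∫ b, R b ∂ν0 := by
    intro R hR hCR ν0 hν0
    rw [integral_add_measure ((hi hR hCR σ).smul_measure ENNReal.ofReal_ne_top)
      ((hi hR hCR ν0).smul_measure ENNReal.ofReal_ne_top), integral_smul_measure,
      integral_smul_measure, ENNReal.toReal_ofReal (by linarith), ENNReal.toReal_ofReal ht0,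
      smul_eq_mul, smul_eq_mul]
  rw [h1, h2, e1 hQ hCQ ν, e1 hQ' hCQ' ν']
  have a1 : |∫ b, Q b ∂σ - ∫ b, Q' b ∂σ| ≤ x := by
    rw [← integral_sub (hi hQ hCQ σ) (hi hQ' hCQ' σ)]
    have := norm_integral_le_of_norm_le_const (μ := σ) (f := fun b => Q b - Q' b) (C := x)
      (Eventually.of_forall fun b => hx b)
    simpa using this
  have a2 : |∫ b, Q b ∂ν - ∫ b, Q' b ∂ν'| ≤ y := by
    rw [abs_le]
    constructor
    · have g1 : ∀ b, ∫ b', Q' b' ∂ν' ≤ Q b + y := by
        intro b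
        calc ∫ b', Q' b' ∂ν' ≤ ∫ _b', (Q b + y) ∂ν' := by
              refine integral_mono (hi hQ' hCQ' ν') (integrable_const _) fun b' => ?_
              have := (abs_le.1 (hy b b')).1
              simp only
              linarith
          _ = Q b + y := by simp
      have g2 : ∫ b', Q' b' ∂ν' ≤ ∫ b, (Q b + y) ∂ν := by
        calc ∫ b', Q' b' ∂ν' = ∫ _b, (∫ b', Q' b' ∂ν') ∂ν := by simp
          _ ≤ ∫ b, (Q b + y) ∂ν :=
            integral_mono (integrable_const _) ((hi hQ hCQ ν).add (integrable_const _)) g1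
      rw [integral_add (hi hQ hCQ ν) (integrable_const _)] at g2
      simp only [integral_const, probReal_univ, smul_eq_mul, one_mul] at g2
      linarith
    · have g1 : ∀ b', ∫ b, Q b ∂ν ≤ Q' b' + y := by
        intro b'
        calc ∫ b, Q b ∂ν ≤ ∫ _b, (Q' b' + y) ∂ν := by
              refine integral_mono (hi hQ hCQ ν) (integrable_const _) fun b => ?_
              have := (abs_le.1 (hy b b')).2
              simp only
              linarith
          _ = Q' b' + y := by simp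
      have g2 : ∫ b, Q b ∂ν ≤ ∫ b', (Q' b' + y) ∂ν' := by
        calc ∫ b, Q b ∂ν = ∫ _b', (∫ b, Q b ∂ν) ∂ν' := by simp
          _ ≤ ∫ b', (Q' b' + y) ∂ν' :=
            integral_mono (integrable_const _) ((hi hQ' hCQ' ν').add (integrable_const _)) g1
      rw [integral_add (hi hQ' hCQ' ν') (integrable_const _)] at g2
      simp only [integral_const, probReal_univ, smul_eq_mul, one_mul] at g2
      linarith
  have e2 : (1 - t) * ∫ b, Q b ∂σ + t * ∫ b, Q b ∂ν - ((1 - t) * ∫ b, Q' b ∂σ + t * ∫ b, Q' b ∂ν') =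
      (1 - t) * (∫ b, Q b ∂σ - ∫ b, Q' b ∂σ) + t * (∫ b, Q b ∂ν - ∫ b, Q' b ∂ν') := by ring
  rw [e2]
  refine (abs_add_le _ _).trans ?_
  rw [abs_mul, abs_mul, abs_of_nonneg (by linarith : 0 ≤ 1 - t), abs_of_nonneg ht0]
  have b1 : (1 - t) * |∫ b, Q b ∂σ - ∫ b, Q' b ∂σ| ≤ 1 * x :=
    mul_le_mul (by linarith) a1 (abs_nonneg _) zero_le_one
  have b2 : t * |∫ b, Q b ∂ν - ∫ b, Q' b ∂ν'| ≤ τ * y :=
    mul_le_mul htτ a2 (abs_nonneg _) (ht0.trans htτ)
  linarith

/-- `A` is a Lipschitz constant of the expectation of `f` for product measures, with respect to the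
supremum of the distances of the coordinates -/
def Th (f : Env d lo κ → ℝ) (A : ℝ) : Prop :=
  ∀ (τ : ℝ) (ρ ρ' : Edge d → Measure (Set.Icc lo κ)), 0 ≤ τ → (∀ e, IsProbabilityMeasure (ρ e)) →
    (∀ e, IsProbabilityMeasure (ρ' e)) → (∀ e, Cl τ (ρ e) (ρ' e)) →
    |∫ η, f η ∂Measure.infinitePi ρ - ∫ η, f η ∂Measure.infinitePi ρ'| ≤ A * τ

theorem Good.int {f : Env d lo κ → ℝ} (hf : Good f) (m : Measure (Env d lo κ))
    [IsFiniteMeasure m] : Integrable f m := by
  obtain ⟨C, hC⟩ := hf.bdd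
  exact Integrable.of_bound hf.meas.aestronglyMeasurable C (Eventually.of_forall hC)

theorem Th.mono {f : Env d lo κ → ℝ} {A A' : ℝ} (h : Th f A) (hA : A ≤ A') : Th f A' :=
  fun τ ρ ρ' hτ h1 h2 h3 => (h τ ρ ρ' hτ h1 h2 h3).trans (mul_le_mul_of_nonneg_right hA hτ)

theorem Th.sub {f g : Env d lo κ → ℝ} {A B : ℝ} (hf : Good f) (hg : Good g) (h : Th f A)
    (h' : Th g B) : Th (fun η => f η - g η) (A + B) := by
  intro τ ρ ρ' hτ h1 h2 h3
  rw [integral_sub (hf.int _) (hg.int _), integral_sub (hf.int _) (hg.int _)]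
  have a1 := abs_le.1 (h τ ρ ρ' hτ h1 h2 h3)
  have a2 := abs_le.1 (h' τ ρ ρ' hτ h1 h2 h3)
  rw [abs_le]
  constructor <;> linarith [a1.1, a1.2, a2.1, a2.2]

theorem Th.single (e : Edge d) {u : Set.Icc lo κ → ℝ} (hu : Measurable u) {M o : ℝ}
    (hM : ∀ b, |u b| ≤ M) (ho : 0 ≤ o) (h : ∀ b b', |u b - u b'| ≤ o) :
    Th (fun η : Env d lo κ => u (η e)) o := by
  intro τ ρ ρ' hτ h1 h2 h3
  have key : ∀ (ρ0 : Edge d → Measure (Set.Icc lo κ)) [∀ e, IsProbabilityMeasure (ρ0 e)],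
      ∫ η : Env d lo κ, u (η e) ∂Measure.infinitePi ρ0 = ∫ b, u b ∂ρ0 e := by
    intro ρ0 hρ0
    have h6 : MeasurePreserving (fun v : Env d lo κ => v e) (Measure.infinitePi ρ0) (ρ0 e) :=
      measurePreserving_eval_infinitePi ρ0 e
    rw [← h6.map_eq, integral_map h6.measurable.aemeasurable hu.aestronglyMeasurable]
  rw [key ρ, key ρ']
  have := (h3 e).integral hu hu hM hM (x := 0) (y := o) (fun b => by simp) le_rfl ho h
  linarith

theorem osc_range {f : Env d lo κ → ℝ} {o : ℝ} (ho : ∀ η η', |f η' - f η| ≤ o) (η0 : Env d lo κ) :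
    ∃ u U : ℝ, (∀ η, u ≤ f η) ∧ (∀ η, f η ≤ U) ∧ U ≤ u + o := by
  have hbb : BddBelow (Set.range f) := ⟨f η0 - o, by
    rintro _ ⟨ξ, rfl⟩
    have := (abs_le.1 (ho η0 ξ)).1
    linarith⟩
  have hba : BddAbove (Set.range f) := ⟨f η0 + o, by
    rintro _ ⟨ξ, rfl⟩
    have := (abs_le.1 (ho η0 ξ)).2
    linarith⟩
  refine ⟨sInf (Set.range f), sSup (Set.range f), fun ξ => csInf_le hbb ⟨ξ, rfl⟩,
    fun ξ => le_csSup hba ⟨ξ, rfl⟩, ?_⟩
  refine csSup_le ⟨f η0, ⟨η0, rfl⟩⟩ ?_
  rintro _ ⟨ξ, rfl⟩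
  have h8 : f ξ - o ≤ sInf (Set.range f) := by
    refine le_csInf ⟨f η0, ⟨η0, rfl⟩⟩ ?_
    rintro _ ⟨ξ', rfl⟩
    have := (abs_le.1 (ho ξ' ξ)).2
    linarith
  linarith

/-- an attempt in direction `y` -/
theorem Th.step (hlo : 0 ≤ lo) (hκ : 0 < κ) (y : Dir d) (V : ℝ) {f : Env d lo κ → ℝ} (hf : Good f)
    {A o : ℝ} (hA : 0 ≤ A) (ho : ∀ η η', |f η' - f η| ≤ o) (h : Th f A) :
    Th (fun η => acc y η * (V + f (sh (vec y) η)) + (1 - acc y η) * f η) (A + (|V| + o)) := by
  intro τ ρ ρ' hτ h1 h2 h3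
  set e := edge 0 y with he
  have hne : Nonempty (Set.Icc lo κ) := nonempty_of_isProbabilityMeasure (ρ e)
  have η0 : Env d lo κ := fun _ => hne.some
  obtain ⟨u, U, hu, hU, huU⟩ := osc_range ho η0
  have ho0 : 0 ≤ o := (abs_nonneg _).trans (ho η0 η0)
  have hFg : Good fun η : Env d lo κ =>
      acc y η * (V + f (sh (vec y) η)) + (1 - acc y η) * f η :=
    ((Good.acc y).mul ((Good.const _).add (hf.sh _))).add (((Good.const 1).sub (Good.acc y)).mul hf)
  obtain ⟨CF, hCF⟩ := hFg.bdd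
  obtain ⟨Cf, hCf⟩ := hf.bdd
  have hs : Good fun η : Env d lo κ => f (sh (vec y) η) := hf.sh _
  -- the functions of the value of the edge
  have rep : ∀ (ρ0 : Edge d → Measure (Set.Icc lo κ)) [∀ e, IsProbabilityMeasure (ρ0 e)],
      ∫ η, (acc y η * (V + f (sh (vec y) η)) + (1 - acc y η) * f η) ∂Measure.infinitePi ρ0 =
      ∫ z, ((z : ℝ) / κ * (V + ∫ η, f (sh (vec y) (Function.update η e z)) ∂Measure.infinitePi ρ0) +
        (1 - (z : ℝ) / κ) * ∫ η, f (Function.update η e z) ∂Measure.infinitePi ρ0) ∂ρ0 e := by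
    intro ρ0 hρ0
    rw [gresample ρ0 hFg.meas hCF e]
    refine integral_congr_ae (Eventually.of_forall fun z => ?_)
    have e1 : ∀ η : Env d lo κ, acc y (Function.update η e z) = (z : ℝ) / κ := by
      intro η
      unfold acc
      rw [he, Function.update_self]
    simp only [e1]
    have i1 : Integrable (fun η : Env d lo κ => f (sh (vec y) (Function.update η e z)))
        (Measure.infinitePi ρ0) :=
      Integrable.of_bound (hs.meas.comp (measurable_gupd_right e z)).aestronglyMeasurable Cf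
        (Eventually.of_forall fun η => hCf _)
    have i2 : Integrable (fun η : Env d lo κ => f (Function.update η e z))
        (Measure.infinitePi ρ0) :=
      Integrable.of_bound (hf.meas.comp (measurable_gupd_right e z)).aestronglyMeasurable Cf
        (Eventually.of_forall fun η => hCf _)
    have i3 : Integrable (fun η : Env d lo κ => V + f (sh (vec y) (Function.update η e z)))
        (Measure.infinitePi ρ0) := (integrable_const V).add i1
    rw [integral_add (i3.const_mul _) (i2.const_mul _),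
      integral_const_mul, integral_const_mul, integral_add (integrable_const V) i1]
    simp
  rw [rep ρ, rep ρ']
  have instu : ∀ (ρ0 : Edge d → Measure (Set.Icc lo κ)), (∀ e, IsProbabilityMeasure (ρ0 e)) →
      ∀ z : Set.Icc lo κ, ∀ i : Edge d,
        IsProbabilityMeasure (if i = e then Measure.dirac z else ρ0 i) := by
    intro ρ0 h0 z i
    split_ifs
    · infer_instance
    · exact h0 i
  have clu : ∀ (z : Set.Icc lo κ) (i : Edge d),
      Cl τ (if i = e then Measure.dirac z else ρ i) (if i = e then Measure.dirac z else ρ' i) := by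
    intro z i
    by_cases hi : i = e
    · simp only [if_pos hi]
      exact Cl.refl hτ _
    · simp only [if_neg hi]
      exact h3 i
  have b2 : ∀ z : Set.Icc lo κ, |∫ η, f (Function.update η e z) ∂Measure.infinitePi ρ -
      ∫ η, f (Function.update η e z) ∂Measure.infinitePi ρ'| ≤ A * τ := by
    intro z
    rw [integral_gupdate ρ hf.meas, integral_gupdate ρ' hf.meas]
    exact h τ _ _ hτ (instu ρ h1 z) (instu ρ' h2 z) (clu z)
  have b1 : ∀ z : Set.Icc lo κ, |∫ η, f (sh (vec y) (Function.update η e z)) ∂Measure.infinitePi ρ -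
      ∫ η, f (sh (vec y) (Function.update η e z)) ∂Measure.infinitePi ρ'| ≤ A * τ := by
    intro z
    have := instu ρ h1 z
    have := instu ρ' h2 z
    rw [integral_gupdate ρ hs.meas, integral_gupdate ρ' hs.meas, integral_gshift _ hf.meas,
      integral_gshift _ hf.meas]
    exact h τ _ _ hτ (fun i => instu ρ h1 z _) (fun i => instu ρ' h2 z _) (fun i => clu z _)
  have z01 : ∀ z : Set.Icc lo κ, 0 ≤ (z : ℝ) / κ ∧ (z : ℝ) / κ ≤ 1 := by
    intro z
    refine ⟨div_nonneg (hlo.trans z.2.1) hκ.le, ?_⟩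
    rw [div_le_one hκ]
    exact z.2.2
  have rng : ∀ (ρ0 : Edge d → Measure (Set.Icc lo κ)) [∀ e, IsProbabilityMeasure (ρ0 e)]
      (g : Env d lo κ → Env d lo κ) (_ : Measurable g),
      u ≤ ∫ η, f (g η) ∂Measure.infinitePi ρ0 ∧ ∫ η, f (g η) ∂Measure.infinitePi ρ0 ≤ U := by
    intro ρ0 hρ0 g hg
    have ig : Integrable (fun η : Env d lo κ => f (g η)) (Measure.infinitePi ρ0) :=
      Integrable.of_bound (hf.meas.comp hg).aestronglyMeasurable Cf
        (Eventually.of_forall fun η => hCf _)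
    constructor
    · calc u = ∫ _η, u ∂Measure.infinitePi ρ0 := by simp
        _ ≤ _ := integral_mono (integrable_const _) ig fun η => hu _
    · calc ∫ η, f (g η) ∂Measure.infinitePi ρ0 ≤ ∫ _η, U ∂Measure.infinitePi ρ0 :=
            integral_mono ig (integrable_const _) fun η => hU _
        _ = U := by simp
  have mg1 : ∀ z : Set.Icc lo κ, Measurable fun η : Env d lo κ =>
      sh (vec y) (Function.update η e z) :=
    fun z => (measurable_sh _).comp (measurable_gupd_right e z)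
  have Qm : ∀ (ρ0 : Edge d → Measure (Set.Icc lo κ)) [∀ e, IsProbabilityMeasure (ρ0 e)],
      Measurable fun z : Set.Icc lo κ =>
        (z : ℝ) / κ * (V + ∫ η, f (sh (vec y) (Function.update η e z)) ∂Measure.infinitePi ρ0) +
        (1 - (z : ℝ) / κ) * ∫ η, f (Function.update η e z) ∂Measure.infinitePi ρ0 := by
    intro ρ0 hρ0
    have m1 := measurable_int_gupd ρ0 hs.meas e
    have m2 := measurable_int_gupd ρ0 hf.meas e
    have m3 : Measurable fun z : Set.Icc lo κ => (z : ℝ) / κ := measurable_subtype_coe.div_const κ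
    exact (m3.mul (measurable_const.add m1)).add ((measurable_const.sub m3).mul m2)
  -- the range of the functions
  have Qr : ∀ (ρ0 : Edge d → Measure (Set.Icc lo κ)) [∀ e, IsProbabilityMeasure (ρ0 e)]
      (z : Set.Icc lo κ),
      u + min V 0 ≤ (z : ℝ) / κ *
        (V + ∫ η, f (sh (vec y) (Function.update η e z)) ∂Measure.infinitePi ρ0) +
        (1 - (z : ℝ) / κ) * ∫ η, f (Function.update η e z) ∂Measure.infinitePi ρ0 ∧
      (z : ℝ) / κ * (V + ∫ η, f (sh (vec y) (Function.update η e z)) ∂Measure.infinitePi ρ0) +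
        (1 - (z : ℝ) / κ) * ∫ η, f (Function.update η e z) ∂Measure.infinitePi ρ0 ≤
        U + max V 0 := by
    intro ρ0 hρ0 z
    obtain ⟨r1, r2⟩ := rng ρ0 _ (mg1 z)
    obtain ⟨r3, r4⟩ := rng ρ0 _ (measurable_gupd_right e z)
    obtain ⟨z0, z1⟩ := z01 z
    have v1 : min V 0 ≤ (z : ℝ) / κ * V := by
      rcases le_total 0 V with hV | hV
      · rw [min_eq_right hV]
        positivity
      · rw [min_eq_left hV]
        nlinarith
    have v2 : (z : ℝ) / κ * V ≤ max V 0 := by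
      rcases le_total 0 V with hV | hV
      · rw [max_eq_left hV]
        nlinarith
      · rw [max_eq_right hV]
        exact mul_nonpos_of_nonneg_of_nonpos z0 hV
    have w1 := mul_le_mul_of_nonneg_left r1 z0
    have w2 := mul_le_mul_of_nonneg_left r2 z0
    have w3 := mul_le_mul_of_nonneg_left r3 (by linarith : 0 ≤ 1 - (z : ℝ) / κ)
    have w4 := mul_le_mul_of_nonneg_left r4 (by linarith : 0 ≤ 1 - (z : ℝ) / κ)
    constructor <;> nlinarith
  have hVV : max V 0 - min V 0 = |V| := by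
    rcases le_total 0 V with hV | hV
    · rw [max_eq_left hV, min_eq_right hV, abs_of_nonneg hV, sub_zero]
    · rw [max_eq_right hV, min_eq_left hV, abs_of_nonpos hV, zero_sub]
  have hb : ∀ (ρ0 : Edge d → Measure (Set.Icc lo κ)) [∀ e, IsProbabilityMeasure (ρ0 e)]
      (z : Set.Icc lo κ), |(z : ℝ) / κ *
        (V + ∫ η, f (sh (vec y) (Function.update η e z)) ∂Measure.infinitePi ρ0) +
        (1 - (z : ℝ) / κ) * ∫ η, f (Function.update η e z) ∂Measure.infinitePi ρ0| ≤
      |u + min V 0| + |U + max V 0| := by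
    intro ρ0 hρ0 z
    obtain ⟨r1, r2⟩ := Qr ρ0 z
    rw [abs_le]
    constructor
    · have := neg_abs_le (u + min V 0)
      have := abs_nonneg (U + max V 0)
      linarith
    · have := le_abs_self (U + max V 0)
      have := abs_nonneg (u + min V 0)
      linarith
  have fin := (h3 e).integral (Qm ρ) (Qm ρ') (hb ρ) (hb ρ') (x := A * τ) (y := |V| + o) ?_
    (mul_nonneg hA hτ) (by positivity) ?_
  · refine fin.trans (le_of_eq ?_)
    ring
  · intro z
    obtain ⟨z0, z1⟩ := z01 z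
    set a1 := ∫ η, f (sh (vec y) (Function.update η e z)) ∂Measure.infinitePi ρ with ha1
    set a1' := ∫ η, f (sh (vec y) (Function.update η e z)) ∂Measure.infinitePi ρ' with ha1'
    set a2 := ∫ η, f (Function.update η e z) ∂Measure.infinitePi ρ with ha2
    set a2' := ∫ η, f (Function.update η e z) ∂Measure.infinitePi ρ' with ha2'
    have c1 : |a1 - a1'| ≤ A * τ := b1 z
    have c2 : |a2 - a2'| ≤ A * τ := b2 z
    have c3 : (z : ℝ) / κ * (V + a1) + (1 - (z : ℝ) / κ) * a2 -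
        ((z : ℝ) / κ * (V + a1') + (1 - (z : ℝ) / κ) * a2') =
        (z : ℝ) / κ * (a1 - a1') + (1 - (z : ℝ) / κ) * (a2 - a2') := by ring
    rw [c3]
    refine (abs_add_le _ _).trans ?_
    rw [abs_mul, abs_mul, abs_of_nonneg z0, abs_of_nonneg (by linarith : 0 ≤ 1 - (z : ℝ) / κ)]
    have d1 := mul_le_mul_of_nonneg_left c1 z0
    have d2 := mul_le_mul_of_nonneg_left c2 (by linarith : 0 ≤ 1 - (z : ℝ) / κ)
    linarith
  · intro z z'
    obtain ⟨r1, r2⟩ := Qr ρ z
    obtain ⟨r3, r4⟩ := Qr ρ' z'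
    rw [abs_le]
    constructor <;> linarith

theorem Th.sum {ι : Type} (s : Finset ι) {f : ι → Env d lo κ → ℝ} (hf : ∀ i ∈ s, Good (f i))
    {A c : ι → ℝ} (hc : ∀ i ∈ s, 0 ≤ c i) (h : ∀ i ∈ s, Th (f i) (A i)) :
    Th (fun η => ∑ i ∈ s, c i * f i η) (∑ i ∈ s, c i * A i) := by
  intro τ ρ ρ' hτ h1 h2 h3
  rw [integral_finsetSum s fun i hi => ((hf i hi).int _).const_mul _,
    integral_finsetSum s fun i hi => ((hf i hi).int _).const_mul _, ← Finset.sum_sub_distrib,
    Finset.sum_mul]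
  refine (Finset.abs_sum_le_sum_abs _ _).trans (Finset.sum_le_sum fun i hi => ?_)
  rw [integral_const_mul, integral_const_mul, ← mul_sub, abs_mul, abs_of_nonneg (hc i hi),
    mul_assoc]
  exact mul_le_mul_of_nonneg_left (h i hi τ ρ ρ' hτ h1 h2 h3) (hc i hi)

/-- the probability of an attempt parallel to the first axis -/
noncomputable def ph (d : ℕ) (l : ℝ) : ℝ := ∑ y : Dir d, p l y * |((vec y 0 : ℤ) : ℝ)|

theorem Th.K (hlo : 0 ≤ lo) (hκ : 0 < κ) (l : ℝ) {f : Env d lo κ → ℝ} (hf : Good f)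
    {A o : ℝ} (hA : 0 ≤ A) (ho : ∀ η η', |f η' - f η| ≤ o) (h : Th f A) :
    Th (NVB.K l f) (A + o + ph d l) := by
  have h1 := Th.sum (Finset.univ : Finset (Dir d))
    (f := fun y (η : Env d lo κ) => acc y η * (((vec y 0 : ℤ) : ℝ) + f (sh (vec y) η)) +
      (1 - acc y η) * f η)
    (fun y _ => ((Good.acc y).mul ((Good.const _).add (hf.sh _))).add
      (((Good.const 1).sub (Good.acc y)).mul hf))
    (fun y _ => p_nonneg l y) fun y _ => Th.step hlo hκ y ((vec y 0 : ℤ) : ℝ) hf hA ho h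
  have h2 : ∑ y : Dir d, p l y * (A + (|((vec y 0 : ℤ) : ℝ)| + o)) = A + o + ph d l := by
    unfold ph
    simp only [mul_add, Finset.sum_add_distrib]
    rw [← Finset.sum_mul, ← Finset.sum_mul, sum_p]
    ring
  rw [h2] at h1
  exact h1

theorem Th.Kh (hlo : 0 ≤ lo) (hκ : 0 < κ) (l : ℝ) {f : Env d lo κ → ℝ} (hf : Good f)
    {A o : ℝ} (hA : 0 ≤ A) (ho : ∀ η η', |f η' - f η| ≤ o) (h : Th f A) :
    Th (NVB.Kh l f) (A + o) := by
  have h1 := Th.sum (Finset.univ : Finset (Dir d))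
    (f := fun y (η : Env d lo κ) => acc y η * (0 + f (sh (vec y) η)) +
      (1 - acc y η) * f η)
    (fun y _ => ((Good.acc y).mul ((Good.const _).add (hf.sh _))).add
      (((Good.const 1).sub (Good.acc y)).mul hf))
    (fun y _ => p_nonneg l y) fun y _ => Th.step hlo hκ y 0 hf hA ho h
  have h2 : ∑ y : Dir d, p l y * (A + (|(0 : ℝ)| + o)) = A + o := by
    rw [abs_zero, zero_add, ← Finset.sum_mul, sum_p, one_mul]
  rw [h2] at h1
  have h3 : (fun η : Env d lo κ => ∑ y : Dir d, p l y * (acc y η * (0 + f (sh (vec y) η)) +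
      (1 - acc y η) * f η)) = NVB.Kh l f := by
    funext η
    unfold NVB.Kh
    simp only [zero_add]
  rw [h3] at h1
  exact h1

end Pool.Agent.NVB
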