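import Pool.Agent.NVB.Uni2

/-!
# Lipschitz constants of products and of attempts with two functions
-/

set_option autoImplicit false

namespace Pool.Agent.NVB

open MeasureTheory ProbabilityTheory Filter Topology
open scoped Classical ENNReal

variable {d : ℕ} {lo κ : ℝ} {μ : ℝ} {q : Measure (Set.Icc lo κ)} [IsProbabilityMeasure q]

theorem Th.const (c : ℝ) : Th (fun _ : Env d lo κ => c) 0 := by
  intro τ ρ ρ' hτ h1 h2 h3
  simp

theorem Th.add {f g : Env d lo κ → ℝ} {A B : ℝ} (hf : Good f) (hg : Good g) (h : Th f A)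
    (h' : Th g B) : Th (fun η => f η + g η) (A + B) := by
  intro τ ρ ρ' hτ h1 h2 h3
  rw [integral_add (hf.int _) (hg.int _), integral_add (hf.int _) (hg.int _)]
  have a1 := abs_le.1 (h τ ρ ρ' hτ h1 h2 h3)
  have a2 := abs_le.1 (h' τ ρ ρ' hτ h1 h2 h3)
  rw [abs_le]
  constructor <;> linarith [a1.1, a1.2, a2.1, a2.2]

theorem Th.const_mul {f : Env d lo κ → ℝ} {A : ℝ} (c : ℝ) (h : Th f A) :
    Th (fun η => c * f η) (|c| * A) := by
  intro τ ρ ρ' hτ h1 h2 h3
  rw [integral_const_mul, integral_const_mul, ← mul_sub, abs_mul, mul_assoc]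
  exact mul_le_mul_of_nonneg_left (h τ ρ ρ' hτ h1 h2 h3) (abs_nonneg _)

theorem Th.congr {f g : Env d lo κ → ℝ} {A : ℝ} (h : Th f A) (hfg : ∀ η, g η = f η) : Th g A := by
  have : g = f := funext hfg
  rw [this]
  exact h

/-- the product of functions of two different edges -/
theorem Th.mul2 {e e' : Edge d} (hee : e ≠ e') {u v : Set.Icc lo κ → ℝ} (hu : Measurable u)
    (hv : Measurable v) {cu ou cv ov : ℝ} (hcu : ∀ b, |u b| ≤ cu) (hcv : ∀ b, |v b| ≤ cv)
    (hou0 : 0 ≤ ou) (hou : ∀ b b', |u b - u b'| ≤ ou) (hov0 : 0 ≤ ov)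
    (hov : ∀ b b', |v b - v b'| ≤ ov) :
    Th (fun η : Env d lo κ => u (η e) * v (η e')) (ou * cv + cu * ov) := by
  intro τ ρ ρ' hτ h1 h2 h3
  have key : ∀ (ρ0 : Edge d → Measure (Set.Icc lo κ)) [∀ e, IsProbabilityMeasure (ρ0 e)],
      ∫ η : Env d lo κ, u (η e) * v (η e') ∂Measure.infinitePi ρ0 =
        (∫ b, u b ∂ρ0 e) * ∫ b, v b ∂ρ0 e' := by
    intro ρ0 hρ0
    have hF : Measurable fun η : Env d lo κ => u (η e) * v (η e') :=
      (hu.comp (measurable_pi_apply e)).mul (hv.comp (measurable_pi_apply e'))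
    have hC : ∀ η : Env d lo κ, |u (η e) * v (η e')| ≤ cu * cv := by
      intro η
      rw [abs_mul]
      exact mul_le_mul (hcu _) (hcv _) (abs_nonneg _) ((abs_nonneg _).trans (hcu (η e)))
    rw [gresample ρ0 hF hC e]
    have h4 : ∀ (z : Set.Icc lo κ) (η : Env d lo κ),
        u (Function.update η e z e) * v (Function.update η e z e') = u z * v (η e') := by
      intro z η
      rw [Function.update_self, Function.update_of_ne hee.symm]
    simp only [h4]
    have h5 : ∫ η : Env d lo κ, v (η e') ∂Measure.infinitePi ρ0 = ∫ b, v b ∂ρ0 e' := by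
      have h6 : MeasurePreserving (fun η : Env d lo κ => η e') (Measure.infinitePi ρ0) (ρ0 e') :=
        measurePreserving_eval_infinitePi ρ0 e'
      rw [← h6.map_eq, integral_map h6.measurable.aemeasurable hv.aestronglyMeasurable]
    have h7 : ∀ z : Set.Icc lo κ, ∫ η : Env d lo κ, u z * v (η e') ∂Measure.infinitePi ρ0 =
        u z * ∫ b, v b ∂ρ0 e' := by
      intro z
      rw [integral_const_mul, h5]
    simp only [h7]
    rw [integral_mul_const]
  rw [key ρ, key ρ']
  have b1 := (h3 e).integral hu hu hcu hcu (x := 0) (y := ou) (fun b => by simp) le_rfl hou0 hou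
  have b2 := (h3 e').integral hv hv hcv hcv (x := 0) (y := ov) (fun b => by simp) le_rfl hov0 hov
  have a1 : |∫ b, v b ∂ρ e'| ≤ cv := by
    have := norm_integral_le_of_norm_le_const (μ := ρ e') (f := v) (C := cv)
      (Eventually.of_forall fun b => hcv b)
    simpa using this
  have a2 : |∫ b, u b ∂ρ' e| ≤ cu := by
    have := norm_integral_le_of_norm_le_const (μ := ρ' e) (f := u) (C := cu)
      (Eventually.of_forall fun b => hcu b)
    simpa using this
  have e1 : (∫ b, u b ∂ρ e) * (∫ b, v b ∂ρ e') - (∫ b, u b ∂ρ' e) * ∫ b, v b ∂ρ' e' =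
      ((∫ b, u b ∂ρ e) - ∫ b, u b ∂ρ' e) * (∫ b, v b ∂ρ e') +
      (∫ b, u b ∂ρ' e) * ((∫ b, v b ∂ρ e') - ∫ b, v b ∂ρ' e') := by ring
  rw [e1]
  refine (abs_add_le _ _).trans ?_
  rw [abs_mul, abs_mul]
  have c1 := mul_le_mul b1 a1 (abs_nonneg _) (by positivity)
  have c2 := mul_le_mul a2 b2 (abs_nonneg _) ((abs_nonneg _).trans a2)
  linarith

/-- an attempt in direction `y`, with two functions -/
theorem Th.step2 (hlo : 0 ≤ lo) (hκ : 0 < κ) (y : Dir d) {f g : Env d lo κ → ℝ} (hf : Good f)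
    (hg : Good g) {A c : ℝ} (hA : 0 ≤ A) (hcf : ∀ η, |f η| ≤ c) (hcg : ∀ η, |g η| ≤ c)
    (h : Th f A) (h' : Th g A) :
    Th (fun η => acc y η * f (sh (vec y) η) + (1 - acc y η) * g η) (A + 2 * c) := by
  intro τ ρ ρ' hτ h1 h2 h3
  set e := edge 0 y with he
  have hne : Nonempty (Set.Icc lo κ) := nonempty_of_isProbabilityMeasure (ρ e)
  have η0 : Env d lo κ := fun _ => hne.some
  have hc0 : 0 ≤ c := (abs_nonneg _).trans (hcf η0)
  have hFg : Good fun η : Env d lo κ => acc y η * f (sh (vec y) η) + (1 - acc y η) * g η :=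
    ((Good.acc y).mul (hf.sh _)).add (((Good.const 1).sub (Good.acc y)).mul hg)
  obtain ⟨CF, hCF⟩ := hFg.bdd
  have hs : Good fun η : Env d lo κ => f (sh (vec y) η) := hf.sh _
  have rep : ∀ (ρ0 : Edge d → Measure (Set.Icc lo κ)) [∀ e, IsProbabilityMeasure (ρ0 e)],
      ∫ η, (acc y η * f (sh (vec y) η) + (1 - acc y η) * g η) ∂Measure.infinitePi ρ0 =
      ∫ z, ((z : ℝ) / κ * (∫ η, f (sh (vec y) (Function.update η e z)) ∂Measure.infinitePi ρ0) +
        (1 - (z : ℝ) / κ) * ∫ η, g (Function.update η e z) ∂Measure.infinitePi ρ0) ∂ρ0 e := by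
    intro ρ0 hρ0
    rw [gresample ρ0 hFg.meas hCF e]
    refine integral_congr_ae (Eventually.of_forall fun z => ?_)
    have e1 : ∀ η : Env d lo κ, acc y (Function.update η e z) = (z : ℝ) / κ := by
      intro η
      unfold acc
      rw [he, Function.update_self]
    simp only [e1]
    have i1 : Integrable (fun η : Env d lo κ => f (sh (vec y) (Function.update η e z)))
        (Measure.infinitePi ρ0) :=
      Integrable.of_bound (hs.meas.comp (measurable_gupd_right e z)).aestronglyMeasurable c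
        (Eventually.of_forall fun η => hcf _)
    have i2 : Integrable (fun η : Env d lo κ => g (Function.update η e z))
        (Measure.infinitePi ρ0) :=
      Integrable.of_bound (hg.meas.comp (measurable_gupd_right e z)).aestronglyMeasurable c
        (Eventually.of_forall fun η => hcg _)
    rw [integral_add (i1.const_mul _) (i2.const_mul _), integral_const_mul, integral_const_mul]
  rw [rep ρ, rep ρ']
  have instu : ∀ (ρ0 : Edge d → Measure (Set.Icc lo κ)), (∀ e, IsProbabilityMeasure (ρ0 e)) →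
      ∀ z : Set.Icc lo κ, ∀ i : Edge d,
        IsProbabilityMeasure (if i = e then Measure.dirac z else ρ0 i) := by
    intro ρ0 h0 z i
    split_ifs
    · infer_instance
    · exact h0 i
  have clu : ∀ (z : Set.Icc lo κ) (i : Edge d),
      Cl τ (if i = e then Measure.dirac z else ρ i) (if i = e then Measure.dirac z else ρ' i) := by
    intro z i
    by_cases hi : i = e
    · simp only [if_pos hi]
      exact Cl.refl hτ _
    · simp only [if_neg hi]
      exact h3 i
  have b2 : ∀ z : Set.Icc lo κ, |∫ η, g (Function.update η e z) ∂Measure.infinitePi ρ -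
      ∫ η, g (Function.update η e z) ∂Measure.infinitePi ρ'| ≤ A * τ := by
    intro z
    rw [integral_gupdate ρ hg.meas, integral_gupdate ρ' hg.meas]
    exact h' τ _ _ hτ (instu ρ h1 z) (instu ρ' h2 z) (clu z)
  have b1 : ∀ z : Set.Icc lo κ, |∫ η, f (sh (vec y) (Function.update η e z)) ∂Measure.infinitePi ρ -
      ∫ η, f (sh (vec y) (Function.update η e z)) ∂Measure.infinitePi ρ'| ≤ A * τ := by
    intro z
    have := instu ρ h1 z
    have := instu ρ' h2 z
    rw [integral_gupdate ρ hs.meas, integral_gupdate ρ' hs.meas, integral_gshift _ hf.meas,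
      integral_gshift _ hf.meas]
    exact h τ _ _ hτ (fun i => instu ρ h1 z _) (fun i => instu ρ' h2 z _) (fun i => clu z _)
  have z01 : ∀ z : Set.Icc lo κ, 0 ≤ (z : ℝ) / κ ∧ (z : ℝ) / κ ≤ 1 := by
    intro z
    refine ⟨div_nonneg (hlo.trans z.2.1) hκ.le, ?_⟩
    rw [div_le_one hκ]
    exact z.2.2
  have rng : ∀ (ρ0 : Edge d → Measure (Set.Icc lo κ)) [∀ e, IsProbabilityMeasure (ρ0 e)]
      {k : Env d lo κ → ℝ} (_ : Good k) (_ : ∀ η, |k η| ≤ c)
      (m : Env d lo κ → Env d lo κ) (_ : Measurable m),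
      |∫ η, k (m η) ∂Measure.infinitePi ρ0| ≤ c := by
    intro ρ0 hρ0 k hk hck m hm
    have := norm_integral_le_of_norm_le_const (μ := Measure.infinitePi ρ0)
      (f := fun η => k (m η)) (C := c) (Eventually.of_forall fun η => hck _)
    simpa using this
  have mg1 : ∀ z : Set.Icc lo κ, Measurable fun η : Env d lo κ =>
      sh (vec y) (Function.update η e z) :=
    fun z => (measurable_sh _).comp (measurable_gupd_right e z)
  have Qm : ∀ (ρ0 : Edge d → Measure (Set.Icc lo κ)) [∀ e, IsProbabilityMeasure (ρ0 e)],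
      Measurable fun z : Set.Icc lo κ =>
        (z : ℝ) / κ * (∫ η, f (sh (vec y) (Function.update η e z)) ∂Measure.infinitePi ρ0) +
        (1 - (z : ℝ) / κ) * ∫ η, g (Function.update η e z) ∂Measure.infinitePi ρ0 := by
    intro ρ0 hρ0
    have m1 := measurable_int_gupd ρ0 hs.meas e
    have m2 := measurable_int_gupd ρ0 hg.meas e
    have m3 : Measurable fun z : Set.Icc lo κ => (z : ℝ) / κ := measurable_subtype_coe.div_const κ
    exact (m3.mul m1).add ((measurable_const.sub m3).mul m2)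
  have hb : ∀ (ρ0 : Edge d → Measure (Set.Icc lo κ)) [∀ e, IsProbabilityMeasure (ρ0 e)]
      (z : Set.Icc lo κ), |(z : ℝ) / κ *
        (∫ η, f (sh (vec y) (Function.update η e z)) ∂Measure.infinitePi ρ0) +
        (1 - (z : ℝ) / κ) * ∫ η, g (Function.update η e z) ∂Measure.infinitePi ρ0| ≤ c := by
    intro ρ0 hρ0 z
    obtain ⟨z0, z1⟩ := z01 z
    have r1 := rng ρ0 hf hcf _ (mg1 z)
    have r2 := rng ρ0 hg hcg _ (measurable_gupd_right e z)
    refine (abs_add_le _ _).trans ?_
    rw [abs_mul, abs_mul, abs_of_nonneg z0, abs_of_nonneg (by linarith : 0 ≤ 1 - (z : ℝ) / κ)]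
    have d1 := mul_le_mul_of_nonneg_left r1 z0
    have d2 := mul_le_mul_of_nonneg_left r2 (by linarith : 0 ≤ 1 - (z : ℝ) / κ)
    linarith
  have fin := (h3 e).integral (Qm ρ) (Qm ρ') (hb ρ) (hb ρ') (x := A * τ) (y := 2 * c) ?_
    (mul_nonneg hA hτ) (by positivity) ?_
  · refine fin.trans (le_of_eq ?_)
    ring
  · intro z
    obtain ⟨z0, z1⟩ := z01 z
    set a1 := ∫ η, f (sh (vec y) (Function.update η e z)) ∂Measure.infinitePi ρ with ha1
    set a1' := ∫ η, f (sh (vec y) (Function.update η e z)) ∂Measure.infinitePi ρ' with ha1'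
    set a2 := ∫ η, g (Function.update η e z) ∂Measure.infinitePi ρ with ha2
    set a2' := ∫ η, g (Function.update η e z) ∂Measure.infinitePi ρ' with ha2'
    have c1 : |a1 - a1'| ≤ A * τ := b1 z
    have c2 : |a2 - a2'| ≤ A * τ := b2 z
    have c3 : (z : ℝ) / κ * a1 + (1 - (z : ℝ) / κ) * a2 -
        ((z : ℝ) / κ * a1' + (1 - (z : ℝ) / κ) * a2') =
        (z : ℝ) / κ * (a1 - a1') + (1 - (z : ℝ) / κ) * (a2 - a2') := by ring
    rw [c3]
    refine (abs_add_le _ _).trans ?_
    rw [abs_mul, abs_mul, abs_of_nonneg z0, abs_of_nonneg (by linarith : 0 ≤ 1 - (z : ℝ) / κ)]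
    have d1 := mul_le_mul_of_nonneg_left c1 z0
    have d2 := mul_le_mul_of_nonneg_left c2 (by linarith : 0 ≤ 1 - (z : ℝ) / κ)
    linarith
  · intro z z'
    have r1 := abs_le.1 (hb ρ z)
    have r2 := abs_le.1 (hb ρ' z')
    rw [abs_le]
    constructor <;> linarith [r1.1, r1.2, r2.1, r2.2]

end Pool.Agent.NVB
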