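import Pool.Agent.NVB.Er3

/-!
# The expansion of the expected displacement
-/

set_option autoImplicit false

namespace Pool.Agent.NVB

open MeasureTheory ProbabilityTheory Filter Topology
open scoped Classical ENNReal

variable {d : ℕ} {lo κ : ℝ} {μ : ℝ} {q : Measure (Set.Icc lo κ)} [IsProbabilityMeasure q]

/-! ### linearity -/

theorem G_abs (hκ : 0 < κ) (hμ : 0 < μ) {f : Env d lo κ → ℝ} (hf : Good f) {C : ℝ}
    (h : ∀ η, |f η| ≤ C) (η : Env d lo κ) : |G μ q f η| ≤ C := by
  have h1 := G_mono (q := q) hκ hμ hf (Good.const C) (fun η => (abs_le.1 (h η)).2) η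
  have h2 := G_mono (q := q) hκ hμ (Good.const (-C)) hf (fun η => (abs_le.1 (h η)).1) η
  rw [G_const hκ hμ] at h1 h2
  exact abs_le.2 ⟨h2, h1⟩

theorem Kh_abs (hlo : 0 ≤ lo) (hκ : 0 < κ) (l : ℝ) {f : Env d lo κ → ℝ} {C : ℝ}
    (h : ∀ η, |f η| ≤ C) (η : Env d lo κ) : |Kh l f η| ≤ C := by
  obtain ⟨h1, h2⟩ := Kh_range hlo hκ l (u := -C) (U := C) (fun η => (abs_le.1 (h η)).1)
    (fun η => (abs_le.1 (h η)).2) η
  exact abs_le.2 ⟨h1, h2⟩

theorem It_abs (hlo : 0 ≤ lo) (hκ : 0 < κ) (hμ : 0 < μ) (l : ℝ) {f : Env d lo κ → ℝ}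
    (hf : Good f) {C : ℝ} (h : ∀ η, |f η| ≤ C) (j : ℕ) (η : Env d lo κ) :
    |It μ q l j f η| ≤ C := by
  induction j generalizing η with
  | zero => exact h η
  | succ j ih => exact G_abs hκ hμ ((Good.It hκ hμ l j hf).Kh l) (Kh_abs hlo hκ l ih) η

theorem It_add (hκ : 0 < κ) (hμ : 0 < μ) (l : ℝ) {f g : Env d lo κ → ℝ} (hf : Good f)
    (hg : Good g) (j : ℕ) :
    It μ q l j (fun η => f η + g η) = fun η => It μ q l j f η + It μ q l j g η := by
  induction j with
  | zero => rfl
  | succ j ih =>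
    change G μ q (Kh l (It μ q l j fun η => f η + g η)) = _
    rw [ih, Kh_add, G_add hκ hμ ((Good.It hκ hμ l j hf).Kh l) ((Good.It hκ hμ l j hg).Kh l)]
    rfl

theorem It_const_mul (l c : ℝ) (f : Env d lo κ → ℝ) (j : ℕ) :
    It μ q l j (fun η => c * f η) = fun η => c * It μ q l j f η := by
  induction j with
  | zero => rfl
  | succ j ih =>
    change G μ q (Kh l (It μ q l j fun η => c * f η)) = _
    rw [ih, Kh_const_mul, G_const_mul]
    rfl

theorem It_mono (hlo : 0 ≤ lo) (hκ : 0 < κ) (hμ : 0 < μ) (l : ℝ) {f g : Env d lo κ → ℝ}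
    (hf : Good f) (hg : Good g) (h : ∀ η, f η ≤ g η) (j : ℕ) (η : Env d lo κ) :
    It μ q l j f η ≤ It μ q l j g η := by
  induction j generalizing η with
  | zero => exact h η
  | succ j ih =>
    exact G_mono hκ hμ ((Good.It hκ hμ l j hf).Kh l) ((Good.It hκ hμ l j hg).Kh l)
      (Kh_mono hlo hκ l ih) η

theorem Kh_sum {ι : Type} (s : Finset ι) (l : ℝ) (f : ι → Env d lo κ → ℝ) :
    Kh l (fun η => ∑ i ∈ s, f i η) = fun η => ∑ i ∈ s, Kh l (f i) η := by
  induction s using Finset.induction_on with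
  | empty =>
    simp only [Finset.sum_empty]
    exact Kh_const l 0
  | insert a s ha ih =>
    simp only [Finset.sum_insert ha]
    rw [Kh_add, ih]

/-! ### the expansion -/

theorem hf_mz (hlo : 0 ≤ lo) (hκ : 0 < κ) (hμ : 0 < μ) {α : ℝ} (h0 : 0 ≤ α) (hα : α ≤ 1) :
    MZ q ((0, 0) : Edge d) (hf μ q α) := by
  intro η
  unfold hf
  simp only [Function.update_self]
  exact hh_int hlo hκ hμ h0 hα

theorem G_hf (hlo : 0 ≤ lo) (hκ : 0 < κ) (hμ : 0 < μ) {α : ℝ} (h0 : 0 ≤ α) (hα : α ≤ 1)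
    (η : Env d lo κ) : G μ q (hf μ q α) η = κ / (κ + μ) * hf μ q α η := by
  rw [G_mz hκ hμ (Good.hf hlo hκ hμ h0 hα) (hf_mz hlo hκ hμ h0 hα)]
  have h1 : ∀ z : Gap d lo κ, hf μ q α (Function.update (ref z η) (0, 0) (η (0, 0))) =
      hf μ q α η := by
    intro z
    unfold hf
    rw [Function.update_self]
  simp only [h1]
  rw [integral_mul_const, wexp_int hκ hμ]

/-- the remainder -/
noncomputable def R (μ : ℝ) (q : Measure (Set.Icc lo κ)) (l : ℝ) (n : ℕ) (η : Env d lo κ) : ℝ :=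
  It μ q l n (fun η => -hf μ q (p l (plus d)) η) η +
    ∑ i ∈ Finset.range n, It μ q l i (G μ q (E0 μ q l)) η

theorem Good.R (hlo : 0 ≤ lo) (hκ : 0 < κ) (hμ : 0 < μ) (l : ℝ) (n : ℕ) :
    Good (NVB.R μ q l n : Env d lo κ → ℝ) := by
  have h1 : Good fun η : Env d lo κ => -NVB.hf μ q (p l (plus d)) η := by
    have := (Good.hf (d := d) (q := q) hlo hκ hμ (p_nonneg l (plus d)) (p_plus_le l)).const_mul
      (-1)
    simpa using this
  exact (Good.It hκ hμ l n h1).add (Good.sum _ fun i _ =>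
    Good.It hκ hμ l i ((Good.E0 hlo hκ hμ l).G hκ hμ))

theorem R_succ (hlo : 0 ≤ lo) (hκ : 0 < κ) (hμ : 0 < μ) (l : ℝ) (n : ℕ) (η : Env d lo κ) :
    R μ q l (n + 1) η = G μ q (E0 μ q l) η + G μ q (Kh l (R μ q l n)) η := by
  have h1 : Good fun η : Env d lo κ => -NVB.hf μ q (p l (plus d)) η := by
    have := (Good.hf (d := d) (q := q) hlo hκ hμ (p_nonneg l (plus d)) (p_plus_le l)).const_mul
      (-1)
    simpa using this
  have h2 : ∀ i, Good (It μ q l i (G μ q (E0 μ q l)) : Env d lo κ → ℝ) := fun i =>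
    Good.It hκ hμ l i ((Good.E0 hlo hκ hμ l).G hκ hμ)
  have h3 : (R μ q l n : Env d lo κ → ℝ) = fun η => It μ q l n (fun η => -hf μ q (p l (plus d)) η) η +
    ∑ i ∈ Finset.range n, It μ q l i (G μ q (E0 μ q l)) η := rfl
  rw [h3, Kh_add, Kh_sum, G_add hκ hμ ((Good.It hκ hμ l n h1).Kh l)
    (Good.sum _ fun i _ => (h2 i).Kh l), G_sum hκ hμ _ fun i _ => (h2 i).Kh l]
  unfold R
  rw [Finset.sum_range_succ']
  have h4 : It μ q l (n + 1) (fun η : Env d lo κ => -hf μ q (p l (plus d)) η) η =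
    G μ q (Kh l (It μ q l n (fun η => -hf μ q (p l (plus d)) η))) η := rfl
  have h5 : ∀ i, It μ q l (i + 1) (G μ q (E0 μ q l)) η =
    G μ q (Kh l (It μ q l i (G μ q (E0 μ q l)))) η := fun i => rfl
  have h6 : It μ q l 0 (G μ q (E0 μ q l)) η = G μ q (E0 μ q l) η := rfl
  rw [h4, h6]
  simp only [h5]
  ring

theorem Φ_expand (hlo : 0 ≤ lo) (hκ : 0 < κ) (hμ : 0 < μ) (l : ℝ) (n : ℕ) (η : Env d lo κ) :
    Φ μ q l n η = n * (ww μ q (p l (plus d)) / κ) + hf μ q (p l (plus d)) η + R μ q l n η := by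
  have ha0 := p_nonneg l (plus d)
  have ha1 := p_plus_le (d := d) l
  have g1 := Good.hf (d := d) (q := q) hlo hκ hμ ha0 ha1
  induction n generalizing η with
  | zero =>
    have h1 : Φ μ q l 0 η = 0 := rfl
    have h2 : R μ q l 0 η = -hf μ q (p l (plus d)) η := by
      unfold R
      simp [It]
    rw [h1, h2]
    simp
  | succ n ih =>
    set c : ℝ := ww μ q (p l (plus d)) / κ with hc
    set f := (hf μ q (p l (plus d)) : Env d lo κ → ℝ) with hfdef
    have gR := Good.R (d := d) (q := q) hlo hκ hμ l n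
    have gE := Good.E0 (d := d) (q := q) hlo hκ hμ l
    have h1 : Φ μ q l (n + 1) η = G μ q (K l (Φ μ q l n)) η := rfl
    have h2 : (Φ μ q l n : Env d lo κ → ℝ) = fun η => n * c + f η + R μ q l n η :=
      funext ih
    have h3 : K l (fun η : Env d lo κ => n * c + f η + R μ q l n η) =
        fun η => (((c + n * c) + f η * ((κ + μ) / κ)) + E0 μ q l η) + Kh l (R μ q l n) η := by
      funext ζ
      have h4 := K_sub l (fun η : Env d lo κ => n * c + f η + R μ q l n η) f ζ
      have h5 : (fun η : Env d lo κ => n * c + f η + R μ q l n η - f η) =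
          fun η => n * c + R μ q l n η := by
        funext ξ
        ring
      rw [h5, Kh_add, Kh_const] at h4
      beta_reduce at h4
      have h6 : E0 μ q l ζ = K l f ζ - (c + f ζ * ((κ + μ) / κ)) := rfl
      linarith
    rw [h1, h2, h3, G_add hκ hμ (((Good.const _).add (g1.mul (Good.const _))).add gE) (gR.Kh l),
      G_add hκ hμ ((Good.const _).add (g1.mul (Good.const _))) gE,
      G_add hκ hμ (Good.const _) (g1.mul (Good.const _)), G_const hκ hμ, R_succ hlo hκ hμ]
    have h7 : G μ q (fun η : Env d lo κ => f η * ((κ + μ) / κ)) η = f η := by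
      have h8 : (fun η : Env d lo κ => f η * ((κ + μ) / κ)) = fun η => (κ + μ) / κ * f η := by
        funext ξ
        ring
      rw [h8, G_const_mul]
      beta_reduce
      rw [hfdef, G_hf hlo hκ hμ ha0 ha1]
      field_simp
    beta_reduce
    rw [h7]
    push_cast
    ring

/-- the expansion of the expected displacement -/
theorem av_expand (hlo : 0 ≤ lo) (hκ : 0 < κ) (hμ : 0 < μ) (l : ℝ) (n : ℕ) :
    ∃ c : ℝ, |c| ≤ κ / μ * ((μ + κ) / μ) ∧
      av d μ q l n = n * (ww μ q (p l (plus d)) / κ) + c +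
        ∑ i ∈ Finset.range n, ∫ η : Env d lo κ, It μ q l i (G μ q (E0 μ q l)) η ∂envLaw d q := by
  have ha0 := p_nonneg l (plus d)
  have ha1 := p_plus_le (d := d) l
  have g1 := Good.hf (d := d) (q := q) hlo hκ hμ ha0 ha1
  have g2 : Good fun η : Env d lo κ => -NVB.hf μ q (p l (plus d)) η := by
    have := g1.const_mul (-1)
    simpa using this
  have g3 : ∀ i, Good (It μ q l i (G μ q (E0 μ q l)) : Env d lo κ → ℝ) := fun i =>
    Good.It hκ hμ l i ((Good.E0 hlo hκ hμ l).G hκ hμ)
  have g4 := Good.It (d := d) (q := q) hκ hμ l n g2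
  refine ⟨∫ η : Env d lo κ, It μ q l n (fun η => -hf μ q (p l (plus d)) η) η ∂envLaw d q,
    ?_, ?_⟩
  · have hb : ∀ η : Env d lo κ, |-hf μ q (p l (plus d)) η| ≤ κ / μ * ((μ + κ) / μ) := by
      intro η
      rw [abs_neg]
      refine (hh_abs (q := q) hlo hκ hμ ha0 ha1 (η (0, 0))).trans ?_
      have : 0 ≤ κ / μ * ((μ + κ) / μ) := by positivity
      nlinarith
    have h1 := norm_integral_le_of_norm_le_const (μ := envLaw d q)
      (f := It μ q l n (fun η => -hf μ q (p l (plus d)) η))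
      (Eventually.of_forall fun η => It_abs hlo hκ hμ l g2 hb n η)
    simpa using h1
  · unfold av
    have h1 : (fun η : Env d lo κ => Φ μ q l n η) = fun η =>
        (n * (ww μ q (p l (plus d)) / κ) + hf μ q (p l (plus d)) η) +
        (It μ q l n (fun η => -hf μ q (p l (plus d)) η) η +
          ∑ i ∈ Finset.range n, It μ q l i (G μ q (E0 μ q l)) η) := by
      funext η
      rw [Φ_expand hlo hκ hμ]
      rfl
    have i1 : Integrable (fun η : Env d lo κ => ∑ i ∈ Finset.range n,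
        It μ q l i (G μ q (E0 μ q l)) η) (envLaw d q) :=
      integrable_finsetSum _ fun i _ => (g3 i).integrable
    have i2 : Integrable (fun η : Env d lo κ => n * (ww μ q (p l (plus d)) / κ) +
        hf μ q (p l (plus d)) η) (envLaw d q) := (integrable_const _).add g1.integrable
    have i3 : Integrable (fun η : Env d lo κ =>
        It μ q l n (fun η => -hf μ q (p l (plus d)) η) η +
          ∑ i ∈ Finset.range n, It μ q l i (G μ q (E0 μ q l)) η) (envLaw d q) :=
      g4.integrable.add i1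
    have h2 : ∫ η : Env d lo κ, hf μ q (p l (plus d)) η ∂envLaw d q = 0 := by
      have h0 : MeasurePreserving (fun η : Env d lo κ => η (0, 0)) (envLaw d q) q :=
        measurePreserving_eval_infinitePi (fun _ : Edge d => q) (0, 0)
      have h3 : ∫ η : Env d lo κ, hf μ q (p l (plus d)) η ∂envLaw d q =
          ∫ z, hh μ q (p l (plus d)) z ∂((envLaw d q).map fun η => η (0, 0)) := by
        rw [integral_map h0.measurable.aemeasurable (hh_measurable _).aestronglyMeasurable]
        rfl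
      rw [h3, h0.map_eq]
      exact hh_int hlo hκ hμ ha0 ha1
    rw [h1, integral_add i2 i3, integral_add (integrable_const _) g1.integrable,
      integral_add g4.integrable i1, integral_finsetSum _ fun i _ => (g3 i).integrable, h2]
    simp
    ring

/-! ### the change of the bias -/

theorem tele (hκ : 0 < κ) (hμ : 0 < μ) (l l' : ℝ) {f : Env d lo κ → ℝ} (hf : Good f) (i : ℕ)
    (η : Env d lo κ) : It μ q l' i f η - It μ q l i f η = ∑ j ∈ Finset.range i,
      It μ q l (i - 1 - j) (G μ q (fun η => Kh l' (It μ q l' j f) η - Kh l (It μ q l' j f) η)) η := by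
  have g1 : ∀ j, Good (It μ q l' j f) := fun j => Good.It hκ hμ l' j hf
  have g2 : ∀ j, Good (fun η => Kh l' (It μ q l' j f) η - Kh l (It μ q l' j f) η) := fun j =>
    ((g1 j).Kh l').sub ((g1 j).Kh l)
  induction i generalizing η with
  | zero => simp [It]
  | succ i ih =>
    have h1 : It μ q l' (i + 1) f η = G μ q (Kh l' (It μ q l' i f)) η := rfl
    have h2 : It μ q l (i + 1) f η = G μ q (Kh l (It μ q l i f)) η := rfl
    have h3 : G μ q (Kh l' (It μ q l' i f)) η - G μ q (Kh l (It μ q l' i f)) η =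
        G μ q (fun η => Kh l' (It μ q l' i f) η - Kh l (It μ q l' i f) η) η := by
      rw [G_sub hκ hμ ((g1 i).Kh l') ((g1 i).Kh l)]
    have h4 : (It μ q l' i f : Env d lo κ → ℝ) = fun η => It μ q l i f η +
        ∑ j ∈ Finset.range i, It μ q l (i - 1 - j)
          (G μ q (fun η => Kh l' (It μ q l' j f) η - Kh l (It μ q l' j f) η)) η := by
      funext ζ
      have := ih ζ
      linarith
    have h5 : G μ q (Kh l (It μ q l' i f)) η = G μ q (Kh l (It μ q l i f)) η +
        ∑ j ∈ Finset.range i, It μ q l (i - j)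
          (G μ q (fun η => Kh l' (It μ q l' j f) η - Kh l (It μ q l' j f) η)) η := by
      rw [h4, Kh_add, Kh_sum, G_add hκ hμ ((Good.It hκ hμ l i hf).Kh l)
        (Good.sum _ fun j _ => (Good.It hκ hμ l _ ((g2 j).G hκ hμ)).Kh l),
        G_sum hκ hμ _ fun j _ => (Good.It hκ hμ l _ ((g2 j).G hκ hμ)).Kh l]
      beta_reduce
      rw [add_right_inj]
      refine Finset.sum_congr rfl fun j hj => ?_
      have h6 : i - j = (i - 1 - j) + 1 := by
        have := Finset.mem_range.1 hj
        omega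
      rw [h6]
      rfl
    rw [Finset.sum_range_succ, h1, h2]
    have h7 : i + 1 - 1 - i = 0 := by omega
    have h8 : i + 1 - 1 = i := by omega
    rw [h7, h8]
    have h9 : It μ q l 0 (G μ q (fun η => Kh l' (It μ q l' i f) η - Kh l (It μ q l' i f) η)) η =
      G μ q (fun η => Kh l' (It μ q l' i f) η - Kh l (It μ q l' i f) η) η := rfl
    rw [h9, ← h3]
    linarith

end Pool.Agent.NVB
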