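import Pool.Agent.NVB.Uni

/-!
# The bounds of the terms of the expansion
-/

set_option autoImplicit false

namespace Pool.Agent.NVB

open MeasureTheory ProbabilityTheory Filter Topology
open scoped Classical ENNReal

variable {d : ℕ} {lo κ : ℝ} {μ : ℝ} {q : Measure (Set.Icc lo κ)} [IsProbabilityMeasure q]

theorem r_facts (hκ : 0 < κ) (hμ : 0 < μ) : 0 ≤ κ / (κ + μ) ∧ κ / (κ + μ) ≤ 1 ∧
    κ / (κ + μ) < 1 := by
  refine ⟨by positivity, ?_, ?_⟩
  · rw [div_le_one (by positivity)]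
    linarith
  · rw [div_lt_one (by positivity)]
    linarith

/-- the change of the error -/
theorem dE_bound (hlo : 0 ≤ lo) (hκ : 0 < κ) (hμ : 0 < μ) {S : ℝ} (hS : S = (κ + μ) / μ)
    {l l' : ℝ} (hl : 0 ≤ l) (hll : l ≤ l') {dp dm z : ℝ}
    (hdp : dp = p l' (plus d) - p l (plus d)) (hdm : dm = p l (minus d) - p l' (minus d))
    (hz : z = 1 / Z d l) (i : ℕ) (η : Env d lo κ) :
    |It μ q l i (G μ q (dE μ q l l')) η| ≤
      dp * (6 * S ^ 4 * (κ / (κ + μ)) ^ i + 12 * S ^ 7 * z) +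
        2 * (dm * (p l' (plus d) * S ^ 2)) := by
  obtain ⟨hS1, _, _, _, _⟩ := S_facts hκ hμ hS
  obtain ⟨hr0, hr1, _⟩ := r_facts hκ hμ
  have hdp0 : 0 ≤ dp := by
    rw [hdp]
    exact dp_nonneg hl hll
  have hdl0 : 0 ≤ 1 / Z d l - 1 / Z d l' := by
    have := z_anti (d := d) hl hll
    linarith
  have hdm0 : 0 ≤ dm := by
    rw [hdm]
    exact dm_nonneg hl hll
  have hndl : 2 * d * (1 / Z d l - 1 / Z d l') ≤ dp := by
    rw [hdp]
    exact dl_le hl hll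
  have hz0 : 0 < z := by
    rw [hz]
    exact one_div_pos.2 (Z_pos l)
  have hnz : 2 * d * z ≤ 1 := by
    rw [hz]
    exact nz_le l
  have ha0' := p_nonneg l' (plus d)
  have h1 := Fr.dE (q := q) hlo hκ hμ hS hl hll hdp rfl hdm hz
  set dl := 1 / Z d l - 1 / Z d l' with hdl
  have h2 := It_bound hlo hκ hμ hl h1 (by positivity) le_rfl (by positivity) hS hz rfl i η
  refine h2.trans ?_
  set r := κ / (κ + μ) with hr
  have e1 : z * (S ^ 2 * (2 * d) * (2 * (dl * S ^ 2 + z * (dp * S ^ 4))) +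
      S ^ 3 * (6 * (dp * S ^ 4))) = z * (2 * S ^ 4 * (2 * d * dl)) +
      z * (2 * S ^ 6 * dp) * (2 * d * z) + 6 * (z * dp * S ^ 7) := by ring
  have e2 : z * (2 * S ^ 4 * (2 * d * dl)) ≤ z * (2 * S ^ 4 * dp) := by gcongr
  have e3 : z * (2 * S ^ 6 * dp) * (2 * d * z) ≤ z * (2 * S ^ 6 * dp) * 1 :=
    mul_le_mul_of_nonneg_left hnz (by positivity)
  have s4 : S ^ 4 ≤ S ^ 7 := pow_le_pow_right₀ hS1 (by norm_num)
  have s6 : S ^ 6 ≤ S ^ 7 := pow_le_pow_right₀ hS1 (by norm_num)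
  have zdp : 0 ≤ z * dp := by positivity
  have e4 : z * dp * S ^ 4 ≤ z * dp * S ^ 7 := mul_le_mul_of_nonneg_left s4 zdp
  have e6 : z * dp * S ^ 6 ≤ z * dp * S ^ 7 := mul_le_mul_of_nonneg_left s6 zdp
  rw [e1]
  linarith

/-- the change of the attempts -/
theorem Nn_bound (hlo : 0 ≤ lo) (hκ : 0 < κ) (hμ : 0 < μ) {S : ℝ} (hS : S = (κ + μ) / μ)
    {l l' : ℝ} (hl : 0 ≤ l) (hll : l ≤ l') {dp z : ℝ}
    (hdp : dp = p l' (plus d) - p l (plus d)) (hz : z = 1 / Z d l) (k j : ℕ) (η : Env d lo κ) :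
    |It μ q l k (G μ q (Nn l l' (It μ q l' j (G μ q (E0 μ q l'))))) η| ≤
      dp * (12 * S ^ 2 * (κ / (κ + μ)) ^ k + 142 * S ^ 5 * z) := by
  obtain ⟨hS1, _, _, _, _⟩ := S_facts hκ hμ hS
  obtain ⟨hr0, hr1, _⟩ := r_facts hκ hμ
  have hl' : 0 ≤ l' := hl.trans hll
  have hdp0 : 0 ≤ dp := by
    rw [hdp]
    exact dp_nonneg hl hll
  have hdl0 : 0 ≤ 1 / Z d l - 1 / Z d l' := by
    have := z_anti (d := d) hl hll
    linarith
  have hndl : 2 * d * (1 / Z d l - 1 / Z d l') ≤ dp := by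
    rw [hdp]
    exact dl_le hl hll
  have hz0 : 0 < z := by
    rw [hz]
    exact one_div_pos.2 (Z_pos l)
  have hnz : 2 * d * z ≤ 1 := by
    rw [hz]
    exact nz_le l
  have hzz : 1 / Z d l' ≤ z := by
    rw [hz]
    exact z_anti hl hll
  have hz0' : 0 < 1 / Z d l' := one_div_pos.2 (Z_pos l')
  have hnz' : 2 * d * (1 / Z d l') ≤ 1 := nz_le l'
  have ha0' := p_nonneg l' (plus d)
  have ha1' := p_plus_le (d := d) l'
  have h0 := Fr.E0 (d := d) (q := q) hlo hκ hμ hS hl'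
  set z' := 1 / Z d l' with hz'
  set dl := 1 / Z d l - z' with hdl
  have hH0 : 0 ≤ p l' (plus d) * S ^ 2 := by positivity
  have hHS : p l' (plus d) * S ^ 2 ≤ S ^ 2 := by
    have : p l' (plus d) * S ^ 2 ≤ 1 * S ^ 2 := mul_le_mul_of_nonneg_right ha1' (by positivity)
    linarith
  set H := p l' (plus d) * S ^ 2 with hH
  set r := κ / (κ + μ) with hr
  have hG : Fr q (G μ q (E0 μ q l') : Env d lo κ → ℝ) (3 * H) (2 * (z' * H)) 0
      (z' * (2 * H + 1)) := by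
    refine Fr.mono (h0.G hκ hμ) ?_ ?_ ?_ le_rfl
    · have : r * (3 * H) ≤ 1 * (3 * H) := mul_le_mul_of_nonneg_right hr1 (by positivity)
      linarith
    · have : r * (2 * (z' * H)) ≤ 1 * (2 * (z' * H)) :=
        mul_le_mul_of_nonneg_right hr1 (by positivity)
      linarith
    · rw [mul_zero]
  obtain ⟨ω, ε, δ, hω, hε, hδ, h1, h2, h3⟩ := hG.It hlo hκ hμ hl' (by positivity) le_rfl
    (by positivity) hS hz' rfl j
  rw [← hr] at h1 h2 h3
  set W := r ^ j * (3 * H) with hW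
  have hW0 : 0 ≤ W := by positivity
  have hrj : r ^ j ≤ 1 := pow_le_one₀ hr0 hr1
  have hWS : W ≤ 3 * S ^ 2 := by
    have : W ≤ 1 * (3 * H) := mul_le_mul_of_nonneg_right hrj (by positivity)
    linarith
  -- powers of `S`
  have s0 : 1 ≤ S ^ 5 := one_le_pow₀ hS1
  have s2 : S ^ 2 ≤ S ^ 5 := pow_le_pow_right₀ hS1 (by norm_num)
  have s3 : S ^ 3 ≤ S ^ 5 := pow_le_pow_right₀ hS1 (by norm_num)
  have s4 : S ^ 4 ≤ S ^ 5 := pow_le_pow_right₀ hS1 (by norm_num)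
  have s23 : S ^ 2 ≤ S ^ 3 := pow_le_pow_right₀ hS1 (by norm_num)
  have bω : ω ≤ 5 * S ^ 3 * z := by
    have e0 : 0 ≤ S * z' * W := by positivity
    have e1 : z' * H ≤ z' * S ^ 2 := mul_le_mul_of_nonneg_left hHS hz0'.le
    have e2 : S * z' * (3 * H) ≤ S * z' * (3 * S ^ 2) := by gcongr
    have e3 : S * z' * (3 * S ^ 2) = 3 * (S ^ 3 * z') := by ring
    have e4 : z' * S ^ 2 ≤ z' * S ^ 3 := mul_le_mul_of_nonneg_left s23 hz0'.le
    have e5 : S ^ 3 * z' ≤ S ^ 3 * z := mul_le_mul_of_nonneg_left hzz (by positivity)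
    linarith
  have bδ : δ + S * ε ≤ 8 * S ^ 5 * z := by
    have e0 : 0 ≤ z' * (S ^ 2 * (2 * d) * ω + S ^ 3 * W) := by positivity
    have e1 : z' * (2 * H + 1) ≤ z' * (3 * S ^ 5) := by
      apply mul_le_mul_of_nonneg_left _ hz0'.le
      linarith
    have e2 : z' * (S ^ 2 * (2 * d) * (2 * (z' * H)) + S ^ 3 * (3 * H)) =
        z' * (2 * S ^ 2 * H) * (2 * d * z') + z' * (3 * S ^ 3 * H) := by ring
    have e3 : z' * (2 * S ^ 2 * H) * (2 * d * z') ≤ z' * (2 * S ^ 2 * H) * 1 :=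
      mul_le_mul_of_nonneg_left hnz' (by positivity)
    have e4 : z' * (2 * S ^ 2 * H) ≤ z' * (2 * S ^ 2 * S ^ 2) := by gcongr
    have e5 : z' * (3 * S ^ 3 * H) ≤ z' * (3 * S ^ 3 * S ^ 2) := by gcongr
    have e6 : z' * (2 * S ^ 2 * S ^ 2) = 2 * (z' * S ^ 4) := by ring
    have e7 : z' * (3 * S ^ 3 * S ^ 2) = 3 * (z' * S ^ 5) := by ring
    have e8 : z' * S ^ 4 ≤ z' * S ^ 5 := mul_le_mul_of_nonneg_left s4 hz0'.le
    have e9 : S ^ 5 * z' ≤ S ^ 5 * z := mul_le_mul_of_nonneg_left hzz (by positivity)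
    rw [e2] at h3
    linarith
  have h4 := h1.Nn hlo hκ hl hll hω hε hδ hdp hdl
  have h5 := It_bound hlo hκ hμ hl h4 (by positivity) (by positivity) (by positivity) hS hz rfl
    k η
  refine h5.trans ?_
  have bε : ε ≤ S * ε := by nlinarith
  have zdp : 0 ≤ z * dp := by positivity
  have t1 : r ^ k * (4 * (dp * W)) ≤ r ^ k * (4 * (dp * (3 * S ^ 2))) := by gcongr
  have t2 : 4 * (dp * (δ + ε + ω)) ≤ 4 * (dp * (8 * S ^ 5 * z + 5 * S ^ 3 * z)) := by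
    have : δ + ε + ω ≤ 8 * S ^ 5 * z + 5 * S ^ 3 * z := by linarith
    gcongr
  have t3 : S * (4 * (dp * (ε + ω))) ≤ 4 * (dp * (8 * S ^ 5 * z + S * (5 * S ^ 3 * z))) := by
    have e1 : S * (4 * (dp * (ε + ω))) = 4 * (dp * (S * ε + S * ω)) := by ring
    have e2 : S * ε ≤ 8 * S ^ 5 * z := by linarith
    rw [e1]
    gcongr
  have t4 : z * (S ^ 2 * (2 * d) * (4 * (dp * ω))) ≤ 4 * S ^ 2 * (dp * (5 * S ^ 3 * z)) := by
    have e1 : z * (S ^ 2 * (2 * d) * (4 * (dp * ω))) = (4 * S ^ 2 * (dp * ω)) * (2 * d * z) := by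
      ring
    have e2 : (4 * S ^ 2 * (dp * ω)) * (2 * d * z) ≤ (4 * S ^ 2 * (dp * ω)) * 1 :=
      mul_le_mul_of_nonneg_left hnz (by positivity)
    have e3 : 4 * S ^ 2 * (dp * ω) ≤ 4 * S ^ 2 * (dp * (5 * S ^ 3 * z)) := by gcongr
    linarith
  have t5 : z * (S ^ 2 * (2 * d) * (2 * (dl * W))) ≤ z * (2 * S ^ 2 * (dp * (3 * S ^ 2))) := by
    have e1 : z * (S ^ 2 * (2 * d) * (2 * (dl * W))) = z * (2 * S ^ 2 * ((2 * d * dl) * W)) := by
      ring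
    rw [e1]
    gcongr
  have t6 : z * (S ^ 3 * (4 * (dp * W))) ≤ z * (S ^ 3 * (4 * (dp * (3 * S ^ 2)))) := by gcongr
  have u3 : z * dp * S ^ 3 ≤ z * dp * S ^ 5 := mul_le_mul_of_nonneg_left s3 zdp
  have u4 : z * dp * S ^ 4 ≤ z * dp * S ^ 5 := mul_le_mul_of_nonneg_left s4 zdp
  have e9 : z * (S ^ 2 * (2 * d) * (4 * (dp * ω) + 2 * (dl * W)) + S ^ 3 * (4 * (dp * W))) =
      z * (S ^ 2 * (2 * d) * (4 * (dp * ω))) + z * (S ^ 2 * (2 * d) * (2 * (dl * W))) +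
      z * (S ^ 3 * (4 * (dp * W))) := by ring
  rw [e9]
  have v1 : r ^ k * (4 * (dp * (3 * S ^ 2))) = dp * (12 * S ^ 2 * r ^ k) := by ring
  have v2 : 4 * (dp * (8 * S ^ 5 * z + 5 * S ^ 3 * z)) =
      32 * (z * dp * S ^ 5) + 20 * (z * dp * S ^ 3) := by ring
  have v3 : 4 * (dp * (8 * S ^ 5 * z + S * (5 * S ^ 3 * z))) =
      32 * (z * dp * S ^ 5) + 20 * (z * dp * S ^ 4) := by ring
  have v4 : 4 * S ^ 2 * (dp * (5 * S ^ 3 * z)) = 20 * (z * dp * S ^ 5) := by ring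
  have v5 : z * (2 * S ^ 2 * (dp * (3 * S ^ 2))) = 6 * (z * dp * S ^ 4) := by ring
  have v6 : z * (S ^ 3 * (4 * (dp * (3 * S ^ 2)))) = 12 * (z * dp * S ^ 5) := by ring
  have v7 : dp * (12 * S ^ 2 * r ^ k + 142 * S ^ 5 * z) =
      dp * (12 * S ^ 2 * r ^ k) + 142 * (z * dp * S ^ 5) := by ring
  rw [v7]
  linarith

/-- mixing, for the environment seen from the walk with bias `l` -/
def Mx (d : ℕ) (μ : ℝ) (q : Measure (Set.Icc lo κ)) (ρ l : ℝ) : Prop :=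
  ∀ (f : Env d lo κ → ℝ) (o A : ℝ), Good f → (∀ η η', |f η' - f η| ≤ o) → 0 ≤ A →
    Th f A → ∀ (j : ℕ) (η η' : Env d lo κ),
      |It μ q l j f η' - It μ q l j f η| ≤ ρ ^ j * (o + A)

theorem osc_E (hlo : 0 ≤ lo) (hκ : 0 < κ) (hμ : 0 < μ) {S : ℝ} (hS : S = (κ + μ) / μ)
    {l ρ : ℝ} (hl : 0 ≤ l) (hρ0 : 0 ≤ ρ) (hρ : Mx d μ q ρ l) (j : ℕ) (η η' : Env d lo κ) :
    |It μ q l j (G μ q (E0 μ q l)) η' - It μ q l j (G μ q (E0 μ q l)) η| ≤
      ρ ^ j * (17 * S ^ 2 * (p l (plus d) + 1 / Z d l)) := by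
  obtain ⟨hS1, _, _, _, _⟩ := S_facts hκ hμ hS
  obtain ⟨hr0, hr1, _⟩ := r_facts hκ hμ
  have hz : 0 < 1 / Z d l := one_div_pos.2 (Z_pos l)
  have ha0 := p_nonneg l (plus d)
  have gE := Good.E0 (d := d) (q := q) hlo hκ hμ l
  have h1 := G_abs (q := q) hκ hμ gE (E0_abs hlo hκ hμ hS hl)
  have h2 := Th.G (q := q) hκ hμ gE (Th.E0 hlo hκ hμ hS hl)
  set m := p l (plus d) + 1 / Z d l with hm
  have hm0 : 0 ≤ S ^ 2 * m := by positivity
  have h3 : Th (G μ q (E0 μ q l) : Env d lo κ → ℝ) (7 * S ^ 2 * m) := by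
    refine Th.mono h2 ?_
    have : κ / (κ + μ) * (7 * S ^ 2 * m) ≤ 1 * (7 * S ^ 2 * m) :=
      mul_le_mul_of_nonneg_right hr1 (by positivity)
    linarith
  have h4 := hρ (G μ q (E0 μ q l)) (10 * S ^ 2 * m) (7 * S ^ 2 * m) (gE.G hκ hμ) ?_
    (by positivity) h3 j η η'
  · refine h4.trans (le_of_eq ?_)
    ring
  · intro ζ ζ'
    have a1 := abs_le.1 (h1 ζ)
    have a2 := abs_le.1 (h1 ζ')
    rw [abs_le]
    constructor <;> linarith [a1.1, a1.2, a2.1, a2.2]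

theorem lm_abs {c : Dir d → ℝ} {C : ℝ} (h : ∀ y, |c y| ≤ C) : |lm c| ≤ 2 * d * C := by
  rw [lm_filter, ← lm_card (d := d), ← nsmul_eq_mul, ← Finset.sum_const]
  exact (Finset.abs_sum_le_sum_abs _ _).trans (Finset.sum_le_sum fun y _ => h y)

theorem Kh_diff_abs (hlo : 0 ≤ lo) (hκ : 0 < κ) {l l' : ℝ} (hl : 0 ≤ l) (hll : l ≤ l')
    {f : Env d lo κ → ℝ} {o : ℝ} (ho : ∀ η η', |f η' - f η| ≤ o) (η : Env d lo κ) :
    |Kh l' f η - Kh l f η| ≤ (p l' (plus d) - p l (plus d)) * (3 * o) := by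
  have hdp0 := dp_nonneg (d := d) hl hll
  have hdm0 := dm_nonneg (d := d) hl hll
  have hdm := dm_le (d := d) hl hll
  have hdl0 : 0 ≤ 1 / Z d l - 1 / Z d l' := by
    have := z_anti (d := d) hl hll
    linarith
  have hndl := dl_le (d := d) hl hll
  have ho0 : 0 ≤ o := (abs_nonneg _).trans (ho η η)
  have hy : ∀ y : Dir d, |acc y η * (f (sh (vec y) η) - f η)| ≤ o := by
    intro y
    have a0 := acc_nonneg hlo hκ y η
    have a1 := acc_le hκ y η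
    rw [abs_mul, abs_of_nonneg a0]
    have h1 := ho η (sh (vec y) η)
    have h2 := mul_le_mul a1 h1 (abs_nonneg _) zero_le_one
    linarith
  rw [Kh_diff]
  unfold Nn
  set dp := p l' (plus d) - p l (plus d)
  set dm := p l (minus d) - p l' (minus d)
  set dl := 1 / Z d l - 1 / Z d l'
  have e1 : |dp * (acc (plus d) η * (f (sh (vec (plus d)) η) - f η))| ≤ dp * o := by
    rw [abs_mul, abs_of_nonneg hdp0]
    exact mul_le_mul_of_nonneg_left (hy _) hdp0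
  have e2 : |dm * (acc (minus d) η * (f (sh (vec (minus d)) η) - f η))| ≤ dp * o := by
    rw [abs_mul, abs_of_nonneg hdm0]
    exact mul_le_mul hdm (hy _) (abs_nonneg _) hdp0
  have e3 : |dl * lm (fun y => acc y η * (f (sh (vec y) η) - f η))| ≤ dp * o := by
    rw [abs_mul, abs_of_nonneg hdl0]
    have h1 := mul_le_mul_of_nonneg_left (lm_abs hy) hdl0
    have h2 := mul_le_mul_of_nonneg_right hndl ho0
    have h3 : dl * (2 * d * o) = 2 * d * dl * o := by ring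
    rw [h3] at h1
    exact h1.trans h2
  have a1 := abs_le.1 e1
  have a2 := abs_le.1 e2
  have a3 := abs_le.1 e3
  rw [abs_le]
  constructor <;> linarith [a1.1, a1.2, a2.1, a2.2, a3.1, a3.2]

/-- the terms of the telescoping sum -/
theorem term_bound (hlo : 0 ≤ lo) (hκ : 0 < κ) (hμ : 0 < μ) {S : ℝ} (hS : S = (κ + μ) / μ)
    {l l' ρ : ℝ} (hl : 0 ≤ l) (hll : l ≤ l') (hρ0 : 0 ≤ ρ) (hρ : Mx d μ q ρ l')
    {dp dm z M : ℝ} (hdp : dp = p l' (plus d) - p l (plus d))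
    (hdm : dm = p l (minus d) - p l' (minus d)) (hz : z = 1 / Z d l)
    (hM : M = 17 * S ^ 2 * (p l' (plus d) + 1 / Z d l')) (L : ℕ) {i j : ℕ} (hj : j < i)
    (η : Env d lo κ) :
    |It μ q l (i - 1 - j) (G μ q (fun η => Kh l' (It μ q l' j (G μ q (E0 μ q l'))) η -
      Kh l (It μ q l' j (G μ q (E0 μ q l'))) η)) η| ≤
      if j < L then dp * (12 * S ^ 2 * (κ / (κ + μ)) ^ (i - L) + 142 * S ^ 5 * z) +
        dm * (ρ ^ j * M) else dp * (3 * (ρ ^ j * M)) := by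
  have hl' : 0 ≤ l' := hl.trans hll
  have hdp0 : 0 ≤ dp := by
    rw [hdp]
    exact dp_nonneg hl hll
  have hdm0 : 0 ≤ dm := by
    rw [hdm]
    exact dm_nonneg hl hll
  have gf : Good (It μ q l' j (G μ q (E0 μ q l')) : Env d lo κ → ℝ) :=
    Good.It hκ hμ l' j ((Good.E0 hlo hκ hμ l').G hκ hμ)
  have ho : ∀ η η' : Env d lo κ, |It μ q l' j (G μ q (E0 μ q l')) η' -
      It μ q l' j (G μ q (E0 μ q l')) η| ≤ ρ ^ j * M := by
    rw [hM]
    exact osc_E hlo hκ hμ hS hl' hρ0 hρ j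
  split_ifs with hjL
  · have hN := Nn_bound (q := q) hlo hκ hμ hS hl hll hdp hz (i - 1 - j) j η
    set f := (It μ q l' j (G μ q (E0 μ q l')) : Env d lo κ → ℝ) with hf
    have h1 : (fun η => Kh l' f η - Kh l f η) = fun η => Nn l l' f η +
        -(dm) * (acc (minus d) η * (f (sh (vec (minus d)) η) - f η)) := by
      funext ζ
      rw [Kh_diff, ← hdm]
      ring
    have gN : Good (Nn l l' f) := by
      unfold Nn
      refine (Good.const_mul _ ((Good.acc _).mul ((gf.sh _).sub gf))).sub (Good.const_mul _ ?_)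
      simp only [lm_filter]
      exact Good.sum _ fun y _ => (Good.acc y).mul ((gf.sh _).sub gf)
    have gB0 : Good (fun η => acc (minus d) η * (f (sh (vec (minus d)) η) - f η)) :=
      (Good.acc _).mul ((gf.sh _).sub gf)
    have gB : Good (fun η => -(dm) * (acc (minus d) η * (f (sh (vec (minus d)) η) - f η))) :=
      Good.const_mul _ gB0
    have hB : ∀ ζ : Env d lo κ, |(-(dm) * (acc (minus d) ζ * (f (sh (vec (minus d)) ζ) - f ζ)))| ≤
        dm * (ρ ^ j * M) := by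
      intro ζ
      have a0 := acc_nonneg hlo hκ (minus d) ζ
      have a1 := acc_le hκ (minus d) ζ
      rw [abs_mul, abs_neg, abs_of_nonneg hdm0, abs_mul, abs_of_nonneg a0]
      refine mul_le_mul_of_nonneg_left ?_ hdm0
      have h2 := mul_le_mul a1 (ho ζ (sh (vec (minus d)) ζ)) (abs_nonneg _) zero_le_one
      linarith
    rw [h1, G_add hκ hμ gN gB, It_add hκ hμ l (gN.G hκ hμ) (gB.G hκ hμ)]
    beta_reduce
    refine (abs_add_le _ _).trans (add_le_add (hN.trans ?_) ?_)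
    · obtain ⟨hS1, _, _, _, _⟩ := S_facts hκ hμ hS
      obtain ⟨hr0, hr1, _⟩ := r_facts hκ hμ
      have h3 : (κ / (κ + μ)) ^ (i - 1 - j) ≤ (κ / (κ + μ)) ^ (i - L) :=
        pow_le_pow_of_le_one hr0 hr1 (by omega)
      gcongr
    · exact It_abs hlo hκ hμ l (gB.G hκ hμ) (G_abs hκ hμ gB hB) _ η
  · have gD : Good (fun η : Env d lo κ => Kh l' (It μ q l' j (G μ q (E0 μ q l'))) η -
      Kh l (It μ q l' j (G μ q (E0 μ q l'))) η) := (gf.Kh l').sub (gf.Kh l)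
    refine It_abs hlo hκ hμ l (gD.G hκ hμ) (G_abs hκ hμ gD fun ζ => ?_) _ η
    rw [hdp]
    exact Kh_diff_abs hlo hκ hl hll ho ζ

end Pool.Agent.NVB
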