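import Pool.Agent.NVB.Link

/-!
# Second moments
-/

set_option autoImplicit false

namespace Pool.Agent.NVB

open MeasureTheory ProbabilityTheory Filter Topology
open scoped Classical ENNReal

variable {d : ℕ} {lo κ : ℝ} {μ : ℝ} {q : Measure (Set.Icc lo κ)} [IsProbabilityMeasure q]

/-! ### monotonicity of the expected displacements in the function -/

theorem K_add_const (l c : ℝ) (f : Env d lo κ → ℝ) :
    K l (fun η => f η + c) = fun η => K l f η + c := by
  funext η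
  unfold K
  have h : c = ∑ y : Dir d, p l y * c := by rw [← Finset.sum_mul, sum_p, one_mul]
  rw [show (∑ y : Dir d, p l y * (acc y η * (((vec y 0 : ℤ) : ℝ) + f (sh (vec y) η)) +
      (1 - acc y η) * f η)) + c = (∑ y : Dir d, p l y * (acc y η * (((vec y 0 : ℤ) : ℝ) +
      f (sh (vec y) η)) + (1 - acc y η) * f η)) + ∑ y : Dir d, p l y * c by rw [← h],
    ← Finset.sum_add_distrib]
  exact Finset.sum_congr rfl fun y _ => by ring

theorem K_mono (hlo : 0 ≤ lo) (hκ : 0 < κ) (l : ℝ) {f g : Env d lo κ → ℝ} (h : ∀ η, f η ≤ g η)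
    (η : Env d lo κ) : K l f η ≤ K l g η := by
  unfold K
  refine Finset.sum_le_sum fun y _ => mul_le_mul_of_nonneg_left ?_ (p_nonneg l y)
  have hA0 : 0 ≤ acc y η := (div_nonneg hlo hκ.le).trans (le_acc hκ y η)
  have hA1 : acc y η ≤ 1 := acc_le hκ y η
  exact add_le_add (mul_le_mul_of_nonneg_left (by linarith [h (sh (vec y) η)]) hA0)
    (mul_le_mul_of_nonneg_left (h _) (by linarith))

/-- `n + m` attempts and `n` attempts -/
theorem Φ_add_le (hlo : 0 ≤ lo) (hκ : 0 < κ) (hμ : 0 < μ) (l : ℝ) (m : ℕ) {c : ℝ}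
    (hc : ∀ η : Env d lo κ, Φ μ q l m η ≤ c) (n : ℕ) (η : Env d lo κ) :
    Φ μ q l (n + m) η ≤ Φ μ q l n η + c := by
  induction n generalizing η with
  | zero =>
    rw [Nat.zero_add]
    change Φ μ q l m η ≤ 0 + c
    rw [zero_add]
    exact hc η
  | succ n ih =>
    have h0 : n + 1 + m = (n + m) + 1 := by omega
    rw [h0]
    change G μ q (K l (Φ μ q l (n + m))) η ≤ G μ q (K l (Φ μ q l n)) η + c
    have g1 := Good.Φ (d := d) (q := q) hκ hμ l (n + m)
    have g2 := Good.Φ (d := d) (q := q) hκ hμ l n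
    have h1 : ∀ η : Env d lo κ, K l (Φ μ q l (n + m)) η ≤ K l (Φ μ q l n) η + c := by
      intro η
      have := K_mono hlo hκ l ih η
      rwa [K_add_const] at this
    have h2 := G_mono (q := q) hκ hμ (g1.K l) ((g2.K l).add (Good.const c)) h1 η
    rw [G_add hκ hμ (g2.K l) (Good.const c), G_const hκ hμ] at h2
    exact h2

theorem le_Φ_add (hlo : 0 ≤ lo) (hκ : 0 < κ) (hμ : 0 < μ) (l : ℝ) (m : ℕ) {c : ℝ}
    (hc : ∀ η : Env d lo κ, c ≤ Φ μ q l m η) (n : ℕ) (η : Env d lo κ) :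
    Φ μ q l n η + c ≤ Φ μ q l (n + m) η := by
  induction n generalizing η with
  | zero =>
    rw [Nat.zero_add]
    change 0 + c ≤ Φ μ q l m η
    rw [zero_add]
    exact hc η
  | succ n ih =>
    have h0 : n + 1 + m = (n + m) + 1 := by omega
    rw [h0]
    change G μ q (K l (Φ μ q l n)) η + c ≤ G μ q (K l (Φ μ q l (n + m))) η
    have g1 := Good.Φ (d := d) (q := q) hκ hμ l (n + m)
    have g2 := Good.Φ (d := d) (q := q) hκ hμ l n
    have h1 : ∀ η : Env d lo κ, K l (Φ μ q l n) η + c ≤ K l (Φ μ q l (n + m)) η := by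
      intro η
      have := K_mono hlo hκ l ih η
      rwa [K_add_const] at this
    have h2 := G_mono (q := q) hκ hμ ((g2.K l).add (Good.const c)) (g1.K l) h1 η
    rw [G_add hκ hμ (g2.K l) (Good.const c), G_const hκ hμ] at h2
    exact h2

theorem Φ_one_abs (hlo : 0 ≤ lo) (hκ : 0 < κ) (hμ : 0 < μ) (l : ℝ) (η : Env d lo κ) :
    |Φ μ q l 1 η| ≤ 1 := by
  have hb : ∀ η : Env d lo κ, |K l (Φ μ q l 0) η| ≤ 1 := by
    intro η
    unfold K
    refine (Finset.abs_sum_le_sum_abs _ _).trans ?_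
    have h : ∑ y : Dir d, p l y * 1 = 1 := by rw [← Finset.sum_mul, sum_p, one_mul]
    refine le_trans (Finset.sum_le_sum fun y _ => ?_) h.le
    rw [abs_mul, abs_of_nonneg (p_nonneg l y)]
    refine mul_le_mul_of_nonneg_left ?_ (p_nonneg l y)
    have hA0 : 0 ≤ acc y η := (div_nonneg hlo hκ.le).trans (le_acc hκ y η)
    have hA1 : acc y η ≤ 1 := acc_le hκ y η
    have h1 : |((vec y 0 : ℤ) : ℝ)| ≤ 1 := by exact_mod_cast vec_abs_le y
    change |acc y η * (((vec y 0 : ℤ) : ℝ) + 0) + (1 - acc y η) * 0| ≤ 1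
    rw [add_zero, mul_zero, add_zero, abs_mul, abs_of_nonneg hA0]
    exact mul_le_one₀ hA1 (abs_nonneg _) h1
  have hp := gap_prob (d := d) (q := q) hκ hμ
  change |G μ q (K l (Φ μ q l 0)) η| ≤ 1
  unfold G
  have h1 := norm_integral_le_of_norm_le_const (μ := gapLaw d μ q)
    (f := fun z => K l (Φ μ q l 0) (ref z η)) (C := 1) (Eventually.of_forall fun z => hb _)
  simpa using h1

/-- one more attempt -/
theorem Φ_succ_sub (hlo : 0 ≤ lo) (hκ : 0 < κ) (hμ : 0 < μ) (l : ℝ) (n : ℕ) (η : Env d lo κ) :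
    |Φ μ q l (n + 1) η - Φ μ q l n η| ≤ 1 := by
  have h1 := Φ_add_le (q := q) hlo hκ hμ l 1 (c := 1)
    (fun η => (abs_le.1 (Φ_one_abs hlo hκ hμ l η)).2) n η
  have h2 := le_Φ_add (q := q) hlo hκ hμ l 1 (c := -1)
    (fun η => (abs_le.1 (Φ_one_abs hlo hκ hμ l η)).1) n η
  rw [abs_le]
  constructor <;> linarith

/-! ### the second moment -/

/-- the expected position -/
noncomputable def mn (μ : ℝ) (q : Measure (Set.Icc lo κ)) (l : ℝ) (n : ℕ)
    (s : Site d × Env d lo κ) : ℝ := ((s.1 0 : ℤ) : ℝ) + Φ μ q l n (sh s.1 s.2)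

theorem measurable_mn (hκ : 0 < κ) (hμ : 0 < μ) (l : ℝ) (n : ℕ) :
    Measurable (mn μ q l n : Site d × Env d lo κ → ℝ) :=
  measurable_first.add (measurable_sh_joint (Good.Φ hκ hμ l n).meas)

theorem mn_step (hlo : 0 ≤ lo) (hκ : 0 < κ) (hlκ : lo ≤ κ) (hμ : 0 < μ) (h : 5 * (κ - lo) ≤ μ)
    (l : ℝ) (n : ℕ) (s : Site d × Env d lo κ) (i : Gap d lo κ × Att d) :
    (mn μ q l n (stp s i) - mn μ q l (n + 1) s) ^ 2 ≤ 6 := by
  have h1 := jump_abs (ref i.1 s.2) s.1 i.2
  have h2 : (stp s i).1 = jump (ref i.1 s.2) s.1 i.2 := rfl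
  have h3 := osc_Φ (q := q) hlo hκ hlκ hμ h l n (sh s.1 s.2) (sh (stp s i).1 (stp s i).2)
  have h4 := Φ_succ_sub (q := q) hlo hκ hμ l n (sh s.1 s.2)
  unfold mn
  rw [h2] at h3 ⊢
  rw [abs_le] at h1 h3 h4
  set A := (((jump (ref i.1 s.2) s.1 i.2 0 : ℤ) : ℝ))
  set B := ((s.1 0 : ℤ) : ℝ)
  set C := Φ μ q l n (sh (jump (ref i.1 s.2) s.1 i.2) (stp s i).2)
  set E := Φ μ q l n (sh s.1 s.2)
  set F := Φ μ q l (n + 1) (sh s.1 s.2)
  have h5 : |A + C - (B + F)| ≤ 7 / 3 := by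
    rw [abs_le]
    constructor <;> linarith [h1.1, h1.2, h3.1, h3.2, h4.1, h4.2]
  have h6 : (A + C - (B + F)) ^ 2 ≤ (7 / 3) ^ 2 := by
    rw [← sq_abs]
    exact pow_le_pow_left₀ (abs_nonneg _) h5 2
  linarith

/-- the second moment of the position around `a` -/
noncomputable def sq (μ : ℝ) (q : Measure (Set.Icc lo κ)) (l : ℝ) (n : ℕ)
    (s : Site d × Env d lo κ) (a : ℝ) : ℝ :=
  ∫ i, ((((run s i n).1 0 : ℤ) : ℝ) - a) ^ 2 ∂seqLaw d μ q l

theorem first_meas (s : Site d × Env d lo κ) (n : ℕ) :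
    Measurable fun i : ℕ → Gap d lo κ × Att d => (((run s i n).1 0 : ℤ) : ℝ) :=
  measurable_first.comp ((measurable_run n).comp (measurable_const.prodMk measurable_id))

theorem first_int [Fact (0 < κ)] [Fact (0 < μ)] (l : ℝ) (s : Site d × Env d lo κ) (n : ℕ) :
    Integrable (fun i : ℕ → Gap d lo κ × Att d => (((run s i n).1 0 : ℤ) : ℝ))
      (seqLaw d μ q l) :=
  Integrable.of_bound (first_meas s n).aestronglyMeasurable _
    (Eventually.of_forall fun i => run_bdd s i n)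

theorem first_sq_int [Fact (0 < κ)] [Fact (0 < μ)] (l : ℝ) (s : Site d × Env d lo κ) (n : ℕ)
    (a : ℝ) : Integrable (fun i : ℕ → Gap d lo κ × Att d =>
      ((((run s i n).1 0 : ℤ) : ℝ) - a) ^ 2) (seqLaw d μ q l) := by
  refine Integrable.of_bound (((first_meas s n).sub_const a).pow_const 2).aestronglyMeasurable
    ((|((s.1 0 : ℤ) : ℝ)| + n + |a|) ^ 2) (Eventually.of_forall fun i => ?_)
  rw [Real.norm_eq_abs, abs_pow]
  refine pow_le_pow_left₀ (abs_nonneg _) ?_ 2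
  have h1 := run_bdd s i n
  exact (abs_sub _ _).trans (add_le_add h1 le_rfl)

theorem sq_shift (hlo : 0 ≤ lo) [hκ : Fact (0 < κ)] [hμ : Fact (0 < μ)] (l : ℝ) (n : ℕ)
    (s : Site d × Env d lo κ) (a : ℝ) :
    sq μ q l n s a = sq μ q l n s (mn μ q l n s) + (mn μ q l n s - a) ^ 2 := by
  have h1 := run_mean (q := q) (μ := μ) hlo l n s
  have hi := first_int (μ := μ) (q := q) l s n
  have hs := first_sq_int (μ := μ) (q := q) l s n (mn μ q l n s)
  unfold sq
  have h2 : ∀ i : ℕ → Gap d lo κ × Att d, ((((run s i n).1 0 : ℤ) : ℝ) - a) ^ 2 =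
      ((((run s i n).1 0 : ℤ) : ℝ) - mn μ q l n s) ^ 2 +
      (2 * (mn μ q l n s - a) * (((run s i n).1 0 : ℤ) : ℝ) +
        ((mn μ q l n s - a) ^ 2 - 2 * (mn μ q l n s - a) * mn μ q l n s)) := by
    intro i
    ring
  set m := mn μ q l n s with hm
  have h3 : ∫ i : ℕ → Gap d lo κ × Att d, (2 * (m - a) * (((run s i n).1 0 : ℤ) : ℝ) +
      ((m - a) ^ 2 - 2 * (m - a) * m)) ∂seqLaw d μ q l = (m - a) ^ 2 := by
    rw [integral_add (hi.const_mul _) (integrable_const _), integral_const_mul, h1]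
    simp only [integral_const, probReal_univ, one_smul]
    rw [← show m = ((s.1 0 : ℤ) : ℝ) + Φ μ q l n (sh s.1 s.2) from rfl]
    ring
  rw [integral_congr_ae (Eventually.of_forall h2)]
  refine (integral_add hs ((hi.const_mul _).add (integrable_const _))).trans ?_
  congr 1

theorem sq_bound (hlo : 0 ≤ lo) [hκ : Fact (0 < κ)] (hlκ : lo ≤ κ) [hμ : Fact (0 < μ)]
    (h : 5 * (κ - lo) ≤ μ) (l : ℝ) (n : ℕ) (s : Site d × Env d lo κ) :
    sq μ q l n s (mn μ q l n s) ≤ 6 * n := by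
  induction n generalizing s with
  | zero =>
    unfold sq mn run Φ
    simp
  | succ n ih =>
    set a := mn μ q l (n + 1) s with ha
    have hm1 : Measurable fun i : ℕ → Gap d lo κ × Att d =>
        ((((run s i (n + 1)).1 0 : ℤ) : ℝ) - a) ^ 2 :=
      ((first_meas s (n + 1)).sub_const a).pow_const 2
    have hm0 : Measurable fun t : (Gap d lo κ × Att d) × (ℕ → Gap d lo κ × Att d) =>
        (cns t.1 t.2 : ℕ → Gap d lo κ × Att d) := measurable_cns
    have h0 : ((inpLaw d μ q l).prod (seqLaw d μ q l)).map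
        (fun t : (Gap d lo κ × Att d) × (ℕ → Gap d lo κ × Att d) =>
          (cns t.1 t.2 : ℕ → Gap d lo κ × Att d)) = seqLaw d μ q l := seq_split _
    have h1 : sq μ q l (n + 1) s a = ∫ t : (Gap d lo κ × Att d) × (ℕ → Gap d lo κ × Att d),
        ((((run (stp s t.1) t.2 n).1 0 : ℤ) : ℝ) - a) ^ 2
        ∂(inpLaw d μ q l).prod (seqLaw d μ q l) := by
      unfold sq
      rw [← h0, integral_map hm0.aemeasurable hm1.aestronglyMeasurable, h0]
      refine integral_congr_ae (Eventually.of_forall fun t => ?_)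
      beta_reduce
      rw [run_succ]
      rfl
    have hm2 : Measurable fun t : (Gap d lo κ × Att d) × (ℕ → Gap d lo κ × Att d) =>
        ((((run (stp s t.1) t.2 n).1 0 : ℤ) : ℝ) - a) ^ 2 := by
      have g : Measurable fun t : (Gap d lo κ × Att d) × (ℕ → Gap d lo κ × Att d) =>
          (((run (stp s t.1) t.2 n).1 0 : ℤ) : ℝ) :=
        measurable_first.comp ((measurable_run n).comp
          ((measurable_stp.comp (measurable_const.prodMk measurable_fst)).prodMk measurable_snd))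
      exact (g.sub_const a).pow_const 2
    have hb : ∀ t : (Gap d lo κ × Att d) × (ℕ → Gap d lo κ × Att d),
        |((((run (stp s t.1) t.2 n).1 0 : ℤ) : ℝ) - a) ^ 2| ≤
          (|((s.1 0 : ℤ) : ℝ)| + 1 + n + |a|) ^ 2 := by
      intro t
      have g1 := run_bdd (stp s t.1) t.2 n
      have g2 := jump_abs (ref t.1.1 s.2) s.1 t.1.2
      have g3 := abs_sub_abs_le_abs_sub (((jump (ref t.1.1 s.2) s.1 t.1.2 0 : ℤ) : ℝ))
        ((s.1 0 : ℤ) : ℝ)
      have g4 : (stp s t.1).1 = jump (ref t.1.1 s.2) s.1 t.1.2 := rfl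
      rw [g4] at g1
      rw [abs_pow]
      refine pow_le_pow_left₀ (abs_nonneg _) ?_ 2
      exact (abs_sub _ _).trans (add_le_add (by linarith) le_rfl)
    have hI : Integrable (fun t : (Gap d lo κ × Att d) × (ℕ → Gap d lo κ × Att d) =>
        ((((run (stp s t.1) t.2 n).1 0 : ℤ) : ℝ) - a) ^ 2)
        ((inpLaw d μ q l).prod (seqLaw d μ q l)) :=
      Integrable.of_bound hm2.aestronglyMeasurable _ (Eventually.of_forall hb)
    rw [h1, integral_prod _ hI]
    have h2 : ∀ i : Gap d lo κ × Att d,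
        ∫ j, ((((run (stp s i) j n).1 0 : ℤ) : ℝ) - a) ^ 2 ∂seqLaw d μ q l ≤ 6 * n + 6 := by
      intro i
      have g1 := sq_shift (q := q) (μ := μ) hlo l n (stp s i) a
      have g2 := ih (stp s i)
      have g3 := mn_step (q := q) hlo hκ.out hlκ hμ.out h l n s i
      unfold sq at g1 g2
      rw [g1]
      linarith
    calc ∫ i, ∫ j, ((((run (stp s i) j n).1 0 : ℤ) : ℝ) - a) ^ 2 ∂seqLaw d μ q l ∂inpLaw d μ q l
        ≤ ∫ _i, (6 * (n : ℝ) + 6) ∂inpLaw d μ q l :=
          integral_mono hI.integral_prod_left (integrable_const _) h2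
      _ = 6 * ((n + 1 : ℕ) : ℝ) := by
          simp
          ring

end Pool.Agent.NVB
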