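import Pool.Agent.NVB.Comp

/-!
# The expected displacement after `n` attempts
-/

set_option autoImplicit false

namespace Pool.Agent.NVB

open MeasureTheory ProbabilityTheory Filter Topology
open scoped Classical ENNReal

variable {d : ℕ} {lo κ : ℝ} {μ : ℝ} {q : Measure (Set.Icc lo κ)} [IsProbabilityMeasure q]

instance : DiscreteMeasurableSpace (Site d) := inferInstance

instance dirLaw_prob (l : ℝ) : IsProbabilityMeasure (dirLaw d l) := by
  constructor
  unfold dirLaw
  rw [Measure.finsetSum_apply]
  simp only [Measure.smul_apply, measure_univ, smul_eq_mul, mul_one]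
  rw [← ENNReal.ofReal_sum_of_nonneg fun y _ => p_nonneg l y, sum_p, ENNReal.ofReal_one]

instance unif_prob : IsProbabilityMeasure ((volume : Measure ℝ).restrict (Set.Icc (0 : ℝ) 1)) := by
  constructor
  simp

instance attLaw_prob (l : ℝ) : IsProbabilityMeasure (attLaw d l) := by
  unfold attLaw
  infer_instance

/-- an integral over a direction -/
theorem integral_dir (l : ℝ) (F : Dir d → ℝ) : ∫ y, F y ∂dirLaw d l = ∑ y, p l y * F y := by
  unfold dirLaw
  rw [integral_finsetSum_measure]
  · refine Finset.sum_congr rfl fun y _ => ?_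
    rw [integral_smul_measure, integral_dirac, ENNReal.toReal_ofReal (p_nonneg l y), smul_eq_mul]
  · intro y _
    refine Integrable.smul_measure ?_ ENNReal.ofReal_ne_top
    exact integrable_dirac (by simp)

/-- an integral over a uniform number -/
theorem integral_unif {v : ℝ} (hκ : 0 < κ) (h0 : 0 ≤ v) (h1 : v ≤ κ) (A B : ℝ) :
    ∫ u, (if κ * u < v then A else B) ∂((volume : Measure ℝ).restrict (Set.Icc (0 : ℝ) 1)) =
      v / κ * A + (1 - v / κ) * B := by
  have h2 : ∀ u : ℝ, (if κ * u < v then A else B) = B + (Set.Iio (v / κ)).indicator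
      (fun _ => A - B) u := by
    intro u
    by_cases h : κ * u < v
    · rw [if_pos h, Set.indicator_of_mem]
      · ring
      · rw [Set.mem_Iio, lt_div_iff₀ hκ, mul_comm]
        exact h
    · rw [if_neg h, Set.indicator_of_notMem]
      · ring
      · rw [Set.mem_Iio, lt_div_iff₀ hκ, mul_comm]
        exact h
  have h3 : ((volume : Measure ℝ).restrict (Set.Icc (0 : ℝ) 1)).real (Set.Iio (v / κ)) =
      v / κ := by
    rw [measureReal_def, Measure.restrict_apply measurableSet_Iio]
    have h4 : Set.Iio (v / κ) ∩ Set.Icc 0 1 = Set.Ico 0 (v / κ) := by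
      ext u
      simp only [Set.mem_inter_iff, Set.mem_Iio, Set.mem_Icc, Set.mem_Ico]
      have h5 : v / κ ≤ 1 := by
        rw [div_le_one hκ]
        exact h1
      constructor
      · rintro ⟨a, b, _⟩
        exact ⟨b, a⟩
      · rintro ⟨a, b⟩
        exact ⟨b, a, by linarith⟩
    rw [h4, Real.volume_Ico, sub_zero, ENNReal.toReal_ofReal (div_nonneg h0 hκ.le)]
  rw [integral_congr_ae (Eventually.of_forall h2)]
  have hP : IsProbabilityMeasure ((volume : Measure ℝ).restrict (Set.Icc (0 : ℝ) 1)) := unif_prob
  generalize (volume : Measure ℝ).restrict (Set.Icc (0 : ℝ) 1) = P at h3 hP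
  rw [integral_add (integrable_const _)
    ((integrable_const _).indicator measurableSet_Iio), integral_indicator measurableSet_Iio,
    setIntegral_const, h3]
  simp
  ring

/-- the expectation over an attempt -/
theorem integral_att (hlo : 0 ≤ lo) (hκ : 0 < κ) (l : ℝ) (η : Env d lo κ) (x : Site d)
    (F : Site d → ℝ) :
    ∫ a, F (jump η x a) ∂attLaw d l = ∑ y : Dir d, p l y * ((η (edge x y) : ℝ) / κ * F (x + vec y) +
      (1 - (η (edge x y) : ℝ) / κ) * F x) := by
  have hm : Measurable fun a : Att d => F (jump η x a) := by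
    refine measurable_from_prod_countable_right fun y => ?_
    change Measurable fun u : ℝ => F (if κ * u < (η (edge x y) : ℝ) then x + vec y else x)
    exact (measurable_of_countable F).comp
      (Measurable.ite (measurableSet_lt (by fun_prop) measurable_const) measurable_const
        measurable_const)
  obtain ⟨C, hC⟩ : ∃ C, ∀ a : Att d, |F (jump η x a)| ≤ C := by
    refine ⟨|F x| + ∑ y : Dir d, |F (x + vec y)|, fun a => ?_⟩
    have h1 : |F (x + vec a.1)| ≤ ∑ y : Dir d, |F (x + vec y)| :=
      Finset.single_le_sum (f := fun y : Dir d => |F (x + vec y)|) (fun _ _ => abs_nonneg _)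
        (Finset.mem_univ a.1)
    have h2 := abs_nonneg (F x)
    have h3 := abs_nonneg (F (x + vec a.1))
    unfold jump
    split_ifs <;> linarith
  unfold attLaw
  rw [integral_prod _ (Integrable.of_bound hm.aestronglyMeasurable C (Eventually.of_forall hC)),
    integral_dir]
  refine Finset.sum_congr rfl fun y _ => ?_
  congr 1
  have h1 : ∀ u : ℝ, F (jump η x (y, u)) =
      if κ * u < (η (edge x y) : ℝ) then F (x + vec y) else F x := by
    intro u
    unfold jump
    exact apply_ite F _ _ _
  rw [integral_congr_ae (Eventually.of_forall h1)]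
  exact integral_unif hκ (hlo.trans (η (edge x y)).2.1) (η (edge x y)).2.2 _ _

/-- translation invariance of the gaps -/
theorem gap_shift (hκ : 0 < κ) (hμ : 0 < μ) (x : Site d) :
    MeasurePreserving (fun z : Gap d lo κ => ((z.1, fun e => z.2 (e.1 + x, e.2)) : Gap d lo κ))
      (gapLaw d μ q) (gapLaw d μ q) := by
  have := isProbabilityMeasure_expMeasure hμ
  have := isProbabilityMeasure_expMeasure hκ
  have h1 : MeasurePreserving (fun c : Edge d → ℝ × Set.Icc lo κ => fun e => c (e.1 + x, e.2))
      (Measure.infinitePi fun _ : Edge d => (expMeasure μ).prod q)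
      (Measure.infinitePi fun _ : Edge d => (expMeasure μ).prod q) := by
    refine ⟨measurable_pi_lambda _ fun e => measurable_pi_apply _, ?_⟩
    have h2 := Measure.infinitePi_map_piCongrLeft (fun _ : Edge d => (expMeasure μ).prod q)
      ((Equiv.subRight x).prodCongr (Equiv.refl (Fin (d + 1))))
    have h4 : (fun c : Edge d → ℝ × Set.Icc lo κ => fun e : Edge d => c (e.1 + x, e.2)) =
        (MeasurableEquiv.piCongrLeft (fun _ : Edge d => ℝ × Set.Icc lo κ)
          ((Equiv.subRight x).prodCongr (Equiv.refl (Fin (d + 1))))) := by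
      funext c e
      rw [MeasurableEquiv.coe_piCongrLeft]
      have h3 := Equiv.piCongrLeft_apply_apply (fun _ : Edge d => ℝ × Set.Icc lo κ)
        ((Equiv.subRight x).prodCongr (Equiv.refl (Fin (d + 1)))) c (e.1 + x, e.2)
      simpa using h3.symm
    rw [h4]
    exact h2
  exact (MeasurePreserving.id (expMeasure κ)).prod h1

theorem sh_ref (x : Site d) (z : Gap d lo κ) (η : Env d lo κ) :
    sh x (ref z η) = ref (z.1, fun e => z.2 (e.1 + x, e.2)) (sh x η) := rfl

theorem G_shift (hκ : 0 < κ) (hμ : 0 < μ) (x : Site d) {f : Env d lo κ → ℝ} (hf : Good f)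
    (η : Env d lo κ) : ∫ z, f (sh x (ref z η)) ∂gapLaw d μ q = G μ q f (sh x η) := by
  have h0 := gap_shift (q := q) hκ hμ x
  have h1 : G μ q f (sh x η) = ∫ z, f (ref z (sh x η)) ∂((gapLaw d μ q).map
      fun z : Gap d lo κ => ((z.1, fun e => z.2 (e.1 + x, e.2)) : Gap d lo κ)) := by
    rw [h0.map_eq]
    rfl
  have hm : Measurable fun z : Gap d lo κ => f (ref z (sh x η)) :=
    hf.meas.comp (measurable_ref_left _)
  rw [h1, integral_map h0.measurable.aemeasurable hm.aestronglyMeasurable]
  rfl

/-! ### one step -/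

/-- a gap and an attempt -/
noncomputable def stp (s : Site d × Env d lo κ) (i : Gap d lo κ × Att d) : Site d × Env d lo κ :=
  (jump (ref i.1 s.2) s.1 i.2, ref i.1 s.2)

/-- the law of a gap and an attempt -/
noncomputable abbrev inpLaw (d : ℕ) (μ : ℝ) (q : Measure (Set.Icc lo κ)) (l : ℝ) :
    Measure (Gap d lo κ × Att d) :=
  (gapLaw d μ q).prod (attLaw d l)

theorem measurable_stp :
    Measurable fun t : (Site d × Env d lo κ) × (Gap d lo κ × Att d) => stp t.1 t.2 := by
  have h1 : Measurable fun t : (Site d × Env d lo κ) × (Gap d lo κ × Att d) =>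
      ref t.2.1 t.1.2 :=
    measurable_ref.comp ((measurable_fst.comp measurable_snd).prodMk
      (measurable_snd.comp measurable_fst))
  have h2 : Measurable fun t : Edge d × Env d lo κ => (t.2 t.1 : ℝ) :=
    measurable_from_prod_countable_right fun e => by
      change Measurable fun η : Env d lo κ => (η e : ℝ)
      fun_prop
  have h3 : Measurable fun t : Site d × Dir d => edge t.1 t.2 := measurable_of_countable _
  have h4 : Measurable fun t : Site d × Dir d => t.1 + vec t.2 := measurable_of_countable _
  have h5 : Measurable fun t : (Site d × Env d lo κ) × (Gap d lo κ × Att d) =>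
      (t.1.1, t.2.2.1) :=
    (measurable_fst.comp measurable_fst).prodMk
      (measurable_fst.comp (measurable_snd.comp measurable_snd))
  have h6 : Measurable fun t : (Site d × Env d lo κ) × (Gap d lo κ × Att d) =>
      ((ref t.2.1 t.1.2 (edge t.1.1 t.2.2.1) : Set.Icc lo κ) : ℝ) :=
    h2.comp ((h3.comp h5).prodMk h1)
  refine Measurable.prodMk ?_ h1
  refine Measurable.ite (measurableSet_lt ?_ h6) (h4.comp h5) (measurable_fst.comp measurable_fst)
  exact (measurable_snd.comp (measurable_snd.comp measurable_snd)).const_mul κ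

/-- the state after `n` steps -/
noncomputable def run (s : Site d × Env d lo κ) (i : ℕ → Gap d lo κ × Att d) :
    ℕ → Site d × Env d lo κ
  | 0 => s
  | n + 1 => stp (run s i n) (i n)

theorem run_succ (s : Site d × Env d lo κ) (i : ℕ → Gap d lo κ × Att d) (n : ℕ) :
    run s i (n + 1) = run (stp s (i 0)) (fun k => i (k + 1)) n := by
  induction n with
  | zero => rfl
  | succ n ih =>
    have h1 : run s i (n + 1 + 1) = stp (run s i (n + 1)) (i (n + 1)) := rfl
    rw [h1, ih]
    rfl

theorem measurable_run (n : ℕ) :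
    Measurable fun t : (Site d × Env d lo κ) × (ℕ → Gap d lo κ × Att d) => run t.1 t.2 n := by
  induction n with
  | zero => exact measurable_fst
  | succ n ih =>
    exact measurable_stp.comp (ih.prodMk ((measurable_pi_apply n).comp measurable_snd))

theorem jump_abs (η : Env d lo κ) (x : Site d) (a : Att d) :
    |((jump η x a 0 : ℤ) : ℝ) - ((x 0 : ℤ) : ℝ)| ≤ 1 := by
  unfold jump
  split_ifs
  · have h1 : ((x + vec a.1) 0 : ℤ) = x 0 + vec a.1 0 := rfl
    rw [h1]
    push_cast
    rw [add_sub_cancel_left]
    exact_mod_cast vec_abs_le a.1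
  · simp

theorem run_abs (s : Site d × Env d lo κ) (i : ℕ → Gap d lo κ × Att d) (n : ℕ) :
    |(((run s i n).1 0 : ℤ) : ℝ) - ((s.1 0 : ℤ) : ℝ)| ≤ n := by
  induction n with
  | zero => simp [run]
  | succ n ih =>
    have h1 := jump_abs (ref (i n).1 (run s i n).2) (run s i n).1 (i n).2
    have h2 : (run s i (n + 1)).1 = jump (ref (i n).1 (run s i n).2) (run s i n).1 (i n).2 := rfl
    rw [h2]
    push_cast
    have h3 := abs_sub_le
      (((jump (ref (i n).1 (run s i n).2) (run s i n).1 (i n).2) 0 : ℤ) : ℝ)
      (((run s i n).1 0 : ℤ) : ℝ) ((s.1 0 : ℤ) : ℝ)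
    linarith

/-- the first element and the rest of an i.i.d. sequence -/
theorem seq_split {α : Type} [MeasurableSpace α] (ν : Measure α) [IsProbabilityMeasure ν] :
    (ν.prod (Measure.infinitePi fun _ : ℕ => ν)).map
      (fun t : α × (ℕ → α) => fun n : ℕ => Nat.casesOn n t.1 t.2) =
      Measure.infinitePi fun _ : ℕ => ν := by
  apply Measure.eq_infinitePi
  intro s t ht
  have hm : Measurable fun u : α × (ℕ → α) => (fun n : ℕ => Nat.casesOn n u.1 u.2 : ℕ → α) := by
    refine measurable_pi_lambda _ fun n => ?_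
    cases n with
    | zero => exact measurable_fst
    | succ n => exact (measurable_pi_apply n).comp measurable_snd
  rw [Measure.map_apply hm (MeasurableSet.pi s.countable_toSet fun i _ => ht i)]
  have h1 : (fun u : α × (ℕ → α) => (fun n : ℕ => Nat.casesOn n u.1 u.2 : ℕ → α)) ⁻¹'
      (Set.pi s t) = (if 0 ∈ s then t 0 else Set.univ) ×ˢ
        (Set.pi (s.preimage Nat.succ Nat.succ_injective.injOn : Finset ℕ) fun n => t (n + 1)) := by
    ext ⟨a, b⟩
    simp only [Set.mem_preimage, Set.mem_pi, Finset.mem_coe, Set.mem_prod, Finset.mem_preimage,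
      Nat.succ_eq_add_one]
    constructor
    · intro h
      refine ⟨?_, fun n hn => h (n + 1) hn⟩
      split_ifs with h0
      · exact h 0 h0
      · exact Set.mem_univ _
    · rintro ⟨h2, h3⟩ n hn
      cases n with
      | zero =>
        rw [if_pos hn] at h2
        exact h2
      | succ n => exact h3 n hn
  rw [h1, Measure.prod_prod, Measure.infinitePi_pi _ fun i _ => ht (i + 1)]
  have h2 : ∏ i ∈ s.preimage Nat.succ Nat.succ_injective.injOn, ν (t (i + 1)) =
      ∏ i ∈ s.filter (fun i => i ≠ 0), ν (t i) := by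
    refine Finset.prod_nbij Nat.succ ?_ ?_ ?_ ?_
    · intro n hn
      rw [Finset.mem_preimage] at hn
      rw [Finset.mem_filter]
      exact ⟨hn, Nat.succ_ne_zero n⟩
    · exact Nat.succ_injective.injOn
    · intro n hn
      rw [Finset.mem_coe, Finset.mem_filter] at hn
      obtain ⟨m, rfl⟩ := Nat.exists_eq_succ_of_ne_zero hn.2
      refine ⟨m, ?_, rfl⟩
      rw [Finset.mem_coe, Finset.mem_preimage]
      exact hn.1
    · intro n _
      rfl
  rw [h2]
  by_cases h0 : 0 ∈ s
  · rw [if_pos h0, ← Finset.mul_prod_erase s _ h0]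
    congr 2
    ext n
    simp [Finset.mem_erase, and_comm]
  · rw [if_neg h0, measure_univ, one_mul]
    congr 1
    rw [Finset.filter_eq_self]
    rintro n hn rfl
    exact h0 hn

end Pool.Agent.NVB
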