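import Pool.Agent.NVB.Gen

/-!
# Product measures: choosing and resampling coordinates
-/

set_option autoImplicit false

namespace Pool.Agent.NVB

open MeasureTheory ProbabilityTheory Filter Topology
open scoped Classical ENNReal

variable {d : ℕ} {lo κ : ℝ} {μ : ℝ} {q : Measure (Set.Icc lo κ)} [IsProbabilityMeasure q]

/-- the coordinates of `K` are taken from `v`, the others from `η` -/
noncomputable def sel (K : Set (Edge d)) (v η : Env d lo κ) : Env d lo κ :=
  fun e => if e ∈ K then v e else η e

theorem measurable_sel (K : Set (Edge d)) :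
    Measurable fun t : Env d lo κ × Env d lo κ => sel K t.1 t.2 := by
  refine measurable_pi_lambda _ fun e => ?_
  unfold sel
  by_cases h : e ∈ K
  · simp only [if_pos h]
    exact (measurable_pi_apply e).comp measurable_fst
  · simp only [if_neg h]
    exact (measurable_pi_apply e).comp measurable_snd

theorem sel_law (K : Set (Edge d)) :
    MeasurePreserving (fun t : Env d lo κ × Env d lo κ => sel K t.1 t.2)
      ((envLaw d q).prod (envLaw d q)) (envLaw d q) := by
  refine ⟨measurable_sel K, ?_⟩
  have m2 : Measurable fun t : Env d lo κ × Env d lo κ => fun e => (t.1 e, t.2 e) :=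
    measurable_pi_lambda _ fun i => ((measurable_pi_apply i).comp measurable_fst).prodMk
      ((measurable_pi_apply i).comp measurable_snd)
  have m1 : ∀ e : Edge d, Measurable fun c : Set.Icc lo κ × Set.Icc lo κ =>
      if e ∈ K then c.1 else c.2 := by
    intro e
    by_cases h : e ∈ K
    · simp only [if_pos h]
      exact measurable_fst
    · simp only [if_neg h]
      exact measurable_snd
  have m3 : Measurable fun W : Edge d → Set.Icc lo κ × Set.Icc lo κ =>
      (fun e => if e ∈ K then (W e).1 else (W e).2 : Env d lo κ) :=
    measurable_pi_lambda _ fun e => (m1 e).comp (measurable_pi_apply e)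
  have h1 := pair_law (fun _ : Edge d => q) (fun _ : Edge d => q)
  have h2 := Measure.infinitePi_map_pi (fun _ : Edge d => q.prod q)
    (f := fun e c => if e ∈ K then c.1 else c.2) m1
  have h3 : ∀ e : Edge d, (q.prod q).map (fun c : Set.Icc lo κ × Set.Icc lo κ =>
      if e ∈ K then c.1 else c.2) = q := by
    intro e
    by_cases h : e ∈ K
    · simp only [if_pos h]
      exact measurePreserving_fst.map_eq
    · simp only [if_neg h]
      exact measurePreserving_snd.map_eq
  have h4 : (Measure.infinitePi fun e : Edge d => (q.prod q).map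
      (fun c : Set.Icc lo κ × Set.Icc lo κ => if e ∈ K then c.1 else c.2)) = envLaw d q := by
    congr 1
    funext e
    exact h3 e
  rw [← h1, Measure.map_map m3 m2] at h2
  exact h2.trans h4

/-- bounded measurable functions -/
structure Bdm (F : Env d lo κ → ℝ) : Prop where
  meas : Measurable F
  bdd : ∃ C : ℝ, ∀ η, |F η| ≤ C

theorem Bdm.integrable {F : Env d lo κ → ℝ} (hF : Bdm F) : Integrable F (envLaw d q) := by
  obtain ⟨C, hC⟩ := hF.bdd
  exact Integrable.of_bound hF.meas.aestronglyMeasurable C (Eventually.of_forall hC)

theorem measurable_upd (e : Edge d) :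
    Measurable fun t : Set.Icc lo κ × Env d lo κ => Function.update t.2 e t.1 := by
  refine measurable_pi_lambda _ fun e' => ?_
  by_cases h : e' = e
  · subst h
    simp only [Function.update_self]
    exact measurable_fst
  · simp only [Function.update_of_ne h]
    exact (measurable_pi_apply e').comp measurable_snd

/-- resampling one coordinate -/
theorem resample {F : Env d lo κ → ℝ} (hF : Bdm F) (e : Edge d) :
    ∫ η, F η ∂envLaw d q = ∫ z, ∫ η, F (Function.update η e z) ∂envLaw d q ∂q := by
  obtain ⟨C, hC⟩ := hF.bdd
  have h0 := sel_law (d := d) (q := q) {e}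
  have h1 : ∫ η, F η ∂envLaw d q = ∫ t : Env d lo κ × Env d lo κ, F (sel {e} t.1 t.2)
      ∂(envLaw d q).prod (envLaw d q) := by
    rw [← integral_map h0.measurable.aemeasurable hF.meas.aestronglyMeasurable, h0.map_eq]
  have h2 : Integrable (fun t : Env d lo κ × Env d lo κ => F (sel {e} t.1 t.2))
      ((envLaw d q).prod (envLaw d q)) :=
    Integrable.of_bound (hF.meas.comp h0.measurable).aestronglyMeasurable C
      (Eventually.of_forall fun t => hC _)
  rw [h1, integral_prod _ h2]
  have h3 : ∀ v η : Env d lo κ, sel {e} v η = Function.update η e (v e) := by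
    intro v η
    funext e'
    unfold sel
    by_cases h : e' = e
    · subst h
      simp
    · rw [Function.update_of_ne h, if_neg (by simpa using h)]
  simp only [h3]
  have h4 : Measurable fun z : Set.Icc lo κ => ∫ η, F (Function.update η e z) ∂envLaw d q := by
    have h5 : StronglyMeasurable (Function.uncurry fun (z : Set.Icc lo κ) (η : Env d lo κ) =>
        F (Function.update η e z)) := by
      apply Measurable.stronglyMeasurable
      exact hF.meas.comp (measurable_upd e)
    exact h5.integral_prod_right.measurable
  have h6 : MeasurePreserving (fun v : Env d lo κ => v e) (envLaw d q) q :=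
    measurePreserving_eval_infinitePi (fun _ : Edge d => q) e
  have h7 : ∫ v : Env d lo κ, (∫ η, F (Function.update η e (v e)) ∂envLaw d q) ∂envLaw d q =
      ∫ z, ∫ η, F (Function.update η e z) ∂envLaw d q ∂((envLaw d q).map fun v => v e) := by
    rw [integral_map h6.measurable.aemeasurable h4.aestronglyMeasurable]
  rw [h7, h6.map_eq]

/-- translation invariance -/
theorem env_shift (x : Site d) : MeasurePreserving (sh x) (envLaw d q) (envLaw d q) := by
  refine ⟨measurable_sh x, ?_⟩
  have h2 := Measure.infinitePi_map_piCongrLeft (fun _ : Edge d => q)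
    ((Equiv.subRight x).prodCongr (Equiv.refl (Fin (d + 1))))
  have h4 : (sh x : Env d lo κ → Env d lo κ) =
      (MeasurableEquiv.piCongrLeft (fun _ : Edge d => Set.Icc lo κ)
        ((Equiv.subRight x).prodCongr (Equiv.refl (Fin (d + 1))))) := by
    funext c e
    rw [MeasurableEquiv.coe_piCongrLeft]
    have h3 := Equiv.piCongrLeft_apply_apply (fun _ : Edge d => Set.Icc lo κ)
      ((Equiv.subRight x).prodCongr (Equiv.refl (Fin (d + 1)))) c (e.1 + x, e.2)
    simpa [sh] using h3.symm
  rw [h4]
  exact h2

theorem int_shift {F : Env d lo κ → ℝ} (hF : Measurable F) (x : Site d) :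
    ∫ η, F (sh x η) ∂envLaw d q = ∫ η, F η ∂envLaw d q := by
  have h := env_shift (q := q) x
  rw [← integral_map h.measurable.aemeasurable hF.aestronglyMeasurable, h.map_eq]

/-! ### centred conductances -/

/-- the centred conductance, relative to `κ` -/
noncomputable def wt (q : Measure (Set.Icc lo κ)) (x : Set.Icc lo κ) : ℝ :=
  ((x : ℝ) - mean q) / κ

omit [IsProbabilityMeasure q] in
theorem measurable_wt : Measurable (wt q) := by
  unfold wt
  fun_prop

omit [IsProbabilityMeasure q] in
theorem measurable_abs_wt : Measurable fun z => |wt q z| := (measurable_wt (q := q)).norm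

omit [IsProbabilityMeasure q] in
theorem wt_bdd : ∃ C : ℝ, 0 ≤ C ∧ ∀ x, |wt q x| ≤ C := by
  refine ⟨(max |lo| |κ| + |mean q|) / |κ|, by positivity, fun x => ?_⟩
  unfold wt
  rw [abs_div]
  apply div_le_div_of_nonneg_right _ (abs_nonneg _)
  refine (abs_sub _ _).trans (add_le_add ?_ le_rfl)
  exact abs_le_max_abs_abs x.2.1 x.2.2

/-- the first absolute moment -/
noncomputable def s1 (q : Measure (Set.Icc lo κ)) : ℝ := ∫ z, |wt q z| ∂q

/-- the second moment -/
noncomputable def s2 (q : Measure (Set.Icc lo κ)) : ℝ := ∫ z, |wt q z| ^ 2 ∂q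

/-- the third absolute moment -/
noncomputable def s3 (q : Measure (Set.Icc lo κ)) : ℝ := ∫ z, |wt q z| ^ 3 ∂q

omit [IsProbabilityMeasure q] in
theorem s1_nonneg : 0 ≤ s1 q := integral_nonneg fun _ => abs_nonneg _

omit [IsProbabilityMeasure q] in
theorem s2_nonneg : 0 ≤ s2 q := integral_nonneg fun _ => by positivity

omit [IsProbabilityMeasure q] in
theorem s3_nonneg : 0 ≤ s3 q := integral_nonneg fun _ => by positivity

theorem wt_pow_int (n : ℕ) : Integrable (fun z => |wt q z| ^ n) q := by
  obtain ⟨C, hC0, hC⟩ := wt_bdd (q := q)
  refine Integrable.of_bound (measurable_abs_wt.pow_const n).aestronglyMeasurable (C ^ n)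
    (Eventually.of_forall fun z => ?_)
  rw [Real.norm_eq_abs, abs_pow, abs_abs]
  exact pow_le_pow_left₀ (abs_nonneg _) (hC z) n

omit [IsProbabilityMeasure q] in
/-- the success probability -/
theorem acc_wt (y : Dir d) (η : Env d lo κ) :
    acc y η = mean q / κ + wt q (η (edge 0 y)) := by
  unfold acc wt
  rw [← add_div]
  congr 1
  ring

/-! ### environments with prescribed values -/

/-- the coordinates of `J` are taken from `x`, the others from `η` -/
noncomputable def ov (J : Finset (Edge d)) (x η : Env d lo κ) : Env d lo κ :=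
  fun e => if e ∈ J then x e else η e

theorem measurable_ov (J : Finset (Edge d)) :
    Measurable fun t : Env d lo κ × Env d lo κ => ov J t.1 t.2 := by
  refine measurable_pi_lambda _ fun e => ?_
  unfold ov
  by_cases h : e ∈ J
  · simp only [if_pos h]
    exact (measurable_pi_apply e).comp measurable_fst
  · simp only [if_neg h]
    exact (measurable_pi_apply e).comp measurable_snd

theorem measurable_ov_right (J : Finset (Edge d)) (x : Env d lo κ) : Measurable (ov J x) :=
  (measurable_ov J).comp (measurable_const.prodMk measurable_id)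

theorem ov_empty (x η : Env d lo κ) : ov ∅ x η = η := by
  funext e
  unfold ov
  simp

theorem ov_mem {J : Finset (Edge d)} {e : Edge d} (h : e ∈ J) (x η : Env d lo κ) :
    ov J x η e = x e := by
  unfold ov
  rw [if_pos h]

theorem ov_notMem {J : Finset (Edge d)} {e : Edge d} (h : e ∉ J) (x η : Env d lo κ) :
    ov J x η e = η e := by
  unfold ov
  rw [if_neg h]

theorem ov_update {J : Finset (Edge d)} {e : Edge d} (h : e ∉ J) (x η : Env d lo κ)
    (z : Set.Icc lo κ) :
    ov J x (Function.update η e z) = ov (insert e J) (Function.update x e z) η := by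
  funext e'
  by_cases h1 : e' = e
  · subst h1
    rw [ov_notMem h, ov_mem (Finset.mem_insert_self _ _)]
    simp
  · by_cases h2 : e' ∈ J
    · rw [ov_mem h2, ov_mem (Finset.mem_insert_of_mem h2), Function.update_of_ne h1]
    · rw [ov_notMem h2, ov_notMem (by simp [h1, h2]), Function.update_of_ne h1]

end Pool.Agent.NVB
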